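import Pool.Agent.TH791.QD.TimE
import Pool.Agent.H4R2.LO.Main

/-! Existence of the Schrödinger evolution, for every real potential. -/

set_option autoImplicit false
set_option linter.unusedSectionVars false

open scoped BigOperators Topology ENNReal
open MeasureTheory Filter Set

namespace Pool.Agent.TH791.QD

open Pool.Agent.W788.LD.Spec (S symm)
open Pool.Agent.H4R2.LO (Zd)

variable {d : ℕ} {V : Zd d → ℝ} {a : Zd d}

/-- the weight -/
noncomputable def gw (a : Zd d) (x : Zd d) : ℝ := Real.exp (-‖x - a‖)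

theorem gw_pos (a x : Zd d) : 0 < gw a x := Real.exp_pos _

theorem gw_le (a x : Zd d) : gw a x ≤ 1 := by
  unfold gw
  rw [Real.exp_le_one_iff]
  linarith [norm_nonneg (x - a)]

theorem gw_summable (a : Zd d) : Summable (gw a) := by
  have h1 := Pool.Agent.H4R2.LO.Main.summable_exp (d := d) 1 one_pos
  have h2 := h1.comp_injective (sub_left_injective (b := a))
  refine h2.congr fun x => ?_
  unfold gw
  simp

theorem single_norm (i : Fin d) : ‖(Pi.single i 1 : Zd d)‖ ≤ 1 := by
  rw [pi_norm_le_iff_of_nonneg zero_le_one]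
  intro j
  by_cases h : j = i
  · rw [h, Pi.single_eq_same]
    simp
  · rw [Pi.single_eq_of_ne h]
    simp

theorem gw_nb (a x : Zd d) (i : Fin d) : gw a (x + Pi.single i 1) ≤ Real.exp 1 * gw a x ∧
    gw a (x - Pi.single i 1) ≤ Real.exp 1 * gw a x := by
  have h0 := single_norm i
  unfold gw
  rw [← Real.exp_add, Real.exp_le_exp, Real.exp_le_exp]
  constructor
  · have h1 := norm_sub_le (x + Pi.single i 1 - a) (Pi.single i 1)
    have e1 : x + Pi.single i 1 - a - Pi.single i 1 = x - a := by abel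
    rw [e1] at h1
    linarith
  · have h1 := norm_add_le (x - Pi.single i 1 - a) (Pi.single i 1)
    have e1 : x - Pi.single i 1 - a + Pi.single i 1 = x - a := by abel
    rw [e1] at h1
    linarith

/-- the constant -/
noncomputable def Cd (d : ℕ) : ℝ := 2 * d * Real.exp 1

theorem Cd_nonneg (d : ℕ) : 0 ≤ Cd d := by
  unfold Cd
  positivity

theorem S_bd (φ : Zd d → ℂ) (a : Zd d) (B : ℝ) (hB : 0 ≤ B) (h : ∀ x, ‖φ x‖ ≤ B * gw a x)
    (x : Zd d) : ‖S φ x‖ ≤ Cd d * B * gw a x := by
  unfold S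
  refine (norm_sum_le _ _).trans ?_
  have h1 : ∀ i ∈ (Finset.univ : Finset (Fin d)),
      ‖φ (x + Pi.single i 1) + φ (x - Pi.single i 1)‖ ≤ 2 * Real.exp 1 * B * gw a x := by
    intro i _
    obtain ⟨g1, g2⟩ := gw_nb a x i
    have h2 := (h (x + Pi.single i 1)).trans (mul_le_mul_of_nonneg_left g1 hB)
    have h3 := (h (x - Pi.single i 1)).trans (mul_le_mul_of_nonneg_left g2 hB)
    refine (norm_add_le _ _).trans ((add_le_add h2 h3).trans (le_of_eq (by ring)))
  refine (Finset.sum_le_sum h1).trans (le_of_eq ?_)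
  rw [Finset.sum_const, Finset.card_univ, Fintype.card_fin, nsmul_eq_mul]
  unfold Cd
  ring

/-- the hopping in the interaction picture -/
noncomputable def AA (V : Zd d → ℝ) (r : ℝ) (φ : Zd d → ℂ) (x : Zd d) : ℂ :=
  -Complex.I * (Complex.exp (Complex.I * ((r * V x : ℝ) : ℂ)) *
    S (fun y => Complex.exp (-Complex.I * ((r * V y : ℝ) : ℂ)) * φ y) x)

theorem cexp_nrm (r : ℝ) : ‖Complex.exp (Complex.I * (r : ℂ))‖ = 1 := by
  rw [mul_comm]
  exact Complex.norm_exp_ofReal_mul_I r

theorem cexp_nrm' (r : ℝ) : ‖Complex.exp (-Complex.I * (r : ℂ))‖ = 1 := by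
  have h := cexp_nrm (-r)
  push_cast at h
  rwa [mul_neg, ← neg_mul] at h

theorem AA_bd (φ : Zd d → ℂ) (r B : ℝ) (hB : 0 ≤ B) (h : ∀ x, ‖φ x‖ ≤ B * gw a x) (x : Zd d) :
    ‖AA V r φ x‖ ≤ Cd d * B * gw a x := by
  unfold AA
  rw [norm_mul, norm_mul, cexp_nrm, norm_neg, Complex.norm_I, one_mul, one_mul]
  refine S_bd _ a B hB (fun y => ?_) x
  rw [norm_mul, cexp_nrm', one_mul]
  exact h y

theorem AA_cont (φ : ℝ → Zd d → ℂ) (h : ∀ x, Continuous fun s => φ s x) (x : Zd d) :
    Continuous fun r => AA V r (φ r) x := by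
  unfold AA S
  refine continuous_const.mul (Continuous.mul (by fun_prop) (continuous_finsetSum _ fun i _ => ?_))
  have h1 := h (x + Pi.single i 1)
  have h2 := h (x - Pi.single i 1)
  fun_prop

theorem AA_hasSum (f : ℕ → Zd d → ℂ) (g : Zd d → ℂ) (h : ∀ x, HasSum (fun n => f n x) (g x))
    (r : ℝ) (x : Zd d) : HasSum (fun n => AA V r (f n) x) (AA V r g x) := by
  unfold AA S
  refine HasSum.mul_left _ (HasSum.mul_left _ (hasSum_sum fun i _ => ?_))
  exact ((h _).mul_left _).add ((h _).mul_left _)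

/-- the Dyson series -/
noncomputable def dy (V : Zd d → ℝ) (a : Zd d) : ℕ → ℝ → Zd d → ℂ
  | 0 => fun _ x => if x = a then 1 else 0
  | n + 1 => fun s x => ∫ r in (0 : ℝ)..s, AA V r (dy V a n r) x

theorem dy_cont (n : ℕ) : ∀ x, Continuous fun s => dy V a n s x := by
  induction n with
  | zero => exact fun x => continuous_const
  | succ n ih =>
    intro x
    exact intervalIntegral.continuous_primitive
      (fun b c => (AA_cont _ ih x).intervalIntegrable b c) 0

theorem dy_deriv (n : ℕ) (s : ℝ) (x : Zd d) :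
    HasDerivAt (fun s => dy V a (n + 1) s x) (AA V s (dy V a n s) x) s :=
  ((AA_cont (V := V) _ (dy_cont (V := V) (a := a) n) x).integral_hasStrictDerivAt 0 s).hasDerivAt

theorem dy_bd (n : ℕ) : ∀ s x, ‖dy V a n s x‖ ≤ (Cd d * |s|) ^ n / n.factorial * gw a x := by
  induction n with
  | zero =>
    intro s x
    unfold dy
    split_ifs with h
    · rw [h]
      simp [gw]
    · simp only [norm_zero, pow_zero, Nat.factorial_zero, Nat.cast_one, div_one, one_mul]
      exact (gw_pos a x).le
  | succ n ih =>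
    intro s x
    have hC := Cd_nonneg d
    have hg := gw_pos a x
    have e1 : dy V a (n + 1) s x = ∫ r in (0 : ℝ)..s, AA V r (dy V a n r) x := rfl
    rw [e1, intervalIntegral.norm_integral_eq_norm_integral_uIoc]
    have h1 : ∀ r : ℝ, ‖AA V r (dy V a n r) x‖ ≤
        Cd d ^ (n + 1) / n.factorial * gw a x * |r - 0| ^ n := by
      intro r
      refine (AA_bd (dy V a n r) r ((Cd d * |r|) ^ n / n.factorial) (by positivity)
        (ih r) x).trans (le_of_eq ?_)
      rw [sub_zero]
      ring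
    refine (norm_integral_le_of_norm_le (g := fun r =>
      Cd d ^ (n + 1) / n.factorial * gw a x * |r - 0| ^ n) ?_
      (Filter.Eventually.of_forall h1)).trans (le_of_eq ?_)
    · apply Continuous.integrableOn_uIoc
      fun_prop
    · rw [integral_const_mul, integral_pow_abs_sub_uIoc, sub_zero, Nat.factorial_succ]
      push_cast
      field_simp
      ring

/-- the sum of the Dyson series -/
noncomputable def phi (V : Zd d → ℝ) (a : Zd d) (s : ℝ) (x : Zd d) : ℂ := ∑' n, dy V a n s x

/-- the bound of the sum -/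
noncomputable def EB (d : ℕ) (R : ℝ) : ℝ := ∑' n : ℕ, (Cd d * R) ^ n / n.factorial

theorem EB_sum (d : ℕ) (R : ℝ) : Summable fun n : ℕ => (Cd d * R) ^ n / n.factorial :=
  Real.summable_pow_div_factorial _

theorem EB_nonneg (d : ℕ) (R : ℝ) (hR : 0 ≤ R) : 0 ≤ EB d R :=
  tsum_nonneg fun n => by
    have := Cd_nonneg d
    positivity

theorem dy_bdR (n : ℕ) (s R : ℝ) (hs : |s| ≤ R) (x : Zd d) :
    ‖dy V a n s x‖ ≤ (Cd d * R) ^ n / n.factorial * gw a x := by
  refine (dy_bd n s x).trans ?_
  have hC := Cd_nonneg d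
  have hg := (gw_pos a x).le
  gcongr

theorem dy_sum (s : ℝ) (x : Zd d) : HasSum (fun n => dy V a n s x) (phi V a s x) := by
  refine Summable.hasSum ?_
  refine Summable.of_norm_bounded ((EB_sum d |s|).mul_right (gw a x)) fun n => ?_
  exact dy_bdR n s |s| le_rfl x

theorem phi_bd (s R : ℝ) (hs : |s| ≤ R) (x : Zd d) : ‖phi V a s x‖ ≤ EB d R * gw a x := by
  unfold phi EB
  rw [← tsum_mul_right]
  exact tsum_of_norm_bounded ((EB_sum d R).mul_right (gw a x)).hasSum fun n => dy_bdR n s R hs x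

theorem phi_zero (x : Zd d) : phi V a 0 x = if x = a then 1 else 0 := by
  unfold phi
  rw [tsum_eq_single 0]
  · rfl
  · intro n hn
    obtain ⟨m, rfl⟩ := Nat.exists_eq_succ_of_ne_zero hn
    unfold dy
    simp

theorem phi_deriv (s : ℝ) (x : Zd d) : HasDerivAt (fun s => phi V a s x) (AA V s (phi V a s) x) s := by
  have hC := Cd_nonneg d
  obtain ⟨R, hR⟩ : ∃ R, R = |s| + 1 := ⟨_, rfl⟩
  have hR0 : 0 < R := by rw [hR]; positivity
  have hsR : s ∈ Ioo (-R) R := by
    rw [mem_Ioo, ← abs_lt, hR]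
    linarith
  have h1 := hasDerivAt_tsum_of_isPreconnected (u := fun n : ℕ => Cd d *
      ((Cd d * R) ^ n / n.factorial) * gw a x) (g := fun n s => dy V a (n + 1) s x)
      (g' := fun n s => AA V s (dy V a n s) x) (t := Ioo (-R) R) (y₀ := s) (y := s)
      (((EB_sum d R).mul_left _).mul_right _) isOpen_Ioo isPreconnected_Ioo
      (fun n y _ => dy_deriv n y x) (fun n y hy => ?_) hsR ?_ hsR
  · have h2 : ∀ s, phi V a s x = dy V a 0 s x + ∑' n, dy V a (n + 1) s x := fun s =>
      (dy_sum (V := V) (a := a) s x).summable.tsum_eq_zero_add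
    have h3 : (fun s => phi V a s x) = fun s => (if x = a then (1 : ℂ) else 0) +
        ∑' n, dy V a (n + 1) s x := by
      funext s
      rw [h2]
      rfl
    rw [h3]
    have h4 := (AA_hasSum (V := V) (fun n => dy V a n s) (phi V a s) (fun x => dy_sum s x) s x).tsum_eq
    rw [h4] at h1
    exact h1.const_add _
  · exact AA_bd _ y _ (by positivity) (dy_bdR n y R (abs_lt.2 hy).le) x
  · exact (summable_nat_add_iff 1).2 (dy_sum (V := V) (a := a) s x).summable

/-- the evolution -/
noncomputable def ev (V : Zd d → ℝ) (a : Zd d) (s : ℝ) (x : Zd d) : ℂ :=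
  Complex.exp (-Complex.I * ((s * V x : ℝ) : ℂ)) * phi V a s x

theorem ev_bd (s R : ℝ) (hs : |s| ≤ R) (x : Zd d) : ‖ev V a s x‖ ≤ EB d R * gw a x := by
  unfold ev
  rw [norm_mul, cexp_nrm', one_mul]
  exact phi_bd s R hs x

theorem ev_zero (x : Zd d) : ev V a 0 x = if x = a then 1 else 0 := by
  unfold ev
  rw [phi_zero]
  simp

theorem ev_deriv (s : ℝ) (x : Zd d) : HasDerivAt (fun s => ev V a s x)
    (-Complex.I * (S (ev V a s) x + (V x : ℂ) * ev V a s x)) s := by
  have h1 := phi_deriv (V := V) (a := a) s x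
  have h2 : HasDerivAt (fun s : ℝ => Complex.exp (-Complex.I * ((s * V x : ℝ) : ℂ)))
      (Complex.exp (-Complex.I * ((s * V x : ℝ) : ℂ)) * (-Complex.I * (V x : ℂ))) s := by
    have h3 : HasDerivAt (fun s : ℝ => -Complex.I * ((s * V x : ℝ) : ℂ)) (-Complex.I * (V x : ℂ))
        s := by
      have h4 : HasDerivAt (fun s : ℝ => s * V x) (V x) s := by
        simpa using (hasDerivAt_id s).mul_const (V x)
      exact h4.ofReal_comp.const_mul _
    exact h3.cexp
  have h5 := h2.mul h1
  refine h5.congr_deriv ?_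
  have e1 : Complex.exp (-Complex.I * ((s * V x : ℝ) : ℂ)) *
      Complex.exp (Complex.I * ((s * V x : ℝ) : ℂ)) = 1 := by
    rw [← Complex.exp_add]
    simp
  have e2 : S (fun y => Complex.exp (-Complex.I * ((s * V y : ℝ) : ℂ)) * phi V a s y) x =
      S (ev V a s) x := rfl
  unfold AA
  rw [e2]
  have e3 : ev V a s x = Complex.exp (-Complex.I * ((s * V x : ℝ) : ℂ)) * phi V a s x := rfl
  rw [e3]
  linear_combination (-Complex.I * S (ev V a s) x) * e1

theorem ev_summ (s : ℝ) : Summable fun x => ‖ev V a s x‖ ^ 2 := by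
  have hB := EB_nonneg d |s| (abs_nonneg s)
  refine Summable.of_nonneg_of_le (fun x => by positivity) (fun x => ?_)
    ((gw_summable a).mul_left (EB d |s| ^ 2))
  have h1 := pow_le_pow_left₀ (norm_nonneg _) (ev_bd (V := V) (a := a) s |s| le_rfl x) 2
  refine h1.trans ?_
  rw [mul_pow]
  refine mul_le_mul_of_nonneg_left ?_ (by positivity)
  have h2 := gw_le a x
  have h3 := gw_pos a x
  nlinarith

theorem ev_norm_deriv (s : ℝ) : HasDerivAt (fun s => ∑' x, ‖ev V a s x‖ ^ 2) 0 s := by
  have hC := Cd_nonneg d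
  obtain ⟨R, hR⟩ : ∃ R, R = |s| + 1 := ⟨_, rfl⟩
  have hR0 : 0 < R := by rw [hR]; positivity
  have hB := EB_nonneg d R hR0.le
  have hsR : s ∈ Ioo (-R) R := by
    rw [mem_Ioo, ← abs_lt, hR]
    linarith
  have hd : ∀ y x, HasDerivAt (fun s => ‖ev V a s x‖ ^ 2)
      (2 * ((starRingEnd ℂ) (ev V a y x) * S (ev V a y) x).im) y := by
    intro y x
    have h1 := (ev_deriv (V := V) (a := a) y x).norm_sq
    refine h1.congr_deriv ?_
    rw [Complex.inner]
    congr 1
    simp [Complex.mul_re, Complex.mul_im]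
    ring
  have h1 := hasDerivAt_tsum_of_isPreconnected (u := fun x => 2 * (EB d R * (Cd d * EB d R)) *
      gw a x) (g := fun x s => ‖ev V a s x‖ ^ 2)
      (g' := fun x s => 2 * ((starRingEnd ℂ) (ev V a s x) * S (ev V a s) x).im) (t := Ioo (-R) R)
      (y₀ := s) (y := s) ((gw_summable a).mul_left _) isOpen_Ioo isPreconnected_Ioo
      (fun x y _ => hd y x) (fun x y hy => ?_) hsR (ev_summ s) hsR
  · have h2 : ∑' x, 2 * ((starRingEnd ℂ) (ev V a s x) * S (ev V a s) x).im = 0 := by
      obtain ⟨s1, s2, e1⟩ := symm (ev V a s) (ev V a s) (ev_summ s) (ev_summ s)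
      rw [tsum_mul_left]
      have h3 : ∑' x, ((starRingEnd ℂ) (ev V a s x) * S (ev V a s) x).im =
          (∑' x, (starRingEnd ℂ) (ev V a s x) * S (ev V a s) x).im :=
        (Complex.hasSum_im s1.hasSum).tsum_eq
      have h4 : (starRingEnd ℂ) (∑' x, (starRingEnd ℂ) (ev V a s x) * S (ev V a s) x) =
          ∑' x, (starRingEnd ℂ) (S (ev V a s) x) * ev V a s x := by
        rw [Complex.conj_tsum]
        refine tsum_congr fun x => ?_
        simp
        ring
      rw [← e1] at h4
      rw [h3]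
      have h5 := congrArg Complex.im h4
      rw [Complex.conj_im] at h5
      linarith
    rw [h2] at h1
    exact h1
  · have hy' : |y| ≤ R := (abs_lt.2 hy).le
    have h2 := ev_bd (V := V) (a := a) y R hy'
    have h3 := S_bd (ev V a y) a (EB d R) hB h2 x
    have h4 := gw_le a x
    have h5 := gw_pos a x
    rw [norm_mul, Real.norm_eq_abs, abs_two, mul_assoc]
    refine mul_le_mul_of_nonneg_left ?_ zero_le_two
    refine (Complex.abs_im_le_norm _).trans ?_
    rw [norm_mul, Complex.norm_conj]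
    calc ‖ev V a y x‖ * ‖S (ev V a y) x‖ ≤ (EB d R * gw a x) * (Cd d * EB d R * gw a x) :=
          mul_le_mul (h2 x) h3 (norm_nonneg _) (by positivity)
      _ ≤ (EB d R * 1) * (Cd d * EB d R * gw a x) := by gcongr
      _ = _ := by ring

/-- **existence of the evolution** -/
theorem ev_evo (V : Zd d → ℝ) (a : Zd d) : Evo d V a (ev V a) where
  init := ev_zero
  ode := ev_deriv
  norm s := by
    have h1 : ∀ s s', (∑' x, ‖ev V a s x‖ ^ 2) = ∑' x, ‖ev V a s' x‖ ^ 2 :=
      is_const_of_deriv_eq_zero (fun s => (ev_norm_deriv (V := V) (a := a) s).differentiableAt)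
        (fun s => (ev_norm_deriv (V := V) (a := a) s).deriv)
    have h2 : (∑' x, ‖ev V a s x‖ ^ 2) = 1 := by
      rw [h1 s 0]
      simp only [ev_zero]
      rw [tsum_eq_single a]
      · simp
      · intro x hx
        simp [hx]
    rw [← h2]
    exact (ev_summ s).hasSum

/-- **uniqueness of the evolution** -/
theorem Evo.unique {ψ ψ' : ℝ → Zd d → ℂ} (h : Evo d V a ψ) (h' : Evo d V a ψ') : ψ = ψ' := by
  have hC := Cd_nonneg d
  obtain ⟨χ, hχ⟩ : ∃ χ : ℝ → Zd d → ℂ, χ = fun s x => ψ s x - ψ' s x := ⟨_, rfl⟩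
  have hχ0 : ∀ x, χ 0 x = 0 := by
    intro x
    rw [hχ]
    simp only
    rw [h.init, h'.init, sub_self]
  have hχd : ∀ s x, HasDerivAt (fun s => χ s x) (-Complex.I * (S (χ s) x + (V x : ℂ) * χ s x)) s := by
    intro s x
    rw [hχ]
    refine ((h.ode s x).sub (h'.ode s x)).congr_deriv ?_
    have e1 : S (fun x => ψ s x - ψ' s x) x = S (ψ s) x - S (ψ' s) x := by
      unfold S
      rw [← Finset.sum_sub_distrib]
      exact Finset.sum_congr rfl fun i _ => by ring
    rw [e1]
    ring
  have hχs : ∀ s, Summable fun x => ‖χ s x‖ ^ 2 := by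
    intro s
    have h1 := ((h.norm s).summable.mul_left 2).add ((h'.norm s).summable.mul_left 2)
    refine Summable.of_nonneg_of_le (fun x => by positivity) (fun x => ?_) h1
    rw [hχ]
    simp only
    have h2 := norm_sub_le (ψ s x) (ψ' s x)
    have h3 := pow_le_pow_left₀ (norm_nonneg _) h2 2
    nlinarith [sq_nonneg (‖ψ s x‖ - ‖ψ' s x‖)]
  have hle : ∀ {ψ : ℝ → Zd d → ℂ}, Evo d V a ψ → ∀ s x, ‖ψ s x‖ ≤ 1 := by
    intro ψ h s x
    have h1 := le_hasSum (h.norm s) x fun y _ => by positivity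
    have h2 := norm_nonneg (ψ s x)
    nlinarith
  have hχb : ∀ s x, ‖χ s x‖ ≤ 2 := by
    intro s x
    rw [hχ]
    refine (norm_sub_le _ _).trans ?_
    linarith [hle h s x, hle h' s x]
  have hSb : ∀ s x, ‖S (χ s) x‖ ≤ 4 * d := by
    intro s x
    unfold S
    refine (norm_sum_le _ _).trans ?_
    refine (Finset.sum_le_sum fun i _ => (norm_add_le _ _).trans
      (add_le_add (hχb s _) (hχb s _))).trans (le_of_eq ?_)
    rw [Finset.sum_const, Finset.card_univ, Fintype.card_fin, nsmul_eq_mul]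
    ring
  suffices hz : ∀ T y, χ T y = 0 by
    funext T y
    have := hz T y
    rw [hχ] at this
    exact sub_eq_zero.1 this
  intro T y
  obtain ⟨F, hF⟩ : ∃ F : ℝ → ℂ, F = fun s => ∑' x, ev V y (T - s) x * χ s x := ⟨_, rfl⟩
  have hFd : ∀ s, HasDerivAt F 0 s := by
    intro s
    obtain ⟨R, hR⟩ : ∃ R, R = |s| + 1 := ⟨_, rfl⟩
    obtain ⟨R', hR'⟩ : ∃ R', R' = |T| + R := ⟨_, rfl⟩
    have hR0 : 0 < R := by rw [hR]; positivity
    have hR0' : 0 ≤ R' := by rw [hR']; positivity
    have hB := EB_nonneg d R' hR0'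
    have hsR : s ∈ Ioo (-R) R := by
      rw [mem_Ioo, ← abs_lt, hR]
      linarith
    have hyR : ∀ r ∈ Ioo (-R) R, |T - r| ≤ R' := by
      intro r hr
      have h1 := abs_lt.2 hr
      have h2 := abs_sub T r
      rw [hR']
      linarith
    have hd : ∀ r x, HasDerivAt (fun s => ev V y (T - s) x * χ s x)
        (Complex.I * (S (ev V y (T - r)) x * χ r x - ev V y (T - r) x * S (χ r) x)) r := by
      intro r x
      have h1 : HasDerivAt (fun s : ℝ => T - s) (-1) r := by
        simpa using (hasDerivAt_id r).const_sub T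
      have h2 := HasDerivAt.scomp r (ev_deriv (V := V) (a := y) (T - r) x) h1
      have h3 := h2.mul (hχd r x)
      refine h3.congr_deriv ?_
      simp only [Function.comp_def, neg_smul, one_smul]
      ring
    have hbd : ∀ x, ∀ r ∈ Ioo (-R) R, ‖Complex.I * (S (ev V y (T - r)) x * χ r x -
        ev V y (T - r) x * S (χ r) x)‖ ≤ (Cd d * EB d R' * 2 + EB d R' * (4 * d)) * gw y x := by
      intro x r hr
      have h2 := ev_bd (V := V) (a := y) (T - r) R' (hyR r hr)
      have h3 := S_bd (ev V y (T - r)) y (EB d R') hB h2 x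
      have h5 := (gw_pos y x).le
      rw [norm_mul, Complex.norm_I, one_mul]
      refine (norm_sub_le _ _).trans ?_
      rw [norm_mul, norm_mul]
      calc ‖S (ev V y (T - r)) x‖ * ‖χ r x‖ + ‖ev V y (T - r) x‖ * ‖S (χ r) x‖ ≤
          (Cd d * EB d R' * gw y x) * 2 + (EB d R' * gw y x) * (4 * d) := by
            apply add_le_add
            · exact mul_le_mul h3 (hχb r x) (norm_nonneg _) (by positivity)
            · exact mul_le_mul (h2 x) (hSb r x) (norm_nonneg _) (by positivity)
        _ = _ := by ring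
    have hsum0 : ∀ r, Summable fun x => ev V y (T - r) x * χ r x := by
      intro r
      refine Summable.of_norm_bounded ((gw_summable y).mul_left (EB d |T - r| * 2)) fun x => ?_
      have h2 := ev_bd (V := V) (a := y) (T - r) |T - r| le_rfl x
      have hB' := EB_nonneg d |T - r| (abs_nonneg _)
      have h5 := (gw_pos y x).le
      rw [norm_mul]
      calc ‖ev V y (T - r) x‖ * ‖χ r x‖ ≤ (EB d |T - r| * gw y x) * 2 :=
            mul_le_mul h2 (hχb r x) (norm_nonneg _) (by positivity)
        _ = _ := by ring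
    have h1 := hasDerivAt_tsum_of_isPreconnected (u := fun x =>
        (Cd d * EB d R' * 2 + EB d R' * (4 * d)) * gw y x)
        (g := fun x s => ev V y (T - s) x * χ s x)
        (g' := fun x s => Complex.I * (S (ev V y (T - s)) x * χ s x -
          ev V y (T - s) x * S (χ s) x)) (t := Ioo (-R) R)
        (y₀ := s) (y := s) ((gw_summable y).mul_left _) isOpen_Ioo isPreconnected_Ioo
        (fun x r _ => hd r x) hbd hsR (hsum0 s) hsR
    have h2 : ∑' x, Complex.I * (S (ev V y (T - s)) x * χ s x -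
        ev V y (T - s) x * S (χ s) x) = 0 := by
      have hc : Summable fun x => ‖(starRingEnd ℂ) (ev V y (T - s) x)‖ ^ 2 := by
        simp only [Complex.norm_conj]
        exact ev_summ (T - s)
      obtain ⟨s1, s2, e1⟩ := symm (fun x => (starRingEnd ℂ) (ev V y (T - s) x)) (χ s) hc (hχs s)
      simp only [S_conj, Complex.conj_conj] at s1 s2 e1
      rw [tsum_mul_left, s2.tsum_sub s1, e1, sub_self, mul_zero]
    rw [h2] at h1
    rw [hF]
    exact h1
  have hconst : ∀ s s', F s = F s' :=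
    is_const_of_deriv_eq_zero (fun s => (hFd s).differentiableAt) (fun s => (hFd s).deriv)
  have h0 : F 0 = 0 := by
    rw [hF]
    simp only [hχ0, mul_zero, tsum_zero]
  have h1 : F T = χ T y := by
    rw [hF]
    simp only [sub_self, ev_zero]
    rw [tsum_eq_single y]
    · simp
    · intro x hx
      simp [hx]
  rw [← h1, hconst T 0, h0]

end Pool.Agent.TH791.QD
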