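import Pool.Agent.TH791.QD.Nrm

/-! Positivity of the density of states and of the diffusion constant inside the spectrum. -/

set_option autoImplicit false
set_option linter.unusedSectionVars false

open scoped BigOperators Topology
open MeasureTheory Filter Set

namespace Pool.Agent.TH791.QD

open Pool.Agent.W788.BK (S_OSC)
open Pool.Agent.TH794.QD (GF pp qq ff fs pp_cont qq_cont ff_norm ff_cont fs_cont F0 CH CH_nonneg
  hol1)

/-- the energy -/
noncomputable def cc (x : ℝ) : ℝ := 2 * Real.cos (2 * Real.pi * x)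

theorem cc_cont : Continuous cc := by
  unfold cc
  fun_prop

/-- the average with weight `w` -/
noncomputable def av (w : ℝ → ℝ) (s : ℝ) : ℂ := ∫ x in (0 : ℝ)..1, ((w x : ℝ) : ℂ) * ff s x

theorem ff_mul (s x : ℝ) (z : ℂ) : ff s x * Complex.exp (Complex.I * z * s) =
    Complex.exp (Complex.I * (z - (cc x : ℝ)) * s) := by
  unfold ff cc
  rw [← Complex.exp_add]
  congr 1
  push_cast
  ring

theorem exp_nrm (z : ℂ) (s : ℝ) : ‖Complex.exp (Complex.I * z * s)‖ = Real.exp (-z.im * s) := by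
  rw [Complex.norm_exp]
  congr 1
  simp

/-- the integrand is integrable -/
theorem conv_intb (F : ℝ → ℂ) (hF : Continuous F) (hF1 : ∀ s, ‖F s‖ ≤ 1) (w : ℝ → ℝ)
    (hw : Continuous w) (hw1 : ∀ x, |w x| ≤ 1) (z : ℂ) (hz : 0 < z.im) :
    Integrable (Function.uncurry fun (s x : ℝ) => ((w x : ℝ) : ℂ) *
      (F s * Complex.exp (Complex.I * (z - (cc x : ℝ)) * s)))
      ((volume.restrict (Ioi (0 : ℝ))).prod (volume.restrict (Ioc (0 : ℝ) 1))) := by
  have h1 : Integrable (fun s : ℝ => Real.exp (-z.im * s)) (volume.restrict (Ioi (0 : ℝ))) :=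
    integrableOn_exp_mul_Ioi (neg_lt_zero.2 hz) 0
  have h2 : Integrable (fun p : ℝ × ℝ => Real.exp (-z.im * p.1) * (1 : ℝ))
      ((volume.restrict (Ioi (0 : ℝ))).prod (volume.restrict (Ioc (0 : ℝ) 1))) :=
    h1.mul_prod (integrable_const 1)
  refine h2.mono' ?_ ?_
  · apply Continuous.aestronglyMeasurable
    unfold Function.uncurry
    have := cc_cont
    fun_prop
  · refine Filter.Eventually.of_forall fun p => ?_
    rw [mul_one]
    unfold Function.uncurry
    rw [norm_mul, norm_mul, exp_nrm, Complex.norm_real, Real.norm_eq_abs]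
    have e1 : (z - ((cc p.2 : ℝ) : ℂ)).im = z.im := by simp
    rw [e1]
    calc |w p.2| * (‖F p.1‖ * Real.exp (-z.im * p.1)) ≤ 1 * (1 * Real.exp (-z.im * p.1)) := by
          apply mul_le_mul (hw1 _) _ (by positivity) zero_le_one
          exact mul_le_mul_of_nonneg_right (hF1 _) (Real.exp_pos _).le
      _ = _ := by ring

/-- Fubini -/
theorem GF_conv (F : ℝ → ℂ) (hF : Continuous F) (hF1 : ∀ s, ‖F s‖ ≤ 1) (w : ℝ → ℝ)
    (hw : Continuous w) (hw1 : ∀ x, |w x| ≤ 1) (z : ℂ) (hz : 0 < z.im) :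
    IntervalIntegrable (fun x => w x * (GF F (z - (cc x : ℝ))).im) volume 0 1 ∧
    (GF (fun s => F s * av w s) z).im = ∫ x in (0 : ℝ)..1, w x * (GF F (z - (cc x : ℝ))).im := by
  have h1 := conv_intb F hF hF1 w hw hw1 z hz
  have h2 := integral_integral_swap h1
  have h3 := h1.integral_prod_right
  have e1 : ∀ x : ℝ, (∫ s in Ioi (0 : ℝ), ((w x : ℝ) : ℂ) *
      (F s * Complex.exp (Complex.I * (z - (cc x : ℝ)) * s))) =
      ((w x : ℝ) : ℂ) * ∫ s in Ioi (0 : ℝ),
      (F s * Complex.exp (Complex.I * (z - (cc x : ℝ)) * s)) := by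
    intro x
    rw [integral_const_mul]
  have e2 : ∀ s : ℝ, (∫ x in Ioc (0 : ℝ) 1, ((w x : ℝ) : ℂ) *
      (F s * Complex.exp (Complex.I * (z - (cc x : ℝ)) * s))) =
      F s * av w s * Complex.exp (Complex.I * z * s) := by
    intro s
    unfold av
    rw [intervalIntegral.integral_of_le zero_le_one, mul_assoc, ← integral_mul_const,
      ← integral_const_mul]
    refine integral_congr_ae (Filter.Eventually.of_forall fun x => ?_)
    simp only
    rw [← ff_mul]
    ring
  simp only [Function.uncurry] at h3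
  simp only [e1] at h2 h3
  simp only [e2] at h2
  have h4 : Integrable (fun x : ℝ => Complex.I * (((w x : ℝ) : ℂ) * ∫ s in Ioi (0 : ℝ),
      (F s * Complex.exp (Complex.I * (z - (cc x : ℝ)) * s))))
      (volume.restrict (Ioc (0 : ℝ) 1)) := h3.const_mul _
  have e3 : ∀ x : ℝ, w x * (GF F (z - (cc x : ℝ))).im =
      (Complex.I * (((w x : ℝ) : ℂ) * ∫ s in Ioi (0 : ℝ),
      (F s * Complex.exp (Complex.I * (z - (cc x : ℝ)) * s)))).im := by
    intro x
    unfold GF
    rw [← Complex.im_ofReal_mul]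
    congr 1
    ring
  have e4 : (fun x => w x * (GF F (z - (cc x : ℝ))).im) = fun x => 
      (Complex.I * (((w x : ℝ) : ℂ) * ∫ s in Ioi (0 : ℝ),
      (F s * Complex.exp (Complex.I * (z - (cc x : ℝ)) * s)))).im := funext e3
  constructor
  · rw [e4, intervalIntegrable_iff_integrableOn_Ioc_of_le zero_le_one]
    exact h4.im
  · rw [e4, intervalIntegral.integral_of_le zero_le_one]
    have h5 := integral_im h4
    simp only [RCLike.im_eq_complex_im] at h5
    rw [h5, integral_const_mul, ← h2]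
    rfl

/-- the lower bound -/
theorem conv_low (F : ℝ → ℂ) (hF : Continuous F) (hF1 : ∀ s, ‖F s‖ ≤ 1) (w : ℝ → ℝ)
    (hw : Continuous w) (hw1 : ∀ x, |w x| ≤ 1) (hw0 : ∀ x, 0 ≤ w x) (z : ℂ) (hz : 0 < z.im)
    (hpos : ∀ z' : ℂ, 0 < z'.im → 0 ≤ (GF F z').im) (x0 r m : ℝ) (hx0 : 0 ≤ x0) (hr : 0 ≤ r)
    (hxr : x0 + r ≤ 1) (hm : ∀ x, x0 ≤ x → x ≤ x0 + r → m ≤ w x * (GF F (z - (cc x : ℝ))).im) :
    r * m ≤ (GF (fun s => F s * av w s) z).im := by
  obtain ⟨h1, h2⟩ := GF_conv F hF hF1 w hw hw1 z hz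
  rw [h2, intervalIntegral.integral_of_le zero_le_one]
  rw [intervalIntegrable_iff_integrableOn_Ioc_of_le zero_le_one] at h1
  have hsub : Ioc x0 (x0 + r) ⊆ Ioc (0 : ℝ) 1 := Ioc_subset_Ioc hx0 hxr
  have h3 : ∫ x in Ioc x0 (x0 + r), w x * (GF F (z - (cc x : ℝ))).im ≤
      ∫ x in Ioc (0 : ℝ) 1, w x * (GF F (z - (cc x : ℝ))).im := by
    refine setIntegral_mono_set h1 (Filter.Eventually.of_forall fun x => ?_)
      (Filter.Eventually.of_forall hsub)
    simp only [Pi.zero_apply]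
    exact mul_nonneg (hw0 x) (hpos _ (by simpa using hz))
  refine le_trans ?_ h3
  have h4 : ∫ _x in Ioc x0 (x0 + r), m ≤
      ∫ x in Ioc x0 (x0 + r), w x * (GF F (z - (cc x : ℝ))).im := by
    refine setIntegral_mono_on ?_ (h1.mono_set hsub) measurableSet_Ioc fun x hx => ?_
    · exact integrableOn_const (by simp)
    · exact hm x hx.1.le hx.2
  refine le_trans (le_of_eq ?_) h4
  rw [setIntegral_const, Measure.real, Real.volume_Ioc, ENNReal.toReal_ofReal (by linarith),
    smul_eq_mul]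
  ring

theorem conv_nonneg (F : ℝ → ℂ) (hF : Continuous F) (hF1 : ∀ s, ‖F s‖ ≤ 1) (w : ℝ → ℝ)
    (hw : Continuous w) (hw1 : ∀ x, |w x| ≤ 1) (hw0 : ∀ x, 0 ≤ w x) (z : ℂ) (hz : 0 < z.im)
    (hpos : ∀ z' : ℂ, 0 < z'.im → 0 ≤ (GF F z').im) :
    0 ≤ (GF (fun s => F s * av w s) z).im := by
  have h := conv_low F hF hF1 w hw hw1 hw0 z hz hpos 0 0 0 le_rfl le_rfl (by norm_num)
    (fun x _ _ => mul_nonneg (hw0 x) (hpos _ (by simpa using hz)))
  simpa using h

theorem GF_one (z : ℂ) (hz : 0 < z.im) : GF (fun _ => 1) z = -z⁻¹ := by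
  unfold GF
  have hz0 : z ≠ 0 := by
    intro h
    rw [h] at hz
    simp at hz
  have h1 := integral_exp_mul_complex_Ioi (a := Complex.I * z) (by simpa using hz) 0
  simp only [one_mul]
  rw [h1]
  simp
  field_simp

theorem GF_one_im (z : ℂ) (hz : 0 < z.im) :
    (GF (fun _ => 1) z).im = z.im / (z.re ^ 2 + z.im ^ 2) := by
  rw [GF_one z hz, Complex.neg_im, Complex.inv_im, Complex.normSq_apply]
  rw [neg_div, neg_neg]
  congr 1
  ring

/-- the amplitudes -/
noncomputable def Fn (n : ℕ) (s : ℝ) : ℂ := qq s * pp s ^ n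

theorem pp_le (s : ℝ) : ‖pp s‖ ≤ 1 := by
  unfold pp
  refine (intervalIntegral.norm_integral_le_of_norm_le_const (C := 1) fun x _ => ?_).trans
    (by simp)
  rw [ff_norm]

theorem qq_le (s : ℝ) : ‖qq s‖ ≤ 1 := by
  unfold qq
  refine (intervalIntegral.norm_integral_le_of_norm_le_const (C := 1) fun x _ => ?_).trans
    (by simp)
  unfold fs
  rw [norm_mul, ff_norm, mul_one, Complex.norm_real, Real.norm_of_nonneg (sq_nonneg _)]
  exact Real.sin_sq_le_one _

theorem Fn_cont (n : ℕ) : Continuous (Fn n) := qq_cont.mul (pp_cont.pow n)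

theorem Fn_le (n : ℕ) (s : ℝ) : ‖Fn n s‖ ≤ 1 := by
  unfold Fn
  rw [norm_mul, norm_pow]
  exact mul_le_one₀ (qq_le s) (by positivity) (pow_le_one₀ (norm_nonneg _) (pp_le s))

theorem av_one (s : ℝ) : av (fun _ => 1) s = pp s := by
  unfold av pp
  simp

theorem av_sin (s : ℝ) : av (fun x => Real.sin (2 * Real.pi * x) ^ 2) s = qq s := rfl

theorem Fn_zero : Fn 0 = fun s => (fun _ : ℝ => (1 : ℂ)) s *
    av (fun x => Real.sin (2 * Real.pi * x) ^ 2) s := by
  funext s
  rw [av_sin]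
  unfold Fn
  simp

theorem Fn_succ (n : ℕ) : Fn (n + 1) = fun s => Fn n s * av (fun _ => 1) s := by
  funext s
  rw [av_one]
  unfold Fn
  ring

theorem sin_w (x : ℝ) : |Real.sin (2 * Real.pi * x) ^ 2| ≤ 1 := by
  rw [abs_of_nonneg (sq_nonneg _)]
  exact Real.sin_sq_le_one _

theorem GF_one_nonneg (z : ℂ) (hz : 0 < z.im) : 0 ≤ (GF (fun _ => 1) z).im := by
  rw [GF_one_im z hz]
  positivity

theorem Fn_nonneg (n : ℕ) : ∀ z : ℂ, 0 < z.im → 0 ≤ (GF (Fn n) z).im := by
  induction n with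
  | zero =>
    intro z hz
    rw [Fn_zero]
    exact conv_nonneg _ continuous_const (by simp) _ (by fun_prop) sin_w (fun x => sq_nonneg _) z hz
      GF_one_nonneg
  | succ n ih =>
    intro z hz
    rw [Fn_succ]
    exact conv_nonneg _ (Fn_cont n) (Fn_le n) _ continuous_const (by simp) (by simp) z hz ih

/-- the Lipschitz bound for the energy -/
theorem cc_lip (x y : ℝ) : |cc x - cc y| ≤ 4 * Real.pi * |x - y| := by
  unfold cc
  have h1 := Real.abs_cos_sub_cos_le (2 * Real.pi * x) (2 * Real.pi * y)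
  rw [← mul_sub, abs_mul (2 * Real.pi), abs_of_pos (by positivity : (0 : ℝ) < 2 * Real.pi)] at h1
  rw [← mul_sub, abs_mul, abs_two]
  linarith

theorem sin_lip (x y : ℝ) : |Real.sin (2 * Real.pi * x) ^ 2 - Real.sin (2 * Real.pi * y) ^ 2| ≤
    4 * Real.pi * |x - y| := by
  have h1 := Real.abs_sin_sub_sin_le (2 * Real.pi * x) (2 * Real.pi * y)
  rw [← mul_sub, abs_mul (2 * Real.pi), abs_of_pos (by positivity : (0 : ℝ) < 2 * Real.pi)] at h1
  rw [sq_sub_sq, abs_mul]
  have h2 : |Real.sin (2 * Real.pi * x) + Real.sin (2 * Real.pi * y)| ≤ 2 := by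
    refine (abs_add_le _ _).trans ?_
    have := Real.abs_sin_le_one (2 * Real.pi * x)
    have := Real.abs_sin_le_one (2 * Real.pi * y)
    linarith
  calc |Real.sin (2 * Real.pi * x) + Real.sin (2 * Real.pi * y)| *
      |Real.sin (2 * Real.pi * x) - Real.sin (2 * Real.pi * y)| ≤ 2 * (2 * Real.pi * |x - y|) := by
        gcongr
    _ = _ := by ring

/-- a point of given energy -/
theorem ex_pt (e : ℝ) (he : |e| ≤ 2) : ∃ x : ℝ, 0 ≤ x ∧ x ≤ 1 / 2 ∧ cc x = e := by
  have hpi := Real.pi_pos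
  have h1 := abs_le.1 he
  refine ⟨Real.arccos (e / 2) / (2 * Real.pi), by have := Real.arccos_nonneg (e / 2); positivity,
    ?_, ?_⟩
  · rw [div_le_iff₀ (by positivity)]
    have := Real.arccos_le_pi (e / 2)
    linarith
  · unfold cc
    rw [mul_div_cancel₀ _ (by positivity : (2 : ℝ) * Real.pi ≠ 0), Real.cos_arccos]
    · ring
    · linarith [h1.1]
    · linarith [h1.2]

/-- **positivity inside the spectrum**, on the scale `t` -/
theorem Fn_pos (n : ℕ) : ∀ δ : ℝ, 0 < δ → δ ≤ 1 → ∃ c t0 : ℝ, 0 < c ∧ 0 < t0 ∧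
    ∀ t : ℝ, 0 < t → t ≤ t0 → ∀ E : ℝ, |E| ≤ 2 * (n + 1) - δ →
      c ≤ (GF (Fn n) ((E : ℂ) + (t : ℂ) * Complex.I)).im := by
  have hpi := Real.pi_pos
  induction n with
  | zero =>
    intro δ hδ hδ1
    refine ⟨δ / (4 * (16 * Real.pi ^ 2 + 1)), min (1 / 2) (δ / (16 * Real.pi)), by positivity,
      by positivity, ?_⟩
    intro t ht ht0 E hE
    have ht1 : t ≤ 1 / 2 := ht0.trans (min_le_left _ _)
    have ht2 : t ≤ δ / (16 * Real.pi) := ht0.trans (min_le_right _ _)
    rw [le_div_iff₀ (by positivity)] at ht2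
    have hE' : |E| ≤ 2 - δ := by simpa using hE
    obtain ⟨x0, hx0, hx1, hx2⟩ := ex_pt E (by linarith)
    rw [Fn_zero]
    have hz : 0 < ((E : ℂ) + (t : ℂ) * Complex.I).im := by simpa using ht
    have h1 := conv_low (fun _ => 1) continuous_const (by simp)
      (fun x => Real.sin (2 * Real.pi * x) ^ 2) (by fun_prop) sin_w (fun x => sq_nonneg _)
      ((E : ℂ) + (t : ℂ) * Complex.I) hz GF_one_nonneg x0 t
      (δ / 4 * (1 / ((16 * Real.pi ^ 2 + 1) * t))) hx0 ht.le (by linarith) ?_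
    · refine le_trans (le_of_eq ?_) h1
      field_simp
    · intro x h2 h3
      have hd : |x - x0| ≤ t := by
        rw [abs_of_nonneg (by linarith)]
        linarith
      apply mul_le_mul
      · have s1 := abs_le.1 (sin_lip x x0)
        have s2 : δ / 2 ≤ Real.sin (2 * Real.pi * x0) ^ 2 := by
          have s3 := Real.sin_sq_add_cos_sq (2 * Real.pi * x0)
          have s4 : Real.cos (2 * Real.pi * x0) = E / 2 := by
            have := hx2
            unfold cc at this
            linarith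
          rw [s4] at s3
          have s5 : |E| ^ 2 ≤ (2 - δ) ^ 2 := pow_le_pow_left₀ (abs_nonneg _) hE' 2
          rw [sq_abs] at s5
          nlinarith
        have s6 : 4 * Real.pi * |x - x0| ≤ 4 * Real.pi * t := by gcongr
        linarith [s1.1]
      · rw [GF_one_im _ (by simpa using ht)]
        have e1 : ((E : ℂ) + (t : ℂ) * Complex.I - ((cc x : ℝ) : ℂ)).re = cc x0 - cc x := by
          simp [hx2]
        have e2 : ((E : ℂ) + (t : ℂ) * Complex.I - ((cc x : ℝ) : ℂ)).im = t := by simp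
        rw [e1, e2]
        have e3 : (cc x0 - cc x) ^ 2 ≤ (4 * Real.pi * t) ^ 2 := by
          rw [← sq_abs (cc x0 - cc x), abs_sub_comm]
          refine pow_le_pow_left₀ (abs_nonneg _) ((cc_lip x x0).trans ?_) 2
          gcongr
        rw [div_le_div_iff₀ (by positivity) (by positivity)]
        nlinarith
      · positivity
      · exact sq_nonneg _
  | succ n ih =>
    intro δ hδ hδ1
    obtain ⟨c, t0, hc, ht0, h⟩ := ih (δ / 4) (by positivity) (by linarith)
    refine ⟨δ / 100 * c, t0, by positivity, ht0, ?_⟩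
    intro t ht ht1 E hE
    push_cast at hE
    have hn : (0 : ℝ) ≤ n := Nat.cast_nonneg n
    have hn2 : (0 : ℝ) < (n : ℝ) + 2 := by linarith
    obtain ⟨x0, hx0, hx1, hx2⟩ := ex_pt (E / (n + 2)) (by
      rw [abs_div, abs_of_pos hn2, div_le_iff₀ hn2]
      linarith)
    rw [Fn_succ]
    have hz : 0 < ((E : ℂ) + (t : ℂ) * Complex.I).im := by simpa using ht
    refine conv_low (Fn n) (Fn_cont n) (Fn_le n) (fun _ => 1) continuous_const (by simp) (by simp)
      ((E : ℂ) + (t : ℂ) * Complex.I) hz (Fn_nonneg n) x0 (δ / 100) c hx0 (by positivity)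
      (by linarith) ?_
    intro x h2 h3
    rw [one_mul]
    have e1 : (E : ℂ) + (t : ℂ) * Complex.I - ((cc x : ℝ) : ℂ) =
        ((E - cc x : ℝ) : ℂ) + (t : ℂ) * Complex.I := by
      push_cast
      ring
    rw [e1]
    apply h t ht ht1
    have hd : |x - x0| ≤ δ / 100 := by
      rw [abs_of_nonneg (by linarith)]
      linarith
    have e2 : E - cc x = E * ((n + 1) / (n + 2)) + (cc x0 - cc x) := by
      rw [hx2]
      field_simp
      ring
    rw [e2]
    refine (abs_add_le _ _).trans ?_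
    have e3 : |E * ((n + 1) / (n + 2))| ≤ 2 * (n + 1) - δ / 2 := by
      rw [abs_mul, abs_of_pos (by positivity : (0 : ℝ) < ((n : ℝ) + 1) / (n + 2))]
      have e4 : |E| * (((n : ℝ) + 1) / (n + 2)) ≤ (2 * (n + 1 + 1) - δ) * ((n + 1) / (n + 2)) := by
        gcongr
      refine e4.trans ?_
      rw [mul_div_assoc', div_le_iff₀ hn2]
      nlinarith
    have e5 : |cc x0 - cc x| ≤ δ / 4 := by
      rw [abs_sub_comm]
      refine (cc_lip x x0).trans ?_
      have := Real.pi_lt_d2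
      calc 4 * Real.pi * |x - x0| ≤ 4 * 3.15 * (δ / 100) := by gcongr
        _ ≤ δ / 4 := by linarith
    linarith

/-- **positivity inside the spectrum** -/
theorem nn1_pos (hO : S_OSC) (d : ℕ) (hd : 3 ≤ d) (δ : ℝ) (hδ : 0 < δ) :
    ∃ c : ℝ, 0 < c ∧ ∀ E : ℝ, |E| ≤ 2 * d - δ → c ≤ nn1 d E := by
  obtain ⟨c, t0, hc, ht0, h⟩ := Fn_pos (d - 1) (min δ 1) (by positivity) (min_le_right _ _)
  refine ⟨c, hc, fun E hE => ?_⟩
  have hd1 : (((d - 1 : ℕ) : ℝ)) + 1 = d := by
    have : d - 1 + 1 = d := by omega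
    exact_mod_cast this
  have hE' : |E| ≤ 2 * (((d - 1 : ℕ) : ℝ) + 1) - min δ 1 := by
    rw [hd1]
    have := min_le_left δ 1
    linarith
  have key : ∀ t : ℝ, 0 < t → t ≤ t0 → c ≤ nn1 d E + CH d * t ^ (1 / 8 : ℝ) := by
    intro t ht ht1
    have h1 := h t ht ht1 E hE'
    have h2 := hol1 hO d hd ((E : ℂ) + (t : ℂ) * Complex.I) (E : ℂ) (by simp [ht.le]) (by simp)
    rw [add_sub_cancel_left, norm_mul, Complex.norm_I, mul_one, Complex.norm_real,
      Real.norm_of_nonneg ht.le] at h2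
    have h3 := (Complex.abs_im_le_norm _).trans h2
    rw [Complex.sub_im] at h3
    have h4 := (abs_le.1 h3).2
    have e1 : Fn (d - 1) = Pool.Agent.TH794.QD.F1 d := rfl
    rw [e1] at h1
    unfold nn1
    linarith
  have hlim : Tendsto (fun t : ℝ => nn1 d E + CH d * t ^ (1 / 8 : ℝ)) (𝓝[>] 0)
      (𝓝 (nn1 d E + CH d * 0)) := by
    refine Tendsto.mono_left ?_ nhdsWithin_le_nhds
    have hc : Continuous fun t : ℝ => nn1 d E + CH d * t ^ (1 / 8 : ℝ) :=
      continuous_const.add (continuous_const.mul (Continuous.rpow_const continuous_id fun _ =>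
        Or.inr (by norm_num)))
    have := hc.tendsto 0
    rwa [Real.zero_rpow (by norm_num)] at this
  rw [mul_zero, add_zero] at hlim
  refine ge_of_tendsto hlim ?_
  filter_upwards [Ioc_mem_nhdsGT ht0] with t ht
  exact key t ht.1 ht.2

end Pool.Agent.TH791.QD
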