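import Pool.Agent.TH791.QD.Ex

/-! The self-consistent Born equation. -/

set_option autoImplicit false
set_option linter.unusedSectionVars false

open scoped BigOperators Topology
open Filter

namespace Pool.Agent.TH791.QD

open Pool.Agent.H4R2.LO (Zd)

variable {d : ℕ}

theorem GS.pos {V : Zd d → ℝ} {z : ℂ} {a : Zd d} {u : Zd d → ℂ} (hu : GS d V z a u) :
    0 < ∑' x, ‖u x‖ ^ 2 := by
  have h0 : 0 ≤ ∑' x, ‖u x‖ ^ 2 := tsum_nonneg fun x => sq_nonneg _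
  rcases h0.eq_or_lt with h | h
  · exfalso
    have h1 : ∀ x, u x = 0 := by
      intro x
      have h4 := hu.ss.le_tsum x fun y _ => sq_nonneg _
      rw [← h] at h4
      exact norm_eq_zero.1 (pow_eq_zero_iff (two_ne_zero)|>.1 (le_antisymm h4 (sq_nonneg _)))
    have h2 := hu.eq a
    unfold Pool.Agent.W788.LD.Spec.S at h2
    simp only [h1] at h2
    simp at h2
  · exact h

/-- the resolvent identity at two energies -/
theorem GS.lip {V : Zd d → ℝ} {z z' : ℂ} {a : Zd d} {u u' : Zd d → ℂ} (hu : GS d V z a u)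
    (hu' : GS d V z' a u') :
    ‖u a - u' a‖ ^ 2 ≤ ‖z - z'‖ ^ 2 * ((∑' x, ‖u x‖ ^ 2) * ∑' x, ‖u' x‖ ^ 2) := by
  have h1 := pair V z z' _ _ u u' hu.ss hu'.ss hu.eq hu'.eq
  have h2 : HasSum (fun x => u x * (if x = a then 1 else 0) - (if x = a then 1 else 0) * u' x)
      (u a * (if a = a then 1 else 0) - (if a = a then 1 else 0) * u' a) := by
    apply hasSum_single a
    intro x hx
    rw [if_neg hx]
    simp
  have h3 := h2.unique h1
  rw [if_pos rfl, mul_one, one_mul] at h3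
  rw [h3, norm_mul, mul_pow]
  apply mul_le_mul_of_nonneg_left _ (sq_nonneg _)
  obtain ⟨N, hN⟩ : ∃ N, N = ∑' x, ‖u x‖ ^ 2 := ⟨_, rfl⟩
  obtain ⟨N', hN'⟩ : ∃ N', N' = ∑' x, ‖u' x‖ ^ 2 := ⟨_, rfl⟩
  have hN0 := hu.pos
  have hN0' := hu'.pos
  rw [← hN] at hN0 ⊢
  rw [← hN'] at hN0' ⊢
  obtain ⟨p, hp⟩ : ∃ p, p = Real.sqrt N := ⟨_, rfl⟩
  obtain ⟨p', hp'⟩ : ∃ p', p' = Real.sqrt N' := ⟨_, rfl⟩
  have hp0 : 0 < p := by rw [hp]; exact Real.sqrt_pos.2 hN0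
  have hp0' : 0 < p' := by rw [hp']; exact Real.sqrt_pos.2 hN0'
  have hpN : p ^ 2 = N := by rw [hp]; exact Real.sq_sqrt hN0.le
  have hpN' : p' ^ 2 = N' := by rw [hp']; exact Real.sq_sqrt hN0'.le
  have h4 : ‖∑' x, u x * u' x‖ ≤ p * p' := by
    have hs : HasSum (fun x => p' / p / 2 * ‖u x‖ ^ 2 + p / p' / 2 * ‖u' x‖ ^ 2) (p * p') := by
      have e1 := (hu.ss.hasSum.mul_left (p' / p / 2)).add (hu'.ss.hasSum.mul_left (p / p' / 2))
      rw [← hN, ← hN', ← hpN, ← hpN'] at e1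
      have e2 : p' / p / 2 * p ^ 2 + p / p' / 2 * p' ^ 2 = p * p' := by
        field_simp
        ring
      rw [e2] at e1
      exact e1
    refine tsum_of_norm_bounded hs fun x => ?_
    rw [norm_mul]
    have e3 : 0 ≤ (p' * ‖u x‖ - p * ‖u' x‖) ^ 2 / (2 * p * p') := by positivity
    have e4 : (p' * ‖u x‖ - p * ‖u' x‖) ^ 2 / (2 * p * p') =
        p' / p / 2 * ‖u x‖ ^ 2 + p / p' / 2 * ‖u' x‖ ^ 2 - ‖u x‖ * ‖u' x‖ := by
      field_simp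
      ring
    linarith
  calc ‖∑' x, u x * u' x‖ ^ 2 ≤ (p * p') ^ 2 := pow_le_pow_left₀ (norm_nonneg _) h4 2
    _ = N * N' := by rw [mul_pow, hpN, hpN']

theorem GS.at_le {V : Zd d → ℝ} {z : ℂ} (hz : 0 < z.im) {a : Zd d} {u : Zd d → ℂ}
    (hu : GS d V z a u) : ‖u a‖ ≤ z.im⁻¹ ∧ ∑' x, ‖u x‖ ^ 2 ≤ (z.im⁻¹) ^ 2 := by
  have h1 := hu.ward
  have h2 := hu.ss.le_tsum a fun y _ => sq_nonneg _
  obtain ⟨N, hN⟩ : ∃ N, N = ∑' x, ‖u x‖ ^ 2 := ⟨_, rfl⟩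
  rw [← hN] at h1 h2 ⊢
  have h3 : (u a).im ≤ ‖u a‖ := (le_abs_self _).trans (Complex.abs_im_le_norm _)
  have h4 : z.im * ‖u a‖ ^ 2 ≤ ‖u a‖ := by
    calc z.im * ‖u a‖ ^ 2 ≤ z.im * N := by gcongr
      _ ≤ _ := by linarith
  have h5 : ‖u a‖ ≤ z.im⁻¹ := by
    rcases (norm_nonneg (u a)).eq_or_lt with h | h
    · rw [← h]
      positivity
    · have e2 : z.im * ‖u a‖ ≤ 1 := by
        have : z.im * ‖u a‖ * ‖u a‖ ≤ 1 * ‖u a‖ := by linarith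
        exact le_of_mul_le_mul_right this h
      rw [← one_div, le_div_iff₀ hz]
      linarith
  refine ⟨h5, ?_⟩
  have h6 : z.im * N ≤ z.im⁻¹ := by linarith
  calc N = z.im⁻¹ * (z.im * N) := by field_simp
    _ ≤ z.im⁻¹ * z.im⁻¹ := by gcongr
    _ = _ := by ring

/-- uniqueness -/
theorem born_unique (ζ : ℂ) (s : ℝ) (hζ : 0 < ζ.im) (hs : 0 < s) (γ γ' : ℂ) (hγ : 0 < γ.im)
    (hγ' : 0 < γ'.im) (w w' : Zd d → ℂ) (h : GS d (fun _ => 0) (ζ + s * γ) 0 w) (h0 : w 0 = γ)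
    (h' : GS d (fun _ => 0) (ζ + s * γ') 0 w') (h0' : w' 0 = γ') : γ = γ' := by
  have e1 := h.lip h'
  have e2 := h.ward
  have e3 := h'.ward
  rw [h0] at e1 e2
  rw [h0'] at e1 e3
  have i1 : (ζ + s * γ).im = ζ.im + s * γ.im := by simp
  have i2 : (ζ + s * γ').im = ζ.im + s * γ'.im := by simp
  rw [i1] at e2
  rw [i2] at e3
  have e4 : (ζ + s * γ) - (ζ + s * γ') = s * (γ - γ') := by ring
  rw [e4, norm_mul, Complex.norm_real, Real.norm_of_nonneg hs.le] at e1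
  have p1 := h.pos
  have p2 := h'.pos
  obtain ⟨N, hN⟩ : ∃ N, N = ∑' x, ‖w x‖ ^ 2 := ⟨_, rfl⟩
  obtain ⟨N', hN'⟩ : ∃ N', N' = ∑' x, ‖w' x‖ ^ 2 := ⟨_, rfl⟩
  rw [← hN] at e1 e2 p1
  rw [← hN'] at e1 e3 p2
  have k1 : s * N < 1 := by
    have : s * N * γ.im < 1 * γ.im := by nlinarith [mul_pos hζ p1]
    exact lt_of_mul_lt_mul_right this hγ.le
  have k2 : s * N' < 1 := by
    have : s * N' * γ'.im < 1 * γ'.im := by nlinarith [mul_pos hζ p2]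
    exact lt_of_mul_lt_mul_right this hγ'.le
  by_contra hne
  have hr : 0 < ‖γ - γ'‖ ^ 2 := by
    have := norm_pos_iff.2 (sub_ne_zero.2 hne)
    positivity
  have k3 : (s * N) * (s * N') < 1 := by
    have q1 : 0 < s * N := by positivity
    have q2 : 0 < s * N' := by positivity
    nlinarith
  have k4 : (s * ‖γ - γ'‖) ^ 2 * (N * N') = ‖γ - γ'‖ ^ 2 * ((s * N) * (s * N')) := by ring
  rw [k4] at e1
  nlinarith

/-- **existence** -/
theorem born (d : ℕ) (ζ : ℂ) (s : ℝ) (hζ : 0 < ζ.im) (hs : 0 < s) :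
    ∃ γ : ℂ, 0 < γ.im ∧ ∃ w, GS d (fun _ => 0) (ζ + s * γ) 0 w ∧ w 0 = γ := by
  have hex : ∀ z : ℂ, ∃ w : Zd d → ℂ, 0 < z.im → GS d (fun _ => 0) z 0 w := by
    intro z
    by_cases hz : 0 < z.im
    · obtain ⟨w, hw⟩ := GS.exists (fun _ : Zd d => 0) z hz 0
      exact ⟨w, fun _ => hw⟩
    · exact ⟨0, fun h => absurd h hz⟩
  choose W hW using hex
  obtain ⟨t, ht⟩ : ∃ t, t = ζ.im := ⟨_, rfl⟩
  have ht0 : 0 < t := by rw [ht]; exact hζ
  obtain ⟨Φ, hΦ⟩ : ∃ Φ : ℂ → ℂ, Φ = fun γ => W (ζ + s * γ) 0 := ⟨_, rfl⟩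
  have him : ∀ γ : ℂ, (ζ + s * γ).im = t + s * γ.im := by
    intro γ
    rw [ht]
    simp
  have hzp : ∀ γ : ℂ, 0 ≤ γ.im → 0 < (ζ + s * γ).im := by
    intro γ h
    rw [him]
    positivity
  obtain ⟨N, hN⟩ : ∃ N : ℂ → ℝ, N = fun γ => ∑' x, ‖W (ζ + s * γ) x‖ ^ 2 := ⟨_, rfl⟩
  have hNp : ∀ γ : ℂ, 0 ≤ γ.im → 0 < N γ := by
    intro γ h
    rw [hN]
    exact (hW _ (hzp γ h)).pos
  have hw : ∀ γ : ℂ, 0 ≤ γ.im → (t + s * γ.im) * N γ = (Φ γ).im := by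
    intro γ h
    have h1 := (hW _ (hzp γ h)).ward
    rw [him] at h1
    rw [hN, hΦ]
    exact h1
  have hle : ∀ γ : ℂ, 0 ≤ γ.im → ‖Φ γ‖ ≤ t⁻¹ := by
    intro γ h
    have h1 := ((hW _ (hzp γ h)).at_le (hzp γ h)).1
    rw [him] at h1
    rw [hΦ]
    refine h1.trans (inv_anti₀ ht0 ?_)
    have : 0 ≤ s * γ.im := by positivity
    linarith
  have hlip : ∀ γ γ' : ℂ, 0 ≤ γ.im → 0 ≤ γ'.im →
      ‖Φ γ - Φ γ'‖ ^ 2 ≤ s ^ 2 * ‖γ - γ'‖ ^ 2 * (N γ * N γ') := by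
    intro γ γ' h h'
    have h1 := (hW _ (hzp γ h)).lip (hW _ (hzp γ' h'))
    have e4 : (ζ + s * γ) - (ζ + s * γ') = s * (γ - γ') := by ring
    rw [e4, norm_mul, Complex.norm_real, Real.norm_of_nonneg hs.le, mul_pow] at h1
    rw [hN, hΦ]
    exact h1
  have hΦp : ∀ γ : ℂ, 0 ≤ γ.im → 0 < (Φ γ).im := by
    intro γ h
    rw [← hw γ h]
    have := hNp γ h
    positivity
  -- the iteration
  obtain ⟨g, hg⟩ : ∃ g : ℕ → ℂ, g = fun n => Φ^[n + 1] Complex.I := ⟨_, rfl⟩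
  have hgs : ∀ n, g (n + 1) = Φ (g n) := by
    intro n
    rw [hg]
    simp only [Function.iterate_succ', Function.comp_apply]
  have hgp : ∀ n, 0 < (g n).im := by
    intro n
    induction n with
    | zero =>
      have : g 0 = Φ Complex.I := by rw [hg]; simp
      rw [this]
      exact hΦp _ (by simp)
    | succ n ih =>
      rw [hgs]
      exact hΦp _ ih.le
  have hgb : ∀ n, (g n).im ≤ t⁻¹ := by
    intro n
    have h1 : ‖g n‖ ≤ t⁻¹ := by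
      rcases n with _ | n
      · have : g 0 = Φ Complex.I := by rw [hg]; simp
        rw [this]
        exact hle _ (by simp)
      · rw [hgs]
        exact hle _ (hgp n).le
    exact (le_abs_self _).trans ((Complex.abs_im_le_norm _).trans h1)
  obtain ⟨k, hk⟩ : ∃ k, k = s * t⁻¹ / (t + s * t⁻¹) := ⟨_, rfl⟩
  have hk0 : 0 ≤ k := by rw [hk]; positivity
  have hk1 : k < 1 := by
    rw [hk, div_lt_one (by positivity)]
    linarith
  have hkm : ∀ n, s * (g n).im ≤ k * (t + s * (g n).im) := by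
    intro n
    have h1 := hgb n
    have h2 := hgp n
    rw [hk, div_mul_eq_mul_div, le_div_iff₀ (by positivity)]
    have : s * (g n).im * t ≤ s * t⁻¹ * t := by gcongr
    nlinarith
  obtain ⟨C, hC⟩ : ∃ C, C = ‖g 1 - g 0‖ ^ 2 / ((g 1).im * (g 0).im) := ⟨_, rfl⟩
  have hC0 : 0 ≤ C := by
    rw [hC]
    have h1 := hgp 0
    have h2 := hgp 1
    positivity
  have hr : ∀ n, ‖g (n + 1) - g n‖ ^ 2 ≤ C * (k ^ n) ^ 2 * ((g (n + 1)).im * (g n).im) := by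
    intro n
    induction n with
    | zero =>
      have h1 := hgp 0
      have h2 := hgp 1
      rw [hC, pow_zero, one_pow, mul_one, zero_add, div_mul_cancel₀ _ (by positivity)]
    | succ n ih =>
      have h1 := hlip (g (n + 1)) (g n) (hgp _).le (hgp _).le
      have h2 := hw (g (n + 1)) (hgp _).le
      have h3 := hw (g n) (hgp _).le
      rw [← hgs] at h2 h3
      rw [← hgs, ← hgs] at h1
      have p1 := hNp (g (n + 1)) (hgp _).le
      have p2 := hNp (g n) (hgp _).le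
      have m1 := hkm (n + 1)
      have m2 := hkm n
      have q1 := hgp (n + 1)
      have q2 := hgp n
      have q3 := hgp (n + 1 + 1)
      obtain ⟨a1, ha1⟩ : ∃ a1, a1 = (g (n + 1)).im := ⟨_, rfl⟩
      obtain ⟨a0, ha0⟩ : ∃ a0, a0 = (g n).im := ⟨_, rfl⟩
      obtain ⟨N1, hN1⟩ : ∃ N1, N1 = N (g (n + 1)) := ⟨_, rfl⟩
      obtain ⟨N0, hN0⟩ : ∃ N0, N0 = N (g n) := ⟨_, rfl⟩
      rw [← ha1] at m1 q1 ih h2
      rw [← ha0] at m2 q2 ih h3
      rw [← hN1] at h1 h2 p1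
      rw [← hN0] at h1 h3 p2
      rw [← h2, ← ha1] 
      rw [← ha1] at h3
      calc ‖g (n + 1 + 1) - g (n + 1)‖ ^ 2 ≤ s ^ 2 * ‖g (n + 1) - g n‖ ^ 2 * (N1 * N0) := h1
        _ ≤ s ^ 2 * (C * (k ^ n) ^ 2 * (a1 * a0)) * (N1 * N0) := by gcongr
        _ = C * (k ^ n) ^ 2 * ((s * a1 * N1) * (s * a0 * N0)) := by ring
        _ ≤ C * (k ^ n) ^ 2 * ((k * (t + s * a1) * N1) * (k * (t + s * a0) * N0)) := by gcongr
        _ = C * (k ^ (n + 1)) ^ 2 * ((t + s * a1) * N1 * ((t + s * a0) * N0)) := by ring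
        _ = _ := by rw [h3]
  have hdist : ∀ n, dist (g n) (g (n + 1)) ≤ Real.sqrt C * t⁻¹ * k ^ n := by
    intro n
    rw [dist_comm, dist_eq_norm]
    have h1 : ‖g (n + 1) - g n‖ ^ 2 ≤ (Real.sqrt C * t⁻¹ * k ^ n) ^ 2 := by
      refine (hr n).trans ?_
      have h2 : (g (n + 1)).im * (g n).im ≤ t⁻¹ * t⁻¹ :=
        mul_le_mul (hgb _) (hgb _) (hgp _).le (by positivity)
      calc C * (k ^ n) ^ 2 * ((g (n + 1)).im * (g n).im) ≤ C * (k ^ n) ^ 2 * (t⁻¹ * t⁻¹) := by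
            gcongr
        _ = _ := by
            rw [mul_pow, mul_pow, Real.sq_sqrt hC0]
            ring
    exact (sq_le_sq₀ (norm_nonneg _) (by positivity)).1 h1
  have hcau := cauchySeq_of_le_geometric k _ hk1 hdist
  obtain ⟨γ, hγ⟩ := cauchySeq_tendsto_of_complete hcau
  have hγ0 : 0 ≤ γ.im :=
    ge_of_tendsto' ((Complex.continuous_im.tendsto γ).comp hγ) fun n => (hgp n).le
  have hNb : ∀ γ : ℂ, 0 ≤ γ.im → N γ ≤ (t⁻¹) ^ 2 := by
    intro γ h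
    have h1 := ((hW _ (hzp γ h)).at_le (hzp γ h)).2
    rw [him] at h1
    rw [hN]
    refine h1.trans (pow_le_pow_left₀ (by positivity) (inv_anti₀ ht0 ?_) 2)
    have : 0 ≤ s * γ.im := by positivity
    linarith
  have hlim : Tendsto (fun n => Φ (g n)) atTop (𝓝 (Φ γ)) := by
    rw [tendsto_iff_norm_sub_tendsto_zero]
    have h1 : Tendsto (fun n => s * (t⁻¹) ^ 2 * ‖g n - γ‖) atTop (𝓝 0) := by
      have := (tendsto_iff_norm_sub_tendsto_zero.1 hγ).const_mul (s * (t⁻¹) ^ 2)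
      rwa [mul_zero] at this
    refine squeeze_zero (fun n => norm_nonneg _) (fun n => ?_) h1
    have h2 := hlip (g n) γ (hgp n).le hγ0
    have h3 : ‖Φ (g n) - Φ γ‖ ^ 2 ≤ (s * (t⁻¹) ^ 2 * ‖g n - γ‖) ^ 2 := by
      refine h2.trans ?_
      have h4 : N (g n) * N γ ≤ (t⁻¹) ^ 2 * (t⁻¹) ^ 2 :=
        mul_le_mul (hNb _ (hgp n).le) (hNb _ hγ0) (hNp _ hγ0).le (by positivity)
      calc s ^ 2 * ‖g n - γ‖ ^ 2 * (N (g n) * N γ) ≤
          s ^ 2 * ‖g n - γ‖ ^ 2 * ((t⁻¹) ^ 2 * (t⁻¹) ^ 2) := by gcongr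
        _ = _ := by ring
    exact (sq_le_sq₀ (norm_nonneg _) (by positivity)).1 h3
  have hlim2 : Tendsto (fun n => Φ (g n)) atTop (𝓝 γ) := by
    have : (fun n => Φ (g n)) = fun n => g (n + 1) := funext fun n => (hgs n).symm
    rw [this]
    exact hγ.comp (tendsto_add_atTop_nat 1)
  have hfix : Φ γ = γ := tendsto_nhds_unique hlim hlim2
  refine ⟨γ, ?_, W (ζ + s * γ), hW _ (hzp γ hγ0), ?_⟩
  · rw [← hfix]
    exact hΦp γ hγ0
  · rw [hΦ] at hfix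
    exact hfix

end Pool.Agent.TH791.QD
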