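import Pool.Agent.TH791.QD.TorT
import Pool.Agent.TH794.LL2.Site3

/-! Comparison of the quadratic functional with the regularised one. -/

set_option autoImplicit false
set_option linter.unusedSectionVars false

open scoped BigOperators Matrix
open MeasureTheory

namespace Pool.Agent.TH791.QD

open Pool.Agent.W788.BK
open Pool.Agent.TH794.LL2
open Pool.Agent.W788.MFP.Four (T e NN adj K ft NN_pos Op q e_zero e_add e_add_left e_neg e_neg_left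
  sum_e e_comm)

variable {d L : ℕ} [NeZero L]

/-- the Fourier transform of a pair -/
theorem fc_sum (vr vi : T d L → ℝ) (k : T d L) :
    fc vr vi k = ∑ x, ((vr x : ℂ) + Complex.I * (vi x : ℂ)) * e k x := by
  unfold fc ft
  rw [Finset.mul_sum, ← Finset.sum_add_distrib]
  exact Finset.sum_congr rfl fun x _ => by ring

/-- the correlation of a pair -/
theorem fc_pair (vr vi : T d L → ℝ) (r : T d L) :
    ∑ k, (starRingEnd ℂ) (fc vr vi (k + r)) * fc vr vi k =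
      (NN d L : ℂ) * ∑ x, (starRingEnd ℂ) (e r x) * ((vr x ^ 2 + vi x ^ 2 : ℝ) : ℂ) := by
  obtain ⟨v, hv⟩ : ∃ v : T d L → ℂ, v = fun x => (vr x : ℂ) + Complex.I * (vi x : ℂ) := ⟨_, rfl⟩
  have hvx : ∀ x, ((vr x : ℂ) + Complex.I * (vi x : ℂ)) = v x := fun x => by rw [hv]
  have h1 : ∀ k : T d L, (starRingEnd ℂ) (fc vr vi (k + r)) * fc vr vi k =
      ∑ y, ∑ x, (starRingEnd ℂ) (v y) * v x * (starRingEnd ℂ) (e r y) * e k (x - y) := by
    intro k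
    rw [fc_sum, fc_sum]
    simp only [hvx]
    rw [map_sum, Finset.sum_mul]
    refine Finset.sum_congr rfl fun y _ => ?_
    rw [Finset.mul_sum]
    refine Finset.sum_congr rfl fun x _ => ?_
    rw [map_mul, e_add_left, map_mul, sub_eq_add_neg, e_add, e_neg]
    ring
  simp only [h1]
  rw [Finset.sum_comm]
  rw [Finset.mul_sum]
  refine Finset.sum_congr rfl fun y _ => ?_
  rw [Finset.sum_comm]
  have h2 : ∀ x : T d L, ∑ k : T d L, (starRingEnd ℂ) (v y) * v x * (starRingEnd ℂ) (e r y) *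
      e k (x - y) = (starRingEnd ℂ) (v y) * v x * (starRingEnd ℂ) (e r y) *
      (if x - y = 0 then (NN d L : ℂ) else 0) := by
    intro x
    rw [← Finset.mul_sum, sum_e]
  simp only [h2]
  rw [Finset.sum_eq_single y]
  · rw [if_pos (sub_self y)]
    have h3 : (starRingEnd ℂ) (v y) * v y = ((vr y ^ 2 + vi y ^ 2 : ℝ) : ℂ) := by
      rw [hv]
      simp only [map_add, map_mul, Complex.conj_ofReal, Complex.conj_I]
      push_cast
      have : Complex.I * Complex.I = -1 := Complex.I_mul_I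
      linear_combination (-(vi y : ℂ) ^ 2) * this
    linear_combination ((starRingEnd ℂ) (e r y) * (NN d L : ℂ)) * h3
  · intro x _ hx
    rw [if_neg (sub_ne_zero.2 hx), mul_zero]
  · intro h
    exact absurd (Finset.mem_univ _) h

/-- the difference of a bounded quadratic form at two vectors -/
theorem quad_diff (Y : Matrix (T d L) (T d L) ℂ) (hY : Opb Y 1) (p q : T d L → ℂ) :
    ‖star p ⬝ᵥ (Y *ᵥ p) - star q ⬝ᵥ (Y *ᵥ q)‖ ≤ nn (p - q) * (2 * nn q + nn (p - q)) := by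
  have hYn : ∀ w : T d L → ℂ, nn (Y *ᵥ w) ≤ nn w := by
    intro w
    unfold nn
    apply Real.sqrt_le_sqrt
    have := hY w
    rw [one_pow, one_mul] at this
    exact this
  obtain ⟨s, hs⟩ : ∃ s, s = p - q := ⟨_, rfl⟩
  have hp : p = q + s := by rw [hs]; abel
  rw [← hs]
  have h1 : star p ⬝ᵥ (Y *ᵥ p) - star q ⬝ᵥ (Y *ᵥ q) =
      star q ⬝ᵥ (Y *ᵥ s) + (star s ⬝ᵥ (Y *ᵥ q) + star s ⬝ᵥ (Y *ᵥ s)) := by
    rw [hp, star_add, Matrix.mulVec_add, add_dotProduct, dotProduct_add, dotProduct_add]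
    ring
  rw [h1]
  have c1 : ‖star q ⬝ᵥ (Y *ᵥ s)‖ ≤ nn q * nn (Y *ᵥ s) := cs_norm q (Y *ᵥ s)
  have c2 : ‖star s ⬝ᵥ (Y *ᵥ q)‖ ≤ nn s * nn (Y *ᵥ q) := cs_norm s (Y *ᵥ q)
  have c3 : ‖star s ⬝ᵥ (Y *ᵥ s)‖ ≤ nn s * nn (Y *ᵥ s) := cs_norm s (Y *ᵥ s)
  have n1 := hYn s
  have n2 := hYn q
  have p1 : 0 ≤ nn q := nn_nonneg _
  have p2 : 0 ≤ nn s := nn_nonneg _
  have d1 := mul_le_mul_of_nonneg_left n1 p1
  have d2 := mul_le_mul_of_nonneg_left n2 p2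
  have d3 := mul_le_mul_of_nonneg_left n1 p2
  refine (norm_add_le _ _).trans ?_
  have c4 := norm_add_le (star s ⬝ᵥ (Y *ᵥ q)) (star s ⬝ᵥ (Y *ᵥ s))
  have c5 : nn s * (2 * nn q + nn s) = nn q * nn s + (nn s * nn q + nn s * nn s) := by ring
  rw [c5]
  linarith

/-- the equation for the regularised vector -/
theorem phi_eq (E δ θ η κ g1 ρ τ : ℝ) (hδ : 0 < δ) (hη : 0 < η) (hκ : 0 < κ)
    (hκ2 : κ ≤ 1 / 2) (hg : ∑ k : T d L, (JJ E δ k)⁻¹ ≤ g1 * NN d L)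
    {V vr vi rr ri : T d L → ℝ} (h : Sol2 E (η * δ) V vr vi rr ri)
    (hf : ∀ w : T d L → ℝ, |∑ x, V x * w x ^ 2| ≤ κ * q (JJ E δ) w)
    (hρ0 : 0 ≤ ρ) (hρ : Real.sqrt (Bq rr ri) ≤ ρ) (hτ : 0 ≤ τ)
    (hU : ∀ x : T d L, |∑ y : T d L, V y * K (fun Q => 1 - hi θ Q) (x - y)| ≤ τ) :
    ∃ ψ : T d L → ℂ, (fun k : T d L => (Real.sqrt (JJ E δ k) : ℂ) * fc vr vi k) =
      RR (D0 E δ) (AA E δ θ) η V *ᵥ
        (((Real.sqrt (NN d L) : ℝ) : ℂ) • w0 (d := d) (L := L) E δ + ψ) ∧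
      nn ψ ≤ Real.sqrt (NN d L) * ((Real.sqrt δ)⁻¹ * (ρ + τ * Real.sqrt (Bq vr vi)) +
        η * (2 * Real.sqrt g1 + 2 * (κ + η) *
        (Real.sqrt δ * Real.sqrt (Bq vr vi)) + 2 * ((Real.sqrt δ)⁻¹ * ρ))) := by
  have hN := NN_pos (d := d) (L := L)
  have hsN : 0 < Real.sqrt (NN d L) := Real.sqrt_pos.2 hN
  have hsNc : ((Real.sqrt (NN d L) : ℝ) : ℂ) ≠ 0 := by exact_mod_cast hsN.ne'
  have hsδ : 0 < Real.sqrt δ := Real.sqrt_pos.2 hδ
  have hJ : ∀ k : T d L, 0 < JJ E δ k := fun k => JJ_pos E δ hδ k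
  have hsJ : ∀ k : T d L, 0 < Real.sqrt (JJ E δ k) := fun k => Real.sqrt_pos.2 (hJ k)
  have hsJc : ∀ k : T d L, ((Real.sqrt (JJ E δ k) : ℝ) : ℂ) ≠ 0 := fun k => by
    exact_mod_cast (hsJ k).ne'
  have hJsq : ∀ k : T d L, JJ E δ k ^ 2 = (adj k - E) ^ 2 + δ ^ 2 := fun k => by
    unfold JJ
    rw [Real.sq_sqrt (by positivity)]
  obtain ⟨hX1, -⟩ := XN_le E δ η κ g1 ρ hδ hη hκ hκ2 hg h hf hρ0 hρ
  obtain ⟨B, hB⟩ : ∃ B, B = Real.sqrt (Bq vr vi) := ⟨_, rfl⟩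
  rw [← hB] at hX1 ⊢
  obtain ⟨Xb, hXb⟩ : ∃ Xb, Xb = 2 * Real.sqrt g1 + 2 * (κ + η) * (Real.sqrt δ * B) +
    2 * ((Real.sqrt δ)⁻¹ * ρ) := ⟨_, rfl⟩
  rw [← hXb] at hX1 ⊢
  obtain ⟨U, hUd⟩ : ∃ U : T d L → ℝ, U = Op (fun Q => 1 - hi θ Q) V := ⟨_, rfl⟩
  have hUx : ∀ x, |U x| ≤ τ := by
    intro x
    have : U x = ∑ y : T d L, V y * K (fun Q => 1 - hi θ Q) (x - y) := by
      rw [hUd]
      unfold Op
      exact Finset.sum_congr rfl fun y _ => mul_comm _ _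
    rw [this]
    exact hU x
  obtain ⟨φ, hφ⟩ : ∃ φ : T d L → ℂ, φ = fun k => (Real.sqrt (JJ E δ k) : ℂ) * fc vr vi k :=
    ⟨_, rfl⟩
  -- the matrix equation
  have hXφ : ∀ k, (XX (D0 E δ) (AA E δ θ) V *ᵥ φ) k =
      (((Real.sqrt (JJ E δ k))⁻¹ : ℝ) : ℂ) * (1 + ((η * δ : ℝ) : ℂ) * Complex.I * fc vr vi k +
        fc rr ri k - fc (fun x => U x * vr x) (fun x => U x * vi x) k) := by
    intro k
    have e1 := XX_ft E δ θ hδ V vr k
    have e2 := XX_ft E δ θ hδ V vi k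
    rw [← hUd] at e1 e2
    have e3 : φ = (fun k => (Real.sqrt (JJ E δ k) : ℂ) * ft vr k) +
        Complex.I • (fun k => (Real.sqrt (JJ E δ k) : ℂ) * ft vi k) := by
      funext k
      rw [hφ]
      simp only [Pi.add_apply, Pi.smul_apply, smul_eq_mul]
      unfold fc
      ring
    rw [e3, Matrix.mulVec_add, Matrix.mulVec_smul, Pi.add_apply, Pi.smul_apply, e1, e2,
      smul_eq_mul]
    have e4 := fc_eq h k
    have e5 : fc (fun x => V x * vr x) (fun x => V x * vi x) k =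
      ft (fun x => V x * vr x) k + Complex.I * ft (fun x => V x * vi x) k := rfl
    have e6 : fc (fun x => U x * vr x) (fun x => U x * vi x) k =
      ft (fun x => U x * vr x) k + Complex.I * ft (fun x => U x * vi x) k := rfl
    have e7 : fc vr vi k = ft vr k + Complex.I * ft vi k := rfl
    rw [e5] at e4
    rw [e6]
    linear_combination (((Real.sqrt (JJ E δ k))⁻¹ : ℝ) : ℂ) * (e4 - ((adj k - E : ℝ) : ℂ) * e7)
  obtain ⟨ψ, hψ⟩ : ∃ ψ : T d L → ℂ, ψ = ((fun k : T d L =>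
      (((Real.sqrt (JJ E δ k))⁻¹ : ℝ) : ℂ) * fc rr ri k) -
      (fun k : T d L => (((Real.sqrt (JJ E δ k))⁻¹ : ℝ) : ℂ) *
        fc (fun x => U x * vr x) (fun x => U x * vi x) k)) -
      (fun k : T d L => ((η : ℂ) * Complex.I) *
        (((Real.sqrt (JJ E δ k) - δ * (Real.sqrt (JJ E δ k))⁻¹ : ℝ) : ℂ) * fc vr vi k)) :=
    ⟨_, rfl⟩
  have hw0 : ∀ k : T d L, ((Real.sqrt (NN d L) : ℝ) : ℂ) * w0 (d := d) (L := L) E δ k =
      (((Real.sqrt (JJ E δ k))⁻¹ : ℝ) : ℂ) := by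
    intro k
    unfold w0
    push_cast
    rw [← mul_assoc, mul_inv_cancel₀ hsNc, one_mul]
  have hsol : (XX (D0 E δ) (AA E δ θ) V - ((η : ℂ) * Complex.I) •
      (1 : Matrix (T d L) (T d L) ℂ)) *ᵥ φ =
      ((Real.sqrt (NN d L) : ℝ) : ℂ) • w0 (d := d) (L := L) E δ + ψ := by
    rw [Matrix.sub_mulVec, Matrix.smul_mulVec, Matrix.one_mulVec]
    funext k
    rw [Pi.sub_apply, hXφ k, Pi.add_apply, Pi.smul_apply, Pi.smul_apply, smul_eq_mul,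
      smul_eq_mul, hw0, hψ, hφ]
    simp only [Pi.sub_apply]
    have e1 : (((Real.sqrt (JJ E δ k))⁻¹ : ℝ) : ℂ) * ((η * δ : ℝ) : ℂ) =
        (η : ℂ) * ((δ * (Real.sqrt (JJ E δ k))⁻¹ : ℝ) : ℂ) := by
      push_cast
      ring
    have e2 : ((Real.sqrt (JJ E δ k) - δ * (Real.sqrt (JJ E δ k))⁻¹ : ℝ) : ℂ) =
        (Real.sqrt (JJ E δ k) : ℂ) - ((δ * (Real.sqrt (JJ E δ k))⁻¹ : ℝ) : ℂ) := by
      push_cast
      ring
    rw [e2]
    linear_combination (Complex.I * fc vr vi k) * e1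
  have hφR : φ = RR (D0 E δ) (AA E δ θ) η V *ᵥ
      (((Real.sqrt (NN d L) : ℝ) : ℂ) • w0 (d := d) (L := L) E δ + ψ) := by
    have h1 := RR_mul (Pool.Agent.W363.BK.D0_herm (d := d) (L := L) E δ)
      (fun y => Pool.Agent.W363.BK.AA_herm E δ θ y) hη V
    rw [← hsol, Matrix.mulVec_mulVec, h1, Matrix.one_mulVec]
  have hψn : nn ψ ≤ Real.sqrt (NN d L) * ((Real.sqrt δ)⁻¹ * (ρ + τ * B) + η * Xb) := by
    have c1 : nn (fun k : T d L => (((Real.sqrt (JJ E δ k))⁻¹ : ℝ) : ℂ) * fc rr ri k) ≤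
        Real.sqrt (NN d L) * ((Real.sqrt δ)⁻¹ * ρ) := by
      refine (nn_inv E δ hδ rr ri).trans ?_
      gcongr
    have c2 : nn (fun k : T d L => (((Real.sqrt (JJ E δ k))⁻¹ : ℝ) : ℂ) *
        fc (fun x => U x * vr x) (fun x => U x * vi x) k) ≤
        Real.sqrt (NN d L) * ((Real.sqrt δ)⁻¹ * (τ * B)) := by
      refine (nn_inv E δ hδ _ _).trans ?_
      have : Real.sqrt (Bq (fun x => U x * vr x) (fun x => U x * vi x)) ≤ τ * B := by
        rw [hB, Real.sqrt_le_left (by positivity), mul_pow, Real.sq_sqrt (Bq_nonneg _ _)]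
        unfold Bq
        have e1 : ∀ f : T d L → ℝ, ∑ x, (U x * f x) ^ 2 ≤ τ ^ 2 * ∑ x, f x ^ 2 := by
          intro f
          rw [Finset.mul_sum]
          refine Finset.sum_le_sum fun x _ => ?_
          rw [mul_pow]
          refine mul_le_mul_of_nonneg_right ?_ (sq_nonneg _)
          rw [← sq_abs]
          exact pow_le_pow_left₀ (abs_nonneg _) (hUx x) 2
        have := e1 vr
        have := e1 vi
        rw [mul_add]
        linarith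
      gcongr
    have c3 : nn (fun k : T d L => ((η : ℂ) * Complex.I) *
        (((Real.sqrt (JJ E δ k) - δ * (Real.sqrt (JJ E δ k))⁻¹ : ℝ) : ℂ) * fc vr vi k)) ≤
        η * XN E δ vr vi := by
      apply nn_le _ _ (mul_nonneg hη.le (nn_nonneg _))
      rw [mul_pow, nn_sq]
      unfold nsq
      rw [Finset.mul_sum]
      refine Finset.sum_le_sum fun k _ => ?_
      rw [norm_mul, norm_mul, norm_mul, norm_mul, norm_mul, Complex.norm_I, mul_one,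
        Complex.norm_real, Complex.norm_real, Complex.norm_real, Complex.norm_real,
        Real.norm_eq_abs, Real.norm_eq_abs, Real.norm_eq_abs, Real.norm_eq_abs,
        abs_of_pos hη, mul_pow, mul_pow, mul_pow, mul_pow, sq_abs, sq_abs, sq_abs]
      apply mul_le_mul_of_nonneg_left _ (sq_nonneg _)
      rw [← mul_assoc]
      apply mul_le_mul_of_nonneg_right _ (sq_nonneg _)
      rw [inv_sqrt_sq E δ hδ]
      have h3 := hJ k
      have h4 := Pool.Agent.W363.BK.JJ_ge (d := d) (L := L) E δ hδ k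
      have h5 : (Real.sqrt (JJ E δ k) - δ * (Real.sqrt (JJ E δ k))⁻¹) ^ 2 =
          (JJ E δ k)⁻¹ * (JJ E δ k - δ) ^ 2 := by
        rw [← inv_sqrt_sq E δ hδ k, ← mul_pow]
        have h8 : (Real.sqrt (JJ E δ k))⁻¹ * JJ E δ k = Real.sqrt (JJ E δ k) := by
          rw [inv_mul_eq_div, Real.div_sqrt]
        rw [mul_sub, h8]
        ring
      rw [h5]
      apply mul_le_mul_of_nonneg_left _ (inv_nonneg.2 h3.le)
      have := hJsq k
      nlinarith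
    rw [hψ]
    refine (nn_sub _ _).trans ?_
    have c4 := nn_sub (fun k : T d L => (((Real.sqrt (JJ E δ k))⁻¹ : ℝ) : ℂ) * fc rr ri k)
      (fun k : T d L => (((Real.sqrt (JJ E δ k))⁻¹ : ℝ) : ℂ) *
        fc (fun x => U x * vr x) (fun x => U x * vi x) k)
    have c5 := mul_le_mul_of_nonneg_left hX1 hη.le
    have c6 : Real.sqrt (NN d L) * ((Real.sqrt δ)⁻¹ * (ρ + τ * B) + η * Xb) =
        Real.sqrt (NN d L) * ((Real.sqrt δ)⁻¹ * ρ) +
        Real.sqrt (NN d L) * ((Real.sqrt δ)⁻¹ * (τ * B)) +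
        η * (Real.sqrt (NN d L) * Xb) := by ring
    rw [c6]
    linarith
  rw [← hφ]
  exact ⟨ψ, hφR, hψn⟩

/-- **comparison** -/
theorem compareQ (E δ θ η κ g1 ρ τ : ℝ) (hδ : 0 < δ) (hη : 0 < η) (hκ : 0 < κ)
    (hκ2 : κ ≤ 1 / 2) (hg : ∑ k : T d L, (JJ E δ k)⁻¹ ≤ g1 * NN d L)
    {V vr vi rr ri : T d L → ℝ} (h : Sol2 E (η * δ) V vr vi rr ri)
    (hf : ∀ w : T d L → ℝ, |∑ x, V x * w x ^ 2| ≤ κ * q (JJ E δ) w)
    (hρ0 : 0 ≤ ρ) (hρ : Real.sqrt (Bq rr ri) ≤ ρ) (hτ : 0 ≤ τ)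
    (hU : ∀ x : T d L, |∑ y : T d L, V y * K (fun Q => 1 - hi θ Q) (x - y)| ≤ τ) (F Z : ℝ)
    (hF : F = F1 E δ θ η V)
    (hZ : (Real.sqrt δ)⁻¹ * (ρ + τ * Real.sqrt (Bq vr vi)) +
        η * (2 * Real.sqrt g1 + 2 * (κ + η) *
        (Real.sqrt δ * Real.sqrt (Bq vr vi)) + 2 * ((Real.sqrt δ)⁻¹ * ρ)) ≤ Z) (r : T d L) :
    ‖((η * δ : ℝ) : ℂ) * ∑ x, (starRingEnd ℂ) (e r x) * ((vr x ^ 2 + vi x ^ 2 : ℝ) : ℂ) -
      (η : ℂ) * FQ E δ θ η r V‖ ≤ Z * (2 * Real.sqrt (F / η) + Z / η) := by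
  have hN := NN_pos (d := d) (L := L)
  have hsN : 0 < Real.sqrt (NN d L) := Real.sqrt_pos.2 hN
  have hNc : ((NN d L : ℝ) : ℂ) ≠ 0 := by exact_mod_cast hN.ne'
  have hJ : ∀ k : T d L, 0 < JJ E δ k := fun k => JJ_pos E δ hδ k
  have hsJc : ∀ k : T d L, ((Real.sqrt (JJ E δ k) : ℝ) : ℂ) ≠ 0 := fun k => by
    exact_mod_cast (Real.sqrt_pos.2 (hJ k)).ne'
  obtain ⟨ψ, hφR, hψn⟩ := phi_eq E δ θ η κ g1 ρ τ hδ hη hκ hκ2 hg h hf hρ0 hρ hτ hU
  obtain ⟨φ, hφ⟩ : ∃ φ : T d L → ℂ, φ = fun k => (Real.sqrt (JJ E δ k) : ℂ) * fc vr vi k :=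
    ⟨_, rfl⟩
  rw [← hφ] at hφR
  have hψZ : nn ψ ≤ Real.sqrt (NN d L) * Z :=
    hψn.trans (mul_le_mul_of_nonneg_left hZ hsN.le)
  obtain ⟨R, hR⟩ : ∃ R, R = RR (D0 (d := d) (L := L) E δ) (AA E δ θ) η V := ⟨_, rfl⟩
  rw [← hR] at hφR
  have hXh := Pool.Agent.W363.BK.D0_herm (d := d) (L := L) E δ
  have hAh := fun y => Pool.Agent.W363.BK.AA_herm (d := d) (L := L) E δ θ y
  obtain ⟨φ0, hφ0⟩ : ∃ φ0 : T d L → ℂ, φ0 = ((Real.sqrt (NN d L) : ℝ) : ℂ) •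
    (R *ᵥ w0 (d := d) (L := L) E δ) := ⟨_, rfl⟩
  have hdiff : φ - φ0 = R *ᵥ ψ := by
    rw [hφR, hφ0, Matrix.mulVec_add, Matrix.mulVec_smul]
    abel
  -- the first form
  have f1 : star φ ⬝ᵥ (Yq E δ r *ᵥ φ) = ((δ : ℝ) : ℂ) * ((NN d L : ℂ) *
      ∑ x, (starRingEnd ℂ) (e r x) * ((vr x ^ 2 + vi x ^ 2 : ℝ) : ℂ)) := by
    rw [← fc_pair, Finset.mul_sum]
    unfold dotProduct
    rw [← Equiv.sum_comp (Equiv.addRight r)]
    refine Finset.sum_congr rfl fun k _ => ?_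
    rw [Pi.star_apply, Yq_mulVec, Equiv.coe_addRight, add_sub_cancel_right, hφ]
    simp only
    rw [RCLike.star_def, map_mul, Complex.conj_ofReal]
    have z1 := hsJc k
    have z2 := hsJc (k + r)
    push_cast
    field_simp
  -- the second form
  have f2 : star φ0 ⬝ᵥ (Yq E δ r *ᵥ φ0) = (NN d L : ℂ) * FQ E δ θ η r V := by
    have e1 : FQ E δ θ η r V = star (R *ᵥ w0 (d := d) (L := L) E δ) ⬝ᵥ
        (Yq E δ r *ᵥ (R *ᵥ w0 (d := d) (L := L) E δ)) := by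
      unfold FQ
      rw [← hR, ← Matrix.mulVec_mulVec, ← Matrix.mulVec_mulVec, adjoint,
        Matrix.conjTranspose_conjTranspose]
    rw [e1, hφ0, Matrix.mulVec_smul, star_smul, smul_dotProduct, dotProduct_smul, smul_eq_mul,
      smul_eq_mul, RCLike.star_def, Complex.conj_ofReal, ← mul_assoc, ← Complex.ofReal_mul,
      Real.mul_self_sqrt hN.le]
  have hRψ : nn (φ - φ0) ≤ Real.sqrt (NN d L) * (Z / η) := by
    have e1 := RR_opb hXh hAh hη V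
    rw [hdiff]
    have e2 := e1 ψ
    rw [← hR] at e2
    have e3 : nn (R *ᵥ ψ) ≤ η⁻¹ * nn ψ := by
      apply nn_le _ _ (mul_nonneg (inv_nonneg.2 hη.le) (nn_nonneg _))
      rw [mul_pow, nn_sq]
      exact e2
    refine e3.trans ?_
    calc η⁻¹ * nn ψ ≤ η⁻¹ * (Real.sqrt (NN d L) * Z) := by gcongr
      _ = _ := by ring
  have hw0 : nn φ0 = Real.sqrt (NN d L) * Real.sqrt (F / η) := by
    have e1 := (ward hXh hAh hη V (w0 (d := d) (L := L) E δ)).1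
    rw [← hR] at e1
    have e2 : F = η * nsq (R *ᵥ w0 (d := d) (L := L) E δ) := by
      rw [hF, ← e1]
      unfold F1
      rw [← hR]
    have e3 : nsq φ0 = NN d L * nsq (R *ᵥ w0 (d := d) (L := L) E δ) := by
      rw [hφ0]
      unfold nsq
      rw [Finset.mul_sum]
      refine Finset.sum_congr rfl fun k _ => ?_
      rw [Pi.smul_apply, smul_eq_mul, norm_mul, mul_pow, Complex.norm_real, Real.norm_eq_abs,
        sq_abs, Real.sq_sqrt hN.le]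
    unfold nn
    rw [e3, Real.sqrt_mul hN.le, e2]
    congr 2
    field_simp
  have hq := quad_diff (Yq E δ r) (Yq_opb E δ hδ r) φ φ0
  have hZ0 : 0 ≤ Z / η := by
    have := nn_nonneg (φ - φ0)
    by_contra hcon
    push Not at hcon
    have := mul_neg_of_pos_of_neg hsN hcon
    linarith
  have hmain : NN d L * ‖((δ : ℝ) : ℂ) *
      ∑ x, (starRingEnd ℂ) (e r x) * ((vr x ^ 2 + vi x ^ 2 : ℝ) : ℂ) - FQ E δ θ η r V‖ ≤
      NN d L * ((Z / η) * (2 * Real.sqrt (F / η) + Z / η)) := by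
    have e1 : ((NN d L : ℝ) : ℂ) * (((δ : ℝ) : ℂ) *
        ∑ x, (starRingEnd ℂ) (e r x) * ((vr x ^ 2 + vi x ^ 2 : ℝ) : ℂ) - FQ E δ θ η r V) =
        star φ ⬝ᵥ (Yq E δ r *ᵥ φ) - star φ0 ⬝ᵥ (Yq E δ r *ᵥ φ0) := by
      rw [f1, f2]
      ring
    have e2 : NN d L * ‖((δ : ℝ) : ℂ) *
      ∑ x, (starRingEnd ℂ) (e r x) * ((vr x ^ 2 + vi x ^ 2 : ℝ) : ℂ) - FQ E δ θ η r V‖ =
        ‖star φ ⬝ᵥ (Yq E δ r *ᵥ φ) - star φ0 ⬝ᵥ (Yq E δ r *ᵥ φ0)‖ := by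
      rw [← e1, norm_mul, Complex.norm_real, Real.norm_of_nonneg hN.le]
    rw [e2]
    refine hq.trans ?_
    rw [hw0]
    have e3 : NN d L = Real.sqrt (NN d L) * Real.sqrt (NN d L) := (Real.mul_self_sqrt hN.le).symm
    calc nn (φ - φ0) * (2 * (Real.sqrt (NN d L) * Real.sqrt (F / η)) + nn (φ - φ0)) ≤
        (Real.sqrt (NN d L) * (Z / η)) * (2 * (Real.sqrt (NN d L) * Real.sqrt (F / η)) +
          Real.sqrt (NN d L) * (Z / η)) := by
          have h0 := nn_nonneg (φ - φ0)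
          have h1 := Real.sqrt_nonneg (F / η)
          gcongr
      _ = (Real.sqrt (NN d L) * Real.sqrt (NN d L)) *
          ((Z / η) * (2 * Real.sqrt (F / η) + Z / η)) := by ring
      _ = _ := by rw [← e3]
  have h2 := le_of_mul_le_mul_left hmain hN
  have e4 : ((η * δ : ℝ) : ℂ) * ∑ x, (starRingEnd ℂ) (e r x) *
      ((vr x ^ 2 + vi x ^ 2 : ℝ) : ℂ) - (η : ℂ) * FQ E δ θ η r V = (η : ℂ) * (((δ : ℝ) : ℂ) *
      ∑ x, (starRingEnd ℂ) (e r x) * ((vr x ^ 2 + vi x ^ 2 : ℝ) : ℂ) - FQ E δ θ η r V) := by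
    push_cast
    ring
  rw [e4, norm_mul, Complex.norm_real, Real.norm_of_nonneg hη.le]
  calc η * _ ≤ η * ((Z / η) * (2 * Real.sqrt (F / η) + Z / η)) :=
        mul_le_mul_of_nonneg_left h2 hη.le
    _ = _ := by
        field_simp

end Pool.Agent.TH791.QD
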