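import Pool.Agent.TH791.QD.Dbl
import Pool.Agent.TH794.LL2.Conc2

/-! Concentration of the two resolvent functional. -/

set_option autoImplicit false
set_option linter.unusedSectionVars false

open scoped BigOperators Matrix
open MeasureTheory

namespace Pool.Agent.TH791.QD

open Pool.Agent.W788.BK Pool.Agent.W340.BK.Conc
open Pool.Agent.TH794.LL2

variable {n m : Type} [Fintype n] [DecidableEq n] [Fintype m] [DecidableEq m]

section
variable {X0 Y : Matrix n n ℂ} {A : m → Matrix n n ℂ} {η : ℝ}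

theorem nrm_conj_dot (u v : n → ℂ) : ‖star u ⬝ᵥ v‖ = ‖star v ⬝ᵥ u‖ := by
  have h1 : star v ⬝ᵥ u = star (star u ⬝ᵥ v) := by
    rw [← Matrix.star_dotProduct_star, star_star, dotProduct_comm]
  rw [h1, norm_star]

/-- the first order term -/
theorem half {a v2 Q β : ℝ} (H : Adm X0 A a v2 Q) (hβ : 0 < β) (hη : 0 < η)
    (hv : β ^ 2 * v2 ≤ 1) (r u : n → ℂ) (V : m → ℝ) (hV : ∀ y, |V y| ≤ β) :
    ∑ y, ‖star ((V y : ℂ) • (RR X0 A η (Function.update V y 0) *ᵥ (A y *ᵥ r))) ⬝ᵥ u‖ ^ 2 ≤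
      2 * β ^ 2 * (Q + a ^ 2 / η ^ 2) / η ^ 2 * (nsq r * nsq u) := by
  obtain ⟨h0, hA, ha0, hv0, hQ0, ha, hvv, hQ⟩ := H
  obtain ⟨R, hR⟩ : ∃ R, R = RR X0 A η V := ⟨_, rfl⟩
  obtain ⟨u', hu'⟩ : ∃ u', u' = Rᴴ *ᵥ u := ⟨_, rfl⟩
  have nu' : nsq u' ≤ (η ^ 2)⁻¹ * nsq u := by
    rw [hu', hR]
    exact RRH_bd h0 hA hη V u
  have hr0 := nsq_nonneg r
  have hu0 := nsq_nonneg u
  have hu'0 := nsq_nonneg u'
  have s1 : ∑ y, ‖star r ⬝ᵥ (A y *ᵥ u')‖ ^ 2 ≤ Q * (nsq r * nsq u') := by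
    have h1 := hQ (Matrix.vecMulVec u' (star r))
    rw [hs_rank] at h1
    simp only [trace_rank] at h1
    rw [mul_comm (nsq r)]
    exact h1
  have s2 : ∑ y, ‖star (A y *ᵥ r) ⬝ᵥ ((RR X0 A η (Function.update V y 0))ᴴ *ᵥ
      (A y *ᵥ u'))‖ ^ 2 ≤ a ^ 2 * v2 / η ^ 2 * (nsq r * nsq u') := by
    have h1 : ∀ y, ‖star (A y *ᵥ r) ⬝ᵥ ((RR X0 A η (Function.update V y 0))ᴴ *ᵥ
      (A y *ᵥ u'))‖ ^ 2 ≤ (a ^ 2 * nsq r * (η ^ 2)⁻¹) * nsq (A y *ᵥ u') := by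
      intro y
      refine (cs_star _ _).trans ?_
      have e1 := ha y r
      have e2 := RRH_bd h0 hA hη (Function.update V y 0) (A y *ᵥ u')
      calc nsq (A y *ᵥ r) * nsq ((RR X0 A η (Function.update V y 0))ᴴ *ᵥ (A y *ᵥ u'))
          ≤ (a ^ 2 * nsq r) * ((η ^ 2)⁻¹ * nsq (A y *ᵥ u')) :=
            mul_le_mul e1 e2 (nsq_nonneg _) (by positivity)
        _ = _ := by ring
    refine (Finset.sum_le_sum fun y _ => h1 y).trans ?_
    rw [← Finset.mul_sum]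
    calc _ ≤ (a ^ 2 * nsq r * (η ^ 2)⁻¹) * (v2 * nsq u') :=
          mul_le_mul_of_nonneg_left (hvv u') (by positivity)
      _ = _ := by ring
  have s3 : ∀ y, ‖star ((V y : ℂ) • (RR X0 A η (Function.update V y 0) *ᵥ (A y *ᵥ r))) ⬝ᵥ
      u‖ ^ 2 ≤ 2 * β ^ 2 * ‖star r ⬝ᵥ (A y *ᵥ u')‖ ^ 2 + 2 * β ^ 4 *
      ‖star (A y *ᵥ r) ⬝ᵥ ((RR X0 A η (Function.update V y 0))ᴴ *ᵥ (A y *ᵥ u'))‖ ^ 2 := by
    intro y
    obtain ⟨r1, -⟩ := RR_update h0 hA hη V y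
    obtain ⟨R', hR'⟩ : ∃ R', R' = RR X0 A η (Function.update V y 0) := ⟨_, rfl⟩
    rw [← hR, ← hR'] at r1
    rw [← hR']
    have e1 : R'ᴴ = Rᴴ + (V y : ℂ) • (R'ᴴ * A y * Rᴴ) := by
      have e2 : R' = R + (V y : ℂ) • (R * A y * R') := sub_eq_iff_eq_add.1 r1.symm
      have e3 := congrArg Matrix.conjTranspose e2
      rw [Matrix.conjTranspose_add, Matrix.conjTranspose_smul, Matrix.conjTranspose_mul,
        Matrix.conjTranspose_mul, (hA y).eq] at e3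
      have e4 : star ((V y : ℝ) : ℂ) = (V y : ℂ) := by
        rw [RCLike.star_def, Complex.conj_ofReal]
      rw [e4, ← mul_assoc] at e3
      exact e3
    have e5 : star ((V y : ℂ) • (R' *ᵥ (A y *ᵥ r))) ⬝ᵥ u =
        (V y : ℂ) * (star r ⬝ᵥ (A y *ᵥ u')) + (V y : ℂ) ^ 2 *
          (star (A y *ᵥ r) ⬝ᵥ (R'ᴴ *ᵥ (A y *ᵥ u'))) := by
      have e6 : star ((V y : ℂ) • (R' *ᵥ (A y *ᵥ r))) ⬝ᵥ u =
          (V y : ℂ) * (star (A y *ᵥ r) ⬝ᵥ (R'ᴴ *ᵥ u)) := by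
        rw [star_smul, smul_dotProduct, smul_eq_mul, RCLike.star_def, Complex.conj_ofReal]
        congr 1
        rw [adjoint, Matrix.conjTranspose_conjTranspose]
      rw [e6]
      nth_rewrite 1 [e1]
      rw [Matrix.add_mulVec, dotProduct_add, Matrix.smul_mulVec, dotProduct_smul, smul_eq_mul,
        ← Matrix.mulVec_mulVec, ← Matrix.mulVec_mulVec, ← hu', ← herm (hA y)]
      ring
    have e7 : ‖star ((V y : ℂ) • (R' *ᵥ (A y *ᵥ r))) ⬝ᵥ u‖ ≤ β * ‖star r ⬝ᵥ (A y *ᵥ u')‖ +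
        β ^ 2 * ‖star (A y *ᵥ r) ⬝ᵥ (R'ᴴ *ᵥ (A y *ᵥ u'))‖ := by
      rw [e5]
      refine (norm_add_le _ _).trans ?_
      rw [norm_mul, norm_mul, norm_pow, Complex.norm_real, Real.norm_eq_abs]
      refine add_le_add (mul_le_mul_of_nonneg_right (hV y) (norm_nonneg _))
        (mul_le_mul_of_nonneg_right ?_ (norm_nonneg _))
      exact pow_le_pow_left₀ (abs_nonneg _) (hV y) 2
    refine (pow_le_pow_left₀ (norm_nonneg _) e7 2).trans ?_
    nlinarith [sq_nonneg (β * ‖star r ⬝ᵥ (A y *ᵥ u')‖ -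
        β ^ 2 * ‖star (A y *ᵥ r) ⬝ᵥ (R'ᴴ *ᵥ (A y *ᵥ u'))‖)]
  refine (Finset.sum_le_sum fun y _ => s3 y).trans ?_
  rw [Finset.sum_add_distrib, ← Finset.mul_sum, ← Finset.mul_sum]
  calc _ ≤ 2 * β ^ 2 * (Q * (nsq r * nsq u')) + 2 * β ^ 4 *
        (a ^ 2 * v2 / η ^ 2 * (nsq r * nsq u')) :=
        add_le_add (mul_le_mul_of_nonneg_left s1 (by positivity))
          (mul_le_mul_of_nonneg_left s2 (by positivity))
    _ = 2 * β ^ 2 * (Q + (β ^ 2 * v2) * (a ^ 2 / η ^ 2)) * (nsq r * nsq u') := by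
        field_simp
    _ ≤ 2 * β ^ 2 * (Q + a ^ 2 / η ^ 2) * (nsq r * nsq u') := by
        refine mul_le_mul_of_nonneg_right (mul_le_mul_of_nonneg_left ?_ (by positivity))
          (by positivity)
        have : (β ^ 2 * v2) * (a ^ 2 / η ^ 2) ≤ 1 * (a ^ 2 / η ^ 2) :=
          mul_le_mul_of_nonneg_right hv (by positivity)
        linarith
    _ ≤ 2 * β ^ 2 * (Q + a ^ 2 / η ^ 2) * (nsq r * ((η ^ 2)⁻¹ * nsq u)) := by gcongr
    _ = _ := by ring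

/-- the two resolvent functional -/
noncomputable def GQ (X0 : Matrix n n ℂ) (A : m → Matrix n n ℂ) (Y : Matrix n n ℂ) (η : ℝ)
    (w : n → ℂ) (V : m → ℝ) : ℂ := star w ⬝ᵥ (((RR X0 A η V)ᴴ * Y * RR X0 A η V) *ᵥ w)

theorem GQ_eq (w : n → ℂ) (V : m → ℝ) : GQ X0 A Y η w V =
    star (RR X0 A η V *ᵥ w) ⬝ᵥ (Y *ᵥ (RR X0 A η V *ᵥ w)) := by
  unfold GQ
  rw [← Matrix.mulVec_mulVec, ← Matrix.mulVec_mulVec, adjoint, Matrix.conjTranspose_conjTranspose]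

theorem GQ_le (h0 : X0.IsHermitian) (hA : ∀ y, (A y).IsHermitian) (hη : 0 < η)
    (hY : Opb Y 1) (w : n → ℂ) (V : m → ℝ) : ‖GQ X0 A Y η w V‖ ≤ FF X0 A η w V / η := by
  rw [GQ_eq]
  have h1 := hY.form zero_le_one (RR X0 A η V *ᵥ w) (RR X0 A η V *ᵥ w)
  rw [one_mul, Real.mul_self_sqrt (nsq_nonneg _)] at h1
  have h2 : FF X0 A η w V = η * nsq (RR X0 A η V *ᵥ w) := (ward h0 hA hη V w).1
  rw [h2]
  refine h1.trans (le_of_eq ?_)
  field_simp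

theorem GQ_cont (h0 : X0.IsHermitian) (hA : ∀ y, (A y).IsHermitian) (hη : 0 < η) (w : n → ℂ) :
    Continuous (GQ X0 A Y η w) := by
  unfold GQ
  have hR := RR_cont h0 hA hη
  exact continuous_const.dotProduct
    (((hR.matrix_conjTranspose.matrix_mul continuous_const).matrix_mul hR).matrix_mulVec
      continuous_const)

/-- the differences of the two resolvent functional -/
theorem keyQ {a v2 Q β : ℝ} (H : Adm X0 A a v2 Q) (hβ : 0 < β) (hη : 0 < η)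
    (hv : β ^ 2 * v2 ≤ 1) (hY : Opb Y 1) (hY' : Opb Yᴴ 1) (w : n → ℂ)
    (V : m → ℝ) (hV : ∀ y, |V y| ≤ β) :
    ∑ y, ‖GQ X0 A Y η w V - GQ X0 A Y η w (Function.update V y 0)‖ ^ 2 ≤
      15 * (β ^ 2 * (Q + a ^ 2 / η ^ 2) / η ^ 2) * (FF X0 A η w V / η) ^ 2 := by
  have h0 := H.hX0
  have hA := H.hA
  have hQ0 := H.hQ0
  have ha0 := H.ha0
  have hv0 := H.hv0
  obtain ⟨r, hr⟩ : ∃ r, r = RR X0 A η V *ᵥ w := ⟨_, rfl⟩
  have hF : FF X0 A η w V / η = nsq r := by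
    have h2 : FF X0 A η w V = η * nsq (RR X0 A η V *ᵥ w) := (ward h0 hA hη V w).1
    rw [h2, hr]
    field_simp
  have hr0 := nsq_nonneg r
  rw [hF]
  obtain ⟨Z, hZ⟩ : ∃ Z, Z = β ^ 2 * (Q + a ^ 2 / η ^ 2) / η ^ 2 := ⟨_, rfl⟩
  have hZ0 : 0 ≤ Z := by rw [hZ]; positivity
  rw [← hZ]
  obtain ⟨ρ, hρ⟩ : ∃ ρ : m → n → ℂ, ρ = fun y =>
    (V y : ℂ) • (RR X0 A η (Function.update V y 0) *ᵥ (A y *ᵥ r)) := ⟨_, rfl⟩
  have t1 : ∑ y, ‖star (ρ y) ⬝ᵥ (Y *ᵥ r)‖ ^ 2 ≤ 2 * Z * nsq r ^ 2 := by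
    have h1 := half H hβ hη hv r (Y *ᵥ r) V hV
    have h2 := hY r
    rw [one_pow, one_mul] at h2
    rw [hρ]
    refine h1.trans ?_
    calc 2 * β ^ 2 * (Q + a ^ 2 / η ^ 2) / η ^ 2 * (nsq r * nsq (Y *ᵥ r)) ≤
        2 * β ^ 2 * (Q + a ^ 2 / η ^ 2) / η ^ 2 * (nsq r * nsq r) := by gcongr
      _ = _ := by rw [hZ]; ring
  have t2 : ∑ y, ‖star (ρ y) ⬝ᵥ (Yᴴ *ᵥ r)‖ ^ 2 ≤ 2 * Z * nsq r ^ 2 := by
    have h1 := half H hβ hη hv r (Yᴴ *ᵥ r) V hV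
    have h2 := hY' r
    rw [one_pow, one_mul] at h2
    rw [hρ]
    refine h1.trans ?_
    calc 2 * β ^ 2 * (Q + a ^ 2 / η ^ 2) / η ^ 2 * (nsq r * nsq (Yᴴ *ᵥ r)) ≤
        2 * β ^ 2 * (Q + a ^ 2 / η ^ 2) / η ^ 2 * (nsq r * nsq r) := by gcongr
      _ = _ := by rw [hZ]; ring
  have hρn : ∀ y, nsq (ρ y) ≤ β ^ 2 * ((η ^ 2)⁻¹ * nsq (A y *ᵥ r)) := by
    intro y
    rw [hρ]
    simp only
    rw [nsq_smul, Complex.norm_real, Real.norm_eq_abs]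
    exact mul_le_mul (pow_le_pow_left₀ (abs_nonneg _) (hV y) 2)
      (RR_bd h0 hA hη _ _) (nsq_nonneg _) (by positivity)
  have t3 : ∑ y, ‖star (ρ y) ⬝ᵥ (Y *ᵥ ρ y)‖ ^ 2 ≤ Z * nsq r ^ 2 := by
    have h1 : ∀ y, ‖star (ρ y) ⬝ᵥ (Y *ᵥ ρ y)‖ ^ 2 ≤
        (β ^ 4 * (η ^ 2)⁻¹ * (η ^ 2)⁻¹ * (a ^ 2 * nsq r)) * nsq (A y *ᵥ r) := by
      intro y
      have e1 := hY.form zero_le_one (ρ y) (ρ y)
      rw [one_mul, Real.mul_self_sqrt (nsq_nonneg _)] at e1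
      have e2 := hρn y
      have e3 := H.ha y r
      have e4 := nsq_nonneg (A y *ᵥ r)
      calc ‖star (ρ y) ⬝ᵥ (Y *ᵥ ρ y)‖ ^ 2 ≤ (β ^ 2 * ((η ^ 2)⁻¹ * nsq (A y *ᵥ r))) ^ 2 :=
            pow_le_pow_left₀ (norm_nonneg _) (e1.trans e2) 2
        _ = β ^ 4 * (η ^ 2)⁻¹ * (η ^ 2)⁻¹ * nsq (A y *ᵥ r) * nsq (A y *ᵥ r) := by ring
        _ ≤ β ^ 4 * (η ^ 2)⁻¹ * (η ^ 2)⁻¹ * (a ^ 2 * nsq r) * nsq (A y *ᵥ r) := by gcongr
    refine (Finset.sum_le_sum fun y _ => h1 y).trans ?_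
    rw [← Finset.mul_sum]
    calc _ ≤ (β ^ 4 * (η ^ 2)⁻¹ * (η ^ 2)⁻¹ * (a ^ 2 * nsq r)) * (v2 * nsq r) :=
          mul_le_mul_of_nonneg_left (H.hv r) (by positivity)
      _ = (β ^ 2 * v2) * (β ^ 2 * (a ^ 2 / η ^ 2) / η ^ 2) * nsq r ^ 2 := by
          field_simp
      _ ≤ 1 * (β ^ 2 * (a ^ 2 / η ^ 2) / η ^ 2) * nsq r ^ 2 := by gcongr
      _ ≤ _ := by
          rw [one_mul, hZ]
          gcongr
          linarith
  have s3 : ∀ y, ‖GQ X0 A Y η w V - GQ X0 A Y η w (Function.update V y 0)‖ ^ 2 ≤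
      3 * (‖star (ρ y) ⬝ᵥ (Y *ᵥ r)‖ ^ 2 + ‖star (ρ y) ⬝ᵥ (Yᴴ *ᵥ r)‖ ^ 2 +
        ‖star (ρ y) ⬝ᵥ (Y *ᵥ ρ y)‖ ^ 2) := by
    intro y
    obtain ⟨-, r2⟩ := RR_update h0 hA hη V y
    have e1 : RR X0 A η (Function.update V y 0) *ᵥ w = r + ρ y := by
      have e2 : RR X0 A η (Function.update V y 0) = RR X0 A η V +
          (V y : ℂ) • (RR X0 A η (Function.update V y 0) * A y * RR X0 A η V) :=
        sub_eq_iff_eq_add.1 r2.symm
      conv_lhs => rw [e2]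
      rw [Matrix.add_mulVec, Matrix.smul_mulVec, ← Matrix.mulVec_mulVec, ← Matrix.mulVec_mulVec,
        ← hr, hρ]
    have e3 : GQ X0 A Y η w V - GQ X0 A Y η w (Function.update V y 0) =
        -(star (ρ y) ⬝ᵥ (Y *ᵥ r) + star (Yᴴ *ᵥ r) ⬝ᵥ ρ y + star (ρ y) ⬝ᵥ (Y *ᵥ ρ y)) := by
      rw [GQ_eq, GQ_eq, e1, ← hr, Matrix.mulVec_add, star_add, add_dotProduct, dotProduct_add,
        dotProduct_add, ← adjoint Y r (ρ y)]
      ring
    rw [e3, norm_neg]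
    have e4 : ‖star (Yᴴ *ᵥ r) ⬝ᵥ ρ y‖ = ‖star (ρ y) ⬝ᵥ (Yᴴ *ᵥ r)‖ := nrm_conj_dot _ _
    have e5 := norm_add_le (star (ρ y) ⬝ᵥ (Y *ᵥ r) + star (Yᴴ *ᵥ r) ⬝ᵥ ρ y)
      (star (ρ y) ⬝ᵥ (Y *ᵥ ρ y))
    have e6 := norm_add_le (star (ρ y) ⬝ᵥ (Y *ᵥ r)) (star (Yᴴ *ᵥ r) ⬝ᵥ ρ y)
    rw [e4] at e6
    obtain ⟨x1, hx1⟩ : ∃ x, x = ‖star (ρ y) ⬝ᵥ (Y *ᵥ r)‖ := ⟨_, rfl⟩
    obtain ⟨x2, hx2⟩ : ∃ x, x = ‖star (ρ y) ⬝ᵥ (Yᴴ *ᵥ r)‖ := ⟨_, rfl⟩
    obtain ⟨x3, hx3⟩ : ∃ x, x = ‖star (ρ y) ⬝ᵥ (Y *ᵥ ρ y)‖ := ⟨_, rfl⟩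
    rw [← hx1, ← hx2] at e6
    rw [← hx3] at e5
    rw [← hx1, ← hx2, ← hx3]
    have e7 : ‖star (ρ y) ⬝ᵥ (Y *ᵥ r) + star (Yᴴ *ᵥ r) ⬝ᵥ ρ y + star (ρ y) ⬝ᵥ (Y *ᵥ ρ y)‖ ≤
        x1 + x2 + x3 := by linarith
    refine (pow_le_pow_left₀ (norm_nonneg _) e7 2).trans ?_
    nlinarith [sq_nonneg (x1 - x2), sq_nonneg (x1 - x3), sq_nonneg (x2 - x3)]
  refine (Finset.sum_le_sum fun y _ => s3 y).trans ?_
  rw [← Finset.mul_sum, Finset.sum_add_distrib, Finset.sum_add_distrib]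
  linarith

/-- **concentration of the two resolvent functional** -/
theorem concQ (hES : S_ES) {a v2 Q : ℝ}
    (H : Adm X0 A a v2 Q) (μ : Measure ℝ) [IsProbabilityMeasure μ] (β D : ℝ) (hβ : 0 < β)
    (hμ : ∀ᵐ s ∂μ, |s| ≤ β) (hη : 0 < η) (hv : β ^ 2 * v2 ≤ 1) (hD0 : 0 < D) (hD1 : D ≤ 1 / 128)
    (hD : 46 * (β ^ 2 * (Q + a ^ 2 / η ^ 2) / η ^ 2) ≤ D ^ 2) (hY : Opb Y 1) (hY' : Opb Yᴴ 1)
    (w : n → ℂ) :
    (PP m μ).real {V | 400 * Real.sqrt D * (∫ U, FF X0 A η w U ∂(PP m μ)) / η <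
      ‖GQ X0 A Y η w V - ∫ U, GQ X0 A Y η w U ∂(PP m μ)‖} ≤
      6 * Real.exp (1 / 2 - 1 / Real.sqrt (2 * D)) := by
  have h0 := H.hX0
  have hA := H.hA
  have hQ0 := H.hQ0
  obtain ⟨Z, hZ⟩ : ∃ Z, Z = β ^ 2 * (Q + a ^ 2 / η ^ 2) / η ^ 2 := ⟨_, rfl⟩
  have hZ0 : 0 ≤ Z := by rw [hZ]; positivity
  rw [← hZ] at hD
  obtain ⟨F, hF⟩ : ∃ F : (m → ℝ) → ℝ, F = FF X0 A η w := ⟨_, rfl⟩
  obtain ⟨q, hq⟩ : ∃ q : (m → ℝ) → ℂ, q = GQ X0 A Y η w := ⟨_, rfl⟩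
  have Fc : Continuous F := by rw [hF]; exact FF_cont h0 hA hη w
  have F0 : ∀ V, 0 ≤ F V := by rw [hF]; exact FF_nonneg h0 hA hη w
  have FC : ∀ V, F V ≤ η⁻¹ * nsq w := by rw [hF]; exact FF_le h0 hA hη w
  have qc : Continuous q := by rw [hq]; exact GQ_cont h0 hA hη w
  have qle : ∀ V, ‖q V‖ ≤ F V / η := by rw [hq, hF]; exact GQ_le h0 hA hη hY w
  have hw0 := nsq_nonneg w
  have haeF : ∀ᵐ V ∂(PP m μ), ∑ y, |F V - F (Function.update V y 0)| ^ 2 ≤ 2 * Z * F V ^ 2 := by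
    filter_upwards [ae_bd μ β hμ] with V hV
    have h1 := key (D := Real.sqrt (2 * Z)) H hβ hη hv (by
      rw [Real.sq_sqrt (by positivity), hZ]
      apply le_of_eq
      ring) w V hV
    rw [Real.sq_sqrt (by positivity)] at h1
    rw [hF]
    exact h1
  have haeq : ∀ᵐ V ∂(PP m μ), ∑ y, ‖q V - q (Function.update V y 0)‖ ^ 2 ≤
      15 * Z * (F V / η) ^ 2 := by
    filter_upwards [ae_bd μ β hμ] with V hV
    rw [hq, hF, hZ]
    exact keyQ H hβ hη hv hY hY' w V hV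
  have iF : Integrable F (PP m μ) := by
    refine Integrable.of_bound (C := η⁻¹ * nsq w) Fc.aestronglyMeasurable
      (Filter.Eventually.of_forall fun V => ?_)
    rw [Real.norm_eq_abs, abs_of_nonneg (F0 V)]
    exact FC V
  have iq : Integrable q (PP m μ) := by
    refine Integrable.of_bound (C := η⁻¹ * nsq w / η) qc.aestronglyMeasurable
      (Filter.Eventually.of_forall fun V => ?_)
    exact (qle V).trans (div_le_div_of_nonneg_right (FC V) hη.le)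
  obtain ⟨EF, hEF⟩ : ∃ EF, EF = ∫ U, F U ∂(PP m μ) := ⟨_, rfl⟩
  obtain ⟨Eq, hEq⟩ : ∃ Eq, Eq = ∫ U, q U ∂(PP m μ) := ⟨_, rfl⟩
  rw [← hF, ← hq, ← hEF, ← hEq]
  have hEF0 : 0 ≤ EF := by rw [hEF]; exact integral_nonneg F0
  -- the event for the first functional
  have tF := two_tail hES μ F Fc _ FC F0 D hD0 hD1 (by
    filter_upwards [haeF] with V hV
    refine hV.trans (mul_le_mul_of_nonneg_right ?_ (sq_nonneg _))
    linarith)
  rw [← hEF] at tF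
  -- the events for the other ones
  have tc : ∀ c : ℂ, ‖c‖ = 1 → (PP m μ).real {V | 40 * Real.sqrt D *
      (2 / η * EF + (c * Eq).re) < |(2 / η * F V + (c * q V).re) - (2 / η * EF + (c * Eq).re)|} ≤
      2 * Real.exp (1 / 2 - 1 / Real.sqrt (2 * D)) := by
    intro c hc
    obtain ⟨Φ, hΦ⟩ : ∃ Φ : (m → ℝ) → ℝ, Φ = fun V => 2 / η * F V + (c * q V).re := ⟨_, rfl⟩
    have Φc : Continuous Φ := by
      rw [hΦ]
      exact (continuous_const.mul Fc).add (Complex.continuous_re.comp (continuous_const.mul qc))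
    have hre : ∀ V, |(c * q V).re| ≤ F V / η := by
      intro V
      refine (Complex.abs_re_le_norm _).trans ?_
      rw [norm_mul, hc, one_mul]
      exact qle V
    have Φge : ∀ V, F V / η ≤ Φ V := by
      intro V
      rw [hΦ]
      simp only
      have h1 := (abs_le.1 (hre V)).1
      have h2 : 2 / η * F V = 2 * (F V / η) := by ring
      linarith
    have Φ0 : ∀ V, 0 ≤ Φ V := fun V => (div_nonneg (F0 V) hη.le).trans (Φge V)
    have ΦC : ∀ V, Φ V ≤ 3 * (η⁻¹ * nsq w / η) := by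
      intro V
      rw [hΦ]
      simp only
      have h1 := (abs_le.1 (hre V)).2
      have h2 : 2 / η * F V = 2 * (F V / η) := by ring
      have h3 := div_le_div_of_nonneg_right (FC V) hη.le
      linarith
    have hΦh : ESH μ Φ D := by
      filter_upwards [haeF, haeq] with V h1 h2
      have h3 : ∀ y, |Φ V - Φ (Function.update V y 0)| ^ 2 ≤
          8 / η ^ 2 * |F V - F (Function.update V y 0)| ^ 2 +
            2 * ‖q V - q (Function.update V y 0)‖ ^ 2 := by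
        intro y
        have e1 : Φ V - Φ (Function.update V y 0) = 2 / η * (F V - F (Function.update V y 0)) +
            (c * (q V - q (Function.update V y 0))).re := by
          rw [hΦ]
          simp only
          rw [mul_sub c, Complex.sub_re]
          ring
        have e2 : |(c * (q V - q (Function.update V y 0))).re| ≤
            ‖q V - q (Function.update V y 0)‖ := by
          refine (Complex.abs_re_le_norm _).trans ?_
          rw [norm_mul, hc, one_mul]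
        have e3 : (c * (q V - q (Function.update V y 0))).re ^ 2 ≤
            ‖q V - q (Function.update V y 0)‖ ^ 2 := by
          rw [← sq_abs]
          exact pow_le_pow_left₀ (abs_nonneg _) e2 2
        rw [sq_abs, sq_abs, e1]
        have e4 : 8 / η ^ 2 * (F V - F (Function.update V y 0)) ^ 2 =
            2 * (2 / η * (F V - F (Function.update V y 0))) ^ 2 := by ring
        rw [e4]
        nlinarith [sq_nonneg (2 / η * (F V - F (Function.update V y 0)) -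
          (c * (q V - q (Function.update V y 0))).re)]
      refine (Finset.sum_le_sum fun y _ => h3 y).trans ?_
      rw [Finset.sum_add_distrib, ← Finset.mul_sum, ← Finset.mul_sum]
      have h4 : 8 / η ^ 2 * (2 * Z * F V ^ 2) + 2 * (15 * Z * (F V / η) ^ 2) =
          46 * Z * (F V / η) ^ 2 := by ring
      have h5 : (F V / η) ^ 2 ≤ Φ V ^ 2 :=
        pow_le_pow_left₀ (div_nonneg (F0 V) hη.le) (Φge V) 2
      calc _ ≤ 8 / η ^ 2 * (2 * Z * F V ^ 2) + 2 * (15 * Z * (F V / η) ^ 2) := by gcongr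
        _ = 46 * Z * (F V / η) ^ 2 := h4
        _ ≤ D ^ 2 * Φ V ^ 2 := mul_le_mul hD h5 (sq_nonneg _) (sq_nonneg _)
    have ht := two_tail hES μ Φ Φc _ ΦC Φ0 D hD0 hD1 hΦh
    have hint : ∫ U, Φ U ∂(PP m μ) = 2 / η * EF + (c * Eq).re := by
      rw [hΦ]
      have i1 : Integrable (fun V => (c * q V).re) (PP m μ) := (iq.const_mul c).re
      rw [integral_add (iF.const_mul _) i1, integral_const_mul, ← hEF]
      congr 1
      have := Complex.reCLM.integral_comp_comm (iq.const_mul c)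
      simp only [Complex.reCLM_apply] at this
      rw [this, integral_const_mul, ← hEq]
    rw [hint, hΦ] at ht
    exact ht
  have hEqn : ‖Eq‖ ≤ EF / η := by
    rw [hEq, hEF, ← integral_div]
    exact norm_integral_le_of_norm_le (iF.div_const η) (Filter.Eventually.of_forall qle)
  have hre : ∀ c : ℂ, ‖c‖ = 1 → |(c * Eq).re| ≤ EF / η := by
    intro c hc
    refine (Complex.abs_re_le_norm _).trans ?_
    rw [norm_mul, hc, one_mul]
    exact hEqn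
  have hs0 : 0 ≤ Real.sqrt D := Real.sqrt_nonneg _
  have hsub : {V | 400 * Real.sqrt D * EF / η < ‖q V - Eq‖} ⊆
      {V | 40 * Real.sqrt D * EF < |F V - EF|} ∪
      ({V | 40 * Real.sqrt D * (2 / η * EF + ((1 : ℂ) * Eq).re) <
        |(2 / η * F V + ((1 : ℂ) * q V).re) - (2 / η * EF + ((1 : ℂ) * Eq).re)|} ∪
      {V | 40 * Real.sqrt D * (2 / η * EF + (-Complex.I * Eq).re) <
        |(2 / η * F V + (-Complex.I * q V).re) - (2 / η * EF + (-Complex.I * Eq).re)|}) := by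
    intro V hV
    by_contra hcon
    simp only [Set.mem_union, Set.mem_ofPred_eq, not_or, not_lt] at hcon hV
    obtain ⟨c1, c2, c3⟩ := hcon
    have key : ∀ c : ℂ, ‖c‖ = 1 → |(2 / η * F V + (c * q V).re) - (2 / η * EF + (c * Eq).re)| ≤
        40 * Real.sqrt D * (2 / η * EF + (c * Eq).re) → |(c * (q V - Eq)).re| ≤
        200 * Real.sqrt D * EF / η := by
      intro c hc h1
      have h2 := (abs_le.1 (hre c hc)).2
      have h3 : (c * (q V - Eq)).re = ((2 / η * F V + (c * q V).re) -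
          (2 / η * EF + (c * Eq).re)) - 2 / η * (F V - EF) := by
        rw [mul_sub, Complex.sub_re]
        ring
      rw [h3]
      refine (abs_sub _ _).trans ?_
      rw [abs_mul, abs_of_pos (by positivity : 0 < 2 / η)]
      have h4 : 2 / η * |F V - EF| ≤ 2 / η * (40 * Real.sqrt D * EF) :=
        mul_le_mul_of_nonneg_left c1 (by positivity)
      have h5 : 40 * Real.sqrt D * (2 / η * EF + (c * Eq).re) ≤
          40 * Real.sqrt D * (2 / η * EF + EF / η) := by gcongr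
      have h6 : 40 * Real.sqrt D * (2 / η * EF + EF / η) + 2 / η * (40 * Real.sqrt D * EF) =
          200 * Real.sqrt D * EF / η := by ring
      linarith
    have k1 := key 1 (by simp) c2
    have k2 := key (-Complex.I) (by simp) c3
    rw [one_mul] at k1
    have e1 : (-Complex.I * (q V - Eq)).re = (q V - Eq).im := by
      simp
    rw [e1] at k2
    have k3 := Complex.norm_le_abs_re_add_abs_im (q V - Eq)
    have k4 : 400 * Real.sqrt D * EF / η = 2 * (200 * Real.sqrt D * EF / η) := by ring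
    rw [k4] at hV
    linarith
  refine (measureReal_mono hsub).trans ((measureReal_union_le _ _).trans ?_)
  have m2 := measureReal_union_le (μ := PP m μ)
    {V | 40 * Real.sqrt D * (2 / η * EF + ((1 : ℂ) * Eq).re) <
        |(2 / η * F V + ((1 : ℂ) * q V).re) - (2 / η * EF + ((1 : ℂ) * Eq).re)|}
    {V | 40 * Real.sqrt D * (2 / η * EF + (-Complex.I * Eq).re) <
        |(2 / η * F V + (-Complex.I * q V).re) - (2 / η * EF + (-Complex.I * Eq).re)|}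
  have t1 := tc 1 (by simp)
  have t2 := tc (-Complex.I) (by simp)
  linarith

end

end Pool.Agent.TH791.QD
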