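import Pool.Agent.TH791.QD.TEq
import Pool.Agent.TH794.FG.Core3

/-! The solution of the equation for `R* Y R`. -/

set_option autoImplicit false
set_option linter.unusedSectionVars false

open scoped BigOperators Matrix
open MeasureTheory

namespace Pool.Agent.TH791.QD

/-- Cauchy-Schwarz for a shifted sum -/
theorem cs_shift {ι : Type} [Fintype ι] (s : ι ≃ ι) (u : ι → ℝ) :
    ∑ k, u (s k) * u k ≤ ∑ k, u k ^ 2 := by
  have h1 : ∀ k, u (s k) * u k ≤ (u (s k) ^ 2 + u k ^ 2) / 2 := by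
    intro k
    nlinarith [sq_nonneg (u (s k) - u k)]
  refine (Finset.sum_le_sum fun k _ => h1 k).trans (le_of_eq ?_)
  rw [← Finset.sum_div, Finset.sum_add_distrib, Equiv.sum_comp s fun k => u k ^ 2]
  ring

/-- summing the equation -/
theorem coreT {ι : Type} [Fintype ι] (s : ι ≃ ι) (N g δ η s2 e1 ε3 B0 : ℝ) (js : ι → ℝ)
    (G : ι → ℂ) (h : ι → ι → ℝ) (S : ℝ) (T : ι → ℂ) (hN : 0 < N) (hδ : 0 < δ) (hη : 0 < η)
    (hs2 : 0 ≤ s2) (he0 : 0 ≤ e1) (hε3 : 0 ≤ ε3) (hjs : ∀ k, 0 < js k) (hjs2 : ∀ k, js k ^ 2 ≤ δ⁻¹)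
    (hg : ∑ k, js k ^ 2 ≤ g * N) (hT : ∀ k, ‖T k‖ ≤ (η ^ 2)⁻¹)
    (hh : ∀ k p, h k p ≤ 1) (hS : ∀ k, ∑ p, (1 - h k p) = S)
    (hS2 : s2 * S ≤ e1 * (η ^ 2 * δ ^ 2) * N)
    (hB0 : N⁻¹ * ∑ k, ‖G (s k)‖ * ‖G k‖ ≤ B0)
    (heq : ∀ k, ‖((js (s k) * js k : ℝ) : ℂ) * T k - (starRingEnd ℂ) (G (s k)) * G k *
      ((δ : ℂ) + (s2 : ℂ) * ∑ p, ((N⁻¹ * h k p * (js (s p) * js p) : ℝ) : ℂ) * T p)‖ ≤
      ε3 * (js (s k) * js k))
    (τ B : ℂ) (hτ : τ = ((N⁻¹ : ℝ) : ℂ) * ∑ k, ((js (s k) * js k : ℝ) : ℂ) * T k)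
    (hB : B = ((N⁻¹ : ℝ) : ℂ) * ∑ k, (starRingEnd ℂ) (G (s k)) * G k) :
    ‖(1 - (s2 : ℂ) * B) * τ - (δ : ℂ) * B‖ ≤ B0 * (e1 * δ) + ε3 * g := by
  have hNi : 0 < N⁻¹ := inv_pos.2 hN
  obtain ⟨l, hl⟩ : ∃ l : ι → ℂ, l = fun k => ((N⁻¹ : ℝ) : ℂ) *
    ∑ p, (((1 - h k p) * (js (s p) * js p) : ℝ) : ℂ) * T p := ⟨_, rfl⟩
  have hjj : ∀ p, js (s p) * js p ≤ δ⁻¹ := by
    intro p
    have e1 := hjs2 (s p)
    have e2 := hjs2 p
    nlinarith [sq_nonneg (js (s p) - js p)]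
  have hlk : ∀ k, ‖(s2 : ℂ) * l k‖ ≤ e1 * δ := by
    intro k
    rw [hl, norm_mul, Complex.norm_real, Real.norm_of_nonneg hs2]
    simp only
    rw [norm_mul, Complex.norm_real, Real.norm_of_nonneg hNi.le]
    have h1 : ‖∑ p, (((1 - h k p) * (js (s p) * js p) : ℝ) : ℂ) * T p‖ ≤
        S * (δ⁻¹ * (η ^ 2)⁻¹) := by
      rw [← hS k, Finset.sum_mul]
      refine (norm_sum_le _ _).trans (Finset.sum_le_sum fun p _ => ?_)
      have h1 : 0 ≤ 1 - h k p := by have := hh k p; linarith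
      have h2 : 0 < js (s p) * js p := mul_pos (hjs _) (hjs _)
      rw [norm_mul, Complex.norm_real, Real.norm_of_nonneg (mul_nonneg h1 h2.le), mul_assoc]
      exact mul_le_mul_of_nonneg_left (mul_le_mul (hjj p) (hT p) (norm_nonneg _)
        (inv_nonneg.2 hδ.le)) h1
    calc s2 * (N⁻¹ * ‖∑ p, (((1 - h k p) * (js (s p) * js p) : ℝ) : ℂ) * T p‖) ≤
        s2 * (N⁻¹ * (S * (δ⁻¹ * (η ^ 2)⁻¹))) := by gcongr
      _ = (s2 * S) * (N⁻¹ * (δ⁻¹ * (η ^ 2)⁻¹)) := by ring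
      _ ≤ (e1 * (η ^ 2 * δ ^ 2) * N) * (N⁻¹ * (δ⁻¹ * (η ^ 2)⁻¹)) :=
        mul_le_mul_of_nonneg_right hS2 (by positivity)
      _ = e1 * δ := by field_simp
  have hsum : ∀ k, ∑ p, ((N⁻¹ * h k p * (js (s p) * js p) : ℝ) : ℂ) * T p = τ - l k := by
    intro k
    rw [hτ, hl]
    simp only
    rw [← mul_sub, ← Finset.sum_sub_distrib, Finset.mul_sum]
    refine Finset.sum_congr rfl fun p _ => ?_
    push_cast
    ring
  have key : (1 - (s2 : ℂ) * B) * τ - (δ : ℂ) * B = ((N⁻¹ : ℝ) : ℂ) * ∑ k,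
      ((((js (s k) * js k : ℝ) : ℂ) * T k - (starRingEnd ℂ) (G (s k)) * G k *
      ((δ : ℂ) + (s2 : ℂ) * ∑ p, ((N⁻¹ * h k p * (js (s p) * js p) : ℝ) : ℂ) * T p)) -
      (starRingEnd ℂ) (G (s k)) * G k * ((s2 : ℂ) * l k)) := by
    have e1 : ∀ k, ((((js (s k) * js k : ℝ) : ℂ) * T k - (starRingEnd ℂ) (G (s k)) * G k *
      ((δ : ℂ) + (s2 : ℂ) * ∑ p, ((N⁻¹ * h k p * (js (s p) * js p) : ℝ) : ℂ) * T p)) -
      (starRingEnd ℂ) (G (s k)) * G k * ((s2 : ℂ) * l k)) =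
      ((js (s k) * js k : ℝ) : ℂ) * T k - (starRingEnd ℂ) (G (s k)) * G k *
        ((δ : ℂ) + (s2 : ℂ) * τ) := by
      intro k
      rw [hsum k]
      ring
    simp only [e1]
    rw [Finset.sum_sub_distrib, ← Finset.sum_mul, mul_sub, ← hτ, ← mul_assoc, ← hB]
    ring
  rw [key, norm_mul, Complex.norm_real, Real.norm_of_nonneg hNi.le]
  have h3 : ∀ k, ‖((((js (s k) * js k : ℝ) : ℂ) * T k - (starRingEnd ℂ) (G (s k)) * G k *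
      ((δ : ℂ) + (s2 : ℂ) * ∑ p, ((N⁻¹ * h k p * (js (s p) * js p) : ℝ) : ℂ) * T p)) -
      (starRingEnd ℂ) (G (s k)) * G k * ((s2 : ℂ) * l k))‖ ≤
      ε3 * (js (s k) * js k) + ‖G (s k)‖ * ‖G k‖ * (e1 * δ) := by
    intro k
    refine (norm_sub_le _ _).trans (add_le_add (heq k) ?_)
    rw [norm_mul, norm_mul, RCLike.norm_conj]
    exact mul_le_mul_of_nonneg_left (hlk k) (by positivity)
  refine (mul_le_mul_of_nonneg_left ((norm_sum_le _ _).trans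
    (Finset.sum_le_sum fun k _ => h3 k)) hNi.le).trans ?_
  rw [Finset.sum_add_distrib, ← Finset.mul_sum, ← Finset.sum_mul, mul_add]
  have h4 : N⁻¹ * (ε3 * ∑ k, js (s k) * js k) ≤ ε3 * g := by
    have h5 := (cs_shift s js).trans hg
    calc N⁻¹ * (ε3 * ∑ k, js (s k) * js k) = ε3 * (N⁻¹ * ∑ k, js (s k) * js k) := by ring
      _ ≤ ε3 * (N⁻¹ * (g * N)) := by gcongr
      _ = ε3 * g := by field_simp
  have h6 : N⁻¹ * ((∑ k, ‖G (s k)‖ * ‖G k‖) * (e1 * δ)) ≤ B0 * (e1 * δ) := by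
    rw [← mul_assoc]
    exact mul_le_mul_of_nonneg_right hB0 (by positivity)
  linarith

/-- solving the scalar equation -/
theorem solveT (τ B : ℂ) (s2 δ η Λ g A1 y E1 e1 ε3 : ℝ) (hs2 : 0 < s2) (_hδ : 0 < δ) (hη : 0 < η)
    (hΛ : Λ = η * δ / s2) (hΛ0 : 0 < Λ) (hg : 0 < g) (hA1 : Λ / (3 * g) ≤ A1)
    (hy0 : 0 ≤ y) (hy : y ≤ Λ / (6 * g)) (hb : ‖(1 - (s2 : ℂ) * B) - (A1 : ℂ)‖ ≤ y)
    (heq : ‖(1 - (s2 : ℂ) * B) * τ - (δ : ℂ) * B‖ ≤ E1)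
    (hE1 : η * E1 ≤ 2 * e1 * Λ + η * ε3 * g) (he1 : 0 ≤ e1) (hε3 : 0 ≤ ε3) :
    ‖(η : ℂ) * τ - ((Λ / A1 : ℝ) : ℂ)‖ ≤
      18 * g ^ 2 * y / Λ + Λ + 12 * g * e1 + 6 * g ^ 2 * η * ε3 / Λ := by
  obtain ⟨b, hbd⟩ : ∃ b : ℂ, b = 1 - (s2 : ℂ) * B := ⟨_, rfl⟩
  rw [← hbd] at hb heq
  have hA0 : 0 < A1 := lt_of_lt_of_le (by positivity) hA1
  have hyA : y ≤ A1 / 2 := by
    have : Λ / (6 * g) = Λ / (3 * g) / 2 := by field_simp; norm_num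
    linarith
  have hbn : A1 / 2 ≤ ‖b‖ := by
    have h1 := norm_sub_norm_le (A1 : ℂ) ((A1 : ℂ) - b)
    rw [sub_sub_cancel, Complex.norm_real, Real.norm_of_nonneg hA0.le, norm_sub_rev] at h1
    linarith
  have hb0 : 0 < ‖b‖ := lt_of_lt_of_le (by positivity) hbn
  have hbne : b ≠ 0 := norm_pos_iff.1 hb0
  have hs2c : (s2 : ℂ) ≠ 0 := by exact_mod_cast hs2.ne'
  have hA1c : ((A1 : ℝ) : ℂ) ≠ 0 := by exact_mod_cast hA0.ne'
  obtain ⟨ρ, hρ⟩ : ∃ ρ : ℂ, ρ = b * τ - (δ : ℂ) * B := ⟨_, rfl⟩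
  rw [← hρ] at heq
  have hB : B = (1 - b) / (s2 : ℂ) := by
    rw [hbd]
    field_simp
    ring
  have hητ : (η : ℂ) * τ = (Λ : ℂ) / b - (Λ : ℂ) + (η : ℂ) * ρ / b := by
    have h1 : (Λ : ℂ) = (η : ℂ) * (δ : ℂ) / (s2 : ℂ) := by
      rw [hΛ]
      push_cast
      rfl
    rw [hρ, hB, h1]
    field_simp
    ring
  have key : (η : ℂ) * τ - ((Λ / A1 : ℝ) : ℂ) =
      (Λ : ℂ) * (((A1 : ℝ) : ℂ) - b) / (b * ((A1 : ℝ) : ℂ)) - (Λ : ℂ) + (η : ℂ) * ρ / b := by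
    rw [hητ]
    push_cast
    field_simp
    ring
  rw [key]
  have n1 : ‖(Λ : ℂ) * (((A1 : ℝ) : ℂ) - b) / (b * ((A1 : ℝ) : ℂ))‖ ≤ 18 * g ^ 2 * y / Λ := by
    rw [norm_div, norm_mul, norm_mul, Complex.norm_real, Complex.norm_real,
      Real.norm_of_nonneg hΛ0.le, Real.norm_of_nonneg hA0.le, norm_sub_rev]
    calc Λ * ‖b - ((A1 : ℝ) : ℂ)‖ / (‖b‖ * A1) ≤ Λ * y / (A1 / 2 * A1) := by gcongr
      _ = 2 * (Λ * y) / (A1 * A1) := by field_simp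
      _ ≤ 2 * (Λ * y) / (Λ / (3 * g) * (Λ / (3 * g))) := by gcongr
      _ = _ := by
        field_simp
        ring
  have n2 : ‖(η : ℂ) * ρ / b‖ ≤ 12 * g * e1 + 6 * g ^ 2 * η * ε3 / Λ := by
    rw [norm_div, norm_mul, Complex.norm_real, Real.norm_of_nonneg hη.le]
    have hE0 : 0 ≤ E1 := (norm_nonneg _).trans heq
    calc η * ‖ρ‖ / ‖b‖ ≤ η * E1 / (A1 / 2) := by gcongr
      _ = 2 * (η * E1) / A1 := by field_simp
      _ ≤ 2 * (η * E1) / (Λ / (3 * g)) := by gcongr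
      _ ≤ 2 * (2 * e1 * Λ + η * ε3 * g) / (Λ / (3 * g)) := by gcongr
      _ = _ := by
        field_simp
        ring
  have n3 : ‖(Λ : ℂ)‖ = Λ := by rw [Complex.norm_real, Real.norm_of_nonneg hΛ0.le]
  have m1 := norm_add_le ((Λ : ℂ) * (((A1 : ℝ) : ℂ) - b) / (b * ((A1 : ℝ) : ℂ)) - (Λ : ℂ))
    ((η : ℂ) * ρ / b)
  have m2 := norm_sub_le ((Λ : ℂ) * (((A1 : ℝ) : ℂ) - b) / (b * ((A1 : ℝ) : ℂ))) (Λ : ℂ)
  rw [n3] at m2
  linarith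

/-- the correlation of a shifted function -/
theorem corr_eq {ι : Type} [Fintype ι] (s : ι ≃ ι) (u : ι → ℂ) :
    (∑ k, (starRingEnd ℂ) (u (s k)) * u k).re =
      ∑ k, ‖u k‖ ^ 2 - (∑ k, ‖u (s k) - u k‖ ^ 2) / 2 := by
  have h1 : ∀ k, ((starRingEnd ℂ) (u (s k)) * u k).re =
      (‖u (s k)‖ ^ 2 + ‖u k‖ ^ 2) / 2 - ‖u (s k) - u k‖ ^ 2 / 2 := by
    intro k
    rw [← Complex.normSq_eq_norm_sq, ← Complex.normSq_eq_norm_sq, ← Complex.normSq_eq_norm_sq,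
      Complex.normSq_apply, Complex.normSq_apply, Complex.normSq_apply]
    simp only [Complex.mul_re, Complex.conj_re, Complex.conj_im, Complex.sub_re, Complex.sub_im]
    ring
  rw [Complex.re_sum, Finset.sum_congr rfl fun k _ => h1 k, Finset.sum_sub_distrib,
    ← Finset.sum_div, ← Finset.sum_div, Finset.sum_add_distrib,
    Equiv.sum_comp s fun k => ‖u k‖ ^ 2]
  ring

/-- replacing `G` by `D⁻¹` in the correlation -/
theorem corr_near {ι : Type} [Fintype ι] (s : ι ≃ ι) (N x0 : ℝ) (hN : 0 < N) (hx0 : 0 ≤ x0)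
    (hx1 : x0 ≤ 1 / 4) (G u : ι → ℂ) (h : ∀ k, ‖G k - u k‖ ≤ x0 * ‖u k‖) :
    ‖((N⁻¹ : ℝ) : ℂ) * ∑ k, (starRingEnd ℂ) (G (s k)) * G k -
      ((N⁻¹ : ℝ) : ℂ) * ∑ k, (starRingEnd ℂ) (u (s k)) * u k‖ ≤
      3 * x0 * (N⁻¹ * ∑ k, ‖u k‖ ^ 2) ∧
    N⁻¹ * ∑ k, ‖G (s k)‖ * ‖G k‖ ≤ 2 * (N⁻¹ * ∑ k, ‖u k‖ ^ 2) := by
  have hNi : 0 < N⁻¹ := inv_pos.2 hN
  have hG : ∀ k, ‖G k‖ ≤ (1 + x0) * ‖u k‖ := by
    intro k
    have h1 := norm_add_le (G k - u k) (u k)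
    rw [sub_add_cancel] at h1
    have h2 := h k
    linarith
  have hcs := cs_shift s fun k => ‖u k‖
  constructor
  · rw [← mul_sub, norm_mul, Complex.norm_real, Real.norm_of_nonneg hNi.le,
      ← Finset.sum_sub_distrib]
    have h1 : ∀ k, ‖(starRingEnd ℂ) (G (s k)) * G k - (starRingEnd ℂ) (u (s k)) * u k‖ ≤
        3 * x0 * (‖u (s k)‖ * ‖u k‖) := by
      intro k
      have e1 : (starRingEnd ℂ) (G (s k)) * G k - (starRingEnd ℂ) (u (s k)) * u k =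
          (starRingEnd ℂ) (G (s k) - u (s k)) * G k +
            (starRingEnd ℂ) (u (s k)) * (G k - u k) := by
        rw [map_sub]
        ring
      rw [e1]
      refine (norm_add_le _ _).trans ?_
      rw [norm_mul, norm_mul, RCLike.norm_conj, RCLike.norm_conj]
      have a1 : ‖G (s k) - u (s k)‖ * ‖G k‖ ≤ (x0 * ‖u (s k)‖) * ((1 + x0) * ‖u k‖) :=
        mul_le_mul (h _) (hG k) (norm_nonneg _) (by positivity)
      have a2 : ‖u (s k)‖ * ‖G k - u k‖ ≤ ‖u (s k)‖ * (x0 * ‖u k‖) :=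
        mul_le_mul_of_nonneg_left (h k) (norm_nonneg _)
      have a3 : 0 ≤ ‖u (s k)‖ * ‖u k‖ := by positivity
      have a4 : x0 * x0 * (‖u (s k)‖ * ‖u k‖) ≤ 1 * x0 * (‖u (s k)‖ * ‖u k‖) := by
        apply mul_le_mul_of_nonneg_right _ a3
        apply mul_le_mul_of_nonneg_right _ hx0
        linarith
      nlinarith
    calc N⁻¹ * ‖∑ k, ((starRingEnd ℂ) (G (s k)) * G k - (starRingEnd ℂ) (u (s k)) * u k)‖ ≤
        N⁻¹ * ∑ k, 3 * x0 * (‖u (s k)‖ * ‖u k‖) := by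
          apply mul_le_mul_of_nonneg_left _ hNi.le
          exact (norm_sum_le _ _).trans (Finset.sum_le_sum fun k _ => h1 k)
      _ = 3 * x0 * (N⁻¹ * ∑ k, ‖u (s k)‖ * ‖u k‖) := by rw [← Finset.mul_sum]; ring
      _ ≤ _ := by gcongr
  · have h1 : ∀ k, ‖G (s k)‖ * ‖G k‖ ≤ 2 * (‖u (s k)‖ * ‖u k‖) := by
      intro k
      have a1 : ‖G (s k)‖ * ‖G k‖ ≤ ((1 + x0) * ‖u (s k)‖) * ((1 + x0) * ‖u k‖) :=
        mul_le_mul (hG _) (hG k) (norm_nonneg _) (by positivity)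
      have a3 : 0 ≤ ‖u (s k)‖ * ‖u k‖ := by positivity
      have a4 : (1 + x0) * (1 + x0) ≤ 2 := by nlinarith
      nlinarith
    calc N⁻¹ * ∑ k, ‖G (s k)‖ * ‖G k‖ ≤ N⁻¹ * ∑ k, 2 * (‖u (s k)‖ * ‖u k‖) := by
          apply mul_le_mul_of_nonneg_left _ hNi.le
          exact Finset.sum_le_sum fun k _ => h1 k
      _ = 2 * (N⁻¹ * ∑ k, ‖u (s k)‖ * ‖u k‖) := by rw [← Finset.mul_sum]; ring
      _ ≤ _ := by gcongr

/-- changing the self-energy in the difference -/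
theorem theta_near {ι : Type} [Fintype ι] (s : ι ≃ ι) (N u : ℝ) (hN : 0 < N) (hu0 : 0 ≤ u)
    (hu1 : u ≤ 1) (D D' : ι → ℂ) (hD : ∀ k, D k ≠ 0) (hD' : ∀ k, D' k ≠ 0)
    (hdiff : ∀ k, D (s k) - D k = D' (s k) - D' k)
    (h1 : ∀ k, ‖D k‖ ≤ (1 + u) * ‖D' k‖) (h2 : ∀ k, ‖D' k‖ ≤ (1 + u) * ‖D k‖) :
    |N⁻¹ * ∑ k, ‖(D (s k))⁻¹ - (D k)⁻¹‖ ^ 2 - N⁻¹ * ∑ k, ‖(D' (s k))⁻¹ - (D' k)⁻¹‖ ^ 2| ≤
      15 * u * (N⁻¹ * ∑ k, ‖(D' (s k))⁻¹ - (D' k)⁻¹‖ ^ 2) := by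
  have hNi : 0 < N⁻¹ := inv_pos.2 hN
  have hu4 : (1 + u) ^ 4 ≤ 1 + 15 * u := by
    have p2 : u ^ 2 ≤ u ^ 1 := pow_le_pow_of_le_one hu0 hu1 (by norm_num)
    have p3 : u ^ 3 ≤ u ^ 1 := pow_le_pow_of_le_one hu0 hu1 (by norm_num)
    have p4 : u ^ 4 ≤ u ^ 1 := pow_le_pow_of_le_one hu0 hu1 (by norm_num)
    rw [pow_one] at p2 p3 p4
    have : (1 + u) ^ 4 = 1 + 4 * u + 6 * u ^ 2 + 4 * u ^ 3 + u ^ 4 := by ring
    rw [this]
    linarith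
  have hterm : ∀ (D : ι → ℂ), (∀ k, D k ≠ 0) → ∀ k, ‖(D (s k))⁻¹ - (D k)⁻¹‖ ^ 2 =
      ‖D (s k) - D k‖ ^ 2 / (‖D (s k)‖ ^ 2 * ‖D k‖ ^ 2) := by
    intro D hD k
    rw [inv_sub_inv (hD _) (hD _), norm_div, norm_mul, div_pow, mul_pow, norm_sub_rev]
  have hcmp : ∀ k, |‖(D (s k))⁻¹ - (D k)⁻¹‖ ^ 2 - ‖(D' (s k))⁻¹ - (D' k)⁻¹‖ ^ 2| ≤
      15 * u * ‖(D' (s k))⁻¹ - (D' k)⁻¹‖ ^ 2 := by
    intro k
    rw [hterm D hD k, hterm D' hD' k, hdiff k]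
    obtain ⟨c, hc⟩ : ∃ c, c = ‖D' (s k) - D' k‖ ^ 2 := ⟨_, rfl⟩
    have hc0 : 0 ≤ c := by rw [hc]; positivity
    obtain ⟨a, ha⟩ : ∃ a, a = ‖D (s k)‖ ^ 2 * ‖D k‖ ^ 2 := ⟨_, rfl⟩
    obtain ⟨a', ha'⟩ : ∃ a, a = ‖D' (s k)‖ ^ 2 * ‖D' k‖ ^ 2 := ⟨_, rfl⟩
    have p1 : 0 < a := by
      rw [ha]
      have := norm_pos_iff.2 (hD (s k))
      have := norm_pos_iff.2 (hD k)
      positivity
    have p2 : 0 < a' := by
      rw [ha']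
      have := norm_pos_iff.2 (hD' (s k))
      have := norm_pos_iff.2 (hD' k)
      positivity
    have q1 : a ≤ (1 + 15 * u) * a' := by
      calc a ≤ ((1 + u) * ‖D' (s k)‖) ^ 2 * ((1 + u) * ‖D' k‖) ^ 2 := by
            rw [ha]
            have := h1 (s k)
            have := h1 k
            gcongr
        _ = (1 + u) ^ 4 * a' := by rw [ha']; ring
        _ ≤ _ := by gcongr
    have q2 : a' ≤ (1 + 15 * u) * a := by
      calc a' ≤ ((1 + u) * ‖D (s k)‖) ^ 2 * ((1 + u) * ‖D k‖) ^ 2 := by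
            rw [ha']
            have := h2 (s k)
            have := h2 k
            gcongr
        _ = (1 + u) ^ 4 * a := by rw [ha]; ring
        _ ≤ _ := by gcongr
    rw [← hc, ← ha, ← ha', abs_le]
    have r1 : c / a ≤ (1 + 15 * u) * (c / a') := by
      rw [div_le_iff₀ p1]
      calc c = (c / a') * a' := by field_simp
        _ ≤ (c / a') * ((1 + 15 * u) * a) := mul_le_mul_of_nonneg_left q2 (by positivity)
        _ = _ := by ring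
    have r2 : c / a' ≤ (1 + 15 * u) * (c / a) := by
      rw [div_le_iff₀ p2]
      calc c = (c / a) * a := by field_simp
        _ ≤ (c / a) * ((1 + 15 * u) * a') := mul_le_mul_of_nonneg_left q1 (by positivity)
        _ = _ := by ring
    have z1 : 0 ≤ c / a' := by positivity
    have z2 : 0 ≤ c / a := by positivity
    constructor
    · by_contra hcon
      push Not at hcon
      have k1 : c / a < (1 - 15 * u) * (c / a') := by linarith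
      have k2 : (1 + 15 * u) * (c / a) ≤ (1 + 15 * u) * ((1 - 15 * u) * (c / a')) :=
        mul_le_mul_of_nonneg_left k1.le (by positivity)
      have k3 : (1 + 15 * u) * ((1 - 15 * u) * (c / a')) ≤ c / a' := by
        have : (1 + 15 * u) * ((1 - 15 * u) * (c / a')) = c / a' - (15 * u) ^ 2 * (c / a') := by
          ring
        rw [this]
        have : 0 ≤ (15 * u) ^ 2 * (c / a') := by positivity
        linarith
      have k4 : (1 + 15 * u) * (c / a) < (1 + 15 * u) * ((1 - 15 * u) * (c / a')) :=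
        mul_lt_mul_of_pos_left k1 (by positivity)
      linarith
    · linarith
  rw [← mul_sub, ← Finset.sum_sub_distrib, abs_mul, abs_of_pos hNi]
  calc N⁻¹ * |∑ k, (‖(D (s k))⁻¹ - (D k)⁻¹‖ ^ 2 - ‖(D' (s k))⁻¹ - (D' k)⁻¹‖ ^ 2)| ≤
      N⁻¹ * ∑ k, 15 * u * ‖(D' (s k))⁻¹ - (D' k)⁻¹‖ ^ 2 := by
        apply mul_le_mul_of_nonneg_left _ hNi.le
        exact (Finset.abs_sum_le_sum_abs _ _).trans (Finset.sum_le_sum fun k _ => hcmp k)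
    _ = _ := by rw [← Finset.mul_sum]; ring

end Pool.Agent.TH791.QD
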