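import Pool.Agent.TH791.QD.Dbl
import Pool.Agent.W475.BK.Inv
import Pool.Agent.W363.BK.Site

/-! Translation covariance for the doubled matrices. -/

set_option autoImplicit false
set_option linter.unusedSectionVars false

open scoped BigOperators Matrix
open MeasureTheory

namespace Pool.Agent.TH791.QD

open Pool.Agent.W788.BK
open Pool.Agent.W788.MFP.Four (T e NN adj K ft e_comm e_add_left e_add e_zero e_neg e_neg_left
  e_normSq sum_e NN_pos)

variable {d L : ℕ} [NeZero L]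

section gen

variable {ι : Type} [Fintype ι] [DecidableEq ι]

/-- the diagonal unitary -/
noncomputable def UG (π : ι → T d L) (z : T d L) : Matrix ι ι ℂ := Matrix.diagonal fun i => e (π i) z

theorem UG_mul (π : ι → T d L) (z : T d L) : UG π z * (UG π z)ᴴ = 1 := by
  unfold UG
  rw [Matrix.diagonal_conjTranspose, Matrix.diagonal_mul_diagonal]
  rw [← Matrix.diagonal_one]
  congr 1
  funext k
  exact e_normSq (π k) z

theorem UG_mul' (π : ι → T d L) (z : T d L) : (UG π z)ᴴ * UG π z = 1 := by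
  rw [mul_eq_one_comm]; exact UG_mul π z

theorem UG_inv (π : ι → T d L) (z : T d L) : (UG π z)⁻¹ = (UG π z)ᴴ :=
  Matrix.inv_eq_right_inv (UG_mul π z)

theorem UGH_inv (π : ι → T d L) (z : T d L) : ((UG π z)ᴴ)⁻¹ = UG π z :=
  Matrix.inv_eq_right_inv (UG_mul' π z)

theorem conjG_apply (π : ι → T d L) (z : T d L) (X : Matrix ι ι ℂ) (k p : ι) :
    (UG π z * X * (UG π z)ᴴ) k p = e (π k - π p) z * X k p := by
  unfold UG
  rw [Matrix.diagonal_conjTranspose, Matrix.mul_diagonal, Matrix.diagonal_mul]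
  rw [sub_eq_add_neg, e_add_left, e_neg_left]
  show e (π k) z * X k p * (starRingEnd ℂ) (e (π p) z) = _
  ring

/-- covariance of a matrix -/
def CovM (π : ι → T d L) (X0 : Matrix ι ι ℂ) : Prop :=
  ∀ (z : T d L) i j, X0 i j = e (π i - π j) z * X0 i j

/-- covariance of a family of matrices -/
def CovF (π : ι → T d L) (A : T d L → Matrix ι ι ℂ) : Prop :=
  ∀ (z y : T d L) i j, A (y + z) i j = e (π i - π j) z * A y i j

variable {π : ι → T d L} {X0 : Matrix ι ι ℂ} {A : T d L → Matrix ι ι ℂ}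

theorem XXG_shift (hX : CovM π X0) (hA : CovF π A) (V : T d L → ℝ) (z : T d L) :
    XX X0 A (fun y => V (y - z)) = UG π z * XX X0 A V * (UG π z)ᴴ := by
  ext k p
  rw [conjG_apply]
  unfold XX
  rw [Matrix.add_apply, Matrix.add_apply, mul_add]
  congr 1
  · exact hX z k p
  · rw [Matrix.sum_apply, Matrix.sum_apply, Finset.mul_sum]
    rw [← Equiv.sum_comp (Equiv.addRight z)]
    refine Finset.sum_congr rfl fun y _ => ?_
    have h0 : (Equiv.addRight z) y = y + z := rfl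
    rw [h0, Matrix.smul_apply, Matrix.smul_apply, smul_eq_mul, smul_eq_mul]
    show ((V (y + z - z) : ℝ) : ℂ) * _ = _
    rw [add_sub_cancel_right, hA z y k p]
    ring

theorem RRG_shift (hX : CovM π X0) (hA : CovF π A) (η : ℝ) (V : T d L → ℝ) (z : T d L)
    (k p : ι) :
    RR X0 A η (fun y => V (y - z)) k p = e (π k - π p) z * RR X0 A η V k p := by
  rw [← conjG_apply]
  unfold RR
  rw [XXG_shift hX hA]
  have h1 : UG π z * XX X0 A V * (UG π z)ᴴ -
      ((η : ℂ) * Complex.I) • (1 : Matrix ι ι ℂ) =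
      UG π z * (XX X0 A V - ((η : ℂ) * Complex.I) • (1 : Matrix ι ι ℂ)) * (UG π z)ᴴ := by
    rw [mul_sub, sub_mul, mul_smul_comm, smul_mul_assoc, mul_one, UG_mul]
  rw [h1, Matrix.mul_inv_rev, Matrix.mul_inv_rev, UG_inv, UGH_inv, mul_assoc]

/-- the support of the mean resolvent -/
theorem MM_supp (hX : CovM π X0) (hA : CovF π A) (η : ℝ) (μ : Measure ℝ)
    [IsProbabilityMeasure μ] (k p : ι) (hkp : π k ≠ π p) : MM X0 A η μ k p = 0 := by
  have hinv : ∀ z : T d L, MM X0 A η μ k p = e (π k - π p) z * MM X0 A η μ k p := by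
    intro z
    have h1 := (measurePreserving_piCongrLeft (fun _ : T d L => μ)
      (Equiv.addRight z)).integral_comp' (fun V : T d L → ℝ => RR X0 A η V k p)
    have h2 : ∀ V : T d L → ℝ, (MeasurableEquiv.piCongrLeft (fun _ : T d L => ℝ)
        (Equiv.addRight z)) V = fun y => V (y - z) := by
      intro V
      funext y
      have h3 := Equiv.piCongrLeft_apply_apply (fun _ : T d L => ℝ) (Equiv.addRight z) V (y - z)
      have h4 : (Equiv.addRight z) (y - z) = y := sub_add_cancel y z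
      rw [h4] at h3
      exact h3
    simp only [h2, RRG_shift hX hA] at h1
    rw [integral_const_mul] at h1
    unfold MM
    rw [Matrix.of_apply]
    exact h1.symm
  have hsum : ∑ z : T d L, MM X0 A η μ k p = (∑ z : T d L, e z (π k - π p)) * MM X0 A η μ k p := by
    rw [Finset.sum_mul]
    refine Finset.sum_congr rfl fun z _ => ?_
    rw [e_comm z]
    exact hinv z
  rw [sum_e, if_neg (sub_ne_zero.2 hkp), zero_mul, Finset.sum_const, nsmul_eq_mul] at hsum
  rcases mul_eq_zero.1 hsum with h | h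
  · exfalso
    have : (Finset.univ : Finset (T d L)).card ≠ 0 := by
      rw [Finset.card_univ]; exact Fintype.card_ne_zero
    exact this (by exact_mod_cast h)
  · exact h

end gen

/-- the matrix of `δ J^{-1/2} e^{iqx} J^{-1/2}` -/
noncomputable def Yq (E δ : ℝ) (r : T d L) : Matrix (T d L) (T d L) ℂ :=
  Matrix.of fun k' k => if k' = k + r then
    ((δ * ((Real.sqrt (JJ E δ k'))⁻¹ * (Real.sqrt (JJ E δ k))⁻¹) : ℝ) : ℂ) else 0

theorem sq_JJ_inv_le (E δ : ℝ) (hδ : 0 < δ) (k : T d L) :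
    (Real.sqrt (JJ E δ k))⁻¹ ≤ (Real.sqrt δ)⁻¹ :=
  inv_anti₀ (Real.sqrt_pos.2 hδ) (Real.sqrt_le_sqrt (Pool.Agent.W363.BK.JJ_ge E δ hδ k))

theorem Yq_le (E δ : ℝ) (hδ : 0 < δ) (k' k : T d L) :
    |δ * ((Real.sqrt (JJ E δ k'))⁻¹ * (Real.sqrt (JJ E δ k))⁻¹)| ≤ 1 := by
  have h1 := sq_JJ_inv_le E δ hδ k'
  have h2 := sq_JJ_inv_le E δ hδ k
  have h3 : 0 < Real.sqrt δ := Real.sqrt_pos.2 hδ
  have h4 : 0 ≤ (Real.sqrt (JJ E δ k'))⁻¹ := inv_nonneg.2 (Real.sqrt_nonneg _)
  have h5 : 0 ≤ (Real.sqrt (JJ E δ k))⁻¹ := inv_nonneg.2 (Real.sqrt_nonneg _)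
  rw [abs_of_nonneg (by positivity)]
  calc δ * ((Real.sqrt (JJ E δ k'))⁻¹ * (Real.sqrt (JJ E δ k))⁻¹) ≤
      δ * ((Real.sqrt δ)⁻¹ * (Real.sqrt δ)⁻¹) := by gcongr
    _ = 1 := by
      rw [← mul_inv, Real.mul_self_sqrt hδ.le, mul_inv_cancel₀ hδ.ne']

theorem Yq_apply (E δ : ℝ) (r k' k : T d L) : Yq E δ r k' k = if k' = k + r then
    ((δ * ((Real.sqrt (JJ E δ k'))⁻¹ * (Real.sqrt (JJ E δ k))⁻¹) : ℝ) : ℂ) else 0 := rfl

theorem Yq_mulVec (E δ : ℝ) (r : T d L) (w : T d L → ℂ) (k' : T d L) :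
    (Yq E δ r *ᵥ w) k' = ((δ * ((Real.sqrt (JJ E δ k'))⁻¹ *
      (Real.sqrt (JJ E δ (k' - r)))⁻¹) : ℝ) : ℂ) * w (k' - r) := by
  unfold Matrix.mulVec dotProduct
  rw [Finset.sum_eq_single (k' - r)]
  · simp only [Yq_apply]
    rw [if_pos (by abel)]
  · intro k _ hk
    simp only [Yq_apply]
    rw [if_neg, zero_mul]
    intro h
    apply hk
    rw [h]
    abel
  · intro h
    exact absurd (Finset.mem_univ _) h

theorem YqH_mulVec (E δ : ℝ) (r : T d L) (w : T d L → ℂ) (k : T d L) :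
    ((Yq E δ r)ᴴ *ᵥ w) k = ((δ * ((Real.sqrt (JJ E δ (k + r)))⁻¹ *
      (Real.sqrt (JJ E δ k))⁻¹) : ℝ) : ℂ) * w (k + r) := by
  unfold Matrix.mulVec dotProduct
  rw [Finset.sum_eq_single (k + r)]
  · simp only [Matrix.conjTranspose_apply]
    unfold Yq
    rw [Matrix.of_apply, if_pos rfl, RCLike.star_def, Complex.conj_ofReal]
  · intro k' _ hk
    simp only [Matrix.conjTranspose_apply]
    unfold Yq
    rw [Matrix.of_apply, if_neg hk, star_zero, zero_mul]
  · intro h
    exact absurd (Finset.mem_univ _) h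

theorem Yq_opb (E δ : ℝ) (hδ : 0 < δ) (r : T d L) : Opb (Yq E δ r) 1 := by
  intro w
  unfold nsq
  simp only [Yq_mulVec]
  rw [one_pow, one_mul]
  have h1 : ∀ k' : T d L, ‖((δ * ((Real.sqrt (JJ E δ k'))⁻¹ *
      (Real.sqrt (JJ E δ (k' - r)))⁻¹) : ℝ) : ℂ) * w (k' - r)‖ ^ 2 ≤ ‖w (k' - r)‖ ^ 2 := by
    intro k'
    rw [norm_mul, mul_pow, Complex.norm_real, Real.norm_eq_abs]
    have := Yq_le E δ hδ k' (k' - r)
    exact mul_le_of_le_one_left (sq_nonneg _) (pow_le_one₀ (abs_nonneg _) this)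
  refine (Finset.sum_le_sum fun k' _ => h1 k').trans (le_of_eq ?_)
  exact Equiv.sum_comp (Equiv.subRight r) fun k => ‖w k‖ ^ 2

theorem YqH_opb (E δ : ℝ) (hδ : 0 < δ) (r : T d L) : Opb (Yq E δ r)ᴴ 1 := by
  intro w
  unfold nsq
  simp only [YqH_mulVec]
  rw [one_pow, one_mul]
  have h1 : ∀ k : T d L, ‖((δ * ((Real.sqrt (JJ E δ (k + r)))⁻¹ *
      (Real.sqrt (JJ E δ k))⁻¹) : ℝ) : ℂ) * w (k + r)‖ ^ 2 ≤ ‖w (k + r)‖ ^ 2 := by
    intro k
    rw [norm_mul, mul_pow, Complex.norm_real, Real.norm_eq_abs]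
    have := Yq_le E δ hδ (k + r) k
    exact mul_le_of_le_one_left (sq_nonneg _) (pow_le_one₀ (abs_nonneg _) this)
  refine (Finset.sum_le_sum fun k' _ => h1 k').trans (le_of_eq ?_)
  exact Equiv.sum_comp (Equiv.addRight r) fun k => ‖w k‖ ^ 2

/-- the momentum of an index -/
def mom (r : T d L) : T d L ⊕ T d L → T d L := Sum.elim (fun k => k - r) id

theorem e_zero_left (z : T d L) : e (0 : T d L) z = 1 := by rw [e_comm, e_zero]

theorem cov_X2 (E δ α : ℝ) (r : T d L) :
    CovM (mom r) (X2 (D0 E δ) (Yq E δ r) α) := by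
  intro z i j
  rcases i with i | i <;> rcases j with j | j
  · simp only [X2, Matrix.fromBlocks_apply₁₁, mom, Sum.elim_inl, Matrix.neg_apply]
    unfold D0
    rcases eq_or_ne i j with h | h
    · subst h
      rw [sub_self, e_zero_left, one_mul]
    · rw [Matrix.diagonal_apply_ne _ h]
      simp
  · simp only [X2, Matrix.fromBlocks_apply₁₂, mom, Sum.elim_inl, Sum.elim_inr, id,
      Matrix.smul_apply]
    unfold Yq
    rw [Matrix.of_apply]
    by_cases h : i = j + r
    · rw [h, add_sub_cancel_right, sub_self, e_zero_left, one_mul]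
    · rw [if_neg h]
      simp
  · simp only [X2, Matrix.fromBlocks_apply₂₁, mom, Sum.elim_inl, Sum.elim_inr, id,
      Matrix.smul_apply, Matrix.conjTranspose_apply]
    unfold Yq
    rw [Matrix.of_apply]
    by_cases h : j = i + r
    · rw [h, add_sub_cancel_right, sub_self, e_zero_left, one_mul]
    · rw [if_neg h]
      simp
  · simp only [X2, Matrix.fromBlocks_apply₂₂, mom, Sum.elim_inr, id]
    unfold D0
    rcases eq_or_ne i j with h | h
    · subst h
      rw [sub_self, e_zero_left, one_mul]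
    · rw [Matrix.diagonal_apply_ne _ h]
      simp

theorem cov_A2 (E δ θ : ℝ) (r : T d L) :
    CovF (mom r) (A2 (AA (d := d) (L := L) E δ θ)) := by
  intro z y i j
  rcases i with i | i <;> rcases j with j | j
  · simp only [A2, Matrix.fromBlocks_apply₁₁, mom, Sum.elim_inl, Matrix.neg_apply]
    unfold AA
    rw [Matrix.of_apply, Matrix.of_apply, e_add, sub_sub_sub_cancel_right]
    ring
  · simp [A2]
  · simp [A2]
  · simp only [A2, Matrix.fromBlocks_apply₂₂, mom, Sum.elim_inr, id]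
    unfold AA
    rw [Matrix.of_apply, Matrix.of_apply, e_add]
    ring

end Pool.Agent.TH791.QD
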