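import Pool.Agent.W788.BK.Stm

/-! Two resolvents from one: the doubled Hermitian matrix `[[-X, α Y], [α Yᴴ, X]]`. -/

set_option autoImplicit false
set_option linter.unusedSectionVars false

open scoped BigOperators Matrix
open MeasureTheory

namespace Pool.Agent.TH791.QD

open Pool.Agent.W788.BK

variable {n m : Type} [Fintype n] [DecidableEq n] [Fintype m] [DecidableEq m]

/-- the doubled matrix `X₀` -/
noncomputable def X2 (X0 Y : Matrix n n ℂ) (α : ℝ) : Matrix (n ⊕ n) (n ⊕ n) ℂ :=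
  Matrix.fromBlocks (-X0) ((α : ℂ) • Y) ((α : ℂ) • Yᴴ) X0

/-- the doubled matrices `A_y` -/
noncomputable def A2 (A : m → Matrix n n ℂ) (y : m) : Matrix (n ⊕ n) (n ⊕ n) ℂ :=
  Matrix.fromBlocks (-(A y)) 0 0 (A y)

theorem nsq_sum (w : n ⊕ n → ℂ) : nsq w = nsq (w ∘ Sum.inl) + nsq (w ∘ Sum.inr) := by
  unfold nsq
  rw [Fintype.sum_sum_type]
  rfl

theorem nsq_neg (w : n → ℂ) : nsq (-w) = nsq w := by
  unfold nsq
  simp

theorem nsq_zero' : nsq (0 : n → ℂ) = 0 := by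
  unfold nsq
  simp

theorem XX2 (X0 Y : Matrix n n ℂ) (A : m → Matrix n n ℂ) (α : ℝ) (V : m → ℝ) :
    XX (X2 X0 Y α) (A2 A) V =
      Matrix.fromBlocks (-(XX X0 A V)) ((α : ℂ) • Y) ((α : ℂ) • Yᴴ) (XX X0 A V) := by
  ext i j
  rcases i with i | i <;> rcases j with j | j
  · simp [XX, X2, A2, Matrix.sum_apply, Finset.sum_neg_distrib]
    ring
  · simp [XX, X2, A2, Matrix.sum_apply]
  · simp [XX, X2, A2, Matrix.sum_apply]
  · simp [XX, X2, A2, Matrix.sum_apply]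

theorem shift2 (X Y : Matrix n n ℂ) (α : ℝ) (c : ℂ) :
    Matrix.fromBlocks (-X) ((α : ℂ) • Y) ((α : ℂ) • Yᴴ) X -
      c • (1 : Matrix (n ⊕ n) (n ⊕ n) ℂ) =
      Matrix.fromBlocks (-(X + c • (1 : Matrix n n ℂ))) ((α : ℂ) • Y) ((α : ℂ) • Yᴴ)
        (X - c • (1 : Matrix n n ℂ)) := by
  ext i j
  rcases i with i | i <;> rcases j with j | j
  · simp [Matrix.one_apply]
    ring
  · simp [Matrix.one_apply]
  · simp [Matrix.one_apply]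
  · simp [Matrix.one_apply]

theorem X2_herm {X0 : Matrix n n ℂ} (h : X0.IsHermitian) (Y : Matrix n n ℂ) (α : ℝ) :
    (X2 X0 Y α).IsHermitian := by
  unfold X2 Matrix.IsHermitian
  rw [Matrix.fromBlocks_conjTranspose, Matrix.conjTranspose_neg, h.eq, Matrix.conjTranspose_smul,
    Matrix.conjTranspose_smul, Matrix.conjTranspose_conjTranspose]
  simp

theorem A2_herm {A : m → Matrix n n ℂ} (h : ∀ y, (A y).IsHermitian) (y : m) :
    (A2 A y).IsHermitian := by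
  unfold A2 Matrix.IsHermitian
  rw [Matrix.fromBlocks_conjTranspose, Matrix.conjTranspose_neg, (h y).eq]
  simp

theorem nsq_A2 (A : m → Matrix n n ℂ) (y : m) (w : n ⊕ n → ℂ) :
    nsq (A2 A y *ᵥ w) = nsq (A y *ᵥ (w ∘ Sum.inl)) + nsq (A y *ᵥ (w ∘ Sum.inr)) := by
  unfold A2
  rw [Matrix.fromBlocks_mulVec, nsq_sum]
  congr 1
  · rw [Sum.elim_comp_inl, Matrix.zero_mulVec, add_zero, Matrix.neg_mulVec, nsq_neg]
  · rw [Sum.elim_comp_inr, Matrix.zero_mulVec, zero_add]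

theorem hs_blocks (W : Matrix (n ⊕ n) (n ⊕ n) ℂ) :
    hs W.toBlocks₁₁ + hs W.toBlocks₂₂ ≤ hs W := by
  unfold hs
  rw [Fintype.sum_sum_type]
  refine add_le_add (Finset.sum_le_sum fun i _ => ?_) (Finset.sum_le_sum fun i _ => ?_)
  · rw [Fintype.sum_sum_type]
    have : 0 ≤ ∑ j, ‖W (Sum.inl i) (Sum.inr j)‖ ^ 2 := Finset.sum_nonneg fun _ _ => by positivity
    simp only [Matrix.toBlocks₁₁, Matrix.of_apply]
    linarith
  · rw [Fintype.sum_sum_type]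
    have : 0 ≤ ∑ j, ‖W (Sum.inr i) (Sum.inl j)‖ ^ 2 := Finset.sum_nonneg fun _ _ => by positivity
    simp only [Matrix.toBlocks₂₂, Matrix.of_apply]
    linarith

theorem trace_A2 (A : m → Matrix n n ℂ) (y : m) (W : Matrix (n ⊕ n) (n ⊕ n) ℂ) :
    (A2 A y * W).trace = -(A y * W.toBlocks₁₁).trace + (A y * W.toBlocks₂₂).trace := by
  have h : W = Matrix.fromBlocks W.toBlocks₁₁ W.toBlocks₁₂ W.toBlocks₂₁ W.toBlocks₂₂ :=
    (Matrix.fromBlocks_toBlocks W).symm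
  conv_lhs => rw [h]
  unfold A2
  rw [Matrix.fromBlocks_multiply]
  unfold Matrix.trace
  rw [Fintype.sum_sum_type]
  simp

/-- the doubled matrices are admissible -/
theorem adm2 {X0 : Matrix n n ℂ} {A : m → Matrix n n ℂ} {a v2 Q : ℝ} (H : Adm X0 A a v2 Q)
    (Y : Matrix n n ℂ) (α : ℝ) : Adm (X2 X0 Y α) (A2 A) a v2 (2 * Q) where
  hX0 := X2_herm H.hX0 Y α
  hA := A2_herm H.hA
  ha0 := H.ha0
  hv0 := H.hv0
  hQ0 := by linarith [H.hQ0]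
  ha y w := by
    rw [nsq_A2, nsq_sum w]
    linarith [H.ha y (w ∘ Sum.inl), H.ha y (w ∘ Sum.inr)]
  hv w := by
    simp only [nsq_A2]
    rw [Finset.sum_add_distrib, nsq_sum w]
    linarith [H.hv (w ∘ Sum.inl), H.hv (w ∘ Sum.inr)]
  hQ W := by
    have h1 : ∀ y, ‖(A2 A y * W).trace‖ ^ 2 ≤
        2 * ‖(A y * W.toBlocks₁₁).trace‖ ^ 2 + 2 * ‖(A y * W.toBlocks₂₂).trace‖ ^ 2 := by
      intro y
      rw [trace_A2]
      have h2 := norm_add_le (-(A y * W.toBlocks₁₁).trace) (A y * W.toBlocks₂₂).trace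
      rw [norm_neg] at h2
      have h3 : ‖-(A y * W.toBlocks₁₁).trace + (A y * W.toBlocks₂₂).trace‖ ^ 2 ≤
          (‖(A y * W.toBlocks₁₁).trace‖ + ‖(A y * W.toBlocks₂₂).trace‖) ^ 2 :=
        pow_le_pow_left₀ (norm_nonneg _) h2 2
      nlinarith [sq_nonneg (‖(A y * W.toBlocks₁₁).trace‖ - ‖(A y * W.toBlocks₂₂).trace‖)]
    refine (Finset.sum_le_sum fun y _ => h1 y).trans ?_
    rw [Finset.sum_add_distrib, ← Finset.mul_sum, ← Finset.mul_sum]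
    have h4 := H.hQ W.toBlocks₁₁
    have h5 := H.hQ W.toBlocks₂₂
    have h6 := mul_le_mul_of_nonneg_left (hs_blocks W) H.hQ0
    linarith

/-! ### Bounds on operators -/

/-- the operator norm is at most `b` -/
def Opb (B : Matrix n n ℂ) (b : ℝ) : Prop := ∀ w : n → ℂ, nsq (B *ᵥ w) ≤ b ^ 2 * nsq w

theorem Opb.mul {B C : Matrix n n ℂ} {b c : ℝ} (hB : Opb B b) (hC : Opb C c) :
    Opb (B * C) (b * c) := by
  intro w
  rw [← Matrix.mulVec_mulVec]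
  calc nsq (B *ᵥ (C *ᵥ w)) ≤ b ^ 2 * nsq (C *ᵥ w) := hB _
    _ ≤ b ^ 2 * (c ^ 2 * nsq w) := mul_le_mul_of_nonneg_left (hC w) (sq_nonneg b)
    _ = _ := by ring

theorem Opb.smul {B : Matrix n n ℂ} {b : ℝ} (hB : Opb B b) (a : ℝ) :
    Opb ((a : ℂ) • B) (a * b) := by
  intro w
  rw [Matrix.smul_mulVec, nsq_smul, Complex.norm_real, Real.norm_eq_abs, sq_abs, mul_pow,
    mul_assoc]
  exact mul_le_mul_of_nonneg_left (hB w) (sq_nonneg a)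

theorem Opb.mono {B : Matrix n n ℂ} {b c : ℝ} (hB : Opb B b) (hb : 0 ≤ b) (h : b ≤ c) :
    Opb B c := by
  intro w
  refine (hB w).trans ?_
  have := nsq_nonneg w
  gcongr

theorem Opb.entry {B : Matrix n n ℂ} {b : ℝ} (hb : 0 ≤ b) (hB : Opb B b) (i j : n) :
    ‖B i j‖ ≤ b := by
  have h1 := hB (Pi.single j 1)
  rw [Matrix.mulVec_single_one] at h1
  have h2 : nsq (Pi.single j 1 : n → ℂ) = 1 := by
    unfold nsq
    rw [Finset.sum_eq_single j]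
    · simp
    · intro k _ hk
      rw [Pi.single_eq_of_ne hk]
      simp
    · intro h
      exact absurd (Finset.mem_univ j) h
  rw [h2, mul_one] at h1
  have h3 : ‖B i j‖ ^ 2 ≤ nsq (B.col j) := by
    unfold nsq
    exact Finset.single_le_sum (f := fun i => ‖B.col j i‖ ^ 2) (fun _ _ => by positivity)
      (Finset.mem_univ i)
  exact (abs_le_of_sq_le_sq' (h3.trans h1) hb).2

theorem Opb.form {B : Matrix n n ℂ} {b : ℝ} (hb : 0 ≤ b) (hB : Opb B b) (f g : n → ℂ) :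
    ‖star f ⬝ᵥ (B *ᵥ g)‖ ≤ b * (Real.sqrt (nsq f) * Real.sqrt (nsq g)) := by
  refine (cs_norm f (B *ᵥ g)).trans ?_
  have h1 : Real.sqrt (nsq (B *ᵥ g)) ≤ b * Real.sqrt (nsq g) := by
    rw [Real.sqrt_le_left (by positivity), mul_pow, Real.sq_sqrt (nsq_nonneg g)]
    exact hB g
  calc Real.sqrt (nsq f) * Real.sqrt (nsq (B *ᵥ g)) ≤
      Real.sqrt (nsq f) * (b * Real.sqrt (nsq g)) :=
        mul_le_mul_of_nonneg_left h1 (Real.sqrt_nonneg _)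
    _ = _ := by ring

theorem Opb.blocks {W : Matrix (n ⊕ n) (n ⊕ n) ℂ} {b : ℝ} (h : Opb W b) :
    Opb W.toBlocks₁₁ b ∧ Opb W.toBlocks₁₂ b ∧ Opb W.toBlocks₂₁ b ∧ Opb W.toBlocks₂₂ b := by
  have hW : W = Matrix.fromBlocks W.toBlocks₁₁ W.toBlocks₁₂ W.toBlocks₂₁ W.toBlocks₂₂ :=
    (Matrix.fromBlocks_toBlocks W).symm
  have h1 : ∀ g : n → ℂ, nsq (W.toBlocks₁₁ *ᵥ g) + nsq (W.toBlocks₂₁ *ᵥ g) ≤ b ^ 2 * nsq g := by
    intro g
    have h2 := h (Sum.elim g 0)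
    rw [hW, Matrix.fromBlocks_mulVec, nsq_sum, nsq_sum (Sum.elim g 0)] at h2
    simp only [Sum.elim_comp_inl, Sum.elim_comp_inr, Matrix.mulVec_zero, add_zero] at h2
    rw [nsq_zero', add_zero] at h2
    simpa using h2
  have h3 : ∀ g : n → ℂ, nsq (W.toBlocks₁₂ *ᵥ g) + nsq (W.toBlocks₂₂ *ᵥ g) ≤ b ^ 2 * nsq g := by
    intro g
    have h2 := h (Sum.elim 0 g)
    rw [hW, Matrix.fromBlocks_mulVec, nsq_sum, nsq_sum (Sum.elim 0 g)] at h2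
    simp only [Sum.elim_comp_inl, Sum.elim_comp_inr, Matrix.mulVec_zero, zero_add] at h2
    rw [nsq_zero', zero_add] at h2
    simpa using h2
  refine ⟨fun g => ?_, fun g => ?_, fun g => ?_, fun g => ?_⟩
  · linarith [h1 g, nsq_nonneg (W.toBlocks₂₁ *ᵥ g)]
  · linarith [h3 g, nsq_nonneg (W.toBlocks₂₂ *ᵥ g)]
  · linarith [h1 g, nsq_nonneg (W.toBlocks₁₁ *ᵥ g)]
  · linarith [h3 g, nsq_nonneg (W.toBlocks₁₂ *ᵥ g)]

/-! ### The blocks of the doubled resolvent -/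

section res

variable {X0 Y : Matrix n n ℂ} {A : m → Matrix n n ℂ} {η α : ℝ}

theorem RR_opb (h0 : X0.IsHermitian) (hA : ∀ y, (A y).IsHermitian) (hη : 0 < η) (V : m → ℝ) :
    Opb (RR X0 A η V) η⁻¹ := by
  intro w
  have := RR_bd h0 hA hη V w
  rwa [inv_pow]

theorem RRH_opb (h0 : X0.IsHermitian) (hA : ∀ y, (A y).IsHermitian) (hη : 0 < η) (V : m → ℝ) :
    Opb (RR X0 A η V)ᴴ η⁻¹ := by
  intro w
  have := RRH_bd h0 hA hη V w
  rwa [inv_pow]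

theorem block_eqs (h0 : X0.IsHermitian) (hA : ∀ y, (A y).IsHermitian) (hη : 0 < η)
    (V : m → ℝ) :
    (RR (X2 X0 Y α) (A2 A) η V).toBlocks₁₂ =
      (α : ℂ) • ((RR X0 A η V)ᴴ * Y * (RR (X2 X0 Y α) (A2 A) η V).toBlocks₂₂) ∧
    (RR (X2 X0 Y α) (A2 A) η V).toBlocks₂₂ - RR X0 A η V =
      -((α : ℂ) • (RR X0 A η V * Yᴴ * (RR (X2 X0 Y α) (A2 A) η V).toBlocks₁₂)) ∧
    (RR (X2 X0 Y α) (A2 A) η V).toBlocks₁₁ + (RR X0 A η V)ᴴ =
      (α : ℂ) • ((RR X0 A η V)ᴴ * Y * (RR (X2 X0 Y α) (A2 A) η V).toBlocks₂₁) ∧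
    (RR (X2 X0 Y α) (A2 A) η V).toBlocks₂₁ =
      -((α : ℂ) • (RR X0 A η V * Yᴴ * (RR (X2 X0 Y α) (A2 A) η V).toBlocks₁₁)) := by
  obtain ⟨R, hR⟩ : ∃ R, R = RR X0 A η V := ⟨_, rfl⟩
  obtain ⟨W, hW⟩ : ∃ W, W = RR (X2 X0 Y α) (A2 A) η V := ⟨_, rfl⟩
  obtain ⟨c, hc⟩ : ∃ c : ℂ, c = (η : ℂ) * Complex.I := ⟨_, rfl⟩
  obtain ⟨X, hX⟩ : ∃ X, X = XX X0 A V := ⟨_, rfl⟩
  have h1 := mul_RR (X2_herm h0 Y α) (A2_herm hA) hη V
  rw [← hW, XX2, ← hX, ← hc, shift2] at h1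
  have h2 := RR_mul h0 hA hη V
  have h2' := mul_RR h0 hA hη V
  rw [← hR, ← hX, ← hc] at h2 h2'
  have hXh : X.IsHermitian := by rw [hX]; exact XX_herm h0 hA V
  have h3 : Rᴴ * (X + c • (1 : Matrix n n ℂ)) = 1 := by
    have h4 := congrArg Matrix.conjTranspose h2'
    rw [Matrix.conjTranspose_mul, Matrix.conjTranspose_sub, hXh.eq, Matrix.conjTranspose_smul,
      Matrix.conjTranspose_one] at h4
    have h5 : star c = -c := by
      rw [hc, star_mul']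
      simp
    rw [h5, neg_smul, sub_neg_eq_add] at h4
    exact h4
  rw [← hR, ← hW]
  have hWb : W = Matrix.fromBlocks W.toBlocks₁₁ W.toBlocks₁₂ W.toBlocks₂₁ W.toBlocks₂₂ :=
    (Matrix.fromBlocks_toBlocks W).symm
  obtain ⟨B11, h11⟩ : ∃ B, B = W.toBlocks₁₁ := ⟨_, rfl⟩
  obtain ⟨B12, h12⟩ : ∃ B, B = W.toBlocks₁₂ := ⟨_, rfl⟩
  obtain ⟨B21, h21⟩ : ∃ B, B = W.toBlocks₂₁ := ⟨_, rfl⟩
  obtain ⟨B22, h22⟩ : ∃ B, B = W.toBlocks₂₂ := ⟨_, rfl⟩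
  rw [← h11, ← h12, ← h21, ← h22] at hWb
  rw [← h11, ← h12, ← h21, ← h22]
  rw [hWb, Matrix.fromBlocks_multiply, ← Matrix.fromBlocks_one, Matrix.fromBlocks_inj] at h1
  obtain ⟨e11, e12, e21, e22⟩ := h1
  obtain ⟨P, hP⟩ : ∃ P, P = X + c • (1 : Matrix n n ℂ) := ⟨_, rfl⟩
  obtain ⟨P', hP'⟩ : ∃ P, P = X - c • (1 : Matrix n n ℂ) := ⟨_, rfl⟩
  rw [← hP] at e11 e12 h3
  rw [← hP'] at e21 e22 h2
  refine ⟨?_, ?_, ?_, ?_⟩
  · have h6 := congrArg (fun Z => Rᴴ * Z) e12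
    simp only [mul_add, mul_zero, neg_mul, mul_neg] at h6
    rw [← mul_assoc, h3, one_mul, neg_add_eq_zero] at h6
    rw [h6, smul_mul_assoc, mul_smul_comm, mul_assoc]
  · have h6 := congrArg (fun Z => R * Z) e22
    simp only [mul_add, mul_one] at h6
    rw [← mul_assoc R P', h2, one_mul, smul_mul_assoc, mul_smul_comm, ← mul_assoc] at h6
    obtain ⟨Z, hZ⟩ : ∃ Z, Z = (α : ℂ) • (R * Yᴴ * B12) := ⟨_, rfl⟩
    rw [← hZ] at h6 ⊢
    rw [← h6]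
    abel
  · have h6 := congrArg (fun Z => Rᴴ * Z) e11
    simp only [mul_add, mul_one, neg_mul, mul_neg] at h6
    rw [← mul_assoc, h3, one_mul, smul_mul_assoc, mul_smul_comm, ← mul_assoc] at h6
    obtain ⟨Z, hZ⟩ : ∃ Z, Z = (α : ℂ) • (Rᴴ * Y * B21) := ⟨_, rfl⟩
    rw [← hZ] at h6 ⊢
    rw [← h6]
    abel
  · have h6 := congrArg (fun Z => R * Z) e21
    simp only [mul_add, mul_zero] at h6
    rw [← mul_assoc R P', h2, one_mul, smul_mul_assoc, mul_smul_comm, ← mul_assoc] at h6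
    rw [eq_neg_iff_add_eq_zero, add_comm]
    exact h6

/-- bounds on the blocks -/
theorem block_bds (h0 : X0.IsHermitian) (hA : ∀ y, (A y).IsHermitian) (hη : 0 < η) (hα : 0 ≤ α)
    (hY : Opb Y 1) (hY' : Opb Yᴴ 1) (V : m → ℝ) :
    Opb (RR (X2 X0 Y α) (A2 A) η V).toBlocks₁₂ (α / η ^ 2) ∧
    Opb ((RR (X2 X0 Y α) (A2 A) η V).toBlocks₂₂ - RR X0 A η V) (α ^ 2 / η ^ 3) ∧
    Opb ((RR (X2 X0 Y α) (A2 A) η V).toBlocks₁₁ + (RR X0 A η V)ᴴ) (α ^ 2 / η ^ 3) ∧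
    Opb ((RR (X2 X0 Y α) (A2 A) η V).toBlocks₁₂ -
      (α : ℂ) • ((RR X0 A η V)ᴴ * Y * RR X0 A η V)) (α ^ 3 / η ^ 4) := by
  obtain ⟨b12, b22, b11, b21⟩ := block_eqs (Y := Y) (α := α) h0 hA hη V
  have hR := RR_opb h0 hA hη V
  have hRH := RRH_opb h0 hA hη V
  have hW := (RR_opb (X2_herm h0 Y α) (A2_herm hA) hη V).blocks
  obtain ⟨R, hRd⟩ : ∃ R, R = RR X0 A η V := ⟨_, rfl⟩
  obtain ⟨W, hWd⟩ : ∃ W, W = RR (X2 X0 Y α) (A2 A) η V := ⟨_, rfl⟩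
  rw [← hRd, ← hWd] at b12 b22 b11 b21
  rw [← hRd] at hR hRH
  rw [← hWd] at hW
  rw [← hRd, ← hWd]
  have hη' : 0 < η⁻¹ := inv_pos.2 hη
  have c12 : Opb W.toBlocks₁₂ (α / η ^ 2) := by
    rw [b12]
    have h1 := ((hRH.mul hY).mul hW.2.2.2).smul α
    have h2 : α * (η⁻¹ * 1 * η⁻¹) = α / η ^ 2 := by
      field_simp
    rwa [h2] at h1
  have c21 : Opb W.toBlocks₂₁ (α / η ^ 2) := by
    intro w
    rw [b21, Matrix.neg_mulVec, nsq_neg]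
    have h1 := ((hR.mul hY').mul hW.1).smul α
    have h2 : α * (η⁻¹ * 1 * η⁻¹) = α / η ^ 2 := by
      field_simp
    rw [h2] at h1
    exact h1 w
  have c22 : Opb (W.toBlocks₂₂ - R) (α ^ 2 / η ^ 3) := by
    intro w
    rw [b22, Matrix.neg_mulVec, nsq_neg]
    have h1 := ((hR.mul hY').mul c12).smul α
    have h2 : α * (η⁻¹ * 1 * (α / η ^ 2)) = α ^ 2 / η ^ 3 := by
      field_simp
    rw [h2] at h1
    exact h1 w
  refine ⟨c12, c22, ?_, ?_⟩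
  · rw [b11]
    have h1 := ((hRH.mul hY).mul c21).smul α
    have h2 : α * (η⁻¹ * 1 * (α / η ^ 2)) = α ^ 2 / η ^ 3 := by
      field_simp
    rwa [h2] at h1
  · have h1 := ((hRH.mul hY).mul c22).smul α
    have h2 : α * (η⁻¹ * 1 * (α ^ 2 / η ^ 3)) = α ^ 3 / η ^ 4 := by
      field_simp
    rw [h2] at h1
    have h3 : W.toBlocks₁₂ - (α : ℂ) • (Rᴴ * Y * R) =
        (α : ℂ) • (Rᴴ * Y * (W.toBlocks₂₂ - R)) := by
      rw [b12, mul_sub, smul_sub]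
    rw [h3]
    exact h1

end res

end Pool.Agent.TH791.QD
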