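import Pool.Agent.TH791.QD.TorT
import Pool.Agent.TH794.QD.Free3

/-! The step part of the ladder at small frequencies. -/

set_option autoImplicit false
set_option linter.unusedSectionVars false

open scoped BigOperators
open MeasureTheory

namespace Pool.Agent.TH791.QD

open Pool.Agent.W788.BK
open Pool.Agent.W788
open Pool.Agent.W788.MFP.Four
open Pool.Agent.TH794.LL2 (gL)
open Pool.Agent.TH794.QD (mv rv gW gW2 sg rfl' sg_rfl adj_rfl sg_abs mv_im mv_re rv_mono rv_nonneg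
  rv_add rv_mul)

variable {d L : ℕ} [NeZero L]

/-- the propagator -/
noncomputable def GG (z : ℂ) (k : T d L) : ℂ := (((adj k : ℝ) : ℂ) - z)⁻¹

theorem GG_ne {z : ℂ} (hz : 0 < z.im) (k : T d L) : (((adj k : ℝ) : ℂ) - z) ≠ 0 := by
  intro h
  have := congrArg Complex.im h
  simp at this
  linarith

theorem GG_sq {z : ℂ} (k : T d L) :
    ‖GG z k‖ ^ 2 = 1 / ((adj k - z.re) ^ 2 + z.im ^ 2) := by
  unfold GG
  rw [norm_inv, inv_pow, ← Complex.normSq_eq_norm_sq, Complex.normSq_apply, one_div]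
  congr 1
  simp only [Complex.sub_re, Complex.sub_im, Complex.ofReal_re, Complex.ofReal_im]
  ring

theorem GG_im {z : ℂ} (k : T d L) :
    (GG z k).im = z.im * ‖GG z k‖ ^ 2 := by
  rw [GG_sq]
  unfold GG
  rw [Complex.inv_im, Complex.normSq_apply]
  simp only [Complex.sub_re, Complex.sub_im, Complex.ofReal_re, Complex.ofReal_im]
  have : (adj k - z.re) * (adj k - z.re) + (0 - z.im) * (0 - z.im) =
      (adj k - z.re) ^ 2 + z.im ^ 2 := by ring
  rw [this]
  ring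

theorem GG_le {z : ℂ} (hz : 0 < z.im) (k : T d L) : ‖GG z k‖ ≤ z.im⁻¹ := by
  have h1 : ‖GG z k‖ ^ 2 ≤ (z.im⁻¹) ^ 2 := by
    rw [GG_sq, inv_pow, ← one_div]
    apply one_div_le_one_div_of_le (by positivity)
    nlinarith [sq_nonneg (adj k - z.re)]
  exact (sq_le_sq₀ (norm_nonneg _) (by positivity)).1 h1

theorem GG_mean (z : ℂ) :
    z.im * rv (NN d L) (fun k : T d L => ‖GG z k‖ ^ 2) = (gL d L z).im := by
  have h1 : gL d L z = mv (NN d L) (fun k : T d L => GG z k) := rfl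
  rw [h1, mv_im, ← rv_mul]
  congr 1
  funext k
  rw [GG_im]

/-- the fourth power -/
theorem GG_four {z : ℂ} (hz : 0 < z.im) (k : T d L) :
    ‖GG z k‖ ^ 4 = (GG z k).im / (2 * z.im ^ 3) - (GG z k * GG z k).re / (2 * z.im ^ 2) := by
  have hn : 0 < (adj k - z.re) ^ 2 + z.im ^ 2 := by positivity
  have h1 : (GG z k).re = (adj k - z.re) / ((adj k - z.re) ^ 2 + z.im ^ 2) := by
    unfold GG
    rw [Complex.inv_re, Complex.normSq_apply]
    simp only [Complex.sub_re, Complex.sub_im, Complex.ofReal_re, Complex.ofReal_im]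
    congr 1
    ring
  have h2 : ‖GG z k‖ ^ 4 = (‖GG z k‖ ^ 2) ^ 2 := by ring
  rw [Complex.mul_re, h2, GG_im, GG_sq, h1]
  field_simp
  ring

/-- the frequency -/
noncomputable def BB (r : T d L) : ℝ := ∑ i, ‖(ZMod.stdAddChar (r i) : ℂ) - 1‖

theorem BB_nonneg (r : T d L) : 0 ≤ BB r := Finset.sum_nonneg fun i _ => norm_nonneg _

theorem char_norm (x : ZMod L) : ‖(ZMod.stdAddChar x : ℂ)‖ = 1 := by
  rw [ZMod.stdAddChar_apply]
  exact Circle.norm_coe _

theorem adj_diff (k r : T d L) : |adj (k + r) - adj k| ≤ 2 * BB r := by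
  unfold adj BB
  rw [← Finset.sum_sub_distrib, Finset.mul_sum]
  refine (Finset.abs_sum_le_sum_abs _ _).trans (Finset.sum_le_sum fun i _ => ?_)
  have h1 : (ZMod.stdAddChar ((k + r) i) : ℂ) = ZMod.stdAddChar (k i) * ZMod.stdAddChar (r i) := by
    rw [Pi.add_apply, AddChar.map_add_eq_mul]
  rw [h1, ← mul_sub, abs_mul, abs_two]
  apply mul_le_mul_of_nonneg_left _ (by norm_num)
  rw [← Complex.sub_re]
  refine (Complex.abs_re_le_norm _).trans (le_of_eq ?_)
  have h2 : (ZMod.stdAddChar (k i) * ZMod.stdAddChar (r i) : ℂ) - ZMod.stdAddChar (k i) =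
      ZMod.stdAddChar (k i) * (ZMod.stdAddChar (r i) - 1) := by ring
  rw [h2, norm_mul, char_norm, one_mul]

/-- the linear part of the difference -/
noncomputable def dl (k r : T d L) : ℝ := -2 * ∑ i, sg i r * sg i k

theorem adj_diff2 (k r : T d L) : |adj (k + r) - adj k - dl k r| ≤ BB r ^ 2 := by
  have h0 : adj (k + r) - adj k - dl k r = ∑ i, 2 * ((ZMod.stdAddChar (k i) : ℂ).re *
      ((ZMod.stdAddChar (r i) : ℂ).re - 1)) := by
    unfold adj dl sg
    rw [← Finset.sum_sub_distrib, Finset.mul_sum, ← Finset.sum_sub_distrib]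
    refine Finset.sum_congr rfl fun i _ => ?_
    have h1 : (ZMod.stdAddChar ((k + r) i) : ℂ) =
        ZMod.stdAddChar (k i) * ZMod.stdAddChar (r i) := by
      rw [Pi.add_apply, AddChar.map_add_eq_mul]
    rw [h1, Complex.mul_re]
    ring
  have h1 : ∀ i, |2 * ((ZMod.stdAddChar (k i) : ℂ).re * ((ZMod.stdAddChar (r i) : ℂ).re - 1))| ≤
      ‖(ZMod.stdAddChar (r i) : ℂ) - 1‖ ^ 2 := by
    intro i
    have a1 : |(ZMod.stdAddChar (k i) : ℂ).re| ≤ 1 := by
      rw [← char_norm (k i)]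
      exact Complex.abs_re_le_norm _
    have a2 : ‖(ZMod.stdAddChar (r i) : ℂ) - 1‖ ^ 2 =
        2 * (1 - (ZMod.stdAddChar (r i) : ℂ).re) := by
      have a3 : ‖(ZMod.stdAddChar (r i) : ℂ)‖ ^ 2 = 1 := by rw [char_norm, one_pow]
      rw [← Complex.normSq_eq_norm_sq, Complex.normSq_apply] at a3 ⊢
      simp only [Complex.sub_re, Complex.sub_im, Complex.one_re, Complex.one_im]
      linarith
    have a4 : (ZMod.stdAddChar (r i) : ℂ).re ≤ 1 := by
      have := (abs_le.1 (Complex.abs_re_le_norm (ZMod.stdAddChar (r i) : ℂ))).2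
      rwa [char_norm] at this
    rw [a2, abs_mul, abs_two, abs_mul, abs_of_nonpos (by linarith :
      (ZMod.stdAddChar (r i) : ℂ).re - 1 ≤ 0)]
    have a5 : |(ZMod.stdAddChar (k i) : ℂ).re| * -((ZMod.stdAddChar (r i) : ℂ).re - 1) ≤
        1 * -((ZMod.stdAddChar (r i) : ℂ).re - 1) :=
      mul_le_mul_of_nonneg_right a1 (by linarith)
    linarith
  rw [h0]
  refine (Finset.abs_sum_le_sum_abs _ _).trans ((Finset.sum_le_sum fun i _ => h1 i).trans ?_)
  unfold BB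
  exact Finset.sum_sq_le_sq_sum_of_nonneg fun i _ => norm_nonneg _

theorem dl_le (k r : T d L) : |dl k r| ≤ 2 * BB r := by
  unfold dl BB
  rw [abs_mul, abs_neg, abs_two]
  apply mul_le_mul_of_nonneg_left _ (by norm_num)
  refine (Finset.abs_sum_le_sum_abs _ _).trans (Finset.sum_le_sum fun i _ => ?_)
  rw [abs_mul]
  have h1 : |sg i r| ≤ ‖(ZMod.stdAddChar (r i) : ℂ) - 1‖ := by
    have : sg i r = ((ZMod.stdAddChar (r i) : ℂ) - 1).im := by
      unfold sg
      simp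
    rw [this]
    exact Complex.abs_im_le_norm _
  calc |sg i r| * |sg i k| ≤ ‖(ZMod.stdAddChar (r i) : ℂ) - 1‖ * 1 :=
        mul_le_mul h1 (sg_abs i k) (abs_nonneg _) (norm_nonneg _)
    _ = _ := mul_one _

/-- the square of the difference of the propagators -/
theorem GG_diff {z : ℂ} (hz : 0 < z.im) (hz1 : z.im ≤ 1) (k r : T d L) :
    |‖GG z (k + r) - GG z k‖ ^ 2 - dl k r ^ 2 * ‖GG z k‖ ^ 4| ≤
      20 * BB r ^ 3 / z.im ^ 3 * ‖GG z k‖ ^ 2 := by
  obtain ⟨B, hB⟩ : ∃ B, B = BB r := ⟨_, rfl⟩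
  have hB0 : 0 ≤ B := by rw [hB]; exact BB_nonneg r
  obtain ⟨D, hD⟩ : ∃ D, D = adj (k + r) - adj k := ⟨_, rfl⟩
  obtain ⟨l, hl⟩ : ∃ l, l = dl k r := ⟨_, rfl⟩
  have h1 := adj_diff k r
  have h2 := adj_diff2 k r
  have h3 := dl_le k r
  rw [← hD, ← hB] at h1
  rw [← hD, ← hl, ← hB] at h2
  rw [← hl, ← hB] at h3
  obtain ⟨y, hy⟩ : ∃ y, y = z.im⁻¹ := ⟨_, rfl⟩
  have hy1 : 1 ≤ y := by rw [hy, one_le_inv₀ hz]; exact hz1
  obtain ⟨a, ha⟩ : ∃ a, a = ‖GG z k‖ := ⟨_, rfl⟩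
  obtain ⟨a', ha'⟩ : ∃ a', a' = ‖GG z (k + r)‖ := ⟨_, rfl⟩
  have ha0 : 0 ≤ a := by rw [ha]; exact norm_nonneg _
  have ha0' : 0 ≤ a' := by rw [ha']; exact norm_nonneg _
  have hay : a ≤ y := by rw [ha, hy]; exact GG_le hz k
  have hay' : a' ≤ y := by rw [ha', hy]; exact GG_le hz (k + r)
  have e1 : GG z (k + r) - GG z k = -((D : ℂ) * (GG z (k + r) * GG z k)) := by
    unfold GG
    have n1 := GG_ne hz (k + r)
    have n2 := GG_ne hz k
    field_simp
    rw [hD]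
    push_cast
    ring
  have e2 : ‖GG z (k + r) - GG z k‖ ^ 2 = D ^ 2 * a' ^ 2 * a ^ 2 := by
    rw [e1, norm_neg, norm_mul, norm_mul, Complex.norm_real, Real.norm_eq_abs, mul_pow, mul_pow,
      sq_abs, ha, ha']
    ring
  have e3 : |a' - a| ≤ 2 * B * (a' * a) := by
    have e4 : |a' - a| ≤ ‖GG z (k + r) - GG z k‖ := by
      rw [ha, ha']
      exact abs_norm_sub_norm_le _ _
    rw [e1, norm_neg, norm_mul, norm_mul, Complex.norm_real, Real.norm_eq_abs, ← ha, ← ha'] at e4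
    refine e4.trans ?_
    gcongr
  have e5 : ‖GG z (k + r) - GG z k‖ ^ 2 - l ^ 2 * ‖GG z k‖ ^ 4 =
      (D - l) * (D + l) * a' ^ 2 * a ^ 2 + l ^ 2 * ((a' - a) * (a' + a)) * a ^ 2 := by
    rw [e2, ← ha]
    ring
  rw [← hl, e5, ← ha, ← hB]
  have e6 : |(D - l) * (D + l) * a' ^ 2 * a ^ 2| ≤ 4 * B ^ 3 * y ^ 2 * a ^ 2 := by
    rw [abs_mul, abs_mul, abs_mul, abs_of_nonneg (sq_nonneg a'), abs_of_nonneg (sq_nonneg a)]
    have f1 : |D + l| ≤ 4 * B := (abs_add_le D l).trans (by linarith)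
    have f2 : a' ^ 2 ≤ y ^ 2 := pow_le_pow_left₀ ha0' hay' 2
    calc |D - l| * |D + l| * a' ^ 2 * a ^ 2 ≤ B ^ 2 * (4 * B) * y ^ 2 * a ^ 2 := by gcongr
      _ = _ := by ring
  have e7 : |l ^ 2 * ((a' - a) * (a' + a)) * a ^ 2| ≤ 16 * B ^ 3 * y ^ 3 * a ^ 2 := by
    rw [abs_mul, abs_mul, abs_mul, abs_of_nonneg (sq_nonneg a), abs_of_nonneg (sq_nonneg l),
      abs_of_nonneg (by linarith : 0 ≤ a' + a)]
    have f1 : l ^ 2 ≤ (2 * B) ^ 2 := by
      rw [← sq_abs]
      exact pow_le_pow_left₀ (abs_nonneg _) h3 2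
    have f2 : |a' - a| ≤ 2 * B * (y * y) := e3.trans (by gcongr)
    calc l ^ 2 * (|a' - a| * (a' + a)) * a ^ 2 ≤
        (2 * B) ^ 2 * (2 * B * (y * y) * (y + y)) * a ^ 2 := by gcongr
      _ = _ := by ring
  refine (abs_add_le _ _).trans ((add_le_add e6 e7).trans ?_)
  have e8 : 20 * B ^ 3 / z.im ^ 3 * a ^ 2 = 20 * B ^ 3 * y ^ 3 * a ^ 2 := by
    rw [hy, inv_pow]
    ring
  rw [e8]
  have e9 : y ^ 2 ≤ y ^ 3 := by nlinarith [sq_nonneg y]
  have e10 : 4 * B ^ 3 * y ^ 2 * a ^ 2 ≤ 4 * B ^ 3 * y ^ 3 * a ^ 2 := by gcongr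
  linarith

theorem sg_rfl_ne (i j : Fin d) (h : i ≠ j) (k : T d L) : sg i (rfl' j k) = sg i k := by
  unfold sg rfl'
  simp only [Equiv.coe_fn_mk]
  rw [Function.update_of_ne h]

/-- the cross terms vanish -/
theorem cross (s : Fin d → ℝ) (f : T d L → ℝ) (hf : ∀ j k, f (rfl' j k) = f k) :
    rv (NN d L) (fun k => (∑ i, s i * sg i k) ^ 2 * f k) =
      ∑ i, s i ^ 2 * rv (NN d L) (fun k => sg i k ^ 2 * f k) := by
  have h1 : ∀ k : T d L, (∑ i, s i * sg i k) ^ 2 * f k =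
      ∑ i, ∑ j, (s i * s j) * (sg i k * sg j k * f k) := by
    intro k
    rw [sq, Finset.sum_mul_sum, Finset.sum_mul]
    refine Finset.sum_congr rfl fun i _ => ?_
    rw [Finset.sum_mul]
    exact Finset.sum_congr rfl fun j _ => by ring
  unfold rv
  simp only [h1]
  rw [Finset.sum_comm, Finset.mul_sum]
  refine Finset.sum_congr rfl fun i _ => ?_
  rw [Finset.sum_comm, Finset.sum_eq_single i]
  · rw [← Finset.mul_sum]
    have : ∀ k : T d L, sg i k * sg i k * f k = sg i k ^ 2 * f k := fun k => by ring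
    simp only [this]
    ring
  · intro j _ hj
    rw [← Finset.mul_sum]
    have h2 : ∑ k : T d L, sg i k * sg j k * f k = 0 := by
      have h3 : ∑ k : T d L, sg i k * sg j k * f k = -∑ k : T d L, sg i k * sg j k * f k := by
        calc ∑ k : T d L, sg i k * sg j k * f k =
            ∑ k : T d L, sg i (rfl' i k) * sg j (rfl' i k) * f (rfl' i k) :=
              (Equiv.sum_comp (rfl' i) fun k => sg i k * sg j k * f k).symm
          _ = ∑ k : T d L, -(sg i k * sg j k * f k) := by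
              refine Finset.sum_congr rfl fun k _ => ?_
              rw [sg_rfl, sg_rfl_ne j i hj, hf]
              ring
          _ = _ := Finset.sum_neg_distrib _
      linarith
    rw [h2, mul_zero]
  · intro h
    exact absurd (Finset.mem_univ i) h

theorem GG_rfl (z : ℂ) (j : Fin d) (k : T d L) : GG z (rfl' j k) = GG z k := by
  unfold GG
  rw [adj_rfl]

/-- **the step part at small frequencies** -/
theorem Th_small (E s2 : ℝ) (γ : ℂ) (hs2 : 0 ≤ s2) (z : ℂ) (hz : z = (E : ℂ) + (s2 : ℂ) * γ)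
    (hz0 : 0 < z.im) (hz1 : z.im ≤ 1) (r : T d L) :
    |Th E s2 γ r - s2 * ∑ i, sg i r ^ 2 * ((gW (fun k : T d L => sg i k ^ 2) z).im / z.im ^ 3 -
      (gW2 (fun k : T d L => sg i k ^ 2) z).re / z.im ^ 2)| ≤
      10 * s2 * BB r ^ 3 / z.im ^ 4 * (gL d L z).im := by
  have hN := NN_pos (d := d) (L := L)
  have h1 : ∀ k : T d L, (Dg E s2 γ k)⁻¹ = GG z k := by
    intro k
    unfold Dg GG
    congr 1
    rw [hz]
    push_cast
    ring
  have h2 : Th E s2 γ r = s2 / 2 * rv (NN d L) (fun k : T d L => ‖GG z (k + r) - GG z k‖ ^ 2) := by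
    unfold Th rv
    simp only [h1]
  have h3 : rv (NN d L) (fun k : T d L => dl k r ^ 2 * ‖GG z k‖ ^ 4) =
      ∑ i, sg i r ^ 2 * (2 * ((gW (fun k : T d L => sg i k ^ 2) z).im / z.im ^ 3 -
      (gW2 (fun k : T d L => sg i k ^ 2) z).re / z.im ^ 2)) := by
    have e1 : ∀ k : T d L, dl k r ^ 2 * ‖GG z k‖ ^ 4 =
        4 * ((∑ i, sg i r * sg i k) ^ 2 * ‖GG z k‖ ^ 4) := by
      intro k
      unfold dl
      ring
    simp only [e1]
    rw [rv_mul, cross (fun i => sg i r) (fun k => ‖GG z k‖ ^ 4) (fun j k => by rw [GG_rfl]),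
      Finset.mul_sum]
    refine Finset.sum_congr rfl fun i _ => ?_
    have e2 : rv (NN d L) (fun k : T d L => sg i k ^ 2 * ‖GG z k‖ ^ 4) =
        (gW (fun k : T d L => sg i k ^ 2) z).im / (2 * z.im ^ 3) -
        (gW2 (fun k : T d L => sg i k ^ 2) z).re / (2 * z.im ^ 2) := by
      unfold gW gW2
      rw [mv_im, mv_re]
      unfold rv
      rw [mul_div_assoc, mul_div_assoc, ← mul_sub, Finset.sum_div, Finset.sum_div,
        ← Finset.sum_sub_distrib]
      congr 1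
      refine Finset.sum_congr rfl fun k _ => ?_
      have e3 := GG_four hz0 k
      rw [Complex.im_ofReal_mul, Complex.re_ofReal_mul]
      simp only
      rw [e3]
      unfold GG
      ring
    rw [e2]
    field_simp
    ring
  have h4 : s2 * ∑ i, sg i r ^ 2 * ((gW (fun k : T d L => sg i k ^ 2) z).im / z.im ^ 3 -
      (gW2 (fun k : T d L => sg i k ^ 2) z).re / z.im ^ 2) =
      s2 / 2 * rv (NN d L) (fun k : T d L => dl k r ^ 2 * ‖GG z k‖ ^ 4) := by
    rw [h3, Finset.mul_sum, Finset.mul_sum]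
    exact Finset.sum_congr rfl fun i _ => by ring
  rw [h2, h4, ← mul_sub, abs_mul, abs_of_nonneg (by positivity : 0 ≤ s2 / 2)]
  have h5 : |rv (NN d L) (fun k : T d L => ‖GG z (k + r) - GG z k‖ ^ 2) -
      rv (NN d L) (fun k : T d L => dl k r ^ 2 * ‖GG z k‖ ^ 4)| ≤
      rv (NN d L) (fun k : T d L => 20 * BB r ^ 3 / z.im ^ 3 * ‖GG z k‖ ^ 2) := by
    unfold rv
    rw [← mul_sub, ← Finset.sum_sub_distrib, abs_mul, abs_of_pos (inv_pos.2 hN)]
    apply mul_le_mul_of_nonneg_left _ (inv_nonneg.2 hN.le)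
    exact (Finset.abs_sum_le_sum_abs _ _).trans (Finset.sum_le_sum fun k _ =>
      GG_diff hz0 hz1 k r)
  rw [rv_mul] at h5
  have h6 := GG_mean (d := d) (L := L) z
  obtain ⟨m, hm⟩ : ∃ m, m = rv (NN d L) (fun k : T d L => ‖GG z k‖ ^ 2) := ⟨_, rfl⟩
  rw [← hm] at h5 h6
  have h7 : 10 * s2 * BB r ^ 3 / z.im ^ 4 * (gL d L z).im =
      s2 / 2 * (20 * BB r ^ 3 / z.im ^ 3 * m) := by
    rw [← h6]
    field_simp
    ring
  rw [h7]
  exact mul_le_mul_of_nonneg_left h5 (by positivity)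

end Pool.Agent.TH791.QD
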