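import Pool.Agent.TH791.QD.FinQ
import Pool.Agent.TH791.QD.Born

/-! The law of the position in complex form, both signs of the coupling. -/

set_option autoImplicit false
set_option linter.unusedSectionVars false

open scoped BigOperators Topology
open MeasureTheory Filter

namespace Pool.Agent.TH791.QD

open Pool.Agent.W788.LD.Spec (S)
open Pool.Agent.H4R2.LO (Zd)
open Pool.Agent.TH794.LL2

variable {d : ℕ}

/-- the real and the imaginary parts -/
theorem GS.lg {σ E t : ℝ} {V ξ : Zd d → ℝ} {a : Zd d} {u : Zd d → ℂ} {z : ℂ}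
    (hV : ∀ x, V x = σ * ξ x) (hE : z.re = E) (ht : z.im = t) (h : GS d V z a u) :
    LG d σ ξ a E t (fun x => (u x).re) (fun x => (u x).im) := by
  have hn : ∀ x, ‖u x‖ ^ 2 = (u x).re ^ 2 + (u x).im ^ 2 := by
    intro x
    rw [← Complex.normSq_eq_norm_sq, Complex.normSq_apply]
    ring
  refine ⟨?_, ?_, fun x => ?_, fun x => ?_⟩
  · refine Summable.of_nonneg_of_le (fun x => sq_nonneg _) (fun x => ?_) h.ss
    rw [hn x]
    nlinarith [sq_nonneg (u x).im]
  · refine Summable.of_nonneg_of_le (fun x => sq_nonneg _) (fun x => ?_) h.ss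
    rw [hn x]
    nlinarith [sq_nonneg (u x).re]
  · have h1 := congrArg Complex.re (h.eq x)
    have h2 : ((if x = a then (1 : ℂ) else 0)).re = if x = a then 1 else 0 := by
      split_ifs <;> simp
    rw [h2] at h1
    unfold S at h1
    simp only [Complex.sub_re, Complex.add_re, Complex.re_sum, Complex.ofReal_re, Complex.ofReal_im,
      Complex.mul_re, hE, ht] at h1
    rw [← hV]
    linarith
  · have h1 := congrArg Complex.im (h.eq x)
    have h2 : ((if x = a then (1 : ℂ) else 0)).im = 0 := by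
      split_ifs <;> simp
    rw [h2] at h1
    unfold S at h1
    simp only [Complex.sub_im, Complex.add_im, Complex.im_sum, Complex.ofReal_re, Complex.ofReal_im,
      Complex.mul_im, hE, ht] at h1
    rw [← hV]
    linarith

/-- **the law of the position** -/
theorem coreS (d : ℕ) (hd : 3 ≤ d) (A v c : ℝ) (hA : 0 < A) (hv : 0 < v) (hc : 0 < c) :
    ∃ s0 : ℝ, 0 < s0 ∧ ∀ (μ : Measure ℝ), IsProbabilityMeasure μ →
      (∀ r : ℝ, 0 ≤ r → μ.real {s | r < |s|} ≤ A * Real.exp (-r)) →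
      ∀ M V : ℝ, ∫ s, s ∂μ = M → ∫ s, (s - M) ^ 2 ∂μ = V → v ≤ V →
      ∀ σ : ℝ, 0 < |σ| → |σ| ≤ s0 →
      ∃ G : Set (Zd d → ℝ), MeasurableSet G ∧
        1 - Real.exp (-|σ| ^ (-(1 / 150) : ℝ)) ≤
          (Measure.infinitePi fun _ : Zd d => μ).real G ∧
        ∀ ξ ∈ G, ∀ a : Zd d, ‖a‖ ≤ Real.exp (|σ| ^ (-(1 / 150) : ℝ)) →
          ∀ (t : ℝ), t = |σ| ^ (81 / 40 : ℝ) → ∀ (E : ℝ) (γ : ℂ), c ≤ γ.im →
          ∀ w : Zd d → ℂ, GS d (fun _ => 0) (((E - σ * M : ℝ) : ℂ) + (t : ℂ) * Complex.I +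
            ((σ ^ 2 * V : ℝ) : ℂ) * γ) 0 w → w 0 = γ →
          ∀ u : Zd d → ℂ, GS d (fun x => σ * ξ x) ((E : ℂ) + (t : ℂ) * Complex.I) a u →
          ∀ q : Fin d → ℝ,
            ‖(t : ℂ) * ∑' x : Zd d, Complex.exp (Complex.I *
                ((∑ i, q i * ((x i : ℝ) - a i) : ℝ) : ℂ)) * ((‖u x‖ ^ 2 : ℝ) : ℂ) -
              ((t / (σ ^ 2 * V) *
                ((σ ^ 2 * V * ∑' x : Zd d, Real.cos (∑ i, q i * x i) * ‖w x‖ ^ 2) /
                (1 - σ ^ 2 * V * ∑' x : Zd d, Real.cos (∑ i, q i * x i) * ‖w x‖ ^ 2)) : ℝ) : ℂ)‖ ≤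
              |σ| ^ (1 / 100 : ℝ) := by
  obtain ⟨Y0, hY0, h⟩ := coreQ d hd A v c hA hv hc
  refine ⟨Real.exp (-Y0), Real.exp_pos _, ?_⟩
  intro μ hμ htail M V hM hV hvV σ hσ hσ0
  obtain ⟨Y, hY⟩ : ∃ Y, Y = Real.log (1 / |σ|) := ⟨_, rfl⟩
  have hlog : Real.log |σ| = -Y := by
    rw [hY, one_div, Real.log_inv, neg_neg]
  have hYY : Y0 ≤ Y := by
    have h1 := Real.log_le_log hσ hσ0
    rw [Real.log_exp, hlog] at h1
    linarith
  have hrp : ∀ p q : ℝ, q = -p → |σ| ^ p = Real.exp (q * Y) := by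
    intro p q hpq
    rw [Real.rpow_def_of_pos hσ, hlog, hpq]
    congr 1
    ring
  have e1 : |σ| ^ (-(1 / 150) : ℝ) = Real.exp (Y / 150) := by
    rw [Real.rpow_def_of_pos hσ, hlog]
    congr 1
    ring
  have e2 : |σ| ^ (81 / 40 : ℝ) = Real.exp (-(81 / 40) * Y) := hrp _ _ rfl
  have e4 : |σ| ^ (1 / 100 : ℝ) = Real.exp (-(1 / 100) * Y) := hrp _ _ rfl
  have e3 : Real.exp (-Y) = |σ| := by
    rw [← hlog, Real.exp_log hσ]
  have e3' : Real.exp (-Y) ^ 2 = σ ^ 2 := by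
    rw [e3, sq_abs]
  rw [e1, e2, e4]
  -- the step from the real form
  have key : ∀ (M' : ℝ) (ξ' ξ : Zd d → ℝ) (a : Zd d), Real.exp (-Y) * M' = σ * M →
      (∀ x, Real.exp (-Y) * ξ' x = σ * ξ x) →
      (∀ (E : ℝ) (γ : ℂ), c ≤ γ.im → ∀ wr wi : Zd d → ℝ,
          LG d 0 (fun _ => 0) 0 (E - Real.exp (-Y) * M' + Real.exp (-Y) ^ 2 * V * γ.re)
            (Real.exp (-(81 / 40) * Y) + Real.exp (-Y) ^ 2 * V * γ.im) wr wi →
          wr 0 = γ.re → wi 0 = γ.im →
          ∀ ur ui : Zd d → ℝ, LG d (Real.exp (-Y)) ξ' a E (Real.exp (-(81 / 40) * Y)) ur ui →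
          ∀ qq : Fin d → ℝ,
            ‖((Real.exp (-(81 / 40) * Y) : ℝ) : ℂ) *
                ∑' x, ph qq (x - a) * ((ur x ^ 2 + ui x ^ 2 : ℝ) : ℂ) -
              ((Real.exp (-(81 / 40) * Y) / (Real.exp (-Y) ^ 2 * V) *
                ((Real.exp (-Y) ^ 2 * V * ∑' x : Zd d, Real.cos (∑ i, qq i * x i) *
                  (wr x ^ 2 + wi x ^ 2)) /
                (1 - Real.exp (-Y) ^ 2 * V * ∑' x : Zd d, Real.cos (∑ i, qq i * x i) *
                  (wr x ^ 2 + wi x ^ 2))) : ℝ) : ℂ)‖ ≤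
              Real.exp (-(1 / 100) * Y)) →
      ∀ (t : ℝ), t = Real.exp (-(81 / 40) * Y) → ∀ (E : ℝ) (γ : ℂ), c ≤ γ.im →
          ∀ w : Zd d → ℂ, GS d (fun _ => 0) (((E - σ * M : ℝ) : ℂ) + (t : ℂ) * Complex.I +
            ((σ ^ 2 * V : ℝ) : ℂ) * γ) 0 w → w 0 = γ →
          ∀ u : Zd d → ℂ, GS d (fun x => σ * ξ x) ((E : ℂ) + (t : ℂ) * Complex.I) a u →
          ∀ q : Fin d → ℝ,
            ‖(t : ℂ) * ∑' x : Zd d, Complex.exp (Complex.I *
                ((∑ i, q i * ((x i : ℝ) - a i) : ℝ) : ℂ)) * ((‖u x‖ ^ 2 : ℝ) : ℂ) -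
              ((t / (σ ^ 2 * V) *
                ((σ ^ 2 * V * ∑' x : Zd d, Real.cos (∑ i, q i * x i) * ‖w x‖ ^ 2) /
                (1 - σ ^ 2 * V * ∑' x : Zd d, Real.cos (∑ i, q i * x i) * ‖w x‖ ^ 2)) : ℝ) : ℂ)‖ ≤
              Real.exp (-(1 / 100) * Y) := by
    intro M' ξ' ξ a hMM hξξ hbase t ht E γ hγc w hw hw0 u hu q
    rw [← ht, e3'] at hbase
    have hn : ∀ (f : Zd d → ℂ) x, (f x).re ^ 2 + (f x).im ^ 2 = ‖f x‖ ^ 2 := by
      intro f x
      rw [← Complex.normSq_eq_norm_sq, Complex.normSq_apply]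
      ring
    have hw1 : LG d 0 (fun _ => 0) 0 (E - Real.exp (-Y) * M' + σ ^ 2 * V * γ.re)
        (t + σ ^ 2 * V * γ.im) (fun x => (w x).re) (fun x => (w x).im) := by
      apply hw.lg (fun x => by simp)
      · rw [hMM, Complex.add_re, Complex.add_re, Complex.re_ofReal_mul, Complex.ofReal_re,
          Complex.re_ofReal_mul, Complex.I_re]
        ring
      · rw [Complex.add_im, Complex.add_im, Complex.im_ofReal_mul, Complex.ofReal_im,
          Complex.im_ofReal_mul, Complex.I_im]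
        ring
    have hu1 : LG d (Real.exp (-Y)) ξ' a E t (fun x => (u x).re) (fun x => (u x).im) := by
      apply hu.lg (fun x => (hξξ x).symm)
      · simp
      · simp
    have h1 := hbase E γ hγc _ _ hw1 (by simp only [hw0]) (by simp only [hw0]) _ _ hu1
      (fun i => -q i)
    simp only [hn] at h1
    have h2 : ∀ x : Zd d, ph (fun i => -q i) (x - a) = Complex.exp (Complex.I *
        ((∑ i, q i * ((x i : ℝ) - a i) : ℝ) : ℂ)) := by
      intro x
      unfold ph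
      congr 3
      rw [← Finset.sum_neg_distrib]
      refine Finset.sum_congr rfl fun i _ => ?_
      simp only [Pi.sub_apply]
      push_cast
      ring
    have h3 : ∀ x : Zd d, Real.cos (∑ i, -q i * (x i : ℝ)) = Real.cos (∑ i, q i * (x i : ℝ)) := by
      intro x
      rw [← Real.cos_neg, ← Finset.sum_neg_distrib]
      congr 1
      exact Finset.sum_congr rfl fun i _ => by ring
    simp only [h2, h3] at h1
    exact h1
  rcases le_or_gt 0 σ with hs | hs
  · obtain ⟨G, hG, hP, hb⟩ := h Y hYY μ hμ htail M V hM hV hvV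
    refine ⟨G, hG, hP, fun ξ hξ a ha => ?_⟩
    exact key M ξ ξ a (by rw [e3, abs_of_nonneg hs]) (fun x => by rw [e3, abs_of_nonneg hs])
      (hb ξ hξ a ha)
  · have hmn : ∫ s, s ∂(μ.map fun s => -s) = -M := by
      rw [integral_map (by fun_prop) (by fun_prop), integral_neg, hM]
    have hvn : ∫ s, (s - -M) ^ 2 ∂(μ.map fun s => -s) = V := by
      rw [integral_map (by fun_prop) (by fun_prop), ← hV]
      refine integral_congr_ae (Filter.Eventually.of_forall fun s => ?_)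
      simp only
      ring
    have htn : ∀ r : ℝ, 0 ≤ r → (μ.map fun s => -s).real {s | r < |s|} ≤ A * Real.exp (-r) := by
      intro r hr
      rw [map_measureReal_apply (by fun_prop) (measurableSet_lt measurable_const (by fun_prop))]
      have : (fun s : ℝ => -s) ⁻¹' {s | r < |s|} = {s | r < |s|} := by
        ext s
        simp
      rw [this]
      exact htail r hr
    obtain ⟨G, hG, hP, hb⟩ := h Y hYY (μ.map fun s => -s)
      (Measure.isProbabilityMeasure_map (by fun_prop)) htn (-M) V hmn hvn hvV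
    have hTm : Measurable (fun (ω : Zd d → ℝ) x => -ω x) := by fun_prop
    have hlaw : (Measure.infinitePi fun _ : Zd d => μ).map (fun ω x => -ω x) =
        Measure.infinitePi fun _ : Zd d => μ.map fun s => -s :=
      Measure.infinitePi_map_pi (μ := fun _ : Zd d => μ)
        (f := fun _ (s : ℝ) => -s) (fun _ => by fun_prop)
    refine ⟨(fun ω x => -ω x) ⁻¹' G, hTm hG, ?_, fun ξ hξ a ha => ?_⟩
    · rw [← hlaw, map_measureReal_apply hTm hG] at hP
      exact hP
    · exact key (-M) (fun x => -ξ x) ξ a (by rw [e3, abs_of_neg hs]; ring)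
        (fun x => by rw [e3, abs_of_neg hs]; ring) (hb _ hξ a ha)

end Pool.Agent.TH791.QD
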