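import Pool.Agent.TH791.QD.Wt

/-! The quadratic functional on the lattice: deterministic part. -/

set_option autoImplicit false
set_option linter.unusedSectionVars false

open scoped BigOperators Topology
open MeasureTheory Filter

namespace Pool.Agent.TH791.QD

open Pool.Agent.W788.BK
open Pool.Agent.W788
open Pool.Agent.W788.MFP.Four Pool.Agent.W788.MFP.Cut Pool.Agent.W788.MFP.Site
open Pool.Agent.H4R2.LO (Zd)
open Pool.Agent.H695R3.AN (lf lf_inj lf_add lf_sub)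
open Pool.Agent.TH794.LL2 Pool.Agent.TH794.FG

variable {d L : ℕ} [NeZero L]

/-- the weighted sum of a Green function -/
theorem W1 {σ : ℝ} {ξ : Zd d → ℝ} {E t : ℝ} {ur ui : Zd d → ℝ} (ℓ : ℝ) (hℓ0 : 0 < ℓ)
    (hL : 4 * ℓ + 4 < L) (ht : 0 < t) (h : LG d σ ξ 0 E t ur ui) (qq : Fin d → ℝ) :
    ‖∑' x, ph qq x * ((ur x ^ 2 + ui x ^ 2 : ℝ) : ℂ) -
      ∑ y : T d L, (starRingEnd ℂ) (e (nf L qq) y) *
        ((φ ℓ (lf y) ^ 2 * (ur (lf y) ^ 2 + ui (lf y) ^ 2) : ℝ) : ℂ)‖ ≤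
      2 * d / ℓ * t⁻¹ ^ 3 + 2 * Real.pi * ℓ * d / L * t⁻¹ ^ 2 := by
  obtain ⟨rr, ri, -, -, hBv, hm⟩ := LG_tor3 (L := L) ℓ hℓ0 hL ht h
  have hS : Summable fun x => ur x ^ 2 + ui x ^ 2 := h.sr.add h.si
  have h1 := cutsum (L := L) ℓ (2 * Real.pi * ℓ * d / L) hℓ0 hL (fun x => ur x ^ 2 + ui x ^ 2)
    (fun x => by positivity) hS (ph qq) (fun x => (norm_ph qq x).le)
    (fun y => (starRingEnd ℂ) (e (nf L qq) y)) (fun y hy => ph_near qq ℓ hℓ0.le y hy)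
  refine h1.trans (add_le_add ?_ ?_)
  · have e1 := mul_le_mul_of_nonneg_left hm (inv_nonneg.2 ht.le)
    rw [← mul_assoc, inv_mul_cancel₀ ht.ne', one_mul] at e1
    refine e1.trans (le_of_eq ?_)
    ring
  · apply mul_le_mul_of_nonneg_left _ (by positivity)
    have e1 : Bq (fun y : T d L => φ ℓ (lf y) * ur (lf y)) (fun y => φ ℓ (lf y) * ui (lf y)) ≤
        t⁻¹ ^ 2 := by
      rwa [Real.sqrt_le_left (by positivity)] at hBv
    refine le_trans (le_of_eq ?_) e1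
    unfold Bq
    rw [← Finset.sum_add_distrib]
    exact Finset.sum_congr rfl fun y _ => by ring

/-- the free Green function on the torus is the free resolvent up to the error -/
theorem free_fc {E t : ℝ} (ht : 0 < t) {V vr vi rr ri : T d L → ℝ} (hV : ∀ x, V x = 0)
    (h : Sol2 E t V vr vi rr ri) (k : T d L) :
    t ≤ ‖((adj k : ℝ) : ℂ) - ((E : ℂ) + ((t : ℝ) : ℂ) * Complex.I)‖ ∧
    fc vr vi k =
      (((adj k : ℝ) : ℂ) - ((E : ℂ) + ((t : ℝ) : ℂ) * Complex.I))⁻¹ +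
      (((adj k : ℝ) : ℂ) - ((E : ℂ) + ((t : ℝ) : ℂ) * Complex.I))⁻¹ * fc rr ri k := by
  have h2 : t ≤ ‖((adj k : ℝ) : ℂ) - ((E : ℂ) + ((t : ℝ) : ℂ) * Complex.I)‖ := by
    have h3 := Complex.abs_im_le_norm (((adj k : ℝ) : ℂ) - ((E : ℂ) + ((t : ℝ) : ℂ) * Complex.I))
    have h4 : (((adj k : ℝ) : ℂ) - ((E : ℂ) + ((t : ℝ) : ℂ) * Complex.I)).im = -t := by simp
    rw [h4, abs_neg, abs_of_pos ht] at h3
    exact h3
  refine ⟨h2, ?_⟩
  have hz : ((adj k : ℝ) : ℂ) - ((E : ℂ) + ((t : ℝ) : ℂ) * Complex.I) ≠ 0 := by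
    intro h0
    rw [h0, norm_zero] at h2
    linarith
  have hfc0 : fc (fun x => V x * vr x) (fun x => V x * vi x) k = 0 := by
    unfold fc ft
    simp [hV]
  have e1 := fc_eq h k
  rw [hfc0, add_zero] at e1
  have e2 : (((adj k : ℝ) : ℂ) - ((E : ℂ) + ((t : ℝ) : ℂ) * Complex.I)) * fc vr vi k =
      1 + fc rr ri k := by
    push_cast at e1
    linear_combination e1
  have e3 : fc vr vi k = (((adj k : ℝ) : ℂ) - ((E : ℂ) + ((t : ℝ) : ℂ) * Complex.I))⁻¹ *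
      ((((adj k : ℝ) : ℂ) - ((E : ℂ) + ((t : ℝ) : ℂ) * Complex.I)) * fc vr vi k) := by
    rw [← mul_assoc, inv_mul_cancel₀ hz, one_mul]
  rw [e3, e2]
  ring

/-- the step part of the ladder, on the torus -/
theorem Th_tor (E s2 : ℝ) (γ : ℂ) (hs2 : 0 < s2) (hν : 0 < s2 * γ.im)
    {V vr vi rr ri : T d L → ℝ} (hV : ∀ x, V x = 0)
    (h : Sol2 (E + s2 * γ.re) (s2 * γ.im) V vr vi rr ri) (ρ : ℝ)
    (hρ : Real.sqrt (Bq rr ri) ≤ ρ) (hB : Real.sqrt (Bq vr vi) ≤ (s2 * γ.im)⁻¹) (r : T d L) :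
    |s2 * (∑ y, (vr y ^ 2 + vi y ^ 2) -
      (∑ y, (starRingEnd ℂ) (e r y) * ((vr y ^ 2 + vi y ^ 2 : ℝ) : ℂ)).re) - Th E s2 γ r| ≤
      s2 * (4 * ρ * (s2 * γ.im)⁻¹ ^ 2) := by
  have hN := NN_pos (d := d) (L := L)
  have hsN : 0 < Real.sqrt (NN d L) := Real.sqrt_pos.2 hN
  have hNc : ((NN d L : ℝ) : ℂ) ≠ 0 := by exact_mod_cast hN.ne'
  obtain ⟨t, ht⟩ : ∃ t, t = s2 * γ.im := ⟨_, rfl⟩
  rw [← ht] at hν hB h ⊢
  obtain ⟨G, hG⟩ : ∃ G : T d L → ℂ, G = fun k => (Dg E s2 γ k)⁻¹ := ⟨_, rfl⟩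
  have hDk : ∀ k : T d L, Dg E s2 γ k = ((adj k : ℝ) : ℂ) -
      (((E + s2 * γ.re : ℝ) : ℂ) + ((t : ℝ) : ℂ) * Complex.I) := by
    intro k
    unfold Dg
    rw [ht]
    have : γ = (γ.re : ℂ) + (γ.im : ℂ) * Complex.I := (Complex.re_add_im γ).symm
    nth_rewrite 1 [this]
    push_cast
    ring
  have hfc : ∀ k : T d L, fc vr vi k = G k + G k * fc rr ri k := by
    intro k
    rw [hG]
    simp only
    rw [hDk k]
    exact (free_fc hν hV h k).2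
  have hGn : ∀ k : T d L, ‖G k‖ ≤ t⁻¹ := by
    intro k
    rw [hG]
    simp only
    rw [hDk k, norm_inv]
    exact inv_anti₀ hν (free_fc hν hV h k).1
  obtain ⟨a, ha⟩ : ∃ a : T d L → ℂ, a = fun k => fc vr vi (k + r) - fc vr vi k := ⟨_, rfl⟩
  obtain ⟨b, hb⟩ : ∃ b : T d L → ℂ, b = fun k => G (k + r) - G k := ⟨_, rfl⟩
  have hshift : ∀ f : T d L → ℂ, nn (fun k => f (k + r)) = nn f := by
    intro f
    unfold nn nsq
    congr 1
    exact Equiv.sum_comp (Equiv.addRight r) fun k => ‖f k‖ ^ 2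
  have hnfc : ∀ f g : T d L → ℝ, nn (fun k => fc f g k) = Real.sqrt (NN d L) *
      Real.sqrt (Bq f g) := by
    intro f g
    unfold nn nsq
    rw [sum_fc_one, Real.sqrt_mul hN.le]
  have hρ0 : 0 ≤ ρ := (Real.sqrt_nonneg _).trans hρ
  have hti : 0 < t⁻¹ := inv_pos.2 hν
  have na : nn a ≤ 2 * (Real.sqrt (NN d L) * t⁻¹) := by
    have e1 := nn_sub (fun k => fc vr vi (k + r)) (fun k => fc vr vi k)
    have e2 : ((fun k => fc vr vi (k + r)) - (fun k => fc vr vi k)) = a := by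
      rw [ha]
      rfl
    rw [e2, hshift (fun k => fc vr vi k), hnfc] at e1
    have e3 : Real.sqrt (NN d L) * Real.sqrt (Bq vr vi) ≤ Real.sqrt (NN d L) * t⁻¹ := by gcongr
    linarith
  have nG : nn G ≤ Real.sqrt (NN d L) * t⁻¹ := by
    apply nn_le _ _ (by positivity)
    unfold nsq
    rw [mul_pow, Real.sq_sqrt hN.le]
    refine (Finset.sum_le_sum fun k _ => pow_le_pow_left₀ (norm_nonneg _) (hGn k) 2).trans ?_
    rw [Finset.sum_const, Finset.card_univ, nsmul_eq_mul, Pool.Agent.W788.MFP.Four.card_T]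
  have nb : nn b ≤ 2 * (Real.sqrt (NN d L) * t⁻¹) := by
    have e1 := nn_sub (fun k => G (k + r)) G
    have e2 : ((fun k => G (k + r)) - G) = b := by
      rw [hb]
      rfl
    rw [e2, hshift G] at e1
    linarith
  have nab : nn (a - b) ≤ 2 * (t⁻¹ * (Real.sqrt (NN d L) * ρ)) := by
    have e1 := nn_sub (fun k => G (k + r) * fc rr ri (k + r)) (fun k => G k * fc rr ri k)
    have e2 : ((fun k => G (k + r) * fc rr ri (k + r)) - (fun k => G k * fc rr ri k)) = a - b := by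
      funext k
      rw [Pi.sub_apply, Pi.sub_apply, ha, hb]
      simp only
      rw [hfc (k + r), hfc k]
      ring
    rw [e2, hshift (fun k => G k * fc rr ri k)] at e1
    have e3 : nn (fun k => G k * fc rr ri k) ≤ t⁻¹ * (Real.sqrt (NN d L) * ρ) := by
      apply nn_le _ _ (by positivity)
      unfold nsq
      have e4 : ∀ k : T d L, ‖G k * fc rr ri k‖ ^ 2 ≤ t⁻¹ ^ 2 * ‖fc rr ri k‖ ^ 2 := by
        intro k
        rw [norm_mul, mul_pow]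
        have := hGn k
        gcongr
      refine (Finset.sum_le_sum fun k _ => e4 k).trans ?_
      rw [← Finset.mul_sum, sum_fc_one, mul_pow, mul_pow, Real.sq_sqrt hN.le]
      have e5 : Bq rr ri ≤ ρ ^ 2 := by
        rwa [Real.sqrt_le_left hρ0] at hρ
      gcongr
    linarith
  have hdiff : |nn a ^ 2 - nn b ^ 2| ≤ 8 * NN d L * ρ * t⁻¹ ^ 2 := by
    have e1 : |nn a - nn b| ≤ nn (a - b) := by
      rw [abs_sub_le_iff]
      constructor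
      · have := nn_add (a - b) b
        rw [sub_add_cancel] at this
        linarith
      · have := nn_sub a (a - b)
        rw [sub_sub_cancel] at this
        linarith
    have e2 : nn a ^ 2 - nn b ^ 2 = (nn a - nn b) * (nn a + nn b) := by ring
    have p1 : 0 ≤ nn a := nn_nonneg _
    have p2 : 0 ≤ nn b := nn_nonneg _
    rw [e2, abs_mul, abs_of_nonneg (by linarith : 0 ≤ nn a + nn b)]
    calc |nn a - nn b| * (nn a + nn b) ≤ (2 * (t⁻¹ * (Real.sqrt (NN d L) * ρ))) *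
          (2 * (Real.sqrt (NN d L) * t⁻¹) + 2 * (Real.sqrt (NN d L) * t⁻¹)) := by
          apply mul_le_mul (e1.trans nab) (add_le_add na nb) (by linarith) (by positivity)
      _ = 8 * (Real.sqrt (NN d L) * Real.sqrt (NN d L)) * ρ * t⁻¹ ^ 2 := by ring
      _ = _ := by rw [Real.mul_self_sqrt hN.le]
  -- Parseval
  have hP := fc_pair vr vi r
  have hcor := corr_eq (Equiv.addRight r) (fun k : T d L => fc vr vi k)
  simp only [Equiv.coe_addRight] at hcor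
  rw [hP, Complex.re_ofReal_mul] at hcor
  have hsum : ∑ k : T d L, ‖fc vr vi k‖ ^ 2 = NN d L * ∑ y, (vr y ^ 2 + vi y ^ 2) := by
    rw [sum_fc_one]
    unfold Bq
    rw [Finset.sum_add_distrib]
  rw [hsum] at hcor
  have ha2 : ∑ k : T d L, ‖fc vr vi (k + r) - fc vr vi k‖ ^ 2 = nn a ^ 2 := by
    rw [nn_sq, ha]
    rfl
  rw [ha2] at hcor
  have hb2 : Th E s2 γ r = s2 / 2 * ((NN d L)⁻¹ * nn b ^ 2) := by
    rw [nn_sq, hb, hG]
    rfl
  obtain ⟨X1, hX1⟩ : ∃ X1, X1 = ∑ y, (vr y ^ 2 + vi y ^ 2) := ⟨_, rfl⟩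
  obtain ⟨X2, hX2⟩ : ∃ X2, X2 = (∑ y, (starRingEnd ℂ) (e r y) *
    ((vr y ^ 2 + vi y ^ 2 : ℝ) : ℂ)).re := ⟨_, rfl⟩
  rw [← hX1, ← hX2] at hcor ⊢
  have hX : X1 - X2 = (NN d L)⁻¹ * nn a ^ 2 / 2 := by
    field_simp
    linarith
  rw [hX, hb2]
  have e1 : s2 * ((NN d L)⁻¹ * nn a ^ 2 / 2) - s2 / 2 * ((NN d L)⁻¹ * nn b ^ 2) =
      s2 * ((NN d L)⁻¹ / 2 * (nn a ^ 2 - nn b ^ 2)) := by ring
  rw [e1, abs_mul, abs_of_pos hs2]
  apply mul_le_mul_of_nonneg_left _ hs2.le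
  rw [abs_mul, abs_of_pos (by positivity : 0 < (NN d L)⁻¹ / 2)]
  calc (NN d L)⁻¹ / 2 * |nn a ^ 2 - nn b ^ 2| ≤ (NN d L)⁻¹ / 2 * (8 * NN d L * ρ * t⁻¹ ^ 2) := by
        gcongr
    _ = _ := by
        field_simp
        ring

/-- the step part of the ladder, on the lattice -/
theorem Th_lat (E s2 : ℝ) (γ : ℂ) (hs2 : 0 < s2) (hν : 0 < s2 * γ.im) (ℓ : ℝ) (hℓ0 : 0 < ℓ)
    (hL : 4 * ℓ + 4 < L) (wr wi : Zd d → ℝ)
    (h : LG d 0 (fun _ => 0) 0 (E + s2 * γ.re) (s2 * γ.im) wr wi) (qq : Fin d → ℝ) :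
    |s2 * ∑' x, (1 - Real.cos (∑ i, qq i * x i)) * (wr x ^ 2 + wi x ^ 2) -
      Th E s2 γ (nf L qq)| ≤
      s2 * (12 * d / ℓ * (s2 * γ.im)⁻¹ ^ 3 +
        2 * Real.pi * ℓ * d / L * (s2 * γ.im)⁻¹ ^ 2) := by
  obtain ⟨rr, ri, hsol, hBr, hBv, hm⟩ := LG_tor3 (L := L) ℓ hℓ0 hL hν h
  have hw1 := W1 (L := L) ℓ hℓ0 hL hν h qq
  have hT := Th_tor E s2 γ hs2 hν (fun x => by simp) hsol _ hBr hBv (nf L qq)
  have hpm : ∀ y : T d L, (φ ℓ (lf y) * wr (lf y)) ^ 2 + (φ ℓ (lf y) * wi (lf y)) ^ 2 =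
      φ ℓ (lf y) ^ 2 * (wr (lf y) ^ 2 + wi (lf y) ^ 2) := fun y => by ring
  simp only [hpm] at hT
  have hS : Summable fun x => wr x ^ 2 + wi x ^ 2 := h.sr.add h.si
  obtain ⟨t, ht⟩ : ∃ t, t = s2 * γ.im := ⟨_, rfl⟩
  rw [← ht] at hν hm hT hw1 ⊢
  obtain ⟨S0, hS0⟩ : ∃ S0, S0 = ∑' x, (wr x ^ 2 + wi x ^ 2) := ⟨_, rfl⟩
  obtain ⟨S1, hS1⟩ : ∃ S1, S1 = ∑ y : T d L, φ ℓ (lf y) ^ 2 * (wr (lf y) ^ 2 + wi (lf y) ^ 2) :=
    ⟨_, rfl⟩
  obtain ⟨P0, hP0⟩ : ∃ P0, P0 = ∑' x, ph qq x * ((wr x ^ 2 + wi x ^ 2 : ℝ) : ℂ) := ⟨_, rfl⟩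
  obtain ⟨P1, hP1⟩ : ∃ P1, P1 = ∑ y : T d L, (starRingEnd ℂ) (e (nf L qq) y) *
        ((φ ℓ (lf y) ^ 2 * (wr (lf y) ^ 2 + wi (lf y) ^ 2) : ℝ) : ℂ) := ⟨_, rfl⟩
  rw [← hS0, ← hS1] at hm
  rw [← hS1, ← hP1] at hT
  rw [← hP0, ← hP1] at hw1
  have hsumW : Summable fun x => ph qq x * ((wr x ^ 2 + wi x ^ 2 : ℝ) : ℂ) := by
    refine Summable.of_norm_bounded (g := fun x => wr x ^ 2 + wi x ^ 2) hS fun x => ?_
    rw [norm_mul, Complex.norm_real, norm_ph, one_mul, Real.norm_of_nonneg (by positivity)]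
  have hre : P0.re = ∑' x, Real.cos (∑ i, qq i * x i) * (wr x ^ 2 + wi x ^ 2) := by
    rw [hP0, Complex.re_tsum hsumW]
    refine tsum_congr fun x => ?_
    rw [Complex.re_mul_ofReal, ph_re]
  have hsumC : Summable fun x : Zd d => Real.cos (∑ i, qq i * x i) * (wr x ^ 2 + wi x ^ 2) := by
    have := hsumW.hasSum.mapL Complex.reCLM
    refine this.summable.congr fun x => ?_
    simp only [Complex.reCLM_apply]
    rw [Complex.re_mul_ofReal, ph_re]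
  have hmain : ∑' x : Zd d, (1 - Real.cos (∑ i, qq i * x i)) * (wr x ^ 2 + wi x ^ 2) =
      S0 - P0.re := by
    rw [hre, hS0, ← hS.tsum_sub hsumC]
    exact tsum_congr fun x => by ring
  rw [hmain]
  have h1 : |P0.re - P1.re| ≤ 2 * d / ℓ * t⁻¹ ^ 3 + 2 * Real.pi * ℓ * d / L * t⁻¹ ^ 2 := by
    rw [← Complex.sub_re]
    exact (Complex.abs_re_le_norm _).trans hw1
  have h2 : |S0 - S1| ≤ 2 * d / ℓ * t⁻¹ ^ 3 := by
    have e0 : S1 ≤ S0 := by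
      rw [hS0, hS1]
      refine le_trans (Finset.sum_le_sum fun y _ => ?_)
        (sum_lf (L := L) (fun x => wr x ^ 2 + wi x ^ 2) (fun x => by positivity) hS)
      exact mul_le_of_le_one_left (by positivity) (pow_le_one₀ (φ_nonneg _ _) (φ_le_one _ _))
    rw [abs_of_nonneg (by linarith)]
    have e1 := mul_le_mul_of_nonneg_left hm (inv_nonneg.2 hν.le)
    rw [← mul_assoc, inv_mul_cancel₀ hν.ne', one_mul] at e1
    refine e1.trans (le_of_eq ?_)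
    ring
  have h3 : s2 * (S0 - P0.re) - Th E s2 γ (nf L qq) = s2 * ((S0 - S1) - (P0.re - P1.re)) +
      (s2 * (S1 - P1.re) - Th E s2 γ (nf L qq)) := by ring
  rw [h3]
  refine (abs_add_le _ _).trans ?_
  rw [abs_mul, abs_of_pos hs2]
  have h4 := abs_sub (S0 - S1) (P0.re - P1.re)
  have h5 : s2 * |(S0 - S1) - (P0.re - P1.re)| ≤ s2 * (2 * d / ℓ * t⁻¹ ^ 3 +
      (2 * d / ℓ * t⁻¹ ^ 3 + 2 * Real.pi * ℓ * d / L * t⁻¹ ^ 2)) :=
    mul_le_mul_of_nonneg_left (by linarith) hs2.le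
  refine (add_le_add h5 hT).trans (le_of_eq ?_)
  ring

end Pool.Agent.TH791.QD
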