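import Pool.Agent.TH791.QD.Dif1
import Pool.Agent.TH791.QD.LatQ
import Pool.Agent.TH791.QD.FinS
import Pool.Agent.TH794.QD.Prof

/-! The step part of the ladder at small frequencies, on the lattice. -/

set_option autoImplicit false
set_option linter.unusedSectionVars false

open scoped BigOperators Topology
open MeasureTheory Filter

namespace Pool.Agent.TH791.QD

open Pool.Agent.W788.BK
open Pool.Agent.W788
open Pool.Agent.W788.MFP.Four
open Pool.Agent.H4R2.LO (Zd)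
open Pool.Agent.TH794.LL2 Pool.Agent.TH794.FG
open Pool.Agent.TH794.QD (mv rv gW gW2 sg rfl' GF F0 CH CH_nonneg hol0 hol1 fin0 fin1 GF_im
  gW2_le lim_le sg_sq_le)

variable {d : ℕ}

/-- the free Green function -/
theorem GF_free (hO : S_OSC) (hd : 3 ≤ d) (w : Zd d → ℂ) (z : ℂ) (hz : 0 < z.im) (hz1 : z.im ≤ 1)
    (h : GS d (fun _ => 0) z 0 w) : w 0 = GF (F0 d) z := by
  have hlg : LG d 0 (fun _ => 0) 0 z.re z.im (fun x => (w x).re) (fun x => (w x).im) :=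
    h.lg (fun x => by simp) rfl rfl
  have key : ‖w 0 - GF (F0 d) z‖ ≤ 0 := by
    apply lim_le _ _ (30 * d / z.im ^ 2)
    intro n
    have : NeZero (9 * (n + 1) ^ 2) := ⟨by positivity⟩
    have hL : 4 * ((n : ℝ) + 1) + 4 < ((9 * (n + 1) ^ 2 : ℕ) : ℝ) := by
      push_cast
      have : (0 : ℝ) ≤ n := Nat.cast_nonneg n
      nlinarith
    have h1 := freeC2 (d := d) (L := 9 * (n + 1) ^ 2) ((n : ℝ) + 1) z.im hz (by positivity) hL z.re
      _ _ hlg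
    have h2 := fin0 (L := 9 * (n + 1) ^ 2) hO d hd z.im hz hz1 z le_rfl
    have e1 : (((w 0).re : ℝ) : ℂ) + Complex.I * (((w 0).im : ℝ) : ℂ) = w 0 := by
      rw [mul_comm]
      exact Complex.re_add_im _
    have e2 : ((z.re : ℂ) + ((z.im : ℝ) : ℂ) * Complex.I) = z := Complex.re_add_im z
    simp only [e1, e2] at h1
    have e3 : w 0 - GF (F0 d) z = (w 0 - gL d (9 * (n + 1) ^ 2) z) +
        (gL d (9 * (n + 1) ^ 2) z - GF (F0 d) z) := by ring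
    rw [e3, zero_add]
    refine (norm_add_le _ _).trans ((add_le_add h1 h2).trans ?_)
    have hn : (0 : ℝ) < n + 1 := by positivity
    have e4 : 28 * (d : ℝ) / ((9 * (n + 1) ^ 2 : ℕ) : ℝ) / z.im ^ 2 ≤ 28 * d / (n + 1) / z.im ^ 2 := by
      apply div_le_div_of_nonneg_right _ (by positivity)
      apply div_le_div_of_nonneg_left (by positivity) hn
      push_cast
      nlinarith
    refine (add_le_add le_rfl e4).trans (le_of_eq ?_)
    field_simp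
    ring
  have := norm_le_zero_iff.1 key
  linear_combination this

/-- the frequency of the torus -/
noncomputable def rho (L : ℕ) (q : ℝ) : ℝ :=
  2 * Real.pi * (round (q * L / (2 * Real.pi)) : ℤ) / L

theorem nf_char {L : ℕ} [NeZero L] (q : Fin d → ℝ) (i : Fin d) :
    (ZMod.stdAddChar (nf L q i) : ℂ) = Complex.exp (Complex.I * ((rho L (q i) : ℝ) : ℂ)) := by
  unfold nf rho
  rw [ZMod.stdAddChar_coe]
  congr 1
  push_cast
  ring

theorem rho_near {L : ℕ} [NeZero L] (q : ℝ) : |rho L q - q| ≤ Real.pi / L := by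
  have hL : (0 : ℝ) < L := by exact_mod_cast Nat.pos_of_ne_zero (NeZero.ne L)
  have e1 := abs_sub_round (q * L / (2 * Real.pi))
  have hpi := Real.pi_pos
  have e2 : rho L q - q = -(2 * Real.pi / L * (q * L / (2 * Real.pi) -
      (round (q * L / (2 * Real.pi)) : ℤ))) := by
    unfold rho
    field_simp
    ring
  rw [e2, abs_neg, abs_mul, abs_of_pos (by positivity : (0 : ℝ) < 2 * Real.pi / L)]
  calc 2 * Real.pi / L * |q * L / (2 * Real.pi) - (round (q * L / (2 * Real.pi)) : ℤ)| ≤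
      2 * Real.pi / L * (1 / 2) := by gcongr
    _ = _ := by ring

theorem sg_nf {L : ℕ} [NeZero L] (q : Fin d → ℝ) (i : Fin d) :
    sg i (nf L q) = Real.sin (rho L (q i)) := by
  unfold sg
  rw [nf_char, mul_comm, Complex.exp_ofReal_mul_I_im]

theorem BB_nf {L : ℕ} [NeZero L] (q : Fin d → ℝ) : BB (nf L q) ≤ ∑ i, |rho L (q i)| := by
  unfold BB
  refine Finset.sum_le_sum fun i _ => ?_
  rw [nf_char]
  exact Real.norm_exp_I_mul_ofReal_sub_one_le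

/-- the error -/
noncomputable def Er (d : ℕ) (s2 τ η g0 g1 : ℝ) (q : Fin d → ℝ) (X : ℝ × ℝ × (Fin d → ℝ)) : ℝ :=
  X.1 + s2 * (∑ i, Real.sin (X.2.2 i) ^ 2) / η ^ 3 *
    (X.2.1 + ((CH d * (τ * η) ^ (1 / 8 : ℝ) + 2 * X.2.1) / τ + τ * (g0 + X.2.1))) +
  10 * s2 * (∑ i, |X.2.2 i|) ^ 3 / η ^ 4 * (g0 + X.2.1) +
  |∑ i, Real.sin (X.2.2 i) ^ 2 - ∑ i, q i ^ 2| * (s2 * g1 / η ^ 3)

theorem Er_cont (s2 τ η g0 g1 : ℝ) (q : Fin d → ℝ) : Continuous (Er d s2 τ η g0 g1 q) := by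
  unfold Er
  fun_prop

/-- at finite volume -/
theorem S_fin {L : ℕ} [NeZero L] (hO : S_OSC) (hd : 3 ≤ d) (s2 τ : ℝ) (hs2 : 0 < s2) (hτ : 0 < τ)
    (z : ℂ) (hz : 0 < z.im) (hz1 : z.im ≤ 1) (w : Zd d → ℂ) (h : GS d (fun _ => 0) z 0 w)
    (q : Fin d → ℝ) (ℓ : ℝ) (hℓ0 : 0 < ℓ) (hL : 4 * ℓ + 4 < L) :
    |s2 * ∑' x : Zd d, (1 - Real.cos (∑ i, q i * x i)) * ‖w x‖ ^ 2 -
      (∑ i, q i ^ 2) * (s2 * (GF (Pool.Agent.TH794.QD.F1 d) z).im / z.im ^ 3)| ≤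
      Er d s2 τ z.im (GF (F0 d) z).im (GF (Pool.Agent.TH794.QD.F1 d) z).im q
        (s2 * (12 * d / ℓ * z.im⁻¹ ^ 3 + 2 * Real.pi * ℓ * d / L * z.im⁻¹ ^ 2),
          28 * d / L / z.im ^ 2, fun i => rho L (q i)) := by
  have hn : ∀ x, (w x).re ^ 2 + (w x).im ^ 2 = ‖w x‖ ^ 2 := by
    intro x
    rw [← Complex.normSq_eq_norm_sq, Complex.normSq_apply]
    ring
  obtain ⟨η, hη⟩ : ∃ η, η = z.im := ⟨_, rfl⟩
  obtain ⟨γ, hγ⟩ : ∃ γ : ℂ, γ = ((s2 : ℝ) : ℂ)⁻¹ * z := ⟨_, rfl⟩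
  have hsγ : (s2 : ℂ) * γ = z := by
    rw [hγ, ← mul_assoc, mul_inv_cancel₀ (by exact_mod_cast hs2.ne'), one_mul]
  have hγr : s2 * γ.re = z.re := by
    rw [← hsγ, Complex.re_ofReal_mul]
  have hγi : s2 * γ.im = z.im := by
    rw [← hsγ, Complex.im_ofReal_mul]
  have hlg : LG d 0 (fun _ => 0) 0 (0 + s2 * γ.re) (s2 * γ.im) (fun x => (w x).re)
      (fun x => (w x).im) := h.lg (fun x => by simp) (by rw [hγr, zero_add]) hγi.symm
  have h1 := Th_lat (L := L) 0 s2 γ hs2 (by rw [hγi]; exact hz) ℓ hℓ0 hL _ _ hlg q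
  simp only [hn] at h1
  rw [hγi] at h1
  have h2 := Th_small (L := L) 0 s2 γ hs2.le z (by rw [Complex.ofReal_zero, zero_add, hsγ]) hz hz1
    (nf L q)
  obtain ⟨δ, hδ⟩ : ∃ δ, δ = 28 * (d : ℝ) / L / z.im ^ 2 := ⟨_, rfl⟩
  have hδ0 : 0 ≤ δ := by rw [hδ]; positivity
  have f0 := fin0 (L := L) hO d hd z.im hz hz1 z le_rfl
  have f1 := fun i => fin1 (L := L) hO d hd i z.im hz hz1 z le_rfl
  obtain ⟨z', hz'⟩ : ∃ z' : ℂ, z' = z + ((τ * z.im : ℝ) : ℂ) * Complex.I := ⟨_, rfl⟩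
  have hz'i : z'.im = z.im + τ * z.im := by
    rw [hz']
    simp
  have hτz : 0 < τ * z.im := by positivity
  have f1' := fun i => fin1 (L := L) hO d hd i z.im hz hz1 z' (by rw [hz'i]; linarith)
  rw [← hδ] at f0 ⊢
  simp only [← hδ] at f1 f1'
  have hg := GF_im hO d hd z hz.le
  obtain ⟨g0, hg0⟩ : ∃ g0, g0 = (GF (F0 d) z).im := ⟨_, rfl⟩
  obtain ⟨g1, hg1⟩ : ∃ g1, g1 = (GF (Pool.Agent.TH794.QD.F1 d) z).im := ⟨_, rfl⟩
  rw [← hg0, ← hg1] at hg ⊢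
  have hg00 : 0 ≤ g0 := hg.1.trans hg.2
  have hgL : (gL d L z).im ≤ g0 + δ := by
    have e1 := (Complex.abs_im_le_norm _).trans f0
    rw [Complex.sub_im, ← hg0] at e1
    have := (abs_le.1 e1).2
    linarith
  have hW : ∀ i : Fin d, |(gW (fun k : T d L => sg i k ^ 2) z).im - g1| ≤ δ := by
    intro i
    have e1 := (Complex.abs_im_le_norm _).trans (f1 i)
    rwa [Complex.sub_im, ← hg1] at e1
  have hW2 : ∀ i : Fin d, z.im * ‖gW2 (fun k : T d L => sg i k ^ 2) z‖ ≤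
      (CH d * (τ * z.im) ^ (1 / 8 : ℝ) + 2 * δ) / τ + τ * (g0 + δ) := by
    intro i
    have e1 := gW2_le (fun k : T d L => sg i k ^ 2) (fun k => by
      rw [abs_of_nonneg (sq_nonneg _)]
      exact sg_sq_le i k) z hz τ hτ
    rw [← hz'] at e1
    have e2 : ‖gW (fun k : T d L => sg i k ^ 2) z' - gW (fun k : T d L => sg i k ^ 2) z‖ ≤
        CH d * (τ * z.im) ^ (1 / 8 : ℝ) + 2 * δ := by
      have a1 := f1 i
      have a2 := f1' i
      have a3 := hol1 hO d hd z' z (by rw [hz'i]; linarith) hz.le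
      have a4 : ‖z' - z‖ = τ * z.im := by
        rw [hz', add_sub_cancel_left, norm_mul, Complex.norm_I, mul_one, Complex.norm_real,
          Real.norm_of_nonneg hτz.le]
      rw [a4] at a3
      have a5 : gW (fun k : T d L => sg i k ^ 2) z' - gW (fun k : T d L => sg i k ^ 2) z =
          (gW (fun k : T d L => sg i k ^ 2) z' - GF (Pool.Agent.TH794.QD.F1 d) z') + (GF (Pool.Agent.TH794.QD.F1 d) z' - GF (Pool.Agent.TH794.QD.F1 d) z) -
          (gW (fun k : T d L => sg i k ^ 2) z - GF (Pool.Agent.TH794.QD.F1 d) z) := by ring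
      rw [a5]
      refine (norm_sub_le _ _).trans ?_
      have a6 := norm_add_le (gW (fun k : T d L => sg i k ^ 2) z' - GF (Pool.Agent.TH794.QD.F1 d) z')
        (GF (Pool.Agent.TH794.QD.F1 d) z' - GF (Pool.Agent.TH794.QD.F1 d) z)
      linarith
    calc z.im * ‖gW2 (fun k : T d L => sg i k ^ 2) z‖ ≤
        z.im * (‖gW (fun k : T d L => sg i k ^ 2) z' - gW (fun k : T d L => sg i k ^ 2) z‖ /
          (τ * z.im) + τ * ((gL d L z).im / z.im)) := by gcongr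
      _ ≤ z.im * ((CH d * (τ * z.im) ^ (1 / 8 : ℝ) + 2 * δ) /
          (τ * z.im) + τ * ((g0 + δ) / z.im)) := by gcongr
      _ = _ := by
          field_simp
  have hT : |s2 * ∑ i, sg i (nf L q) ^ 2 * ((gW (fun k : T d L => sg i k ^ 2) z).im / z.im ^ 3 -
      (gW2 (fun k : T d L => sg i k ^ 2) z).re / z.im ^ 2) -
      (∑ i, sg i (nf L q) ^ 2) * (s2 * g1 / z.im ^ 3)| ≤
      s2 * (∑ i, sg i (nf L q) ^ 2) / z.im ^ 3 *
        (δ + ((CH d * (τ * z.im) ^ (1 / 8 : ℝ) + 2 * δ) / τ + τ * (g0 + δ))) := by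
    have e1 : s2 * ∑ i, sg i (nf L q) ^ 2 * ((gW (fun k : T d L => sg i k ^ 2) z).im / z.im ^ 3 -
      (gW2 (fun k : T d L => sg i k ^ 2) z).re / z.im ^ 2) -
      (∑ i, sg i (nf L q) ^ 2) * (s2 * g1 / z.im ^ 3) =
      ∑ i, sg i (nf L q) ^ 2 * (s2 / z.im ^ 3) *
        (((gW (fun k : T d L => sg i k ^ 2) z).im - g1) -
          z.im * (gW2 (fun k : T d L => sg i k ^ 2) z).re) := by
      rw [Finset.mul_sum, Finset.sum_mul, ← Finset.sum_sub_distrib]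
      refine Finset.sum_congr rfl fun i _ => ?_
      field_simp
      ring
    have e2 : s2 * (∑ i, sg i (nf L q) ^ 2) / z.im ^ 3 *
        (δ + ((CH d * (τ * z.im) ^ (1 / 8 : ℝ) + 2 * δ) / τ + τ * (g0 + δ))) =
        ∑ i, sg i (nf L q) ^ 2 * (s2 / z.im ^ 3) *
          (δ + ((CH d * (τ * z.im) ^ (1 / 8 : ℝ) + 2 * δ) / τ + τ * (g0 + δ))) := by
      rw [← Finset.sum_mul, ← Finset.sum_mul]
      ring
    rw [e1, e2]
    refine (Finset.abs_sum_le_sum_abs _ _).trans (Finset.sum_le_sum fun i _ => ?_)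
    rw [abs_mul, abs_of_nonneg (by positivity : 0 ≤ sg i (nf L q) ^ 2 * (s2 / z.im ^ 3))]
    apply mul_le_mul_of_nonneg_left _ (by positivity)
    refine (abs_sub _ _).trans (add_le_add (hW i) ?_)
    rw [abs_mul, abs_of_pos hz]
    exact (mul_le_mul_of_nonneg_left (Complex.abs_re_le_norm _) hz.le).trans (hW2 i)
  unfold Er
  simp only
  simp only [sg_nf] at h2 hT
  have hBB := BB_nf (L := L) q
  have hBB0 := BB_nonneg (nf L q)
  have h3 : 10 * s2 * BB (nf L q) ^ 3 / z.im ^ 4 * (gL d L z).im ≤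
      10 * s2 * (∑ i, |rho L (q i)|) ^ 3 / z.im ^ 4 * (g0 + δ) := by
    have : 0 ≤ ∑ i, |rho L (q i)| := Finset.sum_nonneg fun i _ => abs_nonneg _
    calc 10 * s2 * BB (nf L q) ^ 3 / z.im ^ 4 * (gL d L z).im ≤
        10 * s2 * BB (nf L q) ^ 3 / z.im ^ 4 * (g0 + δ) := by gcongr
      _ ≤ _ := by gcongr
  obtain ⟨A, hA⟩ : ∃ A, A = s2 * ∑' x : Zd d, (1 - Real.cos (∑ i, q i * x i)) * ‖w x‖ ^ 2 :=
    ⟨_, rfl⟩
  rw [← hA] at h1 ⊢
  obtain ⟨Tt, hTt⟩ : ∃ Tt, Tt = Th (L := L) 0 s2 γ (nf L q) := ⟨_, rfl⟩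
  rw [← hTt] at h1 h2
  obtain ⟨Tm, hTm⟩ : ∃ Tm, Tm = s2 * ∑ i, Real.sin (rho L (q i)) ^ 2 *
      ((gW (fun k : T d L => sg i k ^ 2) z).im / z.im ^ 3 -
      (gW2 (fun k : T d L => sg i k ^ 2) z).re / z.im ^ 2) := ⟨_, rfl⟩
  rw [← hTm] at h2 hT
  have h4 : |(∑ i, Real.sin (rho L (q i)) ^ 2) * (s2 * g1 / z.im ^ 3) -
      (∑ i, q i ^ 2) * (s2 * g1 / z.im ^ 3)| =
      |∑ i, Real.sin (rho L (q i)) ^ 2 - ∑ i, q i ^ 2| * (s2 * g1 / z.im ^ 3) := by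
    have hg10 := hg.1
    rw [← sub_mul, abs_mul, abs_of_nonneg (by positivity : 0 ≤ s2 * g1 / z.im ^ 3)]
  have a1 := abs_le.1 h1
  have a2 := abs_le.1 h2
  have a3 := abs_le.1 hT
  have a4 := abs_le.1 h4.le
  rw [abs_le]
  constructor
  · linarith [a1.1, a2.1, a3.1, a4.1]
  · linarith [a1.2, a2.2, a3.2, a4.2]

/-- **the step part of the ladder at small frequencies, on the lattice** -/
theorem S_lat (hO : S_OSC) (hd : 3 ≤ d) (s2 τ : ℝ) (hs2 : 0 < s2) (hτ : 0 < τ)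
    (z : ℂ) (hz : 0 < z.im) (hz1 : z.im ≤ 1) (w : Zd d → ℂ) (h : GS d (fun _ => 0) z 0 w)
    (q : Fin d → ℝ) :
    |s2 * ∑' x : Zd d, (1 - Real.cos (∑ i, q i * x i)) * ‖w x‖ ^ 2 -
      (∑ i, q i ^ 2) * (s2 * (GF (Pool.Agent.TH794.QD.F1 d) z).im / z.im ^ 3)| ≤
      Er d s2 τ z.im (GF (F0 d) z).im (GF (Pool.Agent.TH794.QD.F1 d) z).im q (0, 0, q) := by
  obtain ⟨X, hX⟩ : ∃ X : ℕ → ℝ × ℝ × (Fin d → ℝ), X = fun n : ℕ =>
      (s2 * (12 * d / ((n : ℝ) + 1) * z.im⁻¹ ^ 3 +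
        2 * Real.pi * ((n : ℝ) + 1) * d / ((9 * (n + 1) ^ 2 : ℕ) : ℝ) * z.im⁻¹ ^ 2),
      28 * (d : ℝ) / ((9 * (n + 1) ^ 2 : ℕ) : ℝ) / z.im ^ 2,
      fun i => rho (9 * (n + 1) ^ 2) (q i)) := ⟨_, rfl⟩
  have ht0 : Tendsto (fun n : ℕ => ((n : ℝ) + 1)⁻¹) atTop (𝓝 0) := by
    have := tendsto_one_div_add_atTop_nhds_zero_nat (𝕜 := ℝ)
    simpa only [one_div] using this
  have ht1 : Tendsto (fun n : ℕ => (((9 * (n + 1) ^ 2 : ℕ) : ℝ))⁻¹) atTop (𝓝 0) := by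
    refine squeeze_zero (fun n => by positivity) (fun n => ?_) ht0
    apply inv_anti₀ (by positivity)
    push_cast
    have : (0 : ℝ) ≤ n := Nat.cast_nonneg n
    nlinarith
  have hXl : Tendsto X atTop (𝓝 (0, 0, q)) := by
    rw [hX]
    refine Tendsto.prodMk_nhds ?_ (Tendsto.prodMk_nhds ?_ ?_)
    · have e1 : ∀ n : ℕ, s2 * (12 * d / ((n : ℝ) + 1) * z.im⁻¹ ^ 3 +
          2 * Real.pi * ((n : ℝ) + 1) * d / ((9 * (n + 1) ^ 2 : ℕ) : ℝ) * z.im⁻¹ ^ 2) =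
          (s2 * (12 * d * z.im⁻¹ ^ 3 + 2 * Real.pi * d / 9 * z.im⁻¹ ^ 2)) * ((n : ℝ) + 1)⁻¹ := by
        intro n
        push_cast
        field_simp
      simp only [e1]
      have := ht0.const_mul (s2 * (12 * d * z.im⁻¹ ^ 3 + 2 * Real.pi * d / 9 * z.im⁻¹ ^ 2))
      rwa [mul_zero] at this
    · have e1 : ∀ n : ℕ, 28 * (d : ℝ) / ((9 * (n + 1) ^ 2 : ℕ) : ℝ) / z.im ^ 2 =
          (28 * (d : ℝ) / z.im ^ 2) * (((9 * (n + 1) ^ 2 : ℕ) : ℝ))⁻¹ := by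
        intro n
        ring
      simp only [e1]
      have := ht1.const_mul (28 * (d : ℝ) / z.im ^ 2)
      rwa [mul_zero] at this
    · rw [tendsto_pi_nhds]
      intro i
      rw [tendsto_iff_norm_sub_tendsto_zero]
      have e1 : Tendsto (fun n : ℕ => Real.pi * (((9 * (n + 1) ^ 2 : ℕ) : ℝ))⁻¹) atTop (𝓝 0) := by
        have := ht1.const_mul Real.pi
        rwa [mul_zero] at this
      refine squeeze_zero (fun n => norm_nonneg _) (fun n => ?_) e1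
      have : NeZero (9 * (n + 1) ^ 2) := ⟨by positivity⟩
      rw [Real.norm_eq_abs, ← div_eq_mul_inv]
      exact rho_near (q i)
  refine ge_of_tendsto' (((Er_cont s2 τ z.im (GF (F0 d) z).im (GF (Pool.Agent.TH794.QD.F1 d) z).im q).tendsto
    (0, 0, q)).comp hXl) fun n => ?_
  have : NeZero (9 * (n + 1) ^ 2) := ⟨by positivity⟩
  have hL : 4 * ((n : ℝ) + 1) + 4 < ((9 * (n + 1) ^ 2 : ℕ) : ℝ) := by
    push_cast
    have : (0 : ℝ) ≤ n := Nat.cast_nonneg n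
    nlinarith
  simp only [Function.comp_apply, hX]
  exact S_fin (L := 9 * (n + 1) ^ 2) hO hd s2 τ hs2 hτ z hz hz1 w h q ((n : ℝ) + 1) (by positivity)
    hL

end Pool.Agent.TH791.QD
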