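import Pool.Agent.TH791.QD.Dif2

/-! The limit of the profile. -/

set_option autoImplicit false
set_option linter.unusedSectionVars false

open scoped BigOperators Topology
open MeasureTheory Filter

namespace Pool.Agent.TH791.QD

open Pool.Agent.W788.BK
open Pool.Agent.H4R2.LO (Zd)
open Pool.Agent.TH794.QD (GF F0 CH CH_nonneg GF_im)

variable {d : ℕ}

theorem sin_sq_near (x : ℝ) (hx : |x| ≤ 1) : |Real.sin x ^ 2 - x ^ 2| ≤ (x ^ 2) ^ 2 := by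
  have h1 := Real.sin_bound hx
  have h0 := abs_nonneg x
  have h2 : |Real.sin x - x| ≤ |x| ^ 3 / 2 := by
    have e1 : Real.sin x - x = (Real.sin x - (x - x ^ 3 / 6)) - x ^ 3 / 6 := by ring
    rw [e1]
    refine (abs_sub _ _).trans ?_
    rw [abs_div, abs_pow, abs_of_pos (by norm_num : (0 : ℝ) < 6)]
    have e2 : |x| ^ 5 ≤ |x| ^ 3 := pow_le_pow_of_le_one h0 hx (by norm_num)
    have e3 : 0 ≤ |x| ^ 3 := by positivity
    linarith
  have h3 : |Real.sin x + x| ≤ 2 * |x| := by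
    refine (abs_add_le _ _).trans ?_
    have : |Real.sin x| ≤ |x| := Real.abs_sin_le_abs
    linarith
  have e1 : Real.sin x ^ 2 - x ^ 2 = (Real.sin x - x) * (Real.sin x + x) := by ring
  have e2 : (x ^ 2) ^ 2 = |x| ^ 3 / 2 * (2 * |x|) := by
    have : (x ^ 2) ^ 2 = (|x| ^ 2) ^ 2 := by rw [sq_abs]
    rw [this]
    ring
  rw [e1, abs_mul, e2]
  exact mul_le_mul h2 h3 (abs_nonneg _) (by positivity)

theorem frac_lip (m n A : ℝ) (hm : 0 < m) (hn : 0 < n) (hA : 0 ≤ A) :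
    |m / (1 + A / m ^ 2) - n / (1 + A / n ^ 2)| ≤ 3 / 2 * |m - n| := by
  have e1 : m / (1 + A / m ^ 2) - n / (1 + A / n ^ 2) =
      (m - n) * ((m ^ 2 * n ^ 2 + A * (m ^ 2 + m * n + n ^ 2)) / ((m ^ 2 + A) * (n ^ 2 + A))) := by
    field_simp
    ring
  have h1 : 0 < (m ^ 2 + A) * (n ^ 2 + A) := by positivity
  have h2 : (m ^ 2 * n ^ 2 + A * (m ^ 2 + m * n + n ^ 2)) / ((m ^ 2 + A) * (n ^ 2 + A)) ≤ 3 / 2 := by
    rw [div_le_iff₀ h1]
    nlinarith [mul_nonneg hA (sq_nonneg (m - n)), sq_nonneg (m * n), sq_nonneg A]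
  rw [e1, abs_mul, abs_of_nonneg (by positivity : 0 ≤ (m ^ 2 * n ^ 2 +
    A * (m ^ 2 + m * n + n ^ 2)) / ((m ^ 2 + A) * (n ^ 2 + A))), mul_comm]
  exact mul_le_mul_of_nonneg_right h2 (abs_nonneg _)

theorem frac_lip2 (n a b K : ℝ) (hn : 0 < n) (ha : 0 ≤ a) (hb : 0 ≤ b) (hK : 0 ≤ K) :
    |n / (1 + K * a / n ^ 2) - n / (1 + K * b / n ^ 2)| ≤ K * |a - b| / n := by
  have e1 : n / (1 + K * a / n ^ 2) - n / (1 + K * b / n ^ 2) =
      (K * (b - a) / n) * (1 / ((1 + K * a / n ^ 2) * (1 + K * b / n ^ 2))) := by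
    field_simp
    ring
  have h1 : 1 ≤ 1 + K * a / n ^ 2 := by
    have : 0 ≤ K * a / n ^ 2 := by positivity
    linarith
  have h2 : 1 ≤ 1 + K * b / n ^ 2 := by
    have : 0 ≤ K * b / n ^ 2 := by positivity
    linarith
  have h3 : 1 ≤ (1 + K * a / n ^ 2) * (1 + K * b / n ^ 2) := by nlinarith
  have h4 : 1 / ((1 + K * a / n ^ 2) * (1 + K * b / n ^ 2)) ≤ 1 := by
    rw [div_le_one (by linarith)]
    exact h3
  rw [e1, abs_mul, abs_div, abs_mul, abs_of_nonneg hK, abs_of_pos hn, abs_sub_comm b a,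
    abs_of_nonneg (by positivity : 0 ≤ 1 / ((1 + K * a / n ^ 2) * (1 + K * b / n ^ 2)))]
  exact mul_le_of_le_one_right (by positivity) h4

/-- **the profile at small frequencies** -/
theorem prof_lim (hO : S_OSC) (hd : 3 ≤ d) (s2 t y τ c' E : ℝ) (κ : Fin d → ℝ) (z γ : ℂ)
    (w : Zd d → ℂ) (hs2 : 0 < s2) (hy : 0 < y) (ht : t = y ^ 2 * s2) (hτ : 0 < τ) (hc' : 0 < c')
    (hz : z.im = t + s2 * γ.im) (hz1 : z.im ≤ 1) (h : GS d (fun _ => 0) z 0 w) (hw0 : w 0 = γ)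
    (hc : c' ≤ γ.im) (hE : 0 < (GF (F0 d) (E : ℂ)).im) (hq : ∀ i, |κ i * (y * s2)| ≤ 1)
    (R1 : ℝ) (hR1 : R1 = 2 * ((∑ i, κ i ^ 2) * (CH d * (τ * z.im) ^ (1 / 8 : ℝ)) / (τ * c') +
      (∑ i, κ i ^ 2) * τ + 10 * y * (∑ i, |κ i|) ^ 3 / c' + y ^ 2 * s2 ^ 2 * (∑ i, κ i ^ 2) ^ 2))
    (hR2 : R1 ≤ c') :
    |t / s2 * ((s2 * ∑' x : Zd d, Real.cos (∑ i, κ i * (y * s2) * x i) * ‖w x‖ ^ 2) /
        (1 - s2 * ∑' x : Zd d, Real.cos (∑ i, κ i * (y * s2) * x i) * ‖w x‖ ^ 2)) -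
      (GF (F0 d) (E : ℂ)).im / (1 + (∑ i, κ i ^ 2) * (GF (Pool.Agent.TH794.QD.F1 d) (E : ℂ)).im /
        (GF (F0 d) (E : ℂ)).im ^ 2)| ≤
      y ^ 2 + R1 + 3 / 2 * (y ^ 2 + |(GF (F0 d) z).im - (GF (F0 d) (E : ℂ)).im|) +
        (∑ i, κ i ^ 2) * |(GF (Pool.Agent.TH794.QD.F1 d) z).im -
          (GF (Pool.Agent.TH794.QD.F1 d) (E : ℂ)).im| / (GF (F0 d) (E : ℂ)).im := by
  have ht0 : 0 < t := by rw [ht]; positivity
  have hγ0 : 0 < γ.im := by linarith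
  have hη0 : 0 < z.im := by rw [hz]; positivity
  have hg := GF_im hO d hd z hη0.le
  have hgE := GF_im hO d hd (E : ℂ) (by simp)
  have hfree := GF_free hO hd w z hη0 hz1 h
  rw [hw0] at hfree
  have hward := h.ward
  rw [hw0] at hward
  obtain ⟨η, hη⟩ : ∃ η, η = z.im := ⟨_, rfl⟩
  obtain ⟨g0, hg0⟩ : ∃ g0, g0 = (GF (F0 d) z).im := ⟨_, rfl⟩
  obtain ⟨g1, hg1⟩ : ∃ g1, g1 = (GF (Pool.Agent.TH794.QD.F1 d) z).im := ⟨_, rfl⟩
  obtain ⟨n, hn⟩ : ∃ n, n = (GF (F0 d) (E : ℂ)).im := ⟨_, rfl⟩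
  obtain ⟨g1', hg1'⟩ : ∃ g1', g1' = (GF (Pool.Agent.TH794.QD.F1 d) (E : ℂ)).im := ⟨_, rfl⟩
  obtain ⟨K, hK⟩ : ∃ K, K = ∑ i, κ i ^ 2 := ⟨_, rfl⟩
  obtain ⟨B, hB⟩ : ∃ B, B = ∑ i, |κ i| := ⟨_, rfl⟩
  have hK0 : 0 ≤ K := by rw [hK]; exact Finset.sum_nonneg fun i _ => sq_nonneg _
  have hB0 : 0 ≤ B := by rw [hB]; exact Finset.sum_nonneg fun i _ => abs_nonneg _
  have hγg : γ.im = g0 := by rw [hg0, hfree]
  have hS := S_lat hO hd s2 τ hs2 hτ z hη0 hz1 w h (fun i => κ i * (y * s2))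
  unfold Er at hS
  simp only [zero_add, mul_zero, add_zero] at hS
  rw [← hη] at hz hz1 hη0 hS hR1 hward
  rw [← hg0] at hg hS ⊢
  rw [← hg1] at hg hS ⊢
  rw [← hn] at hE hgE ⊢
  rw [← hg1'] at hgE ⊢
  rw [← hK] at hR1 ⊢
  rw [← hB] at hR1
  obtain ⟨m, hm⟩ : ∃ m, m = y ^ 2 + g0 := ⟨_, rfl⟩
  have hηm : η = m * s2 := by
    rw [hz, hm, ht, hγg]
    ring
  have hg00 : 0 < g0 := by rw [← hγg]; exact hγ0
  have hm0 : 0 < m := by rw [hm]; positivity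
  have hgm : g0 ≤ m := by
    rw [hm]
    have : 0 ≤ y ^ 2 := sq_nonneg y
    linarith
  have hcm : c' ≤ m := by
    rw [hγg] at hc
    linarith
  -- the sums
  have e1 : ∑ i, (κ i * (y * s2)) ^ 2 = K * (y * s2) ^ 2 := by
    rw [hK, Finset.sum_mul]
    exact Finset.sum_congr rfl fun i _ => by ring
  have e2 : ∑ i, |κ i * (y * s2)| = B * (y * s2) := by
    rw [hB, Finset.sum_mul]
    refine Finset.sum_congr rfl fun i _ => ?_
    rw [abs_mul, abs_of_pos (by positivity : 0 < y * s2)]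
  have e3 : ∑ i, Real.sin (κ i * (y * s2)) ^ 2 ≤ K * (y * s2) ^ 2 := by
    rw [← e1]
    refine Finset.sum_le_sum fun i _ => ?_
    exact Real.sin_sq_le_sq
  have e4 : |∑ i, Real.sin (κ i * (y * s2)) ^ 2 - ∑ i, (κ i * (y * s2)) ^ 2| ≤
      (K * (y * s2) ^ 2) ^ 2 := by
    rw [← Finset.sum_sub_distrib]
    refine (Finset.abs_sum_le_sum_abs _ _).trans
      ((Finset.sum_le_sum fun i _ => sin_sq_near _ (hq i)).trans ?_)
    rw [← e1]
    exact Finset.sum_sq_le_sq_sum_of_nonneg fun i _ => sq_nonneg _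
  obtain ⟨C, hC⟩ : ∃ C, C = CH d * (τ * η) ^ (1 / 8 : ℝ) := ⟨_, rfl⟩
  have hC0 : 0 ≤ C := by
    rw [hC]
    have := CH_nonneg d
    positivity
  rw [← hC] at hS hR1
  rw [e2, e1] at hS
  rw [e1] at e4
  obtain ⟨S, hSd⟩ : ∃ S, S = ∑' x : Zd d, (1 - Real.cos (∑ i, κ i * (y * s2) * x i)) *
    ‖w x‖ ^ 2 := ⟨_, rfl⟩
  rw [← hSd] at hS
  have hS0 : 0 ≤ S := by
    rw [hSd]
    refine tsum_nonneg fun x => mul_nonneg ?_ (sq_nonneg _)
    have := Real.cos_le_one (∑ i, κ i * (y * s2) * (x i : ℝ))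
    linarith
  obtain ⟨e', he'⟩ : ∃ e', e' = (η / t) * (s2 * S - K * (y * s2) ^ 2 * (s2 * g1 / η ^ 3)) :=
    ⟨_, rfl⟩
  have hg10 := hg.1
  have hbd : m * |e'| ≤ R1 / 2 := by
    have a1 : s2 * (∑ i, Real.sin (κ i * (y * s2)) ^ 2) / η ^ 3 * (C / τ + τ * g0) +
        10 * s2 * (B * (y * s2)) ^ 3 / η ^ 4 * g0 +
        |∑ i, Real.sin (κ i * (y * s2)) ^ 2 - K * (y * s2) ^ 2| * (s2 * g1 / η ^ 3) ≤
        s2 * (K * (y * s2) ^ 2) / η ^ 3 * (C / τ + τ * g0) +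
        10 * s2 * (B * (y * s2)) ^ 3 / η ^ 4 * g0 +
        (K * (y * s2) ^ 2) ^ 2 * (s2 * g1 / η ^ 3) := by
      gcongr
    have a2 := hS.trans a1
    rw [he', abs_mul, abs_of_pos (by positivity : 0 < η / t)]
    have a3 : m * (η / t * |s2 * S - K * (y * s2) ^ 2 * (s2 * g1 / η ^ 3)|) ≤
        m * (η / t * (s2 * (K * (y * s2) ^ 2) / η ^ 3 * (C / τ + τ * g0) +
        10 * s2 * (B * (y * s2)) ^ 3 / η ^ 4 * g0 +
        (K * (y * s2) ^ 2) ^ 2 * (s2 * g1 / η ^ 3))) := by gcongr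
    refine a3.trans ?_
    have a4 : m * (η / t * (s2 * (K * (y * s2) ^ 2) / η ^ 3 * (C / τ + τ * g0) +
        10 * s2 * (B * (y * s2)) ^ 3 / η ^ 4 * g0 +
        (K * (y * s2) ^ 2) ^ 2 * (s2 * g1 / η ^ 3))) =
        K * C / (τ * m) + K * τ * (g0 / m) + 10 * y * B ^ 3 / m * (g0 / m) +
        y ^ 2 * s2 ^ 2 * K ^ 2 * (g1 / m) := by
      rw [ht, hηm]
      field_simp
    rw [a4, hR1]
    have b1 : g0 / m ≤ 1 := div_le_one_of_le₀ hgm hm0.le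
    have b2 : g1 / m ≤ 1 := div_le_one_of_le₀ (hg.2.trans hgm) hm0.le
    have b3 : K * C / (τ * m) ≤ K * C / (τ * c') := by gcongr
    have b4 : K * τ * (g0 / m) ≤ K * τ := mul_le_of_le_one_right (by positivity) b1
    have b5 : 10 * y * B ^ 3 / m * (g0 / m) ≤ 10 * y * B ^ 3 / c' := by
      calc 10 * y * B ^ 3 / m * (g0 / m) ≤ 10 * y * B ^ 3 / m :=
            mul_le_of_le_one_right (by positivity) b1
        _ ≤ _ := by gcongr
    have b6 : y ^ 2 * s2 ^ 2 * K ^ 2 * (g1 / m) ≤ y ^ 2 * s2 ^ 2 * K ^ 2 :=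
      mul_le_of_le_one_right (by positivity) b2
    linarith
  have hmR : |e'| ≤ 1 / 2 := by
    have : c' * |e'| ≤ c' * (1 / 2) := by
      calc c' * |e'| ≤ m * |e'| := by gcongr
        _ ≤ _ := by linarith
    exact le_of_mul_le_mul_left this hc'
  obtain ⟨D, hD⟩ : ∃ D, D = 1 + K * g1 / m ^ 2 := ⟨_, rfl⟩
  have hD1 : 1 ≤ D := by
    rw [hD]
    have : 0 ≤ K * g1 / m ^ 2 := by positivity
    linarith
  have hDe : 0 < D + e' := by
    have := (abs_le.1 hmR).1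
    linarith
  have hmain : (t / s2) / (t / η + s2 * S) = m / (D + e') := by
    have a1 : t / η + s2 * S = t / η * (D + e') := by
      rw [he', hD, ht, hηm]
      field_simp
      ring
    rw [a1, hηm]
    field_simp
  -- the profile
  have hCS : ∑' x : Zd d, Real.cos (∑ i, κ i * (y * s2) * x i) * ‖w x‖ ^ 2 =
      ∑' x, ‖w x‖ ^ 2 - S := by
    have hsumC : Summable fun x : Zd d => Real.cos (∑ i, κ i * (y * s2) * x i) * ‖w x‖ ^ 2 := by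
      refine Summable.of_norm_bounded (g := fun x => ‖w x‖ ^ 2) h.ss fun x => ?_
      rw [norm_mul, Real.norm_of_nonneg (sq_nonneg ‖w x‖), Real.norm_eq_abs]
      exact mul_le_of_le_one_left (sq_nonneg _) (Real.abs_cos_le_one _)
    have a1 : S = ∑' x, ‖w x‖ ^ 2 -
        ∑' x : Zd d, Real.cos (∑ i, κ i * (y * s2) * x i) * ‖w x‖ ^ 2 := by
      rw [hSd, ← h.ss.tsum_sub hsumC]
      exact tsum_congr fun x => by ring
    linarith
  rw [hCS]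
  have hpe := prof_eq t η s2 S (s2 * (∑' x, ‖w x‖ ^ 2 - S)) γ.im (∑' x, ‖w x‖ ^ 2) ht0 hη0 hs2
    hward hz rfl hS0
  rw [hpe, hmain]
  have hts : t / s2 = y ^ 2 := by
    rw [ht]
    field_simp
  rw [hts]
  have c1 : |m / (D + e') - m / D| ≤ R1 := by
    have a1 : m / (D + e') - m / D = -(m * e') / (D * (D + e')) := by
      field_simp
      ring
    rw [a1, abs_div, abs_neg, abs_mul, abs_of_pos hm0, abs_of_pos (by positivity :
      0 < D * (D + e'))]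
    have a2 : 1 / 2 ≤ D * (D + e') := by
      have a4 := (abs_le.1 hmR).1
      have a5 : 1 / 2 ≤ D + e' := by linarith
      exact a5.trans (le_mul_of_one_le_left hDe.le hD1)
    rw [div_le_iff₀ (by positivity)]
    have a3 : 0 ≤ R1 := by
      have : 0 ≤ m * |e'| := by positivity
      linarith
    calc m * |e'| ≤ R1 / 2 := hbd
      _ = R1 * (1 / 2) := by ring
      _ ≤ R1 * (D * (D + e')) := mul_le_mul_of_nonneg_left a2 a3
  have c2 := frac_lip m n (K * g1) hm0 hE (by positivity)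
  have c3 := frac_lip2 n g1 g1' K hE hg10 hgE.1 hK0
  have c4 : |m - n| ≤ y ^ 2 + |g0 - n| := by
    have : m - n = y ^ 2 + (g0 - n) := by rw [hm]; ring
    rw [this]
    refine (abs_add_le _ _).trans ?_
    rw [abs_of_nonneg (sq_nonneg y)]
  rw [← hD] at c2
  have d1 := abs_le.1 c1
  have d2 := abs_le.1 c2
  have d3 := abs_le.1 c3
  have hy2 : 0 ≤ y ^ 2 := sq_nonneg y
  rw [abs_le]
  constructor
  · linarith [d1.1, d2.1, d3.1]
  · linarith [d1.2, d2.2, d3.2]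

end Pool.Agent.TH791.QD
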