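import Pool.Agent.TH791.QD.Dif3
import Pool.Agent.W788.BK.Num

/-! The diffusive law: numbers. -/

set_option autoImplicit false
set_option linter.unusedSectionVars false

open scoped BigOperators Topology
open MeasureTheory Filter Set

namespace Pool.Agent.TH791.QD

open Pool.Agent.W788.BK
open Pool.Agent.W788.BK.Num
open Pool.Agent.H4R2.LO (Zd)
open Pool.Agent.TH794.LL2
open Pool.Agent.TH794.QD (GF F0 CH CH_nonneg GF_im Amp hol0 hol1 amp0)

/-- the boundary value is bounded -/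
theorem GF_bd {F : ℝ → ℂ} {C : ℝ} (h : Amp F C) {z : ℂ} (hz : 0 ≤ z.im) : ‖GF F z‖ ≤ C * K5 := by
  unfold GF K5
  rw [norm_mul, Complex.norm_I, one_mul, ← integral_const_mul]
  refine norm_integral_le_of_norm_le (int_K5.const_mul C) ?_
  rw [ae_restrict_iff' measurableSet_Ioi]
  refine Eventually.of_forall fun s hs => ?_
  have hs0 : (0 : ℝ) < s := hs
  rw [norm_mul]
  have h1 : ‖Complex.exp (Complex.I * z * s)‖ ≤ 1 :=
    Pool.Agent.TH794.QD.exp_norm_le hz hs0.le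
  calc ‖F s‖ * ‖Complex.exp (Complex.I * z * s)‖ ≤ ‖F s‖ * 1 := by gcongr
    _ ≤ _ := by
      rw [mul_one]
      exact h.dec s hs0.le

/-- the total constant -/
noncomputable def CC (d : ℕ) (A v c C2 : ℝ) : ℝ :=
  1 + 5 / 2 * v⁻¹ + 2 * (C2 / (c / 2) + 1 + 10 * (Real.sqrt v)⁻¹ * d ^ 3 / (c / 2) + 2 * A) +
    3 / 2 * C2 + C2 / c

/-- the numbers -/
structure NumDf (d : ℕ) (A v c C2 Y : ℝ) : Prop where
  n1 : 1 ≤ Y
  n2 : (1 + 2 * A) * Real.exp (-Y) ≤ 1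
  n3 : C2 * Real.exp (-(1 / 8) * Y) ≤ c / 2
  n4 : CC d A v c C2 * Real.exp (-(19 / 2000) * Y) ≤ c / 2
  n5 : CC d A v c C2 * Real.exp (-(19 / 2000) * Y) ≤ Real.exp (-(1 / 200) * Y)

theorem numDf (d : ℕ) (A v c C2 : ℝ) (hc : 0 < c) :
    ∀ᶠ Y : ℝ in atTop, NumDf d A v c C2 Y := by
  filter_upwards [eventually_ge_atTop 1, ev3 (1 + 2 * A) (-1) 0 (by norm_num),
    ev3 (2 / c * C2) (-(1 / 8)) 0 (by norm_num),
    ev3 (2 / c * CC d A v c C2) (-(19 / 2000)) 0 (by norm_num),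
    ev3 (CC d A v c C2) (-(19 / 2000)) (-(1 / 200)) (by norm_num)] with Y h1 h2 h3 h4 h5
  rw [zero_mul, Real.exp_zero] at h2 h3 h4
  have e1 : ∀ a b : ℝ, 2 / c * a * b ≤ 1 → a * b ≤ c / 2 := by
    intro a b h
    have e2 : 2 / c * a * b = a * b / (c / 2) := by
      field_simp
    rw [e2, div_le_one (by positivity)] at h
    exact h
  refine ⟨h1, ?_, e1 _ _ h3, e1 _ _ h4, h5⟩
  rw [show -Y = -1 * Y by ring]
  exact h2

end Pool.Agent.TH791.QD
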