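import Pool.Agent.TH791.QD.Dif4

/-! The diffusive law: the deterministic step. -/

set_option autoImplicit false
set_option linter.unusedSectionVars false

open scoped BigOperators Topology
open MeasureTheory Filter Set

namespace Pool.Agent.TH791.QD

open Pool.Agent.W788.BK
open Pool.Agent.H4R2.LO (Zd)
open Pool.Agent.TH794.LL2
open Pool.Agent.TH794.QD (GF F0 CH CH_nonneg GF_im Amp hol0 hol1 amp0)

/-- the constant of the bound on the boundary value -/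
noncomputable def KG (d : ℕ) : ℝ := 80 * 10 ^ d * K5

theorem KG_nonneg (d : ℕ) : 0 ≤ KG d := by
  unfold KG
  have := K5_nonneg
  positivity

/-- the Hölder constant with the distance -/
noncomputable def C2D (d : ℕ) (A : ℝ) : ℝ := CH d * (A + 1 + 2 * A * KG d) ^ (1 / 8 : ℝ)

/-- **the self-energy** -/
theorem self_near (hO : S_OSC) (d : ℕ) (hd : 3 ≤ d) (A v c Y σ V M t E : ℝ) (hA : 0 < A)
    (hv : 0 < v) (hN : NumDf d A v c (C2D d A) Y) (hσ : |σ| = Real.exp (-Y)) (hV : v ≤ V)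
    (hVA : V ≤ 2 * A) (hM : |M| ≤ A) (ht : t = Real.exp (-(81 / 40) * Y))
    (hE : c ≤ (GF (F0 d) (E : ℂ)).im) :
    ∃ (γ z : ℂ) (w : Zd d → ℂ), z = ((E - σ * M : ℝ) : ℂ) + (t : ℂ) * Complex.I +
            ((σ ^ 2 * V : ℝ) : ℂ) * γ ∧ GS d (fun _ => 0) z 0 w ∧ w 0 = γ ∧ c / 2 ≤ γ.im ∧
      z.im = t + σ ^ 2 * V * γ.im ∧ z.im ≤ 1 ∧
      z.im ≤ (A + 1 + 2 * A * KG d) * Real.exp (-2 * Y) ∧ 0 < z.im ∧
      |(GF (F0 d) z).im - (GF (F0 d) (E : ℂ)).im| ≤ C2D d A * Real.exp (-(1 / 8) * Y) ∧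
      |(GF (Pool.Agent.TH794.QD.F1 d) z).im - (GF (Pool.Agent.TH794.QD.F1 d) (E : ℂ)).im| ≤
        C2D d A * Real.exp (-(1 / 8) * Y) := by
  obtain ⟨n1, n2, n3, n4, n5⟩ := hN
  obtain ⟨s, hs⟩ : ∃ s, s = Real.exp (-Y) := ⟨_, rfl⟩
  have hs0 : 0 < s := by rw [hs]; positivity
  have hs1 : s ≤ 1 := by rw [hs]; exact Real.exp_le_one_iff.2 (by linarith)
  have hσ2 : σ ^ 2 = s ^ 2 := by rw [← sq_abs, hσ, hs]
  have hVp : 0 < V := by linarith
  have ht0 : 0 < t := by rw [ht]; positivity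
  have hs2e : s ^ 2 = Real.exp (-2 * Y) := by
    rw [hs, ← Real.exp_nat_mul]
    congr 1
    push_cast
    ring
  have hts : t ≤ s ^ 2 := by
    rw [ht, hs2e]
    exact Real.exp_le_exp.2 (by linarith)
  have hsq : s ^ 2 ≤ s := by nlinarith
  obtain ⟨s2, hs2⟩ : ∃ s2, s2 = σ ^ 2 * V := ⟨_, rfl⟩
  have hs20 : 0 < s2 := by
    rw [hs2, hσ2]
    positivity
  have hs2A : s2 ≤ 2 * A * s ^ 2 := by
    rw [hs2, hσ2]
    nlinarith [sq_nonneg s]
  have hsum : t + s2 ≤ 1 := by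
    rw [← hs] at n2
    have h1 : (1 + 2 * A) * s ^ 2 ≤ (1 + 2 * A) * s := by gcongr
    linarith
  obtain ⟨γ, hγ, w, hw, hw0⟩ := born d (((E - σ * M : ℝ) : ℂ) + (t : ℂ) * Complex.I) s2
    (by simp [ht0]) hs20
  obtain ⟨z, hz⟩ : ∃ z : ℂ, z = ((E - σ * M : ℝ) : ℂ) + (t : ℂ) * Complex.I + (s2 : ℂ) * γ :=
    ⟨_, rfl⟩
  rw [← hz] at hw
  have hzi : z.im = t + s2 * γ.im := by
    rw [hz]
    simp
  have hzi0 : 0 < z.im := by
    rw [hzi]
    positivity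
  have hz1 : z.im ≤ 1 := by
    by_contra hcon
    push Not at hcon
    have h1 := (hw.at_le hzi0).1
    rw [hw0] at h1
    have h2 : γ.im ≤ z.im⁻¹ := ((le_abs_self _).trans (Complex.abs_im_le_norm _)).trans h1
    have h3 : z.im⁻¹ ≤ 1 := inv_le_one_of_one_le₀ hcon.le
    have h4 : s2 * γ.im ≤ s2 * 1 := by
      apply mul_le_mul_of_nonneg_left _ hs20.le
      linarith
    linarith
  have hfree := GF_free hO hd w z hzi0 hz1 hw
  rw [hw0] at hfree
  have hγn : ‖γ‖ ≤ KG d := by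
    rw [hfree]
    exact GF_bd (amp0 hO d hd) hzi0.le
  have hKG := KG_nonneg d
  have hγi : γ.im ≤ KG d := ((le_abs_self _).trans (Complex.abs_im_le_norm _)).trans hγn
  have hdist : ‖z - (E : ℂ)‖ ≤ (A + 1 + 2 * A * KG d) * s := by
    have e1 : z - (E : ℂ) = -((σ * M : ℝ) : ℂ) + (t : ℂ) * Complex.I + (s2 : ℂ) * γ := by
      rw [hz]
      push_cast
      ring
    rw [e1]
    refine (norm_add_le _ _).trans ?_
    have e2 := norm_add_le (-((σ * M : ℝ) : ℂ)) ((t : ℂ) * Complex.I)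
    rw [norm_neg, norm_mul (t : ℂ) Complex.I, Complex.norm_I, mul_one, Complex.norm_real,
      Complex.norm_real, Real.norm_of_nonneg ht0.le, Real.norm_eq_abs, abs_mul, hσ, ← hs] at e2
    have e3 : ‖(s2 : ℂ) * γ‖ ≤ 2 * A * s ^ 2 * KG d := by
      rw [norm_mul, Complex.norm_real, Real.norm_of_nonneg hs20.le]
      gcongr
    have e4 : s * |M| ≤ s * A := by gcongr
    have e5 : 2 * A * s ^ 2 * KG d ≤ 2 * A * s * KG d := by gcongr
    linarith
  have hC0 : 0 ≤ A + 1 + 2 * A * KG d := by positivity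
  have hpow : ‖z - (E : ℂ)‖ ^ (1 / 8 : ℝ) ≤
      (A + 1 + 2 * A * KG d) ^ (1 / 8 : ℝ) * Real.exp (-(1 / 8) * Y) := by
    refine (Real.rpow_le_rpow (norm_nonneg _) hdist (by norm_num)).trans (le_of_eq ?_)
    rw [Real.mul_rpow hC0 hs0.le, hs, ← Real.exp_mul]
    congr 2
    ring
  have hCH := CH_nonneg d
  have hb0 : |(GF (F0 d) z).im - (GF (F0 d) (E : ℂ)).im| ≤
      C2D d A * Real.exp (-(1 / 8) * Y) := by
    rw [← Complex.sub_im]
    refine (Complex.abs_im_le_norm _).trans ((hol0 hO d hd z (E : ℂ) hzi0.le (by simp)).trans ?_)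
    unfold C2D
    rw [mul_assoc]
    gcongr
  have hb1 : |(GF (Pool.Agent.TH794.QD.F1 d) z).im -
      (GF (Pool.Agent.TH794.QD.F1 d) (E : ℂ)).im| ≤ C2D d A * Real.exp (-(1 / 8) * Y) := by
    rw [← Complex.sub_im]
    refine (Complex.abs_im_le_norm _).trans ((hol1 hO d hd z (E : ℂ) hzi0.le (by simp)).trans ?_)
    unfold C2D
    rw [mul_assoc]
    gcongr
  refine ⟨γ, z, w, by rw [hz, hs2], hw, hw0, ?_, by rw [hzi, hs2], hz1, ?_, hzi0, hb0, hb1⟩
  · have h1 := (abs_le.1 hb0).1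
    rw [← hfree] at h1
    linarith
  · rw [hzi, ← hs2e]
    have h1 : s2 * γ.im ≤ 2 * A * s ^ 2 * KG d := by gcongr
    have h2 : 0 ≤ A * s ^ 2 := by positivity
    linarith

end Pool.Agent.TH791.QD
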