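import Pool.Agent.TH791.QD.Dif5

/-! The diffusive law: the last step. -/

set_option autoImplicit false
set_option linter.unusedSectionVars false

open scoped BigOperators Topology
open MeasureTheory Filter Set

namespace Pool.Agent.TH791.QD

open Pool.Agent.W788.BK
open Pool.Agent.H4R2.LO (Zd)
open Pool.Agent.TH794.LL2
open Pool.Agent.TH794.QD (GF F0 CH CH_nonneg GF_im Amp hol0 hol1 amp0)

theorem C2D_nonneg (d : ℕ) (A : ℝ) (hA : 0 < A) : 0 ≤ C2D d A := by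
  unfold C2D
  have := CH_nonneg d
  have := KG_nonneg d
  positivity

/-- the bound on the error -/
theorem R1_le (d : ℕ) (A v c Y V t s2 y η : ℝ) (κ : Fin d → ℝ) (hA : 0 < A) (hv : 0 < v)
    (hc : 0 < c) (hY : 1 ≤ Y) (hV : v ≤ V) (hVA : V ≤ 2 * A)
    (ht : t = Real.exp (-(81 / 40) * Y)) (hs2 : s2 = Real.exp (-2 * Y) * V) (hy : 0 ≤ y)
    (hty : t = y ^ 2 * s2) (hη0 : 0 < η) (hη : η ≤ (A + 1 + 2 * A * KG d) * Real.exp (-2 * Y))
    (hκ : ∑ i, κ i ^ 2 ≤ Real.exp (Y / 500)) (hd1 : 1 ≤ d) :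
    y ^ 2 ≤ v⁻¹ * Real.exp (-(19 / 2000) * Y) ∧
    (∀ i, |κ i * (y * s2)| ^ 2 ≤ (1 + 2 * A) * Real.exp (-Y)) ∧
    2 * ((∑ i, κ i ^ 2) * (CH d * (Real.exp (-(1 / 10) * Y) * η) ^ (1 / 8 : ℝ)) /
        (Real.exp (-(1 / 10) * Y) * (c / 2)) +
      (∑ i, κ i ^ 2) * Real.exp (-(1 / 10) * Y) + 10 * y * (∑ i, |κ i|) ^ 3 / (c / 2) +
        y ^ 2 * s2 ^ 2 * (∑ i, κ i ^ 2) ^ 2) ≤
      2 * (C2D d A / (c / 2) + 1 + 10 * (Real.sqrt v)⁻¹ * d ^ 3 / (c / 2) + 2 * A) *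
        Real.exp (-(19 / 2000) * Y) := by
  obtain ⟨K, hK⟩ : ∃ K, K = ∑ i, κ i ^ 2 := ⟨_, rfl⟩
  obtain ⟨B, hB⟩ : ∃ B, B = ∑ i, |κ i| := ⟨_, rfl⟩
  have hK0 : 0 ≤ K := by rw [hK]; exact Finset.sum_nonneg fun i _ => sq_nonneg _
  have hB0 : 0 ≤ B := by rw [hB]; exact Finset.sum_nonneg fun i _ => abs_nonneg _
  have hKi : ∀ i, κ i ^ 2 ≤ K := by
    intro i
    rw [hK]
    exact Finset.single_le_sum (f := fun i => κ i ^ 2) (fun i _ => sq_nonneg _) (Finset.mem_univ i)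
  have hB2 : B ^ 2 ≤ d * K := by
    rw [hB, hK]
    have h1 := sq_sum_le_card_mul_sum_sq (s := (Finset.univ : Finset (Fin d))) (f := fun i => |κ i|)
    simpa only [Finset.card_univ, Fintype.card_fin, sq_abs] using h1
  rw [← hK] at hκ ⊢
  rw [← hB]
  have hVp : 0 < V := by linarith
  have hs20 : 0 < s2 := by rw [hs2]; positivity
  have ht0 : 0 < t := by rw [ht]; positivity
  have hd0 : (1 : ℝ) ≤ d := by exact_mod_cast hd1
  have hCH := CH_nonneg d
  have hKG := KG_nonneg d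
  have hex : ∀ a b : ℝ, Real.exp a * Real.exp b = Real.exp (a + b) := fun a b =>
    (Real.exp_add a b).symm
  have hy2 : y ^ 2 ≤ v⁻¹ * Real.exp (-(1 / 40) * Y) := by
    have h1 : y ^ 2 = t / s2 := by rw [hty]; field_simp
    have h2 : Real.exp (-2 * Y) * v ≤ s2 := by rw [hs2]; gcongr
    rw [h1, ht]
    calc Real.exp (-(81 / 40) * Y) / s2 ≤ Real.exp (-(81 / 40) * Y) / (Real.exp (-2 * Y) * v) := by
          gcongr
      _ = v⁻¹ * Real.exp (-(1 / 40) * Y) := by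
          have : Real.exp (-(81 / 40) * Y) = Real.exp (-(1 / 40) * Y) * Real.exp (-2 * Y) := by
            rw [hex]
            congr 1
            ring
          rw [this]
          field_simp
  refine ⟨?_, ?_, ?_⟩
  · refine hy2.trans ?_
    have : Real.exp (-(1 / 40) * Y) ≤ Real.exp (-(19 / 2000) * Y) :=
      Real.exp_le_exp.2 (by linarith)
    gcongr
  · intro i
    have h1 : |κ i * (y * s2)| ^ 2 = κ i ^ 2 * (t * s2) := by
      rw [sq_abs, hty]
      ring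
    have h2 : t * s2 ≤ Real.exp (-(81 / 40) * Y) * (Real.exp (-2 * Y) * (2 * A)) := by
      rw [ht, hs2]
      gcongr
    rw [h1]
    calc κ i ^ 2 * (t * s2) ≤ Real.exp (Y / 500) *
        (Real.exp (-(81 / 40) * Y) * (Real.exp (-2 * Y) * (2 * A))) := by
          apply mul_le_mul ((hKi i).trans hκ) h2 (by positivity) (by positivity)
      _ = 2 * A * Real.exp (Y / 500 + (-(81 / 40) * Y + -2 * Y)) := by
          rw [← hex, ← hex]
          ring
      _ ≤ 2 * A * Real.exp (-Y) := by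
          have : Real.exp (Y / 500 + (-(81 / 40) * Y + -2 * Y)) ≤ Real.exp (-Y) :=
            Real.exp_le_exp.2 (by linarith)
          gcongr
      _ ≤ _ := by
          have := Real.exp_pos (-Y)
          linarith
  · have hy1 : y ≤ (Real.sqrt v)⁻¹ * Real.exp (-(1 / 80) * Y) := by
      have h1 : y ^ 2 ≤ ((Real.sqrt v)⁻¹ * Real.exp (-(1 / 80) * Y)) ^ 2 := by
        refine hy2.trans (le_of_eq ?_)
        rw [mul_pow, inv_pow, Real.sq_sqrt hv.le, ← Real.exp_nat_mul]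
        congr 2
        push_cast
        ring
      exact (sq_le_sq₀ hy (by positivity)).1 h1
    have hB1 : B ≤ d * Real.exp (Y / 1000) := by
      have h1 : B ^ 2 ≤ (d * Real.exp (Y / 1000)) ^ 2 := by
        rw [mul_pow, ← Real.exp_nat_mul]
        have e1 : ((2 : ℕ) : ℝ) * (Y / 1000) = Y / 500 := by push_cast; ring
        rw [e1]
        calc B ^ 2 ≤ d * K := hB2
          _ ≤ d ^ 2 * Real.exp (Y / 500) := by
            apply mul_le_mul _ hκ hK0 (by positivity)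
            nlinarith
      exact (sq_le_sq₀ hB0 (by positivity)).1 h1
    have a1 : K * (CH d * (Real.exp (-(1 / 10) * Y) * η) ^ (1 / 8 : ℝ)) /
        (Real.exp (-(1 / 10) * Y) * (c / 2)) ≤
        C2D d A / (c / 2) * Real.exp (-(19 / 2000) * Y) := by
      have b1 : (Real.exp (-(1 / 10) * Y) * η) ^ (1 / 8 : ℝ) ≤
          (A + 1 + 2 * A * KG d) ^ (1 / 8 : ℝ) * Real.exp (-(21 / 80) * Y) := by
        have b2 : Real.exp (-(1 / 10) * Y) * η ≤
            (A + 1 + 2 * A * KG d) * Real.exp (-(21 / 10) * Y) := by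
          calc Real.exp (-(1 / 10) * Y) * η ≤ Real.exp (-(1 / 10) * Y) *
                ((A + 1 + 2 * A * KG d) * Real.exp (-2 * Y)) := by gcongr
            _ = (A + 1 + 2 * A * KG d) * Real.exp (-(1 / 10) * Y + -2 * Y) := by
                rw [← hex]
                ring
            _ = _ := by
                congr 2
                ring
        refine (Real.rpow_le_rpow (by positivity) b2 (by norm_num)).trans (le_of_eq ?_)
        rw [Real.mul_rpow (by positivity) (by positivity), ← Real.exp_mul]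
        congr 2
        ring
      calc K * (CH d * (Real.exp (-(1 / 10) * Y) * η) ^ (1 / 8 : ℝ)) /
          (Real.exp (-(1 / 10) * Y) * (c / 2)) ≤
          Real.exp (Y / 500) * (CH d * ((A + 1 + 2 * A * KG d) ^ (1 / 8 : ℝ) *
            Real.exp (-(21 / 80) * Y))) / (Real.exp (-(1 / 10) * Y) * (c / 2)) := by gcongr
        _ = C2D d A / (c / 2) * Real.exp (Y / 500 + -(13 / 80) * Y) := by
            have : Real.exp (-(21 / 80) * Y) = Real.exp (-(13 / 80) * Y) *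
                Real.exp (-(1 / 10) * Y) := by
              rw [hex]
              congr 1
              ring
            rw [this, ← hex]
            unfold C2D
            field_simp
        _ ≤ _ := by
            have h1 : Real.exp (Y / 500 + -(13 / 80) * Y) ≤ Real.exp (-(19 / 2000) * Y) :=
              Real.exp_le_exp.2 (by linarith)
            have h2 := C2D_nonneg d A hA
            gcongr
    have a2 : K * Real.exp (-(1 / 10) * Y) ≤ 1 * Real.exp (-(19 / 2000) * Y) := by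
      calc K * Real.exp (-(1 / 10) * Y) ≤ Real.exp (Y / 500) * Real.exp (-(1 / 10) * Y) := by
            gcongr
        _ = Real.exp (Y / 500 + -(1 / 10) * Y) := hex _ _
        _ ≤ Real.exp (-(19 / 2000) * Y) := Real.exp_le_exp.2 (by linarith)
        _ = _ := (one_mul _).symm
    have a3 : 10 * y * B ^ 3 / (c / 2) ≤
        10 * (Real.sqrt v)⁻¹ * d ^ 3 / (c / 2) * Real.exp (-(19 / 2000) * Y) := by
      calc 10 * y * B ^ 3 / (c / 2) ≤ 10 * ((Real.sqrt v)⁻¹ * Real.exp (-(1 / 80) * Y)) *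
            (d * Real.exp (Y / 1000)) ^ 3 / (c / 2) := by gcongr
        _ = 10 * (Real.sqrt v)⁻¹ * d ^ 3 / (c / 2) *
            (Real.exp (-(1 / 80) * Y) * Real.exp (Y / 1000) ^ 3) := by ring
        _ = _ := by
            congr 1
            rw [← Real.exp_nat_mul, hex]
            congr 1
            push_cast
            ring
    have a4 : y ^ 2 * s2 ^ 2 * K ^ 2 ≤ 2 * A * Real.exp (-(19 / 2000) * Y) := by
      have h1 : y ^ 2 * s2 ^ 2 = t * s2 := by rw [hty]; ring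
      rw [h1]
      calc t * s2 * K ^ 2 ≤ Real.exp (-(81 / 40) * Y) * (Real.exp (-2 * Y) * (2 * A)) *
            Real.exp (Y / 500) ^ 2 := by
            rw [ht, hs2]
            gcongr
        _ = 2 * A * (Real.exp (-(81 / 40) * Y) * Real.exp (-2 * Y) * Real.exp (Y / 500) ^ 2) := by
            ring
        _ = 2 * A * Real.exp (-(81 / 40) * Y + -2 * Y + ((2 : ℕ) : ℝ) * (Y / 500)) := by
            rw [← Real.exp_nat_mul, hex, hex]
        _ ≤ _ := by
            have : Real.exp (-(81 / 40) * Y + -2 * Y + ((2 : ℕ) : ℝ) * (Y / 500)) ≤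
                Real.exp (-(19 / 2000) * Y) := by
              apply Real.exp_le_exp.2
              push_cast
              linarith
            gcongr
    have a5 : 2 * (C2D d A / (c / 2) + 1 + 10 * (Real.sqrt v)⁻¹ * d ^ 3 / (c / 2) + 2 * A) *
        Real.exp (-(19 / 2000) * Y) = 2 * (C2D d A / (c / 2) * Real.exp (-(19 / 2000) * Y) +
        1 * Real.exp (-(19 / 2000) * Y) +
        10 * (Real.sqrt v)⁻¹ * d ^ 3 / (c / 2) * Real.exp (-(19 / 2000) * Y) +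
        2 * A * Real.exp (-(19 / 2000) * Y)) := by ring
    rw [a5]
    linarith

/-- **the diffusive limit of the law** -/
theorem diff_step (hO : S_OSC) (d : ℕ) (hd : 3 ≤ d) (A v c Y σ V M t E : ℝ) (hA : 0 < A)
    (hv : 0 < v) (hc : 0 < c) (hN : NumDf d A v c (C2D d A) Y) (hσ : |σ| = Real.exp (-Y))
    (hV : v ≤ V) (hVA : V ≤ 2 * A) (hM : |M| ≤ A) (ht : t = Real.exp (-(81 / 40) * Y))
    (hE : c ≤ (GF (F0 d) (E : ℂ)).im) (Q : (Fin d → ℝ) → ℂ)
    (hcore : ∀ γ : ℂ, c / 2 ≤ γ.im → ∀ w : Zd d → ℂ,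
      GS d (fun _ => 0) (((E - σ * M : ℝ) : ℂ) + (t : ℂ) * Complex.I +
        ((σ ^ 2 * V : ℝ) : ℂ) * γ) 0 w → w 0 = γ → ∀ q : Fin d → ℝ,
      ‖Q q - ((t / (σ ^ 2 * V) *
        ((σ ^ 2 * V * ∑' x : Zd d, Real.cos (∑ i, q i * x i) * ‖w x‖ ^ 2) /
        (1 - σ ^ 2 * V * ∑' x : Zd d, Real.cos (∑ i, q i * x i) * ‖w x‖ ^ 2)) : ℝ) : ℂ)‖ ≤
        Real.exp (-(1 / 100) * Y))
    (κ : Fin d → ℝ) (hκ : ∑ i, κ i ^ 2 ≤ Real.exp (Y / 500)) :
    ‖Q (fun i => κ i * Real.sqrt (t * (σ ^ 2 * V))) - (((GF (F0 d) (E : ℂ)).im /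
      (1 + (∑ i, κ i ^ 2) * (GF (Pool.Agent.TH794.QD.F1 d) (E : ℂ)).im /
        (GF (F0 d) (E : ℂ)).im ^ 2) : ℝ) : ℂ)‖ ≤ Real.exp (-(1 / 200) * Y) := by
  obtain ⟨γ, z, w, hz, hw, hw0, hγc, hzi, hz1, hzη, hzi0, hd0, hd1⟩ := self_near hO d hd A v c Y σ V
    M t E hA hv hN hσ hV hVA hM ht hE
  have hn1 := hN.n1
  have hn2 := hN.n2
  have hn4 := hN.n4
  have hn5 := hN.n5
  have hC2 := C2D_nonneg d A hA
  have hVp : 0 < V := by linarith
  have ht0 : 0 < t := by rw [ht]; positivity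
  obtain ⟨s2, hs2⟩ : ∃ s2, s2 = σ ^ 2 * V := ⟨_, rfl⟩
  have hs2e : s2 = Real.exp (-2 * Y) * V := by
    rw [hs2, ← sq_abs, hσ, ← Real.exp_nat_mul]
    congr 2
    push_cast
    ring
  have hs20 : 0 < s2 := by rw [hs2e]; positivity
  obtain ⟨y, hy⟩ : ∃ y, y = Real.sqrt (t / s2) := ⟨_, rfl⟩
  have hy0 : 0 < y := by rw [hy]; exact Real.sqrt_pos.2 (by positivity)
  have hty : t = y ^ 2 * s2 := by
    rw [hy, Real.sq_sqrt (by positivity)]
    field_simp
  have hys : Real.sqrt (t * (σ ^ 2 * V)) = y * s2 := by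
    rw [← hs2]
    have : t * s2 = (y * s2) ^ 2 := by rw [hty]; ring
    rw [this, Real.sqrt_sq (by positivity)]
  rw [hys]
  obtain ⟨r1, r2, r3⟩ := R1_le d A v c Y V t s2 y z.im κ hA hv hc hn1 hV hVA ht hs2e hy0.le hty hzi0
    hzη hκ (by omega)
  have hx0 : 0 < Real.exp (-(19 / 2000) * Y) := Real.exp_pos _
  have hq : ∀ i, |κ i * (y * s2)| ≤ 1 := by
    intro i
    have h1 := (r2 i).trans hn2
    exact (sq_le_sq₀ (abs_nonneg _) (by norm_num)).1 (by rw [one_pow]; exact h1)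
  have hd3 : (0 : ℝ) ≤ (d : ℝ) := Nat.cast_nonneg d
  have hCCe : CC d A v c (C2D d A) * Real.exp (-(19 / 2000) * Y) =
      Real.exp (-(19 / 2000) * Y) + 5 / 2 * (v⁻¹ * Real.exp (-(19 / 2000) * Y)) +
      2 * (C2D d A / (c / 2) + 1 + 10 * (Real.sqrt v)⁻¹ * d ^ 3 / (c / 2) + 2 * A) *
        Real.exp (-(19 / 2000) * Y) + 3 / 2 * (C2D d A * Real.exp (-(19 / 2000) * Y)) +
      C2D d A / c * Real.exp (-(19 / 2000) * Y) := by
    unfold CC
    ring
  rw [hCCe] at hn4 hn5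
  have p1 : 0 ≤ v⁻¹ * Real.exp (-(19 / 2000) * Y) := by positivity
  have p2 : 0 ≤ C2D d A * Real.exp (-(19 / 2000) * Y) := by positivity
  have p3 : 0 ≤ C2D d A / c * Real.exp (-(19 / 2000) * Y) := by positivity
  obtain ⟨R1, hR1⟩ : ∃ R1, R1 = 2 * ((∑ i, κ i ^ 2) *
      (CH d * (Real.exp (-(1 / 10) * Y) * z.im) ^ (1 / 8 : ℝ)) /
        (Real.exp (-(1 / 10) * Y) * (c / 2)) +
      (∑ i, κ i ^ 2) * Real.exp (-(1 / 10) * Y) + 10 * y * (∑ i, |κ i|) ^ 3 / (c / 2) +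
        y ^ 2 * s2 ^ 2 * (∑ i, κ i ^ 2) ^ 2) := ⟨_, rfl⟩
  rw [← hR1] at r3
  have hEp : 0 < (GF (F0 d) (E : ℂ)).im := by linarith
  have hp := prof_lim hO hd s2 t y (Real.exp (-(1 / 10) * Y)) (c / 2) E κ z γ w hs20 hy0 hty
    (Real.exp_pos _) (by linarith) (by rw [hzi, hs2]) hz1 hw hw0 hγc hEp hq R1 hR1 (by linarith)
  rw [hz] at hw
  have hcq := hcore γ hγc w hw hw0 (fun i => κ i * (y * s2))
  rw [← hs2] at hcq
  obtain ⟨P, hP⟩ : ∃ P, P = t / s2 *
      ((s2 * ∑' x : Zd d, Real.cos (∑ i, κ i * (y * s2) * x i) * ‖w x‖ ^ 2) /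
        (1 - s2 * ∑' x : Zd d, Real.cos (∑ i, κ i * (y * s2) * x i) * ‖w x‖ ^ 2)) := ⟨_, rfl⟩
  rw [← hP] at hp hcq
  obtain ⟨T, hT⟩ : ∃ T, T = (GF (F0 d) (E : ℂ)).im /
      (1 + (∑ i, κ i ^ 2) * (GF (Pool.Agent.TH794.QD.F1 d) (E : ℂ)).im /
        (GF (F0 d) (E : ℂ)).im ^ 2) := ⟨_, rfl⟩
  rw [← hT] at hp ⊢
  obtain ⟨K, hK⟩ : ∃ K, K = ∑ i, κ i ^ 2 := ⟨_, rfl⟩
  have hK0 : 0 ≤ K := by rw [hK]; exact Finset.sum_nonneg fun i _ => sq_nonneg _
  rw [← hK] at hp hκ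
  have e1 : Q (fun i => κ i * (y * s2)) - (T : ℂ) =
      (Q (fun i => κ i * (y * s2)) - (P : ℂ)) + ((P - T : ℝ) : ℂ) := by
    push_cast
    ring
  rw [e1]
  refine (norm_add_le _ _).trans ?_
  rw [Complex.norm_real, Real.norm_eq_abs]
  have q1 : Real.exp (-(1 / 100) * Y) ≤ Real.exp (-(19 / 2000) * Y) :=
    Real.exp_le_exp.2 (by linarith)
  have q2 : C2D d A * Real.exp (-(1 / 8) * Y) ≤ C2D d A * Real.exp (-(19 / 2000) * Y) := by
    have : Real.exp (-(1 / 8) * Y) ≤ Real.exp (-(19 / 2000) * Y) :=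
      Real.exp_le_exp.2 (by linarith)
    gcongr
  have q3 : K * |(GF (Pool.Agent.TH794.QD.F1 d) z).im -
      (GF (Pool.Agent.TH794.QD.F1 d) (E : ℂ)).im| / (GF (F0 d) (E : ℂ)).im ≤
      C2D d A / c * Real.exp (-(19 / 2000) * Y) := by
    calc K * |(GF (Pool.Agent.TH794.QD.F1 d) z).im -
        (GF (Pool.Agent.TH794.QD.F1 d) (E : ℂ)).im| / (GF (F0 d) (E : ℂ)).im ≤
        Real.exp (Y / 500) * (C2D d A * Real.exp (-(1 / 8) * Y)) / c := by gcongr
      _ = C2D d A / c * (Real.exp (Y / 500) * Real.exp (-(1 / 8) * Y)) := by ring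
      _ ≤ _ := by
        have : Real.exp (Y / 500) * Real.exp (-(1 / 8) * Y) ≤ Real.exp (-(19 / 2000) * Y) := by
          rw [← Real.exp_add]
          exact Real.exp_le_exp.2 (by linarith)
        gcongr
  linarith

end Pool.Agent.TH791.QD
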