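import Pool.Agent.TH791.QD.Dif6

/-! The law of the position and its diffusive limit. -/

set_option autoImplicit false
set_option linter.unusedSectionVars false

open scoped BigOperators Topology
open MeasureTheory Filter Set

namespace Pool.Agent.TH791.QD

open Pool.Agent.W788.BK
open Pool.Agent.H4R2.LO (Zd)
open Pool.Agent.TH794.QD (GF F0)

/-- **the law and its diffusive limit** -/
theorem finalS (d : ℕ) (hd : 3 ≤ d) (A v c : ℝ) (hA : 0 < A) (hv : 0 < v) (hc : 0 < c) :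
    ∃ s0 : ℝ, 0 < s0 ∧ ∀ (μ : Measure ℝ), IsProbabilityMeasure μ →
      (∀ r : ℝ, 0 ≤ r → μ.real {s | r < |s|} ≤ A * Real.exp (-r)) →
      ∀ M V : ℝ, ∫ s, s ∂μ = M → ∫ s, (s - M) ^ 2 ∂μ = V → v ≤ V →
      ∀ σ : ℝ, 0 < |σ| → |σ| ≤ s0 → ∀ (t : ℝ), t = |σ| ^ (81 / 40 : ℝ) →
      ∃ G : Set (Zd d → ℝ), MeasurableSet G ∧
        1 - Real.exp (-|σ| ^ (-(1 / 150) : ℝ)) ≤
          (Measure.infinitePi fun _ : Zd d => μ).real G ∧
        ∀ ξ ∈ G, ∀ a : Zd d, ‖a‖ ≤ Real.exp (|σ| ^ (-(1 / 150) : ℝ)) →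
          ∀ (E : ℝ) (u : Zd d → ℂ),
          GS d (fun x => σ * ξ x) ((E : ℂ) + (t : ℂ) * Complex.I) a u →
          (∀ γ : ℂ, c ≤ γ.im → ∀ w : Zd d → ℂ,
            GS d (fun _ => 0) (((E - σ * M : ℝ) : ℂ) + (t : ℂ) * Complex.I +
              ((σ ^ 2 * V : ℝ) : ℂ) * γ) 0 w → w 0 = γ →
            ∀ q : Fin d → ℝ,
            ‖(t : ℂ) * ∑' x : Zd d, Complex.exp (Complex.I *
                ((∑ i, q i * ((x i : ℝ) - a i) : ℝ) : ℂ)) * ((‖u x‖ ^ 2 : ℝ) : ℂ) -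
              ((t / (σ ^ 2 * V) *
                ((σ ^ 2 * V * ∑' x : Zd d, Real.cos (∑ i, q i * x i) * ‖w x‖ ^ 2) /
                (1 - σ ^ 2 * V * ∑' x : Zd d, Real.cos (∑ i, q i * x i) * ‖w x‖ ^ 2)) : ℝ) : ℂ)‖ ≤
              |σ| ^ (1 / 100 : ℝ)) ∧
          (c ≤ (GF (F0 d) (E : ℂ)).im → ∀ κ : Fin d → ℝ,
            ∑ i, κ i ^ 2 ≤ |σ| ^ (-(1 / 500) : ℝ) →
            ‖(t : ℂ) * ∑' x : Zd d, Complex.exp (Complex.I *
                ((∑ i, κ i * Real.sqrt (t * (σ ^ 2 * V)) * ((x i : ℝ) - a i) : ℝ) : ℂ)) *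
                  ((‖u x‖ ^ 2 : ℝ) : ℂ) -
              (((GF (F0 d) (E : ℂ)).im / (1 + (∑ i, κ i ^ 2) *
                (GF (Pool.Agent.TH794.QD.F1 d) (E : ℂ)).im / (GF (F0 d) (E : ℂ)).im ^ 2) : ℝ) :
                  ℂ)‖ ≤ |σ| ^ (1 / 200 : ℝ)) := by
  have hO : S_OSC := Pool.Agent.W918.BK.Osc.osc
  obtain ⟨s0, hs0, h⟩ := coreS d hd A v (c / 2) hA hv (by linarith)
  obtain ⟨Y0, hY0⟩ := Filter.eventually_atTop.1 (numDf d A v c (C2D d A) hc)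
  refine ⟨min s0 (Real.exp (-Y0)), lt_min hs0 (Real.exp_pos _), ?_⟩
  intro μ hμ htail M V hM hV hvV σ hσ hσ0 t ht
  obtain ⟨Y, hY⟩ : ∃ Y, Y = Real.log (1 / |σ|) := ⟨_, rfl⟩
  have hlog : Real.log |σ| = -Y := by
    rw [hY, one_div, Real.log_inv, neg_neg]
  have hYY : Y0 ≤ Y := by
    have h1 := Real.log_le_log hσ (hσ0.trans (min_le_right _ _))
    rw [Real.log_exp, hlog] at h1
    linarith
  have hN := hY0 Y hYY
  have hrp : ∀ p q : ℝ, q = -p → |σ| ^ p = Real.exp (q * Y) := by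
    intro p q hpq
    rw [Real.rpow_def_of_pos hσ, hlog, hpq]
    congr 1
    ring
  have e2 : |σ| ^ (81 / 40 : ℝ) = Real.exp (-(81 / 40) * Y) := hrp _ _ rfl
  have e4 : |σ| ^ (1 / 100 : ℝ) = Real.exp (-(1 / 100) * Y) := hrp _ _ rfl
  have e5 : |σ| ^ (1 / 200 : ℝ) = Real.exp (-(1 / 200) * Y) := hrp _ _ rfl
  have e6 : |σ| ^ (-(1 / 500) : ℝ) = Real.exp (Y / 500) := by
    rw [Real.rpow_def_of_pos hσ, hlog]
    congr 1
    ring
  have e3 : |σ| = Real.exp (-Y) := by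
    rw [← hlog, Real.exp_log hσ]
  -- the moments
  have hmom := Pool.Agent.TH791.GR.moments μ A 0 hA le_rfl htail M V _ _ hM hV rfl rfl
  obtain ⟨-, -, -, hMA, hVA⟩ := hmom
  obtain ⟨G, hG, hP, hb⟩ := h μ hμ htail M V hM hV hvV σ hσ (hσ0.trans (min_le_left _ _))
  refine ⟨G, hG, hP, fun ξ hξ a ha E u hu => ⟨?_, ?_⟩⟩
  · intro γ hγ w hw hw0 q
    exact hb ξ hξ a ha t ht E γ (by linarith) w hw hw0 u hu q
  · intro hE κ hκ
    rw [e6] at hκ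
    rw [e5]
    exact diff_step hO d hd A v c Y σ V M t E hA hv hc hN e3 hvV hVA hMA (by rw [ht, e2]) hE
      (fun q => (t : ℂ) * ∑' x : Zd d, Complex.exp (Complex.I *
                ((∑ i, q i * ((x i : ℝ) - a i) : ℝ) : ℂ)) * ((‖u x‖ ^ 2 : ℝ) : ℂ))
      (fun γ hγ w hw hw0 q => by
        rw [← e4]
        exact hb ξ hξ a ha t ht E γ hγ w hw hw0 u hu q) κ hκ

end Pool.Agent.TH791.QD
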