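import Pool.Agent.TH794.LL2.Lat2

/-! Existence and uniqueness of the Green function, any real potential. -/

set_option autoImplicit false
set_option linter.unusedSectionVars false

open scoped BigOperators Topology
open Filter

namespace Pool.Agent.TH791.QD

open Pool.Agent.W788.LD.Spec (S symm summ_mul)
open Pool.Agent.H4R2.LO (Zd)

variable {d : ℕ}

/-- the Green function of the sum of the neighbours plus `V` -/
structure GS (d : ℕ) (V : Zd d → ℝ) (z : ℂ) (a : Zd d) (u : Zd d → ℂ) : Prop where
  ss : Summable fun x => ‖u x‖ ^ 2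
  eq : ∀ x, S u x + (V x : ℂ) * u x - z * u x = if x = a then 1 else 0

theorem S_conj (u : Zd d → ℂ) (x : Zd d) :
    S (fun x => (starRingEnd ℂ) (u x)) x = (starRingEnd ℂ) (S u x) := by
  unfold S
  simp only [map_sum, map_add]

theorem S_add (u v : Zd d → ℂ) (x : Zd d) : S (fun x => u x + v x) x = S u x + S v x := by
  unfold S
  rw [← Finset.sum_add_distrib]
  exact Finset.sum_congr rfl fun i _ => by ring

theorem S_smul (c : ℂ) (u : Zd d → ℂ) (x : Zd d) : S (fun x => c * u x) x = c * S u x := by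
  unfold S
  rw [Finset.mul_sum]
  exact Finset.sum_congr rfl fun i _ => by ring

/-- the resolvent identity -/
theorem pair (V : Zd d → ℝ) (z z' : ℂ) (f f' u u' : Zd d → ℂ) (hu : Summable fun x => ‖u x‖ ^ 2)
    (hu' : Summable fun x => ‖u' x‖ ^ 2)
    (he : ∀ x, S u x + (V x : ℂ) * u x - z * u x = f x)
    (he' : ∀ x, S u' x + (V x : ℂ) * u' x - z' * u' x = f' x) :
    HasSum (fun x => u x * f' x - f x * u' x) ((z - z') * ∑' x, u x * u' x) := by
  have hc : Summable fun x => ‖(fun x => (starRingEnd ℂ) (u x)) x‖ ^ 2 := by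
    refine hu.congr fun x => ?_
    simp only [Complex.norm_conj]
  obtain ⟨s1, s2, e1⟩ := symm (fun x => (starRingEnd ℂ) (u x)) u' hc hu'
  simp only [S_conj, Complex.conj_conj] at s1 s2 e1
  have s3 := summ_mul (fun x => (starRingEnd ℂ) (u x)) u' hc hu'
  simp only [Complex.conj_conj] at s3
  have h1 := (s1.hasSum.sub s2.hasSum).add (s3.hasSum.mul_left (z - z'))
  rw [e1, sub_self, zero_add] at h1
  have e2 : (fun x => u x * f' x - f x * u' x) =
      fun b => u b * S u' b - S u b * u' b + (z - z') * (u b * u' b) := by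
    funext x
    linear_combination u x * (-he' x) + u' x * he x
  rw [e2]
  exact h1

/-- the energy identity -/
theorem energy (V : Zd d → ℝ) (z : ℂ) (f u : Zd d → ℂ) (hu : Summable fun x => ‖u x‖ ^ 2)
    (he : ∀ x, S u x + (V x : ℂ) * u x - z * u x = f x) :
    HasSum (fun x => -((starRingEnd ℂ) (u x) * f x).im) (z.im * ∑' x, ‖u x‖ ^ 2) := by
  have hc : Summable fun x => ‖(fun x => (starRingEnd ℂ) (u x)) x‖ ^ 2 := by
    refine hu.congr fun x => ?_
    simp only [Complex.norm_conj]
  have he2 : ∀ x, S (fun x => (starRingEnd ℂ) (u x)) x + (V x : ℂ) * (starRingEnd ℂ) (u x) -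
      (starRingEnd ℂ) z * (starRingEnd ℂ) (u x) = (starRingEnd ℂ) (f x) := by
    intro x
    rw [S_conj, ← he x]
    simp
  have h1 := pair V z ((starRingEnd ℂ) z) f (fun x => (starRingEnd ℂ) (f x)) u
    (fun x => (starRingEnd ℂ) (u x)) hu hc he he2
  have h2 : ∑' x, u x * (starRingEnd ℂ) (u x) = ((∑' x, ‖u x‖ ^ 2 : ℝ) : ℂ) := by
    rw [Complex.ofReal_tsum]
    refine tsum_congr fun x => ?_
    rw [Complex.mul_conj, Complex.normSq_eq_norm_sq]
  rw [h2] at h1
  have h3 := (Complex.hasSum_im h1).div_const 2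
  have e3 : (fun x => -((starRingEnd ℂ) (u x) * f x).im) =
      fun x => (u x * (starRingEnd ℂ) (f x) - f x * (starRingEnd ℂ) (u x)).im / 2 := by
    funext x
    have : (u x * (starRingEnd ℂ) (f x) - f x * (starRingEnd ℂ) (u x)).im =
        -(2 * ((starRingEnd ℂ) (u x) * f x).im) := by
      simp only [Complex.sub_im, Complex.mul_im, Complex.conj_re, Complex.conj_im]
      ring
    rw [this]
    ring
  have e4 : z.im * ∑' x, ‖u x‖ ^ 2 =
      ((z - (starRingEnd ℂ) z) * ((∑' x, ‖u x‖ ^ 2 : ℝ) : ℂ)).im / 2 := by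
    rw [Complex.im_mul_ofReal]
    simp only [Complex.sub_im, Complex.conj_im]
    ring
  rw [e3, e4]
  exact h3

theorem GS.ward {V : Zd d → ℝ} {z : ℂ} {a : Zd d} {u : Zd d → ℂ} (h : GS d V z a u) :
    z.im * ∑' x, ‖u x‖ ^ 2 = (u a).im := by
  have h1 := energy V z _ u h.ss h.eq
  have h2 : HasSum (fun x => -((starRingEnd ℂ) (u x) * (if x = a then 1 else 0)).im)
      (-((starRingEnd ℂ) (u a) * (if a = a then 1 else 0)).im) := by
    apply hasSum_single a
    intro x hx
    rw [if_neg hx]
    simp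
  have h3 := h1.unique h2
  rw [h3]
  simp

theorem homog {V : Zd d → ℝ} {z : ℂ} (hz : 0 < z.im) (u : Zd d → ℂ)
    (hu : Summable fun x => ‖u x‖ ^ 2)
    (he : ∀ x, S u x + (V x : ℂ) * u x - z * u x = 0) (x : Zd d) : u x = 0 := by
  have h1 := energy V z (fun _ => 0) u hu he
  simp only [mul_zero, Complex.zero_im, neg_zero] at h1
  have h2 := h1.unique hasSum_zero
  have h3 : ∑' x, ‖u x‖ ^ 2 = 0 := by
    rcases mul_eq_zero.1 h2 with h | h
    · exact absurd h hz.ne'
    · exact h
  have h4 := hu.le_tsum x fun y _ => sq_nonneg _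
  rw [h3] at h4
  exact norm_eq_zero.1 (pow_eq_zero_iff (two_ne_zero)|>.1 (le_antisymm h4 (sq_nonneg _)))

theorem GS.unique {V : Zd d → ℝ} {z : ℂ} (hz : 0 < z.im) {a : Zd d} {u v : Zd d → ℂ}
    (hu : GS d V z a u) (hv : GS d V z a v) : u = v := by
  funext x
  have hs : Summable fun x => ‖(fun x => u x + (-1) * v x) x‖ ^ 2 := by
    refine Summable.of_nonneg_of_le (fun x => sq_nonneg _) (fun x => ?_)
      ((hu.ss.mul_left 2).add (hv.ss.mul_left 2))
    have h1 := norm_add_le (u x) ((-1) * v x)
    rw [norm_mul, norm_neg, norm_one, one_mul] at h1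
    simp only
    nlinarith [sq_nonneg (‖u x‖ - ‖v x‖), norm_nonneg (u x + (-1) * v x)]
  have h := homog (V := V) hz (fun x => u x + (-1) * v x) hs (fun x => by
    have h1 := hu.eq x
    have h2 := hv.eq x
    rw [S_add, S_smul]
    linear_combination h1 - h2) x
  linear_combination h

/-- extension by zero -/
noncomputable def ext (B : Finset (Zd d)) (v : B → ℂ) (x : Zd d) : ℂ :=
  if h : x ∈ B then v ⟨x, h⟩ else 0

theorem ext_add (B : Finset (Zd d)) (v w : B → ℂ) (x : Zd d) :
    ext B (v + w) x = ext B v x + ext B w x := by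
  unfold ext
  split_ifs <;> simp

theorem ext_smul (B : Finset (Zd d)) (c : ℂ) (v : B → ℂ) (x : Zd d) :
    ext B (c • v) x = c * ext B v x := by
  unfold ext
  split_ifs <;> simp

theorem ext_summable (B : Finset (Zd d)) (v : B → ℂ) : Summable fun x => ‖ext B v x‖ ^ 2 := by
  apply summable_of_ne_finset_zero (s := B)
  intro x hx
  unfold ext
  rw [dif_neg hx, norm_zero]
  norm_num

/-- the finite volume problem -/
noncomputable def fv (V : Zd d → ℝ) (z : ℂ) (B : Finset (Zd d)) : (B → ℂ) →ₗ[ℂ] (B → ℂ) where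
  toFun v x := S (ext B v) x + (V x : ℂ) * ext B v x - z * ext B v x
  map_add' v w := by
    funext x
    simp only [Pi.add_apply]
    have h1 : ext B (v + w) = fun x => ext B v x + ext B w x := funext (ext_add B v w)
    rw [h1, S_add]
    ring
  map_smul' c v := by
    funext x
    simp only [Pi.smul_apply, smul_eq_mul, RingHom.id_apply]
    have h1 : ext B (c • v) = fun x => c * ext B v x := funext (ext_smul B c v)
    rw [h1, S_smul]
    ring

theorem fv_energy (V : Zd d → ℝ) (z : ℂ) (B : Finset (Zd d)) (v : B → ℂ) :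
    z.im * ∑' x, ‖ext B v x‖ ^ 2 = ∑ x : B, -((starRingEnd ℂ) (v x) * fv V z B v x).im := by
  have h1 := energy V z (fun x => S (ext B v) x + (V x : ℂ) * ext B v x - z * ext B v x)
    (ext B v) (ext_summable B v) (fun x => rfl)
  have h2 : HasSum (fun x => -((starRingEnd ℂ) (ext B v x) *
      (S (ext B v) x + (V x : ℂ) * ext B v x - z * ext B v x)).im)
      (∑ x ∈ B, -((starRingEnd ℂ) (ext B v x) *
      (S (ext B v) x + (V x : ℂ) * ext B v x - z * ext B v x)).im) := by
    apply hasSum_sum_of_ne_finset_zero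
    intro x hx
    have : ext B v x = 0 := by
      unfold ext
      rw [dif_neg hx]
    rw [this]
    simp
  rw [h1.unique h2, ← Finset.sum_coe_sort B]
  refine Finset.sum_congr rfl fun x _ => ?_
  have : ext B v x = v x := by
    unfold ext
    rw [dif_pos x.2]
  rw [this]
  simp only [fv, LinearMap.coe_mk, AddHom.coe_mk]
  rw [this]

theorem fv_sol (V : Zd d → ℝ) (z : ℂ) (hz : 0 < z.im) (a : Zd d) (B : Finset (Zd d)) :
    ∃ u : Zd d → ℂ, (Summable fun x => ‖u x‖ ^ 2) ∧ ∑' x, ‖u x‖ ^ 2 ≤ (z.im⁻¹) ^ 2 ∧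
      ∀ x ∈ B, S u x + (V x : ℂ) * u x - z * u x = if x = a then 1 else 0 := by
  have hinj : Function.Injective (fv V z B) := by
    rw [← LinearMap.ker_eq_bot, LinearMap.ker_eq_bot']
    intro v hv
    have h1 := fv_energy V z B v
    rw [hv] at h1
    simp only [Pi.zero_apply, mul_zero, Complex.zero_im, neg_zero, Finset.sum_const_zero] at h1
    have h3 : ∑' x, ‖ext B v x‖ ^ 2 = 0 := by
      rcases mul_eq_zero.1 h1 with h | h
      · exact absurd h hz.ne'
      · exact h
    funext x
    have h4 := (ext_summable B v).le_tsum x.1 fun y _ => sq_nonneg _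
    rw [h3] at h4
    have h5 : ext B v x = 0 :=
      norm_eq_zero.1 (pow_eq_zero_iff (two_ne_zero)|>.1 (le_antisymm h4 (sq_nonneg _)))
    have : ext B v x = v x := by
      unfold ext
      rw [dif_pos x.2]
    rw [this] at h5
    exact h5
  have hsur := LinearMap.injective_iff_surjective.1 hinj
  obtain ⟨v, hv⟩ := hsur fun x => if x.1 = a then 1 else 0
  refine ⟨ext B v, ext_summable B v, ?_, fun x hx => ?_⟩
  · have h1 := fv_energy V z B v
    rw [hv] at h1
    obtain ⟨N, hN⟩ : ∃ N, N = ∑' x, ‖ext B v x‖ ^ 2 := ⟨_, rfl⟩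
    have hN0 : 0 ≤ N := by
      rw [hN]
      exact tsum_nonneg fun x => sq_nonneg _
    rw [← hN] at h1 ⊢
    have h2 : ∑ x : B, -((starRingEnd ℂ) (v x) * (if x.1 = a then 1 else 0)).im ≤ Real.sqrt N := by
      by_cases ha : a ∈ B
      · rw [Finset.sum_eq_single (⟨a, ha⟩ : B)]
        · rw [if_pos rfl, mul_one, Complex.conj_im, neg_neg]
          refine (le_abs_self _).trans ((Complex.abs_im_le_norm _).trans ?_)
          apply Real.le_sqrt_of_sq_le
          have h4 := (ext_summable B v).le_tsum a fun y _ => sq_nonneg _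
          rw [← hN] at h4
          have : ext B v a = v ⟨a, ha⟩ := by
            unfold ext
            rw [dif_pos ha]
          rw [this] at h4
          exact h4
        · intro x _ hx
          have hx' : x.1 ≠ a := fun h => hx (Subtype.ext h)
          rw [if_neg hx']
          simp
        · intro h
          exact absurd (Finset.mem_univ _) h
      · rw [Finset.sum_eq_zero]
        · exact Real.sqrt_nonneg _
        · intro x _
          have hx' : x.1 ≠ a := fun h => ha (h ▸ x.2)
          rw [if_neg hx']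
          simp
    rw [← h1] at h2
    have h3 : Real.sqrt N ≤ z.im⁻¹ := by
      rcases (Real.sqrt_nonneg N).eq_or_lt with h | h
      · rw [← h]
        positivity
      · have e1 : z.im * (Real.sqrt N * Real.sqrt N) ≤ Real.sqrt N := by
          rw [Real.mul_self_sqrt hN0]
          exact h2
        rw [← mul_assoc] at e1
        have e2 : z.im * Real.sqrt N ≤ 1 := by
          have : z.im * Real.sqrt N * Real.sqrt N ≤ 1 * Real.sqrt N := by linarith
          exact le_of_mul_le_mul_right this h
        rw [← one_div, le_div_iff₀ hz]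
        linarith
    calc N = Real.sqrt N ^ 2 := (Real.sq_sqrt hN0).symm
      _ ≤ _ := pow_le_pow_left₀ (Real.sqrt_nonneg _) h3 2
  · have h1 := congrFun hv ⟨x, hx⟩
    simp only [fv, LinearMap.coe_mk, AddHom.coe_mk] at h1
    exact h1

/-- **existence** -/
theorem GS.exists (V : Zd d → ℝ) (z : ℂ) (hz : 0 < z.im) (a : Zd d) : ∃ u, GS d V z a u := by
  choose U hU using fun B : Finset (Zd d) => fv_sol V z hz a B
  obtain ⟨F, hF⟩ : ∃ F : Ultrafilter (Finset (Zd d)), (F : Filter (Finset (Zd d))) ≤ atTop :=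
    Ultrafilter.exists_le atTop
  have hb : ∀ (B : Finset (Zd d)) x, U B x ∈ Metric.closedBall (0 : ℂ) (z.im⁻¹) := by
    intro B x
    rw [mem_closedBall_zero_iff]
    have h1 := (hU B).1.le_tsum x fun y _ => sq_nonneg _
    have h2 := h1.trans (hU B).2.1
    exact (sq_le_sq₀ (norm_nonneg _) (by positivity)).1 h2
  have hlim : ∀ x, ∃ y : ℂ, Tendsto (fun B => U B x) F (𝓝 y) := by
    intro x
    obtain ⟨y, -, hy⟩ := (isCompact_closedBall (0 : ℂ) (z.im⁻¹)).ultrafilter_le_nhds
      (F.map fun B => U B x) (by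
        rw [le_principal_iff]
        exact Filter.mem_map.2 (Filter.Eventually.of_forall fun B => hb B x))
    exact ⟨y, hy⟩
  choose u hu using hlim
  refine ⟨u, ?_, fun x => ?_⟩
  · apply summable_of_sum_le (c := (z.im⁻¹) ^ 2) (fun x => sq_nonneg _)
    intro A
    refine le_of_tendsto (f := fun B => ∑ x ∈ A, ‖U B x‖ ^ 2) (x := (F : Filter _))
      (tendsto_finsetSum _ fun x _ => ((hu x).norm.pow 2)) (Filter.Eventually.of_forall fun B => ?_)
    exact ((hU B).1.sum_le_tsum A fun y _ => sq_nonneg _).trans (hU B).2.1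
  · have h1 : Tendsto (fun B => S (U B) x + (V x : ℂ) * U B x - z * U B x) F
        (𝓝 (S u x + (V x : ℂ) * u x - z * u x)) := by
      refine Tendsto.sub (Tendsto.add ?_ ((hu x).const_mul _)) ((hu x).const_mul _)
      unfold S
      exact tendsto_finsetSum _ fun i _ => (hu _).add (hu _)
    have h2 : ∀ᶠ B in (F : Filter (Finset (Zd d))), S (U B) x + (V x : ℂ) * U B x - z * U B x =
        if x = a then 1 else 0 := by
      have h3 : ∀ᶠ B in (F : Filter (Finset (Zd d))), x ∈ B := by
        apply hF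
        filter_upwards [eventually_ge_atTop ({x} : Finset (Zd d))] with B hB
        exact hB (Finset.mem_singleton_self x)
      filter_upwards [h3] with B hB
      exact (hU B).2.2 x hB
    exact tendsto_nhds_unique (h1.congr' h2) tendsto_const_nhds

end Pool.Agent.TH791.QD
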