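import Pool.Agent.W788.BK.Num

/-! The numbers for the unbounded law, quadratic functional. -/

set_option autoImplicit false

open Filter Real

namespace Pool.Agent.TH791.QD

open Pool.Agent.W788.BK.Num

/-- the numbers -/
structure NumF (d : ℕ) (A v y0 Y : ℝ) : Prop where
  f1 : 1 ≤ Y
  f2 : y0 ≤ 135 / 136 * Y
  f3 : exp (Y / 150) + 1 ≤ exp (135 / 136 * Y / 100)
  f4 : 7 * Y ≤ exp (Y / 150)
  f6 : (2 * d + 1) * exp (Y / 150) + 2 * A ≤ 1 / 2 * exp (Y / 136)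
  f7 : 20 * Y + (5 * A + 2 * A ^ 2) ≤ 1 / 2 * exp (Y / 136) / 2
  f8 : 2 / v * exp (-20 * Y) ≤ 1
  f9 : 2 * exp (-17 * Y) ≤ exp (-(1 / 40) * Y)
  f10 : 3 * exp (-(297 / 27200) * Y) ≤ exp (-(1 / 100) * Y)
  f11 : 3 / v * exp (-(1 / 40) * Y) ≤ exp (-(1 / 100) * Y)
  f12 : 3 * (4 * (1 + 2 * A) / v ^ 2) * exp (-15 * Y) ≤ exp (-(1 / 100) * Y)

theorem numF (d : ℕ) (A v y0 : ℝ) (hA : 0 < A) : ∀ᶠ Y : ℝ in atTop, NumF d A v y0 Y := by
  filter_upwards [eventually_ge_atTop 1, eventually_ge_atTop (136 / 135 * y0),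
    ev3 2 (1 / 150) (27 / 2720) (by norm_num), ev1 7 (1 / 150) 1 (by norm_num),
    ev3 (2 * ((2 * d + 1) + 2 * A)) (1 / 150) (1 / 136) (by norm_num),
    ev1 (4 * (20 + (5 * A + 2 * A ^ 2))) (1 / 136) 1 (by norm_num),
    ev3 (2 / v) (-20) 0 (by norm_num), ev3 2 (-17) (-(1 / 40)) (by norm_num),
    ev3 3 (-(297 / 27200)) (-(1 / 100)) (by norm_num),
    ev3 (3 / v) (-(1 / 40)) (-(1 / 100)) (by norm_num),
    ev3 (3 * (4 * (1 + 2 * A) / v ^ 2)) (-15) (-(1 / 100)) (by norm_num)] with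
    Y h1 h2 h3 h4 h5 h6 h7 h8 h9 h10 h11
  have e1 : (1 / 150 : ℝ) * Y = Y / 150 := by ring
  have e2 : (1 / 136 : ℝ) * Y = Y / 136 := by ring
  have e3 : (27 / 2720 : ℝ) * Y = 135 / 136 * Y / 100 := by ring
  rw [e1] at h3 h4 h5
  rw [e2] at h5 h6
  rw [e3] at h3
  rw [zero_mul, exp_zero] at h7
  rw [pow_one] at h4 h6
  have hX1 : 1 ≤ exp (Y / 150) := one_le_exp (by linarith)
  refine ⟨h1, by linarith, by linarith, h4, ?_, ?_, h7, h8, h9, h10, h11⟩
  · have : 2 * A ≤ 2 * A * exp (Y / 150) := le_mul_of_one_le_right (by linarith) hX1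
    linarith
  · have : (5 * A + 2 * A ^ 2) ≤ (5 * A + 2 * A ^ 2) * Y :=
      le_mul_of_one_le_right (by positivity) h1
    linarith

/-- the consequences for the clipped law -/
theorem numF2 (d : ℕ) (A v y0 Y b X : ℝ) (hA : 0 < A) (hN : NumF d A v y0 Y)
    (hb : b = 1 / 2 * exp (Y / 136)) (hX : X = exp (Y / 150)) :
    2 * (exp X + exp (7 * (135 / 136 * Y))) + 1 ≤ exp (2 * X) ∧
    exp (2 * X) ^ d * (A * exp (-b)) ≤ 1 / 2 * exp (-X) ∧
    (2 * A * (1 + b) + 2 * A ^ 2 + A) * exp (-b) ≤ exp (-20 * Y) ∧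
    exp (-exp (135 / 136 * Y / 100)) ≤ 1 / 2 * exp (-X) := by
  have hY1 := hN.f1
  have h4 := hN.f4
  have h3 := hN.f3
  have h6 := hN.f6
  have h7 := hN.f7
  rw [← hX] at h3 h4 h6
  rw [← hb] at h6 h7
  have hb0 : 0 < b := by rw [hb]; positivity
  have hX7 : 7 ≤ X := by linarith
  have hhalf : exp (-1) ≤ 1 / 2 := by
    rw [exp_neg, one_div]
    apply inv_anti₀ (by norm_num)
    have := exp_one_gt_d9
    linarith
  refine ⟨?_, ?_, ?_, ?_⟩
  · have e1 : exp (7 * (135 / 136 * Y)) ≤ exp X := exp_le_exp.2 (by linarith)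
    have e2 : exp (2 * X) = exp X * exp X := by
      rw [← exp_add]
      ring_nf
    have e3 : 8 ≤ exp X := by
      have := add_one_le_exp X
      linarith
    rw [e2]
    nlinarith
  · have hA' : A ≤ 1 / 2 * exp (2 * A) := by
      have := add_one_le_exp (2 * A)
      linarith
    rw [← exp_nat_mul]
    calc exp (d * (2 * X)) * (A * exp (-b)) ≤ exp (d * (2 * X)) * (1 / 2 * exp (2 * A) * exp (-b)) := by
          gcongr
      _ = 1 / 2 * exp (d * (2 * X) + 2 * A + -b) := by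
          rw [exp_add, exp_add]
          ring
      _ ≤ 1 / 2 * exp (-X) := by
          have : (d : ℝ) * (2 * X) + 2 * A + -b ≤ -X := by linarith
          gcongr
  · have e1 : exp (-b) = exp (-(b / 2)) * exp (-(b / 2)) := by
      rw [← exp_add]
      ring_nf
    have e5 : 0 < exp (-(b / 2)) := exp_pos _
    have e2 : (1 + b) * exp (-(b / 2)) ≤ 2 := by
      have e3 := add_one_le_exp (b / 2)
      have e4 : exp (b / 2) * exp (-(b / 2)) = 1 := by
        rw [← exp_add]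
        simp
      nlinarith
    have e3 : exp (-(b / 2)) ≤ 1 := exp_le_one_iff.2 (by linarith)
    have e6 : (2 * A * (1 + b) + 2 * A ^ 2 + A) * exp (-(b / 2)) ≤ 5 * A + 2 * A ^ 2 := by
      have e7 : 2 * A * ((1 + b) * exp (-(b / 2))) ≤ 2 * A * 2 := by gcongr
      have e8 : (2 * A ^ 2 + A) * exp (-(b / 2)) ≤ (2 * A ^ 2 + A) * 1 := by gcongr
      linarith
    have e9 : 5 * A + 2 * A ^ 2 ≤ exp (5 * A + 2 * A ^ 2) := by
      have := add_one_le_exp (5 * A + 2 * A ^ 2)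
      linarith
    calc (2 * A * (1 + b) + 2 * A ^ 2 + A) * exp (-b) =
        (2 * A * (1 + b) + 2 * A ^ 2 + A) * exp (-(b / 2)) * exp (-(b / 2)) := by
          rw [e1]
          ring
      _ ≤ exp (5 * A + 2 * A ^ 2) * exp (-(b / 2)) :=
          mul_le_mul_of_nonneg_right (e6.trans e9) e5.le
      _ = exp (5 * A + 2 * A ^ 2 + -(b / 2)) := (exp_add _ _).symm
      _ ≤ exp (-20 * Y) := exp_le_exp.2 (by linarith)
  · calc exp (-exp (135 / 136 * Y / 100)) ≤ exp (-1 + -X) := exp_le_exp.2 (by linarith)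
      _ = exp (-1) * exp (-X) := exp_add _ _
      _ ≤ 1 / 2 * exp (-X) := by gcongr

end Pool.Agent.TH791.QD
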