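import Pool.Agent.TH791.QD.ParQ
import Pool.Agent.TH791.QD.NumF
import Pool.Agent.TH791.GR.Clip
import Pool.Agent.W193.BK.ES
import Pool.Agent.W240.BK.Var
import Pool.Agent.W540.BK.Fac
import Pool.Agent.W240.BK.Fluct
import Pool.Agent.W918.BK.Osc
import Pool.Agent.W240.BK.Two
import Pool.Agent.W465.BK.QB
import Pool.Agent.W475.BK.Low
import Pool.Agent.W975.BK.Sup
import Pool.Agent.W790.BK.ADM
import Pool.Agent.W475.BK.Inv
import Pool.Agent.W261.BK.Third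

/-! The law of the position for unbounded disorder. -/

set_option autoImplicit false
set_option linter.unusedSectionVars false

open scoped BigOperators Topology
open MeasureTheory Filter

namespace Pool.Agent.TH791.QD

open Pool.Agent.W788.BK
open Pool.Agent.H4R2.LO (Zd)
open Pool.Agent.W788.BK.Num
open Pool.Agent.TH794.LL2
open Pool.Agent.TH794.GBK (clip clip_abs clip_eq clip_meas)
open Pool.Agent.TH791.GR (clipped' moments)

theorem prof_diff (t t0 s2 s2e S : ℝ) (ht : 0 < t) (ht0 : 0 < t0) (hs2 : 0 < s2)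
    (hs2e : 0 < s2e) (hS : 0 ≤ S) :
    |(t / s2e) / (t / t0 + s2e * S) - (t / s2) / (t / t0 + s2 * S)| ≤
      2 * t0 * |s2e - s2| / (s2 * s2e) := by
  obtain ⟨r, hr⟩ : ∃ r, r = t / t0 := ⟨_, rfl⟩
  have hr0 : 0 < r := by rw [hr]; positivity
  rw [← hr]
  obtain ⟨D1, hD1⟩ : ∃ D1, D1 = r + s2 * S := ⟨_, rfl⟩
  obtain ⟨D2, hD2⟩ : ∃ D2, D2 = r + s2e * S := ⟨_, rfl⟩
  rw [← hD1, ← hD2]
  have h1 : r ≤ D1 := by
    rw [hD1]
    have : 0 ≤ s2 * S := by positivity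
    linarith
  have h2 : r ≤ D2 := by
    rw [hD2]
    have : 0 ≤ s2e * S := by positivity
    linarith
  have h10 : 0 < D1 := by linarith
  have h20 : 0 < D2 := by linarith
  obtain ⟨P, hP⟩ : ∃ P, P = r + (s2 + s2e) * S := ⟨_, rfl⟩
  have hP0 : 0 ≤ P := by rw [hP]; positivity
  have hPle : P ≤ D1 + D2 := by
    rw [hP, hD1, hD2]
    linarith
  have e1 : (t / s2e) / D2 - (t / s2) / D1 =
      ((s2 - s2e) * P) * (t / (s2 * s2e)) / (D1 * D2) := by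
    have e2 : (s2 - s2e) * P = s2 * D1 - s2e * D2 := by
      rw [hP, hD1, hD2]
      ring
    rw [e2]
    field_simp
  rw [e1, abs_div, abs_mul, abs_mul, abs_of_nonneg hP0,
    abs_of_pos (by positivity : 0 < t / (s2 * s2e)), abs_of_pos (by positivity : 0 < D1 * D2),
    abs_sub_comm]
  have e3 : P / (D1 * D2) ≤ 2 * (t0 / t) := by
    have e4 : (D1 + D2) / (D1 * D2) = D1⁻¹ + D2⁻¹ := by
      field_simp
      ring
    have e5 : r⁻¹ = t0 / t := by rw [hr, inv_div]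
    have e6 : D1⁻¹ ≤ r⁻¹ := inv_anti₀ hr0 h1
    have e7 : D2⁻¹ ≤ r⁻¹ := inv_anti₀ hr0 h2
    have e8 : P / (D1 * D2) ≤ (D1 + D2) / (D1 * D2) := by gcongr
    rw [e4] at e8
    rw [e5] at e6 e7
    linarith
  calc |s2e - s2| * P * (t / (s2 * s2e)) / (D1 * D2) =
      |s2e - s2| * (t / (s2 * s2e)) * (P / (D1 * D2)) := by ring
    _ ≤ |s2e - s2| * (t / (s2 * s2e)) * (2 * (t0 / t)) := by gcongr
    _ = _ := by
      field_simp

theorem prof_eq (t t0 s2 S P g N : ℝ) (ht : 0 < t) (ht0 : 0 < t0) (hs2 : 0 < s2)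
    (hward : t0 * N = g) (h0 : t0 = t + s2 * g) (hP : P = s2 * (N - S)) (hS : 0 ≤ S) :
    (t / s2) * (P / (1 - P)) = (t / s2) / (t / t0 + s2 * S) - t / s2 := by
  obtain ⟨D, hD⟩ : ∃ D, D = t / t0 + s2 * S := ⟨_, rfl⟩
  have hD0 : 0 < D := by rw [hD]; positivity
  have e1 : 1 - P = D := by
    have e2 : t / t0 = 1 - s2 * N := by
      rw [div_eq_iff ht0.ne']
      have e3 : (1 - s2 * N) * t0 = t0 - s2 * (t0 * N) := by ring
      rw [e3, hward]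
      linarith
    rw [hD, e2, hP]
    ring
  have e2 : P = 1 - D := by linarith
  rw [e1, ← hD, e2]
  field_simp

theorem gam_err (v V V0 M M0 σ t ε s2 s2e x : ℝ) (γ γe : ℂ) (hv : 0 < v) (hV0 : v / 2 ≤ V0)
    (hσ : 0 < σ) (ht : 0 < t) (hs2 : s2 = σ ^ 2 * V) (hs2e : s2e = σ ^ 2 * V0)
    (hr : s2e * γe.re = σ * (M0 - M) + s2 * γ.re) (hi : s2e * γe.im = t + s2 * γ.im)
    (q1 : |M - M0| ≤ ε) (q2 : |V - V0| ≤ ε) (hγ : ‖γ‖ ≤ t⁻¹)
    (hx : ε * t⁻¹ + ε * σ⁻¹ + t * (σ ^ 2)⁻¹ ≤ 2 * x) : ‖γ - γe‖ ≤ 4 / v * x := by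
  have e1 : ((s2e : ℝ) : ℂ) * (γ - γe) =
      ((s2e - s2 : ℝ) : ℂ) * γ - ((σ * (M0 - M) : ℝ) : ℂ) - ((t : ℝ) : ℂ) * Complex.I := by
    apply Complex.ext
    · simp
      linarith
    · simp
      linarith
  have hs2e0 : 0 < s2e := by
    rw [hs2e]
    have : 0 < V0 := by linarith
    positivity
  have hε0 : 0 ≤ ε := (abs_nonneg _).trans q1
  have h1 : ‖((s2e : ℝ) : ℂ) * (γ - γe)‖ = s2e * ‖γ - γe‖ := by
    rw [norm_mul, Complex.norm_real, Real.norm_of_nonneg hs2e0.le]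
  have h2 : ‖((s2e - s2 : ℝ) : ℂ) * γ - ((σ * (M0 - M) : ℝ) : ℂ) - ((t : ℝ) : ℂ) * Complex.I‖ ≤
      σ ^ 2 * ε * t⁻¹ + σ * ε + t := by
    refine (norm_sub_le _ _).trans (add_le_add ((norm_sub_le _ _).trans (add_le_add ?_ ?_)) ?_)
    · rw [norm_mul, Complex.norm_real, Real.norm_eq_abs]
      have e2 : |s2e - s2| ≤ σ ^ 2 * ε := by
        rw [hs2, hs2e, ← mul_sub, abs_mul, abs_of_nonneg (sq_nonneg σ), abs_sub_comm]
        gcongr
      gcongr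
    · rw [Complex.norm_real, Real.norm_eq_abs, abs_mul, abs_of_pos hσ, abs_sub_comm]
      gcongr
    · rw [norm_mul, Complex.norm_I, mul_one, Complex.norm_real, Real.norm_of_nonneg ht.le]
  rw [← e1, h1] at h2
  have h3 : σ ^ 2 * ε * t⁻¹ + σ * ε + t = σ ^ 2 * (ε * t⁻¹ + ε * σ⁻¹ + t * (σ ^ 2)⁻¹) := by
    field_simp
  have h4 : σ ^ 2 * (v / 2) ≤ s2e := by
    rw [hs2e]
    gcongr
  have h5 : σ ^ 2 * (v / 2) * ‖γ - γe‖ ≤ σ ^ 2 * (2 * x) := by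
    calc σ ^ 2 * (v / 2) * ‖γ - γe‖ ≤ s2e * ‖γ - γe‖ := by gcongr
      _ ≤ _ := h2
      _ = _ := h3
      _ ≤ _ := by gcongr
  have h6 : σ ^ 2 * (v / 2) * (4 / v * x) = σ ^ 2 * (2 * x) := by
    field_simp
    ring
  rw [← h6] at h5
  exact le_of_mul_le_mul_left h5 (by positivity)

theorem diff_err (A v V V0 σ t t0 ε s2 s2e g : ℝ) (hA : 0 < A) (hv : 0 < v) (hV0 : v / 2 ≤ V0)
    (hV : v ≤ V) (hVA : V ≤ 2 * A) (hσ : 0 < σ) (hσ1 : σ ≤ 1) (ht : 0 < t) (ht1 : t ≤ 1)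
    (hs2 : s2 = σ ^ 2 * V) (hs2e : s2e = σ ^ 2 * V0) (q2 : |V - V0| ≤ ε) (hg0 : 0 ≤ g)
    (hg : g ≤ t⁻¹) (h0 : t0 = t + s2 * g) :
    2 * t0 * |s2e - s2| / (s2 * s2e) ≤ 4 * (1 + 2 * A) / v ^ 2 * (ε * (σ ^ 2)⁻¹ * t⁻¹) := by
  have hε0 : 0 ≤ ε := (abs_nonneg _).trans q2
  have e2 : |s2e - s2| ≤ σ ^ 2 * ε := by
    rw [hs2, hs2e, ← mul_sub, abs_mul, abs_of_nonneg (sq_nonneg σ), abs_sub_comm]
    gcongr
  have e3 : t0 ≤ (1 + 2 * A) * t⁻¹ := by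
    have h1 : 1 ≤ t⁻¹ := by
      rw [one_le_inv₀ ht]
      exact ht1
    have h2 : s2 ≤ 2 * A := by
      rw [hs2]
      have h3 : σ ^ 2 ≤ 1 := pow_le_one₀ hσ.le hσ1
      have h4 : 0 < V := by linarith
      have h5 : σ ^ 2 * V ≤ 1 * V := by gcongr
      linarith
    have h3 : s2 * g ≤ 2 * A * t⁻¹ := by
      apply mul_le_mul h2 hg hg0
      linarith
    rw [h0]
    linarith
  have ht00 : 0 ≤ t0 := by
    rw [h0, hs2]
    have : 0 < V := by linarith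
    positivity
  have e4 : σ ^ 2 * v ≤ s2 := by
    rw [hs2]
    gcongr
  have e5 : σ ^ 2 * (v / 2) ≤ s2e := by
    rw [hs2e]
    gcongr
  have e6 : 0 ≤ s2 := le_trans (by positivity) e4
  calc 2 * t0 * |s2e - s2| / (s2 * s2e) ≤
      2 * ((1 + 2 * A) * t⁻¹) * (σ ^ 2 * ε) / ((σ ^ 2 * v) * (σ ^ 2 * (v / 2))) := by gcongr
    _ = _ := by
      field_simp
      ring

theorem fin_num (Y σ t ε : ℝ) (hY : 1 ≤ Y) (hσ : σ = Real.exp (-Y))
    (ht : t = Real.exp (-(81 / 40) * Y)) (hε : ε = Real.exp (-20 * Y))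
    (h9 : 2 * Real.exp (-17 * Y) ≤ Real.exp (-(1 / 40) * Y)) :
    ε * t⁻¹ + ε * σ⁻¹ + t * (σ ^ 2)⁻¹ ≤ 2 * Real.exp (-(1 / 40) * Y) ∧
    t * (σ ^ 2)⁻¹ = Real.exp (-(1 / 40) * Y) ∧
    ε * (σ ^ 2)⁻¹ * t⁻¹ ≤ Real.exp (-15 * Y) := by
  have e1 : σ ^ 2 = Real.exp (-2 * Y) := by
    rw [hσ, ← Real.exp_nat_mul]
    congr 1
    push_cast
    ring
  have a1 : ε * t⁻¹ = Real.exp (-20 * Y + 81 / 40 * Y) := by
    rw [hε, ht, ← Real.exp_neg, ← Real.exp_add]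
    congr 1
    ring
  have a2 : ε * σ⁻¹ = Real.exp (-20 * Y + Y) := by
    rw [hε, hσ, ← Real.exp_neg, ← Real.exp_add]
    congr 1
    ring
  have a3 : t * (σ ^ 2)⁻¹ = Real.exp (-(1 / 40) * Y) := by
    rw [e1, ht, ← Real.exp_neg, ← Real.exp_add]
    congr 1
    ring
  have a4 : ε * (σ ^ 2)⁻¹ * t⁻¹ = Real.exp (-20 * Y + 2 * Y + 81 / 40 * Y) := by
    rw [e1, hε, ht, ← Real.exp_neg, ← Real.exp_neg, ← Real.exp_add, ← Real.exp_add]
    congr 1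
    ring
  have b1 : Real.exp (-20 * Y + 81 / 40 * Y) ≤ Real.exp (-17 * Y) :=
    Real.exp_le_exp.2 (by linarith)
  have b2 : Real.exp (-20 * Y + Y) ≤ Real.exp (-17 * Y) := Real.exp_le_exp.2 (by linarith)
  refine ⟨?_, a3, ?_⟩
  · rw [a1, a2, a3]
    linarith
  · rw [a4]
    exact Real.exp_le_exp.2 (by linarith)

/-- **the law of the position, unbounded disorder** -/
theorem coreQ (d : ℕ) (hd : 3 ≤ d) (A v c : ℝ) (hA : 0 < A) (hv : 0 < v) (hc : 0 < c) :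
    ∃ Y0 : ℝ, 1 ≤ Y0 ∧ ∀ Y : ℝ, Y0 ≤ Y → ∀ (μ : Measure ℝ), IsProbabilityMeasure μ →
      (∀ r : ℝ, 0 ≤ r → μ.real {s | r < |s|} ≤ A * Real.exp (-r)) →
      ∀ M V : ℝ, ∫ s, s ∂μ = M → ∫ s, (s - M) ^ 2 ∂μ = V → v ≤ V →
      ∃ G : Set (Zd d → ℝ), MeasurableSet G ∧
        1 - Real.exp (-Real.exp (Y / 150)) ≤ (Measure.infinitePi fun _ : Zd d => μ).real G ∧
        ∀ ξ ∈ G, ∀ a : Zd d, ‖a‖ ≤ Real.exp (Real.exp (Y / 150)) →
          ∀ (E : ℝ) (γ : ℂ), c ≤ γ.im → ∀ wr wi : Zd d → ℝ,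
          LG d 0 (fun _ => 0) 0 (E - Real.exp (-Y) * M + Real.exp (-Y) ^ 2 * V * γ.re)
            (Real.exp (-(81 / 40) * Y) + Real.exp (-Y) ^ 2 * V * γ.im) wr wi →
          wr 0 = γ.re → wi 0 = γ.im →
          ∀ ur ui : Zd d → ℝ, LG d (Real.exp (-Y)) ξ a E (Real.exp (-(81 / 40) * Y)) ur ui →
          ∀ qq : Fin d → ℝ,
            ‖((Real.exp (-(81 / 40) * Y) : ℝ) : ℂ) *
                ∑' x, ph qq (x - a) * ((ur x ^ 2 + ui x ^ 2 : ℝ) : ℂ) -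
              ((Real.exp (-(81 / 40) * Y) / (Real.exp (-Y) ^ 2 * V) *
                ((Real.exp (-Y) ^ 2 * V * ∑' x : Zd d, Real.cos (∑ i, qq i * x i) *
                  (wr x ^ 2 + wi x ^ 2)) /
                (1 - Real.exp (-Y) ^ 2 * V * ∑' x : Zd d, Real.cos (∑ i, qq i * x i) *
                  (wr x ^ 2 + wi x ^ 2))) : ℝ) : ℂ)‖ ≤
              Real.exp (-(1 / 100) * Y) := by
  obtain ⟨y0, h0⟩ := engineQ Pool.Agent.W193.BK.ES.es
    (Pool.Agent.W261.BK.third Pool.Agent.W540.BK.fac)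
    (Pool.Agent.W240.BK.fluct (Pool.Agent.W240.BK.var Pool.Agent.W193.BK.ES.es))
    Pool.Agent.W475.BK.inv Pool.Agent.W918.BK.Osc.osc Pool.Agent.W975.BK.sup
    (Pool.Agent.W465.BK.qb (Pool.Agent.W240.BK.two Pool.Agent.W918.BK.Osc.osc))
    Pool.Agent.W475.BK.low Pool.Agent.W790.BK.ADM.adm d hd (v / 2) (c / 8)
    (by linarith) (by linarith)
  obtain ⟨Y0, hY0⟩ := Filter.eventually_atTop.1 (numF d A v y0 hA)
  refine ⟨max Y0 1, le_max_right _ _, ?_⟩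
  intro Y hY μ hμ htail M V hM hV hvV
  have hN := hY0 Y ((le_max_left _ _).trans hY)
  obtain ⟨b, hb⟩ : ∃ b, b = 1 / 2 * Real.exp (Y / 136) := ⟨_, rfl⟩
  obtain ⟨X, hX⟩ : ∃ X, X = Real.exp (Y / 150) := ⟨_, rfl⟩
  obtain ⟨y, hy⟩ : ∃ y, y = 135 / 136 * Y := ⟨_, rfl⟩
  obtain ⟨n5, n6, n7, n8⟩ := numF2 d A v y0 Y b X hA hN hb hX
  have hb0 : 0 < b := by rw [hb]; positivity
  have hyy0 : y0 ≤ y := by
    rw [hy]
    exact hN.f2
  have n3 := hN.f3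
  rw [← hX] at n3 ⊢
  rw [← hy] at n5 n8 n3
  have hσb : Real.exp (-1 * y) = 2 * b * Real.exp (-Y) := by
    have e1 : (2 : ℝ) * b * Real.exp (-Y) = Real.exp (Y / 136 + -Y) := by
      rw [Real.exp_add, hb]
      ring
    rw [e1]
    congr 1
    rw [hy]
    ring
  have hσb2 : Real.exp (-2 * y) = 4 * b ^ 2 * Real.exp (-Y) ^ 2 := by
    have e1 : Real.exp (-2 * y) = Real.exp (-1 * y) ^ 2 := by
      rw [← Real.exp_nat_mul]
      congr 1
      push_cast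
      ring
    rw [e1, hσb]
    ring
  have hty : Real.exp (-(51 / 25) * y) = Real.exp (-(81 / 40) * Y) := by
    congr 1
    rw [hy]
    ring
  obtain ⟨R, hR⟩ : ∃ R, R = Real.exp X + Real.exp (7 * y) := ⟨_, rfl⟩
  have hR0 : 0 ≤ R := by rw [hR]; positivity
  rw [← hR] at n5
  obtain ⟨M0, F, hM0b, hM0, hF, hFm, hνp, hνb, hν0, hν2, hG⟩ := clipped' d A X
    b R μ hμ hb0 hR0 n5 n6 hA htail
  obtain ⟨V0, hV0⟩ : ∃ V0, ∫ s, (clip b s - M0) ^ 2 ∂μ = V0 := ⟨_, rfl⟩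
  obtain ⟨q1, q2, q3, q4, q5⟩ := moments μ A b hA hb0.le htail M V M0 V0 hM hV hM0.symm hV0
  have hν2' := hν2 V0 hV0
  obtain ⟨ε, hε⟩ : ∃ ε, ε = Real.exp (-20 * Y) := ⟨_, rfl⟩
  have hε0 : 0 < ε := by rw [hε]; positivity
  rw [← hε] at n7
  have q1' : |M - M0| ≤ ε := by
    refine q1.trans (le_trans ?_ n7)
    apply mul_le_mul_of_nonneg_right _ (Real.exp_pos _).le
    have : 0 ≤ 2 * A * (1 + b) + 2 * A ^ 2 := by positivity
    linarith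
  have q2' : |V - V0| ≤ ε := by
    refine q2.trans (le_trans ?_ n7)
    apply mul_le_mul_of_nonneg_right _ (Real.exp_pos _).le
    linarith
  have hεv : ε ≤ v / 2 := by
    have h1 := hN.f8
    rw [← hε, div_mul_eq_mul_div, div_le_one hv] at h1
    linarith
  have hV0v : v / 2 ≤ V0 := by
    have h1 := (abs_le.1 q2').2
    linarith
  have hV02 : V0 ≤ 2 * V := by
    have h1 := (abs_le.1 q2').1
    linarith
  have hV00 : 0 < V0 := by linarith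
  have hVp : 0 < V := by linarith
  have hVv : v / 2 * Real.exp (-(2 / 135) * y) ≤ V0 / (4 * b ^ 2) := by
    rw [le_div_iff₀ (by positivity)]
    have e1 : v / 2 * Real.exp (-(2 / 135) * y) * (4 * b ^ 2) = v / 2 := by
      have e2 : 4 * b ^ 2 = Real.exp ((2 / 135) * y) := by
        have e3 : 4 * b ^ 2 = Real.exp (Y / 136) ^ 2 := by
          rw [hb]
          ring
        rw [e3, ← Real.exp_nat_mul]
        congr 1
        push_cast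
        rw [hy]
        ring
      rw [e2, mul_assoc, ← Real.exp_add]
      have e4 : -(2 / 135) * y + 2 / 135 * y = 0 := by ring
      rw [e4, Real.exp_zero, mul_one]
    rw [e1]
    exact hV0v
  obtain ⟨G1, hG1, hP1, hL⟩ := h0 y hyy0 _ hνp hνb hν0 _ hν2' hVv
  obtain ⟨G, hGm, hGP, hGG⟩ := hG G1 hG1 (by linarith)
  refine ⟨G, hGm, hGP, ?_⟩
  intro ξ hξ a ha E γ hγc wr wi hw hwr hwi ur ui hu qq
  obtain ⟨p1, p2⟩ := hGG ξ hξ
  -- names
  obtain ⟨σ, hσ⟩ : ∃ σ, σ = Real.exp (-Y) := ⟨_, rfl⟩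
  obtain ⟨t, ht⟩ : ∃ t, t = Real.exp (-(81 / 40) * Y) := ⟨_, rfl⟩
  rw [← hσ] at hw hu hσb hσb2 ⊢
  rw [← ht] at hw hu hty ⊢
  have hσ0 : 0 < σ := by rw [hσ]; positivity
  have ht0 : 0 < t := by rw [ht]; positivity
  obtain ⟨s2e, hs2e⟩ : ∃ s2e, s2e = Real.exp (-2 * y) * (V0 / (4 * b ^ 2)) := ⟨_, rfl⟩
  have hs2e' : s2e = σ ^ 2 * V0 := by
    rw [hs2e, hσb2]
    field_simp
  have hs2e0 : 0 < s2e := by rw [hs2e']; positivity
  obtain ⟨s2, hs2⟩ : ∃ s2, s2 = σ ^ 2 * V := ⟨_, rfl⟩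
  have hs20 : 0 < s2 := by rw [hs2]; positivity
  rw [← hs2] at hw ⊢
  have hLx := hL _ p1
  unfold QLawx at hLx
  rw [← hs2e, hty] at hLx
  obtain ⟨γe, hγe⟩ : ∃ γe : ℂ, γe = ⟨(σ * (M0 - M) + s2 * γ.re) / s2e, (t + s2 * γ.im) / s2e⟩ :=
    ⟨_, rfl⟩
  have hγer : s2e * γe.re = σ * (M0 - M) + s2 * γ.re := by
    rw [hγe]
    simp only
    field_simp
  have hγei : s2e * γe.im = t + s2 * γ.im := by
    rw [hγe]
    simp only
    field_simp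
  have hγi0 : 0 < γ.im := by linarith
  obtain ⟨t0, ht0'⟩ : ∃ t0, t0 = t + s2 * γ.im := ⟨_, rfl⟩
  have ht00 : 0 < t0 := by rw [ht0']; positivity
  have hγe4 : 4 * (c / 8) ≤ γe.im := by
    have e1 : s2e * (c / 2) ≤ s2e * γe.im := by
      rw [hγei]
      have e2 : s2e ≤ 2 * s2 := by
        rw [hs2e', hs2]
        nlinarith [sq_nonneg σ]
      have e3 : s2e * (c / 2) ≤ 2 * s2 * (c / 2) := by gcongr
      have e4 : s2 * c ≤ s2 * γ.im := by gcongr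
      linarith
    have e2 := le_of_mul_le_mul_left e1 hs2e0
    linarith
  have hwe : LG d 0 (fun _ => 0) 0 ((E - σ * M0) + s2e * γe.re) (s2e * γe.im) wr wi := by
    have e1 : (E - σ * M0) + s2e * γe.re = E - σ * M + s2 * γ.re := by
      rw [hγer]
      ring
    rw [e1, hγei]
    exact hw
  -- the Ward identity
  have hward := hw.ward
  rw [← ht0'] at hward hw
  have hγn : ‖γ‖ ≤ t⁻¹ := by
    have h1 := hw.norm ht00
    have h2 : wr 0 ^ 2 ≤ ∑' x, wr x ^ 2 := hw.sr.le_tsum 0 fun x _ => sq_nonneg _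
    have h3 : wi 0 ^ 2 ≤ ∑' x, wi x ^ 2 := hw.si.le_tsum 0 fun x _ => sq_nonneg _
    have h4 : ‖γ‖ ^ 2 ≤ (t⁻¹) ^ 2 := by
      rw [← Complex.normSq_eq_norm_sq, Complex.normSq_apply, ← hwr, ← hwi]
      have h5 : (t0⁻¹) ^ 2 ≤ (t⁻¹) ^ 2 := by
        have h6 : t0⁻¹ ≤ t⁻¹ := by
          apply inv_anti₀ ht0
          rw [ht0']
          have : 0 ≤ s2 * γ.im := by positivity
          linarith
        exact pow_le_pow_left₀ (by positivity) h6 2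
      linarith
    exact (sq_le_sq₀ (norm_nonneg _) (by positivity)).1 h4
  obtain ⟨g1, g2, g3⟩ := fin_num Y σ t ε hN.f1 hσ ht hε hN.f9
  have hself : ‖((wr 0 : ℂ) + Complex.I * (wi 0 : ℂ)) - γe‖ ≤
      2 * (v / 2)⁻¹ * Real.exp (-(17 / 675) * y) := by
    have e1 : ((wr 0 : ℂ) + Complex.I * (wi 0 : ℂ)) = γ := by
      rw [hwr, hwi, mul_comm]
      exact Complex.re_add_im γ
    have e2 : 2 * (v / 2)⁻¹ * Real.exp (-(17 / 675) * y) = 4 / v * Real.exp (-(1 / 40) * Y) := by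
      have e3 : -(17 / 675) * y = -(1 / 40) * Y := by
        rw [hy]
        ring
      rw [e3]
      field_simp
      ring
    rw [e1, e2]
    exact gam_err v V V0 M M0 σ t ε s2 s2e _ γ γe hv hV0v hσ0 ht0 hs2 hs2e' hγer hγei q1' q2'
      hγn g1
  have hue : LG d (Real.exp (-1 * y)) (fun x => (ξ x - M0) / (2 * b)) a (E - σ * M0) t ur ui := by
    have e1 : ∀ x, Real.exp (-1 * y) * ((ξ x - M0) / (2 * b)) = σ * (ξ x - M0) := by
      intro x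
      rw [hσb]
      field_simp
    refine ⟨hu.sr, hu.si, fun x => ?_, fun x => ?_⟩
    · have h1 := hu.er x
      rw [e1]
      linarith
    · have h1 := hu.ei x
      rw [e1]
      linarith
  have hagree : ∀ x, ‖x - a‖ ≤ Real.exp (7 * y) → (ξ x - M0) / (2 * b) = F (ξ x) := by
    intro x hx
    have hxR : ‖x‖ ≤ R := by
      have h1 := norm_add_le (x - a) a
      rw [sub_add_cancel] at h1
      rw [hR]
      linarith
    rw [hF]
    simp only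
    rw [p2 x hxR]
  have hxX : ‖a‖ ≤ Real.exp (Real.exp (y / 100)) :=
    ha.trans (Real.exp_le_exp.2 (by linarith))
  have h1 := hLx a hxX (fun x => (ξ x - M0) / (2 * b)) hagree (E - σ * M0) γe hγe4 wr wi hwe hself
    ur ui hue qq
  have hsr := hw.sr
  have hsi := hw.si
  obtain ⟨S, hS⟩ : ∃ S, S = ∑' x : Zd d, (1 - Real.cos (∑ i, qq i * x i)) *
        (wr x ^ 2 + wi x ^ 2) := ⟨_, rfl⟩
  obtain ⟨C, hC⟩ : ∃ C, C = ∑' x : Zd d, Real.cos (∑ i, qq i * x i) *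
        (wr x ^ 2 + wi x ^ 2) := ⟨_, rfl⟩
  obtain ⟨Nn, hNn⟩ : ∃ Nn, Nn = ∑' x, wr x ^ 2 + ∑' x, wi x ^ 2 := ⟨_, rfl⟩
  have hsum := hsr.add hsi
  have hsumC : Summable fun x : Zd d => Real.cos (∑ i, qq i * x i) * (wr x ^ 2 + wi x ^ 2) := by
    refine Summable.of_norm_bounded (g := fun x => wr x ^ 2 + wi x ^ 2) hsum fun x => ?_
    rw [norm_mul, Real.norm_of_nonneg (by positivity : 0 ≤ wr x ^ 2 + wi x ^ 2), Real.norm_eq_abs]
    exact mul_le_of_le_one_left (by positivity) (Real.abs_cos_le_one _)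
  have hCS : C = Nn - S := by
    have e1 : S = Nn - C := by
      rw [hS, hNn, hC, ← hsr.tsum_add hsi, ← hsum.tsum_sub hsumC]
      exact tsum_congr fun x => by ring
    linarith
  have hS0 : 0 ≤ S := by
    rw [hS]
    refine tsum_nonneg fun x => mul_nonneg ?_ (by positivity)
    have := Real.cos_le_one (∑ i, qq i * x i)
    linarith
  rw [← hNn, hwi] at hward
  rw [← hS] at h1
  rw [← hC]
  have e1 : t / s2e / γe.im = t / t0 := by
    rw [div_div, hγei, ht0']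
  rw [e1] at h1
  have h2 := prof_diff t t0 s2 s2e S ht0 ht00 hs20 hs2e0 hS0
  have h3 := diff_err A v V V0 σ t t0 ε s2 s2e γ.im hA hv hV0v hvV q5 hσ0
    (by rw [hσ]; exact Real.exp_le_one_iff.2 (by linarith [hN.f1])) ht0
    (by rw [ht]; exact Real.exp_le_one_iff.2 (by linarith [hN.f1])) hs2 hs2e' q2' hγi0.le
    ((le_abs_self _).trans ((Complex.abs_im_le_norm γ).trans hγn)) ht0'
  have h4 := prof_eq t t0 s2 S (s2 * C) γ.im Nn ht0 ht00 hs20 hward ht0' (by rw [hCS]) hS0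
  rw [h4]
  obtain ⟨Q, hQ⟩ : ∃ Q : ℂ, Q = ((t : ℝ) : ℂ) *
    ∑' x, ph qq (x - a) * ((ur x ^ 2 + ui x ^ 2 : ℝ) : ℂ) := ⟨_, rfl⟩
  rw [← hQ] at h1 ⊢
  obtain ⟨Pe, hPe⟩ : ∃ Pe, Pe = t / s2e / (t / t0 + s2e * S) := ⟨_, rfl⟩
  obtain ⟨Pp, hPp⟩ : ∃ Pp, Pp = t / s2 / (t / t0 + s2 * S) := ⟨_, rfl⟩
  rw [← hPe] at h1 h2
  rw [← hPp] at h2 ⊢
  have e2 : Q - ((Pp - t / s2 : ℝ) : ℂ) = (Q - (Pe : ℂ)) + ((Pe - Pp + t / s2 : ℝ) : ℂ) := by
    push_cast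
    ring
  rw [e2]
  refine (norm_add_le _ _).trans ?_
  rw [Complex.norm_real, Real.norm_eq_abs]
  have h5 := abs_add_le (Pe - Pp) (t / s2)
  rw [abs_of_pos (by positivity : 0 < t / s2)] at h5
  have h6 : t / s2 ≤ 1 / v * Real.exp (-(1 / 40) * Y) := by
    rw [← g2, hs2]
    calc t / (σ ^ 2 * V) ≤ t / (σ ^ 2 * v) := by gcongr
      _ = _ := by
        field_simp
  have h7 : Real.exp (-(11 / 1000) * y) = Real.exp (-(297 / 27200) * Y) := by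
    congr 1
    rw [hy]
    ring
  rw [h7] at h1
  have h8 := hN.f10
  have h9 := hN.f11
  have h10 := hN.f12
  have h11 : 4 * (1 + 2 * A) / v ^ 2 * (ε * (σ ^ 2)⁻¹ * t⁻¹) ≤
      4 * (1 + 2 * A) / v ^ 2 * Real.exp (-15 * Y) := by gcongr
  have h12 : 3 / v * Real.exp (-(1 / 40) * Y) = 3 * (1 / v * Real.exp (-(1 / 40) * Y)) := by ring
  have h13 : 3 * (4 * (1 + 2 * A) / v ^ 2) * Real.exp (-15 * Y) =
      3 * (4 * (1 + 2 * A) / v ^ 2 * Real.exp (-15 * Y)) := by ring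
  rw [h12] at h9
  rw [h13] at h10
  linarith

end Pool.Agent.TH791.QD
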