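import Pool.Agent.TH791.QD.LatR

/-! The event on the lattice for the quadratic functional: probability. -/

set_option autoImplicit false
set_option linter.unusedSectionVars false

open scoped BigOperators
open MeasureTheory

namespace Pool.Agent.TH791.QD

open Pool.Agent.TH794.FG Pool.Agent.TH791.GL

open Pool.Agent.W788.BK
open Pool.Agent.W788
open Pool.Agent.W788.MFP.Four Pool.Agent.W788.MFP.Dos Pool.Agent.W788.MFP.Form
open Pool.Agent.W788.MFP.Ball Pool.Agent.W788.MFP.Crit Pool.Agent.W788.MFP.Cut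
open Pool.Agent.W788.MFP.Site Pool.Agent.W788.MF2.Dom Pool.Agent.W788.MF2.FinG
open Pool.Agent.W788.MF2.FormG Pool.Agent.W788.LD.Main Pool.Agent.H4R2
open Pool.Agent.H4R2.LO (Zd)
open Pool.Agent.H695R3.AN (lf lf_inj lf_add lf_sub)
open Pool.Agent.TH794.LL2

variable {d L : ℕ} [NeZero L]

/-- **the lattice event** -/
theorem mainQx (hO : S_OSC) (hd : 3 ≤ d) (μ : Measure ℝ) [IsProbabilityMeasure μ] (c : ℝ)
    (hμ : DomBy μ c) (σ R δ θ η κ g1 g ρ τ K ζ e2 e3 s2 c' x1 x u zz T0 ℓ xs e5 : ℝ) (M : ℕ)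
    (hσ : 0 < σ) (hR : 1 ≤ R) (hδ : 0 < δ) (hδ1 : δ ≤ 1 / 2) (hη : 0 < η)
    (hη1 : η ≤ 1) (hκ : 0 < κ)
    (hκ2 : κ ≤ 1 / 2) (hg1 : ∀ E, ∑ k : T d L, (JJ E δ k)⁻¹ ≤ g1 * NN d L)
    (hg : ∀ E, ∑ k : T d L, (JJ E (η * δ) k)⁻¹ ≤ g * NN d L) (hK : 1 ≤ K)
    (hζ : 0 < ζ) (hM : (2 * d + 1) ≤ ζ * M) (hs2 : 0 < s2) (hc' : 0 < c')
    (hρ0 : 0 ≤ ρ) (hτ : 0 ≤ τ)
    (h1 : K * (τ / (η * δ) + 2 * (κ + η)) ≤ 1 / 2)
    (h2 : K * (2 * (Real.sqrt η * Real.sqrt g1) + 3 * ((2 * (ρ + ζ * (η * δ)⁻¹)) /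
      Real.sqrt (η * δ))) ≤ 1 / 2)
    (h3 : (2 * (ρ + ζ * (η * δ)⁻¹)) / (η * δ) ≤ 1 / 2)
    (hz : (τ / (η * δ) + 2 * (κ + η)) * Real.sqrt (5 * K) +
      (2 * (Real.sqrt η * Real.sqrt g1) + 3 * ((2 * (ρ + ζ * (η * δ)⁻¹)) /
        Real.sqrt (η * δ))) ≤ zz)
    (hx : x = x1 + ζ / (η * δ) ^ 2) (hx2 : x ≤ c') (htc : η * δ ≤ c')
    (hu : u = (ζ + s2 * x) / (s2 * c')) (hu1 : u ≤ 1)
    (h4 : zz * (2 * K + zz) + e2 + x + 15 * u * (g + x1) ≤ e3)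
    (hℓ0 : 0 < ℓ) (hL : 4 * ℓ + 4 < L) (hρℓ : 2 * d / ℓ * (η * δ)⁻¹ ≤ ρ)
    (hT : (1 + T0) ^ 3 ≤ (L : ℝ) ^ 2) (hts : η * δ ≤ s2 * (4 * c'))
    (hb : 2 * d / ℓ * (η * δ)⁻¹ * (η * δ)⁻¹ + xs ≤ g)
    (hx1 : xs + 2 * d / ℓ * (η * δ)⁻¹ * (η * δ)⁻¹ +
      (2 * 10 ^ d * K5 * (s2 * (2 * g) + η * δ) ^ (1 / 4 : ℝ) +
      4 / (η * δ) * Real.exp (-(η * δ * T0 / 2))) ≤ x1)
    (he5 : e3 + (η * δ * (2 * d / ℓ * (η * δ)⁻¹ ^ 3 + 2 * Real.pi * ℓ * d / L * (η * δ)⁻¹ ^ 2) +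
      (2 * g) ^ 2 / (η * δ / s2) * (s2 * (12 * d / ℓ * (η * δ)⁻¹ ^ 3 +
        2 * Real.pi * ℓ * d / L * (η * δ)⁻¹ ^ 2))) ≤ e5)
    (p : ℕ) (hp : p ≠ 0) (ε1 ε : ℝ)
    (hgood : (PP (T d L) (μ.map fun s => σ * s)).real
      (GoodQ (d := d) (L := L) δ θ η τ ζ e2 s2 c' K M)ᶜ ≤ ε1)
    (hε : (3 * R) ^ d * ((8 * d / δ) * ((8 * p * g1 * c ^ 2 * σ ^ 2 / (δ * κ ^ 2)) ^ p *
      (L : ℝ) ^ d) + ε1) ≤ ε) :
    ∃ G : Set (Zd d → ℝ), MeasurableSet G ∧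
      1 - ε ≤ (Measure.infinitePi fun _ : Zd d => μ).real G ∧
      ∀ ξ ∈ G, QLawx d σ R L (η * δ) s2 c' xs e5 ξ := by
  have hmeas : MeasurableSet (GoodQ (d := d) (L := L) δ θ η τ ζ e2 s2 c' K M) :=
    goodQ_meas δ θ η τ ζ e2 s2 c' K M hη
  have ht : 0 < η * δ := by positivity
  have hGB : GB d L δ g1 := by
    intro E
    have e1 := hg1 E
    rw [inv_mul_le_iff₀ NN_pos]
    have e2 : ∑ k : T d L, (J E δ k)⁻¹ = ∑ k : T d L, (JJ E δ k)⁻¹ := rfl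
    rw [e2]
    linarith
  obtain ⟨G1, hG1, hP1, hb'⟩ := formE (d := d) (L := L) (by omega) μ c hμ δ g1 hδ hδ1 hGB
    (κ / (2 * σ)) (by positivity) p hp
  have hsm : Measurable fun (V : T d L → ℝ) y => σ * V y := by fun_prop
  obtain ⟨G2, hG2⟩ : ∃ G2, G2 = (fun (V : T d L → ℝ) y => σ * V y) ⁻¹'
    GoodQ (d := d) (L := L) δ θ η τ ζ e2 s2 c' K M := ⟨_, rfl⟩
  have hG2m : MeasurableSet G2 := by
    rw [hG2]
    exact hsm hmeas
  have hpm : IsProbabilityMeasure (μ.map fun s => σ * s) :=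
    Measure.isProbabilityMeasure_map (by fun_prop)
  have hP2 : (Measure.pi fun _ : T d L => μ).real G2ᶜ ≤ ε1 := by
    have e1 : PP (T d L) (μ.map fun s => σ * s) =
        (Measure.pi fun _ : T d L => μ).map (fun (V : T d L → ℝ) y => σ * V y) := by
      unfold PP
      rw [Measure.pi_map_pi (μ := fun _ : T d L => μ) (f := fun _ (s : ℝ) => σ * s)]
      intro i
      fun_prop
    rw [e1, map_measureReal_apply hsm hmeas.compl] at hgood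
    rw [hG2]
    exact hgood
  have hG : MeasurableSet (G1 ∩ G2) := hG1.inter hG2m
  have hP : (3 * R) ^ d * (Measure.pi fun _ : T d L => μ).real (G1 ∩ G2)ᶜ ≤ ε := by
    refine le_trans ?_ hε
    apply mul_le_mul_of_nonneg_left _ (by positivity)
    rw [Set.compl_inter]
    refine (measureReal_union_le _ _).trans (add_le_add ?_ hP2)
    refine hP1.trans ?_
    apply mul_le_mul_of_nonneg_left _ (by positivity)
    have e1 : 2 * p * g1 * δ⁻¹ * c ^ 2 / (κ / (2 * σ)) ^ 2 =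
        8 * p * g1 * c ^ 2 * σ ^ 2 / (δ * κ ^ 2) := by
      field_simp
      ring
    rw [e1]
    exact le_refl _
  set B : Finset (Zd d) := LO.bx (0 : Zd d) ⌊R⌋₊ with hB
  set Rr : Zd d → (Zd d → ℝ) → (T d L → ℝ) := fun a ω y => ω (lf y + a) with hRr
  have hRm : ∀ a, Measurable (Rr a) := fun a => measurable_pi_iff.2 fun y => measurable_pi_apply _
  have hPa : ∀ a, (Measure.infinitePi fun _ : Zd d => μ).real (Rr a ⁻¹' (G1 ∩ G2))ᶜ =
      (Measure.pi fun _ : T d L => μ).real (G1 ∩ G2)ᶜ := by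
    intro a
    have h1 : (Measure.infinitePi fun _ : Zd d => μ).real (Rr a ⁻¹' (G1 ∩ G2)ᶜ) =
        (Measure.pi fun _ : T d L => μ).real (G1 ∩ G2)ᶜ := by
      rw [← Gen3.law_shift (d := d) (L := L) μ a, map_measureReal_apply (hRm a) hG.compl]
    exact h1
  have hm : MeasurableSet (⋂ a ∈ B, Rr a ⁻¹' (G1 ∩ G2)) :=
    Finset.measurableSet_biInter _ fun a _ => hRm a hG
  refine ⟨⋂ a ∈ B, Rr a ⁻¹' (G1 ∩ G2), hm, ?_, ?_⟩
  · have h2 := probReal_add_probReal_compl (μ := Measure.infinitePi fun _ : Zd d => μ) hm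
    have h3 : (Measure.infinitePi fun _ : Zd d => μ).real (⋂ a ∈ B, Rr a ⁻¹' (G1 ∩ G2))ᶜ ≤
        (3 * R) ^ d * (Measure.pi fun _ : T d L => μ).real (G1 ∩ G2)ᶜ := by
      have e1 : (⋂ a ∈ B, Rr a ⁻¹' (G1 ∩ G2))ᶜ = ⋃ a ∈ B, (Rr a ⁻¹' (G1 ∩ G2))ᶜ := by
        simp only [Set.compl_iInter]
      rw [e1]
      refine (measureReal_biUnion_finset_le _ _).trans
        ((Finset.sum_le_sum fun a _ => (hPa a).le).trans ?_)
      rw [Finset.sum_const, nsmul_eq_mul, hB, LO.Em.card_bx]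
      apply mul_le_mul_of_nonneg_right _ measureReal_nonneg
      push_cast
      apply pow_le_pow_left₀ (by positivity)
      have := Nat.floor_le (show 0 ≤ R by linarith)
      linarith
    linarith
  · intro ξ hξ a ha ξ' hξ' E γ hγc wr wi hw hself ur ui hLG qq
    have haB : a ∈ B := Gen3.norm_zd a R ha
    have hV : Rr a ξ ∈ G1 ∩ G2 := Set.mem_iInter₂.1 hξ a haB
    have hV2 := hV.2
    rw [hG2] at hV2
    have hagree : (fun y : T d L => σ * ξ' (lf y + a)) = fun y => σ * ξ (lf y + a) := by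
      funext y
      rw [hξ' (lf y + a) (by rw [add_sub_cancel_right]; exact norm_lf y)]
    have hV3 : (fun y : T d L => σ * (fun x => ξ' (x + a)) (lf y)) ∈
        GoodQ (d := d) (L := L) δ θ η τ ζ e2 s2 c' K M := by
      simp only
      rw [hagree]
      exact hV2
    have hform : ∀ (E : ℝ) (w : T d L → ℝ),
        |∑ x, (σ * (fun x => ξ' (x + a)) (lf x)) * w x ^ 2| ≤ κ * q (JJ E δ) w := by
      intro E w
      have e1 := hb' _ hV.1 E w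
      have e2 : ∑ x, (σ * (fun x => ξ' (x + a)) (lf x)) * w x ^ 2 =
          σ * ∑ x, Rr a ξ x * w x ^ 2 := by
        rw [Finset.mul_sum]
        refine Finset.sum_congr rfl fun x _ => ?_
        have := congrFun hagree x
        simp only at this ⊢
        rw [this, hRr]
        ring
      rw [e2, abs_mul, abs_of_pos hσ]
      calc σ * |∑ x, Rr a ξ x * w x ^ 2| ≤ σ * (2 * (κ / (2 * σ)) * q (J E δ) w) :=
            mul_le_mul_of_nonneg_left e1 hσ.le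
        _ = κ * q (J E δ) w := by
            field_simp
        _ = _ := rfl
    have hfin := latDet hO hd δ θ η κ g1 g ρ τ K ζ e2 e3 s2 c' x1 x u zz T0 ℓ xs e5 σ M hδ hη hη1
      hκ hκ2 hg1 hg hK hζ hM hs2 hc' (fun x => ξ' (x + a)) hV3 hform hρ0 hτ h1 h2 h3 hz hx hx2 htc
      hu hu1 h4 hℓ0 hL hρℓ hT hts hb hx1 he5 E γ hγc wr wi hw hself _ _ hLG.shift qq
    have e5 : ∑' x, ph qq (x - a) * ((ur x ^ 2 + ui x ^ 2 : ℝ) : ℂ) =
        ∑' x, ph qq x * ((ur (x + a) ^ 2 + ui (x + a) ^ 2 : ℝ) : ℂ) := by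
      rw [← (Equiv.addRight a).tsum_eq fun x => ph qq (x - a) * ((ur x ^ 2 + ui x ^ 2 : ℝ) : ℂ)]
      refine tsum_congr fun x => ?_
      simp only [Equiv.coe_addRight, add_sub_cancel_right]
    rw [e5]
    exact hfin

end Pool.Agent.TH791.QD
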