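import Pool.Agent.TH791.QD.LatQ
import Pool.Agent.TH791.GL.Lat

/-! The event on the lattice for the quadratic functional. -/

set_option autoImplicit false
set_option linter.unusedSectionVars false

open scoped BigOperators
open MeasureTheory

namespace Pool.Agent.TH791.QD

open Pool.Agent.TH794.FG Pool.Agent.TH791.GL

open Pool.Agent.W788.BK
open Pool.Agent.W788
open Pool.Agent.W788.MFP.Four Pool.Agent.W788.MFP.Dos Pool.Agent.W788.MFP.Form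
open Pool.Agent.W788.MFP.Ball Pool.Agent.W788.MFP.Crit Pool.Agent.W788.MFP.Cut
open Pool.Agent.W788.MFP.Site Pool.Agent.W788.MF2.Dom Pool.Agent.W788.MF2.FinG
open Pool.Agent.W788.MF2.FormG Pool.Agent.W788.LD.Main Pool.Agent.H4R2
open Pool.Agent.H4R2.LO (Zd)
open Pool.Agent.H695R3.AN (lf lf_inj lf_add lf_sub)
open Pool.Agent.TH794.LL2

variable {d L : ℕ} [NeZero L]

/-- the profile is Lipschitz in the step part -/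
theorem TG_lip (Λ ν A A' : ℝ) (hΛ : 0 < Λ) (hν : 0 < ν) (hA : 0 ≤ A) (hA' : 0 ≤ A') :
    |Λ / (Λ / ν + A) - Λ / (Λ / ν + A')| ≤ ν ^ 2 / Λ * |A - A'| := by
  have q1 : 0 < Λ / ν := by positivity
  obtain ⟨P, hP⟩ : ∃ P, P = Λ / ν + A := ⟨_, rfl⟩
  obtain ⟨P', hP'⟩ : ∃ P', P' = Λ / ν + A' := ⟨_, rfl⟩
  rw [← hP, ← hP']
  have p1 : Λ / ν ≤ P := by rw [hP]; linarith
  have p1' : Λ / ν ≤ P' := by rw [hP']; linarith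
  have p2 : 0 < P := lt_of_lt_of_le q1 p1
  have p2' : 0 < P' := lt_of_lt_of_le q1 p1'
  have hx : Λ / P - Λ / P' = Λ * (A' - A) / (P * P') := by
    have : A' - A = P' - P := by rw [hP, hP']; ring
    rw [this]
    field_simp
  rw [hx, abs_div, abs_mul, abs_of_pos hΛ, abs_of_pos (mul_pos p2 p2'), abs_sub_comm,
    div_le_iff₀ (mul_pos p2 p2')]
  have h1 : (Λ / ν) * (Λ / ν) ≤ P * P' := mul_le_mul p1 p1' q1.le p2.le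
  calc Λ * |A - A'| = ν ^ 2 / Λ * |A - A'| * ((Λ / ν) * (Λ / ν)) := by
        field_simp
    _ ≤ _ := mul_le_mul_of_nonneg_left h1 (by positivity)

/-- the free Green function is bounded -/
theorem gL_le (t g : ℝ) (ht : 0 < t) (hg : ∀ E, ∑ k : T d L, (JJ E t k)⁻¹ ≤ g * NN d L) (z : ℂ)
    (hz : t ≤ z.im) : ‖gL d L z‖ ≤ g := by
  have hN := NN_pos (d := d) (L := L)
  unfold gL
  rw [norm_mul, norm_inv, Complex.norm_real, Real.norm_eq_abs, abs_of_pos hN,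
    inv_mul_le_iff₀ hN]
  refine (norm_sum_le _ _).trans ?_
  refine (Finset.sum_le_sum fun k _ => ?_).trans ((hg z.re).trans (le_of_eq (by ring)))
  rw [norm_inv]
  apply inv_anti₀ (JJ_pos z.re t ht k)
  have e1 : ‖((adj k : ℝ) : ℂ) - z‖ = Real.sqrt ((adj k - z.re) ^ 2 + z.im ^ 2) := by
    rw [Complex.norm_def, Complex.normSq_apply]
    congr 1
    simp only [Complex.sub_re, Complex.sub_im, Complex.ofReal_re, Complex.ofReal_im]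
    ring
  rw [e1]
  unfold JJ
  apply Real.sqrt_le_sqrt
  have : t ^ 2 ≤ z.im ^ 2 := pow_le_pow_left₀ ht.le hz 2
  linarith

/-- the self-energy is close to the free Green function -/
theorem gam_near (hO : S_OSC) (hd : 3 ≤ d) (E s2 t T0 g ℓ xs x1 : ℝ) (γ : ℂ) (ht : 0 < t)
    (hs2 : 0 < s2) (htγ : t ≤ s2 * γ.im) (hT : (1 + T0) ^ 3 ≤ (L : ℝ) ^ 2)
    (hg : ∀ E, ∑ k : T d L, (JJ E t k)⁻¹ ≤ g * NN d L) (hℓ0 : 0 < ℓ)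
    (hL : 4 * ℓ + 4 < L) (wr wi : Zd d → ℝ)
    (h : LG d 0 (fun _ => 0) 0 (E + s2 * γ.re) (s2 * γ.im) wr wi)
    (hself : ‖((wr 0 : ℂ) + Complex.I * (wi 0 : ℂ)) - γ‖ ≤ xs)
    (hb : 2 * d / ℓ * t⁻¹ * t⁻¹ + xs ≤ g)
    (hx1 : xs + 2 * d / ℓ * t⁻¹ * t⁻¹ + (2 * 10 ^ d * K5 * (s2 * (2 * g) + t) ^ (1 / 4 : ℝ) +
      4 / t * Real.exp (-(t * T0 / 2))) ≤ x1) :
    ‖gE d L E t - γ‖ ≤ x1 ∧ γ.im ≤ 2 * g := by
  have hν : 0 < s2 * γ.im := lt_of_lt_of_le ht htγ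
  have h1 := freeC2 (L := L) ℓ (s2 * γ.im) hν hℓ0 hL (E + s2 * γ.re) wr wi h
  obtain ⟨m, hm⟩ : ∃ m, m = (wr 0 : ℂ) + Complex.I * (wi 0 : ℂ) := ⟨_, rfl⟩
  rw [← hm] at h1 hself
  have hz : (((E + s2 * γ.re : ℝ) : ℂ) + ((s2 * γ.im : ℝ) : ℂ) * Complex.I) =
      (E : ℂ) + (s2 : ℂ) * γ := by
    have : γ = (γ.re : ℂ) + (γ.im : ℂ) * Complex.I := (Complex.re_add_im γ).symm
    nth_rewrite 3 [this]
    push_cast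
    ring
  rw [hz] at h1
  have h1' : ‖m - gL d L ((E : ℂ) + (s2 : ℂ) * γ)‖ ≤ 2 * d / ℓ * t⁻¹ * t⁻¹ := by
    refine h1.trans ?_
    have : (s2 * γ.im)⁻¹ ≤ t⁻¹ := inv_anti₀ ht htγ
    gcongr
  have hzim : t ≤ ((E : ℂ) + (s2 : ℂ) * γ).im := by
    rw [Complex.add_im, Complex.ofReal_im, Complex.im_ofReal_mul, zero_add]
    exact htγ
  have h2 := gL_le (d := d) (L := L) t g ht hg _ hzim
  have h3 : ‖γ‖ ≤ 2 * g := by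
    have e1 : γ = (gL d L ((E : ℂ) + (s2 : ℂ) * γ) + (m - gL d L ((E : ℂ) + (s2 : ℂ) * γ))) -
        (m - γ) := by ring
    have e2 := norm_sub_le (gL d L ((E : ℂ) + (s2 : ℂ) * γ) +
      (m - gL d L ((E : ℂ) + (s2 : ℂ) * γ))) (m - γ)
    have e3 := norm_add_le (gL d L ((E : ℂ) + (s2 : ℂ) * γ))
      (m - gL d L ((E : ℂ) + (s2 : ℂ) * γ))
    rw [← e1] at e2
    linarith
  refine ⟨?_, (Complex.abs_im_le_norm γ |> (le_abs_self _).trans).trans h3⟩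
  have h4 := gL_holder (d := d) (L := L) hO hd t T0 ht hT ((E : ℂ) + ((t : ℝ) : ℂ) * Complex.I)
    ((E : ℂ) + (s2 : ℂ) * γ) (by simp) hzim
  have h5 : ‖((E : ℂ) + ((t : ℝ) : ℂ) * Complex.I) - ((E : ℂ) + (s2 : ℂ) * γ)‖ ≤
      s2 * (2 * g) + t := by
    have e1 : ((E : ℂ) + ((t : ℝ) : ℂ) * Complex.I) - ((E : ℂ) + (s2 : ℂ) * γ) =
      ((t : ℝ) : ℂ) * Complex.I - (s2 : ℂ) * γ := by ring
    rw [e1]
    refine (norm_sub_le _ _).trans ?_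
    rw [norm_mul, norm_mul, Complex.norm_I, mul_one, Complex.norm_real, Complex.norm_real,
      Real.norm_of_nonneg ht.le, Real.norm_of_nonneg hs2.le]
    have := mul_le_mul_of_nonneg_left h3 hs2.le
    linarith
  have hK5 := K5_nonneg
  have h6 : 2 * 10 ^ d * K5 * ‖((E : ℂ) + ((t : ℝ) : ℂ) * Complex.I) -
      ((E : ℂ) + (s2 : ℂ) * γ)‖ ^ (1 / 4 : ℝ) ≤
      2 * 10 ^ d * K5 * (s2 * (2 * g) + t) ^ (1 / 4 : ℝ) :=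
    mul_le_mul_of_nonneg_left (Real.rpow_le_rpow (norm_nonneg _) h5 (by norm_num))
      (by positivity)
  have h7 : gE d L E t - γ = (gL d L ((E : ℂ) + ((t : ℝ) : ℂ) * Complex.I) -
      gL d L ((E : ℂ) + (s2 : ℂ) * γ)) - (m - gL d L ((E : ℂ) + (s2 : ℂ) * γ)) + (m - γ) := by
    unfold gE
    ring
  rw [h7]
  have h8 := norm_add_le ((gL d L ((E : ℂ) + ((t : ℝ) : ℂ) * Complex.I) -
      gL d L ((E : ℂ) + (s2 : ℂ) * γ)) - (m - gL d L ((E : ℂ) + (s2 : ℂ) * γ))) (m - γ)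
  have h9 := norm_sub_le (gL d L ((E : ℂ) + ((t : ℝ) : ℂ) * Complex.I) -
      gL d L ((E : ℂ) + (s2 : ℂ) * γ)) (m - gL d L ((E : ℂ) + (s2 : ℂ) * γ))
  linarith

/-- the law of the position at all energies of the bulk and all frequencies, for all potentials
which are equal to `ξ` near the site -/
def QLawx (d : ℕ) (σ R r t s2 c' xs e5 : ℝ) (ξ : Zd d → ℝ) : Prop :=
  ∀ a : Zd d, ‖a‖ ≤ R → ∀ ξ' : Zd d → ℝ, (∀ x, ‖x - a‖ ≤ r → ξ' x = ξ x) →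
    ∀ (E : ℝ) (γ : ℂ), 4 * c' ≤ γ.im → ∀ wr wi : Zd d → ℝ,
    LG d 0 (fun _ => 0) 0 (E + s2 * γ.re) (s2 * γ.im) wr wi →
    ‖((wr 0 : ℂ) + Complex.I * (wi 0 : ℂ)) - γ‖ ≤ xs →
    ∀ ur ui : Zd d → ℝ, LG d σ ξ' a E t ur ui → ∀ qq : Fin d → ℝ,
    ‖(t : ℂ) * ∑' x, ph qq (x - a) * ((ur x ^ 2 + ui x ^ 2 : ℝ) : ℂ) -
      (((t / s2) / ((t / s2) / γ.im + s2 * ∑' x : Zd d, (1 - Real.cos (∑ i, qq i * x i)) *
        (wr x ^ 2 + wi x ^ 2)) : ℝ) : ℂ)‖ ≤ e5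

/-- the deterministic part -/
theorem latDet (hO : S_OSC) (hd : 3 ≤ d)
    (δ θ η κ g1 g ρ τ K ζ e2 e3 s2 c' x1 x u zz T0 ℓ xs e5 σ : ℝ) (M : ℕ) (hδ : 0 < δ) (hη : 0 < η)
    (hη1 : η ≤ 1) (hκ : 0 < κ)
    (hκ2 : κ ≤ 1 / 2) (hg1 : ∀ E, ∑ k : T d L, (JJ E δ k)⁻¹ ≤ g1 * NN d L)
    (hg : ∀ E, ∑ k : T d L, (JJ E (η * δ) k)⁻¹ ≤ g * NN d L) (hK : 1 ≤ K)
    (hζ : 0 < ζ) (hM : (2 * d + 1) ≤ ζ * M) (hs2 : 0 < s2) (hc' : 0 < c')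
    (ξ : Zd d → ℝ) (hV : (fun y => σ * ξ (lf y)) ∈
      GoodQ (d := d) (L := L) δ θ η τ ζ e2 s2 c' K M)
    (hf : ∀ (E : ℝ) (w : T d L → ℝ), |∑ x, (σ * ξ (lf x)) * w x ^ 2| ≤ κ * q (JJ E δ) w)
    (hρ0 : 0 ≤ ρ) (hτ : 0 ≤ τ)
    (h1 : K * (τ / (η * δ) + 2 * (κ + η)) ≤ 1 / 2)
    (h2 : K * (2 * (Real.sqrt η * Real.sqrt g1) + 3 * ((2 * (ρ + ζ * (η * δ)⁻¹)) /
      Real.sqrt (η * δ))) ≤ 1 / 2)
    (h3 : (2 * (ρ + ζ * (η * δ)⁻¹)) / (η * δ) ≤ 1 / 2)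
    (hz : (τ / (η * δ) + 2 * (κ + η)) * Real.sqrt (5 * K) +
      (2 * (Real.sqrt η * Real.sqrt g1) + 3 * ((2 * (ρ + ζ * (η * δ)⁻¹)) /
        Real.sqrt (η * δ))) ≤ zz)
    (hx : x = x1 + ζ / (η * δ) ^ 2) (hx2 : x ≤ c') (htc : η * δ ≤ c')
    (hu : u = (ζ + s2 * x) / (s2 * c')) (hu1 : u ≤ 1)
    (h4 : zz * (2 * K + zz) + e2 + x + 15 * u * (g + x1) ≤ e3)
    (hℓ0 : 0 < ℓ) (hL : 4 * ℓ + 4 < L) (hρℓ : 2 * d / ℓ * (η * δ)⁻¹ ≤ ρ)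
    (hT : (1 + T0) ^ 3 ≤ (L : ℝ) ^ 2) (hts : η * δ ≤ s2 * (4 * c'))
    (hb : 2 * d / ℓ * (η * δ)⁻¹ * (η * δ)⁻¹ + xs ≤ g)
    (hx1 : xs + 2 * d / ℓ * (η * δ)⁻¹ * (η * δ)⁻¹ +
      (2 * 10 ^ d * K5 * (s2 * (2 * g) + η * δ) ^ (1 / 4 : ℝ) +
      4 / (η * δ) * Real.exp (-(η * δ * T0 / 2))) ≤ x1)
    (he5 : e3 + (η * δ * (2 * d / ℓ * (η * δ)⁻¹ ^ 3 + 2 * Real.pi * ℓ * d / L * (η * δ)⁻¹ ^ 2) +
      (2 * g) ^ 2 / (η * δ / s2) * (s2 * (12 * d / ℓ * (η * δ)⁻¹ ^ 3 +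
        2 * Real.pi * ℓ * d / L * (η * δ)⁻¹ ^ 2))) ≤ e5)
    (E : ℝ) (γ : ℂ) (hγc : 4 * c' ≤ γ.im) (wr wi : Zd d → ℝ)
    (hw : LG d 0 (fun _ => 0) 0 (E + s2 * γ.re) (s2 * γ.im) wr wi)
    (hself : ‖((wr 0 : ℂ) + Complex.I * (wi 0 : ℂ)) - γ‖ ≤ xs)
    (ur ui : Zd d → ℝ) (h : LG d σ ξ 0 E (η * δ) ur ui) (qq : Fin d → ℝ) :
    ‖((η * δ : ℝ) : ℂ) * ∑' x, ph qq x * ((ur x ^ 2 + ui x ^ 2 : ℝ) : ℂ) -
      (((η * δ / s2) / ((η * δ / s2) / γ.im + s2 * ∑' x : Zd d,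
        (1 - Real.cos (∑ i, qq i * x i)) * (wr x ^ 2 + wi x ^ 2)) : ℝ) : ℂ)‖ ≤ e5 := by
  have ht : 0 < η * δ := by positivity
  obtain ⟨t, htd⟩ : ∃ t, t = η * δ := ⟨_, rfl⟩
  have htγ : η * δ ≤ s2 * γ.im := hts.trans (mul_le_mul_of_nonneg_left hγc hs2.le)
  have hν : 0 < s2 * γ.im := lt_of_lt_of_le ht htγ
  obtain ⟨hγ, hγ2⟩ := gam_near (L := L) hO hd E s2 (η * δ) T0 g ℓ xs x1 γ ht hs2 htγ hT hg hℓ0 hL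
    wr wi hw hself hb hx1
  have hW := W1 (L := L) ℓ hℓ0 hL ht h qq
  obtain ⟨rr, ri, hsol, hBr, hBv, -⟩ := LG_tor3 (L := L) ℓ hℓ0 hL ht h
  have hR := torR δ θ η κ g1 g ρ τ K ζ e2 e3 s2 c' x1 x u zz M hδ hη hη1 hκ hκ2 hg1 hg hK hζ hM hs2
    hc' (fun y => σ * ξ (lf y)) hV hf hρ0 hτ h1 h2 h3 hz hx hx2 htc hu hu1 h4 E γ hγ hγc
    _ _ rr ri hsol (hBr.trans hρℓ) hBv (nf L qq)
  have hpm : ∀ y : T d L, (φ ℓ (lf y) * ur (lf y)) ^ 2 + (φ ℓ (lf y) * ui (lf y)) ^ 2 =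
      φ ℓ (lf y) ^ 2 * (ur (lf y) ^ 2 + ui (lf y) ^ 2) := fun y => by ring
  simp only [hpm] at hR
  have hTh := Th_lat (L := L) E s2 γ hs2 hν ℓ hℓ0 hL wr wi hw qq
  have hν0 : 0 < γ.im := by linarith
  have hA0 : 0 ≤ s2 * ∑' x : Zd d, (1 - Real.cos (∑ i, qq i * x i)) *
        (wr x ^ 2 + wi x ^ 2) := by
    apply mul_nonneg hs2.le
    apply tsum_nonneg
    intro x
    have := Real.cos_le_one (∑ i, qq i * x i)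
    apply mul_nonneg (by linarith) (by positivity)
  have hlip := TG_lip (η * δ / s2) γ.im (s2 * ∑' x : Zd d, (1 - Real.cos (∑ i, qq i * x i)) *
        (wr x ^ 2 + wi x ^ 2)) (Th E s2 γ (nf L qq)) (by positivity) hν0 hA0
        (Th_nonneg E s2 hs2.le γ (nf L qq))
  obtain ⟨A, hA⟩ : ∃ A, A = s2 * ∑' x : Zd d, (1 - Real.cos (∑ i, qq i * x i)) *
        (wr x ^ 2 + wi x ^ 2) := ⟨_, rfl⟩
  obtain ⟨P0, hP0⟩ : ∃ P0, P0 = ∑' x, ph qq x * ((ur x ^ 2 + ui x ^ 2 : ℝ) : ℂ) := ⟨_, rfl⟩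
  obtain ⟨P1, hP1⟩ : ∃ P1, P1 = ∑ y : T d L, (starRingEnd ℂ) (e (nf L qq) y) *
        ((φ ℓ (lf y) ^ 2 * (ur (lf y) ^ 2 + ui (lf y) ^ 2) : ℝ) : ℂ) := ⟨_, rfl⟩
  rw [← hA] at hlip hTh ⊢
  rw [← hP0, ← hP1] at hW
  rw [← hP1] at hR
  rw [← hP0]
  unfold TG at hR
  obtain ⟨X1, hX1⟩ : ∃ X1, X1 = η * δ / s2 / (η * δ / s2 / γ.im + Th E s2 γ (nf L qq)) := ⟨_, rfl⟩
  obtain ⟨X2, hX2⟩ : ∃ X2, X2 = η * δ / s2 / (η * δ / s2 / γ.im + A) := ⟨_, rfl⟩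
  rw [← hX1] at hR hlip
  rw [← hX2] at hlip ⊢
  have e1 : ((η * δ : ℝ) : ℂ) * P0 - (X2 : ℂ) = ((η * δ : ℝ) : ℂ) * (P0 - P1) +
      ((((η * δ : ℝ) : ℂ) * P1 - (X1 : ℂ)) - (((X2 - X1 : ℝ)) : ℂ)) := by
    push_cast
    ring
  rw [e1]
  have e2 := norm_add_le (((η * δ : ℝ) : ℂ) * (P0 - P1)) ((((η * δ : ℝ) : ℂ) * P1 - (X1 : ℂ)) -
    (((X2 - X1 : ℝ)) : ℂ))
  have e3' := norm_sub_le (((η * δ : ℝ) : ℂ) * P1 - (X1 : ℂ)) (((X2 - X1 : ℝ)) : ℂ)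
  rw [norm_mul, Complex.norm_real, Real.norm_of_nonneg ht.le] at e2
  rw [Complex.norm_real (X2 - X1), Real.norm_eq_abs] at e3'
  have e4 : η * δ * ‖P0 - P1‖ ≤ η * δ * (2 * d / ℓ * (η * δ)⁻¹ ^ 3 +
      2 * Real.pi * ℓ * d / L * (η * δ)⁻¹ ^ 2) := mul_le_mul_of_nonneg_left hW ht.le
  have hLpos : (0 : ℝ) < L := by exact_mod_cast Nat.pos_of_ne_zero (NeZero.ne L)
  have e5' : |X2 - X1| ≤ (2 * g) ^ 2 / (η * δ / s2) * (s2 * (12 * d / ℓ * (η * δ)⁻¹ ^ 3 +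
        2 * Real.pi * ℓ * d / L * (η * δ)⁻¹ ^ 2)) := by
    refine hlip.trans ?_
    have f1 : (s2 * γ.im)⁻¹ ≤ (η * δ)⁻¹ := inv_anti₀ ht htγ
    have f2 : 0 < (s2 * γ.im)⁻¹ := inv_pos.2 hν
    have f3 : |A - Th E s2 γ (nf L qq)| ≤ s2 * (12 * d / ℓ * (η * δ)⁻¹ ^ 3 +
        2 * Real.pi * ℓ * d / L * (η * δ)⁻¹ ^ 2) := by
      refine hTh.trans ?_
      gcongr
    gcongr
  linarith

end Pool.Agent.TH791.QD
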