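import Pool.Agent.TH791.QD.Ex
import Mathlib.Analysis.InnerProductSpace.l2Space

/-! Counting of localized eigenfunctions: the deterministic part. -/

set_option autoImplicit false
set_option linter.unusedSectionVars false

open scoped BigOperators Topology ENNReal
open MeasureTheory Filter Set

namespace Pool.Agent.TH791.QD

open Pool.Agent.W788.LD.Spec (S symm summ_mul)
open Pool.Agent.H4R2.LO (Zd)

variable {d : ℕ}

/-- the square summable functions -/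
noncomputable abbrev L2 (d : ℕ) := lp (fun _ : Zd d => ℂ) 2

theorem L2_sq (f : L2 d) : HasSum (fun x => ‖f x‖ ^ 2) (‖f‖ ^ 2) := by
  have h1 := lp.hasSum_norm (p := 2) (by norm_num) f
  simpa using h1

/-- a finitely supported function -/
noncomputable def fs2 (B : Finset (Zd d)) (f : Zd d → ℂ) : L2 d := by
  classical
  exact ∑ x ∈ B, lp.single 2 x (f x)

theorem fs2_apply (B : Finset (Zd d)) (f : Zd d → ℂ) (y : Zd d) [Decidable (y ∈ B)] :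
    fs2 B f y = if y ∈ B then f y else 0 := by
  classical
  unfold fs2
  rw [lp.coeFn_sum, Finset.sum_apply]
  simp only [lp.coeFn_single]
  by_cases hy : y ∈ B
  · rw [if_pos hy, Finset.sum_eq_single y]
    · rw [Pi.single_eq_same]
    · intro x _ hx
      rw [Pi.single_eq_of_ne (Ne.symm hx)]
    · intro h
      exact absurd hy h
  · rw [if_neg hy]
    refine Finset.sum_eq_zero fun x hx => ?_
    rw [Pi.single_eq_of_ne]
    rintro rfl
    exact hy hx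

theorem fs2_norm (B : Finset (Zd d)) (f : Zd d → ℂ) : ‖fs2 B f‖ ^ 2 = ∑ x ∈ B, ‖f x‖ ^ 2 := by
  classical
  have h1 := L2_sq (fs2 B f)
  have h2 : HasSum (fun x => ‖fs2 B f x‖ ^ 2) (∑ x ∈ B, ‖fs2 B f x‖ ^ 2) := by
    apply hasSum_sum_of_ne_finset_zero
    intro x hx
    rw [fs2_apply, if_neg hx]
    simp
  rw [h1.unique h2]
  refine Finset.sum_congr rfl fun x hx => ?_
  rw [fs2_apply, if_pos hx]

theorem fs2_inner (B : Finset (Zd d)) (f : Zd d → ℂ) (g : L2 d) :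
    inner ℂ (fs2 B f) g = ∑ x ∈ B, (starRingEnd ℂ) (f x) * g x := by
  classical
  unfold fs2
  rw [sum_inner]
  refine Finset.sum_congr rfl fun x _ => ?_
  rw [lp.inner_single_left, RCLike.inner_apply]
  ring

/-- **Bessel** -/
theorem bessel {ι : Type*} [Fintype ι] (φ : ι → L2 d) (hφ : Orthonormal ℂ φ) (B : Finset (Zd d))
    (f : Zd d → ℂ) : ∑ k, ‖∑ x ∈ B, f x * φ k x‖ ^ 2 ≤ ∑ x ∈ B, ‖f x‖ ^ 2 := by
  have h1 := hφ.sum_inner_products_le (fs2 B fun x => (starRingEnd ℂ) (f x)) (s := Finset.univ)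
  rw [fs2_norm] at h1
  simp only [Complex.norm_conj] at h1
  refine le_trans (le_of_eq (Finset.sum_congr rfl fun k _ => ?_)) h1
  rw [← norm_inner_symm, fs2_inner]
  simp

/-- the resolvent is bounded by `1 / t` -/
theorem res_bd (V : Zd d → ℝ) (z : ℂ) (hz : 0 < z.im) (f u : Zd d → ℂ)
    (hu : Summable fun x => ‖u x‖ ^ 2) (hf : Summable fun x => ‖f x‖ ^ 2)
    (he : ∀ x, S u x + (V x : ℂ) * u x - z * u x = f x) :
    z.im ^ 2 * ∑' x, ‖u x‖ ^ 2 ≤ ∑' x, ‖f x‖ ^ 2 := by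
  have h1 := energy V z f u hu he
  have h2 : z.im * ∑' x, ‖u x‖ ^ 2 ≤ z.im / 2 * ∑' x, ‖u x‖ ^ 2 +
      1 / (2 * z.im) * ∑' x, ‖f x‖ ^ 2 := by
    refine hasSum_le (fun x => ?_) h1
      ((hu.hasSum.mul_left (z.im / 2)).add (hf.hasSum.mul_left (1 / (2 * z.im))))
    have h3 := Complex.abs_im_le_norm ((starRingEnd ℂ) (u x) * f x)
    rw [norm_mul, Complex.norm_conj] at h3
    have h4 := neg_abs_le (((starRingEnd ℂ) (u x) * f x).im)
    have h5 : ‖u x‖ * ‖f x‖ ≤ z.im / 2 * ‖u x‖ ^ 2 + 1 / (2 * z.im) * ‖f x‖ ^ 2 := by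
      have h6 : 0 ≤ (z.im * ‖u x‖ - ‖f x‖) ^ 2 / (2 * z.im) := by positivity
      have h7 : (z.im * ‖u x‖ - ‖f x‖) ^ 2 / (2 * z.im) =
          z.im / 2 * ‖u x‖ ^ 2 + 1 / (2 * z.im) * ‖f x‖ ^ 2 - ‖u x‖ * ‖f x‖ := by
        field_simp
        ring
      linarith
    linarith
  have h3 : z.im / 2 * ∑' x, ‖u x‖ ^ 2 ≤ 1 / (2 * z.im) * ∑' x, ‖f x‖ ^ 2 := by linarith
  have h4 := mul_le_mul_of_nonneg_left h3 (by positivity : 0 ≤ 2 * z.im)
  have e1 : 2 * z.im * (z.im / 2 * ∑' x, ‖u x‖ ^ 2) = z.im ^ 2 * ∑' x, ‖u x‖ ^ 2 := by ring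
  have e2 : 2 * z.im * (1 / (2 * z.im) * ∑' x, ‖f x‖ ^ 2) = ∑' x, ‖f x‖ ^ 2 := by
    field_simp
  rw [e1, e2] at h4
  exact h4

theorem S_sum (B : Finset (Zd d)) (f : Zd d → ℂ) (u : Zd d → Zd d → ℂ) (y : Zd d) :
    S (fun y => ∑ x ∈ B, f x * u x y) y = ∑ x ∈ B, f x * S (u x) y := by
  unfold S
  simp only [Finset.mul_sum, ← Finset.sum_add_distrib]
  rw [Finset.sum_comm]
  exact Finset.sum_congr rfl fun x _ => Finset.sum_congr rfl fun i _ => by ring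

/-- one eigenfunction -/
theorem one_loc (V : Zd d → ℝ) (E t : ℝ) (ht : 0 < t) (B : Finset (Zd d))
    (u : Zd d → Zd d → ℂ) (hu : ∀ a ∈ B, GS d V ((E : ℂ) + (t : ℂ) * Complex.I) a (u a))
    (φ : L2 d) (hφ : ‖φ‖ = 1) (lam η ζ th c0 : ℝ) (hζ : 0 < ζ) (hth0 : 0 ≤ th)
    (hc0 : (1 + ζ) * c0 + (1 + 1 / ζ) * (1 - th) ≤ th / (1 + η ^ 2))
    (hlam : |lam - E| ≤ η * t)
    (heig : ∀ x, S φ x + (V x : ℂ) * φ x = lam * φ x) (hmass : th ≤ ∑ x ∈ B, ‖φ x‖ ^ 2) :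
    c0 / t ^ 2 ≤ ∑ a ∈ B, ‖∑ x ∈ B, u x a * φ x‖ ^ 2 := by
  classical
  obtain ⟨z, hz⟩ : ∃ z : ℂ, z = (E : ℂ) + (t : ℂ) * Complex.I := ⟨_, rfl⟩
  rw [← hz] at hu
  have hzi : z.im = t := by rw [hz]; simp
  obtain ⟨w, hw⟩ : ∃ w : ℂ, w = (lam : ℂ) - z := ⟨_, rfl⟩
  have hwn : ‖w‖ ^ 2 = (lam - E) ^ 2 + t ^ 2 := by
    rw [hw, hz, ← Complex.normSq_eq_norm_sq, Complex.normSq_apply]
    simp
    ring
  have hw0 : w ≠ 0 := by
    intro h
    rw [h, norm_zero] at hwn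
    have : 0 < t ^ 2 := by positivity
    nlinarith [sq_nonneg (lam - E)]
  obtain ⟨C, hC⟩ : ∃ C : Zd d → ℂ, C = fun y => ∑ x ∈ B, φ x * u x y := ⟨_, rfl⟩
  obtain ⟨r, hr⟩ : ∃ r : Zd d → ℂ, r = fun y => w⁻¹ * φ y + (-1) * C y := ⟨_, rfl⟩
  have hCss : Summable fun y => ‖C y‖ ^ 2 := by
    rw [hC]
    have h1 : ∀ F : Finset (Zd d), F ⊆ B → Summable fun y => ‖∑ x ∈ F, φ x * u x y‖ ^ 2 := by
      intro F
      induction F using Finset.induction_on with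
      | empty =>
        intro _
        simp only [Finset.sum_empty, norm_zero]
        simp
      | insert a F ha ih =>
        intro hF
        have h2 := ih ((Finset.subset_insert _ _).trans hF)
        have h3 := (hu a (hF (Finset.mem_insert_self _ _))).ss
        refine Summable.of_nonneg_of_le (fun x => sq_nonneg _) (fun y => ?_)
          ((h3.mul_left (2 * ‖φ a‖ ^ 2)).add (h2.mul_left 2))
        rw [Finset.sum_insert ha]
        have h4 := norm_add_le (φ a * u a y) (∑ x ∈ F, φ x * u x y)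
        have h5 := pow_le_pow_left₀ (norm_nonneg _) h4 2
        rw [norm_mul] at h5
        nlinarith [sq_nonneg (‖φ a‖ * ‖u a y‖ - ‖∑ x ∈ F, φ x * u x y‖)]
    exact h1 B le_rfl
  have hφss : Summable fun y => ‖φ y‖ ^ 2 := (L2_sq φ).summable
  have hrss : Summable fun y => ‖r y‖ ^ 2 := by
    refine Summable.of_nonneg_of_le (fun x => sq_nonneg _) (fun y => ?_)
      ((hφss.mul_left (2 * ‖w⁻¹‖ ^ 2)).add (hCss.mul_left 2))
    rw [hr]
    simp only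
    have h4 := norm_add_le (w⁻¹ * φ y) ((-1) * C y)
    have h5 := pow_le_pow_left₀ (norm_nonneg _) h4 2
    rw [norm_mul, norm_mul, norm_neg, norm_one, one_mul] at h5
    nlinarith [sq_nonneg (‖w⁻¹‖ * ‖φ y‖ - ‖C y‖)]
  have hreq : ∀ y, S r y + (V y : ℂ) * r y - z * r y = if y ∈ B then 0 else φ y := by
    intro y
    rw [hr, S_add, S_smul, S_smul]
    have h1 : S C y + (V y : ℂ) * C y - z * C y = if y ∈ B then φ y else 0 := by
      rw [hC, S_sum, Finset.mul_sum, Finset.mul_sum, ← Finset.sum_add_distrib,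
        ← Finset.sum_sub_distrib]
      have h2 : ∀ x ∈ B, φ x * S (u x) y + (V y : ℂ) * (φ x * u x y) - z * (φ x * u x y) =
          if x = y then φ x else 0 := by
        intro x hx
        have h3 := (hu x hx).eq y
        have h4 : φ x * S (u x) y + (V y : ℂ) * (φ x * u x y) - z * (φ x * u x y) =
            φ x * (if y = x then 1 else 0) := by
          rw [← h3]
          ring
        rw [h4]
        by_cases hxy : x = y
        · rw [if_pos hxy, if_pos hxy.symm, mul_one]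
        · rw [if_neg hxy, if_neg (Ne.symm hxy), mul_zero]
      rw [Finset.sum_congr rfl h2, Finset.sum_ite_eq']
    have h5 := heig y
    have h6 : w⁻¹ * S φ y + (V y : ℂ) * (w⁻¹ * φ y) - z * (w⁻¹ * φ y) = φ y := by
      have : w⁻¹ * S φ y + (V y : ℂ) * (w⁻¹ * φ y) - z * (w⁻¹ * φ y) =
          w⁻¹ * ((S φ y + (V y : ℂ) * φ y) - z * φ y) := by ring
      rw [this, h5, ← sub_mul, ← hw, ← mul_assoc, inv_mul_cancel₀ hw0, one_mul]
    by_cases hy : y ∈ B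
    · rw [if_pos hy] at h1 ⊢
      linear_combination h6 - h1
    · rw [if_neg hy] at h1 ⊢
      linear_combination h6 - h1
  have hfss : Summable fun y => ‖(if y ∈ B then 0 else φ y : ℂ)‖ ^ 2 := by
    refine Summable.of_nonneg_of_le (fun x => sq_nonneg _) (fun y => ?_) hφss
    split_ifs
    · simp
    · exact le_rfl
  have hf1 : ∑' y, ‖(if y ∈ B then 0 else φ y : ℂ)‖ ^ 2 ≤ 1 - th := by
    have h1 := L2_sq φ
    rw [hφ, one_pow] at h1
    have h2 : HasSum (fun y => if y ∈ B then ‖φ y‖ ^ 2 else 0) (∑ y ∈ B, ‖φ y‖ ^ 2) := by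
      have h3 : HasSum (fun y => if y ∈ B then ‖φ y‖ ^ 2 else 0)
          (∑ y ∈ B, if y ∈ B then ‖φ y‖ ^ 2 else 0) := by
        apply hasSum_sum_of_ne_finset_zero
        intro x hx
        rw [if_neg hx]
      have h4 : (∑ y ∈ B, if y ∈ B then ‖φ y‖ ^ 2 else 0) = ∑ y ∈ B, ‖φ y‖ ^ 2 :=
        Finset.sum_congr rfl fun y hy => if_pos hy
      rwa [h4] at h3
    have h5 := h1.sub h2
    have h6 : (fun y => ‖φ y‖ ^ 2 - if y ∈ B then ‖φ y‖ ^ 2 else 0) =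
        fun y => ‖(if y ∈ B then 0 else φ y : ℂ)‖ ^ 2 := by
      funext y
      split_ifs
      · simp
      · ring
    rw [h6] at h5
    rw [h5.tsum_eq]
    linarith
  have hb := res_bd V z (by rw [hzi]; exact ht) _ r hrss hfss hreq
  rw [hzi] at hb
  have hb1 : ∑ a ∈ B, ‖r a‖ ^ 2 ≤ (1 - th) / t ^ 2 := by
    have h1 := hrss.sum_le_tsum B fun y _ => sq_nonneg _
    rw [le_div_iff₀ (by positivity)]
    nlinarith [sq_nonneg t]
  have hwn2 : ‖w‖ ^ 2 ≤ (1 + η ^ 2) * t ^ 2 := by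
    rw [hwn]
    have h1 : |lam - E| ^ 2 ≤ (η * t) ^ 2 := pow_le_pow_left₀ (abs_nonneg _) hlam 2
    rw [sq_abs, mul_pow] at h1
    linarith
  have hwpos : 0 < ‖w‖ ^ 2 := by
    have := norm_pos_iff.2 hw0
    positivity
  have hlow : th / (1 + η ^ 2) / t ^ 2 ≤ ∑ a ∈ B, ‖w⁻¹ * φ a‖ ^ 2 := by
    have h1 : ∑ a ∈ B, ‖w⁻¹ * φ a‖ ^ 2 = (∑ a ∈ B, ‖φ a‖ ^ 2) / ‖w‖ ^ 2 := by
      rw [Finset.sum_div]
      refine Finset.sum_congr rfl fun a _ => ?_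
      rw [norm_mul, norm_inv, mul_pow, inv_pow]
      ring
    rw [h1, div_div]
    calc th / ((1 + η ^ 2) * t ^ 2) ≤ th / ‖w‖ ^ 2 := by gcongr
      _ ≤ _ := by gcongr
  have hup : ∑ a ∈ B, ‖w⁻¹ * φ a‖ ^ 2 ≤ (1 + ζ) * ∑ a ∈ B, ‖C a‖ ^ 2 +
      (1 + 1 / ζ) * ∑ a ∈ B, ‖r a‖ ^ 2 := by
    rw [Finset.mul_sum, Finset.mul_sum, ← Finset.sum_add_distrib]
    refine Finset.sum_le_sum fun a _ => ?_
    have h1 : w⁻¹ * φ a = C a + r a := by
      rw [hr]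
      simp only
      ring
    rw [h1]
    have h4 := norm_add_le (C a) (r a)
    have h5 := pow_le_pow_left₀ (norm_nonneg _) h4 2
    have h6 : 0 ≤ (ζ * ‖C a‖ - ‖r a‖) ^ 2 / ζ := by positivity
    have h7 : (ζ * ‖C a‖ - ‖r a‖) ^ 2 / ζ =
        ζ * ‖C a‖ ^ 2 + 1 / ζ * ‖r a‖ ^ 2 - 2 * ‖C a‖ * ‖r a‖ := by
      field_simp
      ring
    nlinarith
  have hfin : ∑ a ∈ B, ‖C a‖ ^ 2 = ∑ a ∈ B, ‖∑ x ∈ B, u x a * φ x‖ ^ 2 := by
    rw [hC]
    refine Finset.sum_congr rfl fun a _ => ?_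
    simp only
    congr 2
    exact Finset.sum_congr rfl fun x _ => mul_comm _ _
  rw [← hfin]
  have h1 : (1 + 1 / ζ) * ∑ a ∈ B, ‖r a‖ ^ 2 ≤ (1 + 1 / ζ) * ((1 - th) / t ^ 2) := by gcongr
  have h2 : ((1 + ζ) * c0 + (1 + 1 / ζ) * (1 - th)) / t ^ 2 ≤ th / (1 + η ^ 2) / t ^ 2 := by
    gcongr
  have h3 : ((1 + ζ) * c0 + (1 + 1 / ζ) * (1 - th)) / t ^ 2 =
      (1 + ζ) * (c0 / t ^ 2) + (1 + 1 / ζ) * ((1 - th) / t ^ 2) := by ring
  rw [h3] at h2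
  have h4 : (1 + ζ) * (c0 / t ^ 2) ≤ (1 + ζ) * ∑ a ∈ B, ‖C a‖ ^ 2 := by linarith
  exact le_of_mul_le_mul_left h4 (by positivity)

/-- **the counting of localized eigenfunctions** -/
theorem count_loc (V : Zd d → ℝ) (E t : ℝ) (ht : 0 < t) (B : Finset (Zd d))
    (u : Zd d → Zd d → ℂ) (hu : ∀ a ∈ B, GS d V ((E : ℂ) + (t : ℂ) * Complex.I) a (u a))
    (D : ℝ) (hD : ∀ a ∈ B, ∑ x ∈ B, ‖u a x‖ ^ 2 ≤ D) {ι : Type*} [Fintype ι] (φ : ι → L2 d)
    (hφ : Orthonormal ℂ φ) (lam : ι → ℝ) (η ζ th c0 : ℝ) (hζ : 0 < ζ) (hth0 : 0 ≤ th)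
    (hc0 : (1 + ζ) * c0 + (1 + 1 / ζ) * (1 - th) ≤ th / (1 + η ^ 2))
    (hlam : ∀ k, |lam k - E| ≤ η * t)
    (heig : ∀ k x, S (φ k) x + (V x : ℂ) * φ k x = lam k * φ k x)
    (hmass : ∀ k, th ≤ ∑ x ∈ B, ‖φ k x‖ ^ 2) :
    Fintype.card ι * (c0 / t ^ 2) ≤ B.card * D := by
  have h1 : ∑ _k : ι, (c0 / t ^ 2) ≤
      ∑ k, ∑ a ∈ B, ‖∑ x ∈ B, u x a * φ k x‖ ^ 2 := Finset.sum_le_sum fun k _ =>
    one_loc V E t ht B u hu (φ k) (hφ.norm_eq_one k) (lam k) η ζ th c0 hζ hth0 hc0 (hlam k)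
      (heig k) (hmass k)
  rw [Finset.sum_const, Finset.card_univ, nsmul_eq_mul, Finset.sum_comm] at h1
  refine h1.trans ?_
  have h2 : ∑ a ∈ B, ∑ k, ‖∑ x ∈ B, u x a * φ k x‖ ^ 2 ≤ ∑ a ∈ B, ∑ x ∈ B, ‖u x a‖ ^ 2 :=
    Finset.sum_le_sum fun a _ => bessel φ hφ B fun x => u x a
  refine h2.trans ?_
  rw [Finset.sum_comm]
  refine (Finset.sum_le_sum fun x hx => hD x hx).trans (le_of_eq ?_)
  rw [Finset.sum_const, nsmul_eq_mul]

end Pool.Agent.TH791.QD
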