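import Mathlib

/-! The mass near the origin from the characteristic function. -/

set_option autoImplicit false
set_option linter.unusedSectionVars false

open scoped BigOperators Topology ENNReal
open MeasureTheory Filter Set

namespace Pool.Agent.TH791.QD

/-- the phases -/
noncomputable def eph (m : ℤ) (θ : ℝ) : ℂ := Complex.exp (Complex.I * (((m : ℝ) * θ : ℝ) : ℂ))

theorem eph_norm (m : ℤ) (θ : ℝ) : ‖eph m θ‖ = 1 := by
  unfold eph
  rw [mul_comm]
  exact Complex.norm_exp_ofReal_mul_I _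

theorem eph_conj (m : ℤ) (θ : ℝ) : (starRingEnd ℂ) (eph m θ) = eph (-m) θ := by
  unfold eph
  rw [← Complex.exp_conj]
  congr 1
  simp

theorem eph_mul (m k : ℤ) (θ : ℝ) : eph m θ * eph k θ = eph (m + k) θ := by
  unfold eph
  rw [← Complex.exp_add]
  congr 1
  push_cast
  ring

/-- the sum of the phases -/
noncomputable def Sph (N : ℕ) (θ : ℝ) : ℂ := ∑ j ∈ Finset.range N, eph j θ

theorem Sph_low (N : ℕ) (θ : ℝ) (h : N * |θ| ≤ 1) : (N : ℝ) / 2 ≤ ‖Sph N θ‖ := by
  refine le_trans ?_ (Complex.abs_re_le_norm _)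
  refine le_trans ?_ (le_abs_self _)
  unfold Sph
  rw [Complex.re_sum]
  have h1 : ∀ j ∈ Finset.range N, (1 / 2 : ℝ) ≤ (eph j θ).re := by
    intro j hj
    have hj' : (j : ℝ) ≤ N := by exact_mod_cast (Finset.mem_range.1 hj).le
    have h2 : (eph j θ).re = Real.cos (j * θ) := by
      unfold eph
      rw [mul_comm, Complex.exp_ofReal_mul_I_re]
      simp
    rw [h2]
    have h3 := Real.one_sub_sq_div_two_le_cos (x := j * θ)
    have h4 : |(j : ℝ) * θ| ≤ 1 := by
      rw [abs_mul, abs_of_nonneg (Nat.cast_nonneg j)]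
      exact (mul_le_mul_of_nonneg_right hj' (abs_nonneg _)).trans h
    have h5 : ((j : ℝ) * θ) ^ 2 ≤ 1 := by
      rw [← sq_abs]
      exact pow_le_one₀ (abs_nonneg _) h4
    linarith
  have h2 := Finset.sum_le_sum h1
  rw [Finset.sum_const, Finset.card_range, nsmul_eq_mul] at h2
  linarith

theorem Sph_sq (N : ℕ) (θ : ℝ) : ((‖Sph N θ‖ ^ 2 : ℝ) : ℂ) =
    ∑ j ∈ Finset.range N, ∑ k ∈ Finset.range N, eph ((j : ℤ) - k) θ := by
  rw [← Complex.normSq_eq_norm_sq, ← Complex.mul_conj]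
  unfold Sph
  rw [map_sum, Finset.sum_mul_sum]
  refine Finset.sum_congr rfl fun j _ => Finset.sum_congr rfl fun k _ => ?_
  rw [eph_conj, eph_mul, sub_eq_add_neg]

/-- **the mass near the origin** -/
theorem mass_near {ι : Type*} (p : ι → ℝ) (hp : ∀ x, 0 ≤ p x) (hs : Summable p) (θ : ι → ℝ)
    (N : ℕ) (hN : 1 ≤ N) (P0 ms : ℝ) (hms : 0 ≤ ms)
    (h0 : ‖∑' x, eph 0 (θ x) * ((p x : ℝ) : ℂ)‖ ≤ P0)
    (hm : ∀ m : ℤ, m ≠ 0 → |m| < N → ‖∑' x, eph m (θ x) * ((p x : ℝ) : ℂ)‖ ≤ ms)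
    (F : Finset ι) (hF : ∀ x ∈ F, N * |θ x| ≤ 1) :
    ∑ x ∈ F, p x ≤ 4 * P0 / N + 4 * ms := by
  have hN0 : (0 : ℝ) < N := by exact_mod_cast hN
  have hP0 : 0 ≤ P0 := (norm_nonneg _).trans h0
  have hsum : ∀ m : ℤ, HasSum (fun x => eph m (θ x) * ((p x : ℝ) : ℂ))
      (∑' x, eph m (θ x) * ((p x : ℝ) : ℂ)) := by
    intro m
    refine (Summable.of_norm (hs.congr fun x => ?_)).hasSum
    rw [norm_mul, eph_norm, one_mul, Complex.norm_real, Real.norm_of_nonneg (hp x)]
  have h1 : HasSum (fun x => ((‖Sph N (θ x)‖ ^ 2 * p x : ℝ) : ℂ))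
      (∑ j ∈ Finset.range N, ∑ k ∈ Finset.range N,
        ∑' x, eph ((j : ℤ) - k) (θ x) * ((p x : ℝ) : ℂ)) := by
    have h2 := hasSum_sum (s := Finset.range N) fun j _ =>
      hasSum_sum (s := Finset.range N) fun k _ => hsum ((j : ℤ) - k)
    have e1 : (fun x => ((‖Sph N (θ x)‖ ^ 2 * p x : ℝ) : ℂ)) = fun x =>
        ∑ j ∈ Finset.range N, ∑ k ∈ Finset.range N,
          eph ((j : ℤ) - k) (θ x) * ((p x : ℝ) : ℂ) := by
      funext x
      rw [Complex.ofReal_mul, Sph_sq, Finset.sum_mul]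
      exact Finset.sum_congr rfl fun j _ => Finset.sum_mul _ _ _
    rw [e1]
    exact h2
  have h3 : Summable fun x => ‖Sph N (θ x)‖ ^ 2 * p x := by
    have := h1.summable
    exact Complex.summable_ofReal.1 this
  have h4 : ∑' x, ‖Sph N (θ x)‖ ^ 2 * p x ≤ N * P0 + N ^ 2 * ms := by
    have h5 : ((∑' x, ‖Sph N (θ x)‖ ^ 2 * p x : ℝ) : ℂ) =
        ∑ j ∈ Finset.range N, ∑ k ∈ Finset.range N,
        ∑' x, eph ((j : ℤ) - k) (θ x) * ((p x : ℝ) : ℂ) := by
      rw [Complex.ofReal_tsum]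
      exact h1.tsum_eq
    have h6 := congrArg norm h5
    rw [Complex.norm_real, Real.norm_of_nonneg (tsum_nonneg fun x =>
      mul_nonneg (sq_nonneg _) (hp x))] at h6
    rw [h6]
    refine (norm_sum_le _ _).trans ?_
    have h7 : ∀ j ∈ Finset.range N, ‖∑ k ∈ Finset.range N,
        ∑' x, eph ((j : ℤ) - k) (θ x) * ((p x : ℝ) : ℂ)‖ ≤ P0 + N * ms := by
      intro j hj
      refine (norm_sum_le _ _).trans ?_
      have h8 : ∀ k ∈ Finset.range N, ‖∑' x, eph ((j : ℤ) - k) (θ x) * ((p x : ℝ) : ℂ)‖ ≤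
          (if k = j then P0 else 0) + ms := by
        intro k hk
        by_cases hkj : k = j
        · rw [if_pos hkj, hkj, sub_self]
          linarith
        · rw [if_neg hkj, zero_add]
          apply hm
          · intro h
            apply hkj
            omega
          · have := Finset.mem_range.1 hj
            have := Finset.mem_range.1 hk
            rw [abs_lt]
            constructor <;> omega
      refine (Finset.sum_le_sum h8).trans (le_of_eq ?_)
      rw [Finset.sum_add_distrib, Finset.sum_ite_eq' (Finset.range N) j, if_pos hj,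
        Finset.sum_const, Finset.card_range, nsmul_eq_mul]
    refine (Finset.sum_le_sum h7).trans (le_of_eq ?_)
    rw [Finset.sum_const, Finset.card_range, nsmul_eq_mul]
    ring
  have h5 : ∑ x ∈ F, (N / 2 : ℝ) ^ 2 * p x ≤ ∑' x, ‖Sph N (θ x)‖ ^ 2 * p x := by
    refine (Finset.sum_le_sum fun x hx => ?_).trans
      (h3.sum_le_tsum F fun x _ => mul_nonneg (sq_nonneg _) (hp x))
    have h6 := Sph_low N (θ x) (hF x hx)
    exact mul_le_mul_of_nonneg_right (pow_le_pow_left₀ (by positivity) h6 2) (hp x)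
  rw [← Finset.mul_sum] at h5
  have h6 := h5.trans h4
  have h7 : 4 * P0 / N + 4 * ms = 4 / N ^ 2 * (N * P0 + N ^ 2 * ms) := by
    field_simp
  rw [h7]
  calc ∑ x ∈ F, p x = 4 / (N : ℝ) ^ 2 * ((N / 2 : ℝ) ^ 2 * ∑ x ∈ F, p x) := by
        field_simp
        ring
    _ ≤ _ := by gcongr

end Pool.Agent.TH791.QD
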