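import Pool.Agent.TH791.QD.TimE
import Pool.Agent.TH791.QD.Dif7

/-! The law, its diffusive limit and the time domain. -/

set_option autoImplicit false
set_option linter.unusedSectionVars false

open scoped BigOperators Topology
open MeasureTheory Filter Set

namespace Pool.Agent.TH791.QD

open Pool.Agent.W788.BK
open Pool.Agent.H4R2.LO (Zd)
open Pool.Agent.TH794.QD (GF F0 La Sol)

/-- the time domain law for one potential -/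
theorem time_of (d : ℕ) (hd : 3 ≤ d) (V : Zd d → ℝ) (a : Zd d) (ψ : ℝ → Zd d → ℂ)
    (h : Evo d V a ψ) (t : ℝ) (ht : 0 < t) (r c e5 : ℝ) (hc : 0 ≤ c) (he5 : 0 ≤ e5)
    (X : ℝ) (hX : 0 ≤ X)
    (hlaw : ∀ (E : ℝ) (u : Zd d → ℂ), GS d V ((E : ℂ) + (t : ℂ) * Complex.I) a u →
      c ≤ nn0 d E → ∀ κ : Fin d → ℝ, ∑ i, κ i ^ 2 ≤ X →
      ‖(t : ℂ) * ∑' x : Zd d, Complex.exp (Complex.I *
          ((∑ i, κ i * r * ((x i : ℝ) - a i) : ℝ) : ℂ)) * ((‖u x‖ ^ 2 : ℝ) : ℂ) -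
        ((pf d (∑ i, κ i ^ 2) E : ℝ) : ℂ)‖ ≤ e5)
    (κ : Fin d → ℝ) (hκ : ∑ i, κ i ^ 2 ≤ X) :
    ‖((2 * t : ℝ) : ℂ) * (∫ s in Ioi (0 : ℝ), ((Real.exp (-(2 * t) * s) : ℝ) : ℂ) *
        ∑' x : Zd d, Complex.exp (Complex.I *
          ((∑ i, κ i * r * ((x i : ℝ) - a i) : ℝ) : ℂ)) * ((‖ψ s x‖ ^ 2 : ℝ) : ℂ)) -
      ((1 / Real.pi * ∫ E in (-(3 * d : ℝ))..(3 * d), pf d (∑ i, κ i ^ 2) E : ℝ) : ℂ)‖ ≤
      4 * d * (e5 + c) := by
  have hO : S_OSC := Pool.Agent.W918.BK.Osc.osc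
  have hn : ∀ (E : ℝ) x, ‖-(starRingEnd ℂ) (Complex.I *
      La (fun s x => (starRingEnd ℂ) (ψ s x)) E t x)‖ =
      ‖La (fun s x => (starRingEnd ℂ) (ψ s x)) E t x‖ := by
    intro E x
    rw [norm_neg, Complex.norm_conj, norm_mul, Complex.norm_I, one_mul]
  have hK0 : 0 ≤ ∑ i, κ i ^ 2 := Finset.sum_nonneg fun i _ => sq_nonneg _
  have key := time_det hO hd h.sol t ht (fun x => ∑ i, κ i * r * ((x i : ℝ) - a i))
    (∑ i, κ i ^ 2) c e5 hK0 hc he5 ?_ ?_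
  · simp only [Complex.norm_conj] at key
    exact key
  · intro E hE
    have h1 := hlaw (-E) _ (h.green E t ht) hE κ hκ
    simp only [hn] at h1
    exact h1
  · intro E hE
    have h1 := hlaw (-E) _ (h.green E t ht) hE (fun _ => 0) (by simpa using hX)
    simp only [hn] at h1
    have e1 : ∀ x : Zd d, Complex.exp (Complex.I *
        ((∑ i : Fin d, 0 * r * ((x i : ℝ) - a i) : ℝ) : ℂ)) = 1 := by
      intro x
      simp
    simp only [e1, one_mul] at h1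
    have e2 : pf d (∑ _i : Fin d, (0 : ℝ) ^ 2) (-E) = nn0 d (-E) := by
      unfold pf
      simp
    rw [e2, ← Complex.ofReal_tsum, ← Complex.ofReal_mul, ← Complex.ofReal_sub,
      Complex.norm_real, Real.norm_eq_abs] at h1
    have := (abs_le.1 h1).1
    linarith

/-- **the final theorem** -/
theorem finalT (d : ℕ) (hd : 3 ≤ d) (A v c ε : ℝ) (hA : 0 < A) (hv : 0 < v) (hc : 0 < c)
    (hε : 0 < ε) :
    ∃ s0 : ℝ, 0 < s0 ∧ ∀ (μ : Measure ℝ), IsProbabilityMeasure μ →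
      (∀ r : ℝ, 0 ≤ r → μ.real {s | r < |s|} ≤ A * Real.exp (-r)) →
      ∀ M V : ℝ, ∫ s, s ∂μ = M → ∫ s, (s - M) ^ 2 ∂μ = V → v ≤ V →
      ∀ σ : ℝ, 0 < |σ| → |σ| ≤ s0 → ∀ (t : ℝ), t = |σ| ^ (81 / 40 : ℝ) →
      ∃ G : Set (Zd d → ℝ), MeasurableSet G ∧
        1 - Real.exp (-|σ| ^ (-(1 / 150) : ℝ)) ≤
          (Measure.infinitePi fun _ : Zd d => μ).real G ∧
        ∀ ξ ∈ G, ∀ a : Zd d, ‖a‖ ≤ Real.exp (|σ| ^ (-(1 / 150) : ℝ)) →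
          (∀ (E : ℝ) (u : Zd d → ℂ),
          GS d (fun x => σ * ξ x) ((E : ℂ) + (t : ℂ) * Complex.I) a u →
          (∀ γ : ℂ, c ≤ γ.im → ∀ w : Zd d → ℂ,
            GS d (fun _ => 0) (((E - σ * M : ℝ) : ℂ) + (t : ℂ) * Complex.I +
              ((σ ^ 2 * V : ℝ) : ℂ) * γ) 0 w → w 0 = γ →
            ∀ q : Fin d → ℝ,
            ‖(t : ℂ) * ∑' x : Zd d, Complex.exp (Complex.I *
                ((∑ i, q i * ((x i : ℝ) - a i) : ℝ) : ℂ)) * ((‖u x‖ ^ 2 : ℝ) : ℂ) -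
              ((t / (σ ^ 2 * V) *
                ((σ ^ 2 * V * ∑' x : Zd d, Real.cos (∑ i, q i * x i) * ‖w x‖ ^ 2) /
                (1 - σ ^ 2 * V * ∑' x : Zd d, Real.cos (∑ i, q i * x i) * ‖w x‖ ^ 2)) : ℝ) : ℂ)‖ ≤
              |σ| ^ (1 / 100 : ℝ)) ∧
          (c ≤ nn0 d E → ∀ κ : Fin d → ℝ,
            ∑ i, κ i ^ 2 ≤ |σ| ^ (-(1 / 500) : ℝ) →
            ‖(t : ℂ) * ∑' x : Zd d, Complex.exp (Complex.I *
                ((∑ i, κ i * Real.sqrt (t * (σ ^ 2 * V)) * ((x i : ℝ) - a i) : ℝ) : ℂ)) *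
                  ((‖u x‖ ^ 2 : ℝ) : ℂ) -
              ((pf d (∑ i, κ i ^ 2) E : ℝ) : ℂ)‖ ≤ |σ| ^ (1 / 200 : ℝ))) ∧
          ∀ ψ : ℝ → Zd d → ℂ, Evo d (fun x => σ * ξ x) a ψ → ∀ κ : Fin d → ℝ,
            ∑ i, κ i ^ 2 ≤ |σ| ^ (-(1 / 500) : ℝ) →
            ‖((2 * t : ℝ) : ℂ) * (∫ s in Ioi (0 : ℝ), ((Real.exp (-(2 * t) * s) : ℝ) : ℂ) *
              ∑' x : Zd d, Complex.exp (Complex.I *
                ((∑ i, κ i * Real.sqrt (t * (σ ^ 2 * V)) * ((x i : ℝ) - a i) : ℝ) : ℂ)) *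
                  ((‖ψ s x‖ ^ 2 : ℝ) : ℂ)) -
              ((1 / Real.pi * ∫ E in (-(3 * d : ℝ))..(3 * d), pf d (∑ i, κ i ^ 2) E : ℝ) : ℂ)‖ ≤
              ε := by
  have hd0 : (0 : ℝ) < d := by
    have : (3 : ℝ) ≤ d := by exact_mod_cast hd
    linarith
  obtain ⟨c', hc'⟩ : ∃ c', c' = min c (ε / (8 * d)) := ⟨_, rfl⟩
  have hc'0 : 0 < c' := by rw [hc']; exact lt_min hc (by positivity)
  have hc'c : c' ≤ c := by rw [hc']; exact min_le_left _ _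
  have hc'e : c' ≤ ε / (8 * d) := by rw [hc']; exact min_le_right _ _
  obtain ⟨s0, hs0, h⟩ := finalS d hd A v c' hA hv hc'0
  refine ⟨min s0 ((ε / (8 * d)) ^ (200 : ℝ)), lt_min hs0 (by positivity), ?_⟩
  intro μ hμ htail M V hM hV hvV σ hσ hσ0 t ht
  obtain ⟨G, hG, hP, hb⟩ := h μ hμ htail M V hM hV hvV σ hσ (hσ0.trans (min_le_left _ _)) t ht
  have he5 : |σ| ^ (1 / 200 : ℝ) ≤ ε / (8 * d) := by
    have h1 := Real.rpow_le_rpow hσ.le (hσ0.trans (min_le_right _ _))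
      (show (0 : ℝ) ≤ 1 / 200 by norm_num)
    refine h1.trans (le_of_eq ?_)
    rw [← Real.rpow_mul (by positivity)]
    norm_num
  have ht0 : 0 < t := by rw [ht]; positivity
  refine ⟨G, hG, hP, fun ξ hξ a ha => ⟨fun E u hu => ⟨?_, ?_⟩, ?_⟩⟩
  · intro γ hγ w hw hw0 q
    exact (hb ξ hξ a ha E u hu).1 γ (hc'c.trans hγ) w hw hw0 q
  · intro hE κ hκ
    exact (hb ξ hξ a ha E u hu).2 (hc'c.trans hE) κ hκ
  · intro ψ hψ κ hκ
    have h1 := time_of d hd _ a ψ hψ t ht0 (Real.sqrt (t * (σ ^ 2 * V))) c'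
      (|σ| ^ (1 / 200 : ℝ)) hc'0.le (by positivity) (|σ| ^ (-(1 / 500) : ℝ)) (by positivity)
      (fun E u hu hE κ hκ => (hb ξ hξ a ha E u hu).2 hE κ hκ) κ hκ
    refine h1.trans ?_
    calc 4 * (d : ℝ) * (|σ| ^ (1 / 200 : ℝ) + c') ≤ 4 * d * (ε / (8 * d) + ε / (8 * d)) := by
          gcongr
      _ = ε := by
          field_simp
          ring

end Pool.Agent.TH791.QD
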