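import Pool.Agent.TH791.QD.Loc1
import Pool.Agent.TH791.QD.Loc2
import Pool.Agent.TH791.QD.Pos
import Pool.Agent.TH791.QD.TimF
import Pool.Agent.TH791.GR.Mom

/-! Delocalization below the diffusive length. -/

set_option autoImplicit false
set_option linter.unusedSectionVars false

open scoped BigOperators Topology ENNReal
open MeasureTheory Filter Set

namespace Pool.Agent.TH791.QD

open Pool.Agent.W788.BK (S_OSC)
open Pool.Agent.W788.LD.Spec (S)
open Pool.Agent.H4R2.LO (Zd)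
open Pool.Agent.TH791.GR (moments)

theorem small_pow (K e : ℝ) (hK : 0 < K) (he : 0 < e) :
    ∃ s : ℝ, 0 < s ∧ ∀ x : ℝ, 0 < x → x ≤ s → K * x ^ e ≤ 1 := by
  refine ⟨(1 / K) ^ (1 / e), by positivity, fun x hx hxs => ?_⟩
  have h1 := Real.rpow_le_rpow hx.le hxs he.le
  rw [← Real.rpow_mul (by positivity), one_div_mul_cancel he.ne', Real.rpow_one] at h1
  calc K * x ^ e ≤ K * (1 / K) := by gcongr
    _ = 1 := by field_simp

/-- the mass of the Green function in a ball -/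
theorem green_mass (d : ℕ) (hd : 3 ≤ d) (V : Zd d → ℝ) (a : Zd d) (E t r : ℝ) (ht : 0 < t)
    (hr : 0 ≤ r) (u : Zd d → ℂ)
    (hu : GS d V ((E : ℂ) + (t : ℂ) * Complex.I) a u) (X e5 C0 c : ℝ) (he5 : 0 ≤ e5)
    (hc : 0 < c)
    (hlaw : ∀ κ : Fin d → ℝ, ∑ i, κ i ^ 2 ≤ X →
      ‖(t : ℂ) * ∑' x : Zd d, Complex.exp (Complex.I *
          ((∑ i, κ i * r * ((x i : ℝ) - a i) : ℝ) : ℂ)) * ((‖u x‖ ^ 2 : ℝ) : ℂ) -
        ((pf d (∑ i, κ i ^ 2) E : ℝ) : ℂ)‖ ≤ e5)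
    (hc1 : c ≤ nn1 d E) (hc2 : nn1 d E ≤ nn0 d E) (hC0 : nn0 d E ≤ C0)
    (h : ℝ) (hh : 0 < h) (N : ℕ) (hN : 1 ≤ N)
    (hX : ∀ m : ℤ, |m| < N → ((m : ℝ) * h) ^ 2 ≤ X)
    (B : Finset (Zd d)) (l : ℝ) (hB : ∀ x ∈ B, ‖x - a‖ ≤ l) (hl : N * (h * r * l) ≤ 1) :
    ∑ x ∈ B, t * ‖u x‖ ^ 2 ≤ 4 * (C0 + e5) / N + 4 * (C0 ^ 3 / (c * h ^ 2) + e5) := by
  obtain ⟨i0, hi0⟩ : ∃ i0 : Fin d, i0 = ⟨0, by omega⟩ := ⟨_, rfl⟩
  have hn0 : 0 < nn0 d E := by linarith
  have hC : 0 < C0 := by linarith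
  have hlaw' : ∀ m : ℤ, |m| < N → ‖∑' x, eph m (h * r * ((x i0 : ℝ) - a i0)) *
      ((t * ‖u x‖ ^ 2 : ℝ) : ℂ)‖ ≤ pf d (((m : ℝ) * h) ^ 2) E + e5 := by
    intro m hm
    have e1 : ∀ f : Fin d → ℝ, ∑ i, (if i = i0 then (m : ℝ) * h else 0) * r * f i =
        m * (h * r * f i0) := by
      intro f
      rw [Finset.sum_eq_single i0]
      · rw [if_pos rfl]
        ring
      · intro i _ hi
        rw [if_neg hi]
        ring
      · intro h
        exact absurd (Finset.mem_univ _) h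
    have e2 : ∑ i : Fin d, (if i = i0 then (m : ℝ) * h else 0) ^ 2 = ((m : ℝ) * h) ^ 2 := by
      rw [Finset.sum_eq_single i0]
      · rw [if_pos rfl]
      · intro i _ hi
        rw [if_neg hi]
        norm_num
      · intro h
        exact absurd (Finset.mem_univ _) h
    have h1 := hlaw (fun i => if i = i0 then (m : ℝ) * h else 0) (by rw [e2]; exact hX m hm)
    rw [e2] at h1
    have e3 : ∀ x : Zd d, ∑ i, (if i = i0 then (m : ℝ) * h else 0) * r * ((x i : ℝ) - a i) =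
        m * (h * r * ((x i0 : ℝ) - a i0)) := fun x => e1 fun i => (x i : ℝ) - a i
    simp only [e3] at h1
    have e4 : ∑' x, eph m (h * r * ((x i0 : ℝ) - a i0)) * ((t * ‖u x‖ ^ 2 : ℝ) : ℂ) =
        (t : ℂ) * ∑' x : Zd d, Complex.exp (Complex.I *
          (((m : ℝ) * (h * r * ((x i0 : ℝ) - a i0)) : ℝ) : ℂ)) * ((‖u x‖ ^ 2 : ℝ) : ℂ) := by
      rw [← tsum_mul_left]
      refine tsum_congr fun x => ?_
      unfold eph
      push_cast
      ring
    rw [e4]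
    have hpf : 0 ≤ pf d (((m : ℝ) * h) ^ 2) E := by
      unfold pf
      have : 0 ≤ nn1 d E := by linarith
      positivity
    have h2 := norm_sub_norm_le ((t : ℂ) * ∑' x : Zd d, Complex.exp (Complex.I *
          (((m : ℝ) * (h * r * ((x i0 : ℝ) - a i0)) : ℝ) : ℂ)) * ((‖u x‖ ^ 2 : ℝ) : ℂ))
        ((pf d (((m : ℝ) * h) ^ 2) E : ℝ) : ℂ)
    rw [Complex.norm_real (pf d (((m : ℝ) * h) ^ 2) E), Real.norm_of_nonneg hpf] at h2
    linarith
  refine mass_near (fun x => t * ‖u x‖ ^ 2) (fun x => by positivity) (hu.ss.mul_left t)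
    (fun x => h * r * ((x i0 : ℝ) - a i0)) N hN (C0 + e5) (C0 ^ 3 / (c * h ^ 2) + e5)
    (by positivity) ?_ ?_ B ?_
  · have h1 := hlaw' 0 (by rw [abs_zero]; exact_mod_cast hN)
    refine h1.trans ?_
    have h2 : pf d ((((0 : ℤ) : ℝ) * h) ^ 2) E = nn0 d E := by
      unfold pf
      simp
    rw [h2]
    linarith
  · intro m hm0 hm
    refine (hlaw' m hm).trans ?_
    have h1 : pf d (((m : ℝ) * h) ^ 2) E ≤ C0 ^ 3 / (c * h ^ 2) := by
      have hm1 : (1 : ℝ) ≤ (m : ℝ) ^ 2 := by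
        have : (1 : ℤ) ≤ m ^ 2 := by
          have := Int.one_le_abs hm0
          rw [← sq_abs]
          nlinarith
        exact_mod_cast this
      have hK : h ^ 2 ≤ ((m : ℝ) * h) ^ 2 := by
        rw [mul_pow]
        nlinarith [sq_nonneg h]
      unfold pf
      have h2 : ((m : ℝ) * h) ^ 2 * nn1 d E / nn0 d E ^ 2 ≤
          1 + ((m : ℝ) * h) ^ 2 * nn1 d E / nn0 d E ^ 2 := by linarith
      have hK0 : 0 < ((m : ℝ) * h) ^ 2 := lt_of_lt_of_le (by positivity) hK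
      have hn1 : 0 < nn1 d E := by linarith
      calc nn0 d E / (1 + ((m : ℝ) * h) ^ 2 * nn1 d E / nn0 d E ^ 2) ≤
          nn0 d E / (((m : ℝ) * h) ^ 2 * nn1 d E / nn0 d E ^ 2) := by gcongr
        _ = nn0 d E ^ 3 / (((m : ℝ) * h) ^ 2 * nn1 d E) := by field_simp
        _ ≤ C0 ^ 3 / (h ^ 2 * c) := by gcongr
        _ = _ := by rw [mul_comm c]
    linarith
  · intro x hx
    have h1 : |(x i0 : ℝ) - a i0| ≤ l := by
      refine le_trans ?_ (hB x hx)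
      have h2 := norm_le_pi_norm (x - a) i0
      rw [Pi.sub_apply, Int.norm_eq_abs] at h2
      push_cast at h2
      exact h2
    have h0 : 0 ≤ l := (abs_nonneg _).trans h1
    rw [abs_mul, abs_of_nonneg (by positivity : 0 ≤ h * r)]
    refine le_trans ?_ hl
    gcongr

/-- the density of states at a site -/
theorem im_low (d : ℕ) (V : Zd d → ℝ) (a : Zd d) (E t r : ℝ) (u : Zd d → ℂ)
    (hu : GS d V ((E : ℂ) + (t : ℂ) * Complex.I) a u) (X e5 : ℝ) (hX : 0 ≤ X)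
    (hlaw : ∀ κ : Fin d → ℝ, ∑ i, κ i ^ 2 ≤ X →
      ‖(t : ℂ) * ∑' x : Zd d, Complex.exp (Complex.I *
          ((∑ i, κ i * r * ((x i : ℝ) - a i) : ℝ) : ℂ)) * ((‖u x‖ ^ 2 : ℝ) : ℂ) -
        ((pf d (∑ i, κ i ^ 2) E : ℝ) : ℂ)‖ ≤ e5) : nn0 d E - e5 ≤ (u a).im := by
  have h1 := hlaw (fun _ => 0) (by simpa using hX)
  have e1 : ∀ x : Zd d, Complex.exp (Complex.I *
      ((∑ i : Fin d, 0 * r * ((x i : ℝ) - a i) : ℝ) : ℂ)) = 1 := by
    intro x
    simp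
  simp only [e1, one_mul] at h1
  have e2 : pf d (∑ _i : Fin d, (0 : ℝ) ^ 2) E = nn0 d E := by
    unfold pf
    simp
  rw [e2, ← Complex.ofReal_tsum, ← Complex.ofReal_mul, ← Complex.ofReal_sub,
    Complex.norm_real, Real.norm_eq_abs] at h1
  have h2 := (abs_le.1 h1).1
  have h3 := hu.ward
  have e3 : ((E : ℂ) + (t : ℂ) * Complex.I).im = t := by simp
  rw [e3] at h3
  linarith

/-- the constants -/
theorem loc_const (th : ℝ) (h1 : 1 / 2 < th) (h2 : th ≤ 1) (g : ℝ) (hg : g = th - 1 / 2) :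
    (1 + 1 / g) * (g ^ 2 / 2) + (1 + 1 / (1 / g)) * (1 - th) ≤ th / (1 + g ^ 2) := by
  have hg0 : 0 < g := by linarith
  have hg1 : g ≤ 1 / 2 := by linarith
  have e1 : th = g + 1 / 2 := by linarith
  rw [e1, le_div_iff₀ (by positivity), one_div_one_div]
  have e2 : ((1 + 1 / g) * (g ^ 2 / 2) + (1 + g) * (1 - (g + 1 / 2))) = 1 / 2 - g ^ 2 / 2 := by
    field_simp
    ring
  rw [e2]
  nlinarith [pow_pos hg0 2, pow_pos hg0 4]

/-- splitting a window -/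
theorem split_win (n : ℕ) (lam : Fin n → ℝ) (E t g : ℝ) (ht : 0 < t) (hg : 0 < g)
    (hlam : ∀ k, |lam k - E| ≤ t) (K : ℝ)
    (h : ∀ (E' : ℝ) (p : Fin n → Prop) [DecidablePred p], |E' - E| ≤ t + g * t →
      (∀ k, p k → |lam k - E'| ≤ g * t) → (Fintype.card {k // p k} : ℝ) ≤ K) :
    (n : ℝ) ≤ (1 / g + 1) * K := by
  obtain ⟨f, hf⟩ : ∃ f : Fin n → ℕ, f = fun k => ⌊(lam k - E + t) / (2 * g * t)⌋₊ := ⟨_, rfl⟩
  have hgt : 0 < 2 * g * t := by positivity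
  have h0 : ∀ k, 0 ≤ (lam k - E + t) / (2 * g * t) := by
    intro k
    have := (abs_le.1 (hlam k)).1
    apply div_nonneg _ hgt.le
    linarith
  have hle : ∀ k, (lam k - E + t) / (2 * g * t) ≤ 1 / g := by
    intro k
    have := (abs_le.1 (hlam k)).2
    rw [div_le_div_iff₀ hgt hg]
    nlinarith
  obtain ⟨J, hJ⟩ : ∃ J, J = ⌊1 / g⌋₊ + 1 := ⟨_, rfl⟩
  have hfJ : ∀ k, f k < J := by
    intro k
    rw [hJ, hf]
    exact Nat.lt_succ_of_le (Nat.floor_le_floor (hle k))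
  have hJr : (J : ℝ) ≤ 1 / g + 1 := by
    rw [hJ]
    push_cast
    have := Nat.floor_le (by positivity : 0 ≤ 1 / g)
    linarith
  have hcard : n = ∑ j ∈ Finset.range J, Fintype.card {k : Fin n // f k = j} := by
    have h1 := Finset.card_eq_sum_card_fiberwise (s := (Finset.univ : Finset (Fin n))) (f := f)
      (t := Finset.range J) (fun k _ => by simpa using hfJ k)
    rw [Finset.card_univ, Fintype.card_fin] at h1
    refine h1.trans (Finset.sum_congr rfl fun j _ => ?_)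
    rw [Fintype.card_subtype]
  have hj : ∀ j ∈ Finset.range J, (Fintype.card {k : Fin n // f k = j} : ℝ) ≤ K := by
    intro j hj
    have hj1 : (j : ℝ) ≤ 1 / g := by
      have h1 := Finset.mem_range.1 hj
      rw [hJ] at h1
      have h2 : j ≤ ⌊1 / g⌋₊ := by omega
      exact (Nat.cast_le.2 h2).trans (Nat.floor_le (by positivity))
    have hj2 : (j : ℝ) * g ≤ 1 := by
      rw [le_div_iff₀ hg] at hj1
      exact hj1
    have hj0 : (0 : ℝ) ≤ j := Nat.cast_nonneg j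
    apply h (E - t + (2 * j + 1) * (g * t)) (fun k => f k = j)
    · have e1 : E - t + (2 * j + 1) * (g * t) - E = -t + (2 * ((j : ℝ) * g) + g) * t := by ring
      rw [e1, abs_le]
      have h3 : 0 ≤ (j : ℝ) * g := by positivity
      constructor
      · nlinarith
      · nlinarith
    · intro k hk
      have h1 := Nat.floor_le (h0 k)
      have h2 := Nat.lt_floor_add_one ((lam k - E + t) / (2 * g * t))
      have h3 : ⌊(lam k - E + t) / (2 * g * t)⌋₊ = j := by rw [← hk, hf]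
      rw [h3] at h1 h2
      rw [le_div_iff₀ hgt] at h1
      rw [div_lt_iff₀ hgt] at h2
      rw [abs_le]
      constructor
      · nlinarith
      · nlinarith
  have h1 : (n : ℝ) = ∑ j ∈ Finset.range J, (Fintype.card {k : Fin n // f k = j} : ℝ) := by
    exact_mod_cast hcard
  rw [h1]
  refine (Finset.sum_le_sum hj).trans ?_
  rw [Finset.sum_const, Finset.card_range, nsmul_eq_mul]
  have hK : 0 ≤ K := by
    have := hj 0 (Finset.mem_range.2 (by omega))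
    exact (Nat.cast_nonneg _).trans this
  exact mul_le_mul_of_nonneg_right hJr hK

/-- **delocalization below the diffusive length** -/
theorem locF (d : ℕ) (hd : 3 ≤ d) (A v δ th : ℝ) (hA : 0 < A) (hv : 0 < v) (hδ : 0 < δ)
    (hth : 1 / 2 < th) (hth1 : th ≤ 1) :
    ∃ cd : ℝ, 0 < cd ∧ ∃ s0 : ℝ, 0 < s0 ∧ ∀ (μ : Measure ℝ), IsProbabilityMeasure μ →
      (∀ r : ℝ, 0 ≤ r → μ.real {s | r < |s|} ≤ A * Real.exp (-r)) →
      ∀ M V : ℝ, ∫ s, s ∂μ = M → ∫ s, (s - M) ^ 2 ∂μ = V → v ≤ V →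
      ∀ σ : ℝ, 0 < |σ| → |σ| ≤ s0 → ∀ (t : ℝ), t = |σ| ^ (81 / 40 : ℝ) →
      ∃ G : Set (Zd d → ℝ), MeasurableSet G ∧
        1 - Real.exp (-|σ| ^ (-(1 / 150) : ℝ)) ≤
          (Measure.infinitePi fun _ : Zd d => μ).real G ∧
        ∀ ξ ∈ G, (∀ (a : Zd d) (E : ℝ) (u : Zd d → ℂ), ‖a‖ ≤ Real.exp (|σ| ^ (-(1 / 150) : ℝ)) →
            |E| ≤ 2 * d - δ → GS d (fun x => σ * ξ x) ((E : ℂ) + (t : ℂ) * Complex.I) a u →
            cd ≤ (u a).im) ∧
          ∀ (b : Zd d) (E : ℝ) (B : Finset (Zd d)),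
          (∀ x ∈ B, ‖x - b‖ ≤ |σ| ^ (-(201 / 100) : ℝ)) →
          ‖b‖ + |σ| ^ (-(201 / 100) : ℝ) ≤ Real.exp (|σ| ^ (-(1 / 150) : ℝ)) →
          |E| ≤ 2 * d - δ →
          ∀ (n : ℕ) (φ : Fin n → L2 d) (lam : Fin n → ℝ), Orthonormal ℂ φ →
            (∀ k, |lam k - E| ≤ t) →
            (∀ k x, S (φ k) x + ((σ * ξ x : ℝ) : ℂ) * φ k x = lam k * φ k x) →
            (∀ k, th ≤ ∑ x ∈ B, ‖φ k x‖ ^ 2) →
            (n : ℝ) ≤ |σ| ^ (1 / 3000 : ℝ) * (t * B.card) := by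
  have hO : S_OSC := Pool.Agent.W918.BK.Osc.osc
  have hd0 : (0 : ℝ) < d := by
    have : (3 : ℝ) ≤ d := by exact_mod_cast hd
    linarith
  obtain ⟨g, hg⟩ : ∃ g, g = th - 1 / 2 := ⟨_, rfl⟩
  have hg0 : 0 < g := by linarith
  have hg1 : g ≤ 1 / 2 := by linarith
  obtain ⟨c, hc, hcE⟩ := nn1_pos hO d hd (δ / 2) (by positivity)
  obtain ⟨C0', hC0'⟩ := (isCompact_Icc (a := -(2 * d : ℝ)) (b := 2 * d)).exists_bound_of_continuousOn
    (nn0_cont hO hd).continuousOn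
  obtain ⟨C0, hC0⟩ : ∃ C0, C0 = max C0' 1 := ⟨_, rfl⟩
  have hC01 : 1 ≤ C0 := by rw [hC0]; exact le_max_right _ _
  have hC0E : ∀ E : ℝ, |E| ≤ 2 * d - δ / 2 → nn0 d E ≤ C0 := by
    intro E hE
    have h1 := abs_le.1 hE
    have h2 := hC0' E ⟨by linarith [h1.1], by linarith [h1.2]⟩
    rw [Real.norm_eq_abs] at h2
    exact (le_abs_self _).trans (h2.trans (by rw [hC0]; exact le_max_left _ _))
  obtain ⟨C1, hC1⟩ : ∃ C1, C1 = 4 * (C0 + 1) + 4 * (C0 ^ 3 / c + 1) := ⟨_, rfl⟩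
  have hC1p : 0 < C1 := by rw [hC1]; positivity
  obtain ⟨C2, hC2⟩ : ∃ C2, C2 = (1 / g + 1) * (C1 / (g ^ 2 / 2)) := ⟨_, rfl⟩
  have hC2p : 0 < C2 := by rw [hC2]; positivity
  obtain ⟨sT, hsT, hT⟩ := finalT d hd A v c 1 hA hv hc one_pos
  obtain ⟨sa, hsa, ha⟩ := small_pow C2 (1 / 6000) (by positivity) (by norm_num)
  obtain ⟨sb, hsb, hb⟩ := small_pow (4 * Real.sqrt (2 * A)) (3 / 2000) (by positivity)
    (by norm_num)
  obtain ⟨sc, hsc, hc5⟩ := small_pow (2 / c) (1 / 200) (by positivity) (by norm_num)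
  refine ⟨c / 2, by positivity, min (min sT (min 1 (δ / 4))) (min sa (min sb sc)),
    lt_min (lt_min hsT (by positivity)) (lt_min hsa (lt_min hsb hsc)), ?_⟩
  intro μ hμ htail M V hM hV hvV σ hσ hσ0 t ht
  have hσT : |σ| ≤ sT := hσ0.trans ((min_le_left _ _).trans (min_le_left _ _))
  have hσ1 : |σ| ≤ 1 := hσ0.trans ((min_le_left _ _).trans ((min_le_right _ _).trans
    (min_le_left _ _)))
  have hσδ : |σ| ≤ δ / 4 := hσ0.trans ((min_le_left _ _).trans ((min_le_right _ _).trans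
    (min_le_right _ _)))
  have ha1 := ha |σ| hσ (hσ0.trans ((min_le_right _ _).trans (min_le_left _ _)))
  have hb1 := hb |σ| hσ (hσ0.trans ((min_le_right _ _).trans ((min_le_right _ _).trans
    (min_le_left _ _))))
  have hc1 := hc5 |σ| hσ (hσ0.trans ((min_le_right _ _).trans ((min_le_right _ _).trans
    (min_le_right _ _))))
  have ht0 : 0 < t := by rw [ht]; positivity
  have hV0 : 0 < V := by linarith
  have hV2 : V ≤ 2 * A := (moments μ A 0 hA le_rfl htail M V _ _ hM hV rfl rfl).2.2.2.2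
  obtain ⟨G, hG, hP, hb0⟩ := hT μ hμ htail M V hM hV hvV σ hσ hσT t ht
  refine ⟨G, hG, hP, fun ξ hξ => ⟨?_, ?_⟩⟩
  · intro a E u ha hE hu
    have h1 := im_low d (fun x => σ * ξ x) a E t (Real.sqrt (t * (σ ^ 2 * V))) u hu
      (|σ| ^ (-(1 / 500) : ℝ)) (|σ| ^ (1 / 200 : ℝ)) (by positivity)
      (fun κ hκ => ((hb0 ξ hξ a ha).1 E u hu).2
        ((hcE E (by linarith)).trans (nn_im hO hd E).2) κ hκ)
    have h2 := (hcE E (by linarith)).trans (nn_im hO hd E).2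
    have h3 : |σ| ^ (1 / 200 : ℝ) ≤ c / 2 := by
      rw [div_mul_eq_mul_div, div_le_one hc] at hc1
      linarith
    linarith
  intro b E B hB hbR hE n φ lam hφ hlam heig hmass
  generalize hy : |σ| = y at hσ hσ1 hσδ ha1 hb1 ht hb0 hB hbR ⊢
  obtain ⟨h, hh⟩ : ∃ h, h = y ^ (-(1 / 2000) : ℝ) := ⟨_, rfl⟩
  have hh0 : 0 < h := by rw [hh]; positivity
  have hh1 : 1 ≤ h := by
    rw [hh]
    exact Real.one_le_rpow_of_pos_of_le_one_of_nonpos hσ hσ1 (by norm_num)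
  obtain ⟨N, hN⟩ : ∃ N, N = ⌈h⌉₊ := ⟨_, rfl⟩
  have hNh : h ≤ N := by rw [hN]; exact Nat.le_ceil h
  have hN1 : 1 ≤ N := by
    have : (1 : ℝ) ≤ N := hh1.trans hNh
    exact_mod_cast this
  have hN2 : (N : ℝ) ≤ 2 * h := by
    have := Nat.ceil_lt_add_one hh0.le
    rw [← hN] at this
    linarith
  obtain ⟨r, hr⟩ : ∃ r, r = Real.sqrt (t * (σ ^ 2 * V)) := ⟨_, rfl⟩
  have hr0 : 0 ≤ r := by rw [hr]; exact Real.sqrt_nonneg _
  have hr1 : r ≤ Real.sqrt (2 * A) * y ^ (161 / 80 : ℝ) := by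
    rw [hr, Real.sqrt_le_iff]
    refine ⟨by positivity, ?_⟩
    rw [mul_pow, Real.sq_sqrt (by positivity), ← Real.rpow_natCast (y ^ (161 / 80 : ℝ)),
      ← Real.rpow_mul hσ.le]
    have e1 : σ ^ 2 = y ^ (2 : ℝ) := by
      rw [← hy, Real.rpow_two, sq_abs]
    have e2 : t * (σ ^ 2 * V) = V * y ^ (161 / 40 : ℝ) := by
      rw [ht, e1, ← mul_assoc, ← Real.rpow_add hσ]
      norm_num
      ring
    rw [e2]
    norm_num
    gcongr
  obtain ⟨l, hl⟩ : ∃ l, l = 2 * y ^ (-(201 / 100) : ℝ) := ⟨_, rfl⟩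
  have hl0 : 0 < l := by rw [hl]; positivity
  have hNl : N * (h * r * l) ≤ 1 := by
    refine le_trans ?_ hb1
    calc (N : ℝ) * (h * r * l) ≤ (2 * h) * (h * (Real.sqrt (2 * A) * y ^ (161 / 80 : ℝ)) * l) := by
          gcongr
      _ = 4 * Real.sqrt (2 * A) * (y ^ (-(1 / 2000) : ℝ) * y ^ (-(1 / 2000) : ℝ) *
          y ^ (161 / 80 : ℝ) * y ^ (-(201 / 100) : ℝ)) := by
          rw [hl, hh]
          ring
      _ = 4 * Real.sqrt (2 * A) * y ^ (3 / 2000 : ℝ) := by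
          rw [← Real.rpow_add hσ, ← Real.rpow_add hσ, ← Real.rpow_add hσ]
          norm_num
  have hXm : ∀ m : ℤ, |m| < N → ((m : ℝ) * h) ^ 2 ≤ y ^ (-(1 / 500) : ℝ) := by
    intro m hm
    have h1 : |(m : ℝ)| ≤ h := by
      have h2 : |m| + 1 ≤ N := by omega
      have h3 : (|m| : ℝ) + 1 ≤ N := by exact_mod_cast h2
      have := Nat.ceil_lt_add_one hh0.le
      rw [← hN] at this
      linarith
    rw [mul_pow, ← sq_abs (m : ℝ)]
    calc |(m : ℝ)| ^ 2 * h ^ 2 ≤ h ^ 2 * h ^ 2 := by gcongr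
      _ = y ^ (-(1 / 500) : ℝ) := by
        rw [hh, ← pow_add, ← Real.rpow_natCast, ← Real.rpow_mul hσ.le]
        norm_num
  have htδ : t ≤ δ / 4 := by
    refine le_trans ?_ hσδ
    rw [ht]
    calc y ^ (81 / 40 : ℝ) ≤ y ^ (1 : ℝ) :=
          Real.rpow_le_rpow_of_exponent_ge hσ hσ1 (by norm_num)
      _ = y := Real.rpow_one y
  have main : (n : ℝ) ≤ (1 / g + 1) * (C1 / (g ^ 2 / 2) * y ^ (1 / 2000 : ℝ) * (t * B.card)) := by
    refine split_win n lam E t g ht0 hg0 hlam _ ?_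
    intro E' p hp hE' hlam'
    have hE2 : |E'| ≤ 2 * d - δ / 2 := by
      have h1 := abs_add_le (E' - E) E
      rw [sub_add_cancel] at h1
      nlinarith
    -- the Green functions
    have hz : 0 < ((E' : ℂ) + (t : ℂ) * Complex.I).im := by simpa using ht0
    choose u hu using fun a : Zd d => GS.exists (fun x : Zd d => σ * ξ x) _ hz a
    have hD : ∀ a ∈ B, ∑ x ∈ B, ‖u a x‖ ^ 2 ≤ C1 * y ^ (1 / 2000 : ℝ) / t := by
      intro a haB
      have haR : ‖a‖ ≤ Real.exp (y ^ (-(1 / 150) : ℝ)) := by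
        have h1 := norm_add_le b (a - b)
        rw [add_sub_cancel] at h1
        have h2 := hB a haB
        linarith
      have h1 := green_mass d hd (fun x => σ * ξ x) a E' t r ht0 hr0 (u a) (hu a)
        (y ^ (-(1 / 500) : ℝ)) (y ^ (1 / 200 : ℝ)) C0 c (by positivity) hc
        (fun κ hκ => by
          have h2 := ((hb0 ξ hξ a haR).1 E' (u a) (hu a)).2
            ((hcE E' hE2).trans (nn_im hO hd E').2) κ hκ
          rw [← hr] at h2
          exact h2)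
        (hcE E' hE2) (nn_im hO hd E').2 (hC0E E' hE2) h hh0 N hN1 hXm B l (fun x hx => by
          have h3 := hB x hx
          have h4 := hB a haB
          have h5 : ‖x - a‖ ≤ ‖x - b‖ + ‖a - b‖ := by
            have := norm_sub_le (x - b) (a - b)
            rwa [sub_sub_sub_cancel_right] at this
          rw [hl]
          linarith) hNl
      rw [← Finset.mul_sum] at h1
      rw [le_div_iff₀ ht0, mul_comm]
      refine h1.trans ?_
      have p1 : y ^ (1 / 200 : ℝ) ≤ y ^ (1 / 2000 : ℝ) :=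
        Real.rpow_le_rpow_of_exponent_ge hσ hσ1 (by norm_num)
      have p2 : y ^ (1 / 200 : ℝ) ≤ 1 := Real.rpow_le_one hσ.le hσ1 (by norm_num)
      have p3 : 1 / (N : ℝ) ≤ y ^ (1 / 2000 : ℝ) := by
        have e1 : y ^ (1 / 2000 : ℝ) = 1 / h := by
          rw [hh, Real.rpow_neg hσ.le, one_div, one_div, inv_inv]
        rw [e1]
        exact one_div_le_one_div_of_le hh0 hNh
      have p4 : 1 / h ^ 2 ≤ y ^ (1 / 2000 : ℝ) := by
        have e1 : 1 / h ^ 2 = y ^ (1 / 1000 : ℝ) := by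
          rw [hh, ← Real.rpow_natCast, ← Real.rpow_mul hσ.le, one_div, ← Real.rpow_neg hσ.le]
          norm_num
        rw [e1]
        exact Real.rpow_le_rpow_of_exponent_ge hσ hσ1 (by norm_num)
      calc 4 * (C0 + y ^ (1 / 200 : ℝ)) / N + 4 * (C0 ^ 3 / (c * h ^ 2) + y ^ (1 / 200 : ℝ)) =
          4 * (C0 + y ^ (1 / 200 : ℝ)) * (1 / N) + 4 * (C0 ^ 3 / c * (1 / h ^ 2) +
            y ^ (1 / 200 : ℝ)) := by
            field_simp
        _ ≤ 4 * (C0 + 1) * y ^ (1 / 2000 : ℝ) + 4 * (C0 ^ 3 / c * y ^ (1 / 2000 : ℝ) +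
            y ^ (1 / 2000 : ℝ)) := by gcongr
        _ = C1 * y ^ (1 / 2000 : ℝ) := by
            rw [hC1]
            ring
    have hcount := count_loc (fun x => σ * ξ x) E' t ht0 B u (fun a _ => hu a) _ hD
      (fun k : {k // p k} => φ k) (hφ.comp _ Subtype.val_injective) (fun k => lam k) g (1 / g) th
      (g ^ 2 / 2) (by positivity) (by linarith) (loc_const th hth hth1 g hg)
      (fun k => hlam' k k.2) (fun k x => heig k x) (fun k => hmass k)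
    have h1 := mul_le_mul_of_nonneg_right hcount (by positivity : 0 ≤ 1 / (g ^ 2 / 2) * t ^ 2)
    have e1 : (Fintype.card {k // p k} : ℝ) * (g ^ 2 / 2 / t ^ 2) * (1 / (g ^ 2 / 2) * t ^ 2) =
        Fintype.card {k // p k} := by
      field_simp
    have e2 : B.card * (C1 * y ^ (1 / 2000 : ℝ) / t) * (1 / (g ^ 2 / 2) * t ^ 2) =
        C1 / (g ^ 2 / 2) * y ^ (1 / 2000 : ℝ) * (t * B.card) := by
      field_simp
    rw [e1, e2] at h1
    exact h1
  refine main.trans ?_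
  have e0 : (1 / g + 1) * (C1 / (g ^ 2 / 2) * y ^ (1 / 2000 : ℝ) * (t * B.card)) =
      C2 * y ^ (1 / 2000 : ℝ) * (t * B.card) := by
    rw [hC2]
    ring
  rw [e0]
  refine mul_le_mul_of_nonneg_right ?_ (by positivity)
  have e1 : y ^ (1 / 2000 : ℝ) = y ^ (1 / 6000 : ℝ) * y ^ (1 / 3000 : ℝ) := by
    rw [← Real.rpow_add hσ]
    norm_num
  rw [e1, ← mul_assoc]
  have hq : 0 < y ^ (1 / 3000 : ℝ) := by positivity
  calc C2 * y ^ (1 / 6000 : ℝ) * y ^ (1 / 3000 : ℝ) ≤ 1 * y ^ (1 / 3000 : ℝ) := by gcongr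
    _ = _ := one_mul _

end Pool.Agent.TH791.QD
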