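import Pool.Agent.TH791.QD.Loc1

/-! Counting of eigenfunctions with a small fraction of their mass in a set. -/

set_option autoImplicit false
set_option linter.unusedSectionVars false

open scoped BigOperators Topology ENNReal
open MeasureTheory Filter Set

namespace Pool.Agent.TH791.QD

open Pool.Agent.W788.LD.Spec (S symm summ_mul)
open Pool.Agent.H4R2.LO (Zd)

variable {d : ℕ}

/-- a square summable function as an element of `ℓ²` -/
noncomputable def toL2 (g : Zd d → ℂ) (hg : Summable fun x => ‖g x‖ ^ 2) : L2 d :=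
  ⟨g, memℓp_gen (by simpa using hg)⟩

theorem toL2_apply (g : Zd d → ℂ) (hg : Summable fun x => ‖g x‖ ^ 2) (x : Zd d) :
    toL2 g hg x = g x := rfl

/-- Cauchy-Schwarz -/
theorem cs_l2 (φ : L2 d) (hφ : ‖φ‖ = 1) (g : Zd d → ℂ) (hg : Summable fun x => ‖g x‖ ^ 2) :
    ‖∑' x, g x * (starRingEnd ℂ) (φ x)‖ ^ 2 ≤ ∑' x, ‖g x‖ ^ 2 := by
  have h1 := norm_inner_le_norm (𝕜 := ℂ) φ (toL2 g hg)
  rw [hφ, one_mul, lp.inner_eq_tsum] at h1
  have h2 : (∑' x, inner ℂ (φ x) (toL2 g hg x)) = ∑' x, g x * (starRingEnd ℂ) (φ x) := by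
    refine tsum_congr fun x => ?_
    rw [RCLike.inner_apply, toL2_apply]
  rw [h2] at h1
  have h3 := (L2_sq (toL2 g hg)).tsum_eq
  simp only [toL2_apply] at h3
  rw [h3]
  exact pow_le_pow_left₀ (norm_nonneg _) h1 2

/-- one eigenfunction -/
theorem one_loc2 (V : Zd d → ℝ) (E t : ℝ) (ht : 0 < t) (B : Finset (Zd d))
    (u : Zd d → Zd d → ℂ) (hu : ∀ a ∈ B, GS d V ((E : ℂ) + (t : ℂ) * Complex.I) a (u a))
    (φ : L2 d) (hφ : ‖φ‖ = 1) (lam th : ℝ) (hth0 : 0 < th) (hlam : |lam - E| ≤ t)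
    (heig : ∀ x, S φ x + (V x : ℂ) * φ x = lam * φ x) (hmass : th ≤ ∑ x ∈ B, ‖φ x‖ ^ 2) :
    th ^ 3 / 4 / t ^ 2 ≤ ∑ a ∈ B, ‖∑ x ∈ B, u x a * φ x‖ ^ 2 := by
  classical
  obtain ⟨z, hz⟩ : ∃ z : ℂ, z = (E : ℂ) + (t : ℂ) * Complex.I := ⟨_, rfl⟩
  rw [← hz] at hu
  have hzi : z.im = t := by rw [hz]; simp
  have hwn : ‖z - lam‖ ^ 2 = (lam - E) ^ 2 + t ^ 2 := by
    rw [hz, ← Complex.normSq_eq_norm_sq, Complex.normSq_apply]
    simp
    ring
  have hwn2 : ‖z - lam‖ ^ 2 ≤ 2 * t ^ 2 := by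
    rw [hwn]
    have h1 : |lam - E| ^ 2 ≤ t ^ 2 := pow_le_pow_left₀ (abs_nonneg _) hlam 2
    rw [sq_abs] at h1
    linarith
  obtain ⟨C, hC⟩ : ∃ C : Zd d → ℂ, C = fun y => ∑ x ∈ B, φ x * u x y := ⟨_, rfl⟩
  have hCss : Summable fun y => ‖C y‖ ^ 2 := by
    rw [hC]
    have h1 : ∀ F : Finset (Zd d), F ⊆ B → Summable fun y => ‖∑ x ∈ F, φ x * u x y‖ ^ 2 := by
      intro F
      induction F using Finset.induction_on with
      | empty =>
        intro _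
        simp only [Finset.sum_empty, norm_zero]
        simp
      | insert a F ha ih =>
        intro hF
        have h2 := ih ((Finset.subset_insert _ _).trans hF)
        have h3 := (hu a (hF (Finset.mem_insert_self _ _))).ss
        refine Summable.of_nonneg_of_le (fun x => sq_nonneg _) (fun y => ?_)
          ((h3.mul_left (2 * ‖φ a‖ ^ 2)).add (h2.mul_left 2))
        rw [Finset.sum_insert ha]
        have h4 := norm_add_le (φ a * u a y) (∑ x ∈ F, φ x * u x y)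
        have h5 := pow_le_pow_left₀ (norm_nonneg _) h4 2
        rw [norm_mul] at h5
        nlinarith [sq_nonneg (‖φ a‖ * ‖u a y‖ - ‖∑ x ∈ F, φ x * u x y‖)]
    exact h1 B le_rfl
  have hφss : Summable fun y => ‖φ y‖ ^ 2 := (L2_sq φ).summable
  have hCeq : ∀ y, S C y + (V y : ℂ) * C y - z * C y = if y ∈ B then φ y else 0 := by
    intro y
    rw [hC, S_sum, Finset.mul_sum, Finset.mul_sum, ← Finset.sum_add_distrib,
      ← Finset.sum_sub_distrib]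
    have h2 : ∀ x ∈ B, φ x * S (u x) y + (V y : ℂ) * (φ x * u x y) - z * (φ x * u x y) =
        if x = y then φ x else 0 := by
      intro x hx
      have h3 := (hu x hx).eq y
      have h4 : φ x * S (u x) y + (V y : ℂ) * (φ x * u x y) - z * (φ x * u x y) =
          φ x * (if y = x then 1 else 0) := by
        rw [← h3]
        ring
      rw [h4]
      by_cases hxy : x = y
      · rw [if_pos hxy, if_pos hxy.symm, mul_one]
      · rw [if_neg hxy, if_neg (Ne.symm hxy), mul_zero]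
    rw [Finset.sum_congr rfl h2, Finset.sum_ite_eq']
  -- the mass
  obtain ⟨θ, hθ⟩ : ∃ θ, θ = ∑ x ∈ B, ‖φ x‖ ^ 2 := ⟨_, rfl⟩
  rw [← hθ] at hmass
  have hθ0 : 0 < θ := by linarith
  have hsumB : ∀ f : Zd d → ℂ, HasSum (fun x => if x ∈ B then f x else 0) (∑ x ∈ B, f x) := by
    intro f
    have h3 : HasSum (fun y => if y ∈ B then f y else 0) (∑ y ∈ B, if y ∈ B then f y else 0) := by
      apply hasSum_sum_of_ne_finset_zero
      intro x hx
      rw [if_neg hx]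
    have h4 : (∑ y ∈ B, if y ∈ B then f y else 0) = ∑ y ∈ B, f y :=
      Finset.sum_congr rfl fun y hy => if_pos hy
    rwa [h4] at h3
  -- the pairing with the eigenfunction
  have hconj : ∀ y, S (fun y => (starRingEnd ℂ) (φ y)) y + (V y : ℂ) * (starRingEnd ℂ) (φ y) -
      (lam : ℂ) * (starRingEnd ℂ) (φ y) = 0 := by
    intro y
    have h1 := congrArg (starRingEnd ℂ) (heig y)
    rw [S_conj]
    simp only [map_add, map_mul, Complex.conj_ofReal] at h1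
    rw [h1]
    ring
  have hcss : Summable fun y => ‖(starRingEnd ℂ) (φ y)‖ ^ 2 := by
    simp only [Complex.norm_conj]
    exact hφss
  have hpair := pair V z lam (fun y => if y ∈ B then φ y else 0) (fun _ => 0) C
    (fun y => (starRingEnd ℂ) (φ y)) hCss hcss hCeq hconj
  have hp1 : (fun x => C x * 0 - (if x ∈ B then φ x else 0) * (starRingEnd ℂ) (φ x)) =
      fun x => if x ∈ B then -(((‖φ x‖ ^ 2 : ℝ) : ℂ)) else 0 := by
    funext x
    split_ifs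
    · rw [mul_zero, zero_sub, Complex.mul_conj, Complex.normSq_eq_norm_sq]
    · ring
  rw [hp1] at hpair
  have hp2 := hpair.unique (hsumB fun x => -(((‖φ x‖ ^ 2 : ℝ) : ℂ)))
  have hp3 : ∑ x ∈ B, -(((‖φ x‖ ^ 2 : ℝ) : ℂ)) = -((θ : ℝ) : ℂ) := by
    rw [hθ, Finset.sum_neg_distrib]
    push_cast
    rfl
  rw [hp3] at hp2
  have hp4 : ‖z - lam‖ ^ 2 * ‖∑' x, C x * (starRingEnd ℂ) (φ x)‖ ^ 2 = θ ^ 2 := by
    rw [← mul_pow, ← norm_mul, hp2, norm_neg, Complex.norm_real, Real.norm_of_nonneg hθ0.le]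
  have hcs := cs_l2 φ hφ C hCss
  have hN : θ ^ 2 ≤ 2 * t ^ 2 * ∑' x, ‖C x‖ ^ 2 := by
    rw [← hp4]
    exact mul_le_mul hwn2 hcs (by positivity) (by positivity)
  -- the energy identity
  have hen := energy V z _ C hCss hCeq
  rw [hzi] at hen
  have he1 : HasSum (fun x => (if x ∈ B then (starRingEnd ℂ) (C x) * φ x else 0 : ℂ))
      (∑ x ∈ B, (starRingEnd ℂ) (C x) * φ x) := hsumB fun x => (starRingEnd ℂ) (C x) * φ x
  have he2 := (Complex.hasSum_im he1).neg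
  have he3 : (fun x => -((starRingEnd ℂ) (C x) * (if x ∈ B then φ x else 0)).im) =
      fun x => -((if x ∈ B then (starRingEnd ℂ) (C x) * φ x else 0 : ℂ)).im := by
    funext x
    split_ifs
    · rfl
    · rw [mul_zero]
  rw [he3] at hen
  have he4 := hen.unique he2
  have he5 : t * ∑' x, ‖C x‖ ^ 2 ≤ ∑ x ∈ B, ‖C x‖ * ‖φ x‖ := by
    rw [he4]
    refine (neg_le_abs _).trans ((Complex.abs_im_le_norm _).trans ((norm_sum_le _ _).trans
      (le_of_eq ?_)))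
    refine Finset.sum_congr rfl fun x _ => ?_
    rw [norm_mul, Complex.norm_conj]
  have he6 : (∑ x ∈ B, ‖C x‖ * ‖φ x‖) ^ 2 ≤ (∑ x ∈ B, ‖C x‖ ^ 2) * θ := by
    rw [hθ]
    exact Finset.sum_mul_sq_le_sq_mul_sq _ _ _
  have hfin : ∑ a ∈ B, ‖C a‖ ^ 2 = ∑ a ∈ B, ‖∑ x ∈ B, u x a * φ x‖ ^ 2 := by
    rw [hC]
    refine Finset.sum_congr rfl fun a _ => ?_
    simp only
    congr 2
    exact Finset.sum_congr rfl fun x _ => mul_comm _ _
  rw [← hfin]
  -- combine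
  have hA : θ ^ 2 / (2 * t) ≤ ∑ x ∈ B, ‖C x‖ * ‖φ x‖ := by
    refine le_trans ?_ he5
    rw [div_le_iff₀ (by positivity)]
    calc θ ^ 2 ≤ 2 * t ^ 2 * ∑' x, ‖C x‖ ^ 2 := hN
      _ = t * (∑' x, ‖C x‖ ^ 2) * (2 * t) := by ring
  have hB : (θ ^ 2 / (2 * t)) ^ 2 ≤ (∑ x ∈ B, ‖C x‖ ^ 2) * θ :=
    (pow_le_pow_left₀ (by positivity) hA 2).trans he6
  have hD : θ ^ 3 / 4 / t ^ 2 ≤ ∑ x ∈ B, ‖C x‖ ^ 2 := by
    refine le_of_mul_le_mul_right (le_trans (le_of_eq ?_) hB) hθ0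
    field_simp
    ring
  refine le_trans ?_ hD
  gcongr

/-- **the counting** -/
theorem count_loc2 (V : Zd d → ℝ) (E t : ℝ) (ht : 0 < t) (B : Finset (Zd d))
    (u : Zd d → Zd d → ℂ) (hu : ∀ a ∈ B, GS d V ((E : ℂ) + (t : ℂ) * Complex.I) a (u a))
    (D : ℝ) (hD : ∀ a ∈ B, ∑ x ∈ B, ‖u a x‖ ^ 2 ≤ D) (n : ℕ) (φ : Fin n → L2 d)
    (hφ : Orthonormal ℂ φ) (lam : Fin n → ℝ) (th : ℝ) (hth0 : 0 < th)
    (hlam : ∀ k, |lam k - E| ≤ t)
    (heig : ∀ k x, S (φ k) x + (V x : ℂ) * φ k x = lam k * φ k x)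
    (hmass : ∀ k, th ≤ ∑ x ∈ B, ‖φ k x‖ ^ 2) :
    n * (th ^ 3 / 4 / t ^ 2) ≤ B.card * D := by
  have h1 : ∑ _k : Fin n, (th ^ 3 / 4 / t ^ 2) ≤
      ∑ k, ∑ a ∈ B, ‖∑ x ∈ B, u x a * φ k x‖ ^ 2 := Finset.sum_le_sum fun k _ =>
    one_loc2 V E t ht B u hu (φ k) (hφ.norm_eq_one k) (lam k) th hth0 (hlam k)
      (heig k) (hmass k)
  rw [Finset.sum_const, Finset.card_univ, Fintype.card_fin, nsmul_eq_mul, Finset.sum_comm] at h1
  refine h1.trans ?_
  have h2 : ∑ a ∈ B, ∑ k, ‖∑ x ∈ B, u x a * φ k x‖ ^ 2 ≤ ∑ a ∈ B, ∑ x ∈ B, ‖u x a‖ ^ 2 :=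
    Finset.sum_le_sum fun a _ => bessel φ hφ B fun x => u x a
  refine h2.trans ?_
  rw [Finset.sum_comm]
  refine (Finset.sum_le_sum fun x hx => hD x hx).trans (le_of_eq ?_)
  rw [Finset.sum_const, nsmul_eq_mul]

end Pool.Agent.TH791.QD
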