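import Pool.Agent.TH791.QD.Loc3
import Pool.Agent.TH791.QD.Loc4

/-! Delocalization below the diffusive length: vanishing fractions of the mass. -/

set_option autoImplicit false
set_option linter.unusedSectionVars false

open scoped BigOperators Topology ENNReal
open MeasureTheory Filter Set

namespace Pool.Agent.TH791.QD

open Pool.Agent.W788.BK (S_OSC)
open Pool.Agent.W788.LD.Spec (S)
open Pool.Agent.H4R2.LO (Zd)
open Pool.Agent.TH791.GR (moments)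

/-- **delocalization below the diffusive length** -/
theorem locG (d : ℕ) (hd : 3 ≤ d) (A v δ : ℝ) (hA : 0 < A) (hv : 0 < v) (hδ : 0 < δ) :
    ∃ cd : ℝ, 0 < cd ∧ ∃ s0 : ℝ, 0 < s0 ∧ ∀ (μ : Measure ℝ), IsProbabilityMeasure μ →
      (∀ r : ℝ, 0 ≤ r → μ.real {s | r < |s|} ≤ A * Real.exp (-r)) →
      ∀ M V : ℝ, ∫ s, s ∂μ = M → ∫ s, (s - M) ^ 2 ∂μ = V → v ≤ V →
      ∀ σ : ℝ, 0 < |σ| → |σ| ≤ s0 → ∀ (t : ℝ), t = |σ| ^ (81 / 40 : ℝ) →
      ∃ G : Set (Zd d → ℝ), MeasurableSet G ∧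
        1 - Real.exp (-|σ| ^ (-(1 / 150) : ℝ)) ≤
          (Measure.infinitePi fun _ : Zd d => μ).real G ∧
        ∀ ξ ∈ G, (∀ (a : Zd d) (E : ℝ) (u : Zd d → ℂ), ‖a‖ ≤ Real.exp (|σ| ^ (-(1 / 150) : ℝ)) →
            |E| ≤ 2 * d - δ → GS d (fun x => σ * ξ x) ((E : ℂ) + (t : ℂ) * Complex.I) a u →
            cd ≤ (u a).im) ∧
          ∀ (b : Zd d) (E : ℝ) (B : Finset (Zd d)),
          (∀ x ∈ B, ‖x - b‖ ≤ |σ| ^ (-(201 / 100) : ℝ)) →
          ‖b‖ + |σ| ^ (-(201 / 100) : ℝ) ≤ Real.exp (|σ| ^ (-(1 / 150) : ℝ)) →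
          |E| ≤ 2 * d - δ →
          ∀ (n : ℕ) (φ : Fin n → L2 d) (lam : Fin n → ℝ), Orthonormal ℂ φ →
            (∀ k, |lam k - E| ≤ t) →
            (∀ k x, S (φ k) x + ((σ * ξ x : ℝ) : ℂ) * φ k x = lam k * φ k x) →
            (∀ k, |σ| ^ (1 / 10000 : ℝ) ≤ ∑ x ∈ B, ‖φ k x‖ ^ 2) →
            (n : ℝ) ≤ |σ| ^ (1 / 10000 : ℝ) * (t * B.card) := by
  have hO : S_OSC := Pool.Agent.W918.BK.Osc.osc
  have hd0 : (0 : ℝ) < d := by
    have : (3 : ℝ) ≤ d := by exact_mod_cast hd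
    linarith
  obtain ⟨c, hc, hcE⟩ := nn1_pos hO d hd (δ / 2) (by positivity)
  obtain ⟨C0', hC0'⟩ := (isCompact_Icc (a := -(2 * d : ℝ)) (b := 2 * d)).exists_bound_of_continuousOn
    (nn0_cont hO hd).continuousOn
  obtain ⟨C0, hC0⟩ : ∃ C0, C0 = max C0' 1 := ⟨_, rfl⟩
  have hC01 : 1 ≤ C0 := by rw [hC0]; exact le_max_right _ _
  have hC0E : ∀ E : ℝ, |E| ≤ 2 * d - δ / 2 → nn0 d E ≤ C0 := by
    intro E hE
    have h1 := abs_le.1 hE
    have h2 := hC0' E ⟨by linarith [h1.1], by linarith [h1.2]⟩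
    rw [Real.norm_eq_abs] at h2
    exact (le_abs_self _).trans (h2.trans (by rw [hC0]; exact le_max_left _ _))
  obtain ⟨C1, hC1⟩ : ∃ C1, C1 = 4 * (C0 + 1) + 4 * (C0 ^ 3 / c + 1) := ⟨_, rfl⟩
  have hC1p : 0 < C1 := by rw [hC1]; positivity
  obtain ⟨C2, hC2⟩ : ∃ C2, C2 = 4 * C1 := ⟨_, rfl⟩
  have hC2p : 0 < C2 := by rw [hC2]; positivity
  obtain ⟨sT, hsT, hT⟩ := finalT d hd A v c 1 hA hv hc one_pos
  obtain ⟨sa, hsa, ha⟩ := small_pow C2 (1 / 10000) (by positivity) (by norm_num)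
  obtain ⟨sb, hsb, hb⟩ := small_pow (4 * Real.sqrt (2 * A)) (3 / 2000) (by positivity)
    (by norm_num)
  obtain ⟨sc, hsc, hc5⟩ := small_pow (2 / c) (1 / 200) (by positivity) (by norm_num)
  refine ⟨c / 2, by positivity, min (min sT (min 1 (δ / 4))) (min sa (min sb sc)),
    lt_min (lt_min hsT (by positivity)) (lt_min hsa (lt_min hsb hsc)), ?_⟩
  intro μ hμ htail M V hM hV hvV σ hσ hσ0 t ht
  have hσT : |σ| ≤ sT := hσ0.trans ((min_le_left _ _).trans (min_le_left _ _))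
  have hσ1 : |σ| ≤ 1 := hσ0.trans ((min_le_left _ _).trans ((min_le_right _ _).trans
    (min_le_left _ _)))
  have hσδ : |σ| ≤ δ / 4 := hσ0.trans ((min_le_left _ _).trans ((min_le_right _ _).trans
    (min_le_right _ _)))
  have ha1 := ha |σ| hσ (hσ0.trans ((min_le_right _ _).trans (min_le_left _ _)))
  have hb1 := hb |σ| hσ (hσ0.trans ((min_le_right _ _).trans ((min_le_right _ _).trans
    (min_le_left _ _))))
  have hc1 := hc5 |σ| hσ (hσ0.trans ((min_le_right _ _).trans ((min_le_right _ _).trans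
    (min_le_right _ _))))
  have ht0 : 0 < t := by rw [ht]; positivity
  have hV0 : 0 < V := by linarith
  have hV2 : V ≤ 2 * A := (moments μ A 0 hA le_rfl htail M V _ _ hM hV rfl rfl).2.2.2.2
  obtain ⟨G, hG, hP, hb0⟩ := hT μ hμ htail M V hM hV hvV σ hσ hσT t ht
  refine ⟨G, hG, hP, fun ξ hξ => ⟨?_, ?_⟩⟩
  · intro a E u ha hE hu
    have h1 := im_low d (fun x => σ * ξ x) a E t (Real.sqrt (t * (σ ^ 2 * V))) u hu
      (|σ| ^ (-(1 / 500) : ℝ)) (|σ| ^ (1 / 200 : ℝ)) (by positivity)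
      (fun κ hκ => ((hb0 ξ hξ a ha).1 E u hu).2
        ((hcE E (by linarith)).trans (nn_im hO hd E).2) κ hκ)
    have h2 := (hcE E (by linarith)).trans (nn_im hO hd E).2
    have h3 : |σ| ^ (1 / 200 : ℝ) ≤ c / 2 := by
      rw [div_mul_eq_mul_div, div_le_one hc] at hc1
      linarith
    linarith
  intro b E B hB hbR hE n φ lam hφ hlam heig hmass
  generalize hy : |σ| = y at hσ hσ1 hσδ ha1 hb1 ht hb0 hB hbR hmass ⊢
  obtain ⟨h, hh⟩ : ∃ h, h = y ^ (-(1 / 2000) : ℝ) := ⟨_, rfl⟩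
  have hh0 : 0 < h := by rw [hh]; positivity
  have hh1 : 1 ≤ h := by
    rw [hh]
    exact Real.one_le_rpow_of_pos_of_le_one_of_nonpos hσ hσ1 (by norm_num)
  obtain ⟨N, hN⟩ : ∃ N, N = ⌈h⌉₊ := ⟨_, rfl⟩
  have hNh : h ≤ N := by rw [hN]; exact Nat.le_ceil h
  have hN1 : 1 ≤ N := by
    have : (1 : ℝ) ≤ N := hh1.trans hNh
    exact_mod_cast this
  have hN2 : (N : ℝ) ≤ 2 * h := by
    have := Nat.ceil_lt_add_one hh0.le
    rw [← hN] at this
    linarith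
  obtain ⟨r, hr⟩ : ∃ r, r = Real.sqrt (t * (σ ^ 2 * V)) := ⟨_, rfl⟩
  have hr0 : 0 ≤ r := by rw [hr]; exact Real.sqrt_nonneg _
  have hr1 : r ≤ Real.sqrt (2 * A) * y ^ (161 / 80 : ℝ) := by
    rw [hr, Real.sqrt_le_iff]
    refine ⟨by positivity, ?_⟩
    rw [mul_pow, Real.sq_sqrt (by positivity), ← Real.rpow_natCast (y ^ (161 / 80 : ℝ)),
      ← Real.rpow_mul hσ.le]
    have e1 : σ ^ 2 = y ^ (2 : ℝ) := by
      rw [← hy, Real.rpow_two, sq_abs]
    have e2 : t * (σ ^ 2 * V) = V * y ^ (161 / 40 : ℝ) := by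
      rw [ht, e1, ← mul_assoc, ← Real.rpow_add hσ]
      norm_num
      ring
    rw [e2]
    norm_num
    gcongr
  obtain ⟨l, hl⟩ : ∃ l, l = 2 * y ^ (-(201 / 100) : ℝ) := ⟨_, rfl⟩
  have hl0 : 0 < l := by rw [hl]; positivity
  have hNl : N * (h * r * l) ≤ 1 := by
    refine le_trans ?_ hb1
    calc (N : ℝ) * (h * r * l) ≤ (2 * h) * (h * (Real.sqrt (2 * A) * y ^ (161 / 80 : ℝ)) * l) := by
          gcongr
      _ = 4 * Real.sqrt (2 * A) * (y ^ (-(1 / 2000) : ℝ) * y ^ (-(1 / 2000) : ℝ) *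
          y ^ (161 / 80 : ℝ) * y ^ (-(201 / 100) : ℝ)) := by
          rw [hl, hh]
          ring
      _ = 4 * Real.sqrt (2 * A) * y ^ (3 / 2000 : ℝ) := by
          rw [← Real.rpow_add hσ, ← Real.rpow_add hσ, ← Real.rpow_add hσ]
          norm_num
  have hXm : ∀ m : ℤ, |m| < N → ((m : ℝ) * h) ^ 2 ≤ y ^ (-(1 / 500) : ℝ) := by
    intro m hm
    have h1 : |(m : ℝ)| ≤ h := by
      have h2 : |m| + 1 ≤ N := by omega
      have h3 : (|m| : ℝ) + 1 ≤ N := by exact_mod_cast h2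
      have := Nat.ceil_lt_add_one hh0.le
      rw [← hN] at this
      linarith
    rw [mul_pow, ← sq_abs (m : ℝ)]
    calc |(m : ℝ)| ^ 2 * h ^ 2 ≤ h ^ 2 * h ^ 2 := by gcongr
      _ = y ^ (-(1 / 500) : ℝ) := by
        rw [hh, ← pow_add, ← Real.rpow_natCast, ← Real.rpow_mul hσ.le]
        norm_num
  have hE2 : |E| ≤ 2 * d - δ / 2 := by linarith
  have main : (n : ℝ) ≤ C2 * y ^ (1 / 5000 : ℝ) * (t * B.card) := by
    -- the Green functions
    have hz : 0 < ((E : ℂ) + (t : ℂ) * Complex.I).im := by simpa using ht0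
    choose u hu using fun a : Zd d => GS.exists (fun x : Zd d => σ * ξ x) _ hz a
    have hD : ∀ a ∈ B, ∑ x ∈ B, ‖u a x‖ ^ 2 ≤ C1 * y ^ (1 / 2000 : ℝ) / t := by
      intro a haB
      have haR : ‖a‖ ≤ Real.exp (y ^ (-(1 / 150) : ℝ)) := by
        have h1 := norm_add_le b (a - b)
        rw [add_sub_cancel] at h1
        have h2 := hB a haB
        linarith
      have h1 := green_mass d hd (fun x => σ * ξ x) a E t r ht0 hr0 (u a) (hu a)
        (y ^ (-(1 / 500) : ℝ)) (y ^ (1 / 200 : ℝ)) C0 c (by positivity) hc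
        (fun κ hκ => by
          have h2 := ((hb0 ξ hξ a haR).1 E (u a) (hu a)).2
            ((hcE E hE2).trans (nn_im hO hd E).2) κ hκ
          rw [← hr] at h2
          exact h2)
        (hcE E hE2) (nn_im hO hd E).2 (hC0E E hE2) h hh0 N hN1 hXm B l (fun x hx => by
          have h3 := hB x hx
          have h4 := hB a haB
          have h5 : ‖x - a‖ ≤ ‖x - b‖ + ‖a - b‖ := by
            have := norm_sub_le (x - b) (a - b)
            rwa [sub_sub_sub_cancel_right] at this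
          rw [hl]
          linarith) hNl
      rw [← Finset.mul_sum] at h1
      rw [le_div_iff₀ ht0, mul_comm]
      refine h1.trans ?_
      have p1 : y ^ (1 / 200 : ℝ) ≤ y ^ (1 / 2000 : ℝ) :=
        Real.rpow_le_rpow_of_exponent_ge hσ hσ1 (by norm_num)
      have p2 : y ^ (1 / 200 : ℝ) ≤ 1 := Real.rpow_le_one hσ.le hσ1 (by norm_num)
      have p3 : 1 / (N : ℝ) ≤ y ^ (1 / 2000 : ℝ) := by
        have e1 : y ^ (1 / 2000 : ℝ) = 1 / h := by
          rw [hh, Real.rpow_neg hσ.le, one_div, one_div, inv_inv]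
        rw [e1]
        exact one_div_le_one_div_of_le hh0 hNh
      have p4 : 1 / h ^ 2 ≤ y ^ (1 / 2000 : ℝ) := by
        have e1 : 1 / h ^ 2 = y ^ (1 / 1000 : ℝ) := by
          rw [hh, ← Real.rpow_natCast, ← Real.rpow_mul hσ.le, one_div, ← Real.rpow_neg hσ.le]
          norm_num
        rw [e1]
        exact Real.rpow_le_rpow_of_exponent_ge hσ hσ1 (by norm_num)
      calc 4 * (C0 + y ^ (1 / 200 : ℝ)) / N + 4 * (C0 ^ 3 / (c * h ^ 2) + y ^ (1 / 200 : ℝ)) =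
          4 * (C0 + y ^ (1 / 200 : ℝ)) * (1 / N) + 4 * (C0 ^ 3 / c * (1 / h ^ 2) +
            y ^ (1 / 200 : ℝ)) := by
            field_simp
        _ ≤ 4 * (C0 + 1) * y ^ (1 / 2000 : ℝ) + 4 * (C0 ^ 3 / c * y ^ (1 / 2000 : ℝ) +
            y ^ (1 / 2000 : ℝ)) := by gcongr
        _ = C1 * y ^ (1 / 2000 : ℝ) := by
            rw [hC1]
            ring
    have hcount := count_loc2 (fun x => σ * ξ x) E t ht0 B u (fun a _ => hu a) _ hD n φ hφ lam
      (y ^ (1 / 10000 : ℝ)) (by positivity) hlam heig hmass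
    obtain ⟨w, hw⟩ : ∃ w, w = y ^ (1 / 10000 : ℝ) := ⟨_, rfl⟩
    have hw0 : 0 < w := by rw [hw]; positivity
    have e5 : y ^ (1 / 2000 : ℝ) = w ^ 5 := by
      rw [hw, ← Real.rpow_natCast, ← Real.rpow_mul hσ.le]
      norm_num
    have e2 : y ^ (1 / 5000 : ℝ) = w ^ 2 := by
      rw [hw, ← Real.rpow_natCast, ← Real.rpow_mul hσ.le]
      norm_num
    rw [← hw, e5] at hcount
    rw [e2, hC2]
    have h1 := mul_le_mul_of_nonneg_right hcount (by positivity : 0 ≤ 4 / w ^ 3 * t ^ 2)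
    have e1 : (n : ℝ) * (w ^ 3 / 4 / t ^ 2) * (4 / w ^ 3 * t ^ 2) = n := by
      field_simp
    have e3 : B.card * (C1 * w ^ 5 / t) * (4 / w ^ 3 * t ^ 2) =
        4 * C1 * w ^ 2 * (t * B.card) := by
      field_simp
    rw [e1, e3] at h1
    exact h1
  refine main.trans ?_
  refine mul_le_mul_of_nonneg_right ?_ (by positivity)
  have e1 : y ^ (1 / 5000 : ℝ) = y ^ (1 / 10000 : ℝ) * y ^ (1 / 10000 : ℝ) := by
    rw [← Real.rpow_add hσ]
    norm_num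
  rw [e1, ← mul_assoc]
  have hq : 0 < y ^ (1 / 10000 : ℝ) := by positivity
  calc C2 * y ^ (1 / 10000 : ℝ) * y ^ (1 / 10000 : ℝ) ≤ 1 * y ^ (1 / 10000 : ℝ) := by gcongr
    _ = _ := one_mul _

end Pool.Agent.TH791.QD
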