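import Pool.Agent.TH791.QD.Dif2

/-! The density of states is normalised. -/

set_option autoImplicit false
set_option linter.unusedSectionVars false

open scoped BigOperators Topology
open MeasureTheory Filter Set

namespace Pool.Agent.TH791.QD

open Pool.Agent.W788.BK
open Pool.Agent.W788.MFP.Four
open Pool.Agent.TH794.LL2 (gL)
open Pool.Agent.TH794.QD (mv rv GF F0 CH CH_nonneg hol0 hol1 fin0 fin1 GF_im mv_im)

variable {d : ℕ}

/-- π times the density of states -/
noncomputable def nn0 (d : ℕ) (E : ℝ) : ℝ := (GF (F0 d) (E : ℂ)).im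

noncomputable def nn1 (d : ℕ) (E : ℝ) : ℝ := (GF (Pool.Agent.TH794.QD.F1 d) (E : ℂ)).im

theorem nn0_hol (hO : S_OSC) (hd : 3 ≤ d) (E E' : ℝ) :
    |nn0 d E - nn0 d E'| ≤ CH d * |E - E'| ^ (1 / 8 : ℝ) := by
  unfold nn0
  rw [← Complex.sub_im]
  refine (Complex.abs_im_le_norm _).trans ((hol0 hO d hd (E : ℂ) (E' : ℂ) (by simp)
    (by simp)).trans (le_of_eq ?_))
  rw [← Complex.ofReal_sub, Complex.norm_real, Real.norm_eq_abs]

theorem nn1_hol (hO : S_OSC) (hd : 3 ≤ d) (E E' : ℝ) :
    |nn1 d E - nn1 d E'| ≤ CH d * |E - E'| ^ (1 / 8 : ℝ) := by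
  unfold nn1
  rw [← Complex.sub_im]
  refine (Complex.abs_im_le_norm _).trans ((hol1 hO d hd (E : ℂ) (E' : ℂ) (by simp)
    (by simp)).trans (le_of_eq ?_))
  rw [← Complex.ofReal_sub, Complex.norm_real, Real.norm_eq_abs]

theorem cont_of_hol (f : ℝ → ℝ) (C : ℝ)
    (h : ∀ x y, |f x - f y| ≤ C * |x - y| ^ (1 / 8 : ℝ)) : Continuous f := by
  rw [continuous_iff_continuousAt]
  intro x
  unfold ContinuousAt
  rw [tendsto_iff_norm_sub_tendsto_zero]
  have h1 : Tendsto (fun y : ℝ => C * |y - x| ^ (1 / 8 : ℝ)) (𝓝 x) (𝓝 0) := by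
    have h2 : Continuous fun y : ℝ => C * |y - x| ^ (1 / 8 : ℝ) := by
      refine continuous_const.mul (Continuous.rpow_const (by fun_prop) fun y => ?_)
      right
      norm_num
    have h3 := h2.tendsto x
    simp only [sub_self, abs_zero] at h3
    rw [Real.zero_rpow (by norm_num), mul_zero] at h3
    exact h3
  refine squeeze_zero (fun y => norm_nonneg _) (fun y => ?_) h1
  rw [Real.norm_eq_abs]
  exact h y x

theorem nn0_cont (hO : S_OSC) (hd : 3 ≤ d) : Continuous (nn0 d) :=
  cont_of_hol _ _ (nn0_hol hO hd)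

theorem nn1_cont (hO : S_OSC) (hd : 3 ≤ d) : Continuous (nn1 d) :=
  cont_of_hol _ _ (nn1_hol hO hd)

theorem nn_im (hO : S_OSC) (hd : 3 ≤ d) (E : ℝ) : 0 ≤ nn1 d E ∧ nn1 d E ≤ nn0 d E :=
  GF_im hO d hd (E : ℂ) (by simp)

theorem arctan_ge (x : ℝ) (hx : 0 < x) : Real.pi / 2 - 1 / x ≤ Real.arctan x := by
  have h1 := Real.arctan_inv_of_pos hx
  have h2 : Real.arctan x⁻¹ ≤ x⁻¹ := by
    have hx' : 0 < x⁻¹ := by positivity
    have h3 := Real.lt_tan (Real.arctan_pos.2 hx') (Real.arctan_lt_pi_div_two x⁻¹)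
    rw [Real.tan_arctan] at h3
    exact h3.le
  rw [one_div]
  linarith

theorem lor_int (a t R : ℝ) (ht : 0 < t) :
    ∫ E in (-R)..R, t / ((a - E) ^ 2 + t ^ 2) =
      Real.arctan ((R - a) / t) + Real.arctan ((R + a) / t) := by
  have h1 : ∀ E ∈ Set.uIcc (-R) R, HasDerivAt (fun E => Real.arctan ((E - a) / t))
      (t / ((a - E) ^ 2 + t ^ 2)) E := by
    intro E _
    have h2 : HasDerivAt (fun E : ℝ => (E - a) / t) (1 / t) E :=
      ((hasDerivAt_id E).sub_const a).div_const t
    have h3 := h2.arctan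
    refine h3.congr_deriv ?_
    field_simp
    ring
  rw [intervalIntegral.integral_eq_sub_of_hasDerivAt h1 ?_]
  · have : (-R - a) / t = -((R + a) / t) := by ring
    rw [this, Real.arctan_neg]
    ring
  · apply Continuous.intervalIntegrable
    refine Continuous.div continuous_const (by fun_prop) fun E => ?_
    positivity

theorem adj_le {L : ℕ} [NeZero L] (k : T d L) : |adj k| ≤ 2 * d := by
  unfold adj
  refine (Finset.abs_sum_le_sum_abs _ _).trans ?_
  have h1 : ∀ i, |2 * (ZMod.stdAddChar (k i) : ℂ).re| ≤ 2 := by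
    intro i
    rw [abs_mul, abs_two]
    have := Complex.abs_re_le_norm (ZMod.stdAddChar (k i) : ℂ)
    rw [char_norm] at this
    linarith
  refine (Finset.sum_le_sum fun i _ => h1 i).trans (le_of_eq ?_)
  rw [Finset.sum_const, Finset.card_univ, Fintype.card_fin, nsmul_eq_mul]
  ring

/-- the torus -/
theorem tor_int {L : ℕ} [NeZero L] (hd : 3 ≤ d) (t : ℝ) (ht : 0 < t) :
    |(∫ E in (-(3 * d : ℝ))..(3 * d), (gL d L ((E : ℂ) + (t : ℂ) * Complex.I)).im) - Real.pi| ≤
      2 * t / d := by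
  have hN := NN_pos (d := d) (L := L)
  have hd0 : (0 : ℝ) < d := by
    have : (3 : ℝ) ≤ d := by exact_mod_cast hd
    linarith
  have h1 : ∀ E : ℝ, (gL d L ((E : ℂ) + (t : ℂ) * Complex.I)).im =
      (NN d L)⁻¹ * ∑ k : T d L, t / ((adj k - E) ^ 2 + t ^ 2) := by
    intro E
    have e1 : gL d L ((E : ℂ) + (t : ℂ) * Complex.I) =
        mv (NN d L) (fun k : T d L => GG ((E : ℂ) + (t : ℂ) * Complex.I) k) := rfl
    rw [e1, mv_im]
    unfold rv
    congr 1
    refine Finset.sum_congr rfl fun k _ => ?_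
    simp only
    rw [GG_im, GG_sq]
    simp
    ring
  simp only [h1]
  rw [intervalIntegral.integral_const_mul, intervalIntegral.integral_finset_sum (fun k _ => by
    apply Continuous.intervalIntegrable
    refine Continuous.div continuous_const (by fun_prop) fun E => ?_
    positivity)]
  simp only [lor_int _ t _ ht]
  have h2 : ∀ k : T d L, |Real.arctan ((3 * d - adj k) / t) + Real.arctan ((3 * d + adj k) / t) -
      Real.pi| ≤ 2 * t / d := by
    intro k
    have a1 := abs_le.1 (adj_le k)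
    have b1 : (d : ℝ) / t ≤ (3 * d - adj k) / t := by
      gcongr
      linarith [a1.2]
    have b2 : (d : ℝ) / t ≤ (3 * d + adj k) / t := by
      gcongr
      linarith [a1.1]
    have c0 : 0 < (d : ℝ) / t := by positivity
    have c1 := (arctan_ge _ c0).trans (Real.arctan_mono b1)
    have c2 := (arctan_ge _ c0).trans (Real.arctan_mono b2)
    have c3 := Real.arctan_lt_pi_div_two ((3 * d - adj k) / t)
    have c4 := Real.arctan_lt_pi_div_two ((3 * d + adj k) / t)
    have e1 : 1 / ((d : ℝ) / t) = t / d := by field_simp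
    rw [e1] at c1 c2
    have e2 : 2 * t / d = t / d + t / d := by ring
    rw [abs_le, e2]
    constructor
    · linarith
    · have : 0 < t / d := by positivity
      linarith
  have h3 : (NN d L)⁻¹ * ∑ k : T d L, (Real.arctan ((3 * d - adj k) / t) +
      Real.arctan ((3 * d + adj k) / t)) - Real.pi =
      (NN d L)⁻¹ * ∑ k : T d L, (Real.arctan ((3 * d - adj k) / t) +
      Real.arctan ((3 * d + adj k) / t) - Real.pi) := by
    rw [Finset.sum_sub_distrib, Finset.sum_const, nsmul_eq_mul, mul_sub, ← mul_assoc]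
    have e1 : (NN d L)⁻¹ * ((Finset.univ : Finset (T d L)).card : ℝ) = 1 := by
      have : ((Finset.univ : Finset (T d L)).card : ℝ) = NN d L := by
        rw [Finset.card_univ]
        unfold NN T
        simp
      rw [this]
      field_simp
    rw [e1, one_mul]
  rw [h3, abs_mul, abs_of_pos (inv_pos.2 hN)]
  have h4 : |∑ k : T d L, (Real.arctan ((3 * d - adj k) / t) +
      Real.arctan ((3 * d + adj k) / t) - Real.pi)| ≤ NN d L * (2 * t / d) := by
    refine (Finset.abs_sum_le_sum_abs _ _).trans ((Finset.sum_le_sum fun k _ => h2 k).trans ?_)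
    rw [Finset.sum_const, nsmul_eq_mul]
    apply le_of_eq
    congr 1
    rw [Finset.card_univ]
    unfold NN T
    simp
  calc (NN d L)⁻¹ * |∑ k : T d L, (Real.arctan ((3 * d - adj k) / t) +
      Real.arctan ((3 * d + adj k) / t) - Real.pi)| ≤ (NN d L)⁻¹ * (NN d L * (2 * t / d)) := by
        gcongr
    _ = _ := by
        field_simp

/-- **normalisation** -/
theorem nn0_int (hO : S_OSC) (hd : 3 ≤ d) :
    ∫ E in (-(3 * d : ℝ))..(3 * d), nn0 d E = Real.pi := by
  have hd0 : (0 : ℝ) < d := by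
    have : (3 : ℝ) ≤ d := by exact_mod_cast hd
    linarith
  have hCH := CH_nonneg d
  have key : ∀ n : ℕ, |(∫ E in (-(3 * d : ℝ))..(3 * d), nn0 d E) - Real.pi| ≤
      6 * d * (28 * d * ((n : ℝ) + 1)⁻¹ + CH d * (((n : ℝ) + 1)⁻¹) ^ (1 / 8 : ℝ)) +
        2 * ((n : ℝ) + 1)⁻¹ / d := by
    intro n
    obtain ⟨t, ht⟩ : ∃ t, t = ((n : ℝ) + 1)⁻¹ := ⟨_, rfl⟩
    have hn1 : (1 : ℝ) ≤ n + 1 := by
      have : (0 : ℝ) ≤ n := Nat.cast_nonneg n
      linarith
    have ht0 : 0 < t := by rw [ht]; positivity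
    have ht1 : t ≤ 1 := by rw [ht]; exact inv_le_one_of_one_le₀ hn1
    rw [← ht]
    have : NeZero ((n + 1) ^ 3) := ⟨by positivity⟩
    have h1 := tor_int (L := (n + 1) ^ 3) hd t ht0
    have hc : Continuous fun E : ℝ => (gL d ((n + 1) ^ 3) ((E : ℂ) + (t : ℂ) * Complex.I)).im := by
      unfold gL
      refine Complex.continuous_im.comp (continuous_const.mul (continuous_finsetSum _ fun k _ => ?_))
      refine Continuous.inv₀ (by fun_prop) fun E h => ?_
      have := congrArg Complex.im h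
      simp at this
      linarith
    have h2 : ∀ E : ℝ, |(gL d ((n + 1) ^ 3) ((E : ℂ) + (t : ℂ) * Complex.I)).im - nn0 d E| ≤
        28 * d * t + CH d * t ^ (1 / 8 : ℝ) := by
      intro E
      have a1 := fin0 (L := (n + 1) ^ 3) hO d hd t ht0 ht1 ((E : ℂ) + (t : ℂ) * Complex.I)
        (by simp)
      have a2 := hol0 hO d hd ((E : ℂ) + (t : ℂ) * Complex.I) (E : ℂ) (by simp [ht0.le]) (by simp)
      have e1 : ‖((E : ℂ) + (t : ℂ) * Complex.I) - (E : ℂ)‖ = t := by
        rw [add_sub_cancel_left, norm_mul, Complex.norm_I, mul_one, Complex.norm_real,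
          Real.norm_of_nonneg ht0.le]
      rw [e1] at a2
      have e2 : 28 * (d : ℝ) / (((n + 1) ^ 3 : ℕ) : ℝ) / t ^ 2 = 28 * d * t := by
        rw [ht]
        push_cast
        field_simp
      rw [e2] at a1
      unfold nn0
      rw [← Complex.sub_im]
      refine (Complex.abs_im_le_norm _).trans ?_
      have e3 : gL d ((n + 1) ^ 3) ((E : ℂ) + (t : ℂ) * Complex.I) - GF (F0 d) (E : ℂ) =
          (gL d ((n + 1) ^ 3) ((E : ℂ) + (t : ℂ) * Complex.I) -
            GF (F0 d) ((E : ℂ) + (t : ℂ) * Complex.I)) +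
          (GF (F0 d) ((E : ℂ) + (t : ℂ) * Complex.I) - GF (F0 d) (E : ℂ)) := by ring
      rw [e3]
      exact (norm_add_le _ _).trans (add_le_add a1 a2)
    have h3 : |∫ E in (-(3 * d : ℝ))..(3 * d),
        ((gL d ((n + 1) ^ 3) ((E : ℂ) + (t : ℂ) * Complex.I)).im - nn0 d E)| ≤
        (28 * d * t + CH d * t ^ (1 / 8 : ℝ)) * |3 * (d : ℝ) - -(3 * d)| := by
      rw [← Real.norm_eq_abs]
      exact intervalIntegral.norm_integral_le_of_norm_le_const fun E _ => h2 E
    rw [intervalIntegral.integral_sub (hc.intervalIntegrable _ _)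
      ((nn0_cont hO hd).intervalIntegrable _ _)] at h3
    have e4 : |3 * (d : ℝ) - -(3 * d)| = 6 * d := by
      rw [abs_of_nonneg (by linarith)]
      ring
    rw [e4] at h3
    have b1 := abs_le.1 h1
    have b3 := abs_le.1 h3
    rw [abs_le]
    constructor
    · linarith [b1.1, b1.2, b3.1, b3.2]
    · linarith [b1.1, b1.2, b3.1, b3.2]
  have ht0 : Tendsto (fun n : ℕ => ((n : ℝ) + 1)⁻¹) atTop (𝓝 0) := by
    have := tendsto_one_div_add_atTop_nhds_zero_nat (𝕜 := ℝ)
    simpa only [one_div] using this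
  have hF : Continuous fun x : ℝ => 6 * d * (28 * d * x + CH d * x ^ (1 / 8 : ℝ)) + 2 * x / d := by
    have : Continuous fun x : ℝ => x ^ (1 / 8 : ℝ) :=
      Continuous.rpow_const continuous_id fun x => Or.inr (by norm_num)
    fun_prop
  have hlim := (hF.tendsto 0).comp ht0
  simp only [Function.comp_def] at hlim
  rw [Real.zero_rpow (by norm_num)] at hlim
  simp only [mul_zero, add_zero, zero_div] at hlim
  have h5 : |(∫ E in (-(3 * d : ℝ))..(3 * d), nn0 d E) - Real.pi| ≤ 0 := ge_of_tendsto' hlim key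
  have h6 := abs_nonpos_iff.1 h5
  linarith

end Pool.Agent.TH791.QD
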