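import Pool.Agent.TH794.LL2.ParN

/-! The numerical conditions for the quadratic functional. -/

set_option autoImplicit false

open Filter

namespace Pool.Agent.TH791.QD

open Pool.Agent.W788.BK.Num
open Pool.Agent.TH794.LL2

/-- the numerical conditions -/
structure NumQ (d : ℕ) (A C K6 iv ic X0 Zc y : ℝ) : Prop where
  q1 : 8 * A ^ 2 * y ^ 2 * Real.exp (-(4 / 5) * y) ≤ Real.exp (-(8 / 25) * y)
  q2 : 64 * C * A * y ^ 3 * Real.exp (-(33 / 100) * y) ≤ Real.exp (-(8 / 25) * y)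
  q3 : 2 * Real.exp (-(1 / 100) * y) ≤ 1
  q4 : 736 * C * y ^ 2 * Real.exp (-(47 / 100) * y) ≤ Real.exp (-(3 / 10) * y)
  q5 : 92 * A ^ 2 * y ^ 2 * Real.exp (-(42 / 25) * y) ≤ Real.exp (-(3 / 10) * y)
  q6 : (2 * A + 2) * y * Real.exp (-2 * y) ≤ Real.exp (-(19 / 10) * y)
  q7 : 2 * K6 * Real.exp (-(19 / 40) * y) ≤ Real.exp (-(2 / 5) * y)
  q8 : 2 * Real.exp (-1 * y) ≤ Real.exp (-(2 / 5) * y)
  q9 : 4 * X0 * y ^ 2 * Real.exp (-(2 / 25) * y) ≤ 1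
  q10 : 2 * X0 * A * ic * y ^ 3 * Real.exp (-(2 / 25) * y) ≤ 1
  q11 : 2 * ic * Real.exp (-(2 / 5) * y) ≤ 1
  q12 : 6 * X0 * A * (6 + A * ic) * y ^ 4 * Real.exp (-(2 / 25) * y) ≤ Real.exp (-(1 / 25) * y)
  q14 : X0 * A * y ^ 3 * Real.exp (-(2 / 25) * y) ≤ Real.exp (-(1 / 40) * y)
  q15 : ic * (2 + iv) * Real.exp (-(1 / 40) * y) ≤ 1
  q16 : 108 * A ^ 2 * X0 * (6 + A * ic) * y ^ 5 * Real.exp (-(1 / 25) * y) ≤
    Real.exp (-(3 / 125) * y)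
  q17 : 6 * iv * Real.exp (-(1 / 40) * y) ≤ Real.exp (-(3 / 125) * y)
  q18 : 144 * A * y * Real.exp (-(1 / 4) * y) ≤ Real.exp (-(3 / 125) * y)
  q19 : 180 * A ^ 2 * y ^ 2 * Real.exp (-(1 / 25) * y) ≤ Real.exp (-(3 / 125) * y)
  q20 : 270 * A * (ic * (2 + iv)) * y * Real.exp (-(1 / 40) * y) ≤ Real.exp (-(3 / 125) * y)
  q21 : 6 * A * y * Real.exp (-(6 / 25) * y) ≤ Real.exp (-(3 / 125) * y)
  q22 : 1600 * A * y * Real.exp (-(3 / 40) * y) ≤ Real.exp (-(1 / 50) * y)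
  q23 : 2 * Real.exp (-(3 / 125) * y) ≤ Real.exp (-(1 / 50) * y)
  q24 : 100 * A * y * Real.exp (-(3 / 250) * y) ≤ 1
  q25 : 4 * A * y * Real.exp (-(1 / 25) * y) ≤ Real.exp (-(3 / 250) * y)
  q26 : 12 * (2 * d + 1) * Real.exp (-(31 / 25) * y) ≤ Real.exp (-(3 / 250) * y)
  q27 : 4 * (2 * d + 1) * Real.exp (-(11 / 50) * y) ≤ 1
  q28 : 2 * ic * Real.exp (-(1 / 50) * y) ≤ 1
  q29 : ic * (iv + 2) * Real.exp (-(1 / 50) * y) ≤ 1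
  q30 : 4 * Zc * (20 * A + Zc) * y ^ 2 * Real.exp (-(3 / 250) * y) ≤ Real.exp (-(23 / 2000) * y)
  q32 : 8 * Real.exp (-(1 / 50) * y) ≤ Real.exp (-(23 / 2000) * y)
  q33 : 60 * (ic * (iv + 2)) * (A + 1) * y * Real.exp (-(1 / 50) * y) ≤
    Real.exp (-(23 / 2000) * y)
  q34 : iv * ic * Real.exp (-(17 / 675) * y) ≤ 1
  q35 : 4 * iv * Real.exp (-(17 / 675) * y) ≤ 1
  q36 : 8 * iv * Real.exp (-(17 / 675) * y) ≤ Real.exp (-(1 / 50) * y)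
  q37 : 8 * d * Real.exp (-(11 / 50) * y) ≤ Real.exp (-(1 / 50) * y)
  q38 : 4 * Real.exp (-(2 / 5) * y) ≤ Real.exp (-(1 / 50) * y)
  q39 : 2 * Real.exp (-(23 / 2000) * y) ≤ Real.exp (-(11 / 1000) * y)
  q40 : (20 * d + 160 * d * A ^ 2) * y ^ 2 * Real.exp (-(7 / 50) * y) ≤
    Real.exp (-(11 / 1000) * y)
  q41 : 2 * Real.exp (34 / 5 * y) ≤ Real.exp (7 * y)

theorem numQ_ev (d : ℕ) (A C K6 iv ic X0 Zc : ℝ) :
    ∀ᶠ y : ℝ in atTop, NumQ d A C K6 iv ic X0 Zc y := by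
  filter_upwards [ev2 (8 * A ^ 2) (-(4 / 5)) (-(8 / 25)) 2 (by norm_num),
    ev2 (64 * C * A) (-(33 / 100)) (-(8 / 25)) 3 (by norm_num),
    ev2 2 (-(1 / 100)) 0 0 (by norm_num),
    ev2 (736 * C) (-(47 / 100)) (-(3 / 10)) 2 (by norm_num),
    ev2 (92 * A ^ 2) (-(42 / 25)) (-(3 / 10)) 2 (by norm_num),
    ev2 (2 * A + 2) (-2) (-(19 / 10)) 1 (by norm_num),
    ev2 (2 * K6) (-(19 / 40)) (-(2 / 5)) 0 (by norm_num),
    ev2 2 (-1) (-(2 / 5)) 0 (by norm_num),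
    ev2 (4 * X0) (-(2 / 25)) 0 2 (by norm_num),
    ev2 (2 * X0 * A * ic) (-(2 / 25)) 0 3 (by norm_num),
    ev2 (2 * ic) (-(2 / 5)) 0 0 (by norm_num),
    ev2 (6 * X0 * A * (6 + A * ic)) (-(2 / 25)) (-(1 / 25)) 4 (by norm_num),
    ev2 (X0 * A) (-(2 / 25)) (-(1 / 40)) 3 (by norm_num),
    ev2 (ic * (2 + iv)) (-(1 / 40)) 0 0 (by norm_num),
    ev2 (108 * A ^ 2 * X0 * (6 + A * ic)) (-(1 / 25)) (-(3 / 125)) 5 (by norm_num),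
    ev2 (6 * iv) (-(1 / 40)) (-(3 / 125)) 0 (by norm_num),
    ev2 (144 * A) (-(1 / 4)) (-(3 / 125)) 1 (by norm_num),
    ev2 (180 * A ^ 2) (-(1 / 25)) (-(3 / 125)) 2 (by norm_num),
    ev2 (270 * A * (ic * (2 + iv))) (-(1 / 40)) (-(3 / 125)) 1 (by norm_num),
    ev2 (6 * A) (-(6 / 25)) (-(3 / 125)) 1 (by norm_num),
    ev2 (1600 * A) (-(3 / 40)) (-(1 / 50)) 1 (by norm_num),
    ev2 2 (-(3 / 125)) (-(1 / 50)) 0 (by norm_num),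
    ev2 (100 * A) (-(3 / 250)) 0 1 (by norm_num),
    ev2 (4 * A) (-(1 / 25)) (-(3 / 250)) 1 (by norm_num),
    ev2 (12 * (2 * d + 1)) (-(31 / 25)) (-(3 / 250)) 0 (by norm_num),
    ev2 (4 * (2 * d + 1)) (-(11 / 50)) 0 0 (by norm_num),
    ev2 (2 * ic) (-(1 / 50)) 0 0 (by norm_num),
    ev2 (ic * (iv + 2)) (-(1 / 50)) 0 0 (by norm_num),
    ev2 (4 * Zc * (20 * A + Zc)) (-(3 / 250)) (-(23 / 2000)) 2 (by norm_num),
    ev2 8 (-(1 / 50)) (-(23 / 2000)) 0 (by norm_num),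
    ev2 (60 * (ic * (iv + 2)) * (A + 1)) (-(1 / 50)) (-(23 / 2000)) 1 (by norm_num),
    ev2 (iv * ic) (-(17 / 675)) 0 0 (by norm_num),
    ev2 (4 * iv) (-(17 / 675)) 0 0 (by norm_num),
    ev2 (8 * iv) (-(17 / 675)) (-(1 / 50)) 0 (by norm_num),
    ev2 (8 * d) (-(11 / 50)) (-(1 / 50)) 0 (by norm_num),
    ev2 4 (-(2 / 5)) (-(1 / 50)) 0 (by norm_num),
    ev2 2 (-(23 / 2000)) (-(11 / 1000)) 0 (by norm_num),
    ev2 (20 * d + 160 * d * A ^ 2) (-(7 / 50)) (-(11 / 1000)) 2 (by norm_num),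
    ev2 2 (34 / 5) 7 0 (by norm_num)] with
    y h1 h2 h3 h4 h5 h6 h7 h8 h9 h10 h11 h12 h13 h14 h15 h16 h17 h18 h19 h20 h21 h22 h23 h24 h25
      h26 h27 h28 h29 h30 h31 h32 h33 h34 h35 h36 h37 h38 h39
  simp only [pow_zero, mul_one, pow_one, zero_mul, Real.exp_zero] at h1 h2 h3 h4 h5 h6 h7 h8 h9 h10 h11 h12 h13 h14 h15 h16 h17 h18 h19 h20 h21 h22 h23 h24 h25 h26 h27 h28 h29 h30 h31 h32 h33 h34 h35 h36 h37 h38 h39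
  exact ⟨h1, h2, h3, h4, h5, h6, h7, h8, h9, h10, h11, h12, h13, h14, h15, h16, h17, h18, h19,
    h20, h21, h22, h23, h24, h25, h26, h27, h28, h29, h30, h31, h32, h33, h34, h35, h36, h37, h38,
    h39⟩

end Pool.Agent.TH791.QD
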