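import Pool.Agent.TH791.QD.ParNQ

/-! The numerical part of the choice of the parameters for the quadratic functional: the mean and
the deterministic part. -/

set_option autoImplicit false

namespace Pool.Agent.TH791.QD

open Pool.Agent.W788.BK.Num
open Pool.Agent.TH794.LL2

/-- the conditions of the mean -/
theorem numE (d : ℕ) (A C K6 iv ic X0 Zc y : ℝ) (hN : NumQ d A C K6 iv ic X0 Zc y)
    (hy1 : 1 ≤ y) (hA10 : 0 < A) (hiv : 0 < iv) (hic : 0 < ic) (hX0 : 0 < X0)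
    (x0 x1 g c' Λ η ε e1 α e4 ε3 u : ℝ) (hc' : c' = ic⁻¹) (hx00 : 0 ≤ x0)
    (hx0 : x0 ≤ X0 * y ^ 2 * Real.exp (-(2 / 25) * y)) (hg1 : 1 ≤ g) (hgA : g ≤ A * y)
    (hΛ1 : Real.exp (-(1 / 25) * y) ≤ Λ) (hΛ2 : Λ ≤ iv * Real.exp (-(17 / 675) * y))
    (hx1 : x1 = Real.exp (-(2 / 5) * y)) (hη : η = Real.exp (-(2 / 25) * y))
    (hε : ε = Real.exp (-(8 / 25) * y)) (he1 : e1 = Real.exp (-(1 / 4) * y))
    (hα : α = Real.exp (-(6 / 25) * y)) (he4 : e4 = Real.exp (-(3 / 125) * y))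
    (hε3 : ε3 = ε / η ^ 2 + ε / (α * η) + 3 * α ^ 2 / η ^ 6)
    (hu : u = (x0 * g + x1 + Λ) / c') :
    x0 ≤ 1 / 4 ∧ x0 * g + x1 ≤ c' ∧ x0 * (6 + g / c') ≤ Λ / (6 * g) ∧ u ≤ 1 ∧
    18 * g ^ 2 * (x0 * (6 + g / c')) / Λ + Λ + 24 * g * e1 + 6 * g ^ 2 * η * ε3 / Λ +
      45 * g * u + α ^ 2 * g / η ^ 3 ≤ e4 := by
  have hc0 : 0 < c' := by rw [hc']; positivity
  have hci : c'⁻¹ = ic := by rw [hc', inv_inv]
  have hg0 : 0 < g := by linarith
  have hΛ0 : 0 < Λ := lt_of_lt_of_le (Real.exp_pos _) hΛ1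
  have hη0 : 0 < η := by rw [hη]; positivity
  have hηinv : η⁻¹ = Real.exp (2 / 25 * y) := by
    rw [hη, ex_inv]
    norm_num
  have hΛinv : Λ⁻¹ ≤ Real.exp (1 / 25 * y) := by
    refine (inv_anti₀ (Real.exp_pos _) hΛ1).trans (le_of_eq ?_)
    rw [ex_inv]
    norm_num
  have hΛi0 : 0 < Λ⁻¹ := inv_pos.2 hΛ0
  have hy0 : 0 < y := by linarith
  -- powers of y
  have hgc : 6 + g / c' ≤ (6 + A * ic) * y := by
    rw [div_eq_mul_inv, hci]
    have : g * ic ≤ A * y * ic := by gcongr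
    nlinarith
  have hgc0 : 0 ≤ 6 + g / c' := by positivity
  have b1 : x0 ≤ 1 / 4 := by
    have := hN.q9
    linarith
  have b2 : x0 * g ≤ X0 * A * y ^ 3 * Real.exp (-(2 / 25) * y) := by
    calc x0 * g ≤ (X0 * y ^ 2 * Real.exp (-(2 / 25) * y)) * (A * y) := by gcongr
      _ = _ := by ring
  have b3 : x0 * g + x1 ≤ c' := by
    have h1 : x0 * g ≤ 1 / 2 * c' := by
      have h2 := hN.q10
      have h3 : X0 * A * y ^ 3 * Real.exp (-(2 / 25) * y) =
        1 / 2 * c' * (2 * X0 * A * ic * y ^ 3 * Real.exp (-(2 / 25) * y)) := by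
        rw [← hci]
        field_simp
      rw [h3] at b2
      have h4 : 1 / 2 * c' * (2 * X0 * A * ic * y ^ 3 * Real.exp (-(2 / 25) * y)) ≤
        1 / 2 * c' * 1 := by gcongr
      linarith
    have h5 : x1 ≤ 1 / 2 * c' := by
      have h2 := hN.q11
      rw [← hx1] at h2
      have h3 : x1 = 1 / 2 * c' * (2 * ic * x1) := by
        rw [← hci]
        field_simp
      rw [h3]
      have h4 : 1 / 2 * c' * (2 * ic * x1) ≤ 1 / 2 * c' * 1 := by gcongr
      linarith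
    linarith
  have b4 : x0 * (6 + g / c') ≤ X0 * (6 + A * ic) * y ^ 3 * Real.exp (-(2 / 25) * y) := by
    calc x0 * (6 + g / c') ≤ (X0 * y ^ 2 * Real.exp (-(2 / 25) * y)) * ((6 + A * ic) * y) := by
          gcongr
      _ = _ := by ring
  have b4' : 0 ≤ x0 * (6 + g / c') := by positivity
  have b5 : x0 * (6 + g / c') ≤ Λ / (6 * g) := by
    rw [le_div_iff₀ (by positivity)]
    calc x0 * (6 + g / c') * (6 * g) ≤
        (X0 * (6 + A * ic) * y ^ 3 * Real.exp (-(2 / 25) * y)) * (6 * (A * y)) := by gcongr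
      _ = 6 * X0 * A * (6 + A * ic) * y ^ 4 * Real.exp (-(2 / 25) * y) := by ring
      _ ≤ Real.exp (-(1 / 25) * y) := hN.q12
      _ ≤ Λ := hΛ1
  -- u
  have hΛ3 : Λ ≤ iv * Real.exp (-(1 / 40) * y) := by
    refine hΛ2.trans ?_
    have := hexle hy1 (-(17 / 675)) (-(1 / 40)) (by norm_num)
    gcongr
  have b6 : u ≤ ic * (2 + iv) * Real.exp (-(1 / 40) * y) := by
    have h1 : x0 * g ≤ Real.exp (-(1 / 40) * y) := b2.trans hN.q14
    have h2 : x1 ≤ Real.exp (-(1 / 40) * y) := by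
      rw [hx1]
      exact hexle hy1 _ _ (by norm_num)
    rw [hu, div_eq_mul_inv, hci]
    calc (x0 * g + x1 + Λ) * ic ≤ (Real.exp (-(1 / 40) * y) + Real.exp (-(1 / 40) * y) +
          iv * Real.exp (-(1 / 40) * y)) * ic := by gcongr
      _ = _ := by ring
  have b7 : u ≤ 1 := b6.trans hN.q15
  have hu0 : 0 ≤ u := by
    rw [hu]
    have : 0 < x1 := by rw [hx1]; positivity
    positivity
  refine ⟨b1, b3, b5, b7, ?_⟩
  have t1 : 18 * g ^ 2 * (x0 * (6 + g / c')) / Λ ≤ 1 / 6 * e4 := by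
    calc 18 * g ^ 2 * (x0 * (6 + g / c')) / Λ = 18 * g ^ 2 * (x0 * (6 + g / c')) * Λ⁻¹ := by
          rw [div_eq_mul_inv]
      _ ≤ 18 * (A * y) ^ 2 * (X0 * (6 + A * ic) * y ^ 3 * Real.exp (-(2 / 25) * y)) *
          Real.exp (1 / 25 * y) := by gcongr
      _ = 1 / 6 * (108 * A ^ 2 * X0 * (6 + A * ic) * y ^ 5 * (Real.exp (-(2 / 25) * y) *
          Real.exp (1 / 25 * y))) := by ring
      _ = 1 / 6 * (108 * A ^ 2 * X0 * (6 + A * ic) * y ^ 5 * Real.exp (-(1 / 25) * y)) := by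
          rw [ex_mul]
          norm_num
      _ ≤ _ := by rw [he4]; linarith [hN.q16]
  have t2 : Λ ≤ 1 / 6 * e4 := by
    rw [he4]
    linarith [hN.q17]
  have t3 : 24 * g * e1 ≤ 1 / 6 * e4 := by
    calc 24 * g * e1 ≤ 24 * (A * y) * Real.exp (-(1 / 4) * y) := by
          rw [he1]
          gcongr
      _ = 1 / 6 * (144 * A * y * Real.exp (-(1 / 4) * y)) := by ring
      _ ≤ _ := by rw [he4]; linarith [hN.q18]
  have hηε3 : η * ε3 ≤ 5 * Real.exp (-(2 / 25) * y) := by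
    have e0 : η * ε3 = ε * η⁻¹ + ε * α⁻¹ + 3 * (α ^ 2 * (η⁻¹) ^ 5) := by
      rw [hε3]
      have hα0 : α ≠ 0 := by rw [hα]; positivity
      field_simp
    have hαinv : α⁻¹ = Real.exp (6 / 25 * y) := by
      rw [hα, ex_inv]
      norm_num
    have e1' : ε * η⁻¹ ≤ Real.exp (-(2 / 25) * y) := by
      rw [hε, hηinv, ex_mul]
      exact hexle hy1 _ _ (by norm_num)
    have e2 : ε * α⁻¹ ≤ Real.exp (-(2 / 25) * y) := by
      rw [hε, hαinv, ex_mul]
      exact hexle hy1 _ _ (by norm_num)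
    have e3 : α ^ 2 * (η⁻¹) ^ 5 ≤ Real.exp (-(2 / 25) * y) := by
      rw [hα, hηinv, ex_pow, ex_pow, ex_mul]
      exact hexle hy1 _ _ (by norm_num)
    rw [e0]
    linarith
  have hηε30 : 0 ≤ η * ε3 := by
    rw [hε3, hε, hα]
    positivity
  have t4 : 6 * g ^ 2 * η * ε3 / Λ ≤ 1 / 6 * e4 := by
    calc 6 * g ^ 2 * η * ε3 / Λ = 6 * g ^ 2 * (η * ε3) * Λ⁻¹ := by
          rw [div_eq_mul_inv]
          ring
      _ ≤ 6 * (A * y) ^ 2 * (5 * Real.exp (-(2 / 25) * y)) * Real.exp (1 / 25 * y) := by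
          gcongr
      _ = 1 / 6 * (180 * A ^ 2 * y ^ 2 * (Real.exp (-(2 / 25) * y) * Real.exp (1 / 25 * y))) := by
          ring
      _ = 1 / 6 * (180 * A ^ 2 * y ^ 2 * Real.exp (-(1 / 25) * y)) := by
          rw [ex_mul]
          norm_num
      _ ≤ _ := by rw [he4]; linarith [hN.q19]
  have t5 : 45 * g * u ≤ 1 / 6 * e4 := by
    calc 45 * g * u ≤ 45 * (A * y) * (ic * (2 + iv) * Real.exp (-(1 / 40) * y)) := by gcongr
      _ = 1 / 6 * (270 * A * (ic * (2 + iv)) * y * Real.exp (-(1 / 40) * y)) := by ring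
      _ ≤ _ := by rw [he4]; linarith [hN.q20]
  have t6 : α ^ 2 * g / η ^ 3 ≤ 1 / 6 * e4 := by
    calc α ^ 2 * g / η ^ 3 = α ^ 2 * g * (η⁻¹) ^ 3 := by
          rw [inv_pow, div_eq_mul_inv]
      _ ≤ (Real.exp (-(6 / 25) * y)) ^ 2 * (A * y) * (Real.exp (2 / 25 * y)) ^ 3 := by
          rw [hα, hηinv]
          gcongr
      _ = 1 / 6 * (6 * A * y * (Real.exp (-(6 / 25) * y) ^ 2 * Real.exp (2 / 25 * y) ^ 3)) := by
          ring
      _ = 1 / 6 * (6 * A * y * Real.exp (-(6 / 25) * y)) := by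
          rw [ex_pow, ex_pow, ex_mul]
          norm_num
      _ ≤ _ := by rw [he4]; linarith [hN.q21]
  linarith

/-- the conditions of the deterministic part -/
theorem numD (d : ℕ) (A C K6 iv ic X0 Zc y : ℝ) (hN : NumQ d A C K6 iv ic X0 Zc y)
    (hy1 : 1 ≤ y) (hA10 : 0 < A) (hAy1 : 1 ≤ A * y) (hiv : 0 < iv) (hic : 0 < ic)
    (hZc : Zc = 250 * A + 1)
    (g1 g η t kf ρ ζ τ e2 e3 zz x1 x u c' s2 K : ℝ) (hg1A : g1 ≤ A * y)
    (hg1' : 1 ≤ g) (hgA : g ≤ A * y) (hK : K = 10 * g)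
    (hη : η = Real.exp (-(2 / 25) * y)) (ht : t = Real.exp (-(51 / 25) * y))
    (hkf : kf = Real.exp (-(3 / 250) * y)) (hρ : ρ = 2 * d * Real.exp (-(113 / 50) * y))
    (hζ : ζ = Real.exp (-(633 / 100) * y)) (hτ : τ = Real.exp (-(43 / 20) * y))
    (he2 : e2 = Real.exp (-(1 / 50) * y)) (he3 : e3 = Real.exp (-(23 / 2000) * y))
    (hzz : zz = Zc * y * kf) (hx1 : x1 = Real.exp (-(1 / 50) * y)) (hx : x = x1 + ζ / t ^ 2)
    (hc' : c' = ic⁻¹) (hs2 : 0 < s2) (hs2i : s2⁻¹ ≤ iv * Real.exp (272 / 135 * y))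
    (hu : u = (ζ + s2 * x) / (s2 * c')) :
    K * (τ / t + 2 * (kf + η)) ≤ 1 / 2 ∧
    K * (2 * (Real.sqrt η * Real.sqrt g1) + 3 * ((2 * (ρ + ζ * t⁻¹)) / Real.sqrt t)) ≤ 1 / 2 ∧
    (2 * (ρ + ζ * t⁻¹)) / t ≤ 1 / 2 ∧
    (τ / t + 2 * (kf + η)) * Real.sqrt (5 * K) +
      (2 * (Real.sqrt η * Real.sqrt g1) + 3 * ((2 * (ρ + ζ * t⁻¹)) / Real.sqrt t)) ≤ zz ∧
    x ≤ c' ∧ t ≤ c' ∧ u ≤ 1 ∧ kf ≤ 1 / 2 ∧
    zz * (2 * K + zz) + e2 + x + 15 * u * (g + x1) ≤ e3 := by
  have hη0 : 0 < η := by rw [hη]; positivity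
  have hkf0 : 0 < kf := by rw [hkf]; positivity
  have hρ0 : 0 ≤ ρ := by rw [hρ]; positivity
  have ht0 : 0 < t := by rw [ht]; positivity
  have hζ0 : 0 < ζ := by rw [hζ]; positivity
  have hτ0 : 0 < τ := by rw [hτ]; positivity
  have hx10 : 0 < x1 := by rw [hx1]; positivity
  have hy0 : 0 < y := by linarith
  have hc0 : 0 < c' := by rw [hc']; positivity
  have hci : c'⁻¹ = ic := by rw [hc', inv_inv]
  have htinv : t⁻¹ = Real.exp (51 / 25 * y) := by
    rw [ht, ex_inv]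
    norm_num
  have hg0 : 0 < g := by linarith
  have hq24 : 100 * A * y * kf ≤ 1 := by rw [hkf]; exact hN.q24
  have hkf2 : kf ≤ 1 / 2 := by
    have : 100 * 1 * kf ≤ 100 * (A * y) * kf := by gcongr
    linarith
  have hZc0 : 0 < Zc := by rw [hZc]; positivity
  have q1 : τ / t ≤ kf := by
    rw [div_eq_mul_inv, htinv, hτ, ex_mul, hkf]
    exact hexle hy1 _ _ (by norm_num)
  have q1' : 0 < τ / t := by positivity
  have q2 : τ / t + 2 * (kf + η) ≤ 5 * kf := by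
    have f2 : η ≤ kf := by
      rw [hη, hkf]
      exact hexle hy1 _ _ (by norm_num)
    linarith
  have q2' : 0 ≤ τ / t + 2 * (kf + η) := by positivity
  have hsη : Real.sqrt η = Real.exp (-(1 / 25) * y) := by
    rw [hη]
    exact sqrt_ex _ _ y (by norm_num)
  have hsg1 : Real.sqrt g1 ≤ A * y := by
    rw [Real.sqrt_le_left (by positivity)]
    calc g1 ≤ A * y * 1 := by linarith
      _ ≤ A * y * (A * y) := by gcongr
      _ = _ := by ring
  have hst : Real.sqrt t = Real.exp (-(51 / 50) * y) := by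
    rw [ht]
    exact sqrt_ex _ _ y (by norm_num)
  have q3 : 2 * (ρ + ζ * t⁻¹) ≤ 2 * (2 * d + 1) * Real.exp (-(113 / 50) * y) := by
    have f1 : ζ * t⁻¹ ≤ Real.exp (-(113 / 50) * y) := by
      rw [hζ, htinv, ex_mul]
      exact hexle hy1 _ _ (by norm_num)
    rw [hρ]
    linarith
  have q3' : 0 ≤ 2 * (ρ + ζ * t⁻¹) := by positivity
  have q4 : (2 * (ρ + ζ * t⁻¹)) / Real.sqrt t ≤ 2 * (2 * d + 1) * Real.exp (-(31 / 25) * y) := by
    rw [div_eq_mul_inv, hst, ex_inv]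
    calc 2 * (ρ + ζ * t⁻¹) * Real.exp (- -(51 / 50) * y) ≤
        2 * (2 * d + 1) * Real.exp (-(113 / 50) * y) * Real.exp (- -(51 / 50) * y) := by
          gcongr
      _ = _ := by
          rw [mul_assoc, ex_mul]
          norm_num
  have q5 : 2 * (Real.sqrt η * Real.sqrt g1) + 3 * ((2 * (ρ + ζ * t⁻¹)) / Real.sqrt t) ≤ kf := by
    have f1 : 2 * (Real.sqrt η * Real.sqrt g1) ≤ 1 / 2 * kf := by
      calc 2 * (Real.sqrt η * Real.sqrt g1) ≤ 2 * (Real.exp (-(1 / 25) * y) * (A * y)) := by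
            rw [hsη]
            gcongr
        _ = 1 / 2 * (4 * A * y * Real.exp (-(1 / 25) * y)) := by ring
        _ ≤ _ := by
            rw [hkf]
            linarith [hN.q25]
    have f2 : 3 * ((2 * (ρ + ζ * t⁻¹)) / Real.sqrt t) ≤ 1 / 2 * kf := by
      calc 3 * ((2 * (ρ + ζ * t⁻¹)) / Real.sqrt t) ≤
            3 * (2 * (2 * d + 1) * Real.exp (-(31 / 25) * y)) := by gcongr
        _ = 1 / 2 * (12 * (2 * d + 1) * Real.exp (-(31 / 25) * y)) := by ring
        _ ≤ _ := by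
            rw [hkf]
            linarith [hN.q26]
    linarith
  have hKA : K ≤ 10 * (A * y) := by rw [hK]; linarith
  have hK0 : 0 < K := by rw [hK]; positivity
  have hKkf : K * (5 * kf) ≤ 1 / 2 := by
    calc K * (5 * kf) ≤ 10 * (A * y) * (5 * kf) := by gcongr
      _ = 1 / 2 * (100 * A * y * kf) := by ring
      _ ≤ _ := by linarith
  have hs5K : Real.sqrt (5 * K) ≤ 50 * (A * y) := by
    rw [Real.sqrt_le_left (by positivity)]
    calc 5 * K ≤ 50 * (A * y) * 1 := by linarith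
      _ ≤ 50 * (A * y) * (50 * (A * y)) := by
          have : 1 ≤ 50 * (A * y) := by linarith
          gcongr
      _ = _ := by ring
  have hζt : ζ / t ^ 2 ≤ x1 := by
    rw [div_eq_mul_inv, ← inv_pow, htinv, hζ, hx1, ex_pow, ex_mul]
    exact hexle hy1 _ _ (by norm_num)
  have hx2 : x ≤ 2 * x1 := by rw [hx]; linarith
  have hx0 : 0 < x := by rw [hx]; positivity
  have h2x1 : 2 * x1 ≤ c' := by
    have h2 := hN.q28
    rw [← hx1] at h2
    have h3 : 2 * x1 = c' * (2 * ic * x1) := by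
      rw [← hci]
      field_simp
    rw [h3]
    have h4 : c' * (2 * ic * x1) ≤ c' * 1 := by gcongr
    linarith
  have htx1 : t ≤ x1 := by
    rw [ht, hx1]
    exact hexle hy1 _ _ (by norm_num)
  have huu : u ≤ ic * (iv + 2) * x1 := by
    have e1 : u = ζ * s2⁻¹ * c'⁻¹ + x * c'⁻¹ := by
      rw [hu]
      field_simp
    rw [e1, hci]
    have e2' : ζ * s2⁻¹ ≤ iv * x1 := by
      calc ζ * s2⁻¹ ≤ Real.exp (-(633 / 100) * y) * (iv * Real.exp (272 / 135 * y)) := by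
            rw [hζ]
            gcongr
        _ = iv * (Real.exp (-(633 / 100) * y) * Real.exp (272 / 135 * y)) := by ring
        _ ≤ iv * x1 := by
            rw [ex_mul, hx1]
            have := hexle hy1 (-(633 / 100) + 272 / 135) (-(1 / 50)) (by norm_num)
            gcongr
    calc ζ * s2⁻¹ * ic + x * ic ≤ iv * x1 * ic + 2 * x1 * ic := by gcongr
      _ = _ := by ring
  have hu0 : 0 ≤ u := by rw [hu]; positivity
  refine ⟨?_, ?_, ?_, ?_, by linarith, by linarith, ?_, hkf2, ?_⟩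
  · calc K * (τ / t + 2 * (kf + η)) ≤ K * (5 * kf) := by gcongr
      _ ≤ 1 / 2 := hKkf
  · calc _ ≤ K * kf := by gcongr
      _ ≤ K * (5 * kf) := by
          have : kf ≤ 5 * kf := by linarith
          gcongr
      _ ≤ 1 / 2 := hKkf
  · rw [div_eq_mul_inv, htinv]
    rw [htinv] at q3
    calc 2 * (ρ + ζ * Real.exp (51 / 25 * y)) * Real.exp (51 / 25 * y) ≤
        2 * (2 * d + 1) * Real.exp (-(113 / 50) * y) * Real.exp (51 / 25 * y) := by gcongr
      _ = 1 / 2 * (4 * (2 * d + 1) * (Real.exp (-(113 / 50) * y) *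
          Real.exp (51 / 25 * y))) := by ring
      _ = 1 / 2 * (4 * (2 * d + 1) * Real.exp (-(11 / 50) * y)) := by
          rw [ex_mul]
          norm_num
      _ ≤ 1 / 2 := by linarith [hN.q27]
  · calc _ ≤ (5 * kf) * (50 * (A * y)) + kf := by gcongr
      _ ≤ (5 * kf) * (50 * (A * y)) + y * kf := by
          have : 1 * kf ≤ y * kf := by gcongr
          linarith
      _ = zz := by
          rw [hzz, hZc]
          ring
  · refine huu.trans ?_
    rw [hx1]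
    exact hN.q29
  · have hzz0 : 0 ≤ zz := by rw [hzz]; positivity
    have hzzy : zz ≤ Zc * y := by
      rw [hzz]
      have : Zc * y * kf ≤ Zc * y * 1 := by gcongr; linarith
      linarith
    have a1 : zz * (2 * K + zz) ≤ 1 / 4 * e3 := by
      calc zz * (2 * K + zz) ≤ (Zc * y * kf) * (2 * (10 * (A * y)) + Zc * y) := by
            rw [← hzz]
            gcongr
        _ = 1 / 4 * (4 * Zc * (20 * A + Zc) * y ^ 2 * kf) := by ring
        _ ≤ 1 / 4 * e3 := by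
            rw [hkf, he3]
            linarith [hN.q30]
    have hx1e3 : 8 * x1 ≤ e3 := by rw [hx1, he3]; exact hN.q32
    have a2 : e2 ≤ 1 / 8 * e3 := by
      have : e2 = x1 := by rw [he2, hx1]
      rw [this]
      linarith
    have a3 : x ≤ 1 / 4 * e3 := by linarith
    have a4 : 15 * u * (g + x1) ≤ 1 / 4 * e3 := by
      have f1 : g + x1 ≤ (A + 1) * y := by
        have : x1 ≤ 1 := by
          rw [hx1]
          exact Real.exp_le_one_iff.2 (by linarith)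
        linarith
      calc 15 * u * (g + x1) ≤ 15 * (ic * (iv + 2) * x1) * ((A + 1) * y) := by gcongr
        _ = 1 / 4 * (60 * (ic * (iv + 2)) * (A + 1) * y * x1) := by ring
        _ ≤ _ := by
            rw [hx1, he3]
            linarith [hN.q33]
    have he30 : 0 < e3 := by rw [he3]; positivity
    linarith

end Pool.Agent.TH791.QD
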