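import Pool.Agent.TH791.QD.ParN2Q

/-! The numerical part of the choice of the parameters for the quadratic functional: the lattice and
the probability. -/

set_option autoImplicit false

namespace Pool.Agent.TH791.QD

open Pool.Agent.W788.BK.Num
open Pool.Agent.TH794.LL2

/-- the conditions of the lattice -/
theorem numL (d : ℕ) (A C K6 iv ic X0 Zc y : ℝ) (hN : NumQ d A C K6 iv ic X0 Zc y)
    (hy1 : 1 ≤ y) (hA10 : 0 < A) (hiv : 0 < iv) (hic : 0 < ic)
    (g t s2 ℓ L c' xs x1 e3 e5 H : ℝ) (hg1' : 1 ≤ g) (hgA : g ≤ A * y)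
    (ht : t = Real.exp (-(51 / 25) * y)) (hs2 : 0 < s2) (hs2e : s2 ≤ Real.exp (-2 * y))
    (hs2i : s2⁻¹ ≤ iv * Real.exp (272 / 135 * y)) (hℓ : ℓ = Real.exp (43 / 10 * y))
    (hL1 : Real.exp (34 / 5 * y) ≤ L) (hc' : c' = ic⁻¹)
    (hxs : xs = 2 * iv * Real.exp (-(17 / 675) * y)) (hx1 : x1 = Real.exp (-(1 / 50) * y))
    (he3 : e3 = Real.exp (-(23 / 2000) * y)) (he5 : e5 = Real.exp (-(11 / 1000) * y))
    (hH : H ≤ Real.exp (-(2 / 5) * y)) :
    2 * d / ℓ * t⁻¹ * t⁻¹ + xs ≤ g ∧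
    xs + 2 * d / ℓ * t⁻¹ * t⁻¹ + H ≤ x1 ∧
    e3 + (t * (2 * d / ℓ * t⁻¹ ^ 3 + 2 * Real.pi * ℓ * d / L * t⁻¹ ^ 2) +
      (2 * g) ^ 2 / (t / s2) * (s2 * (12 * d / ℓ * t⁻¹ ^ 3 +
        2 * Real.pi * ℓ * d / L * t⁻¹ ^ 2))) ≤ e5 ∧
    t ≤ s2 * (4 * c') ∧
    t / s2 ≤ iv * Real.exp (-(17 / 675) * y) ∧ Real.exp (-(1 / 25) * y) ≤ t / s2 := by
  have ht0 : 0 < t := by rw [ht]; positivity
  have hℓ0 : 0 < ℓ := by rw [hℓ]; positivity
  have hL0 : 0 < L := lt_of_lt_of_le (Real.exp_pos _) hL1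
  have hc0 : 0 < c' := by rw [hc']; positivity
  have hci : c'⁻¹ = ic := by rw [hc', inv_inv]
  have hg0 : 0 < g := by linarith
  have hy0 : 0 < y := by linarith
  have htinv : t⁻¹ = Real.exp (51 / 25 * y) := by
    rw [ht, ex_inv]
    norm_num
  have hℓinv : ℓ⁻¹ = Real.exp (-(43 / 10) * y) := by
    rw [hℓ, ex_inv]
  have hLinv : L⁻¹ ≤ Real.exp (-(34 / 5) * y) := by
    refine (inv_anti₀ (Real.exp_pos _) hL1).trans (le_of_eq ?_)
    rw [ex_inv]
  have hLi0 : 0 < L⁻¹ := inv_pos.2 hL0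
  have hdnn : (0 : ℝ) ≤ d := Nat.cast_nonneg d
  have hpi : Real.pi ≤ 4 := Real.pi_le_four
  have hpi0 := Real.pi_pos
  have hΛ2 : t / s2 ≤ iv * Real.exp (-(17 / 675) * y) := by
    rw [div_eq_mul_inv]
    calc t * s2⁻¹ ≤ Real.exp (-(51 / 25) * y) * (iv * Real.exp (272 / 135 * y)) := by
          rw [ht]
          gcongr
      _ = iv * (Real.exp (-(51 / 25) * y) * Real.exp (272 / 135 * y)) := by ring
      _ = _ := by
          rw [ex_mul]
          norm_num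
  have hΛ1 : Real.exp (-(1 / 25) * y) ≤ t / s2 := by
    rw [le_div_iff₀ hs2]
    calc Real.exp (-(1 / 25) * y) * s2 ≤ Real.exp (-(1 / 25) * y) * Real.exp (-2 * y) := by gcongr
      _ = t := by
          rw [ht, ex_mul]
          norm_num
  have a1 : 2 * d / ℓ * t⁻¹ * t⁻¹ = 2 * d * Real.exp (-(11 / 50) * y) := by
    calc 2 * d / ℓ * t⁻¹ * t⁻¹ = 2 * d * (ℓ⁻¹ * t⁻¹ * t⁻¹) := by
          rw [div_eq_mul_inv]
          ring
      _ = _ := by
          rw [hℓinv, htinv, ex_mul, ex_mul]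
          norm_num
  refine ⟨?_, ?_, ?_, ?_, hΛ2, hΛ1⟩
  · rw [a1, hxs]
    have h1 := hN.q27
    have h2 := hN.q35
    have h3 : 2 * d * Real.exp (-(11 / 50) * y) ≤ 1 / 2 := by
      have : 0 < Real.exp (-(11 / 50) * y) := Real.exp_pos _
      nlinarith
    linarith
  · rw [a1, hxs, hx1]
    have h1 := hN.q36
    have h2 := hN.q37
    have h3 := hN.q38
    have h4 : 0 < Real.exp (-(1 / 50) * y) := Real.exp_pos _
    linarith
  · -- the four errors
    have b1 : t * (2 * d / ℓ * t⁻¹ ^ 3) = 2 * d * Real.exp (-(11 / 50) * y) := by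
      calc t * (2 * d / ℓ * t⁻¹ ^ 3) = 2 * d / ℓ * t⁻¹ * t⁻¹ := by
            field_simp
        _ = _ := a1
    have b2 : t * (2 * Real.pi * ℓ * d / L * t⁻¹ ^ 2) ≤ 8 * d * Real.exp (-(23 / 50) * y) := by
      calc t * (2 * Real.pi * ℓ * d / L * t⁻¹ ^ 2) = 2 * Real.pi * d * (ℓ * L⁻¹ * t⁻¹) := by
            field_simp
        _ ≤ 2 * 4 * d * (Real.exp (43 / 10 * y) * Real.exp (-(34 / 5) * y) *
            Real.exp (51 / 25 * y)) := by
            rw [hℓ, htinv]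
            gcongr
        _ = _ := by
            rw [ex_mul, ex_mul]
            norm_num
    have b3 : (2 * g) ^ 2 / (t / s2) * (s2 * (12 * d / ℓ * t⁻¹ ^ 3)) ≤
        48 * d * A ^ 2 * y ^ 2 * Real.exp (-(7 / 50) * y) := by
      calc (2 * g) ^ 2 / (t / s2) * (s2 * (12 * d / ℓ * t⁻¹ ^ 3)) =
          48 * d * g ^ 2 * (s2 ^ 2 * ℓ⁻¹ * t⁻¹ ^ 4) := by
            field_simp
            ring
        _ ≤ 48 * d * (A * y) ^ 2 * (Real.exp (-2 * y) ^ 2 * Real.exp (-(43 / 10) * y) *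
            Real.exp (51 / 25 * y) ^ 4) := by
            rw [hℓinv, htinv]
            gcongr
        _ = 48 * d * A ^ 2 * y ^ 2 * (Real.exp (-2 * y) ^ 2 * Real.exp (-(43 / 10) * y) *
            Real.exp (51 / 25 * y) ^ 4) := by ring
        _ = _ := by
            rw [ex_pow, ex_pow, ex_mul, ex_mul]
            norm_num
    have b4 : (2 * g) ^ 2 / (t / s2) * (s2 * (2 * Real.pi * ℓ * d / L * t⁻¹ ^ 2)) ≤
        32 * d * A ^ 2 * y ^ 2 * Real.exp (-(19 / 50) * y) := by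
      calc (2 * g) ^ 2 / (t / s2) * (s2 * (2 * Real.pi * ℓ * d / L * t⁻¹ ^ 2)) =
          8 * Real.pi * d * g ^ 2 * (s2 ^ 2 * ℓ * L⁻¹ * t⁻¹ ^ 3) := by
            field_simp
            ring
        _ ≤ 8 * 4 * d * (A * y) ^ 2 * (Real.exp (-2 * y) ^ 2 * Real.exp (43 / 10 * y) *
            Real.exp (-(34 / 5) * y) * Real.exp (51 / 25 * y) ^ 3) := by
            rw [hℓ, htinv]
            gcongr
        _ = 32 * d * A ^ 2 * y ^ 2 * (Real.exp (-2 * y) ^ 2 * Real.exp (43 / 10 * y) *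
            Real.exp (-(34 / 5) * y) * Real.exp (51 / 25 * y) ^ 3) := by ring
        _ = _ := by
            rw [ex_pow, ex_pow, ex_mul, ex_mul, ex_mul]
            norm_num
    have c1 : Real.exp (-(11 / 50) * y) ≤ Real.exp (-(7 / 50) * y) := hexle hy1 _ _ (by norm_num)
    have c2 : Real.exp (-(23 / 50) * y) ≤ Real.exp (-(7 / 50) * y) := hexle hy1 _ _ (by norm_num)
    have c3 : Real.exp (-(19 / 50) * y) ≤ Real.exp (-(7 / 50) * y) := hexle hy1 _ _ (by norm_num)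
    obtain ⟨Z, hZ⟩ : ∃ Z, Z = Real.exp (-(7 / 50) * y) := ⟨_, rfl⟩
    have hZ0 : 0 < Z := by rw [hZ]; positivity
    rw [← hZ] at c1 c2 c3 b3
    have hy2 : (1 : ℝ) ≤ y ^ 2 := one_le_pow₀ hy1
    have d1 : 2 * d * Real.exp (-(11 / 50) * y) ≤ 2 * d * (y ^ 2 * Z) := by
      have : Z ≤ y ^ 2 * Z := le_mul_of_one_le_left hZ0.le hy2
      have := c1.trans this
      gcongr
    have d2 : 8 * d * Real.exp (-(23 / 50) * y) ≤ 8 * d * (y ^ 2 * Z) := by
      have : Z ≤ y ^ 2 * Z := le_mul_of_one_le_left hZ0.le hy2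
      have := c2.trans this
      gcongr
    have d4 : 32 * d * A ^ 2 * y ^ 2 * Real.exp (-(19 / 50) * y) ≤ 32 * d * A ^ 2 * y ^ 2 * Z := by
      gcongr
    have h39 := hN.q39
    have h40 := hN.q40
    rw [← hZ] at h40
    rw [← he3, ← he5] at h39
    rw [← he5] at h40
    have hexp : t * (2 * d / ℓ * t⁻¹ ^ 3 + 2 * Real.pi * ℓ * d / L * t⁻¹ ^ 2) +
      (2 * g) ^ 2 / (t / s2) * (s2 * (12 * d / ℓ * t⁻¹ ^ 3 +
        2 * Real.pi * ℓ * d / L * t⁻¹ ^ 2)) = t * (2 * d / ℓ * t⁻¹ ^ 3) +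
        t * (2 * Real.pi * ℓ * d / L * t⁻¹ ^ 2) +
        (2 * g) ^ 2 / (t / s2) * (s2 * (12 * d / ℓ * t⁻¹ ^ 3)) +
        (2 * g) ^ 2 / (t / s2) * (s2 * (2 * Real.pi * ℓ * d / L * t⁻¹ ^ 2)) := by ring
    rw [hexp, b1]
    have d5 : (20 * d + 160 * d * A ^ 2) * y ^ 2 * Z = 2 * (2 * d * (y ^ 2 * Z) +
      8 * d * (y ^ 2 * Z) + 48 * d * A ^ 2 * y ^ 2 * Z + 32 * d * A ^ 2 * y ^ 2 * Z) := by ring
    linarith
  · have h1 := hN.q34
    have h2 : t ≤ s2 * c' := by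
      have h3 : t / s2 ≤ c' := by
        refine hΛ2.trans ?_
        have h4 : iv * Real.exp (-(17 / 675) * y) = c' * (iv * ic * Real.exp (-(17 / 675) * y)) := by
          rw [← hci]
          field_simp
        rw [h4]
        have : c' * (iv * ic * Real.exp (-(17 / 675) * y)) ≤ c' * 1 := by gcongr
        linarith
      rw [div_le_iff₀ hs2] at h3
      linarith
    have : 0 < s2 * c' := by positivity
    linarith

/-- the probability of the net -/
theorem pr3q (d : ℕ) (b c A1 CQ K K6 y : ℝ) (hN : NumOK2 d b c A1 CQ K K6 y)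
    (Y ρ D N : ℝ) (L M : ℕ)
    (hY : Y = Real.exp (y / 100)) (hρ : ρ = Real.exp Y) (hL : (L : ℝ) ≤ Real.exp (7 * y))
    (hNL : N = (L : ℝ) ^ d) (hN1 : 1 ≤ N)
    (hD : D = Real.exp (-(3 / 20) * y))
    (hM2 : (2 * M + 1 : ℝ) ≤ (4 * d + 5) * Real.exp (633 / 100 * y)) :
    (3 * ρ) ^ d * ((2 * M + 1) * ((2 + 6 * N) * Real.exp (1 / 2 - 1 / Real.sqrt (2 * D)))) ≤
      Real.exp (-Y - 2) := by
  obtain ⟨f1, f2⟩ := fac d y Y ρ L hρ hL
  have hy1 := hN.y1
  have hY0 : 0 < Y := by rw [hY]; positivity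
  have hdY : 0 ≤ d * Y := by positivity
  have hdy : 0 ≤ d * y := by positivity
  have hρ0 : 0 < ρ := by rw [hρ]; positivity
  have h3ρ0 : 0 ≤ (3 * ρ) ^ d := by positivity
  have h1 : 1 / 2 * Real.exp (3 / 40 * y) ≤ 1 / Real.sqrt (2 * D) := by
    have h4 : Real.sqrt (2 * D) ≤ 2 * Real.exp (-(3 / 40) * y) := by
      rw [Real.sqrt_le_left (by positivity), mul_pow, ex_pow, hD]
      have : 0 < Real.exp (-(3 / 20 * y)) := by positivity
      norm_num
      linarith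
    have h5 : 0 < Real.sqrt (2 * D) := Real.sqrt_pos.2 (by rw [hD]; positivity)
    rw [le_div_iff₀ h5]
    calc 1 / 2 * Real.exp (3 / 40 * y) * Real.sqrt (2 * D) ≤
        1 / 2 * Real.exp (3 / 40 * y) * (2 * Real.exp (-(3 / 40) * y)) := by gcongr
      _ = Real.exp (3 / 40 * y) * Real.exp (-(3 / 40) * y) := by ring
      _ = 1 := by
        rw [ex_mul]
        norm_num
  have h2 : (4 * (d : ℝ) + 5) ≤ Real.exp (4 * d + 5) := by
    have := Real.add_one_le_exp (4 * (d : ℝ) + 5)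
    linarith
  have h6 : 2 + 6 * N ≤ Real.exp 3 * Real.exp (7 * d * y) := by
    have he1 := Real.exp_one_gt_d9
    have h7 : (8 : ℝ) ≤ Real.exp 3 := by
      have : Real.exp 3 = Real.exp 1 * Real.exp 1 * Real.exp 1 := by
        rw [← Real.exp_add, ← Real.exp_add]
        norm_num
      rw [this]
      have h8 : (2 : ℝ) ≤ Real.exp 1 := by linarith
      calc (8 : ℝ) = 2 * 2 * 2 := by norm_num
        _ ≤ _ := by gcongr
    have h9 : N ≤ Real.exp (7 * d * y) := by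
      rw [hNL]
      exact f2
    calc 2 + 6 * N ≤ 8 * N := by linarith
      _ ≤ _ := by gcongr
  calc (3 * ρ) ^ d * ((2 * M + 1) * ((2 + 6 * N) * Real.exp (1 / 2 - 1 / Real.sqrt (2 * D)))) ≤
      Real.exp (d * (2 + Y)) * ((Real.exp (4 * d + 5) * Real.exp (633 / 100 * y)) *
        ((Real.exp 3 * Real.exp (7 * d * y)) *
          Real.exp (1 / 2 - 1 / 2 * Real.exp (3 / 40 * y)))) := by
        have h3 : (2 * M + 1 : ℝ) ≤ Real.exp (4 * d + 5) * Real.exp (633 / 100 * y) :=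
          hM2.trans (mul_le_mul_of_nonneg_right h2 (Real.exp_pos _).le)
        gcongr
    _ = Real.exp (d * (2 + Y) + ((4 * d + 5 + 633 / 100 * y) +
        (3 + 7 * d * y + (1 / 2 - 1 / 2 * Real.exp (3 / 40 * y))))) := by
        rw [← Real.exp_add, ← Real.exp_add, ← Real.exp_add, ← Real.exp_add, ← Real.exp_add]
    _ ≤ Real.exp (-Y - 2) := by
        apply Real.exp_le_exp.2
        have h1 := hN.n34
        rw [← hY] at h1
        clear f1 f2 h3ρ0 h2 hM2 h6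
        linarith

end Pool.Agent.TH791.QD
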