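import Pool.Agent.TH791.QD.NumQ

/-! The numerical part of the choice of the parameters for the quadratic functional. -/

set_option autoImplicit false

namespace Pool.Agent.TH791.QD

open Pool.Agent.W788.BK.Num
open Pool.Agent.TH794.LL2

/-- the conditions of the perturbation theory -/
theorem numKq (d : ℕ) (A C K6 iv ic X0 Zc y : ℝ) (hN : NumQ d A C K6 iv ic X0 Zc y)
    (hy1 : 1 ≤ y) (n7 : 1 * A * y * Real.exp (-1 * y) ≤ Real.exp (-(3 / 20) * y))
    (n8 : 1 ^ 2 * A * y * Real.exp (-(1 / 25) * y) ≤ 1)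
    (hCQ : 0 < C) (hA10 : 0 < A)
    (β a v2 Q s2 cnt N η δ : ℝ) (hββ : β = Real.exp (-1 * y)) (ha0 : 0 ≤ a)
    (ha1 : a ≤ A * y) (hAy1 : 1 ≤ A * y) (hv20 : 0 ≤ v2)
    (hv21 : v2 ≤ A * y * Real.exp (49 / 25 * y)) (hQ0 : 0 ≤ Q)
    (hQ1 : Q ≤ 8 * C * y ^ 2 * Real.exp (137 / 100 * y)) (hs2β : s2 ≤ β ^ 2)
    (hN0 : 0 < N) (hcnt1 : 1 ≤ cnt) (hcnt2 : cnt ≤ 2 * Real.exp (-(117 / 50) * y) * N)
    (hη : η = Real.exp (-(2 / 25) * y)) (htηδ : η * δ = Real.exp (-(51 / 25) * y)) :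
    β * a ≤ η ∧ β ^ 2 * v2 ≤ 1 ∧
    4 * β ^ 3 * a * v2 / η ^ 3 + s2 * (2 * β * (2 * Q) * Real.sqrt v2 / η ^ 4) ≤
      Real.exp (-(8 / 25) * y) ∧
    s2 * cnt ≤ Real.exp (-(1 / 4) * y) * (η ^ 2 * δ ^ 2) * N ∧
    46 * (β ^ 2 * (Q + a ^ 2 / η ^ 2) / η ^ 2) ≤ Real.exp (-(3 / 20) * y) ^ 2 := by
  have hηinv : η⁻¹ = Real.exp (2 / 25 * y) := by
    rw [hη, ex_inv]
    norm_num
  have hη0 : 0 < η := by rw [hη]; positivity
  have hβ0 : 0 < β := by rw [hββ]; positivity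
  refine ⟨?_, ?_, ?_, ?_, ?_⟩
  · calc β * a ≤ Real.exp (-1 * y) * (A * y) := by
          rw [hββ]
          gcongr
      _ = 1 * A * y * Real.exp (-1 * y) := by ring
      _ ≤ Real.exp (-(3 / 20) * y) := n7
      _ ≤ η := by
          rw [hη]
          exact hexle hy1 _ _ (by norm_num)
  · calc β ^ 2 * v2 ≤ (Real.exp (-1 * y)) ^ 2 * (A * y * Real.exp (49 / 25 * y)) := by
          rw [hββ]
          gcongr
      _ = A * y * (Real.exp (-1 * y) ^ 2 * Real.exp (49 / 25 * y)) := by ring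
      _ = 1 ^ 2 * A * y * Real.exp (-(1 / 25) * y) := by
          rw [ex_pow, ex_mul]
          norm_num
      _ ≤ 1 := n8
  · have hsv : Real.sqrt v2 ≤ A * y * Real.exp (49 / 50 * y) := by
      rw [Real.sqrt_le_left (by positivity)]
      calc v2 ≤ A * y * Real.exp (49 / 25 * y) := hv21
        _ ≤ (A * y) * (A * y) * Real.exp (49 / 25 * y) := by
            have : A * y * 1 ≤ (A * y) * (A * y) := by gcongr
            rw [mul_one] at this
            gcongr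
        _ = (A * y * Real.exp (49 / 50 * y)) ^ 2 := by
            rw [mul_pow, ex_pow]
            norm_num
            ring
    have h1 : 4 * β ^ 3 * a * v2 / η ^ 3 ≤ 1 / 2 * Real.exp (-(8 / 25) * y) := by
      calc 4 * β ^ 3 * a * v2 / η ^ 3 = 4 * β ^ 3 * a * v2 * (η⁻¹) ^ 3 := by
            rw [inv_pow, div_eq_mul_inv]
        _ ≤ 4 * (Real.exp (-1 * y)) ^ 3 * (A * y) * (A * y * Real.exp (49 / 25 * y)) *
            (Real.exp (2 / 25 * y)) ^ 3 := by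
            rw [hββ, hηinv]
            gcongr
        _ = 1 / 2 * (8 * A ^ 2 * y ^ 2 * (Real.exp (-1 * y) ^ 3 *
            Real.exp (49 / 25 * y) * Real.exp (2 / 25 * y) ^ 3)) := by ring
        _ = 1 / 2 * (8 * A ^ 2 * y ^ 2 * Real.exp (-(4 / 5) * y)) := by
            rw [ex_pow, ex_pow, ex_mul, ex_mul]
            norm_num
        _ ≤ _ := by linarith [hN.q1]
    have h2 : s2 * (2 * β * (2 * Q) * Real.sqrt v2 / η ^ 4) ≤
        1 / 2 * Real.exp (-(8 / 25) * y) := by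
      calc s2 * (2 * β * (2 * Q) * Real.sqrt v2 / η ^ 4) =
            s2 * (2 * β * (2 * Q) * Real.sqrt v2 * (η⁻¹) ^ 4) := by
            rw [inv_pow, div_eq_mul_inv]
        _ ≤ (Real.exp (-1 * y)) ^ 2 * (2 * (Real.exp (-1 * y)) *
            (2 * (8 * C * y ^ 2 * Real.exp (137 / 100 * y))) * (A * y * Real.exp (49 / 50 * y)) *
            (Real.exp (2 / 25 * y)) ^ 4) := by
            rw [hββ] at hs2β ⊢
            rw [hηinv]
            gcongr
        _ = 1 / 2 * (64 * C * A * y ^ 3 * (Real.exp (-1 * y) ^ 2 * Real.exp (-1 * y) *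
            Real.exp (137 / 100 * y) * Real.exp (49 / 50 * y) * Real.exp (2 / 25 * y) ^ 4)) := by
            ring
        _ = 1 / 2 * (64 * C * A * y ^ 3 * Real.exp (-(33 / 100) * y)) := by
            rw [ex_pow, ex_pow, ex_mul, ex_mul, ex_mul, ex_mul]
            norm_num
        _ ≤ _ := by linarith [hN.q2]
    linarith
  · calc s2 * cnt ≤ (Real.exp (-1 * y)) ^ 2 * (2 * Real.exp (-(117 / 50) * y) * N) := by
          rw [hββ] at hs2β
          gcongr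
      _ = 2 * (Real.exp (-1 * y) ^ 2 * Real.exp (-(117 / 50) * y)) * N := by ring
      _ = 2 * (Real.exp (-(1 / 100) * y) * Real.exp (-(433 / 100) * y)) * N := by
          have hx : Real.exp (-1 * y) ^ 2 * Real.exp (-(117 / 50) * y) =
              Real.exp (-(1 / 100) * y) * Real.exp (-(433 / 100) * y) := by
            rw [ex_pow, ex_mul, ex_mul]
            norm_num
          rw [hx]
      _ = 2 * Real.exp (-(1 / 100) * y) * Real.exp (-(433 / 100) * y) * N := by ring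
      _ ≤ 1 * Real.exp (-(433 / 100) * y) * N := by
          have := hN.q3
          gcongr
      _ = Real.exp (-(1 / 4) * y) * (η ^ 2 * δ ^ 2) * N := by
          have : Real.exp (-(1 / 4) * y) * (η ^ 2 * δ ^ 2) = Real.exp (-(433 / 100) * y) := by
            rw [← mul_pow, htηδ, ex_pow, ex_mul]
            norm_num
          rw [this]
          ring
  · have h1 : 46 * (β ^ 2 * (η⁻¹) ^ 2 * Q) ≤ 1 / 2 * Real.exp (-(3 / 10) * y) := by
      calc 46 * (β ^ 2 * (η⁻¹) ^ 2 * Q) ≤ 46 * ((Real.exp (-1 * y)) ^ 2 *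
            (Real.exp (2 / 25 * y)) ^ 2 * (8 * C * y ^ 2 * Real.exp (137 / 100 * y))) := by
            rw [hββ, hηinv]
            gcongr
        _ = 1 / 2 * (736 * C * y ^ 2 * (Real.exp (-1 * y) ^ 2 *
            Real.exp (2 / 25 * y) ^ 2 * Real.exp (137 / 100 * y))) := by ring
        _ = 1 / 2 * (736 * C * y ^ 2 * Real.exp (-(47 / 100) * y)) := by
            rw [ex_pow, ex_pow, ex_mul, ex_mul]
            norm_num
        _ ≤ _ := by linarith [hN.q4]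
    have h2 : 46 * (β ^ 2 * (η⁻¹) ^ 2 * (a ^ 2 * (η⁻¹) ^ 2)) ≤
        1 / 2 * Real.exp (-(3 / 10) * y) := by
      calc 46 * (β ^ 2 * (η⁻¹) ^ 2 * (a ^ 2 * (η⁻¹) ^ 2)) ≤ 46 * ((Real.exp (-1 * y)) ^ 2 *
            (Real.exp (2 / 25 * y)) ^ 2 * ((A * y) ^ 2 * (Real.exp (2 / 25 * y)) ^ 2)) := by
            rw [hββ, hηinv]
            gcongr
        _ = 1 / 2 * (92 * A ^ 2 * y ^ 2 * (Real.exp (-1 * y) ^ 2 *
            Real.exp (2 / 25 * y) ^ 2 * Real.exp (2 / 25 * y) ^ 2)) := by ring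
        _ = 1 / 2 * (92 * A ^ 2 * y ^ 2 * Real.exp (-(42 / 25) * y)) := by
            rw [ex_pow, ex_pow, ex_mul, ex_mul]
            norm_num
        _ ≤ _ := by linarith [hN.q5]
    have h3 : Real.exp (-(3 / 20) * y) ^ 2 = Real.exp (-(3 / 10) * y) := by
      rw [ex_pow]
      norm_num
    rw [h3]
    calc 46 * (β ^ 2 * (Q + a ^ 2 / η ^ 2) / η ^ 2) = 46 * (β ^ 2 * (η⁻¹) ^ 2 * Q) +
          46 * (β ^ 2 * (η⁻¹) ^ 2 * (a ^ 2 * (η⁻¹) ^ 2)) := by
          rw [inv_pow, div_eq_mul_inv, div_eq_mul_inv]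
          ring
      _ ≤ _ := by linarith

/-- a small double exponential -/
theorem dexpq (y : ℝ) (hy1 : 1 ≤ y)
    (n19 : 4 * (Real.exp (y / 100) + y + 1) ≤ 1 / 2 * Real.exp (89 / 100 * y)) (t T0 : ℝ)
    (ht : t = Real.exp (-(51 / 25) * y)) (hT0 : T0 = Real.exp (3 * y)) :
    4 / t * Real.exp (-(t * T0 / 2)) ≤ Real.exp (-1 * y) := by
  have h1 : 4 / t = 4 * Real.exp (51 / 25 * y) := by
    rw [ht, div_eq_mul_inv, ex_inv]
    norm_num
  have h2 : t * T0 = Real.exp (24 / 25 * y) := by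
    rw [ht, hT0, ex_mul]
    norm_num
  have h3 : (4 : ℝ) ≤ Real.exp 2 := by
    have he1 := Real.exp_one_gt_d9
    have : Real.exp 2 = Real.exp 1 * Real.exp 1 := by
      rw [← Real.exp_add]
      norm_num
    rw [this]
    nlinarith
  rw [h1, h2]
  calc 4 * Real.exp (51 / 25 * y) * Real.exp (-(Real.exp (24 / 25 * y) / 2)) ≤
      Real.exp 2 * Real.exp (51 / 25 * y) * Real.exp (-(Real.exp (24 / 25 * y) / 2)) := by
        gcongr
    _ = Real.exp (2 + 51 / 25 * y + -(Real.exp (24 / 25 * y) / 2)) := by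
        rw [← Real.exp_add, ← Real.exp_add]
    _ ≤ _ := by
        apply Real.exp_le_exp.2
        have h5 := Real.exp_pos (y / 100)
        have h6 := hexle hy1 (89 / 100) (24 / 25) (by norm_num)
        linarith

/-- Hölder continuity of the free Green function -/
theorem numG (d : ℕ) (A C K6 iv ic X0 Zc y : ℝ) (hN : NumQ d A C K6 iv ic X0 Zc y)
    (hy1 : 1 ≤ y) (hK60 : 0 ≤ K6) (s2 g t x4 : ℝ) (hg0 : 0 ≤ g) (hgA : g ≤ A * y)
    (hs20 : 0 ≤ s2) (hs2 : s2 ≤ Real.exp (-2 * y)) (ht : t = Real.exp (-(51 / 25) * y))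
    (hx4 : x4 ≤ Real.exp (-1 * y)) :
    K6 * (s2 * (2 * g) + 2 * t) ^ (1 / 4 : ℝ) + x4 ≤ Real.exp (-(2 / 5) * y) := by
  have f0 : t ≤ Real.exp (-2 * y) := by
    rw [ht]
    exact hexle hy1 _ _ (by norm_num)
  have ht0 : 0 < t := by rw [ht]; positivity
  have f1 : s2 * (2 * g) + 2 * t ≤ Real.exp (-(19 / 10) * y) := by
    calc s2 * (2 * g) + 2 * t ≤ Real.exp (-2 * y) * (2 * (A * y)) + 2 * (y * Real.exp (-2 * y)) := by
          have : Real.exp (-2 * y) ≤ y * Real.exp (-2 * y) :=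
            le_mul_of_one_le_left (Real.exp_pos _).le hy1
          have h2 : t ≤ y * Real.exp (-2 * y) := f0.trans this
          gcongr
      _ = (2 * A + 2) * y * Real.exp (-2 * y) := by ring
      _ ≤ _ := hN.q6
  have f2 : (s2 * (2 * g) + 2 * t) ^ (1 / 4 : ℝ) ≤ Real.exp (-(19 / 40) * y) := by
    refine (Real.rpow_le_rpow (by positivity) f1 (by norm_num)).trans (le_of_eq ?_)
    rw [← Real.exp_mul]
    congr 1
    ring
  have f3 : K6 * (s2 * (2 * g) + 2 * t) ^ (1 / 4 : ℝ) ≤ K6 * Real.exp (-(19 / 40) * y) := by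
    gcongr
  linarith [hN.q7, hN.q8]

/-- the error `x0` -/
theorem numX0 (d : ℕ) (A C K6 iv ic X0 Zc y : ℝ) (_hN : NumQ d A C K6 iv ic X0 Zc y)
    (hy1 : 1 ≤ y) (hA10 : 0 < A) (hX0 : X0 = 6 + 11 * A ^ 2)
    (s2 g ε e1 η δ : ℝ) (hg0 : 0 ≤ g) (hgA : g ≤ A * y)
    (hs20 : 0 ≤ s2) (hs2 : s2 ≤ Real.exp (-2 * y)) (hε : ε = Real.exp (-(8 / 25) * y))
    (he1 : e1 = Real.exp (-(1 / 4) * y)) (hη : η = Real.exp (-(2 / 25) * y))
    (hδ : δ = Real.exp (-(49 / 25) * y)) :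
    4 / 3 * (ε + e1 + (2 * η + 8 * s2 ^ 2 * g ^ 2 / δ ^ 2)) ≤
      X0 * y ^ 2 * Real.exp (-(2 / 25) * y) := by
  have h1 : ε ≤ η := by
    rw [hε, hη]
    exact hexle hy1 _ _ (by norm_num)
  have h2 : e1 ≤ η := by
    rw [he1, hη]
    exact hexle hy1 _ _ (by norm_num)
  have hδinv : δ⁻¹ = Real.exp (49 / 25 * y) := by
    rw [hδ, ex_inv]
    norm_num
  have h3 : 8 * s2 ^ 2 * g ^ 2 / δ ^ 2 ≤ 8 * A ^ 2 * y ^ 2 * η := by
    calc 8 * s2 ^ 2 * g ^ 2 / δ ^ 2 = 8 * s2 ^ 2 * g ^ 2 * (δ⁻¹) ^ 2 := by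
          rw [inv_pow, div_eq_mul_inv]
      _ ≤ 8 * (Real.exp (-2 * y)) ^ 2 * (A * y) ^ 2 * (Real.exp (49 / 25 * y)) ^ 2 := by
          rw [hδinv]
          gcongr
      _ = 8 * A ^ 2 * y ^ 2 * (Real.exp (-2 * y) ^ 2 * Real.exp (49 / 25 * y) ^ 2) := by ring
      _ = _ := by
          rw [ex_pow, ex_pow, ex_mul, hη]
          norm_num
  have hη0 : 0 < η := by rw [hη]; positivity
  have hy2 : (1 : ℝ) ≤ y ^ 2 := one_le_pow₀ hy1
  have h4 : η ≤ y ^ 2 * η := le_mul_of_one_le_left hη0.le hy2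
  rw [← hη, hX0]
  have h5 : 0 ≤ A ^ 2 * y ^ 2 * η := by positivity
  nlinarith

end Pool.Agent.TH791.QD
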