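import Pool.Agent.TH794.LL2.Par2
import Pool.Agent.TH791.QD.LatE
import Pool.Agent.TH791.QD.ParN3Q

/-! The choice of the parameters for the quadratic functional. -/

set_option autoImplicit false
set_option linter.unusedSectionVars false

open scoped BigOperators Matrix
open MeasureTheory

namespace Pool.Agent.TH791.QD

open Pool.Agent.TH794.LL2
open Pool.Agent.W788.BK
open Pool.Agent.W788.MFP.Four (T e NN adj K ft Op q NN_pos e_zero)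
open Pool.Agent.W788.MF2.Dom Pool.Agent.W788.MF2.FormG
open Pool.Agent.H4R2.LO (Zd)
open Pool.Agent.W788.BK.Num

/-- **the engine** -/
theorem engineQ (hES : S_ES) (hTH : S_THIRD) (hFL : S_FLUCT) (hIN : S_INV) (hO : S_OSC)
    (hSU : S_SUP) (hQB : S_QB) (hLO : S_LOW) (hAD : S_ADM)
    (d : ℕ) (hd : 3 ≤ d) (v c1 : ℝ) (hv : 0 < v) (hc1 : 0 < c1) : ∃ y0 : ℝ, ∀ y : ℝ, y0 ≤ y →
    ∀ (ν : Measure ℝ), IsProbabilityMeasure ν → (∀ᵐ s ∂ν, |s| ≤ 1) → ∫ s, s ∂ν = 0 →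
    ∀ Vv : ℝ, ∫ s, s ^ 2 ∂ν = Vv → v * Real.exp (-(2 / 135) * y) ≤ Vv →
    ∃ G : Set (Zd d → ℝ), MeasurableSet G ∧
      1 - Real.exp (-Real.exp (y / 100)) ≤ (Measure.infinitePi fun _ : Zd d => ν).real G ∧
      ∀ ξ ∈ G, QLawx d (Real.exp (-1 * y)) (Real.exp (Real.exp (y / 100))) (Real.exp (7 * y))
        (Real.exp (-(51 / 25) * y)) (Real.exp (-2 * y) * Vv) c1
        (2 * v⁻¹ * Real.exp (-(17 / 675) * y)) (Real.exp (-(11 / 1000) * y)) ξ := by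
  obtain ⟨CQ, hCQ, hqb⟩ := hQB
  obtain ⟨A1, hA1⟩ : ∃ A1, A1 = 3 * C1 + 2 := ⟨_, rfl⟩
  obtain ⟨c, hc⟩ : ∃ c : ℝ, c = 1 / m1 := ⟨_, rfl⟩
  obtain ⟨K0, hK0⟩ : ∃ K0, K0 = KK d := ⟨_, rfl⟩
  obtain ⟨K6, hK6⟩ : ∃ K6, K6 = 2 * 10 ^ d * K5 := ⟨_, rfl⟩
  obtain ⟨iv, hiv⟩ : ∃ iv, iv = v⁻¹ := ⟨_, rfl⟩
  obtain ⟨ic, hic⟩ : ∃ ic, ic = c1⁻¹ := ⟨_, rfl⟩
  obtain ⟨X0, hX0⟩ : ∃ X0, X0 = 6 + 11 * A1 ^ 2 := ⟨_, rfl⟩
  obtain ⟨Zc, hZc⟩ : ∃ Zc, Zc = 250 * A1 + 1 := ⟨_, rfl⟩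
  have hiv0 : 0 < iv := by rw [hiv]; positivity
  have hic0 : 0 < ic := by rw [hic]; positivity
  have hX00 : 0 < X0 := by rw [hX0]; positivity
  have hc1i : c1 = ic⁻¹ := by rw [hic, inv_inv]
  obtain ⟨y0, hy0⟩ := Filter.eventually_atTop.1 ((numOK2 d 1 c A1 CQ K0 K6 one_pos).and
    (numQ_ev d A1 CQ K6 iv ic X0 Zc))
  refine ⟨y0, fun y hy ν hν hνb hν0 Vv hVv hvV => ?_⟩
  obtain ⟨hN, hNq⟩ := hy0 y hy
  have hC1 := C1_ge
  have hd3 : (3 : ℝ) ≤ d := by exact_mod_cast hd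
  have hy1 := hN.y1
  have hK60 : 0 ≤ K6 := by
    rw [hK6]
    have := K5_nonneg
    positivity
  -- the parameters
  obtain ⟨σ, hσ⟩ : ∃ σ, σ = Real.exp (-1 * y) := ⟨_, rfl⟩
  obtain ⟨δ, hδ⟩ : ∃ δ, δ = Real.exp (-(49 / 25) * y) := ⟨_, rfl⟩
  obtain ⟨η, hη⟩ : ∃ η, η = Real.exp (-(2 / 25) * y) := ⟨_, rfl⟩
  obtain ⟨t, ht⟩ : ∃ t, t = Real.exp (-(51 / 25) * y) := ⟨_, rfl⟩
  have htηδ : η * δ = t := by
    rw [hη, hδ, ht, ex_mul]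
    norm_num
  obtain ⟨κ, hκ⟩ : ∃ κ : ℝ, κ = 117 / (50 * d) := ⟨_, rfl⟩
  have hκ1 : κ ≤ 39 / 50 := by
    rw [hκ, div_le_div_iff₀ (by positivity) (by norm_num)]
    linarith
  have hκ0 : 0 < κ := by rw [hκ]; positivity
  have hκd : d * κ = 117 / 50 := by
    rw [hκ]
    field_simp
  obtain ⟨θ, hθ⟩ : ∃ θ, θ = 1 / 2 * Real.exp (-κ * y) := ⟨_, rfl⟩
  obtain ⟨L, hL⟩ : ∃ L : ℕ, L = ⌈Real.exp (34 / 5 * y)⌉₊ := ⟨_, rfl⟩
  have hσ0 : 0 < σ := by rw [hσ]; positivity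
  have hδ0 : 0 < δ := by rw [hδ]; positivity
  have hη0 : 0 < η := by rw [hη]; positivity
  have ht0 : 0 < t := by rw [ht]; positivity
  have hθ0 : 0 < θ := by rw [hθ]; positivity
  have hη1 : η ≤ 1 := by
    rw [hη]
    exact Real.exp_le_one_iff.2 (by linarith)
  have hδ2 : δ ≤ 1 / 2 := by
    rw [hδ]
    linarith [hN.n2]
  have hL1 : Real.exp (34 / 5 * y) ≤ L := by
    rw [hL]
    exact Nat.le_ceil _
  have hL16 : Real.exp (6 * y) ≤ L := (hexle hy1 6 (34 / 5) (by norm_num)).trans hL1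
  have hL2 : (L : ℝ) ≤ Real.exp (7 * y) := by
    have h1 := Nat.ceil_lt_add_one (show 0 ≤ Real.exp (34 / 5 * y) by positivity)
    rw [← hL] at h1
    have h2 := hNq.q41
    have h3 : (1 : ℝ) ≤ Real.exp (34 / 5 * y) := Real.one_le_exp (by linarith)
    linarith
  have hLp : (0 : ℝ) < L := lt_of_lt_of_le (by positivity) hL1
  have hLne : NeZero L := ⟨by
    intro h0
    rw [h0] at hLp
    simp at hLp⟩
  have hθ1 : θ ≤ 1 := by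
    rw [hθ]
    have : Real.exp (-κ * y) ≤ 1 := Real.exp_le_one_iff.2 (by nlinarith)
    linarith
  have hθd : (2 * θ) ^ d = Real.exp (-(117 / 50) * y) := by
    rw [hθ, ← mul_assoc]
    norm_num
    rw [← neg_mul, ex_pow]
    congr 1
    rw [mul_neg, hκd]
    ring
  have hθL : 1 ≤ θ * L := by
    have h1 := hN.n6
    have h2 : Real.exp (κ * y) ≤ Real.exp (39 / 50 * y) := by
      apply Real.exp_le_exp.2
      apply mul_le_mul_of_nonneg_right hκ1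
      linarith
    have h3 : Real.exp (-κ * y) * Real.exp (κ * y) = 1 := by
      rw [ex_mul]
      simp
    calc (1 : ℝ) = 1 / 2 * (Real.exp (-κ * y) * (2 * Real.exp (κ * y))) := by
          linear_combination (-1) * h3
      _ ≤ 1 / 2 * (Real.exp (-κ * y) * L) := by
          have : 2 * Real.exp (κ * y) ≤ L := by linarith
          gcongr
      _ = _ := by rw [hθ]; ring
  -- the momenta
  obtain ⟨N, hNdef⟩ : ∃ N, N = NN d L := ⟨_, rfl⟩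
  have hN0 : 0 < N := by rw [hNdef]; exact NN_pos
  have hNL : N = (L : ℝ) ^ d := hNdef
  have hN1 : 1 ≤ N := by
    rw [hNL]
    apply one_le_pow₀
    have h3 : (1 : ℝ) ≤ Real.exp (6 * y) := Real.one_le_exp (by linarith)
    linarith
  obtain ⟨cnt, hcnt⟩ : ∃ cnt, cnt = ∑ Q : T d L, (1 - hi θ Q) := ⟨_, rfl⟩
  have hcnt1 : 1 ≤ cnt := by rw [hcnt]; exact cnt_ge θ
  have hcnt2 : cnt ≤ 2 * Real.exp (-(117 / 50) * y) * N := by
    rw [hcnt, hNdef, ← hθd]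
    exact hLO d L θ hθ0.le hθ1 hθL
  have hLδ : 1 / (L : ℝ) ≤ t := by
    rw [div_le_iff₀ hLp]
    have h1 : Real.exp (-(51 / 25) * y) * Real.exp (6 * y) ≤ t * L := by
      rw [← ht]
      gcongr
    rw [ex_mul] at h1
    have h2 : (1 : ℝ) ≤ Real.exp ((-(51 / 25) + 6) * y) := Real.one_le_exp (by linarith)
    linarith
  have htδ : t ≤ δ := by
    rw [← htηδ]
    exact mul_le_of_le_one_left hδ0.le hη1
  obtain ⟨g1, hg1⟩ : ∃ g1, g1 = C1 * (49 / 25 * y) := ⟨_, rfl⟩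
  obtain ⟨g, hg⟩ : ∃ g, g = C1 * (51 / 25 * y) := ⟨_, rfl⟩
  have hlogδ : Real.log (1 / δ) = 49 / 25 * y := by
    rw [hδ, one_div, Real.log_inv, Real.log_exp]
    ring
  have hlogt : Real.log (1 / t) = 51 / 25 * y := by
    rw [ht, one_div, Real.log_inv, Real.log_exp]
    ring
  have hg10 : 0 ≤ g1 := by rw [hg1]; positivity
  have hg0 : 0 ≤ g := by rw [hg]; positivity
  have hC1y : 0 ≤ C1 * y := by positivity
  have hg1A : g1 + 2 ≤ A1 * y := by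
    rw [hg1, hA1]
    linarith
  have hgA : g ≤ A1 * y := by
    rw [hg, hA1]
    linarith
  have hg1' : 1 ≤ g := by
    rw [hg]
    exact one_le_mul_of_one_le_of_one_le hC1 (by linarith only [hy1])
  have hA10 : 0 < A1 := by rw [hA1]; linarith
  have ht2 : t ≤ 1 / 2 := htδ.trans hδ2
  have hsumδ : ∀ E : ℝ, ∑ k : T d L, (JJ E δ k)⁻¹ ≤ g1 * N := by
    intro E
    have h1 := sumJ (d := d) (L := L) hd δ (hLδ.trans htδ) hδ2 E
    rw [hlogδ, ← hg1, ← hNdef] at h1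
    exact h1
  have hsumt : ∀ E : ℝ, ∑ k : T d L, (JJ E t k)⁻¹ ≤ g * N := by
    intro E
    have h1 := sumJ (d := d) (L := L) hd t hLδ ht2 E
    rw [hlogt, ← hg, ← hNdef] at h1
    exact h1
  have hL6 : Real.exp (12 * y) ≤ (L : ℝ) ^ 2 := by
    calc Real.exp (12 * y) = Real.exp (6 * y) ^ 2 := by
          rw [ex_pow]
          norm_num
      _ ≤ (L : ℝ) ^ 2 := by gcongr
  have hδinv : δ⁻¹ = Real.exp (49 / 25 * y) := by
    rw [hδ, ex_inv]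
    norm_num
  have htinv : t⁻¹ = Real.exp (51 / 25 * y) := by
    rw [ht, ex_inv]
    norm_num
  have hL43 : (1 + 4 / δ) ^ 3 ≤ (L : ℝ) ^ 2 := by
    have h1 : 1 + 4 / δ ≤ 5 * Real.exp (49 / 25 * y) := by
      have h3 : (1 : ℝ) ≤ Real.exp (49 / 25 * y) := Real.one_le_exp (by linarith)
      rw [div_eq_mul_inv, hδinv]
      linarith
    refine le_trans ?_ hL6
    calc (1 + 4 / δ) ^ 3 ≤ (5 * Real.exp (49 / 25 * y)) ^ 3 := by gcongr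
      _ = 125 * Real.exp (147 / 25 * y) := by
          rw [mul_pow, ex_pow]
          norm_num
      _ ≤ Real.exp (12 * y) := hN.n4
  obtain ⟨T0, hT0⟩ : ∃ T0, T0 = Real.exp (3 * y) := ⟨_, rfl⟩
  have hT : (1 + T0) ^ 3 ≤ (L : ℝ) ^ 2 := by
    have h1 : 1 + T0 ≤ 2 * Real.exp (3 * y) := by
      have h3 : (1 : ℝ) ≤ Real.exp (3 * y) := Real.one_le_exp (by linarith)
      rw [hT0]
      linarith
    have hT00 : 0 < T0 := by rw [hT0]; positivity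
    refine le_trans ?_ hL6
    calc (1 + T0) ^ 3 ≤ (2 * Real.exp (3 * y)) ^ 3 := by gcongr
      _ = 8 * Real.exp (9 * y) := by
          rw [mul_pow, ex_pow]
          norm_num
      _ ≤ Real.exp (12 * y) := hN.n5
  obtain ⟨Q, hQ⟩ : ∃ Q, Q = CQ * Real.log (1 / δ) ^ 2 / Real.sqrt (δ * θ) := ⟨_, rfl⟩
  have hQ0 : 0 ≤ Q := by rw [hQ]; positivity
  obtain ⟨a, ha⟩ : ∃ a, a = g1 + cnt / (N * δ) := ⟨_, rfl⟩
  obtain ⟨v2, hv2⟩ : ∃ v2, v2 = g1 / δ := ⟨_, rfl⟩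
  have hadm : ∀ E, Adm (D0 E δ) (AA (d := d) (L := L) E δ θ) a v2 Q := by
    intro E
    rw [ha, hv2, hcnt, hNdef]
    refine hAD d L E δ θ g1 Q hδ0 hg10 hQ0 (by rw [← hNdef]; exact hsumδ E) ?_
    intro P hP
    rw [hQ]
    exact hqb d L hd θ δ E hθ0 hθ1 hδ0 hδ2 hL43 P hP
  -- bounds of the parameters
  have ha1 : a ≤ A1 * y := by
    refine le_trans ?_ hg1A
    rw [ha]
    have h1 : cnt / (N * δ) ≤ 2 := by
      rw [div_le_iff₀ (by positivity)]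
      have h2 : Real.exp (-(117 / 50) * y) ≤ δ := by
        rw [hδ]
        apply Real.exp_le_exp.2
        linarith
      calc cnt ≤ 2 * Real.exp (-(117 / 50) * y) * N := hcnt2
        _ ≤ 2 * δ * N := by gcongr
        _ = _ := by ring
    linarith
  have ha0 : 0 ≤ a := by rw [ha]; positivity
  have hv21 : v2 ≤ A1 * y * Real.exp (49 / 25 * y) := by
    rw [hv2, div_eq_mul_inv, hδinv]
    have : g1 ≤ A1 * y := by linarith
    gcongr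
  have hv20 : 0 ≤ v2 := by rw [hv2]; positivity
  have hQ1 : Q ≤ 8 * CQ * y ^ 2 * Real.exp (137 / 100 * y) := by
    rw [hlogδ] at hQ
    exact numQ CQ y δ θ κ Q hCQ.le hy1 hδ hκ1 hθ hQ
  -- the law
  obtain ⟨μ, hμdef⟩ : ∃ μ, μ = ν.map fun s => σ * s := ⟨_, rfl⟩
  have hmσ : Measurable fun s : ℝ => σ * s := by fun_prop
  have hμp : IsProbabilityMeasure μ := by
    rw [hμdef]
    exact Measure.isProbabilityMeasure_map hmσ.aemeasurable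
  obtain ⟨β, hβ⟩ : ∃ β, β = σ := ⟨_, rfl⟩
  have hβ0 : 0 < β := by rw [hβ]; positivity
  have hμb : ∀ᵐ s ∂μ, |s| ≤ β := by
    rw [hμdef, ae_map_iff hmσ.aemeasurable (measurableSet_le (by fun_prop) (by fun_prop))]
    filter_upwards [hνb] with s hs
    rw [abs_mul, abs_of_pos hσ0, hβ]
    exact mul_le_of_le_one_right hσ0.le hs
  have hμ0 : ∫ s, s ∂μ = 0 := by
    rw [hμdef, integral_map hmσ.aemeasurable (by fun_prop), integral_const_mul, hν0, mul_zero]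
  obtain ⟨s2, hs2⟩ : ∃ s2, ∫ s, s ^ 2 ∂μ = s2 := ⟨_, rfl⟩
  have hs20 : 0 ≤ s2 := by
    rw [← hs2]
    exact integral_nonneg fun s => sq_nonneg _
  have hs2β : s2 ≤ β ^ 2 := by
    rw [← hs2]
    have h1 : ∫ s, s ^ 2 ∂μ ≤ ∫ _s, β ^ 2 ∂μ := by
      apply integral_mono_of_nonneg (Filter.Eventually.of_forall fun s => sq_nonneg _)
        (integrable_const _)
      filter_upwards [hμb] with s hs
      rw [← sq_abs s]
      exact pow_le_pow_left₀ (abs_nonneg _) hs 2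
    rw [integral_const, probReal_univ, one_smul] at h1
    exact h1
  have hββ : β = Real.exp (-1 * y) := by rw [hβ, hσ]
  have hs2e : s2 ≤ Real.exp (-2 * y) := by
    refine hs2β.trans (le_of_eq ?_)
    rw [hββ, ex_pow]
    norm_num
  have hs2V : s2 = Real.exp (-2 * y) * Vv := by
    rw [← hs2, hμdef, integral_map hmσ.aemeasurable (by fun_prop)]
    simp only [mul_pow]
    rw [integral_const_mul, hVv, hσ, ex_pow]
    norm_num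
  have hVv0 : 0 < Vv := lt_of_lt_of_le (by positivity) hvV
  have hs2p : 0 < s2 := by rw [hs2V]; positivity
  have hs2i : s2⁻¹ ≤ iv * Real.exp (272 / 135 * y) := by
    have h1 : v * Real.exp (-(272 / 135) * y) ≤ s2 := by
      rw [hs2V]
      have h2 : Real.exp (-(272 / 135) * y) = Real.exp (-2 * y) * Real.exp (-(2 / 135) * y) := by
        rw [ex_mul]
        norm_num
      rw [h2]
      calc v * (Real.exp (-2 * y) * Real.exp (-(2 / 135) * y)) =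
            Real.exp (-2 * y) * (v * Real.exp (-(2 / 135) * y)) := by ring
        _ ≤ _ := by gcongr
    refine (inv_anti₀ (by positivity) h1).trans (le_of_eq ?_)
    rw [mul_inv, ex_inv, hiv]
    norm_num
  have hAy1 : 1 ≤ A1 * y := by linarith
  -- the conditions of the perturbation theory
  obtain ⟨k1, k2, k3, k4, k5⟩ := numKq d A1 CQ K6 iv ic X0 Zc y hNq hy1 hN.n7 hN.n8 hCQ hA10 β a v2
    Q s2 cnt N η δ hββ ha0 ha1 hAy1 hv20 hv21 hQ0 hQ1 hs2β hN0 hcnt1 hcnt2 hη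
    (by rw [htηδ, ht])
  obtain ⟨ε, hε⟩ : ∃ ε, ε = Real.exp (-(8 / 25) * y) := ⟨_, rfl⟩
  obtain ⟨e1, he1⟩ : ∃ e1, e1 = Real.exp (-(1 / 4) * y) := ⟨_, rfl⟩
  obtain ⟨α, hα⟩ : ∃ α, α = Real.exp (-(6 / 25) * y) := ⟨_, rfl⟩
  obtain ⟨x1t, hx1t⟩ : ∃ x1, x1 = Real.exp (-(2 / 5) * y) := ⟨_, rfl⟩
  obtain ⟨x1, hx1⟩ : ∃ x1, x1 = Real.exp (-(1 / 50) * y) := ⟨_, rfl⟩
  obtain ⟨e4, he4⟩ : ∃ e4, e4 = Real.exp (-(3 / 125) * y) := ⟨_, rfl⟩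
  obtain ⟨e2, he2⟩ : ∃ e2, e2 = Real.exp (-(1 / 50) * y) := ⟨_, rfl⟩
  obtain ⟨e3, he3⟩ : ∃ e3, e3 = Real.exp (-(23 / 2000) * y) := ⟨_, rfl⟩
  obtain ⟨e5, he5⟩ : ∃ e5, e5 = Real.exp (-(11 / 1000) * y) := ⟨_, rfl⟩
  have hε0 : 0 < ε := by rw [hε]; positivity
  have he10 : 0 < e1 := by rw [he1]; positivity
  have hα0 : 0 < α := by rw [hα]; positivity
  have hx1t0 : 0 < x1t := by rw [hx1t]; positivity
  have he14 : e1 ≤ 1 / 4 := by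
    have h1 := hN.n1
    have h2 : e1 ≤ Real.exp (-(3 / 20) * y) := by
      rw [he1]
      exact hexle hy1 _ _ (by norm_num)
    linarith
  have hε2 : ε ≤ 1 / 2 := by
    have h2 : ε ≤ e1 := by
      rw [hε, he1]
      exact hexle hy1 _ _ (by norm_num)
    linarith
  rw [← hε] at k3
  rw [← he1] at k4
  have k3' : 4 * β ^ 3 * a * v2 / η ^ 3 + s2 * (2 * β * Q * Real.sqrt v2 / η ^ 4) ≤ ε := by
    refine le_trans ?_ k3
    have : 2 * β * Q * Real.sqrt v2 / η ^ 4 ≤ 2 * β * (2 * Q) * Real.sqrt v2 / η ^ 4 := by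
      have : Q ≤ 2 * Q := by linarith
      gcongr
    gcongr
  obtain ⟨D, hD⟩ : ∃ D, D = Real.exp (-(3 / 20) * y) := ⟨_, rfl⟩
  have hD0 : 0 < D := by rw [hD]; positivity
  have hD128 : D ≤ 1 / 128 := by
    rw [hD]
    linarith [hN.n1]
  have hsD : Real.sqrt D = Real.exp (-(3 / 40) * y) := by
    rw [hD]
    exact sqrt_ex _ _ y (by norm_num)
  rw [← hD] at k5
  -- the double exponential
  obtain ⟨x4, hx4⟩ : ∃ x4, x4 = 4 / t * Real.exp (-(t * T0 / 2)) := ⟨_, rfl⟩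
  have hx4e : x4 ≤ Real.exp (-1 * y) := by
    rw [hx4]
    exact dexpq y hy1 hN.n19 t T0 ht hT0
  have hgx := numG d A1 CQ K6 iv ic X0 Zc y hNq hy1 hK60 s2 g t x4 hg0 hgA hs20 hs2e ht hx4e
  rw [← hx1t] at hgx
  have hgx2 : K6 * (s2 * (2 * g) + t) ^ (1 / 4 : ℝ) + x4 ≤ x1t := by
    refine le_trans ?_ hgx
    have : (s2 * (2 * g) + t) ^ (1 / 4 : ℝ) ≤ (s2 * (2 * g) + 2 * t) ^ (1 / 4 : ℝ) :=
      Real.rpow_le_rpow (by positivity) (by linarith) (by norm_num)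
    gcongr
  -- the mean
  obtain ⟨x0, hx0⟩ : ∃ x0, x0 = 4 / 3 * (ε + e1 + (2 * η + 8 * s2 ^ 2 * g ^ 2 / δ ^ 2)) :=
    ⟨_, rfl⟩
  have hx00 : 0 ≤ x0 := by rw [hx0]; positivity
  have hx0X : x0 ≤ X0 * y ^ 2 * Real.exp (-(2 / 25) * y) := by
    rw [hx0]
    exact numX0 d A1 CQ K6 iv ic X0 Zc y hNq hy1 hA10 hX0 s2 g ε e1 η δ hg0 hgA hs20 hs2e hε he1
      hη hδ
  -- the lattice
  obtain ⟨ℓ, hℓ⟩ : ∃ ℓ, ℓ = Real.exp (43 / 10 * y) := ⟨_, rfl⟩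
  have hℓ0 : 0 < ℓ := by rw [hℓ]; positivity
  obtain ⟨xs, hxs⟩ : ∃ xs, xs = 2 * iv * Real.exp (-(17 / 675) * y) := ⟨_, rfl⟩
  obtain ⟨l1, l2, l3, l4, l5, l6⟩ := numL d A1 CQ K6 iv ic X0 Zc y hNq hy1 hA10 hiv0 hic0 g t s2 ℓ
    L c1 xs x1 e3 e5 (K6 * (s2 * (2 * g) + t) ^ (1 / 4 : ℝ) + x4) hg1' hgA ht hs2p hs2e hs2i hℓ hL1
    hc1i hxs hx1 he3 he5 (by rw [← hx1t]; exact hgx2)
  obtain ⟨Λ, hΛ⟩ : ∃ Λ, Λ = t / s2 := ⟨_, rfl⟩
  rw [← hΛ] at l5 l6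
  obtain ⟨ε3, hε3⟩ : ∃ ε3, ε3 = ε / η ^ 2 + ε / (α * η) + 3 * α ^ 2 / η ^ 6 := ⟨_, rfl⟩
  obtain ⟨ut, hut⟩ : ∃ u, u = (x0 * g + x1t + Λ) / c1 := ⟨_, rfl⟩
  obtain ⟨m1, m2, m3, m4, m5⟩ := numE d A1 CQ K6 iv ic X0 Zc y hNq hy1 hA10 hiv0 hic0 hX00 x0 x1t g
    c1 Λ η ε e1 α e4 ε3 ut hc1i hx00 hx0X hg1' hgA l6 l5 hx1t hη hε he1 hα he4 hε3 hut
  have hΛg : Λ ≤ g := by
    have h1 := hNq.q35
    have h2 : iv * Real.exp (-(17 / 675) * y) ≤ 1 := by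
      have : 0 < iv * Real.exp (-(17 / 675) * y) := by positivity
      linarith
    linarith
  have k7 : 800 * g * Real.sqrt D + e4 ≤ e2 := by
    have h1 : 800 * g * Real.sqrt D ≤ 1 / 2 * e2 := by
      calc 800 * g * Real.sqrt D ≤ 800 * (A1 * y) * Real.sqrt D := by gcongr
        _ = 1 / 2 * (1600 * A1 * y * Real.exp (-(3 / 40) * y)) := by
            rw [hsD]
            ring
        _ ≤ 1 / 2 * e2 := by
            rw [he2]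
            linarith [hNq.q22]
    have h2 := hNq.q23
    rw [← he4, ← he2] at h2
    linarith
  -- the net
  obtain ⟨ζ, hζ⟩ : ∃ ζ, ζ = Real.exp (-(633 / 100) * y) := ⟨_, rfl⟩
  have hζ0 : 0 < ζ := by rw [hζ]; positivity
  have hζinv : ζ⁻¹ = Real.exp (633 / 100 * y) := by
    rw [hζ, ex_inv]
    norm_num
  obtain ⟨M, hM⟩ : ∃ M : ℕ, M = ⌈(2 * d + 1) / ζ⌉₊ := ⟨_, rfl⟩
  have hM1 : (2 * d + 1) ≤ ζ * M := by
    have h1 : (2 * (d : ℝ) + 1) / ζ ≤ M := by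
      rw [hM]
      exact Nat.le_ceil _
    rw [div_le_iff₀ hζ0] at h1
    linarith
  have hM2 : (2 * M + 1 : ℝ) ≤ (4 * d + 5) * Real.exp (633 / 100 * y) := by
    have h1 := Nat.ceil_lt_add_one (show 0 ≤ (2 * (d : ℝ) + 1) / ζ by positivity)
    rw [← hM, div_eq_mul_inv, hζinv] at h1
    have h2 : (1 : ℝ) ≤ Real.exp (633 / 100 * y) := Real.one_le_exp (by linarith)
    linarith
  obtain ⟨τ, hτ⟩ : ∃ τ, τ = Real.exp (-(43 / 20) * y) := ⟨_, rfl⟩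
  have hτ0 : 0 < τ := by rw [hτ]; positivity
  have hgood := goodQ_prob (d := d) (L := L) hES hTH hFL hIN hO hSU hd δ θ η τ ζ e2 a v2 Q β s2 g
    ε ε e1 α x1t c1 e4 T0 D M hδ0 hη0 hη1 hα0 hτ0 hadm μ hβ0 hμb hμ0 hs2 hs2p hs2β k1 k2 hε0.le hε2
    he10.le he14 k3' k3
    (by rw [htηδ, ← hNdef]; exact hsumt) (by linarith) (by rw [← hcnt, ← hNdef]; exact k4)
    x0 ε3 Λ ut hx0 m1 hε3 (by rw [htηδ]; exact hΛ) hΛg hc1 hT
    (by rw [htηδ, ← hx4, ← hK6]; exact hgx) m2 hx1t0.le m3 hut m4 m5 hD0 hD128 k5 k7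
  rw [hμdef, ← hcnt, ← hNdef] at hgood
  -- the deterministic part
  obtain ⟨kf, hkf⟩ : ∃ kf, kf = Real.exp (-(3 / 250) * y) := ⟨_, rfl⟩
  have hkf0 : 0 < kf := by rw [hkf]; positivity
  have hkfinv : kf⁻¹ = Real.exp (3 / 250 * y) := by
    rw [hkf, ex_inv]
    norm_num
  obtain ⟨p, hp⟩ : ∃ p : ℕ, p = ⌈Real.exp (1 / 80 * y)⌉₊ := ⟨_, rfl⟩
  have hp1 : Real.exp (1 / 80 * y) ≤ p := by
    rw [hp]
    exact Nat.le_ceil _
  have hp0 : p ≠ 0 := by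
    intro h0
    rw [h0] at hp1
    have := Real.exp_pos (1 / 80 * y)
    push_cast at hp1
    linarith
  have hL4 : 4 * ℓ + 4 < L := by
    have h1 := hN.n3
    have h2 : (1 : ℝ) ≤ Real.exp (43 / 10 * y) := Real.one_le_exp (by linarith)
    have h3 := hexle hy1 (43 / 10) 5 (by norm_num)
    have h4 : 0 < Real.exp (5 * y) := Real.exp_pos _
    rw [hℓ]
    linarith
  obtain ⟨ρ, hρ⟩ : ∃ ρ, ρ = 2 * d * Real.exp (-(113 / 50) * y) := ⟨_, rfl⟩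
  have hρ0 : 0 < ρ := by rw [hρ]; positivity
  have hρℓ : 2 * d / ℓ * t⁻¹ ≤ ρ := by
    apply le_of_eq
    rw [htinv, hρ, hℓ, div_eq_mul_inv, ex_inv, mul_assoc, ex_mul]
    norm_num
  obtain ⟨zz, hzz⟩ : ∃ zz, zz = Zc * y * kf := ⟨_, rfl⟩
  obtain ⟨xx, hxx⟩ : ∃ x, x = x1 + ζ / t ^ 2 := ⟨_, rfl⟩
  obtain ⟨uu, huu⟩ : ∃ u, u = (ζ + s2 * xx) / (s2 * c1) := ⟨_, rfl⟩
  obtain ⟨K, hK⟩ : ∃ K, K = 10 * g := ⟨_, rfl⟩
  obtain ⟨r1, r2, r3, r4, r5, r6, r7, r8, r9⟩ := numD d A1 CQ K6 iv ic X0 Zc y hNq hy1 hA10 hAy1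
    hiv0 hic0 hZc g1 g η t kf ρ ζ τ e2 e3 zz x1 xx uu c1 s2 K (by linarith) hg1' hgA hK hη ht hkf
    hρ hζ hτ he2 he3 hzz hx1 hxx hc1i hs2p hs2i huu
  rw [← hK] at hgood
  have hR1 : 1 ≤ Real.exp (Real.exp (y / 100)) := Real.one_le_exp (Real.exp_pos _).le
  have hdom : DomBy ν c := by
    rw [hc]
    exact dom_bdd ν 1 one_pos hνb hν0
  have hfin := mainQx (L := L) hO hd ν c hdom σ (Real.exp (Real.exp (y / 100))) δ θ η kf g1 g ρ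
    τ K ζ e2 e3 s2 c1 x1 xx uu zz T0 ℓ xs e5 M hσ0 hR1 hδ0 hδ2 hη0 hη1 hkf0 r8
    (by rw [← hNdef]; exact hsumδ) (by rw [htηδ, ← hNdef]; exact hsumt)
    (by rw [hK]; linarith) hζ0 hM1 hs2p hc1 hρ0.le hτ0.le (by rw [htηδ]; exact r1)
    (by rw [htηδ]; exact r2) (by rw [htηδ]; exact r3) (by rw [htηδ]; exact r4)
    (by rw [htηδ]; exact hxx) r5 (by rw [htηδ]; exact r6) huu r7 r9 hℓ0 hL4
    (by rw [htηδ]; exact hρℓ) hT (by rw [htηδ]; exact l4) (by rw [htηδ]; exact l1)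
    (by rw [htηδ, ← hx4, ← hK6]; exact l2) (by rw [htηδ]; exact l3) p hp0 _
    (Real.exp (-Real.exp (y / 100))) hgood ?_
  · obtain ⟨G, hG, hP, hLL⟩ := hfin
    refine ⟨G, hG, hP, fun ξ hξ a' ha' ξ' hξ' => ?_⟩
    have h1 := hLL ξ hξ a' ha' ξ' (fun x hx => hξ' x (hx.trans hL2))
    rw [htηδ] at h1
    rw [← hσ, ← ht, ← hs2V, ← hiv, ← hxs, ← he5]
    exact h1
  -- the probability
  obtain ⟨Y, hY⟩ : ∃ Y, Y = Real.exp (y / 100) := ⟨_, rfl⟩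
  obtain ⟨R, hR⟩ : ∃ R, R = Real.exp (Real.exp (y / 100)) := ⟨_, rfl⟩
  have hRY : R = Real.exp Y := by rw [hR, hY]
  have hg1A' : g1 ≤ A1 * y := by linarith
  have t1 := pr1b d 1 c A1 CQ K0 K6 y hN Y R δ kf σ g1 L p hY hRY hL2 hδinv hδ0 hkfinv hkf0 hσ
    hg10 hg1A' hp
  have t2 := pr2b d 1 c A1 CQ K0 K6 y one_pos hN Y R τ β N cnt L hY hRY hL2 hNL hN0 hτ
    (by rw [hββ, one_mul]) hcnt1 hcnt2
  have t3 := pr3q d 1 c A1 CQ K0 K6 y hN Y R D N L M hY hRY hL2 hNL hN1 hD hM2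
  rw [← hR, ← hY, mul_add, mul_add]
  exact pr4 Y _ _ _ t1 t2 t3

end Pool.Agent.TH791.QD
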