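import Pool.Agent.TH791.QD.TMean

/-! The equation for the mean of `R* Y R` for the matrices of the Anderson model. -/

set_option autoImplicit false
set_option linter.unusedSectionVars false

open scoped BigOperators Matrix
open MeasureTheory

namespace Pool.Agent.TH791.QD

open Pool.Agent.W788.BK
open Pool.Agent.W788.MFP.Four (T e NN adj K ft e_comm e_add_left e_add e_zero e_neg e_neg_left
  e_normSq sum_e NN_pos)

variable {d L : ℕ} [NeZero L]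

/-- `J^{-1/2}` -/
noncomputable def js (E δ : ℝ) (k : T d L) : ℝ := (Real.sqrt (JJ E δ k))⁻¹

theorem js_pos (E δ : ℝ) (hδ : 0 < δ) (k : T d L) : 0 < js E δ k :=
  inv_pos.2 (Real.sqrt_pos.2 (JJ_pos E δ hδ k))

theorem js_sq (E δ : ℝ) (hδ : 0 < δ) (k : T d L) : js E δ k * js E δ k = (JJ E δ k)⁻¹ := by
  unfold js
  rw [← mul_inv, Real.mul_self_sqrt (JJ_pos E δ hδ k).le]

theorem AA_shift (E δ θ : ℝ) (r y k p : T d L) :
    AA E δ θ y (k + r) (p + r) * AA E δ θ y p k =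
      (((NN d L)⁻¹ ^ 2 * hi θ (k - p) * (js E δ (k + r) * js E δ (p + r) *
        (js E δ p * js E δ k)) : ℝ) : ℂ) := by
  unfold AA js
  simp only [Matrix.of_apply]
  have h1 : hi θ (p - k) = hi θ (k - p) := by
    rw [← hi_neg, neg_sub]
  have h2 : e (p - k) y = (starRingEnd ℂ) (e (k - p) y) := by
    rw [← Pool.Agent.W788.MFP.Four.e_neg_left, neg_sub]
  have h3 := Pool.Agent.W788.MFP.Four.e_normSq (k - p) y
  have h4 : k + r - (p + r) = k - p := by abel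
  rw [h4, h1, h2]
  have h6 := hi_sq θ (k - p)
  obtain ⟨u, hu⟩ : ∃ u, u = e (k - p) y := ⟨_, rfl⟩
  rw [← hu] at h3
  rw [← hu]
  obtain ⟨v, hv⟩ : ∃ v, v = (starRingEnd ℂ) u := ⟨_, rfl⟩
  rw [← hv] at h3 ⊢
  obtain ⟨hh, hhh⟩ : ∃ hh, hh = hi θ (k - p) := ⟨_, rfl⟩
  rw [← hhh] at h6 ⊢
  have h7 : (((hh ^ 2 : ℝ)) : ℂ) = ((hh : ℝ) : ℂ) := by rw [h6]
  push_cast at h7 ⊢
  linear_combination ((NN d L : ℂ)⁻¹ ^ 2 * (hh : ℂ) ^ 2 *
    ((Real.sqrt (JJ E δ (k + r)) : ℂ)⁻¹ * (Real.sqrt (JJ E δ (p + r)) : ℂ)⁻¹ *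
    ((Real.sqrt (JJ E δ p) : ℂ)⁻¹ * (Real.sqrt (JJ E δ k) : ℂ)⁻¹))) * h3 +
    ((NN d L : ℂ)⁻¹ ^ 2 * ((Real.sqrt (JJ E δ (k + r)) : ℂ)⁻¹ *
    (Real.sqrt (JJ E δ (p + r)) : ℂ)⁻¹ * ((Real.sqrt (JJ E δ p) : ℂ)⁻¹ *
    (Real.sqrt (JJ E δ k) : ℂ)⁻¹))) * h7

/-- the self-energy of a shifted diagonal matrix -/
theorem Psi_shift (E δ θ : ℝ) (r : T d L) (B : Matrix (T d L) (T d L) ℂ)
    (hB : ∀ k' p, k' ≠ p + r → B k' p = 0) (k : T d L) :
    Psi (AA (d := d) (L := L) E δ θ) B (k + r) k =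
      ∑ p, (((NN d L)⁻¹ * hi θ (k - p) * (js E δ (k + r) * js E δ (p + r) *
        (js E δ p * js E δ k)) : ℝ) : ℂ) * B (p + r) p := by
  unfold Psi
  rw [Matrix.sum_apply]
  have h1 : ∀ y : T d L, (AA E δ θ y * B * AA E δ θ y : Matrix (T d L) (T d L) ℂ) (k + r) k =
      ∑ p, (((NN d L)⁻¹ ^ 2 * hi θ (k - p) * (js E δ (k + r) * js E δ (p + r) *
        (js E δ p * js E δ k)) : ℝ) : ℂ) * B (p + r) p := by
    intro y
    rw [Matrix.mul_apply]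
    refine Finset.sum_congr rfl fun p _ => ?_
    have h2 : (AA E δ θ y * B : Matrix (T d L) (T d L) ℂ) (k + r) p =
        AA E δ θ y (k + r) (p + r) * B (p + r) p := by
      rw [Matrix.mul_apply, Finset.sum_eq_single (p + r)]
      · intro l _ hl
        rw [hB l p hl, mul_zero]
      · intro h
        exact absurd (Finset.mem_univ _) h
    rw [h2, ← AA_shift E δ θ r y k p]
    ring
  simp only [h1]
  rw [Finset.sum_const, nsmul_eq_mul, Finset.mul_sum]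
  refine Finset.sum_congr rfl fun p _ => ?_
  have h3 : ((Finset.univ : Finset (T d L)).card : ℂ) = ((NN d L : ℝ) : ℂ) := by
    rw [Finset.card_univ, ← Pool.Agent.W788.MFP.Four.card_T]
    push_cast
    rfl
  rw [h3]
  have hN : ((NN d L : ℝ) : ℂ) ≠ 0 := by
    exact_mod_cast (NN_pos (d := d) (L := L)).ne'
  push_cast
  field_simp

/-- the Dyson equation -/
theorem dyson (hTH : S_THIRD) (hFL : S_FLUCT) (hIN : S_INV)
    (E δ θ η a v2 Q β s2 ε : ℝ) (hδ : 0 < δ) (hη : 0 < η) (hη1 : η ≤ 1)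
    (hadm : Adm (D0 E δ) (AA (d := d) (L := L) E δ θ) a v2 Q)
    (μ : Measure ℝ) [IsProbabilityMeasure μ] (hβ : 0 < β) (hμ : ∀ᵐ s ∂μ, |s| ≤ β)
    (h0 : ∫ s, s ∂μ = 0) (h2 : ∫ s, s ^ 2 ∂μ = s2) (hs2 : 0 ≤ s2)
    (hβa : β * a ≤ η) (hβv : β ^ 2 * v2 ≤ 1)
    (hε : 4 * β ^ 3 * a * v2 / η ^ 3 + s2 * (2 * β * Q * Real.sqrt v2 / η ^ 4) ≤ ε) :
    (∀ k p, k ≠ p → MM (D0 E δ) (AA (d := d) (L := L) E δ θ) η μ k p = 0) ∧
    ∀ k, ‖((((adj k - E) / JJ E δ k : ℝ) : ℂ) - (η : ℂ) * Complex.I) *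
      MM (D0 E δ) (AA (d := d) (L := L) E δ θ) η μ k k -
      (s2 : ℂ) * Psi (AA (d := d) (L := L) E δ θ) (MM (D0 E δ) (AA E δ θ) η μ) k k *
        MM (D0 E δ) (AA (d := d) (L := L) E δ θ) η μ k k - 1‖ ≤ ε := by
  obtain ⟨A, hA⟩ : ∃ A, A = AA (d := d) (L := L) E δ θ := ⟨_, rfl⟩
  obtain ⟨M, hM⟩ : ∃ M, M = MM (D0 E δ) A η μ := ⟨_, rfl⟩
  rw [← hA] at hadm ⊢
  rw [← hM]
  have hdiag : ∀ k p, k ≠ p → M k p = 0 := by
    intro k p hkp
    rw [hM, hA]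
    exact hIN d L E δ θ η μ hδ hη k p hkp
  refine ⟨hdiag, fun k => ?_⟩
  have e1 := hTH (T d L) (T d L) _ _ _ _ _ hadm μ β s2 η hβ hμ h0 h2 hη hη1 hβa
    (Pi.single k 1) (Pi.single k 1) (nsq_single k) (nsq_single k)
  have e2 := hFL (T d L) (T d L) _ _ _ _ _ hadm μ β η hβ hμ hη hη1 hβv
    (Pi.single k 1) (Pi.single k 1) (nsq_single k) (nsq_single k)
  rw [form_single] at e1 e2
  rw [← hM] at e1 e2
  have e3 : ((D0 E δ - ((η : ℂ) * Complex.I) • (1 : Matrix (T d L) (T d L) ℂ)) * M :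
      Matrix (T d L) (T d L) ℂ) k k =
      ((((adj k - E) / JJ E δ k : ℝ) : ℂ) - (η : ℂ) * Complex.I) * M k k := by
    have e4 : D0 E δ - ((η : ℂ) * Complex.I) • (1 : Matrix (T d L) (T d L) ℂ) =
        Matrix.diagonal fun k => ((((adj k - E) / JJ E δ k : ℝ) : ℂ) -
          (η : ℂ) * Complex.I) := by
      unfold D0
      rw [Matrix.smul_one_eq_diagonal, ← Matrix.diagonal_sub]
    rw [e4, Matrix.diagonal_mul]
  have e5 : (Psi A M * M : Matrix (T d L) (T d L) ℂ) k k = Psi A M k k * M k k := by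
    rw [Matrix.mul_apply, Finset.sum_eq_single k]
    · intro l _ hl
      rw [hdiag l k hl, mul_zero]
    · intro h
      exact absurd (Finset.mem_univ k) h
  rw [Matrix.sub_apply, Matrix.sub_apply, Matrix.smul_apply, Matrix.one_apply_eq, e3,
    smul_eq_mul] at e1
  rw [Matrix.sub_apply, e5] at e2
  obtain ⟨S, hS⟩ : ∃ S, S = Psi A M k k * M k k := ⟨_, rfl⟩
  rw [← hS] at e2
  have e6 : ((((adj k - E) / JJ E δ k : ℝ) : ℂ) - (η : ℂ) * Complex.I) * M k k -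
      (s2 : ℂ) * Psi A M k k * M k k - 1 =
      (((((adj k - E) / JJ E δ k : ℝ) : ℂ) - (η : ℂ) * Complex.I) * M k k -
        (s2 : ℂ) * SE (D0 E δ) A η μ k k - 1) +
      (s2 : ℂ) * (SE (D0 E δ) A η μ k k - S) := by
    rw [hS]
    ring
  rw [e6]
  refine (norm_add_le _ _).trans (le_trans (add_le_add e1 ?_) hε)
  rw [norm_mul, Complex.norm_real, Real.norm_of_nonneg hs2]
  exact mul_le_mul_of_nonneg_left e2 hs2

/-- **the equation for the mean of `R* Y R`** -/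
theorem teq (hTH : S_THIRD) (hFL : S_FLUCT) (hIN : S_INV)
    (E δ θ η a v2 Q β s2 ε ε2 α : ℝ) (hδ : 0 < δ) (hη : 0 < η) (hη1 : η ≤ 1) (hα : 0 < α)
    (hadm : Adm (D0 E δ) (AA (d := d) (L := L) E δ θ) a v2 Q)
    (μ : Measure ℝ) [IsProbabilityMeasure μ] (hβ : 0 < β) (hμ : ∀ᵐ s ∂μ, |s| ≤ β)
    (h0 : ∫ s, s ∂μ = 0) (h2 : ∫ s, s ^ 2 ∂μ = s2) (hs2 : 0 ≤ s2) (hsβ : s2 ≤ β ^ 2)
    (hβa : β * a ≤ η) (hβv : β ^ 2 * v2 ≤ 1) (hε0 : 0 ≤ ε)
    (hε : 4 * β ^ 3 * a * v2 / η ^ 3 + s2 * (2 * β * Q * Real.sqrt v2 / η ^ 4) ≤ ε)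
    (hε2 : 4 * β ^ 3 * a * v2 / η ^ 3 + s2 * (2 * β * (2 * Q) * Real.sqrt v2 / η ^ 4) ≤ ε2)
    (r : T d L) :
    ∃ Tk : T d L → ℂ, (∀ k, ‖Tk k‖ ≤ (η ^ 2)⁻¹) ∧
      (∀ k, ‖Tk k - (starRingEnd ℂ) (MM (D0 E δ) (AA (d := d) (L := L) E δ θ) η μ (k + r) (k + r)) *
        MM (D0 E δ) (AA (d := d) (L := L) E δ θ) η μ k k *
        (((δ * (js E δ (k + r) * js E δ k) : ℝ) : ℂ) + (s2 : ℂ) *
          ∑ p, (((NN d L)⁻¹ * hi θ (k - p) * (js E δ (k + r) * js E δ (p + r) *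
            (js E δ p * js E δ k)) : ℝ) : ℂ) * Tk p)‖ ≤
        ε / η ^ 2 + ε2 / (α * η) + 3 * α ^ 2 / η ^ 6) ∧
      ∀ w : T d L → ℂ, Integrable (fun V => star w ⬝ᵥ (((RR (D0 E δ) (AA E δ θ) η V)ᴴ *
          Yq E δ r * RR (D0 E δ) (AA E δ θ) η V) *ᵥ w)) (PP (T d L) μ) ∧
        ‖∑ k, (starRingEnd ℂ) (w (k + r)) * Tk k * w k -
          ∫ V, star w ⬝ᵥ (((RR (D0 E δ) (AA E δ θ) η V)ᴴ * Yq E δ r *
            RR (D0 E δ) (AA E δ θ) η V) *ᵥ w) ∂(PP (T d L) μ)‖ ≤ α ^ 2 / η ^ 4 * nsq w := by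
  obtain ⟨hdiag, hdy⟩ := dyson hTH hFL hIN E δ θ η a v2 Q β s2 ε hδ hη hη1 hadm μ hβ hμ h0 h2 hs2
    hβa hβv hε
  obtain ⟨A, hA⟩ : ∃ A, A = AA (d := d) (L := L) E δ θ := ⟨_, rfl⟩
  rw [← hA] at hadm hdiag hdy ⊢
  obtain ⟨M, hM⟩ : ∃ M, M = MM (D0 E δ) A η μ := ⟨_, rfl⟩
  rw [← hM] at hdiag hdy ⊢
  have hXh := hadm.hX0
  have hAh := hadm.hA
  have hY := Yq_opb E δ hδ r
  have hY' := YqH_opb E δ hδ r
  obtain ⟨W, hW⟩ : ∃ W, W = MM (X2 (D0 E δ) (Yq E δ r) α) (A2 A) η μ := ⟨_, rfl⟩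
  obtain ⟨m12, m22, m11, mw⟩ := mean_bds (Y := Yq E δ r) hXh hAh hη hα.le hY hY' μ
  rw [← hW] at m12 m22 m11 mw
  rw [← hM] at m22 m11
  have hcX : CovM (mom r) (X2 (D0 E δ) (Yq E δ r) α) := cov_X2 E δ α r
  have hcA : CovF (mom r) (A2 A) := by rw [hA]; exact cov_A2 E δ θ r
  have supp : ∀ i j, mom r i ≠ mom r j → W i j = 0 := by
    intro i j hij
    rw [hW]
    exact MM_supp hcX hcA η μ i j hij
  have s12 : ∀ k' p, k' ≠ p + r → W.toBlocks₁₂ k' p = 0 := by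
    intro k' p h
    apply supp
    simp only [mom, Sum.elim_inl, Sum.elim_inr, id]
    intro h2
    apply h
    rw [← h2]
    abel
  have s22 : ∀ k' p, k' ≠ p → W.toBlocks₂₂ k' p = 0 := fun k' p h => supp _ _ h
  have hv0 := hadm.hv0
  have hs2v : s2 * v2 ≤ 1 := (mul_le_mul_of_nonneg_right hsβ hv0).trans hβv
  -- the entries
  have hMn : ∀ k, ‖M k k‖ ≤ η⁻¹ := by
    intro k
    have e1 : M k k = ∫ V, RR (D0 E δ) A η V k k ∂(PP (T d L) μ) := by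
      rw [hM]
      rfl
    rw [e1]
    refine (norm_integral_le_of_norm_le_const (C := η⁻¹)
      (Filter.Eventually.of_forall fun V => entry_bd hXh hAh hη V k k)).trans ?_
    rw [probReal_univ, mul_one]
  have hPsi12 := psi_fb hadm (b := α / η ^ 2) (by positivity) m12
  have hPsi11 := psi_fb hadm (b := α ^ 2 / η ^ 3) (by positivity) m11
  have hadd : ∀ B C : Matrix (T d L) (T d L) ℂ, Psi A (B + C) = Psi A B + Psi A C := by
    intro B C
    unfold Psi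
    rw [← Finset.sum_add_distrib]
    refine Finset.sum_congr rfl fun y _ => ?_
    rw [mul_add, add_mul]
  have hPsiH : ∀ B : Matrix (T d L) (T d L) ℂ, ∀ k, Psi A Bᴴ k k =
      (starRingEnd ℂ) (Psi A B k k) := by
    intro B k
    have e1 : Psi A Bᴴ = (Psi A B)ᴴ := by
      unfold Psi
      rw [Matrix.conjTranspose_sum]
      refine Finset.sum_congr rfl fun y _ => ?_
      rw [Matrix.conjTranspose_mul, Matrix.conjTranspose_mul, (hAh y).eq, mul_assoc]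
    rw [e1]
    rfl
  -- the Dyson equation of the doubled matrices
  have hadm2 := adm2 hadm (Yq E δ r) α
  have h2Q : 4 * β ^ 3 * a * v2 / η ^ 3 + s2 * (2 * β * (2 * Q) * Real.sqrt v2 / η ^ 4) ≤ ε2 :=
    hε2
  have hdy2 : ∀ k : T d L, ‖-((((adj (k + r) - E) / JJ E δ (k + r) : ℝ) : ℂ) +
      (η : ℂ) * Complex.I) * W.toBlocks₁₂ (k + r) k +
      ((α : ℂ) * Yq E δ r (k + r) k) * W.toBlocks₂₂ k k -
      (s2 : ℂ) * (Psi A W.toBlocks₁₁ (k + r) (k + r) * W.toBlocks₁₂ (k + r) k -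
        Psi A W.toBlocks₁₂ (k + r) k * W.toBlocks₂₂ k k)‖ ≤ ε2 := by
    intro k
    have e1 := hTH (T d L ⊕ T d L) (T d L) _ _ _ _ _ hadm2 μ β s2 η hβ hμ h0 h2 hη hη1 hβa
      (Pi.single (Sum.inl (k + r)) 1) (Pi.single (Sum.inr k) 1) (nsq_single _) (nsq_single _)
    have e2 := hFL (T d L ⊕ T d L) (T d L) _ _ _ _ _ hadm2 μ β η hβ hμ hη hη1 hβv
      (Pi.single (Sum.inl (k + r)) 1) (Pi.single (Sum.inr k) 1) (nsq_single _) (nsq_single _)
    rw [form_single] at e1 e2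
    rw [← hW] at e1 e2
    have e3 : ((X2 (D0 E δ) (Yq E δ r) α - ((η : ℂ) * Complex.I) •
        (1 : Matrix (T d L ⊕ T d L) (T d L ⊕ T d L) ℂ)) * W) (Sum.inl (k + r)) (Sum.inr k) =
        -((((adj (k + r) - E) / JJ E δ (k + r) : ℝ) : ℂ) +
      (η : ℂ) * Complex.I) * W.toBlocks₁₂ (k + r) k +
      ((α : ℂ) * Yq E δ r (k + r) k) * W.toBlocks₂₂ k k := by
      unfold X2
      rw [shift2]
      conv_lhs => rw [← Matrix.fromBlocks_toBlocks W]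
      rw [Matrix.fromBlocks_multiply, Matrix.fromBlocks_apply₁₂, Matrix.add_apply]
      congr 1
      · have e4 : -(D0 E δ + ((η : ℂ) * Complex.I) • (1 : Matrix (T d L) (T d L) ℂ)) =
            Matrix.diagonal fun k => -((((adj k - E) / JJ E δ k : ℝ) : ℂ) +
              (η : ℂ) * Complex.I) := by
          unfold D0
          rw [Matrix.smul_one_eq_diagonal, Matrix.diagonal_add, Matrix.diagonal_neg]
        rw [e4, Matrix.diagonal_mul]
      · rw [Matrix.mul_apply, Finset.sum_eq_single k]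
        · rw [Matrix.smul_apply, smul_eq_mul]
        · intro l _ hl
          rw [s22 l k hl, mul_zero]
        · intro h
          exact absurd (Finset.mem_univ k) h
    have e5 : (Psi (A2 A) W * W) (Sum.inl (k + r)) (Sum.inr k) =
        Psi A W.toBlocks₁₁ (k + r) (k + r) * W.toBlocks₁₂ (k + r) k -
        Psi A W.toBlocks₁₂ (k + r) k * W.toBlocks₂₂ k k := by
      rw [Matrix.mul_apply, Fintype.sum_sum_type, Finset.sum_eq_single (k + r),
        Finset.sum_eq_single k, (Psi2 (A := A) W _ _).1, (Psi2 (A := A) W _ _).2]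
      · simp only [Matrix.toBlocks₁₂, Matrix.toBlocks₂₂, Matrix.of_apply]
        ring
      · intro l _ hl
        have := s22 l k hl
        simp only [Matrix.toBlocks₂₂, Matrix.of_apply] at this
        rw [this, mul_zero]
      · intro h
        exact absurd (Finset.mem_univ k) h
      · intro l _ hl
        have := s12 l k hl
        simp only [Matrix.toBlocks₁₂, Matrix.of_apply] at this
        rw [this, mul_zero]
      · intro h
        exact absurd (Finset.mem_univ _) h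
    have e7 : (1 : Matrix (T d L ⊕ T d L) (T d L ⊕ T d L) ℂ) (Sum.inl (k + r)) (Sum.inr k) =
        0 := by
      rw [Matrix.one_apply_ne]
      simp
    rw [Matrix.sub_apply, Matrix.sub_apply, Matrix.smul_apply, e7, e3, smul_eq_mul,
      sub_zero] at e1
    rw [Matrix.sub_apply, e5] at e2
    obtain ⟨S, hS⟩ : ∃ S, S = Psi A W.toBlocks₁₁ (k + r) (k + r) * W.toBlocks₁₂ (k + r) k -
        Psi A W.toBlocks₁₂ (k + r) k * W.toBlocks₂₂ k k := ⟨_, rfl⟩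
    obtain ⟨S', hS'⟩ : ∃ S, S = -((((adj (k + r) - E) / JJ E δ (k + r) : ℝ) : ℂ) +
      (η : ℂ) * Complex.I) * W.toBlocks₁₂ (k + r) k +
      ((α : ℂ) * Yq E δ r (k + r) k) * W.toBlocks₂₂ k k := ⟨_, rfl⟩
    rw [← hS] at e2 ⊢
    rw [← hS'] at e1 ⊢
    have e6 : S' - (s2 : ℂ) * S = (S' - (s2 : ℂ) * SE (X2 (D0 E δ) (Yq E δ r) α) (A2 A) η μ
        (Sum.inl (k + r)) (Sum.inr k)) + (s2 : ℂ) * (SE (X2 (D0 E δ) (Yq E δ r) α) (A2 A) η μ
        (Sum.inl (k + r)) (Sum.inr k) - S) := by ring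
    rw [e6]
    refine (norm_add_le _ _).trans (le_trans (add_le_add e1 ?_) h2Q)
    rw [norm_mul, Complex.norm_real, Real.norm_of_nonneg hs2]
    exact mul_le_mul_of_nonneg_left e2 hs2
  have hαc : (α : ℂ) ≠ 0 := by exact_mod_cast hα.ne'
  refine ⟨fun k => (α : ℂ)⁻¹ * W.toBlocks₁₂ (k + r) k, fun k => ?_, fun k => ?_, fun w => ?_⟩
  · rw [norm_mul, norm_inv, Complex.norm_real, Real.norm_of_nonneg hα.le]
    calc α⁻¹ * ‖W.toBlocks₁₂ (k + r) k‖ ≤ α⁻¹ * (α / η ^ 2) :=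
          mul_le_mul_of_nonneg_left (m12.entry _ _) (inv_nonneg.2 hα.le)
      _ = (η ^ 2)⁻¹ := by field_simp
  · have hyn : ‖(α : ℂ) * Yq E δ r (k + r) k‖ ≤ α := by
      rw [norm_mul, Complex.norm_real, Real.norm_of_nonneg hα.le]
      have := hY.entry zero_le_one (k + r) k
      calc α * ‖Yq E δ r (k + r) k‖ ≤ α * 1 := mul_le_mul_of_nonneg_left this hα.le
        _ = α := mul_one α
    have hηi : (1 : ℝ) ≤ η⁻¹ := (one_le_inv₀ hη).2 hη1
    have hΨn : ‖(s2 : ℂ) * Psi A W.toBlocks₁₂ (k + r) k‖ ≤ α / η ^ 2 := by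
      rw [norm_mul, Complex.norm_real, Real.norm_of_nonneg hs2]
      calc s2 * ‖Psi A W.toBlocks₁₂ (k + r) k‖ ≤ s2 * (v2 * (α / η ^ 2)) :=
            mul_le_mul_of_nonneg_left (hPsi12.entry _ _) hs2
        _ = (s2 * v2) * (α / η ^ 2) := by ring
        _ ≤ 1 * (α / η ^ 2) := mul_le_mul_of_nonneg_right hs2v (by positivity)
        _ = _ := one_mul _
    have h3 : s2 * ‖Psi A W.toBlocks₁₁ (k + r) (k + r) +
        (starRingEnd ℂ) (Psi A M (k + r) (k + r))‖ ≤ α ^ 2 / η ^ 3 := by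
      have e1 : Psi A W.toBlocks₁₁ (k + r) (k + r) +
        (starRingEnd ℂ) (Psi A M (k + r) (k + r)) = Psi A (W.toBlocks₁₁ + Mᴴ) (k + r) (k + r) := by
        rw [hadd, Matrix.add_apply, hPsiH]
      rw [e1]
      calc s2 * ‖Psi A (W.toBlocks₁₁ + Mᴴ) (k + r) (k + r)‖ ≤ s2 * (v2 * (α ^ 2 / η ^ 3)) :=
            mul_le_mul_of_nonneg_left (hPsi11.entry _ _) hs2
        _ = (s2 * v2) * (α ^ 2 / η ^ 3) := by ring
        _ ≤ 1 * (α ^ 2 / η ^ 3) := mul_le_mul_of_nonneg_right hs2v (by positivity)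
        _ = _ := one_mul _
    have h4 : ‖W.toBlocks₂₂ k k - M k k‖ ≤ α ^ 2 / η ^ 3 := by
      have := m22.entry k k
      rwa [Matrix.sub_apply] at this
    have h7 : ‖(α : ℂ) * Yq E δ r (k + r) k + (s2 : ℂ) * Psi A W.toBlocks₁₂ (k + r) k‖ ≤
        2 * (α / η ^ 2) := by
      refine (norm_add_le _ _).trans ?_
      have : α ≤ α / η ^ 2 := by
        rw [le_div_iff₀ (by positivity)]
        have : η ^ 2 ≤ 1 := pow_le_one₀ hη.le hη1
        calc α * η ^ 2 ≤ α * 1 := mul_le_mul_of_nonneg_left this hα.le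
          _ = α := mul_one α
      linarith
    have key := alg1 ((adj (k + r) - E) / JJ E δ (k + r)) η s2 ε ε2 (α ^ 2 / η ^ 3)
      (α ^ 2 / η ^ 3) (α / η ^ 2) (2 * (α / η ^ 2)) (M (k + r) (k + r))
      (Psi A M (k + r) (k + r)) (W.toBlocks₁₂ (k + r) k) ((α : ℂ) * Yq E δ r (k + r) k)
      (W.toBlocks₂₂ k k) (Psi A W.toBlocks₁₁ (k + r) (k + r)) (Psi A W.toBlocks₁₂ (k + r) k)
      (M k k) hη hs2 hε0 (by positivity) (by positivity) (hdy (k + r)) (hdy2 k) h3 h4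
      (hMn _) (m12.entry _ _) h7
    have e8 : Psi A W.toBlocks₁₂ (k + r) k = (α : ℂ) *
        ∑ p, (((NN d L)⁻¹ * hi θ (k - p) * (js E δ (k + r) * js E δ (p + r) *
            (js E δ p * js E δ k)) : ℝ) : ℂ) * ((α : ℂ)⁻¹ * W.toBlocks₁₂ (p + r) p) := by
      rw [hA, Psi_shift E δ θ r _ s12 k, Finset.mul_sum]
      refine Finset.sum_congr rfl fun p _ => ?_
      field_simp
    have e9 : Yq E δ r (k + r) k = ((δ * (js E δ (k + r) * js E δ k) : ℝ) : ℂ) := by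
      rw [Yq_apply, if_pos rfl]
      rfl
    obtain ⟨Sg, hSg⟩ : ∃ S, S = ∑ p, (((NN d L)⁻¹ * hi θ (k - p) * (js E δ (k + r) *
      js E δ (p + r) * (js E δ p * js E δ k)) : ℝ) : ℂ) *
        ((α : ℂ)⁻¹ * W.toBlocks₁₂ (p + r) p) := ⟨_, rfl⟩
    rw [← hSg] at e8 ⊢
    rw [e8, e9] at key
    have e10 : (α : ℂ)⁻¹ * W.toBlocks₁₂ (k + r) k - (starRingEnd ℂ) (M (k + r) (k + r)) * M k k *
        (((δ * (js E δ (k + r) * js E δ k) : ℝ) : ℂ) + (s2 : ℂ) * Sg) =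
        (α : ℂ)⁻¹ * (W.toBlocks₁₂ (k + r) k - (starRingEnd ℂ) (M (k + r) (k + r)) * M k k *
          ((α : ℂ) * ((δ * (js E δ (k + r) * js E δ k) : ℝ) : ℂ) +
            (s2 : ℂ) * ((α : ℂ) * Sg))) := by
      field_simp
    rw [e10, norm_mul, norm_inv, Complex.norm_real, Real.norm_of_nonneg hα.le]
    refine (mul_le_mul_of_nonneg_left key (inv_nonneg.2 hα.le)).trans ?_
    have e11 : α⁻¹ * (ε * (α / η ^ 2) + η⁻¹ * (ε2 + α ^ 2 / η ^ 3 * (α / η ^ 2) +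
        α ^ 2 / η ^ 3 * (2 * (α / η ^ 2)))) =
        ε / η ^ 2 + ε2 / (α * η) + 3 * α ^ 2 / η ^ 6 := by
      field_simp
      ring
    rw [e11]
  · obtain ⟨i1, i2⟩ := mw w
    refine ⟨i1, ?_⟩
    have e1 : star w ⬝ᵥ (W.toBlocks₁₂ *ᵥ w) =
        ∑ k, (starRingEnd ℂ) (w (k + r)) * W.toBlocks₁₂ (k + r) k * w k := by
      unfold Matrix.mulVec dotProduct
      simp only [Finset.mul_sum]
      rw [Finset.sum_comm]
      refine Finset.sum_congr rfl fun k _ => ?_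
      rw [Finset.sum_eq_single (k + r)]
      · simp only [Pi.star_apply]
        rw [RCLike.star_def]
        ring
      · intro l _ hl
        have := s12 l k hl
        simp only [this]
        ring
      · intro h
        exact absurd (Finset.mem_univ _) h
    rw [e1] at i2
    obtain ⟨I, hI⟩ : ∃ I, I = ∫ V, star w ⬝ᵥ (((RR (D0 E δ) A η V)ᴴ * Yq E δ r *
            RR (D0 E δ) A η V) *ᵥ w) ∂(PP (T d L) μ) := ⟨_, rfl⟩
    rw [← hI] at i2 ⊢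
    have e2 : ∑ k, (starRingEnd ℂ) (w (k + r)) * ((α : ℂ)⁻¹ * W.toBlocks₁₂ (k + r) k) * w k - I =
        (α : ℂ)⁻¹ * (∑ k, (starRingEnd ℂ) (w (k + r)) * W.toBlocks₁₂ (k + r) k * w k -
          (α : ℂ) * I) := by
      rw [mul_sub, Finset.mul_sum, ← mul_assoc, inv_mul_cancel₀ hαc, one_mul]
      congr 1
      refine Finset.sum_congr rfl fun k _ => ?_
      ring
    rw [e2, norm_mul, norm_inv, Complex.norm_real, Real.norm_of_nonneg hα.le]
    refine (mul_le_mul_of_nonneg_left i2 (inv_nonneg.2 hα.le)).trans (le_of_eq ?_)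
    field_simp

end Pool.Agent.TH791.QD
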