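import Pool.Agent.TH791.QD.Cov
import Pool.Agent.W788.BK.Mean

/-! The equation for the mean of `R* Y R`. -/

set_option autoImplicit false
set_option linter.unusedSectionVars false

open scoped BigOperators Matrix
open MeasureTheory

namespace Pool.Agent.TH791.QD

open Pool.Agent.W788.BK
open Pool.Agent.W788.MFP.Four (T e NN adj K ft e_comm e_add_left e_add e_zero e_neg e_neg_left
  e_normSq sum_e NN_pos)

section abs

variable {n m : Type} [Fintype n] [DecidableEq n] [Fintype m] [DecidableEq m]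

/-- the bilinear form is bounded by `b` -/
def Fb (B : Matrix n n ℂ) (b : ℝ) : Prop :=
  ∀ f g : n → ℂ, ‖star f ⬝ᵥ (B *ᵥ g)‖ ≤ b * (Real.sqrt (nsq f) * Real.sqrt (nsq g))

theorem Fb.entry {B : Matrix n n ℂ} {b : ℝ} (h : Fb B b) (i j : n) : ‖B i j‖ ≤ b := by
  have h1 := h (Pi.single i 1) (Pi.single j 1)
  rw [form_single, nsq_single, nsq_single] at h1
  simpa using h1

theorem psi_fb {X0 : Matrix n n ℂ} {A : m → Matrix n n ℂ} {a v2 Q : ℝ} (H : Adm X0 A a v2 Q)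
    {B : Matrix n n ℂ} {b : ℝ} (hb : 0 ≤ b) (h : Fb B b) : Fb (Psi A B) (v2 * b) := by
  intro f g
  have h1 : star f ⬝ᵥ (Psi A B *ᵥ g) = ∑ y, star (A y *ᵥ f) ⬝ᵥ (B *ᵥ (A y *ᵥ g)) := by
    unfold Psi
    rw [Matrix.sum_mulVec, dotProduct_sum]
    refine Finset.sum_congr rfl fun y _ => ?_
    rw [← Matrix.mulVec_mulVec, ← Matrix.mulVec_mulVec, herm (H.hA y)]
  rw [h1]
  refine (norm_sum_le _ _).trans ((Finset.sum_le_sum fun y _ => h _ _).trans ?_)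
  rw [← Finset.mul_sum]
  have h2 : (∑ y, Real.sqrt (nsq (A y *ᵥ f)) * Real.sqrt (nsq (A y *ᵥ g))) ^ 2 ≤
      (v2 * (Real.sqrt (nsq f) * Real.sqrt (nsq g))) ^ 2 := by
    refine (Finset.sum_mul_sq_le_sq_mul_sq _ _ _).trans ?_
    have e1 : ∑ y, Real.sqrt (nsq (A y *ᵥ f)) ^ 2 = ∑ y, nsq (A y *ᵥ f) :=
      Finset.sum_congr rfl fun y _ => Real.sq_sqrt (nsq_nonneg _)
    have e2 : ∑ y, Real.sqrt (nsq (A y *ᵥ g)) ^ 2 = ∑ y, nsq (A y *ᵥ g) :=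
      Finset.sum_congr rfl fun y _ => Real.sq_sqrt (nsq_nonneg _)
    rw [e1, e2, mul_pow, mul_pow, Real.sq_sqrt (nsq_nonneg f), Real.sq_sqrt (nsq_nonneg g)]
    calc (∑ y, nsq (A y *ᵥ f)) * ∑ y, nsq (A y *ᵥ g) ≤ (v2 * nsq f) * (v2 * nsq g) :=
          mul_le_mul (H.hv f) (H.hv g) (Finset.sum_nonneg fun _ _ => nsq_nonneg _)
            (mul_nonneg H.hv0 (nsq_nonneg f))
      _ = _ := by ring
  have h3 := (abs_le_of_sq_le_sq' h2 (mul_nonneg H.hv0 (by positivity))).2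
  calc b * ∑ y, Real.sqrt (nsq (A y *ᵥ f)) * Real.sqrt (nsq (A y *ᵥ g)) ≤
      b * (v2 * (Real.sqrt (nsq f) * Real.sqrt (nsq g))) := mul_le_mul_of_nonneg_left h3 hb
    _ = _ := by ring

theorem dot_sum (u v : n ⊕ n → ℂ) :
    u ⬝ᵥ v = (u ∘ Sum.inl) ⬝ᵥ (v ∘ Sum.inl) + (u ∘ Sum.inr) ⬝ᵥ (v ∘ Sum.inr) := by
  unfold dotProduct
  rw [Fintype.sum_sum_type]
  rfl

theorem form11 (W : Matrix (n ⊕ n) (n ⊕ n) ℂ) (f g : n → ℂ) :
    star f ⬝ᵥ (W.toBlocks₁₁ *ᵥ g) = star (Sum.elim f 0) ⬝ᵥ (W *ᵥ Sum.elim g 0) := by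
  conv_rhs => rw [← Matrix.fromBlocks_toBlocks W]
  rw [Matrix.fromBlocks_mulVec, dot_sum]
  have h1 : star (Sum.elim f 0 : n ⊕ n → ℂ) ∘ Sum.inl = star f := rfl
  have h2 : star (Sum.elim f 0 : n ⊕ n → ℂ) ∘ Sum.inr = 0 := by
    funext i
    simp
  rw [h1, h2]
  simp

theorem form12 (W : Matrix (n ⊕ n) (n ⊕ n) ℂ) (f g : n → ℂ) :
    star f ⬝ᵥ (W.toBlocks₁₂ *ᵥ g) = star (Sum.elim f 0) ⬝ᵥ (W *ᵥ Sum.elim 0 g) := by
  conv_rhs => rw [← Matrix.fromBlocks_toBlocks W]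
  rw [Matrix.fromBlocks_mulVec, dot_sum]
  have h1 : star (Sum.elim f 0 : n ⊕ n → ℂ) ∘ Sum.inl = star f := rfl
  have h2 : star (Sum.elim f 0 : n ⊕ n → ℂ) ∘ Sum.inr = 0 := by
    funext i
    simp
  rw [h1, h2]
  simp

theorem form22 (W : Matrix (n ⊕ n) (n ⊕ n) ℂ) (f g : n → ℂ) :
    star f ⬝ᵥ (W.toBlocks₂₂ *ᵥ g) = star (Sum.elim 0 f) ⬝ᵥ (W *ᵥ Sum.elim 0 g) := by
  conv_rhs => rw [← Matrix.fromBlocks_toBlocks W]
  rw [Matrix.fromBlocks_mulVec, dot_sum]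
  have h1 : star (Sum.elim 0 f : n ⊕ n → ℂ) ∘ Sum.inr = star f := rfl
  have h2 : star (Sum.elim 0 f : n ⊕ n → ℂ) ∘ Sum.inl = 0 := by
    funext i
    simp
  rw [h1, h2]
  simp

theorem formH (B : Matrix n n ℂ) (f g : n → ℂ) :
    star f ⬝ᵥ (Bᴴ *ᵥ g) = (starRingEnd ℂ) (star g ⬝ᵥ (B *ᵥ f)) := by
  have e1 : (starRingEnd ℂ) (star g ⬝ᵥ (B *ᵥ f)) = star (star g ⬝ᵥ (B *ᵥ f)) := rfl
  rw [e1, ← Matrix.star_dotProduct_star, star_star, adjoint,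
    Matrix.conjTranspose_conjTranspose, dotProduct_comm]

variable {X0 Y : Matrix n n ℂ} {A : m → Matrix n n ℂ} {η α : ℝ}

/-- bounds on the means of the blocks -/
theorem mean_bds (h0 : X0.IsHermitian) (hA : ∀ y, (A y).IsHermitian) (hη : 0 < η) (hα : 0 ≤ α)
    (hY : Opb Y 1) (hY' : Opb Yᴴ 1) (μ : Measure ℝ) [IsProbabilityMeasure μ] :
    Fb (MM (X2 X0 Y α) (A2 A) η μ).toBlocks₁₂ (α / η ^ 2) ∧
    Fb ((MM (X2 X0 Y α) (A2 A) η μ).toBlocks₂₂ - MM X0 A η μ) (α ^ 2 / η ^ 3) ∧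
    Fb ((MM (X2 X0 Y α) (A2 A) η μ).toBlocks₁₁ + (MM X0 A η μ)ᴴ) (α ^ 2 / η ^ 3) ∧
    ∀ w : n → ℂ, Integrable (fun V => star w ⬝ᵥ (((RR X0 A η V)ᴴ * Y * RR X0 A η V) *ᵥ w))
      (PP m μ) ∧
      ‖star w ⬝ᵥ ((MM (X2 X0 Y α) (A2 A) η μ).toBlocks₁₂ *ᵥ w) - (α : ℂ) *
        ∫ V, star w ⬝ᵥ (((RR X0 A η V)ᴴ * Y * RR X0 A η V) *ᵥ w) ∂(PP m μ)‖ ≤
        α ^ 3 / η ^ 4 * nsq w := by
  have hb := fun V : m → ℝ => block_bds (Y := Y) (α := α) h0 hA hη hα hY hY' V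
  have hX := X2_herm h0 Y α
  have hA' := A2_herm hA
  have i12 : ∀ f g : n → ℂ, Integrable (fun V => star f ⬝ᵥ
      ((RR (X2 X0 Y α) (A2 A) η V).toBlocks₁₂ *ᵥ g)) (PP m μ) ∧
      ∫ V, star f ⬝ᵥ ((RR (X2 X0 Y α) (A2 A) η V).toBlocks₁₂ *ᵥ g) ∂(PP m μ) =
      star f ⬝ᵥ ((MM (X2 X0 Y α) (A2 A) η μ).toBlocks₁₂ *ᵥ g) := by
    intro f g
    simp only [form12]
    exact integral_form hX hA' hη μ _ _
  have i22 : ∀ f g : n → ℂ, Integrable (fun V => star f ⬝ᵥ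
      ((RR (X2 X0 Y α) (A2 A) η V).toBlocks₂₂ *ᵥ g)) (PP m μ) ∧
      ∫ V, star f ⬝ᵥ ((RR (X2 X0 Y α) (A2 A) η V).toBlocks₂₂ *ᵥ g) ∂(PP m μ) =
      star f ⬝ᵥ ((MM (X2 X0 Y α) (A2 A) η μ).toBlocks₂₂ *ᵥ g) := by
    intro f g
    simp only [form22]
    exact integral_form hX hA' hη μ _ _
  have i11 : ∀ f g : n → ℂ, Integrable (fun V => star f ⬝ᵥ
      ((RR (X2 X0 Y α) (A2 A) η V).toBlocks₁₁ *ᵥ g)) (PP m μ) ∧
      ∫ V, star f ⬝ᵥ ((RR (X2 X0 Y α) (A2 A) η V).toBlocks₁₁ *ᵥ g) ∂(PP m μ) =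
      star f ⬝ᵥ ((MM (X2 X0 Y α) (A2 A) η μ).toBlocks₁₁ *ᵥ g) := by
    intro f g
    simp only [form11]
    exact integral_form hX hA' hη μ _ _
  refine ⟨fun f g => ?_, fun f g => ?_, fun f g => ?_, fun w => ?_⟩
  · rw [← (i12 f g).2]
    refine (norm_integral_le_of_norm_le_const (C := α / η ^ 2 *
      (Real.sqrt (nsq f) * Real.sqrt (nsq g))) (Filter.Eventually.of_forall fun V =>
      (hb V).1.form (by positivity) f g)).trans ?_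
    rw [probReal_univ, mul_one]
  · have e1 : star f ⬝ᵥ (((MM (X2 X0 Y α) (A2 A) η μ).toBlocks₂₂ - MM X0 A η μ) *ᵥ g) =
        ∫ V, star f ⬝ᵥ (((RR (X2 X0 Y α) (A2 A) η V).toBlocks₂₂ - RR X0 A η V) *ᵥ g)
          ∂(PP m μ) := by
      simp only [Matrix.sub_mulVec, dotProduct_sub]
      rw [integral_sub (i22 f g).1 (integral_form h0 hA hη μ f g).1, (i22 f g).2,
        (integral_form h0 hA hη μ f g).2]
    rw [e1]
    refine (norm_integral_le_of_norm_le_const (C := α ^ 2 / η ^ 3 *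
      (Real.sqrt (nsq f) * Real.sqrt (nsq g))) (Filter.Eventually.of_forall fun V =>
      (hb V).2.1.form (by positivity) f g)).trans ?_
    rw [probReal_univ, mul_one]
  · have iH : Integrable (fun V => star f ⬝ᵥ ((RR X0 A η V)ᴴ *ᵥ g)) (PP m μ) ∧
        ∫ V, star f ⬝ᵥ ((RR X0 A η V)ᴴ *ᵥ g) ∂(PP m μ) = star f ⬝ᵥ ((MM X0 A η μ)ᴴ *ᵥ g) := by
      simp only [formH]
      have h1 := integral_form h0 hA hη μ g f
      refine ⟨Complex.conjLIE.toContinuousLinearEquiv.toContinuousLinearMap.integrable_comp h1.1,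
        ?_⟩
      rw [integral_conj, h1.2]
    have e1 : star f ⬝ᵥ (((MM (X2 X0 Y α) (A2 A) η μ).toBlocks₁₁ + (MM X0 A η μ)ᴴ) *ᵥ g) =
        ∫ V, star f ⬝ᵥ (((RR (X2 X0 Y α) (A2 A) η V).toBlocks₁₁ + (RR X0 A η V)ᴴ) *ᵥ g)
          ∂(PP m μ) := by
      simp only [Matrix.add_mulVec, dotProduct_add]
      rw [integral_add (i11 f g).1 iH.1, (i11 f g).2, iH.2]
    rw [e1]
    refine (norm_integral_le_of_norm_le_const (C := α ^ 2 / η ^ 3 *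
      (Real.sqrt (nsq f) * Real.sqrt (nsq g))) (Filter.Eventually.of_forall fun V =>
      (hb V).2.2.1.form (by positivity) f g)).trans ?_
    rw [probReal_univ, mul_one]
  · have hc : Integrable (fun V => star w ⬝ᵥ (((RR X0 A η V)ᴴ * Y * RR X0 A η V) *ᵥ w))
        (PP m μ) := by
      have hcont : Continuous fun V : m → ℝ =>
          star w ⬝ᵥ (((RR X0 A η V)ᴴ * Y * RR X0 A η V) *ᵥ w) := by
        have hR := continuous_RR h0 hA hη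
        exact continuous_const.dotProduct
          (((hR.matrix_conjTranspose.matrix_mul continuous_const).matrix_mul hR).matrix_mulVec
            continuous_const)
      refine Integrable.of_bound (C := η⁻¹ * 1 * η⁻¹ * (Real.sqrt (nsq w) * Real.sqrt (nsq w)))
        hcont.aestronglyMeasurable (Filter.Eventually.of_forall fun V => ?_)
      exact (((RRH_opb h0 hA hη V).mul hY).mul (RR_opb h0 hA hη V)).form (by positivity) w w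
    refine ⟨hc, ?_⟩
    have e1 : star w ⬝ᵥ ((MM (X2 X0 Y α) (A2 A) η μ).toBlocks₁₂ *ᵥ w) - (α : ℂ) *
        ∫ V, star w ⬝ᵥ (((RR X0 A η V)ᴴ * Y * RR X0 A η V) *ᵥ w) ∂(PP m μ) =
        ∫ V, star w ⬝ᵥ (((RR (X2 X0 Y α) (A2 A) η V).toBlocks₁₂ -
          (α : ℂ) • ((RR X0 A η V)ᴴ * Y * RR X0 A η V)) *ᵥ w) ∂(PP m μ) := by
      simp only [Matrix.sub_mulVec, dotProduct_sub, Matrix.smul_mulVec, dotProduct_smul,
        smul_eq_mul]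
      rw [integral_sub (i12 w w).1 (hc.const_mul _), (i12 w w).2, integral_const_mul]
    rw [e1]
    refine (norm_integral_le_of_norm_le_const (C := α ^ 3 / η ^ 4 *
      (Real.sqrt (nsq w) * Real.sqrt (nsq w))) (Filter.Eventually.of_forall fun V =>
      (hb V).2.2.2.form (by positivity) w w)).trans (le_of_eq ?_)
    rw [probReal_univ, mul_one, Real.mul_self_sqrt (nsq_nonneg w)]

theorem Psi2 (W : Matrix (n ⊕ n) (n ⊕ n) ℂ) (i j : n) :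
    Psi (A2 A) W (Sum.inl i) (Sum.inl j) = Psi A W.toBlocks₁₁ i j ∧
    Psi (A2 A) W (Sum.inl i) (Sum.inr j) = -(Psi A W.toBlocks₁₂ i j) := by
  have h1 : ∀ y, A2 A y * W * A2 A y = Matrix.fromBlocks (A y * W.toBlocks₁₁ * A y)
      (-(A y * W.toBlocks₁₂ * A y)) (-(A y * W.toBlocks₂₁ * A y)) (A y * W.toBlocks₂₂ * A y) := by
    intro y
    conv_lhs => rw [← Matrix.fromBlocks_toBlocks W]
    unfold A2
    rw [Matrix.fromBlocks_multiply, Matrix.fromBlocks_multiply]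
    simp
  unfold Psi
  simp only [h1]
  constructor
  · rw [Matrix.sum_apply, Matrix.sum_apply]
    rfl
  · rw [Matrix.sum_apply, Matrix.sum_apply, ← Finset.sum_neg_distrib]
    rfl

end abs

/-- the algebra of the Dyson equations -/
theorem alg1 (x η s2 ε ε2 b1 b2 b3 b4 : ℝ) (M' P T' y W22 P11 Ψ Mk : ℂ) (hη : 0 < η)
    (hs2 : 0 ≤ s2) (hε : 0 ≤ ε) (hb1 : 0 ≤ b1) (hb2 : 0 ≤ b2)
    (h1 : ‖((x : ℂ) - (η : ℂ) * Complex.I) * M' - (s2 : ℂ) * P * M' - 1‖ ≤ ε)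
    (h2 : ‖-((x : ℂ) + (η : ℂ) * Complex.I) * T' + y * W22 -
      (s2 : ℂ) * (P11 * T' - Ψ * W22)‖ ≤ ε2)
    (h3 : s2 * ‖P11 + (starRingEnd ℂ) P‖ ≤ b1) (h4 : ‖W22 - Mk‖ ≤ b2) (h5 : ‖M'‖ ≤ η⁻¹)
    (h6 : ‖T'‖ ≤ b3) (h7 : ‖y + (s2 : ℂ) * Ψ‖ ≤ b4) :
    ‖T' - (starRingEnd ℂ) M' * Mk * (y + (s2 : ℂ) * Ψ)‖ ≤
      ε * b3 + η⁻¹ * (ε2 + b1 * b3 + b2 * b4) := by
  obtain ⟨r1, hr1⟩ : ∃ r1 : ℂ, r1 = (starRingEnd ℂ) (((x : ℂ) - (η : ℂ) * Complex.I) * M' -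
    (s2 : ℂ) * P * M' - 1) := ⟨_, rfl⟩
  have hr1n : ‖r1‖ ≤ ε := by
    rw [hr1, RCLike.norm_conj]
    exact h1
  have hr1' : r1 = ((x : ℂ) + (η : ℂ) * Complex.I) * (starRingEnd ℂ) M' -
      (s2 : ℂ) * (starRingEnd ℂ) P * (starRingEnd ℂ) M' - 1 := by
    rw [hr1]
    simp only [map_sub, map_mul, Complex.conj_ofReal, Complex.conj_I, map_one]
    ring
  obtain ⟨r2, hr2⟩ : ∃ r2 : ℂ, r2 = -((x : ℂ) + (η : ℂ) * Complex.I) * T' + y * W22 -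
      (s2 : ℂ) * (P11 * T' - Ψ * W22) := ⟨_, rfl⟩
  rw [← hr2] at h2
  have hM : ‖(starRingEnd ℂ) M'‖ ≤ η⁻¹ := by
    rw [RCLike.norm_conj]
    exact h5
  have hi : 0 ≤ η⁻¹ := inv_nonneg.2 hη.le
  have key : T' - (starRingEnd ℂ) M' * Mk * (y + (s2 : ℂ) * Ψ) =
      -(T' * r1) - (((s2 : ℂ) * (P11 + (starRingEnd ℂ) P)) * (starRingEnd ℂ) M' * T') +
      (starRingEnd ℂ) M' * (W22 - Mk) * (y + (s2 : ℂ) * Ψ) - (starRingEnd ℂ) M' * r2 := by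
    rw [hr1', hr2]
    ring
  rw [key]
  have n1 : ‖-(T' * r1)‖ ≤ ε * b3 := by
    rw [norm_neg, norm_mul, mul_comm]
    exact mul_le_mul hr1n h6 (norm_nonneg _) hε
  have n2 : ‖((s2 : ℂ) * (P11 + (starRingEnd ℂ) P)) * (starRingEnd ℂ) M' * T'‖ ≤
      b1 * η⁻¹ * b3 := by
    rw [norm_mul, norm_mul, norm_mul, Complex.norm_real, Real.norm_of_nonneg hs2]
    exact mul_le_mul (mul_le_mul h3 hM (norm_nonneg _) hb1) h6 (norm_nonneg _) (by positivity)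
  have n3 : ‖(starRingEnd ℂ) M' * (W22 - Mk) * (y + (s2 : ℂ) * Ψ)‖ ≤ η⁻¹ * b2 * b4 := by
    rw [norm_mul, norm_mul]
    exact mul_le_mul (mul_le_mul hM h4 (norm_nonneg _) hi) h7 (norm_nonneg _) (by positivity)
  have n4 : ‖(starRingEnd ℂ) M' * r2‖ ≤ η⁻¹ * ε2 := by
    rw [norm_mul]
    exact mul_le_mul hM h2 (norm_nonneg _) hi
  have m1 := norm_sub_le (-(T' * r1) - (((s2 : ℂ) * (P11 + (starRingEnd ℂ) P)) *
    (starRingEnd ℂ) M' * T') + (starRingEnd ℂ) M' * (W22 - Mk) * (y + (s2 : ℂ) * Ψ))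
    ((starRingEnd ℂ) M' * r2)
  have m2 := norm_add_le (-(T' * r1) - (((s2 : ℂ) * (P11 + (starRingEnd ℂ) P)) *
    (starRingEnd ℂ) M' * T')) ((starRingEnd ℂ) M' * (W22 - Mk) * (y + (s2 : ℂ) * Ψ))
  have m3 := norm_sub_le (-(T' * r1)) (((s2 : ℂ) * (P11 + (starRingEnd ℂ) P)) *
    (starRingEnd ℂ) M' * T')
  have m4 : ε * b3 + η⁻¹ * (ε2 + b1 * b3 + b2 * b4) =
      ε * b3 + b1 * η⁻¹ * b3 + η⁻¹ * b2 * b4 + η⁻¹ * ε2 := by ring
  rw [m4]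
  linarith

end Pool.Agent.TH791.QD
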