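import Pool.Agent.TH791.QD.TimF

/-! The time domain law at all macroscopic times: scaling of the disorder. -/

set_option autoImplicit false
set_option linter.unusedSectionVars false

open scoped BigOperators Topology
open MeasureTheory Filter Set

namespace Pool.Agent.TH791.QD

open Pool.Agent.W788.BK (S_OSC)
open Pool.Agent.H4R2.LO (Zd)

variable {d : ℕ}

/-- the Fourier transform of the density of the position at time `s` -/
noncomputable def pd (r : ℝ) (κ : Fin d → ℝ) (a : Zd d) (φ : Zd d → ℂ) : ℂ :=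
  ∑' x : Zd d, Complex.exp (Complex.I * ((∑ i, κ i * r * ((x i : ℝ) - a i) : ℝ) : ℂ)) *
    ((‖φ x‖ ^ 2 : ℝ) : ℂ)

/-- **the scaled time domain law** -/
theorem time_scaled (d : ℕ) (hd : 3 ≤ d) (A v ε : ℝ) (hA : 0 < A) (hv : 0 < v) (hε : 0 < ε)
    (lam : ℝ) (hlam : 1 ≤ lam) :
    ∃ s0 : ℝ, 0 < s0 ∧ ∀ (μ : Measure ℝ), IsProbabilityMeasure μ →
      (∀ r : ℝ, 0 ≤ r → μ.real {s | r < |s|} ≤ A * Real.exp (-r)) →
      ∀ M V : ℝ, ∫ s, s ∂μ = M → ∫ s, (s - M) ^ 2 ∂μ = V → v ≤ V →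
      ∀ σ : ℝ, 0 < |σ| → |σ| ≤ s0 → ∀ (t : ℝ), t = |σ| ^ (81 / 40 : ℝ) →
      ∃ G : Set (Zd d → ℝ), MeasurableSet G ∧
        1 - Real.exp (-(lam * |σ|) ^ (-(1 / 150) : ℝ)) ≤
          (Measure.infinitePi fun _ : Zd d => μ).real G ∧
        ∀ ξ ∈ G, ∀ a : Zd d, ‖a‖ ≤ Real.exp ((lam * |σ|) ^ (-(1 / 150) : ℝ)) →
          ∀ ψ : ℝ → Zd d → ℂ, Evo d (fun x => σ * ξ x) a ψ → ∀ κ : Fin d → ℝ,
            ∑ i, κ i ^ 2 ≤ |σ| ^ (-(1 / 500) : ℝ) →
            ‖((2 * (lam * t) : ℝ) : ℂ) * (∫ s in Ioi (0 : ℝ),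
              ((Real.exp (-(2 * (lam * t)) * s) : ℝ) : ℂ) *
                pd (Real.sqrt (t * (σ ^ 2 * V))) κ a (ψ s)) -
              ((1 / Real.pi * ∫ E in (-(3 * d : ℝ))..(3 * d), pf d ((∑ i, κ i ^ 2) / lam) E : ℝ) :
                ℂ)‖ ≤ ε := by
  have hlam0 : 0 < lam := by linarith
  obtain ⟨l, hl⟩ : ∃ l, l = lam ^ (40 / 81 : ℝ) := ⟨_, rfl⟩
  have hl1 : 1 ≤ l := by rw [hl]; exact Real.one_le_rpow hlam (by norm_num)
  have hl0 : 0 < l := by linarith
  have hllam : l ≤ lam := by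
    rw [hl]
    calc lam ^ (40 / 81 : ℝ) ≤ lam ^ (1 : ℝ) :=
          Real.rpow_le_rpow_of_exponent_le hlam (by norm_num)
      _ = lam := Real.rpow_one _
  have hl81 : l ^ (81 / 40 : ℝ) = lam := by
    rw [hl, ← Real.rpow_mul hlam0.le]
    norm_num
  obtain ⟨s0, hs0, h⟩ := finalT d hd A (v / l ^ 2) 1 ε hA (by positivity) one_pos hε
  refine ⟨s0 / l, by positivity, ?_⟩
  intro μ hμ htail M V hM hV hvV σ hσ hσ0 t ht
  have ht0 : 0 < t := by rw [ht]; positivity
  have hV0 : 0 < V := by linarith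
  have hm : Measurable fun s : ℝ => s / l := by fun_prop
  have hμ' : IsProbabilityMeasure (μ.map fun s : ℝ => s / l) :=
    Measure.isProbabilityMeasure_map hm.aemeasurable
  have habs : |l * σ| = l * |σ| := by rw [abs_mul, abs_of_pos hl0]
  have g1 : ∀ r : ℝ, 0 ≤ r → (μ.map fun s : ℝ => s / l).real {s | r < |s|} ≤
      A * Real.exp (-r) := by
    intro r hr
    have hms : MeasurableSet {s : ℝ | r < |s|} := measurableSet_lt measurable_const (by fun_prop)
    rw [map_measureReal_apply hm hms]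
    have h1 : (fun s : ℝ => s / l) ⁻¹' {s : ℝ | r < |s|} ⊆ {s : ℝ | r < |s|} := by
      intro s hs
      simp only [mem_preimage, mem_ofPred_eq] at hs ⊢
      rw [abs_div, abs_of_pos hl0, lt_div_iff₀ hl0] at hs
      nlinarith
    exact (measureReal_mono h1 (measure_ne_top _ _)).trans (htail r hr)
  have g2 : ∫ s, s ∂(μ.map fun s : ℝ => s / l) = M / l := by
    rw [integral_map hm.aemeasurable (by fun_prop), integral_div, hM]
  have g3 : ∫ s, (s - M / l) ^ 2 ∂(μ.map fun s : ℝ => s / l) = V / l ^ 2 := by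
    rw [integral_map hm.aemeasurable (by fun_prop)]
    have e1 : ∀ s : ℝ, (s / l - M / l) ^ 2 = (s - M) ^ 2 / l ^ 2 := by
      intro s
      rw [← sub_div, div_pow]
    simp only [e1]
    rw [integral_div, hV]
  have g4 : v / l ^ 2 ≤ V / l ^ 2 := by gcongr
  have g5 : |l * σ| ≤ s0 := by
    rw [habs]
    rw [le_div_iff₀ hl0] at hσ0
    linarith
  have g6 : lam * t = |l * σ| ^ (81 / 40 : ℝ) := by
    rw [habs, Real.mul_rpow hl0.le hσ.le, hl81, ht]
  obtain ⟨G, hG, hP, hb⟩ := h (μ.map fun s : ℝ => s / l) hμ' g1 (M / l) (V / l ^ 2) g2 g3 g4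
    (l * σ) (by rw [habs]; positivity) g5 (lam * t) g6
  have hTm : Measurable (fun (ω : Zd d → ℝ) x => ω x / l) := by fun_prop
  have hlaw : (Measure.infinitePi fun _ : Zd d => μ).map (fun ω x => ω x / l) =
      Measure.infinitePi fun _ : Zd d => μ.map fun s : ℝ => s / l :=
    Measure.infinitePi_map_pi (μ := fun _ : Zd d => μ)
      (f := fun _ (s : ℝ) => s / l) (fun _ => by fun_prop)
  have hmono : (lam * |σ|) ^ (-(1 / 150) : ℝ) ≤ |l * σ| ^ (-(1 / 150) : ℝ) := by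
    rw [habs]
    apply Real.rpow_le_rpow_of_nonpos (by positivity) _ (by norm_num)
    gcongr
  refine ⟨(fun (ω : Zd d → ℝ) x => ω x / l) ⁻¹' G, hTm hG, ?_, ?_⟩
  · have h1 : (Measure.infinitePi fun _ : Zd d => μ).real
        ((fun (ω : Zd d → ℝ) x => ω x / l) ⁻¹' G) =
        (Measure.infinitePi fun _ : Zd d => μ.map fun s : ℝ => s / l).real G := by
      rw [← hlaw, map_measureReal_apply hTm hG]
    rw [h1]
    refine le_trans ?_ hP
    have := Real.exp_le_exp.2 (neg_le_neg hmono)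
    linarith
  · intro ξ hξ a ha ψ hψ κ hκ
    have hb1 := (hb (fun x => ξ x / l) hξ a (ha.trans (Real.exp_le_exp.2 hmono))).2 ψ
    have e1 : (fun x => l * σ * (ξ x / l)) = fun x => σ * ξ x := by
      funext x
      field_simp
    rw [e1] at hb1
    have hsq : Real.sqrt lam ^ 2 = lam := Real.sq_sqrt hlam0.le
    have hsq0 : 0 < Real.sqrt lam := Real.sqrt_pos.2 hlam0
    have e2 : ∑ i, (κ i / Real.sqrt lam) ^ 2 = (∑ i, κ i ^ 2) / lam := by
      rw [Finset.sum_div]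
      refine Finset.sum_congr rfl fun i _ => ?_
      rw [div_pow, hsq]
    have hb2 := hb1 hψ (fun i => κ i / Real.sqrt lam) ?_
    · have e3 : ∀ i, κ i / Real.sqrt lam *
          Real.sqrt (lam * t * ((l * σ) ^ 2 * (V / l ^ 2))) =
          κ i * Real.sqrt (t * (σ ^ 2 * V)) := by
        intro i
        have e4 : lam * t * ((l * σ) ^ 2 * (V / l ^ 2)) = lam * (t * (σ ^ 2 * V)) := by
          field_simp
        rw [e4, Real.sqrt_mul hlam0.le]
        field_simp
      simp only [e3, e2] at hb2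
      exact hb2
    · rw [e2, habs, Real.mul_rpow hl0.le hσ.le, div_le_iff₀ hlam0]
      refine hκ.trans ?_
      have e5 : 1 ≤ l ^ (-(1 / 500) : ℝ) * lam := by
        rw [Real.rpow_neg hl0.le]
        have e6 : l ^ (1 / 500 : ℝ) ≤ lam := by
          calc l ^ (1 / 500 : ℝ) ≤ l ^ (1 : ℝ) :=
                Real.rpow_le_rpow_of_exponent_le hl1 (by norm_num)
            _ = l := Real.rpow_one _
            _ ≤ lam := hllam
        rw [← div_eq_inv_mul, le_div_iff₀ (by positivity), one_mul]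
        exact e6
      have e7 : 0 ≤ |σ| ^ (-(1 / 500) : ℝ) := by positivity
      nlinarith

end Pool.Agent.TH791.QD
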