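import Pool.Agent.TH791.QD.TimE

/-! Test functions of the macroscopic time: approximation by exponentials. -/

set_option autoImplicit false
set_option linter.unusedSectionVars false

open scoped BigOperators Topology Polynomial
open MeasureTheory Filter Set

namespace Pool.Agent.TH791.QD

theorem exp_intb (j : ℝ) (hj : 0 < j) : IntegrableOn (fun τ : ℝ => Real.exp (-j * τ)) (Ioi 0) :=
  integrableOn_exp_mul_Ioi (neg_lt_zero.2 hj) 0

theorem exp_valb (j : ℝ) (hj : 0 < j) : ∫ τ in Ioi (0 : ℝ), Real.exp (-j * τ) = 1 / j := by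
  rw [integral_exp_mul_Ioi (neg_lt_zero.2 hj)]
  simp

/-- a bounded function times an exponential -/
theorem bdd_int (D : ℝ → ℂ) (B : ℝ) (hD : AEStronglyMeasurable D (volume.restrict (Ioi (0 : ℝ))))
    (hB : ∀ τ : ℝ, 0 < τ → ‖D τ‖ ≤ B) (f : ℝ → ℝ) (hf : Continuous f) (C j : ℝ) (hj : 0 < j)
    (hC : 0 ≤ C) (hfC : ∀ τ : ℝ, 0 < τ → |f τ| ≤ C * Real.exp (-j * τ)) :
    Integrable (fun τ : ℝ => ((f τ : ℝ) : ℂ) * D τ) (volume.restrict (Ioi (0 : ℝ))) ∧
    ‖∫ τ in Ioi (0 : ℝ), ((f τ : ℝ) : ℂ) * D τ‖ ≤ C * B / j := by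
  have hb : ∀ᵐ τ ∂(volume.restrict (Ioi (0 : ℝ))),
      ‖((f τ : ℝ) : ℂ) * D τ‖ ≤ C * B * Real.exp (-j * τ) := by
    filter_upwards [self_mem_ae_restrict measurableSet_Ioi] with τ hτ
    rw [norm_mul, Complex.norm_real, Real.norm_eq_abs]
    calc |f τ| * ‖D τ‖ ≤ (C * Real.exp (-j * τ)) * B :=
          mul_le_mul (hfC τ hτ) (hB τ hτ) (norm_nonneg _) (by positivity)
      _ = _ := by ring
  have hi : Integrable (fun τ : ℝ => C * B * Real.exp (-j * τ)) (volume.restrict (Ioi (0 : ℝ))) :=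
    (exp_intb j hj).const_mul _
  refine ⟨hi.mono' ?_ hb, ?_⟩
  · exact (Complex.continuous_ofReal.comp hf).aestronglyMeasurable.mul hD
  · refine (norm_integral_le_of_norm_le hi hb).trans (le_of_eq ?_)
    rw [integral_const_mul, exp_valb j hj]
    ring

/-- the function on `[0,1]` -/
noncomputable def hh (g : ℝ → ℝ) (l y : ℝ) : ℝ := if y ≤ 0 then l else g (-Real.log y) / y

theorem hh_cont (g : ℝ → ℝ) (hg : Continuous g) (l : ℝ)
    (hl : Tendsto (fun τ => Real.exp τ * g τ) atTop (𝓝 l)) :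
    ContinuousOn (hh g l) (Icc 0 1) := by
  intro y hy
  rcases hy.1.eq_or_lt with h0 | h0
  · rw [← h0]
    refine ContinuousWithinAt.mono (t := Ici 0) ?_ Icc_subset_Ici_self
    rw [← continuousWithinAt_Ioi_iff_Ici]
    unfold ContinuousWithinAt
    have e1 : hh g l 0 = l := by
      unfold hh
      simp
    rw [e1]
    have h1 := hl.comp (tendsto_neg_atBot_atTop.comp Real.tendsto_log_nhdsGT_zero)
    refine h1.congr' ?_
    filter_upwards [self_mem_nhdsWithin] with y hy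
    have hy0 : 0 < y := hy
    unfold hh
    rw [if_neg (not_le.2 hy0)]
    simp only [Function.comp_def]
    rw [Real.exp_neg, Real.exp_log hy0]
    field_simp
  · apply ContinuousAt.continuousWithinAt
    have h1 : ContinuousAt (fun y => g (-Real.log y) / y) y := by
      refine ContinuousAt.div ?_ continuousAt_id h0.ne'
      exact hg.continuousAt.comp (Real.continuousAt_log h0.ne').neg
    refine h1.congr ?_
    filter_upwards [lt_mem_nhds h0] with z hz
    unfold hh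
    rw [if_neg (not_le.2 hz)]

theorem hh_exp (g : ℝ → ℝ) (l τ : ℝ) : g τ = Real.exp (-τ) * hh g l (Real.exp (-τ)) := by
  unfold hh
  rw [if_neg (not_le.2 (Real.exp_pos _)), Real.log_exp, neg_neg]
  have := (Real.exp_pos (-τ)).ne'
  field_simp

/-- **approximation by exponentials** -/
theorem tau_abs (g : ℝ → ℝ) (hg : Continuous g) (l : ℝ)
    (hl : Tendsto (fun τ => Real.exp τ * g τ) atTop (𝓝 l)) (ε : ℝ) (hε : 0 < ε) :
    ∃ (J : ℕ) (η : ℝ), 0 < η ∧ ∀ D : ℝ → ℂ,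
      AEStronglyMeasurable D (volume.restrict (Ioi (0 : ℝ))) → (∀ τ : ℝ, 0 < τ → ‖D τ‖ ≤ 2) →
      (∀ j : ℕ, j < J → ‖∫ τ in Ioi (0 : ℝ), ((Real.exp (-((j : ℝ) + 1) * τ) : ℝ) : ℂ) * D τ‖ ≤
        η) →
      ‖∫ τ in Ioi (0 : ℝ), ((g τ : ℝ) : ℂ) * D τ‖ ≤ ε := by
  obtain ⟨p, hp⟩ := exists_polynomial_near_of_continuousOn 0 1 (hh g l) (hh_cont g hg l hl) (ε / 4)
    (by positivity)
  obtain ⟨S, hS⟩ : ∃ S, S = ∑ k ∈ Finset.range (p.natDegree + 1), |p.coeff k| := ⟨_, rfl⟩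
  have hS0 : 0 ≤ S := by rw [hS]; exact Finset.sum_nonneg fun k _ => abs_nonneg _
  refine ⟨p.natDegree + 1, ε / (2 * (S + 1)), by positivity, ?_⟩
  intro D hD hD2 hj
  obtain ⟨f, hf⟩ : ∃ f : ℝ → ℝ, f = fun τ => g τ - Real.exp (-τ) * p.eval (Real.exp (-τ)) :=
    ⟨_, rfl⟩
  have hfc : Continuous f := by
    rw [hf]
    exact hg.sub ((by fun_prop : Continuous fun τ : ℝ => Real.exp (-τ)).mul
      (p.continuous.comp (by fun_prop)))
  have hfb : ∀ τ : ℝ, 0 < τ → |f τ| ≤ ε / 4 * Real.exp (-1 * τ) := by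
    intro τ hτ
    have h1 := hp (Real.exp (-τ)) ⟨(Real.exp_pos _).le, Real.exp_le_one_iff.2 (by linarith)⟩
    rw [hf]
    simp only
    rw [hh_exp g l τ, ← mul_sub, abs_mul, abs_of_pos (Real.exp_pos _), abs_sub_comm, neg_one_mul,
      mul_comm (ε / 4)]
    exact mul_le_mul_of_nonneg_left h1.le (Real.exp_pos _).le
  obtain ⟨i1, b1⟩ := bdd_int D 2 hD hD2 f hfc (ε / 4) 1 one_pos (by positivity) hfb
  have ik : ∀ k : ℕ, Integrable (fun τ : ℝ => ((p.coeff k : ℝ) : ℂ) *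
      (((Real.exp (-((k : ℝ) + 1) * τ) : ℝ) : ℂ) * D τ)) (volume.restrict (Ioi (0 : ℝ))) := by
    intro k
    exact (bdd_int D 2 hD hD2 (fun τ => Real.exp (-((k : ℝ) + 1) * τ)) (by fun_prop) 1
      ((k : ℝ) + 1) (by positivity) zero_le_one (fun τ _ => by
        rw [abs_of_pos (Real.exp_pos _), one_mul])).1.const_mul _
  have e1 : ∀ τ : ℝ, ((g τ : ℝ) : ℂ) * D τ = ((f τ : ℝ) : ℂ) * D τ +
      ∑ k ∈ Finset.range (p.natDegree + 1), ((p.coeff k : ℝ) : ℂ) *
        (((Real.exp (-((k : ℝ) + 1) * τ) : ℝ) : ℂ) * D τ) := by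
    intro τ
    have e2 : g τ = f τ + ∑ k ∈ Finset.range (p.natDegree + 1), p.coeff k *
        Real.exp (-((k : ℝ) + 1) * τ) := by
      rw [hf]
      simp only
      rw [Polynomial.eval_eq_sum_range, Finset.mul_sum]
      have e3 : ∀ k : ℕ, Real.exp (-τ) * (p.coeff k * Real.exp (-τ) ^ k) =
          p.coeff k * Real.exp (-((k : ℝ) + 1) * τ) := by
        intro k
        rw [← Real.exp_nat_mul, mul_left_comm, ← Real.exp_add]
        congr 2
        ring
      simp only [e3]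
      ring
    rw [e2]
    push_cast
    rw [add_mul, Finset.sum_mul]
    congr 1
    exact Finset.sum_congr rfl fun k _ => by ring
  simp only [e1]
  rw [integral_add i1 (integrable_finsetSum _ fun k _ => ik k),
    integral_finsetSum _ fun k _ => ik k]
  refine (norm_add_le _ _).trans ?_
  have b2 : ‖∑ k ∈ Finset.range (p.natDegree + 1), ∫ τ in Ioi (0 : ℝ), ((p.coeff k : ℝ) : ℂ) *
        (((Real.exp (-((k : ℝ) + 1) * τ) : ℝ) : ℂ) * D τ)‖ ≤ S * (ε / (2 * (S + 1))) := by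
    refine (norm_sum_le _ _).trans ?_
    rw [hS, Finset.sum_mul]
    refine Finset.sum_le_sum fun k hk => ?_
    rw [integral_const_mul, norm_mul, Complex.norm_real, Real.norm_eq_abs]
    refine mul_le_mul_of_nonneg_left ?_ (abs_nonneg _)
    rw [← hS]
    exact hj k (Finset.mem_range.1 hk)
  have b3 : S * (ε / (2 * (S + 1))) ≤ ε / 2 := by
    rw [mul_div_assoc', div_le_div_iff₀ (by positivity) (by norm_num)]
    nlinarith
  have b4 : ε / 4 * 2 / 1 = ε / 2 := by ring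
  rw [b4] at b1
  linarith

end Pool.Agent.TH791.QD
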