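import Pool.Agent.TH791.QD.TauA

/-! The limiting law at all macroscopic times. -/

set_option autoImplicit false
set_option linter.unusedSectionVars false

open scoped BigOperators Topology
open MeasureTheory Filter Set

namespace Pool.Agent.TH791.QD

open Pool.Agent.W788.BK (S_OSC)
open Pool.Agent.H4R2.LO (Zd)

/-- the rate of decay at energy `E` -/
noncomputable def rt (d : ℕ) (K E : ℝ) : ℝ := K * nn1 d E / nn0 d E ^ 2

/-- the limiting characteristic function at the macroscopic time `τ` -/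
noncomputable def lm (d : ℕ) (K τ : ℝ) : ℝ :=
  1 / Real.pi * ∫ E in (-(3 * d : ℝ))..(3 * d), nn0 d E * Real.exp (-τ * rt d K E)

theorem rt_meas (hO : S_OSC) (d : ℕ) (hd : 3 ≤ d) (K : ℝ) : Measurable (rt d K) := by
  have h0 := (nn0_cont hO hd).measurable
  have h1 := (nn1_cont hO hd).measurable
  unfold rt
  exact (h1.const_mul K).div (h0.pow_const 2)

theorem rt_nonneg (hO : S_OSC) (d : ℕ) (hd : 3 ≤ d) (K E : ℝ) (hK : 0 ≤ K) : 0 ≤ rt d K E := by
  have h1 := (nn_im hO hd E).1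
  unfold rt
  positivity

theorem nn0_nonneg (hO : S_OSC) (d : ℕ) (hd : 3 ≤ d) (E : ℝ) : 0 ≤ nn0 d E :=
  (nn_im hO hd E).1.trans (nn_im hO hd E).2

theorem nn0_integ (hO : S_OSC) (d : ℕ) (hd : 3 ≤ d) :
    Integrable (nn0 d) (volume.restrict (Ioc (-(3 * d : ℝ)) (3 * d))) :=
  ((nn0_cont hO hd).continuousOn.integrableOn_Icc).mono_set Ioc_subset_Icc_self

theorem d3 (d : ℕ) : -(3 * d : ℝ) ≤ 3 * d := by
  have : (0 : ℝ) ≤ d := Nat.cast_nonneg d
  linarith

theorem lm_bd (hO : S_OSC) (d : ℕ) (hd : 3 ≤ d) (K τ : ℝ) (hK : 0 ≤ K) (hτ : 0 < τ) :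
    |lm d K τ| ≤ 1 := by
  have hpi := Real.pi_pos
  have h1 := nn0_int hO hd
  unfold lm
  rw [intervalIntegral.integral_of_le (d3 d)] at h1 ⊢
  rw [abs_mul, abs_of_pos (by positivity : 0 < 1 / Real.pi)]
  have h2 : |∫ E in Ioc (-(3 * d : ℝ)) (3 * d), nn0 d E * Real.exp (-τ * rt d K E)| ≤ Real.pi := by
    rw [← h1, ← Real.norm_eq_abs]
    refine norm_integral_le_of_norm_le (nn0_integ hO d hd) (Filter.Eventually.of_forall fun E => ?_)
    have h3 := nn0_nonneg hO d hd E
    have h4 := rt_nonneg hO d hd K E hK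
    rw [norm_mul, Real.norm_of_nonneg h3, Real.norm_of_nonneg (Real.exp_pos _).le]
    have h5 : Real.exp (-τ * rt d K E) ≤ 1 := Real.exp_le_one_iff.2 (by nlinarith)
    nlinarith
  calc 1 / Real.pi * |∫ E in Ioc (-(3 * d : ℝ)) (3 * d), nn0 d E * Real.exp (-τ * rt d K E)| ≤
      1 / Real.pi * Real.pi := by gcongr
    _ = 1 := by field_simp

theorem lm_intb (hO : S_OSC) (d : ℕ) (hd : 3 ≤ d) (K j : ℝ) (hK : 0 ≤ K) (hj : 0 < j) :
    Integrable (Function.uncurry fun (τ E : ℝ) => Real.exp (-j * τ) *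
      (nn0 d E * Real.exp (-τ * rt d K E)))
      ((volume.restrict (Ioi (0 : ℝ))).prod (volume.restrict (Ioc (-(3 * d : ℝ)) (3 * d)))) := by
  have h2 : Integrable (fun p : ℝ × ℝ => Real.exp (-j * p.1) * nn0 d p.2)
      ((volume.restrict (Ioi (0 : ℝ))).prod (volume.restrict (Ioc (-(3 * d : ℝ)) (3 * d)))) :=
    (exp_intb j hj).mul_prod (nn0_integ hO d hd)
  have hm1 := (nn0_cont hO hd).measurable
  have hm2 := rt_meas hO d hd K
  refine h2.mono' ?_ ?_
  · apply Measurable.aestronglyMeasurable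
    unfold Function.uncurry
    fun_prop
  · have h3 : ∀ᵐ p : ℝ × ℝ ∂((volume.restrict (Ioi (0 : ℝ))).prod
        (volume.restrict (Ioc (-(3 * d : ℝ)) (3 * d)))), p.1 ∈ Ioi (0 : ℝ) := by
      rw [Measure.prod_restrict]
      filter_upwards [self_mem_ae_restrict (measurableSet_Ioi.prod measurableSet_Ioc)] with p hp
      exact hp.1
    filter_upwards [h3] with p hp
    have hp0 : 0 < p.1 := hp
    unfold Function.uncurry
    have h4 := nn0_nonneg hO d hd p.2
    have h5 := rt_nonneg hO d hd K p.2 hK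
    have h6 : Real.exp (-p.1 * rt d K p.2) ≤ 1 := Real.exp_le_one_iff.2 (by nlinarith)
    rw [Real.norm_of_nonneg (by positivity)]
    have h7 := Real.exp_pos (-j * p.1)
    have h8 : nn0 d p.2 * Real.exp (-p.1 * rt d K p.2) ≤ nn0 d p.2 := by nlinarith
    exact mul_le_mul_of_nonneg_left h8 h7.le

/-- the Laplace transform of the limiting law -/
theorem lm_lap (hO : S_OSC) (d : ℕ) (hd : 3 ≤ d) (K j : ℝ) (hK : 0 ≤ K) (hj : 0 < j) :
    ∫ τ in Ioi (0 : ℝ), Real.exp (-j * τ) * lm d K τ =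
      1 / j * (1 / Real.pi * ∫ E in (-(3 * d : ℝ))..(3 * d), pf d (K / j) E) := by
  have h1 := integral_integral_swap (lm_intb hO d hd K j hK hj)
  have e1 : ∀ τ : ℝ, (∫ E in Ioc (-(3 * d : ℝ)) (3 * d), Real.exp (-j * τ) *
      (nn0 d E * Real.exp (-τ * rt d K E))) = Real.pi * (Real.exp (-j * τ) * lm d K τ) := by
    intro τ
    have hpi := Real.pi_ne_zero
    unfold lm
    rw [integral_const_mul, intervalIntegral.integral_of_le (d3 d)]
    field_simp
  have e2 : ∀ E : ℝ, (∫ τ in Ioi (0 : ℝ), Real.exp (-j * τ) *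
      (nn0 d E * Real.exp (-τ * rt d K E))) = 1 / j * pf d (K / j) E := by
    intro E
    have h2 := rt_nonneg hO d hd K E hK
    have h3 : ∀ τ : ℝ, Real.exp (-j * τ) * (nn0 d E * Real.exp (-τ * rt d K E)) =
        nn0 d E * Real.exp (-(j + rt d K E) * τ) := by
      intro τ
      rw [mul_left_comm, ← Real.exp_add]
      congr 2
      ring
    simp only [h3]
    rw [integral_const_mul, exp_valb (j + rt d K E) (by positivity)]
    unfold pf
    have h4 : K / j * nn1 d E / nn0 d E ^ 2 = rt d K E / j := by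
      unfold rt
      ring
    rw [h4]
    have h5 : 0 < j + rt d K E := by positivity
    have h6 : 1 + rt d K E / j = (j + rt d K E) / j := by field_simp
    rw [h6]
    field_simp
  simp only [e1, e2] at h1
  rw [integral_const_mul, integral_const_mul] at h1
  rw [intervalIntegral.integral_of_le (d3 d)]
  have hpi := Real.pi_ne_zero
  have h7 : ∫ τ in Ioi (0 : ℝ), Real.exp (-j * τ) * lm d K τ = 1 / Real.pi * (Real.pi *
      ∫ τ in Ioi (0 : ℝ), Real.exp (-j * τ) * lm d K τ) := by field_simp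
  rw [h7, h1]
  ring

theorem lm_meas (hO : S_OSC) (d : ℕ) (hd : 3 ≤ d) (K : ℝ) :
    StronglyMeasurable (lm d K) := by
  have hm1 := (nn0_cont hO hd).measurable
  have hm2 := rt_meas hO d hd K
  unfold lm
  refine StronglyMeasurable.const_mul ?_ _
  have h1 : ∀ τ : ℝ, (∫ E in (-(3 * d : ℝ))..(3 * d), nn0 d E * Real.exp (-τ * rt d K E)) =
      ∫ E in Ioc (-(3 * d : ℝ)) (3 * d), nn0 d E * Real.exp (-τ * rt d K E) := fun τ =>
    intervalIntegral.integral_of_le (d3 d)
  simp only [h1]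
  have h2 : StronglyMeasurable (Function.uncurry fun (τ E : ℝ) =>
      nn0 d E * Real.exp (-τ * rt d K E)) := by
    apply Measurable.stronglyMeasurable
    unfold Function.uncurry
    fun_prop
  exact h2.integral_prod_right

end Pool.Agent.TH791.QD
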