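import Pool.Agent.TH791.QD.TauB
import Pool.Agent.TH791.QD.Tau

/-! The time domain law for all test functions of the macroscopic time. -/

set_option autoImplicit false
set_option linter.unusedSectionVars false

open scoped BigOperators Topology
open MeasureTheory Filter Set

namespace Pool.Agent.TH791.QD

open Pool.Agent.W788.BK (S_OSC)
open Pool.Agent.H4R2.LO (Zd)

variable {d : ℕ} {V : Zd d → ℝ} {a : Zd d} {ψ : ℝ → Zd d → ℂ}

theorem pd_term (r : ℝ) (κ : Fin d → ℝ) (a : Zd d) (φ : Zd d → ℂ) (x : Zd d) :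
    ‖Complex.exp (Complex.I * ((∑ i, κ i * r * ((x i : ℝ) - a i) : ℝ) : ℂ)) *
      ((‖φ x‖ ^ 2 : ℝ) : ℂ)‖ = ‖φ x‖ ^ 2 := by
  rw [norm_mul, mul_comm Complex.I, Complex.norm_exp_ofReal_mul_I, one_mul, Complex.norm_real,
    Real.norm_of_nonneg (sq_nonneg _)]

theorem pd_bd (r : ℝ) (κ : Fin d → ℝ) (a : Zd d) (φ : Zd d → ℂ)
    (hφ : HasSum (fun x => ‖φ x‖ ^ 2) 1) : ‖pd r κ a φ‖ ≤ 1 := by
  unfold pd
  exact tsum_of_norm_bounded hφ fun x => (pd_term r κ a φ x).le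

theorem pd_meas (h : Evo d V a ψ) (r : ℝ) (κ : Fin d → ℝ) (b : Zd d) :
    Measurable fun s => pd r κ b (ψ s) := by
  have hc : ∀ x, Continuous fun s => ψ s x := fun x =>
    continuous_iff_continuousAt.2 fun s => (h.ode s x).continuousAt
  refine measurable_of_tendsto_metrizable' (u := (atTop : Filter (Finset (Zd d))))
    (f := fun F s => ∑ x ∈ F, Complex.exp (Complex.I *
      ((∑ i, κ i * r * ((x i : ℝ) - b i) : ℝ) : ℂ)) * ((‖ψ s x‖ ^ 2 : ℝ) : ℂ)) (fun F => ?_) ?_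
  · apply Continuous.measurable
    refine continuous_finsetSum _ fun x _ => ?_
    have := hc x
    fun_prop
  · rw [tendsto_pi_nhds]
    intro s
    have h1 : Summable fun x => Complex.exp (Complex.I *
        ((∑ i, κ i * r * ((x i : ℝ) - b i) : ℝ) : ℂ)) * ((‖ψ s x‖ ^ 2 : ℝ) : ℂ) :=
      Summable.of_norm ((h.norm s).summable.congr fun x => (pd_term r κ b (ψ s) x).symm)
    exact h1.hasSum

/-- the substitution -/
theorem subst_T (F : ℝ → ℂ) (t lam : ℝ) (ht : 0 < t) :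
    ∫ τ in Ioi (0 : ℝ), ((Real.exp (-lam * τ) : ℝ) : ℂ) * F (1 / (2 * t) * τ) =
      ((2 * t : ℝ) : ℂ) * ∫ s in Ioi (0 : ℝ), ((Real.exp (-(2 * (lam * t)) * s) : ℝ) : ℂ) *
        F s := by
  have h1 := integral_comp_mul_left_Ioi (fun s : ℝ =>
    ((Real.exp (-(2 * (lam * t)) * s) : ℝ) : ℂ) * F s) 0 (b := 1 / (2 * t)) (by positivity)
  have e1 : ∀ τ : ℝ, Real.exp (-(2 * (lam * t)) * (1 / (2 * t) * τ)) = Real.exp (-lam * τ) := by
    intro τ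
    congr 1
    field_simp
  simp only [e1, mul_zero] at h1
  rw [h1, one_div, inv_inv, Complex.real_smul]

/-- **from the exponentials to all test functions** -/
theorem tau_det (hO : S_OSC) (hd : 3 ≤ d) (h : Evo d V a ψ) (t : ℝ) (ht : 0 < t) (r : ℝ)
    (κ : Fin d → ℝ) (g : ℝ → ℝ) (hg : Continuous g) (l : ℝ)
    (hl : Tendsto (fun τ => Real.exp τ * g τ) atTop (𝓝 l)) (ε : ℝ) (J : ℕ) (η : ℝ) (hη : 0 < η)
    (habs : ∀ D : ℝ → ℂ,
      AEStronglyMeasurable D (volume.restrict (Ioi (0 : ℝ))) → (∀ τ : ℝ, 0 < τ → ‖D τ‖ ≤ 2) →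
      (∀ j : ℕ, j < J → ‖∫ τ in Ioi (0 : ℝ), ((Real.exp (-((j : ℝ) + 1) * τ) : ℝ) : ℂ) * D τ‖ ≤
        η) →
      ‖∫ τ in Ioi (0 : ℝ), ((g τ : ℝ) : ℂ) * D τ‖ ≤ ε)
    (hlaw : ∀ j : ℕ, j < J → ‖((2 * (((j : ℝ) + 1) * t) : ℝ) : ℂ) * (∫ s in Ioi (0 : ℝ),
      ((Real.exp (-(2 * (((j : ℝ) + 1) * t)) * s) : ℝ) : ℂ) * pd r κ a (ψ s)) -
      ((1 / Real.pi * ∫ E in (-(3 * d : ℝ))..(3 * d), pf d ((∑ i, κ i ^ 2) / ((j : ℝ) + 1)) E : ℝ) :
        ℂ)‖ ≤ η) :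
    ‖(∫ τ in Ioi (0 : ℝ), ((g τ : ℝ) : ℂ) * pd r κ a (ψ (1 / (2 * t) * τ))) -
      ((∫ τ in Ioi (0 : ℝ), g τ * lm d (∑ i, κ i ^ 2) τ : ℝ) : ℂ)‖ ≤ ε := by
  obtain ⟨K, hK⟩ : ∃ K, K = ∑ i, κ i ^ 2 := ⟨_, rfl⟩
  have hK0 : 0 ≤ K := by rw [hK]; exact Finset.sum_nonneg fun i _ => sq_nonneg _
  rw [← hK] at hlaw ⊢
  obtain ⟨F, hF⟩ : ∃ F : ℝ → ℂ, F = fun τ => pd r κ a (ψ (1 / (2 * t) * τ)) := ⟨_, rfl⟩
  have hFm : Measurable F := by
    rw [hF]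
    exact (pd_meas h r κ a).comp (measurable_const_mul (1 / (2 * t)))
  have hFb : ∀ τ : ℝ, 0 < τ → ‖F τ‖ ≤ 1 := by
    intro τ _
    rw [hF]
    exact pd_bd r κ a _ (h.norm _)
  have hmm : Measurable fun τ => ((lm d K τ : ℝ) : ℂ) :=
    Complex.measurable_ofReal.comp (lm_meas hO d hd K).measurable
  have hmb : ∀ τ : ℝ, 0 < τ → ‖((lm d K τ : ℝ) : ℂ)‖ ≤ 1 := by
    intro τ hτ
    rw [Complex.norm_real, Real.norm_eq_abs]
    exact lm_bd hO d hd K τ hK0 hτ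
  have key := habs (fun τ => F τ - ((lm d K τ : ℝ) : ℂ)) (hFm.sub hmm).aestronglyMeasurable
    (fun τ hτ => (norm_sub_le _ _).trans (by linarith [hFb τ hτ, hmb τ hτ])) ?_
  · -- the integrability against `g`
    obtain ⟨C, hC0, hC⟩ : ∃ C : ℝ, 0 ≤ C ∧ ∀ τ : ℝ, 0 < τ → |g τ| ≤ C * Real.exp (-1 * τ) := by
      have h1 : ContinuousOn (hh g l) (Icc 0 1) := hh_cont g hg l hl
      obtain ⟨C, hC⟩ := isCompact_Icc.exists_bound_of_continuousOn h1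
      refine ⟨max C 0, le_max_right _ _, fun τ hτ => ?_⟩
      have h2 := hC (Real.exp (-τ)) ⟨(Real.exp_pos _).le, Real.exp_le_one_iff.2 (by linarith)⟩
      rw [hh_exp g l τ, abs_mul, abs_of_pos (Real.exp_pos _), neg_one_mul, mul_comm]
      rw [Real.norm_eq_abs] at h2
      exact mul_le_mul_of_nonneg_right (h2.trans (le_max_left _ _)) (Real.exp_pos _).le
    have i1 := (bdd_int F 1 hFm.aestronglyMeasurable hFb g hg C 1 one_pos hC0 hC).1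
    have i2 := (bdd_int _ 1 hmm.aestronglyMeasurable hmb g hg C 1 one_pos hC0 hC).1
    have e1 : ∀ τ : ℝ, ((g τ : ℝ) : ℂ) * (F τ - ((lm d K τ : ℝ) : ℂ)) =
        ((g τ : ℝ) : ℂ) * F τ - ((g τ : ℝ) : ℂ) * ((lm d K τ : ℝ) : ℂ) := fun τ => mul_sub _ _ _
    simp only [e1] at key
    rw [integral_sub i1 i2] at key
    have e2 : ∀ τ : ℝ, ((g τ : ℝ) : ℂ) * ((lm d K τ : ℝ) : ℂ) = ((g τ * lm d K τ : ℝ) : ℂ) :=
      fun τ => by push_cast; rfl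
    simp only [e2] at key
    rw [integral_complex_ofReal, hF] at key
    exact key
  · intro j hj
    have hj0 : (0 : ℝ) < (j : ℝ) + 1 := by positivity
    have i1 := (bdd_int F 1 hFm.aestronglyMeasurable hFb
      (fun τ => Real.exp (-((j : ℝ) + 1) * τ)) (by fun_prop) 1 ((j : ℝ) + 1) hj0 zero_le_one
      (fun τ _ => by rw [abs_of_pos (Real.exp_pos _), one_mul])).1
    have i2 := (bdd_int _ 1 hmm.aestronglyMeasurable hmb
      (fun τ => Real.exp (-((j : ℝ) + 1) * τ)) (by fun_prop) 1 ((j : ℝ) + 1) hj0 zero_le_one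
      (fun τ _ => by rw [abs_of_pos (Real.exp_pos _), one_mul])).1
    simp only [mul_sub]
    rw [integral_sub i1 i2]
    have e1 : ∫ τ in Ioi (0 : ℝ), ((Real.exp (-((j : ℝ) + 1) * τ) : ℝ) : ℂ) * F τ =
        ((2 * t : ℝ) : ℂ) * ∫ s in Ioi (0 : ℝ),
          ((Real.exp (-(2 * (((j : ℝ) + 1) * t)) * s) : ℝ) : ℂ) * pd r κ a (ψ s) := by
      rw [hF]
      exact subst_T (fun s => pd r κ a (ψ s)) t ((j : ℝ) + 1) ht
    have e2 : ∫ τ in Ioi (0 : ℝ), ((Real.exp (-((j : ℝ) + 1) * τ) : ℝ) : ℂ) *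
        ((lm d K τ : ℝ) : ℂ) = ((1 / ((j : ℝ) + 1) * (1 / Real.pi *
          ∫ E in (-(3 * d : ℝ))..(3 * d), pf d (K / ((j : ℝ) + 1)) E) : ℝ) : ℂ) := by
      rw [← lm_lap hO d hd K ((j : ℝ) + 1) hK0 hj0, ← integral_complex_ofReal]
      refine integral_congr_ae (Filter.Eventually.of_forall fun τ => ?_)
      simp only
      push_cast
      rfl
    rw [e1, e2]
    have h1 := hlaw j hj
    have e3 : ((2 * t : ℝ) : ℂ) * (∫ s in Ioi (0 : ℝ),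
          ((Real.exp (-(2 * (((j : ℝ) + 1) * t)) * s) : ℝ) : ℂ) * pd r κ a (ψ s)) -
        ((1 / ((j : ℝ) + 1) * (1 / Real.pi *
          ∫ E in (-(3 * d : ℝ))..(3 * d), pf d (K / ((j : ℝ) + 1)) E) : ℝ) : ℂ) =
        ((1 / ((j : ℝ) + 1) : ℝ) : ℂ) * (((2 * (((j : ℝ) + 1) * t) : ℝ) : ℂ) *
          (∫ s in Ioi (0 : ℝ), ((Real.exp (-(2 * (((j : ℝ) + 1) * t)) * s) : ℝ) : ℂ) *
            pd r κ a (ψ s)) -
          ((1 / Real.pi * ∫ E in (-(3 * d : ℝ))..(3 * d), pf d (K / ((j : ℝ) + 1)) E : ℝ) :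
            ℂ)) := by
      have hj1 : ((j : ℂ) + 1) ≠ 0 := by exact_mod_cast hj0.ne'
      push_cast
      field_simp
    rw [e3, norm_mul, Complex.norm_real, Real.norm_of_nonneg (by positivity)]
    have h2 : 1 / ((j : ℝ) + 1) ≤ 1 := by
      rw [div_le_one hj0]
      have : (0 : ℝ) ≤ j := Nat.cast_nonneg j
      linarith
    calc 1 / ((j : ℝ) + 1) * _ ≤ 1 * η := mul_le_mul h2 h1 (norm_nonneg _) zero_le_one
      _ = η := one_mul _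

/-- thresholds -/
theorem thr (N : ℕ) (hN : 1 ≤ N) : ∃ s1 : ℝ, 0 < s1 ∧ ∀ x : ℝ, 0 < x → x ≤ s1 →
    x ^ (-(1 / 160) : ℝ) ≤ (N * x) ^ (-(1 / 150) : ℝ) ∧
    N * Real.exp (-(N * x) ^ (-(1 / 150) : ℝ)) ≤ Real.exp (-x ^ (-(1 / 160) : ℝ)) := by
  have hN1 : (1 : ℝ) ≤ N := by exact_mod_cast hN
  have hN0 : (0 : ℝ) < N := by linarith
  refine ⟨((N : ℝ) * (N + 1)) ^ (-2400 : ℝ), by positivity, ?_⟩
  intro x hx hx1
  obtain ⟨y, hy⟩ : ∃ y, y = x ^ (-(1 / 2400) : ℝ) := ⟨_, rfl⟩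
  have hy0 : 0 < y := by rw [hy]; positivity
  have hyN : (N : ℝ) * (N + 1) ≤ y := by
    have h1 := Real.rpow_le_rpow_of_nonpos hx hx1 (show (-(1 / 2400) : ℝ) ≤ 0 by norm_num)
    rw [← Real.rpow_mul (by positivity)] at h1
    norm_num at h1
    rw [hy]
    norm_num
    exact h1
  have hy1 : 1 ≤ y := by nlinarith
  have e15 : x ^ (-(1 / 160) : ℝ) = y ^ 15 := by
    rw [hy, ← Real.rpow_natCast, ← Real.rpow_mul hx.le]
    norm_num
  have e16 : x ^ (-(1 / 150) : ℝ) = y ^ 16 := by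
    rw [hy, ← Real.rpow_natCast, ← Real.rpow_mul hx.le]
    norm_num
  have hNp : (N : ℝ)⁻¹ ≤ (N : ℝ) ^ (-(1 / 150) : ℝ) := by
    rw [← Real.rpow_neg_one]
    exact Real.rpow_le_rpow_of_exponent_le hN1 (by norm_num)
  have h2 : y ^ 15 + N ≤ (N * x) ^ (-(1 / 150) : ℝ) := by
    rw [Real.mul_rpow hN0.le hx.le, e16]
    have h3 : 1 ≤ y ^ 15 := one_le_pow₀ hy1
    calc y ^ 15 + N ≤ (N + 1) * y ^ 15 := by nlinarith
      _ = (N : ℝ)⁻¹ * ((N * (N + 1)) * y ^ 15) := by field_simp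
      _ ≤ (N : ℝ)⁻¹ * (y * y ^ 15) := by gcongr
      _ = (N : ℝ)⁻¹ * y ^ 16 := by ring
      _ ≤ _ := by gcongr
  constructor
  · rw [e15]
    linarith
  · rw [e15]
    have h4 : (N : ℝ) ≤ Real.exp N := by
      have := Real.add_one_le_exp (N : ℝ)
      linarith
    calc (N : ℝ) * Real.exp (-(N * x) ^ (-(1 / 150) : ℝ)) ≤
        Real.exp N * Real.exp (-(y ^ 15 + N)) := by gcongr
      _ = Real.exp (-y ^ 15) := by
        rw [← Real.exp_add]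
        congr 1
        ring

theorem min_fin (f : ℕ → ℝ) (hf : ∀ j, 0 < f j) (J : ℕ) : ∃ m : ℝ, 0 < m ∧ ∀ j < J, m ≤ f j := by
  induction J with
  | zero => exact ⟨1, one_pos, fun j hj => absurd hj (Nat.not_lt_zero j)⟩
  | succ J ih =>
    obtain ⟨m, hm, h⟩ := ih
    refine ⟨min m (f J), lt_min hm (hf J), fun j hj => ?_⟩
    rcases Nat.lt_succ_iff_lt_or_eq.1 hj with h1 | h1
    · exact (min_le_left _ _).trans (h j h1)
    · rw [h1]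
      exact min_le_right _ _

end Pool.Agent.TH791.QD
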