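import Pool.Agent.TH791.QD.TauC

/-! The final theorem: all test functions of the macroscopic time. -/

set_option autoImplicit false
set_option linter.unusedSectionVars false

open scoped BigOperators Topology
open MeasureTheory Filter Set

namespace Pool.Agent.TH791.QD

open Pool.Agent.W788.BK (S_OSC)
open Pool.Agent.H4R2.LO (Zd)

/-- **the final theorem** -/
theorem finalU (d : ℕ) (hd : 3 ≤ d) (A v c ε : ℝ) (hA : 0 < A) (hv : 0 < v) (hc : 0 < c)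
    (hε : 0 < ε) (g : ℝ → ℝ) (hg : Continuous g) (l : ℝ)
    (hl : Tendsto (fun τ => Real.exp τ * g τ) atTop (𝓝 l)) :
    ∃ s0 : ℝ, 0 < s0 ∧ ∀ (μ : Measure ℝ), IsProbabilityMeasure μ →
      (∀ r : ℝ, 0 ≤ r → μ.real {s | r < |s|} ≤ A * Real.exp (-r)) →
      ∀ M V : ℝ, ∫ s, s ∂μ = M → ∫ s, (s - M) ^ 2 ∂μ = V → v ≤ V →
      ∀ σ : ℝ, 0 < |σ| → |σ| ≤ s0 → ∀ (t : ℝ), t = |σ| ^ (81 / 40 : ℝ) →
      ∃ G : Set (Zd d → ℝ), MeasurableSet G ∧
        1 - Real.exp (-|σ| ^ (-(1 / 160) : ℝ)) ≤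
          (Measure.infinitePi fun _ : Zd d => μ).real G ∧
        ∀ ξ ∈ G, ∀ a : Zd d, ‖a‖ ≤ Real.exp (|σ| ^ (-(1 / 160) : ℝ)) →
          (∀ (E : ℝ) (u : Zd d → ℂ),
          GS d (fun x => σ * ξ x) ((E : ℂ) + (t : ℂ) * Complex.I) a u →
          (∀ γ : ℂ, c ≤ γ.im → ∀ w : Zd d → ℂ,
            GS d (fun _ => 0) (((E - σ * M : ℝ) : ℂ) + (t : ℂ) * Complex.I +
              ((σ ^ 2 * V : ℝ) : ℂ) * γ) 0 w → w 0 = γ →
            ∀ q : Fin d → ℝ,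
            ‖(t : ℂ) * ∑' x : Zd d, Complex.exp (Complex.I *
                ((∑ i, q i * ((x i : ℝ) - a i) : ℝ) : ℂ)) * ((‖u x‖ ^ 2 : ℝ) : ℂ) -
              ((t / (σ ^ 2 * V) *
                ((σ ^ 2 * V * ∑' x : Zd d, Real.cos (∑ i, q i * x i) * ‖w x‖ ^ 2) /
                (1 - σ ^ 2 * V * ∑' x : Zd d, Real.cos (∑ i, q i * x i) * ‖w x‖ ^ 2)) : ℝ) : ℂ)‖ ≤
              |σ| ^ (1 / 100 : ℝ)) ∧
          (c ≤ nn0 d E → ∀ κ : Fin d → ℝ,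
            ∑ i, κ i ^ 2 ≤ |σ| ^ (-(1 / 500) : ℝ) →
            ‖(t : ℂ) * ∑' x : Zd d, Complex.exp (Complex.I *
                ((∑ i, κ i * Real.sqrt (t * (σ ^ 2 * V)) * ((x i : ℝ) - a i) : ℝ) : ℂ)) *
                  ((‖u x‖ ^ 2 : ℝ) : ℂ) -
              ((pf d (∑ i, κ i ^ 2) E : ℝ) : ℂ)‖ ≤ |σ| ^ (1 / 200 : ℝ))) ∧
          ∀ ψ : ℝ → Zd d → ℂ, Evo d (fun x => σ * ξ x) a ψ → ∀ κ : Fin d → ℝ,
            ∑ i, κ i ^ 2 ≤ |σ| ^ (-(1 / 500) : ℝ) →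
            ‖(∫ τ in Ioi (0 : ℝ), ((g τ : ℝ) : ℂ) *
                pd (Real.sqrt (t * (σ ^ 2 * V))) κ a (ψ (1 / (2 * t) * τ))) -
              ((∫ τ in Ioi (0 : ℝ), g τ * lm d (∑ i, κ i ^ 2) τ : ℝ) : ℂ)‖ ≤ ε := by
  have hO : S_OSC := Pool.Agent.W918.BK.Osc.osc
  obtain ⟨J, η, hη, habs⟩ := tau_abs g hg l hl ε hε
  obtain ⟨sB, hsB, hB⟩ := finalT d hd A v c 1 hA hv hc one_pos
  have hex := fun j : ℕ => time_scaled d hd A v η hA hv hη ((j : ℝ) + 1)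
    (by have : (0 : ℝ) ≤ j := Nat.cast_nonneg j; linarith)
  choose sj hsj hj using hex
  obtain ⟨m, hm, hmj⟩ := min_fin sj hsj J
  obtain ⟨s1, hs1, hthr⟩ := thr (J + 1) (by omega)
  refine ⟨min (min sB m) s1, lt_min (lt_min hsB hm) hs1, ?_⟩
  intro μ hμ htail M V hM hV hvV σ hσ hσ0 t ht
  have ht0 : 0 < t := by rw [ht]; positivity
  have hσB : |σ| ≤ sB := hσ0.trans ((min_le_left _ _).trans (min_le_left _ _))
  have hσm : |σ| ≤ m := hσ0.trans ((min_le_left _ _).trans (min_le_right _ _))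
  have hσ1 : |σ| ≤ s1 := hσ0.trans (min_le_right _ _)
  obtain ⟨th1, th2⟩ := hthr |σ| hσ hσ1
  obtain ⟨GB, hGB, hPB, hbB⟩ := hB μ hμ htail M V hM hV hvV σ hσ hσB t ht
  have hG : ∀ j : ℕ, ∃ G : Set (Zd d → ℝ), j < J → (MeasurableSet G ∧
        1 - Real.exp (-(((j : ℝ) + 1) * |σ|) ^ (-(1 / 150) : ℝ)) ≤
          (Measure.infinitePi fun _ : Zd d => μ).real G ∧
        ∀ ξ ∈ G, ∀ a : Zd d, ‖a‖ ≤ Real.exp ((((j : ℝ) + 1) * |σ|) ^ (-(1 / 150) : ℝ)) →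
          ∀ ψ : ℝ → Zd d → ℂ, Evo d (fun x => σ * ξ x) a ψ → ∀ κ : Fin d → ℝ,
            ∑ i, κ i ^ 2 ≤ |σ| ^ (-(1 / 500) : ℝ) →
            ‖((2 * (((j : ℝ) + 1) * t) : ℝ) : ℂ) * (∫ s in Ioi (0 : ℝ),
              ((Real.exp (-(2 * (((j : ℝ) + 1) * t)) * s) : ℝ) : ℂ) *
                pd (Real.sqrt (t * (σ ^ 2 * V))) κ a (ψ s)) -
              ((1 / Real.pi * ∫ E in (-(3 * d : ℝ))..(3 * d),
                pf d ((∑ i, κ i ^ 2) / ((j : ℝ) + 1)) E : ℝ) : ℂ)‖ ≤ η) := by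
    intro j
    by_cases h : j < J
    · obtain ⟨G, h1⟩ := hj j μ hμ htail M V hM hV hvV σ hσ (hσm.trans (hmj j h)) t ht
      exact ⟨G, fun _ => h1⟩
    · exact ⟨univ, fun h' => absurd h' h⟩
  choose Gj hGj using hG
  obtain ⟨GJ, hGJ⟩ : ∃ GJ, GJ = ⋂ j ∈ Finset.range J, Gj j := ⟨_, rfl⟩
  have hGJm : MeasurableSet GJ := by
    rw [hGJ]
    exact Finset.measurableSet_biInter _ fun j hj => (hGj j (Finset.mem_range.1 hj)).1
  have hexp : ∀ x : ℝ, 1 ≤ x → x ≤ (J : ℝ) + 1 → Real.exp (-(x * |σ|) ^ (-(1 / 150) : ℝ)) ≤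
      Real.exp (-((((J + 1 : ℕ) : ℝ)) * |σ|) ^ (-(1 / 150) : ℝ)) := by
    intro x hx hx1
    apply Real.exp_le_exp.2
    apply neg_le_neg
    apply Real.rpow_le_rpow_of_nonpos (by positivity) _ (by norm_num)
    push_cast
    gcongr
  have hPJ : (Measure.infinitePi fun _ : Zd d => μ).real GJᶜ ≤
      J * Real.exp (-((((J + 1 : ℕ) : ℝ)) * |σ|) ^ (-(1 / 150) : ℝ)) := by
    rw [hGJ]
    simp only [compl_iInter]
    refine (measureReal_biUnion_finset_le _ _).trans ?_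
    refine (Finset.sum_le_sum (g := fun _ =>
      Real.exp (-((((J + 1 : ℕ) : ℝ)) * |σ|) ^ (-(1 / 150) : ℝ))) fun j hj => ?_).trans
      (le_of_eq ?_)
    · have hj' := Finset.mem_range.1 hj
      have h1 := hGj j hj'
      have h2 := probReal_add_probReal_compl (μ := Measure.infinitePi fun _ : Zd d => μ) h1.1
      have h3 := h1.2.1
      have h4 : (j : ℝ) + 1 ≤ (J : ℝ) + 1 := by
        have : (j : ℝ) < J := by exact_mod_cast hj'
        linarith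
      have h5 : (1 : ℝ) ≤ (j : ℝ) + 1 := by
        have : (0 : ℝ) ≤ j := Nat.cast_nonneg j
        linarith
      have h6 := hexp _ h5 h4
      linarith
    · rw [Finset.sum_const, Finset.card_range, nsmul_eq_mul]
  have h1σ := hexp 1 le_rfl (by
    have : (0 : ℝ) ≤ J := Nat.cast_nonneg J
    linarith)
  rw [one_mul] at h1σ
  have hR : ∀ x : ℝ, 1 ≤ x → x ≤ (J : ℝ) + 1 → Real.exp (|σ| ^ (-(1 / 160) : ℝ)) ≤
      Real.exp ((x * |σ|) ^ (-(1 / 150) : ℝ)) := by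
    intro x hx hx1
    have h2 := hexp x hx hx1
    rw [Real.exp_le_exp] at h2 ⊢
    linarith
  refine ⟨GB ∩ GJ, hGB.inter hGJm, ?_, ?_⟩
  · have h1 := probReal_add_probReal_compl (μ := Measure.infinitePi fun _ : Zd d => μ)
      (hGB.inter hGJm)
    have h2 := probReal_add_probReal_compl (μ := Measure.infinitePi fun _ : Zd d => μ) hGB
    have h3 : (Measure.infinitePi fun _ : Zd d => μ).real (GB ∩ GJ)ᶜ ≤
        (Measure.infinitePi fun _ : Zd d => μ).real GBᶜ +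
        (Measure.infinitePi fun _ : Zd d => μ).real GJᶜ := by
      rw [compl_inter]
      exact measureReal_union_le _ _
    push_cast at th2 hPJ h1σ
    have h4 : ((J : ℝ) + 1) * Real.exp (-(((J : ℝ) + 1) * |σ|) ^ (-(1 / 150) : ℝ)) =
        J * Real.exp (-(((J : ℝ) + 1) * |σ|) ^ (-(1 / 150) : ℝ)) +
        Real.exp (-(((J : ℝ) + 1) * |σ|) ^ (-(1 / 150) : ℝ)) := by ring
    linarith
  · intro ξ hξ a ha
    have ha1 : ‖a‖ ≤ Real.exp (|σ| ^ (-(1 / 150) : ℝ)) := by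
      have := hR 1 le_rfl (by
        have : (0 : ℝ) ≤ J := Nat.cast_nonneg J
        linarith)
      rw [one_mul] at this
      exact ha.trans this
    refine ⟨(hbB ξ hξ.1 a ha1).1, fun ψ hψ κ hκ => ?_⟩
    refine tau_det hO hd hψ t ht0 (Real.sqrt (t * (σ ^ 2 * V))) κ g hg l hl ε J η hη habs
      fun j hj => ?_
    have h1 := hGj j hj
    have h2 : ξ ∈ Gj j := by
      have := hξ.2
      rw [hGJ] at this
      exact mem_iInter₂.1 this j (Finset.mem_range.2 hj)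
    have h4 : (j : ℝ) + 1 ≤ (J : ℝ) + 1 := by
      have : (j : ℝ) < J := by exact_mod_cast hj
      linarith
    have h5 : (1 : ℝ) ≤ (j : ℝ) + 1 := by
      have : (0 : ℝ) ≤ j := Nat.cast_nonneg j
      linarith
    exact h1.2.2 ξ h2 a (ha.trans (hR _ h5 h4)) ψ hψ κ hκ

end Pool.Agent.TH791.QD
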