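import Pool.Agent.TH791.QD.Nrm
import Pool.Agent.TH794.QD.Lap2

/-! From the energy to the time domain. -/

set_option autoImplicit false
set_option linter.unusedSectionVars false

open scoped BigOperators Topology ENNReal
open MeasureTheory Filter Set

namespace Pool.Agent.TH791.QD

open Pool.Agent.W788.BK
open Pool.Agent.H4R2.LO (Zd)
open Pool.Agent.TH794.QD (Sol La La_sum La_tsum La_cont La_real ew ew_norm ew_cont exp_int exp_val)

variable {d : ℕ} {V : Zd d → ℝ} {a : Zd d} {φ : ℝ → Zd d → ℂ}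

theorem La_ss (h : Sol d V a φ) (E t : ℝ) (ht : 0 < t) : Summable fun x => ‖La φ E t x‖ ^ 2 := by
  refine (La_sum h E t ht).congr fun x => ?_
  rw [norm_mul, Complex.norm_I, one_mul]

/-- the total mass -/
theorem mass (h : Sol d V a φ) (t : ℝ) (ht : 0 < t) :
    Integrable (fun E => ∑' x, ‖La φ E t x‖ ^ 2) ∧ ∫ E, ∑' x, ‖La φ E t x‖ ^ 2 = Real.pi / t := by
  have hmain := La_tsum h t ht (fun _ => 1)
  simp only [one_mul] at hmain
  have hterm : ∀ c : ℂ, ‖c‖ₑ ^ 2 = ENNReal.ofReal (‖c‖ ^ 2) := by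
    intro c
    rw [ENNReal.ofReal_pow (norm_nonneg _), ofReal_norm]
  have e1 : ∀ E, (∑' x, ‖La φ E t x‖ₑ ^ 2) = ENNReal.ofReal (∑' x, ‖La φ E t x‖ ^ 2) := by
    intro E
    simp only [hterm]
    rw [ENNReal.ofReal_tsum_of_nonneg (fun x => sq_nonneg _) (La_ss h E t ht)]
  have e2 : ∀ s, (∑' x, ‖ew 0 t s * φ s x‖ₑ ^ 2) = ENNReal.ofReal (Real.exp (-(2 * t) * s)) := by
    intro s
    simp only [hterm]
    have e3 : ∀ x, ‖ew 0 t s * φ s x‖ ^ 2 = Real.exp (-(2 * t) * s) * ‖φ s x‖ ^ 2 := by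
      intro x
      rw [norm_mul, ew_norm, mul_pow, ← Real.exp_nat_mul]
      congr 2
      push_cast
      ring
    simp only [e3]
    have hs := (h.norm s).mul_left (Real.exp (-(2 * t) * s))
    rw [← ENNReal.ofReal_tsum_of_nonneg (fun x => by positivity) hs.summable, hs.tsum_eq, mul_one]
  simp only [e1, e2] at hmain
  have e4 : ∫⁻ s in Ioi (0 : ℝ), ENNReal.ofReal (Real.exp (-(2 * t) * s)) =
      ENNReal.ofReal ((2 * t)⁻¹) := by
    rw [← ofReal_integral_eq_lintegral_ofReal (exp_int (2 * t) (by positivity))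
      (Filter.Eventually.of_forall fun s => (Real.exp_pos _).le), exp_val (2 * t) (by positivity)]
  rw [e4, ← ENNReal.ofReal_mul (by positivity)] at hmain
  have hmeas : AEStronglyMeasurable (fun E => ∑' x, ‖La φ E t x‖ ^ 2) volume := by
    have m1 : Measurable fun E => ∑' x, ‖La φ E t x‖ₑ ^ 2 :=
      Measurable.ennreal_tsum fun x => (La_cont h t ht x).enorm.measurable.pow_const 2
    have m2 : Measurable fun E => (∑' x, ‖La φ E t x‖ₑ ^ 2).toReal := m1.ennreal_toReal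
    refine m2.aestronglyMeasurable.congr (Filter.Eventually.of_forall fun E => ?_)
    simp only
    rw [e1, ENNReal.toReal_ofReal (tsum_nonneg fun x => sq_nonneg _)]
  have h0 : 0 ≤ᵐ[volume] fun E => ∑' x, ‖La φ E t x‖ ^ 2 :=
    Filter.Eventually.of_forall fun E => tsum_nonneg fun x => sq_nonneg _
  refine ⟨?_, ?_⟩
  · rw [← lintegral_ofReal_ne_top_iff_integrable hmeas h0, hmain]
    exact ENNReal.ofReal_ne_top
  · rw [integral_eq_lintegral_of_nonneg_ae h0 hmeas, hmain, ENNReal.toReal_ofReal (by positivity)]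
    field_simp

/-- splitting of the characteristic function -/
theorem cexp_split (f : Zd d → ℝ) (hf : Summable f) (hf0 : ∀ x, 0 ≤ f x) (θ : Zd d → ℝ) :
    ∑' x, Complex.exp (Complex.I * ((θ x : ℝ) : ℂ)) * ((f x : ℝ) : ℂ) =
      ((∑' x, (1 + Real.cos (θ x)) * f x : ℝ) : ℂ) +
      Complex.I * ((∑' x, (1 + Real.sin (θ x)) * f x : ℝ) : ℂ) -
      (1 + Complex.I) * ((∑' x, 1 * f x : ℝ) : ℂ) := by
  have hb : ∀ g : Zd d → ℝ, (∀ x, |g x| ≤ 2) → Summable fun x => g x * f x := by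
    intro g hg
    refine Summable.of_norm_bounded (g := fun x => 2 * f x) (hf.mul_left 2) fun x => ?_
    rw [norm_mul, Real.norm_eq_abs, Real.norm_of_nonneg (hf0 x)]
    exact mul_le_mul_of_nonneg_right (hg x) (hf0 x)
  have s1 := hb (fun x => 1 + Real.cos (θ x)) fun x => by
    have h1 := Real.neg_one_le_cos (θ x)
    have h2 := Real.cos_le_one (θ x)
    rw [abs_of_nonneg (by linarith)]
    linarith
  have s2 := hb (fun x => 1 + Real.sin (θ x)) fun x => by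
    have h1 := Real.neg_one_le_sin (θ x)
    have h2 := Real.sin_le_one (θ x)
    rw [abs_of_nonneg (by linarith)]
    linarith
  have s3 := hb (fun _ => 1) fun x => by norm_num
  have t1 := Complex.hasSum_ofReal.2 s1.hasSum
  have t2 := (Complex.hasSum_ofReal.2 s2.hasSum).mul_left Complex.I
  have t3 := (Complex.hasSum_ofReal.2 s3.hasSum).mul_left (1 + Complex.I)
  have t4 := (t1.add t2).sub t3
  rw [← t4.tsum_eq]
  refine tsum_congr fun x => ?_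
  rw [mul_comm Complex.I, Complex.exp_mul_I]
  push_cast
  ring

theorem w_ok (θ : Zd d → ℝ) : (∀ x, 0 ≤ 1 + Real.cos (θ x)) ∧ (∀ x, 0 ≤ 1 + Real.sin (θ x)) ∧
    (∀ x, 1 + Real.cos (θ x) ≤ 2) ∧ (∀ x, 1 + Real.sin (θ x) ≤ 2) := by
  refine ⟨fun x => ?_, fun x => ?_, fun x => ?_, fun x => ?_⟩
  · have := Real.neg_one_le_cos (θ x)
    linarith
  · have := Real.neg_one_le_sin (θ x)
    linarith
  · have := Real.cos_le_one (θ x)
    linarith
  · have := Real.sin_le_one (θ x)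
    linarith

/-- one weight -/
theorem one_w (h : Sol d V a φ) (t : ℝ) (ht : 0 < t) (w : Zd d → ℝ) (hw : ∀ x, 0 ≤ w x)
    (hw2 : ∀ x, w x ≤ 2) :
    Integrable (fun E => ∑' x, w x * ‖La φ E t x‖ ^ 2) ∧
    IntegrableOn (fun s => Real.exp (-(2 * t) * s) * ∑' x, w x * ‖φ s x‖ ^ 2) (Ioi 0) ∧
    ∫ E, ∑' x, w x * ‖La φ E t x‖ ^ 2 =
      2 * Real.pi * ∫ s in Ioi (0 : ℝ), Real.exp (-(2 * t) * s) * ∑' x, w x * ‖φ s x‖ ^ 2 := by
  have hs : ∀ E, Summable fun x => w x * ‖La φ E t x‖ ^ 2 := by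
    intro E
    refine Summable.of_nonneg_of_le (fun x => mul_nonneg (hw x) (sq_nonneg _))
      (fun x => mul_le_mul_of_nonneg_right (hw2 x) (sq_nonneg _)) ((La_ss h E t ht).mul_left 2)
  obtain ⟨i1, i2, -, i3⟩ := La_real h t ht w hw hs (fun E => 2 * ∑' x, ‖La φ E t x‖ ^ 2)
    ((mass h t ht).1.const_mul 2) (fun E => by
      rw [← tsum_mul_left]
      exact (hs E).tsum_le_tsum (fun x => mul_le_mul_of_nonneg_right (hw2 x) (sq_nonneg _))
        ((La_ss h E t ht).mul_left 2))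
  exact ⟨i1, i2, i3⟩

theorem int3 (μ : Measure ℝ) (f g h : ℝ → ℝ) (hf : Integrable f μ) (hg : Integrable g μ)
    (hh : Integrable h μ) :
    Integrable (fun x => ((f x : ℝ) : ℂ) + Complex.I * ((g x : ℝ) : ℂ) -
      (1 + Complex.I) * ((h x : ℝ) : ℂ)) μ ∧
    ∫ x, (((f x : ℝ) : ℂ) + Complex.I * ((g x : ℝ) : ℂ) - (1 + Complex.I) * ((h x : ℝ) : ℂ)) ∂μ =
      ((∫ x, f x ∂μ : ℝ) : ℂ) + Complex.I * ((∫ x, g x ∂μ : ℝ) : ℂ) -
        (1 + Complex.I) * ((∫ x, h x ∂μ : ℝ) : ℂ) := by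
  have A1 : Integrable (fun x => ((f x : ℝ) : ℂ)) μ := hf.ofReal
  have B1 : Integrable (fun x => Complex.I * ((g x : ℝ) : ℂ)) μ := hg.ofReal.const_mul Complex.I
  have C1 : Integrable (fun x => (1 + Complex.I) * ((h x : ℝ) : ℂ)) μ :=
    hh.ofReal.const_mul (1 + Complex.I)
  have D1 : Integrable (fun x => ((f x : ℝ) : ℂ) + Complex.I * ((g x : ℝ) : ℂ)) μ := A1.add B1
  refine ⟨D1.sub C1, ?_⟩
  rw [integral_sub D1 C1, integral_add A1 B1, integral_const_mul, integral_const_mul,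
    integral_complex_ofReal, integral_complex_ofReal, integral_complex_ofReal]

/-- **the characteristic function of the position** -/
theorem char_id (h : Sol d V a φ) (t : ℝ) (ht : 0 < t) (θ : Zd d → ℝ) :
    Integrable (fun E => ∑' x, Complex.exp (Complex.I * ((θ x : ℝ) : ℂ)) *
      ((‖La φ E t x‖ ^ 2 : ℝ) : ℂ)) ∧
    ∫ E, ∑' x, Complex.exp (Complex.I * ((θ x : ℝ) : ℂ)) * ((‖La φ E t x‖ ^ 2 : ℝ) : ℂ) =
      2 * Real.pi * ∫ s in Ioi (0 : ℝ), ((Real.exp (-(2 * t) * s) : ℝ) : ℂ) *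
        ∑' x, Complex.exp (Complex.I * ((θ x : ℝ) : ℂ)) * ((‖φ s x‖ ^ 2 : ℝ) : ℂ) := by
  obtain ⟨w1, w2, w3, w4⟩ := w_ok θ
  obtain ⟨a1, a2, a3⟩ := one_w h t ht (fun x => 1 + Real.cos (θ x)) w1 w3
  obtain ⟨b1, b2, b3⟩ := one_w h t ht (fun x => 1 + Real.sin (θ x)) w2 w4
  obtain ⟨c1, c2, c3⟩ := one_w h t ht (fun _ => 1) (fun x => by norm_num) (fun x => by norm_num)
  have e1 : ∀ E, ∑' x, Complex.exp (Complex.I * ((θ x : ℝ) : ℂ)) * ((‖La φ E t x‖ ^ 2 : ℝ) : ℂ) =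
      ((∑' x, (1 + Real.cos (θ x)) * ‖La φ E t x‖ ^ 2 : ℝ) : ℂ) +
      Complex.I * ((∑' x, (1 + Real.sin (θ x)) * ‖La φ E t x‖ ^ 2 : ℝ) : ℂ) -
      (1 + Complex.I) * ((∑' x, 1 * ‖La φ E t x‖ ^ 2 : ℝ) : ℂ) := fun E =>
    cexp_split (fun x => ‖La φ E t x‖ ^ 2) (La_ss h E t ht) (fun x => sq_nonneg _) θ
  have e2 : ∀ s, ((Real.exp (-(2 * t) * s) : ℝ) : ℂ) *
      ∑' x, Complex.exp (Complex.I * ((θ x : ℝ) : ℂ)) * ((‖φ s x‖ ^ 2 : ℝ) : ℂ) =
      ((Real.exp (-(2 * t) * s) * ∑' x, (1 + Real.cos (θ x)) * ‖φ s x‖ ^ 2 : ℝ) : ℂ) +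
      Complex.I * ((Real.exp (-(2 * t) * s) * ∑' x, (1 + Real.sin (θ x)) * ‖φ s x‖ ^ 2 : ℝ) : ℂ) -
      (1 + Complex.I) * ((Real.exp (-(2 * t) * s) * ∑' x, 1 * ‖φ s x‖ ^ 2 : ℝ) : ℂ) := by
    intro s
    rw [cexp_split (fun x => ‖φ s x‖ ^ 2) (h.norm s).summable (fun x => sq_nonneg _) θ]
    push_cast
    ring
  simp only [e1, e2]
  obtain ⟨j1, j2⟩ := int3 volume _ _ _ a1 b1 c1
  obtain ⟨-, j4⟩ := int3 (volume.restrict (Ioi (0 : ℝ))) _ _ _ a2 b2 c2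
  refine ⟨j1, ?_⟩
  rw [j2, j4, a3, b3, c3]
  push_cast
  ring

end Pool.Agent.TH791.QD
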