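import Pool.Agent.TH791.QD.TimD

/-! The law in the time domain. -/

set_option autoImplicit false
set_option linter.unusedSectionVars false

open scoped BigOperators Topology ENNReal
open MeasureTheory Filter Set

namespace Pool.Agent.TH791.QD

open Pool.Agent.W788.BK
open Pool.Agent.W788.LD.Spec (S)
open Pool.Agent.H4R2.LO (Zd)
open Pool.Agent.TH794.QD (Sol La La_sum La_eq)

variable {d : ℕ} {V : Zd d → ℝ} {a : Zd d}

/-- the profile -/
noncomputable def pf (d : ℕ) (K E : ℝ) : ℝ := nn0 d E / (1 + K * nn1 d E / nn0 d E ^ 2)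

theorem pf_bd (hO : S_OSC) (hd : 3 ≤ d) (K E : ℝ) (hK : 0 ≤ K) :
    0 ≤ pf d K E ∧ pf d K E ≤ nn0 d E := by
  obtain ⟨h1, h2⟩ := nn_im hO hd E
  have h0 : 0 ≤ nn0 d E := h1.trans h2
  have h3 : 1 ≤ 1 + K * nn1 d E / nn0 d E ^ 2 := by
    have : 0 ≤ K * nn1 d E / nn0 d E ^ 2 := by positivity
    linarith
  unfold pf
  exact ⟨by positivity, div_le_self h0 h3⟩

theorem pf_meas (hO : S_OSC) (hd : 3 ≤ d) (K : ℝ) : Measurable (pf d K) := by
  have h0 := (nn0_cont hO hd).measurable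
  have h1 := (nn1_cont hO hd).measurable
  unfold pf
  exact h0.div (measurable_const.add ((h1.const_mul K).div (h0.pow_const 2)))

/-- **the time domain** -/
theorem time_det {φ : ℝ → Zd d → ℂ} (hO : S_OSC) (hd : 3 ≤ d) (h : Sol d V a φ) (t : ℝ)
    (ht : 0 < t) (θ : Zd d → ℝ) (K c e5 : ℝ) (hK : 0 ≤ K) (hc : 0 ≤ c) (he5 : 0 ≤ e5)
    (hlaw : ∀ E, c ≤ nn0 d (-E) →
      ‖(t : ℂ) * ∑' x, Complex.exp (Complex.I * ((θ x : ℝ) : ℂ)) * ((‖La φ E t x‖ ^ 2 : ℝ) : ℂ) -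
        ((pf d K (-E) : ℝ) : ℂ)‖ ≤ e5)
    (hmass : ∀ E, c ≤ nn0 d (-E) → nn0 d (-E) - e5 ≤ t * ∑' x, ‖La φ E t x‖ ^ 2) :
    ‖((2 * t : ℝ) : ℂ) * (∫ s in Ioi (0 : ℝ), ((Real.exp (-(2 * t) * s) : ℝ) : ℂ) *
        ∑' x, Complex.exp (Complex.I * ((θ x : ℝ) : ℂ)) * ((‖φ s x‖ ^ 2 : ℝ) : ℂ)) -
      ((1 / Real.pi * ∫ E in (-(3 * d : ℝ))..(3 * d), pf d K E : ℝ) : ℂ)‖ ≤
      4 * d * (e5 + c) := by
  have hpi := Real.pi_gt_three
  have hd0 : (0 : ℝ) ≤ d := Nat.cast_nonneg d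
  obtain ⟨i1, i2⟩ := char_id h t ht θ
  obtain ⟨m1, m2⟩ := mass h t ht
  obtain ⟨Ψ, hΨ⟩ : ∃ Ψ : ℝ → ℂ, Ψ = fun E => (t : ℂ) *
    ∑' x, Complex.exp (Complex.I * ((θ x : ℝ) : ℂ)) * ((‖La φ E t x‖ ^ 2 : ℝ) : ℂ) := ⟨_, rfl⟩
  obtain ⟨m, hm⟩ : ∃ m : ℝ → ℝ, m = fun E => t * ∑' x, ‖La φ E t x‖ ^ 2 := ⟨_, rfl⟩
  have hΨi : Integrable Ψ := by
    rw [hΨ]
    exact i1.const_mul _
  have hmi : Integrable m := by
    rw [hm]
    exact m1.const_mul _
  have hmt : ∫ E, m E = Real.pi := by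
    rw [hm, integral_const_mul, m2]
    field_simp
  have hm0 : ∀ E, 0 ≤ m E := by
    intro E
    rw [hm]
    exact mul_nonneg ht.le (tsum_nonneg fun x => sq_nonneg _)
  have hΨm : ∀ E, ‖Ψ E‖ ≤ m E := by
    intro E
    rw [hΨ, hm]
    simp only
    rw [norm_mul, Complex.norm_real, Real.norm_of_nonneg ht.le]
    apply mul_le_mul_of_nonneg_left _ ht.le
    refine tsum_of_norm_bounded (La_ss h E t ht).hasSum fun x => ?_
    rw [norm_mul, mul_comm Complex.I, Complex.norm_exp_ofReal_mul_I, one_mul, Complex.norm_real,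
      Real.norm_of_nonneg (sq_nonneg _)]
  -- the sets
  obtain ⟨n, hn⟩ : ∃ n : ℝ → ℝ, n = fun E => nn0 d (-E) := ⟨_, rfl⟩
  obtain ⟨p, hp⟩ : ∃ p : ℝ → ℝ, p = fun E => pf d K (-E) := ⟨_, rfl⟩
  have hnc : Continuous n := by
    rw [hn]
    exact (nn0_cont hO hd).comp continuous_neg
  have hpm : Measurable p := by
    rw [hp]
    exact (pf_meas hO hd K).comp measurable_neg
  have hp0 : ∀ E, 0 ≤ p E := by
    intro E
    rw [hp]
    exact (pf_bd hO hd K (-E) hK).1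
  have hpn : ∀ E, p E ≤ n E := by
    intro E
    rw [hp, hn]
    exact (pf_bd hO hd K (-E) hK).2
  have hn0 : ∀ E, 0 ≤ n E := fun E => (hp0 E).trans (hpn E)
  obtain ⟨I, hI⟩ : ∃ I : Set ℝ, I = Ioc (-(3 * d : ℝ)) (3 * d) := ⟨_, rfl⟩
  have hIm : MeasurableSet I := by rw [hI]; exact measurableSet_Ioc
  have hIv : volume.real I = 6 * d := by
    rw [hI, Real.volume_real_Ioc_of_le (by linarith)]
    ring
  have hIf : volume I ≠ ∞ := by
    rw [hI]
    exact measure_Ioc_lt_top.ne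
  obtain ⟨B, hB⟩ : ∃ B : Set ℝ, B = I ∩ {E | c ≤ n E} := ⟨_, rfl⟩
  have hBm : MeasurableSet B := by
    rw [hB]
    exact hIm.inter (measurableSet_le measurable_const hnc.measurable)
  have hBI : B ⊆ I := by rw [hB]; exact inter_subset_left
  have hBf : volume B ≠ ∞ := ne_top_of_le_ne_top hIf (measure_mono hBI)
  have hBv : volume.real B ≤ 6 * d := by
    rw [← hIv]
    exact measureReal_mono hBI hIf
  have hnI : IntegrableOn n I := by
    rw [hI]
    exact (hnc.intervalIntegrable (-(3 * d : ℝ)) (3 * d)).1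
  have hpI : IntegrableOn p I := by
    refine Integrable.mono' hnI hpm.aestronglyMeasurable (Filter.Eventually.of_forall fun E => ?_)
    rw [Real.norm_of_nonneg (hp0 E)]
    exact hpn E
  have hnB := hnI.mono_set hBI
  have hpB := hpI.mono_set hBI
  have hint : ∫ E in I, n E = Real.pi := by
    rw [← nn0_int hO hd, hI, ← intervalIntegral.integral_of_le (by linarith), hn,
      intervalIntegral.integral_comp_neg]
    simp
  have hintp : ∫ E in I, p E = ∫ E in (-(3 * d : ℝ))..(3 * d), pf d K E := by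
    rw [hI, ← intervalIntegral.integral_of_le (by linarith), hp,
      intervalIntegral.integral_comp_neg]
    simp
  have hsplit : ∀ f : ℝ → ℝ, IntegrableOn f I → ∫ E in I, f E =
      (∫ E in B, f E) + ∫ E in I \ B, f E := by
    intro f hf
    have h1 := setIntegral_sdiff hBm hf hBI
    rw [h1]
    ring
  have hIB : ∫ E in I \ B, n E ≤ 6 * d * c := by
    have hDm : MeasurableSet (I \ B) := hIm.diff hBm
    have hDf : volume (I \ B) ≠ ∞ := ne_top_of_le_ne_top hIf (measure_mono sdiff_subset)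
    have h1 : ∫ E in I \ B, n E ≤ ∫ _E in I \ B, c := by
      refine setIntegral_mono_on (hnI.mono_set sdiff_subset) ?_ hDm fun E hE => ?_
      · exact integrableOn_const hDf
      · by_contra hcon
        push Not at hcon
        apply hE.2
        rw [hB]
        exact ⟨hE.1, hcon.le⟩
    rw [setIntegral_const, smul_eq_mul] at h1
    refine h1.trans (mul_le_mul_of_nonneg_right ?_ hc)
    rw [← hIv]
    exact measureReal_mono sdiff_subset hIf
  have hIBp : ∫ E in I \ B, p E ≤ 6 * d * c := by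
    refine le_trans (setIntegral_mono_on (hpI.mono_set sdiff_subset) (hnI.mono_set sdiff_subset)
      (hIm.diff hBm) fun E _ => hpn E) hIB
  have hIBp0 : 0 ≤ ∫ E in I \ B, p E := setIntegral_nonneg (hIm.diff hBm) fun E _ => hp0 E
  -- the bulk
  have hBe : ∀ E ∈ B, c ≤ nn0 d (-E) := by
    intro E hE
    rw [hB, hn] at hE
    exact hE.2
  have h1 : ‖∫ E in B, (Ψ E - ((p E : ℝ) : ℂ))‖ ≤ e5 * (6 * d) := by
    refine (norm_setIntegral_le_of_norm_le_const (lt_top_iff_ne_top.2 hBf) fun E hE => ?_).trans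
      (mul_le_mul_of_nonneg_left hBv he5)
    rw [hΨ, hp]
    exact hlaw E (hBe E hE)
  have hpBc : IntegrableOn (fun E => ((p E : ℝ) : ℂ)) B := hpB.ofReal
  rw [integral_sub hΨi.integrableOn hpBc] at h1
  have h1p : ∫ E in B, ((p E : ℝ) : ℂ) = ((∫ E in B, p E : ℝ) : ℂ) := integral_complex_ofReal
  rw [h1p] at h1
  -- the rest
  have h2 : ‖∫ E in Bᶜ, Ψ E‖ ≤ ∫ E in Bᶜ, m E := by
    refine norm_integral_le_of_norm_le hmi.integrableOn (Filter.Eventually.of_forall fun E => hΨm E)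
  have h3 : ∫ E in Bᶜ, m E = Real.pi - ∫ E in B, m E := by
    have := integral_add_compl hBm hmi
    linarith
  have h4 : (∫ E in B, n E) - e5 * (6 * d) ≤ ∫ E in B, m E := by
    have h5 : ∫ E in B, (n E - e5) ≤ ∫ E in B, m E := by
      refine setIntegral_mono_on (hnB.sub (integrableOn_const hBf)) hmi.integrableOn hBm
        fun E hE => ?_
      rw [hn, hm]
      exact hmass E (hBe E hE)
    rw [integral_sub hnB (integrableOn_const hBf), setIntegral_const, smul_eq_mul] at h5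
    have h6 : volume.real B * e5 ≤ 6 * d * e5 := mul_le_mul_of_nonneg_right hBv he5
    linarith
  have hs1 := hsplit n hnI
  rw [hint] at hs1
  have hs2 := hsplit p hpI
  rw [hintp] at hs2
  have h7 : ‖(∫ E, Ψ E) - ((∫ E in (-(3 * d : ℝ))..(3 * d), pf d K E : ℝ) : ℂ)‖ ≤
      12 * d * (e5 + c) := by
    rw [← integral_add_compl hBm hΨi, hs2]
    have e1 : (∫ E in B, Ψ E) + (∫ E in Bᶜ, Ψ E) -
        (((∫ E in B, p E) + ∫ E in I \ B, p E : ℝ) : ℂ) =
        ((∫ E in B, Ψ E) - ((∫ E in B, p E : ℝ) : ℂ)) + (∫ E in Bᶜ, Ψ E) -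
          ((∫ E in I \ B, p E : ℝ) : ℂ) := by
      push_cast
      ring
    rw [e1]
    refine (norm_sub_le _ _).trans ?_
    have e2 := norm_add_le ((∫ E in B, Ψ E) - ((∫ E in B, p E : ℝ) : ℂ)) (∫ E in Bᶜ, Ψ E)
    rw [Complex.norm_real, Real.norm_of_nonneg hIBp0]
    linarith
  have h8 : ((2 * t : ℝ) : ℂ) * (∫ s in Ioi (0 : ℝ), ((Real.exp (-(2 * t) * s) : ℝ) : ℂ) *
        ∑' x, Complex.exp (Complex.I * ((θ x : ℝ) : ℂ)) * ((‖φ s x‖ ^ 2 : ℝ) : ℂ)) =
      ((1 / Real.pi : ℝ) : ℂ) * ∫ E, Ψ E := by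
    rw [hΨ, integral_const_mul, i2]
    push_cast
    have : (Real.pi : ℂ) ≠ 0 := by exact_mod_cast Real.pi_ne_zero
    field_simp
  rw [h8]
  have h9 : ((1 / Real.pi : ℝ) : ℂ) * (∫ E, Ψ E) -
      ((1 / Real.pi * ∫ E in (-(3 * d : ℝ))..(3 * d), pf d K E : ℝ) : ℂ) =
      ((1 / Real.pi : ℝ) : ℂ) * ((∫ E, Ψ E) -
        ((∫ E in (-(3 * d : ℝ))..(3 * d), pf d K E : ℝ) : ℂ)) := by
    push_cast
    ring
  rw [h9, norm_mul, Complex.norm_real, Real.norm_of_nonneg (by positivity)]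
  have h10 : 1 / Real.pi ≤ 1 / 3 := one_div_le_one_div_of_le (by norm_num) hpi.le
  calc 1 / Real.pi * ‖(∫ E, Ψ E) - ((∫ E in (-(3 * d : ℝ))..(3 * d), pf d K E : ℝ) : ℂ)‖ ≤
      1 / 3 * (12 * d * (e5 + c)) := by gcongr
    _ = _ := by ring

/-- the evolution -/
structure Evo (d : ℕ) (V : Zd d → ℝ) (a : Zd d) (ψ : ℝ → Zd d → ℂ) : Prop where
  init : ∀ x, ψ 0 x = if x = a then 1 else 0
  ode : ∀ s x, HasDerivAt (fun s => ψ s x) (-Complex.I * (S (ψ s) x + (V x : ℂ) * ψ s x)) s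
  norm : ∀ s, HasSum (fun x => ‖ψ s x‖ ^ 2) 1

theorem Evo.sol {ψ : ℝ → Zd d → ℂ} (h : Evo d V a ψ) :
    Sol d (fun x => -V x) a (fun s x => (starRingEnd ℂ) (ψ s x)) where
  init x := by
    rw [h.init x]
    split_ifs <;> simp
  ode s x := by
    have h1 := (h.ode s x).star
    refine h1.congr_deriv ?_
    rw [S_conj]
    simp
    ring
  norm s := by
    simp only [Complex.norm_conj]
    exact h.norm s

/-- the Green function from the Laplace transform -/
theorem Evo.green {ψ : ℝ → Zd d → ℂ} (h : Evo d V a ψ) (E t : ℝ) (ht : 0 < t) :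
    GS d V (((-E : ℝ) : ℂ) + (t : ℂ) * Complex.I) a
      (fun x => -(starRingEnd ℂ) (Complex.I * La (fun s x => (starRingEnd ℂ) (ψ s x)) E t x)) := by
  have h1 := La_eq h.sol E t ht
  have h2 := La_sum h.sol E t ht
  obtain ⟨b, hb⟩ : ∃ b : Zd d → ℂ, b = fun x => Complex.I *
    La (fun s x => (starRingEnd ℂ) (ψ s x)) E t x := ⟨_, rfl⟩
  have hbx : ∀ x, Complex.I * La (fun s x => (starRingEnd ℂ) (ψ s x)) E t x = b x := fun x => by
    rw [hb]
  simp only [hbx] at h1 h2 ⊢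
  refine ⟨?_, fun x => ?_⟩
  · refine h2.congr fun x => ?_
    rw [norm_neg, Complex.norm_conj]
  · have h3 := congrArg (starRingEnd ℂ) (h1 x)
    have e1 : S (fun x => -(starRingEnd ℂ) (b x)) x = -(starRingEnd ℂ) (S b x) := by
      have : (fun x => -(starRingEnd ℂ) (b x)) = fun x => (-1) * (fun x => (starRingEnd ℂ) (b x)) x := by
        funext x
        ring
      rw [this, S_smul, S_conj]
      ring
    have e2 : (starRingEnd ℂ) (if x = a then (1 : ℂ) else 0) = if x = a then 1 else 0 := by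
      split_ifs <;> simp
    rw [e2] at h3
    rw [e1, ← h3]
    simp only [map_sub, map_add, map_mul, map_neg, Complex.conj_ofReal, Complex.conj_I]
    push_cast
    ring

end Pool.Agent.TH791.QD
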