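import Pool.Agent.TH791.QD.CmpQ
import Pool.Agent.TH791.QD.ConcQ
import Pool.Agent.TH794.LL2.Tor

/-! The quadratic functional on the torus at all energies of the bulk and all frequencies. -/

set_option autoImplicit false
set_option linter.unusedSectionVars false

open scoped BigOperators Matrix
open MeasureTheory

namespace Pool.Agent.TH791.QD

open Pool.Agent.W788.BK
open Pool.Agent.TH794.LL2
open Pool.Agent.W788.MFP.Four (T e NN adj K ft NN_pos Op q e_zero e_add e_add_left e_neg e_neg_left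
  sum_e e_comm)

variable {d L : ℕ} [NeZero L]

/-- the free Green function at a real energy and a small imaginary part -/
noncomputable def gE (d L : ℕ) [NeZero L] (E t : ℝ) : ℂ :=
  gL d L ((E : ℂ) + ((t : ℝ) : ℂ) * Complex.I)

theorem gE_lip (E E' t : ℝ) (ht : 0 < t) : ‖gE d L E t - gE d L E' t‖ ≤ |E - E'| / t ^ 2 := by
  have hN := NN_pos (d := d) (L := L)
  have h2 : ∀ (a x : ℝ), t ≤ ‖(a : ℂ) - ((x : ℂ) + ((t : ℝ) : ℂ) * Complex.I)‖ := by
    intro a x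
    have h3 := Complex.abs_im_le_norm ((a : ℂ) - ((x : ℂ) + ((t : ℝ) : ℂ) * Complex.I))
    have h4 : ((a : ℂ) - ((x : ℂ) + ((t : ℝ) : ℂ) * Complex.I)).im = -t := by simp
    rw [h4, abs_neg, abs_of_pos ht] at h3
    exact h3
  have h3 : ∀ a : ℝ, ‖((a : ℂ) - ((E : ℂ) + ((t : ℝ) : ℂ) * Complex.I))⁻¹ -
      ((a : ℂ) - ((E' : ℂ) + ((t : ℝ) : ℂ) * Complex.I))⁻¹‖ ≤ |E - E'| / t ^ 2 := by
    intro a
    have n1 := h2 a E
    have n2 := h2 a E'
    have z1 : ((a : ℂ) - ((E : ℂ) + ((t : ℝ) : ℂ) * Complex.I)) ≠ 0 := by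
      intro h
      rw [h, norm_zero] at n1
      linarith
    have z2 : ((a : ℂ) - ((E' : ℂ) + ((t : ℝ) : ℂ) * Complex.I)) ≠ 0 := by
      intro h
      rw [h, norm_zero] at n2
      linarith
    rw [inv_sub_inv z1 z2, norm_div, norm_mul]
    have e1 : ((a : ℂ) - ((E' : ℂ) + ((t : ℝ) : ℂ) * Complex.I)) -
        ((a : ℂ) - ((E : ℂ) + ((t : ℝ) : ℂ) * Complex.I)) = ((E - E' : ℝ) : ℂ) := by
      push_cast
      ring
    rw [e1, Complex.norm_real, Real.norm_eq_abs]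
    apply div_le_div_of_nonneg_left (abs_nonneg _) (by positivity)
    rw [sq]
    exact mul_le_mul n1 n2 ht.le (norm_nonneg _)
  unfold gE gL
  rw [← mul_sub, ← Finset.sum_sub_distrib, norm_mul, norm_inv, Complex.norm_real,
    Real.norm_eq_abs, abs_of_pos hN, inv_mul_le_iff₀ hN]
  refine (norm_sum_le _ _).trans ((Finset.sum_le_sum fun k _ => h3 (adj k)).trans ?_)
  rw [Finset.sum_const, Finset.card_univ, nsmul_eq_mul, Pool.Agent.W788.MFP.Four.card_T]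

theorem gE_le (E t g : ℝ) (hg : ∑ k : T d L, (JJ E t k)⁻¹ ≤ g * NN d L) :
    ‖gE d L E t‖ ≤ g := by
  have hN := NN_pos (d := d) (L := L)
  unfold gE gL
  rw [norm_mul, norm_inv, Complex.norm_real, Real.norm_eq_abs, abs_of_pos hN,
    inv_mul_le_iff₀ hN]
  refine (norm_sum_le _ _).trans ?_
  refine (le_of_eq (Finset.sum_congr rfl fun k _ => ?_)).trans (hg.trans (le_of_eq (by ring)))
  rw [norm_inv]
  congr 1
  have e1 : ((adj k : ℝ) : ℂ) - ((E : ℂ) + ((t : ℝ) : ℂ) * Complex.I) =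
      ((adj k - E : ℝ) : ℂ) + ((-t : ℝ) : ℂ) * Complex.I := by
    push_cast
    ring
  rw [e1, Complex.norm_add_mul_I]
  unfold JJ
  congr 1
  ring

/-- the profile -/
noncomputable def TG (E s2 Λ : ℝ) (γ : ℂ) (r : T d L) : ℝ := Λ / (Λ / γ.im + Th E s2 γ r)

/-- the profile depends continuously on the self-energy -/
theorem TG_near (E E' s2 Λ c' ζ x : ℝ) (γ γ' : ℂ) (hs2 : 0 < s2) (hΛ : 0 < Λ) (hc' : 0 < c')
    (h1 : c' ≤ γ.im) (h2 : c' ≤ γ'.im) (hE : |E - E'| ≤ ζ) (hγ : ‖γ - γ'‖ ≤ x) (u : ℝ)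
    (hu : u = (ζ + s2 * x) / (s2 * c')) (hu1 : u ≤ 1) (r : T d L) :
    |TG E s2 Λ γ r - TG E' s2 Λ γ' r| ≤ x + 15 * u * γ.im := by
  have hζ0 : 0 ≤ ζ := (abs_nonneg _).trans hE
  have hx0 : 0 ≤ x := (norm_nonneg _).trans hγ
  have hu0 : 0 ≤ u := by rw [hu]; positivity
  have hN := NN_pos (d := d) (L := L)
  have hD : ∀ (E : ℝ) (γ : ℂ), c' ≤ γ.im → ∀ k : T d L, s2 * c' ≤ ‖Dg E s2 γ k‖ := by
    intro E γ hγ k
    apply norm_ge_im
    unfold Dg
    rw [Complex.sub_im, Complex.ofReal_im, Complex.im_ofReal_mul, zero_sub, neg_neg]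
    exact mul_le_mul_of_nonneg_left hγ hs2.le
  have hsc : 0 < s2 * c' := by positivity
  have hDn : ∀ (E : ℝ) (γ : ℂ), c' ≤ γ.im → ∀ k : T d L, Dg E s2 γ k ≠ 0 := by
    intro E γ hγ k h0
    have := hD E γ hγ k
    rw [h0, norm_zero] at this
    linarith
  have hdd : ∀ k : T d L, ‖Dg E s2 γ k - Dg E' s2 γ' k‖ ≤ ζ + s2 * x := by
    intro k
    have e1 : Dg E s2 γ k - Dg E' s2 γ' k = ((E' - E : ℝ) : ℂ) - (s2 : ℂ) * (γ - γ') := by
      unfold Dg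
      push_cast
      ring
    rw [e1]
    refine (norm_sub_le _ _).trans (add_le_add ?_ ?_)
    · rw [Complex.norm_real, Real.norm_eq_abs, abs_sub_comm]
      exact hE
    · rw [norm_mul, Complex.norm_real, Real.norm_of_nonneg hs2.le]
      exact mul_le_mul_of_nonneg_left hγ hs2.le
  have huD : ∀ (E : ℝ) (γ : ℂ), c' ≤ γ.im → ∀ k : T d L, ζ + s2 * x ≤ u * ‖Dg E s2 γ k‖ := by
    intro E γ hγ k
    calc ζ + s2 * x = u * (s2 * c') := by rw [hu]; field_simp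
      _ ≤ _ := mul_le_mul_of_nonneg_left (hD E γ hγ k) hu0
  have a1 : ∀ k : T d L, ‖Dg E s2 γ k‖ ≤ (1 + u) * ‖Dg E' s2 γ' k‖ := by
    intro k
    have e1 : ‖Dg E s2 γ k‖ ≤ ‖Dg E' s2 γ' k‖ + ‖Dg E s2 γ k - Dg E' s2 γ' k‖ := by
      have := norm_add_le (Dg E' s2 γ' k) (Dg E s2 γ k - Dg E' s2 γ' k)
      rw [add_sub_cancel] at this
      exact this
    have e2 := hdd k
    have e3 := huD E' γ' h2 k
    linarith
  have a2 : ∀ k : T d L, ‖Dg E' s2 γ' k‖ ≤ (1 + u) * ‖Dg E s2 γ k‖ := by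
    intro k
    have e1 : ‖Dg E' s2 γ' k‖ ≤ ‖Dg E s2 γ k‖ + ‖Dg E s2 γ k - Dg E' s2 γ' k‖ := by
      have := norm_sub_le (Dg E s2 γ k) (Dg E s2 γ k - Dg E' s2 γ' k)
      rw [sub_sub_cancel] at this
      exact this
    have e2 := hdd k
    have e3 := huD E γ h1 k
    linarith
  have a3 := theta_near (Equiv.addRight r) (NN d L) u hN hu0 hu1 (fun k => Dg E s2 γ k)
    (fun k => Dg E' s2 γ' k) (hDn E γ h1) (hDn E' γ' h2) (fun k => by
      simp only [Equiv.coe_addRight]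
      unfold Dg
      push_cast
      ring) a1 a2
  simp only [Equiv.coe_addRight] at a3
  have a4 : |Th E s2 γ r - Th E' s2 γ' r| ≤ 15 * u * Th E' s2 γ' r := by
    unfold Th
    rw [← mul_sub, abs_mul, abs_of_pos (by positivity : (0 : ℝ) < s2 / 2)]
    calc s2 / 2 * _ ≤ s2 / 2 * (15 * u * ((NN d L)⁻¹ *
          ∑ k : T d L, ‖(Dg E' s2 γ' (k + r))⁻¹ - (Dg E' s2 γ' k)⁻¹‖ ^ 2)) :=
          mul_le_mul_of_nonneg_left a3 (by positivity)
      _ = _ := by ring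
  have t1 := Th_nonneg E s2 hs2.le γ r
  have t2 := Th_nonneg E' s2 hs2.le γ' r
  obtain ⟨ν, hν⟩ : ∃ ν, ν = γ.im := ⟨_, rfl⟩
  obtain ⟨ν', hν'⟩ : ∃ ν', ν' = γ'.im := ⟨_, rfl⟩
  obtain ⟨A, hA⟩ : ∃ A, A = Th E s2 γ r := ⟨_, rfl⟩
  obtain ⟨A', hA'⟩ : ∃ A', A' = Th E' s2 γ' r := ⟨_, rfl⟩
  unfold TG
  rw [← hA] at t1 a4 ⊢
  rw [← hA'] at t2 a4 ⊢
  rw [← hν] at h1 ⊢
  rw [← hν'] at h2 ⊢
  have hνx : |ν' - ν| ≤ x := by
    rw [hν, hν', ← Complex.sub_im]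
    refine (Complex.abs_im_le_norm _).trans ?_
    rw [norm_sub_rev]
    exact hγ
  have n1 : 0 < ν := lt_of_lt_of_le hc' h1
  have n2 : 0 < ν' := lt_of_lt_of_le hc' h2
  obtain ⟨P, hP⟩ : ∃ P, P = Λ / ν + A := ⟨_, rfl⟩
  obtain ⟨P', hP'⟩ : ∃ P', P' = Λ / ν' + A' := ⟨_, rfl⟩
  rw [← hP, ← hP']
  have p1 : Λ / ν ≤ P := by rw [hP]; linarith
  have p1' : Λ / ν' ≤ P' := by rw [hP']; linarith
  have q1 : 0 < Λ / ν := by positivity
  have q1' : 0 < Λ / ν' := by positivity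
  have p2 : 0 < P := lt_of_lt_of_le q1 p1
  have p2' : 0 < P' := lt_of_lt_of_le q1' p1'
  have hx : Λ / P - Λ / P' = Λ * (P' - P) / (P * P') := by
    field_simp
  rw [hx, abs_div, abs_mul, abs_of_pos hΛ, abs_of_pos (mul_pos p2 p2'), div_le_iff₀ (mul_pos p2 p2')]
  have b1 : |P' - P| ≤ |Λ / ν' - Λ / ν| + |A - A'| := by
    have : P' - P = (Λ / ν' - Λ / ν) - (A - A') := by rw [hP, hP']; ring
    rw [this]
    exact abs_sub _ _
  have b2 : |Λ / ν' - Λ / ν| ≤ Λ * x / (ν * ν') := by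
    have : Λ / ν' - Λ / ν = Λ * (ν - ν') / (ν * ν') := by field_simp
    rw [this, abs_div, abs_mul, abs_of_pos hΛ, abs_of_pos (mul_pos n1 n2)]
    apply div_le_div_of_nonneg_right _ (mul_pos n1 n2).le
    apply mul_le_mul_of_nonneg_left _ hΛ.le
    rw [abs_sub_comm]
    exact hνx
  have b3 : Λ * (Λ * x / (ν * ν')) ≤ x * (P * P') := by
    have : Λ * (Λ * x / (ν * ν')) = x * ((Λ / ν) * (Λ / ν')) := by
      field_simp
    rw [this]
    apply mul_le_mul_of_nonneg_left _ hx0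
    exact mul_le_mul p1 p1' q1'.le p2.le
  have b4 : Λ * (15 * u * A') ≤ 15 * u * ν * (P * P') := by
    have e1 : A' ≤ P' := by rw [hP']; linarith
    have e2 : Λ ≤ ν * P := by
      have := mul_le_mul_of_nonneg_left p1 n1.le
      rw [mul_div_cancel₀ _ n1.ne'] at this
      exact this
    calc Λ * (15 * u * A') = 15 * u * (Λ * A') := by ring
      _ ≤ 15 * u * ((ν * P) * P') := by gcongr
      _ = _ := by ring
  calc Λ * |P' - P| ≤ Λ * (Λ * x / (ν * ν') + 15 * u * A') :=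
        mul_le_mul_of_nonneg_left (by linarith) hΛ.le
    _ = Λ * (Λ * x / (ν * ν')) + Λ * (15 * u * A') := by ring
    _ ≤ x * (P * P') + 15 * u * ν * (P * P') := add_le_add b3 b4
    _ = _ := by ring

/-- the good event -/
def GoodQ (δ θ η τ ζ e2 s2 c' K : ℝ) (M : ℕ) : Set (T d L → ℝ) :=
  {V | (∀ x, |UU θ V x| ≤ τ) ∧
    ∀ j ∈ Finset.Icc (-(M : ℤ)) M, 2 * c' ≤ (gE d L (ζ * j) (η * δ)).im →
      F1 (ζ * j) δ θ η V ≤ K ∧ ∀ r : T d L, ‖(η : ℂ) * FQ (ζ * j) δ θ η r V -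
        ((TG (ζ * j) s2 (η * δ / s2) (gE d L (ζ * j) (η * δ)) r : ℝ) : ℂ)‖ ≤ e2}

theorem FQ_cont (E δ θ η : ℝ) (hη : 0 < η) (r : T d L) :
    Continuous fun V : T d L → ℝ => FQ E δ θ η r V :=
  GQ_cont (Pool.Agent.W363.BK.D0_herm (d := d) (L := L) E δ)
    (fun y => Pool.Agent.W363.BK.AA_herm (d := d) (L := L) E δ θ y) hη _

theorem goodQ_meas (δ θ η τ ζ e2 s2 c' K : ℝ) (M : ℕ) (hη : 0 < η) :
    MeasurableSet (GoodQ (d := d) (L := L) δ θ η τ ζ e2 s2 c' K M) := by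
  have h1 : GoodQ (d := d) (L := L) δ θ η τ ζ e2 s2 c' K M = (⋂ x, {V | |UU θ V x| ≤ τ}) ∩
      ⋂ j ∈ Finset.Icc (-(M : ℤ)) M, ⋂ (_ : 2 * c' ≤ (gE d L (ζ * j) (η * δ)).im),
        ({V | F1 (ζ * j) δ θ η V ≤ K} ∩ ⋂ r : T d L, {V | ‖(η : ℂ) * FQ (ζ * j) δ θ η r V -
        ((TG (ζ * j) s2 (η * δ / s2) (gE d L (ζ * j) (η * δ)) r : ℝ) : ℂ)‖ ≤ e2}) := by
    ext V
    simp [GoodQ]
  rw [h1]
  refine MeasurableSet.inter (MeasurableSet.iInter fun x => ?_)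
    (Finset.measurableSet_biInter _ fun j _ => MeasurableSet.iInter fun _ =>
      MeasurableSet.inter ?_ (MeasurableSet.iInter fun r => ?_))
  · exact (isClosed_le (continuous_UU θ x).abs continuous_const).measurableSet
  · exact (isClosed_le (continuous_FF _ δ θ η hη (Pool.Agent.W363.BK.D0_herm (d := d) (L := L) _ δ)
      (fun y => Pool.Agent.W363.BK.AA_herm (d := d) (L := L) _ δ θ y))
      continuous_const).measurableSet
  · exact (isClosed_le ((continuous_const.mul (FQ_cont _ δ θ η hη r)).sub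
      continuous_const).norm continuous_const).measurableSet

/-- the probability of the good event -/
theorem goodQ_prob (hES : S_ES) (hTH : S_THIRD) (hFL : S_FLUCT) (hIN : S_INV) (hO : S_OSC)
    (hSU : S_SUP) (hd : 3 ≤ d)
    (δ θ η τ ζ e2 a v2 Q β s2 g ε ε2 e1 α x1 c' e4 T0 D : ℝ) (M : ℕ) (hδ : 0 < δ) (hη : 0 < η)
    (hη1 : η ≤ 1) (hα : 0 < α) (hτ : 0 < τ)
    (hadm : ∀ E, Adm (D0 E δ) (AA (d := d) (L := L) E δ θ) a v2 Q)
    (μ : Measure ℝ) [IsProbabilityMeasure μ] (hβ : 0 < β) (hμ : ∀ᵐ s ∂μ, |s| ≤ β)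
    (h0 : ∫ s, s ∂μ = 0) (h2 : ∫ s, s ^ 2 ∂μ = s2) (hs2 : 0 < s2) (hsβ : s2 ≤ β ^ 2)
    (hβa : β * a ≤ η) (hβv : β ^ 2 * v2 ≤ 1) (hε0 : 0 ≤ ε) (hε1 : ε ≤ 1 / 2)
    (he0 : 0 ≤ e1) (he1 : e1 ≤ 1 / 4)
    (hε : 4 * β ^ 3 * a * v2 / η ^ 3 + s2 * (2 * β * Q * Real.sqrt v2 / η ^ 4) ≤ ε)
    (hε2 : 4 * β ^ 3 * a * v2 / η ^ 3 + s2 * (2 * β * (2 * Q) * Real.sqrt v2 / η ^ 4) ≤ ε2)
    (hg : ∀ E' : ℝ, ∑ k : T d L, (JJ E' (η * δ) k)⁻¹ ≤ g * NN d L) (hg1 : 0 < g)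
    (hlow : s2 * (∑ P : T d L, (1 - hi θ P)) ≤ e1 * (η ^ 2 * δ ^ 2) * NN d L)
    (x0 ε3 Λ u : ℝ) (hx0 : x0 = 4 / 3 * (ε + e1 + (2 * η + 8 * s2 ^ 2 * g ^ 2 / δ ^ 2)))
    (hx01 : x0 ≤ 1 / 4) (hε3 : ε3 = ε / η ^ 2 + ε2 / (α * η) + 3 * α ^ 2 / η ^ 6)
    (hΛ : Λ = η * δ / s2) (hΛg : Λ ≤ g) (hc' : 0 < c')
    (hT : (1 + T0) ^ 3 ≤ (L : ℝ) ^ 2)
    (hgx : 2 * 10 ^ d * K5 * (s2 * (2 * g) + 2 * (η * δ)) ^ (1 / 4 : ℝ) +
      4 / (η * δ) * Real.exp (-(η * δ * T0 / 2)) ≤ x1)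
    (hx1 : x0 * g + x1 ≤ c') (hx1' : 0 ≤ x1) (hy : x0 * (6 + g / c') ≤ Λ / (6 * g))
    (hu : u = (x0 * g + x1 + Λ) / c') (hu1 : u ≤ 1)
    (he4 : 18 * g ^ 2 * (x0 * (6 + g / c')) / Λ + Λ + 24 * g * e1 + 6 * g ^ 2 * η * ε3 / Λ +
      45 * g * u + α ^ 2 * g / η ^ 3 ≤ e4)
    (hD : 0 < D) (hD1 : D ≤ 1 / 128)
    (hDD : 46 * (β ^ 2 * (Q + a ^ 2 / η ^ 2) / η ^ 2) ≤ D ^ 2)
    (he2 : 800 * g * Real.sqrt D + e4 ≤ e2) :
    (PP (T d L) μ).real (GoodQ (d := d) (L := L) δ θ η τ ζ e2 s2 c' (10 * g) M)ᶜ ≤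
      2 * NN d L * Real.exp (-(τ ^ 2 * NN d L /
        (2 * β ^ 2 * ∑ P : T d L, (1 - hi θ P)))) +
      (2 * M + 1) * ((2 + 6 * NN d L) * Real.exp (1 / 2 - 1 / Real.sqrt (2 * D))) := by
  have hN := NN_pos (d := d) (L := L)
  have ht : 0 < η * δ := by positivity
  obtain ⟨Ex, hEx⟩ : ∃ Ex, Ex = Real.exp (1 / 2 - 1 / Real.sqrt (2 * D)) := ⟨_, rfl⟩
  have hEx0 : 0 < Ex := by rw [hEx]; exact Real.exp_pos _
  rw [← hEx]
  obtain ⟨BD, hBD⟩ : ∃ BD : ℤ → Set (T d L → ℝ), BD = fun (j : ℤ) =>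
    {V | 2 * c' ≤ (gE d L (ζ * j) (η * δ)).im ∧ (10 * g < F1 (ζ * j) δ θ η V ∨
      ∃ r : T d L, e2 < ‖(η : ℂ) * FQ (ζ * j) δ θ η r V -
        ((TG (ζ * j) s2 (η * δ / s2) (gE d L (ζ * j) (η * δ)) r : ℝ) : ℂ)‖)} := ⟨_, rfl⟩
  have hsub : (GoodQ (d := d) (L := L) δ θ η τ ζ e2 s2 c' (10 * g) M)ᶜ ⊆
      {V | ∃ x : T d L, τ < |∑ y : T d L, V y * K (fun Q => 1 - hi θ Q) (x - y)|} ∪
      ⋃ j ∈ Finset.Icc (-(M : ℤ)) M, BD j := by
    intro V hV
    by_cases hx : ∀ x, |UU θ V x| ≤ τ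
    · right
      rw [Set.mem_iUnion₂]
      by_contra hcon
      push Not at hcon
      apply hV
      refine ⟨hx, fun j hj hc => ?_⟩
      have h1 := hcon j hj
      rw [hBD] at h1
      simp only [Set.mem_ofPred_eq, not_and, not_or, not_exists, not_lt] at h1
      exact h1 hc
    · left
      push Not at hx
      exact hx
  refine (measureReal_mono hsub).trans ((measureReal_union_le _ _).trans (add_le_add ?_ ?_))
  · exact hSU d L μ β θ τ hβ hμ h0 hτ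
  · refine (measureReal_biUnion_finset_le _ _).trans ?_
    have h1 : ∀ j ∈ Finset.Icc (-(M : ℤ)) M,
        (PP (T d L) μ).real (BD j) ≤ (2 + 6 * NN d L) * Ex := by
      intro j _
      obtain ⟨E, hE⟩ : ∃ E, E = ζ * (j : ℝ) := ⟨_, rfl⟩
      by_cases hc : 2 * c' ≤ (gE d L (ζ * j) (η * δ)).im
      · have hγ : ∀ z : ℂ, η * δ ≤ z.im → ‖z - (E : ℂ)‖ ≤ s2 * (2 * g) + η * δ →
            ‖gL d L z - gE d L E (η * δ)‖ ≤ x1 := by
          intro z hz1 hz2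
          have e1 := gL_holder (d := d) (L := L) hO hd (η * δ) T0 ht hT z
            ((E : ℂ) + ((η * δ : ℝ) : ℂ) * Complex.I) hz1 (by
              have : ((E : ℂ) + ((η * δ : ℝ) : ℂ) * Complex.I).im = η * δ := by simp
              rw [this])
          have e2 : ‖z - ((E : ℂ) + ((η * δ : ℝ) : ℂ) * Complex.I)‖ ≤
              s2 * (2 * g) + 2 * (η * δ) := by
            have e3 : z - ((E : ℂ) + ((η * δ : ℝ) : ℂ) * Complex.I) =
              (z - (E : ℂ)) - ((η * δ : ℝ) : ℂ) * Complex.I := by ring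
            rw [e3]
            refine (norm_sub_le _ _).trans ?_
            rw [norm_mul, Complex.norm_I, mul_one, Complex.norm_real, Real.norm_of_nonneg ht.le]
            linarith
          have hK5 := K5_nonneg
          have e4 : 2 * 10 ^ d * K5 * ‖z - ((E : ℂ) + ((η * δ : ℝ) : ℂ) * Complex.I)‖ ^
              (1 / 4 : ℝ) ≤ 2 * 10 ^ d * K5 * (s2 * (2 * g) + 2 * (η * δ)) ^ (1 / 4 : ℝ) :=
            mul_le_mul_of_nonneg_left (Real.rpow_le_rpow (norm_nonneg _) e2 (by norm_num))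
              (by positivity)
          unfold gE
          linarith
        have hc2 : 2 * c' ≤ (gE d L E (η * δ)).im := by rw [hE]; exact hc
        obtain ⟨m1, m2⟩ := torT hTH hFL hIN E δ θ η a v2 Q β s2 g ε ε2 e1 α x1 c' e4 hδ hη hη1 hα
          (hadm E) μ hβ hμ h0 h2 hs2 hsβ hβa hβv hε0 hε1 he0 he1 hε hε2 hg hg1 hlow x0 ε3 Λ u hx0
          hx01 hε3 hΛ hΛg hc' (gE d L E (η * δ)) hc2 hγ hx1 hx1' hy hu hu1 he4
        have hDD' : 2 * β ^ 2 / η ^ 2 * (Q + a ^ 2 / η ^ 2) ≤ D ^ 2 := by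
          refine le_trans ?_ hDD
          have hQ0 := (hadm E).hQ0
          have : 0 ≤ β ^ 2 * (Q + a ^ 2 / η ^ 2) / η ^ 2 := by positivity
          have e2 : 2 * β ^ 2 / η ^ 2 * (Q + a ^ 2 / η ^ 2) =
            2 * (β ^ 2 * (Q + a ^ 2 / η ^ 2) / η ^ 2) := by ring
          rw [e2]
          linarith
        have c1 := conc2 hES (hadm E) μ β η D hβ hμ hη hβv hD hD1 hDD' (w0 E δ)
        have c2 : ∀ r : T d L, (PP (T d L) μ).real {V | e2 < ‖(η : ℂ) * FQ E δ θ η r V -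
            ((TG E s2 (η * δ / s2) (gE d L E (η * δ)) r : ℝ) : ℂ)‖} ≤ 6 * Ex := by
          intro r
          have c3 := concQ (Y := Yq E δ r) hES (hadm E) μ β D hβ hμ hη hβv hD hD1 hDD (Yq_opb E δ hδ r)
            (YqH_opb E δ hδ r) (w0 E δ)
          rw [hEx]
          refine le_trans (measureReal_mono ?_) c3
          intro V hV
          simp only [Set.mem_ofPred_eq] at hV ⊢
          change 400 * Real.sqrt D * (∫ U, F1 E δ θ η U ∂(PP (T d L) μ)) / η <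
            ‖FQ E δ θ η r V - ∫ U, FQ E δ θ η r U ∂(PP (T d L) μ)‖
          obtain ⟨I1, hI1⟩ : ∃ I1, I1 = ∫ U, F1 E δ θ η U ∂(PP (T d L) μ) := ⟨_, rfl⟩
          obtain ⟨I2, hI2⟩ : ∃ I2, I2 = ∫ U, FQ E δ θ η r U ∂(PP (T d L) μ) := ⟨_, rfl⟩
          have m3 := (m2 r).2
          rw [← hI2] at m3 ⊢
          rw [← hI1] at m1 ⊢
          obtain ⟨w, hw⟩ : ∃ w : ℂ, w = ((TG E s2 (η * δ / s2) (gE d L E (η * δ)) r : ℝ) : ℂ) :=
            ⟨_, rfl⟩
          rw [← hw] at hV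
          have m4 : ‖(η : ℂ) * I2 - w‖ ≤ e4 := by
            rw [hw]
            unfold TG
            rw [← hΛ]
            exact m3
          rw [div_lt_iff₀ hη]
          have m5 : (η : ℂ) * FQ E δ θ η r V - w = (η : ℂ) * (FQ E δ θ η r V - I2) +
              ((η : ℂ) * I2 - w) := by ring
          rw [m5] at hV
          have m6 := norm_add_le ((η : ℂ) * (FQ E δ θ η r V - I2)) ((η : ℂ) * I2 - w)
          rw [norm_mul (η : ℂ), Complex.norm_real, Real.norm_of_nonneg hη.le] at m6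
          have m7 : 400 * Real.sqrt D * I1 ≤ 400 * Real.sqrt D * (2 * g) :=
            mul_le_mul_of_nonneg_left m1 (by positivity)
          have m8 : 400 * Real.sqrt D * (2 * g) = 800 * g * Real.sqrt D := by ring
          have m9 : ‖FQ E δ θ η r V - I2‖ * η = η * ‖FQ E δ θ η r V - I2‖ := mul_comm _ _
          rw [m9]
          linarith
        have c4 : (PP (T d L) μ).real {V | 10 * g < F1 E δ θ η V} ≤ 2 * Ex := by
          rw [hEx]
          refine le_trans (measureReal_mono ?_) c1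
          intro V hV
          simp only [Set.mem_ofPred_eq] at hV ⊢
          change 40 * Real.sqrt D * (∫ U, F1 E δ θ η U ∂(PP (T d L) μ)) <
            |F1 E δ θ η V - ∫ U, F1 E δ θ η U ∂(PP (T d L) μ)|
          obtain ⟨I1, hI1⟩ : ∃ I1, I1 = ∫ U, F1 E δ θ η U ∂(PP (T d L) μ) := ⟨_, rfl⟩
          rw [← hI1] at m1 ⊢
          have hsD : Real.sqrt D ≤ 1 / 10 := by
            rw [Real.sqrt_le_left (by norm_num)]
            linarith
          have m7 : 40 * Real.sqrt D * I1 ≤ 40 * Real.sqrt D * (2 * g) :=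
            mul_le_mul_of_nonneg_left m1 (by positivity)
          have m8 : 40 * Real.sqrt D * (2 * g) ≤ 8 * g := by nlinarith
          have m9 := le_abs_self (F1 E δ θ η V - I1)
          linarith
        have hsub2 : BD j ⊆ {V | 10 * g < F1 E δ θ η V} ∪ ⋃ r ∈ (Finset.univ : Finset (T d L)),
            {V | e2 < ‖(η : ℂ) * FQ E δ θ η r V -
            ((TG E s2 (η * δ / s2) (gE d L E (η * δ)) r : ℝ) : ℂ)‖} := by
          intro V hV
          rw [hBD] at hV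
          obtain ⟨-, hV | ⟨r, hr⟩⟩ := hV
          · left
            rw [← hE] at hV
            exact hV
          · right
            rw [Set.mem_iUnion₂]
            rw [← hE] at hr
            exact ⟨r, Finset.mem_univ _, hr⟩
        refine (measureReal_mono hsub2).trans ((measureReal_union_le _ _).trans ?_)
        have c5 : (PP (T d L) μ).real (⋃ r ∈ (Finset.univ : Finset (T d L)),
            {V | e2 < ‖(η : ℂ) * FQ E δ θ η r V -
            ((TG E s2 (η * δ / s2) (gE d L E (η * δ)) r : ℝ) : ℂ)‖}) ≤ NN d L * (6 * Ex) := by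
          refine (measureReal_biUnion_finset_le _ _).trans
            ((Finset.sum_le_sum fun r _ => c2 r).trans ?_)
          rw [Finset.sum_const, Finset.card_univ, nsmul_eq_mul, Pool.Agent.W788.MFP.Four.card_T]
        have c6 : (2 + 6 * NN d L) * Ex = 2 * Ex + NN d L * (6 * Ex) := by ring
        linarith
      · have : BD j = ∅ := by
          rw [hBD]
          ext V
          simp only [Set.mem_ofPred_eq, Set.mem_empty_iff_false, iff_false]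
          exact fun h => hc h.1
        rw [this, measureReal_empty]
        positivity
    refine (Finset.sum_le_sum h1).trans ?_
    rw [Finset.sum_const, nsmul_eq_mul, Int.card_Icc]
    have e1 : ((M : ℤ) + 1 - -(M : ℤ)).toNat = 2 * M + 1 := by omega
    rw [e1]
    push_cast
    exact le_refl _

end Pool.Agent.TH791.QD
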