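import Pool.Agent.TH791.QD.TorQ

/-! The quadratic functional of an approximate Green function on the torus. -/

set_option autoImplicit false
set_option linter.unusedSectionVars false

open scoped BigOperators Matrix
open MeasureTheory

namespace Pool.Agent.TH791.QD

open Pool.Agent.W788.BK
open Pool.Agent.TH794.LL2
open Pool.Agent.W788.MFP.Four (T e NN adj K ft NN_pos Op q e_zero e_add e_add_left e_neg e_neg_left
  sum_e e_comm)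

variable {d L : ℕ} [NeZero L]

/-- at a net point -/
theorem near (E δ θ η κ g1 ρ τ K zz : ℝ) (hδ : 0 < δ) (hη : 0 < η) (hη1 : η ≤ 1) (hκ : 0 < κ)
    (hκ2 : κ ≤ 1 / 2) (hg : ∑ k : T d L, (JJ E δ k)⁻¹ ≤ g1 * NN d L) (hK : 1 ≤ K)
    {V vr vi rr ri : T d L → ℝ} (h : Sol2 E (η * δ) V vr vi rr ri)
    (hf : ∀ w : T d L → ℝ, |∑ x, V x * w x ^ 2| ≤ κ * q (JJ E δ) w)
    (hρ0 : 0 ≤ ρ) (hρ : Real.sqrt (Bq rr ri) ≤ ρ) (hτ : 0 ≤ τ)
    (hU : ∀ x : T d L, |UU θ V x| ≤ τ)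
    (hB : Real.sqrt (Bq vr vi) ≤ (η * δ)⁻¹)
    (hF : F1 E δ θ η V ≤ K)
    (h1 : K * (τ / (η * δ) + 2 * (κ + η)) ≤ 1 / 2)
    (h2 : K * (2 * (Real.sqrt η * Real.sqrt g1) + 3 * (ρ / Real.sqrt (η * δ))) ≤ 1 / 2)
    (h3 : ρ / (η * δ) ≤ 1 / 2)
    (hz : (τ / (η * δ) + 2 * (κ + η)) * Real.sqrt (5 * K) +
      (2 * (Real.sqrt η * Real.sqrt g1) + 3 * (ρ / Real.sqrt (η * δ))) ≤ zz) (r : T d L) :
    ‖((η * δ : ℝ) : ℂ) * ∑ x, (starRingEnd ℂ) (e r x) * ((vr x ^ 2 + vi x ^ 2 : ℝ) : ℂ) -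
      (η : ℂ) * FQ E δ θ η r V‖ ≤ zz * (2 * K + zz) := by
  have hXh := Pool.Agent.W363.BK.D0_herm (d := d) (L := L) E δ
  have hAh := fun y => Pool.Agent.W363.BK.AA_herm (d := d) (L := L) E δ θ y
  have hF0 : 0 ≤ F1 E δ θ η V := by
    have e1 := (ward hXh hAh hη V (w0 (d := d) (L := L) E δ)).1
    change F1 E δ θ η V = _ at e1
    rw [e1]
    exact mul_nonneg hη.le (nsq_nonneg _)
  have hn := tor_near E δ θ η κ g1 ρ τ K hδ hη hη1 hκ hκ2 hg hK h hf hρ0 hρ hτ hU hB hF0 hF h1 h2 h3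
  change |vi 0 - F1 E δ θ η V| ≤ _ at hn
  have hw := ward2 h
  obtain ⟨F, hFd⟩ : ∃ F, F = F1 E δ θ η V := ⟨_, rfl⟩
  rw [← hFd] at hn hF hF0
  obtain ⟨t, ht⟩ : ∃ t, t = η * δ := ⟨_, rfl⟩
  have ht0 : 0 < t := by rw [ht]; positivity
  obtain ⟨B, hBd⟩ : ∃ B, B = Real.sqrt (Bq vr vi) := ⟨_, rfl⟩
  have hB0 : 0 ≤ B := by rw [hBd]; exact Real.sqrt_nonneg _
  have hB2 : B ^ 2 = Bq vr vi := by rw [hBd, Real.sq_sqrt (Bq_nonneg _ _)]
  rw [← hBd, ← hB2, ← ht] at hw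
  rw [← hBd, ← ht] at hB
  obtain ⟨s, hs⟩ : ∃ s, s = 2 * (Real.sqrt η * Real.sqrt g1) + 3 * (ρ / Real.sqrt (η * δ)) :=
    ⟨_, rfl⟩
  obtain ⟨κ', hκ'⟩ : ∃ κ', κ' = τ / (η * δ) + 2 * (κ + η) := ⟨_, rfl⟩
  rw [← hs] at h2 hn hz
  rw [← hκ'] at h1 hn hz
  have hκ'0 : 0 ≤ κ' := by rw [hκ']; positivity
  have hs0 : 0 ≤ s := by rw [hs]; positivity
  have hBρ : B * Real.sqrt (Bq rr ri) ≤ ρ / t := by
    calc B * Real.sqrt (Bq rr ri) ≤ t⁻¹ * ρ := mul_le_mul hB hρ (Real.sqrt_nonneg _)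
          (inv_nonneg.2 ht0.le)
      _ = ρ / t := by rw [div_eq_mul_inv, mul_comm]
  rw [← ht] at h3
  have hνK : vi 0 ≤ 2 * K + 5 / 2 := by
    have e1 := (abs_le.1 hn).2
    have e2 : K * (κ' * (2 * K + 4) + s) = K * κ' * (2 * K + 4) + K * s := by ring
    have e3 : K * κ' * (2 * K + 4) ≤ 1 / 2 * (2 * K + 4) :=
      mul_le_mul_of_nonneg_right h1 (by linarith)
    linarith
  have htB : t * B ^ 2 ≤ 5 * K := by
    have := (abs_le.1 hw).2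
    linarith
  have hstB : Real.sqrt t * B ≤ Real.sqrt (5 * K) := by
    apply Real.le_sqrt_of_sq_le
    rw [mul_pow, Real.sq_sqrt ht0.le]
    exact htB
  obtain ⟨re, hre⟩ : ∃ r, r = Real.sqrt η := ⟨_, rfl⟩
  obtain ⟨rd, hrd⟩ : ∃ r, r = Real.sqrt δ := ⟨_, rfl⟩
  have hre0 : 0 < re := by rw [hre]; exact Real.sqrt_pos.2 hη
  have hrd0 : 0 < rd := by rw [hrd]; exact Real.sqrt_pos.2 hδ
  have hre2 : re ^ 2 = η := by rw [hre]; exact Real.sq_sqrt hη.le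
  have hrd2 : rd ^ 2 = δ := by rw [hrd]; exact Real.sq_sqrt hδ.le
  have hrt : Real.sqrt t = re * rd := by rw [ht, Real.sqrt_mul hη.le, hre, hrd]
  obtain ⟨sg, hsg⟩ : ∃ s, s = Real.sqrt g1 := ⟨_, rfl⟩
  have hsg0 : 0 ≤ sg := by rw [hsg]; exact Real.sqrt_nonneg _
  obtain ⟨w, hw'⟩ : ∃ w, w = re * rd * B := ⟨_, rfl⟩
  have hw0 : 0 ≤ w := by rw [hw']; positivity
  rw [hrt, ← hw'] at hstB
  have hzz0 : 0 ≤ zz := by
    have : 0 ≤ κ' * Real.sqrt (5 * K) := by positivity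
    linarith
  have hZ : (Real.sqrt δ)⁻¹ * (ρ + τ * Real.sqrt (Bq vr vi)) +
        η * (2 * Real.sqrt g1 + 2 * (κ + η) *
        (Real.sqrt δ * Real.sqrt (Bq vr vi)) + 2 * ((Real.sqrt δ)⁻¹ * ρ)) ≤ re * zz := by
    rw [← hBd, ← hrd, ← hsg]
    have e1 : rd⁻¹ * (ρ + τ * B) + η * (2 * sg + 2 * (κ + η) * (rd * B) +
        2 * (rd⁻¹ * ρ)) = re * ((τ / t * w + 2 * (κ + η) * w) + (2 * (re * sg) +
        (1 + 2 * η) * (ρ / (re * rd)))) := by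
      rw [hw', ht, ← hre2, ← hrd2]
      field_simp
      ring
    rw [e1]
    apply mul_le_mul_of_nonneg_left _ hre0.le
    refine le_trans ?_ hz
    have e2 : (1 + 2 * η) * (ρ / (re * rd)) ≤ 3 * (ρ / (re * rd)) := by
      apply mul_le_mul_of_nonneg_right _ (by positivity)
      linarith
    have e3 : κ' * w ≤ κ' * Real.sqrt (5 * K) := mul_le_mul_of_nonneg_left hstB hκ'0
    have e4 : τ / t * w + 2 * (κ + η) * w = κ' * w := by rw [hκ', ← ht]; ring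
    have e5 : s = 2 * (re * sg) + 3 * (ρ / (re * rd)) := by
      rw [hs, ← hre, ← hsg, ← ht, hrt]
    rw [e4, e5]
    linarith
  have hc := compareQ E δ θ η κ g1 ρ τ hδ hη hκ hκ2 hg h hf hρ0 hρ hτ hU F (re * zz) hFd hZ r
  refine hc.trans ?_
  have e1 : Real.sqrt (F / η) = Real.sqrt F / re := by rw [Real.sqrt_div hF0, hre]
  have e2 : Real.sqrt F ≤ K := by
    rw [Real.sqrt_le_left (by linarith)]
    nlinarith
  rw [e1]
  have e3 : re * zz * (2 * (Real.sqrt F / re) + re * zz / η) = zz * (2 * Real.sqrt F + zz) := by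
    rw [← hre2]
    field_simp
  rw [e3]
  gcongr

/-- **all energies of the bulk** -/
theorem torR (δ θ η κ g1 g ρ τ K ζ e2 e3 s2 c' x1 x u zz : ℝ) (M : ℕ) (hδ : 0 < δ) (hη : 0 < η)
    (hη1 : η ≤ 1) (hκ : 0 < κ)
    (hκ2 : κ ≤ 1 / 2) (hg1 : ∀ E, ∑ k : T d L, (JJ E δ k)⁻¹ ≤ g1 * NN d L)
    (hg : ∀ E, ∑ k : T d L, (JJ E (η * δ) k)⁻¹ ≤ g * NN d L) (hK : 1 ≤ K)
    (hζ : 0 < ζ) (hM : (2 * d + 1) ≤ ζ * M) (hs2 : 0 < s2) (hc' : 0 < c')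
    (V : T d L → ℝ) (hV : V ∈ GoodQ (d := d) (L := L) δ θ η τ ζ e2 s2 c' K M)
    (hf : ∀ (E : ℝ) (w : T d L → ℝ), |∑ x, V x * w x ^ 2| ≤ κ * q (JJ E δ) w)
    (hρ0 : 0 ≤ ρ) (hτ : 0 ≤ τ)
    (h1 : K * (τ / (η * δ) + 2 * (κ + η)) ≤ 1 / 2)
    (h2 : K * (2 * (Real.sqrt η * Real.sqrt g1) + 3 * ((2 * (ρ + ζ * (η * δ)⁻¹)) /
      Real.sqrt (η * δ))) ≤ 1 / 2)
    (h3 : (2 * (ρ + ζ * (η * δ)⁻¹)) / (η * δ) ≤ 1 / 2)
    (hz : (τ / (η * δ) + 2 * (κ + η)) * Real.sqrt (5 * K) +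
      (2 * (Real.sqrt η * Real.sqrt g1) + 3 * ((2 * (ρ + ζ * (η * δ)⁻¹)) /
        Real.sqrt (η * δ))) ≤ zz)
    (hx : x = x1 + ζ / (η * δ) ^ 2) (hx2 : x ≤ c') (htc : η * δ ≤ c')
    (hu : u = (ζ + s2 * x) / (s2 * c')) (hu1 : u ≤ 1)
    (h4 : zz * (2 * K + zz) + e2 + x + 15 * u * (g + x1) ≤ e3)
    (E : ℝ) (γ : ℂ) (hγ : ‖gE d L E (η * δ) - γ‖ ≤ x1) (hγc : 4 * c' ≤ γ.im)
    (vr vi rr ri : T d L → ℝ) (h : Sol2 E (η * δ) V vr vi rr ri)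
    (hρ : Real.sqrt (Bq rr ri) ≤ ρ)
    (hB : Real.sqrt (Bq vr vi) ≤ (η * δ)⁻¹) (r : T d L) :
    ‖((η * δ : ℝ) : ℂ) * ∑ x, (starRingEnd ℂ) (e r x) * ((vr x ^ 2 + vi x ^ 2 : ℝ) : ℂ) -
      ((TG E s2 (η * δ / s2) γ r : ℝ) : ℂ)‖ ≤ e3 := by
  have ht0 : 0 < η * δ := by positivity
  have hx10 : 0 ≤ x1 := (norm_nonneg _).trans hγ
  have hxx : x1 ≤ x := by
    rw [hx]
    have : 0 ≤ ζ / (η * δ) ^ 2 := by positivity
    linarith
  have him : 3 * c' ≤ (gE d L E (η * δ)).im := by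
    have e1 := Complex.abs_im_le_norm (gE d L E (η * δ) - γ)
    rw [Complex.sub_im] at e1
    have e2 := (abs_le.1 (e1.trans hγ)).1
    linarith
  have hE : |E| ≤ 2 * d + 1 := by
    by_contra hcon
    push Not at hcon
    have hfar : ∀ k : T d L, 1 ≤ |adj k - E| := by
      intro k
      have e1 := Pool.Agent.W788.MFP.Form.adj_abs k
      have e2 : |E| ≤ |adj k - E| + |adj k| := by
        have := abs_sub_abs_le_abs_sub E (adj k)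
        rw [abs_sub_comm] at this
        linarith
      linarith
    have e1 := G0_far (d := d) (L := L) E (η * δ) ht0 hfar
    have e2 : G0 d L E (η * δ) = (gE d L E (η * δ)).im := rfl
    rw [e2] at e1
    have := le_abs_self (gE d L E (η * δ)).im
    linarith
  -- a net point
  obtain ⟨j, hj⟩ : ∃ j : ℤ, j = ⌊E / ζ⌋ := ⟨_, rfl⟩
  have f3 := Int.floor_le (E / ζ)
  have f4 := Int.lt_floor_add_one (E / ζ)
  rw [← hj] at f3 f4
  have f5 : ζ * (j : ℝ) ≤ E := by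
    calc ζ * (j : ℝ) ≤ ζ * (E / ζ) := by gcongr
      _ = E := by field_simp
  have f6 : E ≤ ζ * (j : ℝ) + ζ := by
    calc E = ζ * (E / ζ) := by field_simp
      _ ≤ ζ * ((j : ℝ) + 1) := by gcongr
      _ = _ := by ring
  have hEj : |E - ζ * j| ≤ ζ := by
    rw [abs_le]
    constructor <;> linarith
  have hjI : j ∈ Finset.Icc (-(M : ℤ)) M := by
    have e1 := abs_le.1 hE
    rw [Finset.mem_Icc]
    constructor
    · rw [hj, Int.le_floor, le_div_iff₀ hζ]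
      push_cast
      linarith [e1.1]
    · have e2 : ζ * (j : ℝ) ≤ ζ * M := by linarith [e1.2]
      have e3 : (j : ℝ) ≤ M := le_of_mul_le_mul_left e2 hζ
      exact_mod_cast e3
  obtain ⟨E', hE'⟩ : ∃ E' : ℝ, E' = ζ * j := ⟨_, rfl⟩
  have hlip : ‖gE d L E' (η * δ) - γ‖ ≤ x := by
    have e1 := gE_lip (d := d) (L := L) E' E (η * δ) ht0
    have e2 : |E' - E| / (η * δ) ^ 2 ≤ ζ / (η * δ) ^ 2 := by
      apply div_le_div_of_nonneg_right _ (by positivity)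
      rw [abs_sub_comm, hE']
      exact hEj
    have e3 : gE d L E' (η * δ) - γ = (gE d L E' (η * δ) - gE d L E (η * δ)) +
      (gE d L E (η * δ) - γ) := by ring
    rw [e3]
    refine (norm_add_le _ _).trans ?_
    rw [hx]
    linarith
  have himj : 3 * c' ≤ (gE d L E' (η * δ)).im := by
    have e1 := Complex.abs_im_le_norm (gE d L E' (η * δ) - γ)
    rw [Complex.sub_im] at e1
    have e2 := (abs_le.1 (e1.trans hlip)).1
    linarith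
  obtain ⟨hFK, hFr⟩ := hV.2 j hjI (by rw [← hE']; linarith)
  rw [← hE'] at hFK hFr
  have hsh := h.shift E'
  rw [← hE'] at hEj
  have hρ' : Real.sqrt (Bq (fun x => rr x + (E - E') * vr x)
      (fun x => ri x + (E - E') * vi x)) ≤ 2 * (ρ + ζ * (η * δ)⁻¹) := by
    refine (sqrt_Bq_add _ _ _ _ _).trans ?_
    have : |E - E'| * Real.sqrt (Bq vr vi) ≤ ζ * (η * δ)⁻¹ :=
      mul_le_mul hEj hB (Real.sqrt_nonneg _) hζ.le
    linarith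
  have hn := near E' δ θ η κ g1 (2 * (ρ + ζ * (η * δ)⁻¹)) τ K zz hδ hη hη1 hκ hκ2
    (hg1 _) hK hsh (hf _) (by positivity) hρ' hτ hV.1 hB hFK h1 h2 h3 hz r
  have hT := TG_near (d := d) (L := L) E' E s2 (η * δ / s2) c' ζ x (gE d L E' (η * δ)) γ hs2
    (by positivity) hc' (by linarith) (by linarith) (by rw [abs_sub_comm]; exact hEj) hlip u hu hu1 r
  have hνg : (gE d L E' (η * δ)).im ≤ g + x1 := by
    have e1 := gE_le (d := d) (L := L) E' (η * δ) g (hg E')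
    have e2 := Complex.abs_im_le_norm (gE d L E' (η * δ))
    have e3 := le_abs_self (gE d L E' (η * δ)).im
    linarith
  have hu0 : 0 ≤ u := by
    rw [hu]
    have : 0 ≤ x := hx10.trans hxx
    positivity
  have hT2 : ‖((TG E' s2 (η * δ / s2) (gE d L E' (η * δ)) r : ℝ) : ℂ) -
      ((TG E s2 (η * δ / s2) γ r : ℝ) : ℂ)‖ ≤ x + 15 * u * (g + x1) := by
    rw [← Complex.ofReal_sub, Complex.norm_real, Real.norm_eq_abs]
    refine hT.trans ?_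
    gcongr
  have e5 : ((η * δ : ℝ) : ℂ) * ∑ x, (starRingEnd ℂ) (e r x) * ((vr x ^ 2 + vi x ^ 2 : ℝ) : ℂ) -
      ((TG E s2 (η * δ / s2) γ r : ℝ) : ℂ) =
      (((η * δ : ℝ) : ℂ) * ∑ x, (starRingEnd ℂ) (e r x) * ((vr x ^ 2 + vi x ^ 2 : ℝ) : ℂ) -
        (η : ℂ) * FQ E' δ θ η r V) + ((η : ℂ) * FQ E' δ θ η r V -
        ((TG E' s2 (η * δ / s2) (gE d L E' (η * δ)) r : ℝ) : ℂ)) +
      (((TG E' s2 (η * δ / s2) (gE d L E' (η * δ)) r : ℝ) : ℂ) -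
      ((TG E s2 (η * δ / s2) γ r : ℝ) : ℂ)) := by ring
  rw [e5]
  refine (norm_add_le _ _).trans ?_
  have e6 := norm_add_le (((η * δ : ℝ) : ℂ) * ∑ x, (starRingEnd ℂ) (e r x) *
    ((vr x ^ 2 + vi x ^ 2 : ℝ) : ℂ) - (η : ℂ) * FQ E' δ θ η r V) ((η : ℂ) * FQ E' δ θ η r V -
        ((TG E' s2 (η * δ / s2) (gE d L E' (η * δ)) r : ℝ) : ℂ))
  have e7 := hFr r
  linarith

end Pool.Agent.TH791.QD
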