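import Pool.Agent.TH791.QD.CoreT
import Pool.Agent.TH794.LL2.Mean2
import Pool.Agent.TH794.LL2.Site2

/-! The mean of the two resolvent functional on the torus. -/

set_option autoImplicit false
set_option linter.unusedSectionVars false

open scoped BigOperators Matrix
open MeasureTheory

namespace Pool.Agent.TH791.QD

open Pool.Agent.W788.BK
open Pool.Agent.TH794.LL2
open Pool.Agent.TH794.FG (core3)
open Pool.Agent.W788.MFP.Four (T e NN adj K ft NN_pos)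

variable {d L : ℕ} [NeZero L]

/-- the two resolvent functional -/
noncomputable def FQ (E δ θ η : ℝ) (r : T d L) (V : T d L → ℝ) : ℂ :=
  star (w0 (d := d) (L := L) E δ) ⬝ᵥ (((RR (D0 E δ) (AA E δ θ) η V)ᴴ * Yq E δ r *
    RR (D0 E δ) (AA E δ θ) η V) *ᵥ w0 E δ)

/-- the local density of states -/
noncomputable def F1 (E δ θ η : ℝ) (V : T d L → ℝ) : ℝ :=
  (star (w0 (d := d) (L := L) E δ) ⬝ᵥ (RR (D0 E δ) (AA E δ θ) η V *ᵥ w0 E δ)).im

/-- the free propagator with self-energy `s2 γ` -/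
noncomputable def Dg (E s2 : ℝ) (γ : ℂ) (k : T d L) : ℂ := ((adj k - E : ℝ) : ℂ) - (s2 : ℂ) * γ

/-- the step part of the ladder -/
noncomputable def Th (E s2 : ℝ) (γ : ℂ) (r : T d L) : ℝ :=
  s2 / 2 * ((NN d L)⁻¹ * ∑ k : T d L, ‖(Dg E s2 γ (k + r))⁻¹ - (Dg E s2 γ k)⁻¹‖ ^ 2)

theorem Th_nonneg (E s2 : ℝ) (hs2 : 0 ≤ s2) (γ : ℂ) (r : T d L) : 0 ≤ Th E s2 γ r := by
  unfold Th
  have := NN_pos (d := d) (L := L)
  positivity

theorem norm_ge_im (z : ℂ) (c : ℝ) (h : c ≤ -z.im) : c ≤ ‖z‖ := by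
  have h1 := Complex.abs_im_le_norm z
  have h2 := neg_le_abs z.im
  linarith

/-- **the mean** -/
theorem torT (hTH : S_THIRD) (hFL : S_FLUCT) (hIN : S_INV)
    (E δ θ η a v2 Q β s2 g ε ε2 e1 α x1 c' e4 : ℝ) (hδ : 0 < δ) (hη : 0 < η) (hη1 : η ≤ 1)
    (hα : 0 < α) (hadm : Adm (D0 E δ) (AA (d := d) (L := L) E δ θ) a v2 Q)
    (μ : Measure ℝ) [IsProbabilityMeasure μ] (hβ : 0 < β) (hμ : ∀ᵐ s ∂μ, |s| ≤ β)
    (h0 : ∫ s, s ∂μ = 0) (h2 : ∫ s, s ^ 2 ∂μ = s2) (hs2 : 0 < s2) (hsβ : s2 ≤ β ^ 2)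
    (hβa : β * a ≤ η) (hβv : β ^ 2 * v2 ≤ 1) (hε0 : 0 ≤ ε) (hε1 : ε ≤ 1 / 2)
    (he0 : 0 ≤ e1) (he1 : e1 ≤ 1 / 4)
    (hε : 4 * β ^ 3 * a * v2 / η ^ 3 + s2 * (2 * β * Q * Real.sqrt v2 / η ^ 4) ≤ ε)
    (hε2 : 4 * β ^ 3 * a * v2 / η ^ 3 + s2 * (2 * β * (2 * Q) * Real.sqrt v2 / η ^ 4) ≤ ε2)
    (hg : ∀ E' : ℝ, ∑ k : T d L, (JJ E' (η * δ) k)⁻¹ ≤ g * NN d L) (hg1 : 0 < g)
    (hlow : s2 * (∑ P : T d L, (1 - hi θ P)) ≤ e1 * (η ^ 2 * δ ^ 2) * NN d L)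
    (x0 ε3 Λ u : ℝ) (hx0 : x0 = 4 / 3 * (ε + e1 + (2 * η + 8 * s2 ^ 2 * g ^ 2 / δ ^ 2)))
    (hx01 : x0 ≤ 1 / 4) (hε3 : ε3 = ε / η ^ 2 + ε2 / (α * η) + 3 * α ^ 2 / η ^ 6)
    (hΛ : Λ = η * δ / s2) (hΛg : Λ ≤ g) (hc' : 0 < c') (γ : ℂ) (hγc : 2 * c' ≤ γ.im)
    (hγ : ∀ z : ℂ, η * δ ≤ z.im → ‖z - (E : ℂ)‖ ≤ s2 * (2 * g) + η * δ → ‖gL d L z - γ‖ ≤ x1)
    (hx1 : x0 * g + x1 ≤ c') (hx1' : 0 ≤ x1) (hy : x0 * (6 + g / c') ≤ Λ / (6 * g))
    (hu : u = (x0 * g + x1 + Λ) / c') (hu1 : u ≤ 1)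
    (he4 : 18 * g ^ 2 * (x0 * (6 + g / c')) / Λ + Λ + 24 * g * e1 + 6 * g ^ 2 * η * ε3 / Λ +
      45 * g * u + α ^ 2 * g / η ^ 3 ≤ e4) :
    ∫ V, F1 E δ θ η V ∂(PP (T d L) μ) ≤ 2 * g ∧
    ∀ r : T d L, Integrable (fun V => FQ E δ θ η r V) (PP (T d L) μ) ∧
      ‖(η : ℂ) * ∫ V, FQ E δ θ η r V ∂(PP (T d L) μ) -
        ((Λ / (Λ / γ.im + Th E s2 γ r) : ℝ) : ℂ)‖ ≤ e4 := by
  have hN := NN_pos (d := d) (L := L)
  have hNi : 0 < (NN d L)⁻¹ := inv_pos.2 hN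
  have hΛ0 : 0 < Λ := by rw [hΛ]; positivity
  have hs2Λ : s2 * Λ = η * δ := by rw [hΛ]; field_simp
  have hx00 : 0 ≤ x0 := by rw [hx0]; positivity
  have hε20 : 0 ≤ ε2 := by
    have h1 : 0 ≤ 4 * β ^ 3 * a * v2 / η ^ 3 + s2 * (2 * β * (2 * Q) * Real.sqrt v2 / η ^ 4) := by
      have := hadm.ha0
      have := hadm.hv0
      have := hadm.hQ0
      positivity
    linarith
  have hε30 : 0 ≤ ε3 := by rw [hε3]; positivity
  obtain ⟨hdiag, hdy⟩ := dyson hTH hFL hIN E δ θ η a v2 Q β s2 ε hδ hη hη1 hadm μ hβ hμ h0 h2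
    hs2.le hβa hβv hε
  obtain ⟨A, hA⟩ : ∃ A, A = AA (d := d) (L := L) E δ θ := ⟨_, rfl⟩
  obtain ⟨M, hM⟩ : ∃ M, M = MM (D0 E δ) A η μ := ⟨_, rfl⟩
  have hMA : MM (D0 E δ) (AA (d := d) (L := L) E δ θ) η μ = M := by rw [hM, hA]
  rw [hMA] at hdiag hdy
  have hadm' := hadm
  rw [← hA] at hadm'
  have hXh := hadm.hX0
  have hAh := hadm'.hA
  have heq : ∀ k, ‖((((adj k - E) / JJ E δ k : ℝ) : ℂ) - (η : ℂ) * Complex.I) * M k k -
      (s2 : ℂ) * (∑ p, (((NN d L)⁻¹ * hi θ (k - p) * (JJ E δ k * JJ E δ p)⁻¹ : ℝ) : ℂ) * M p p) *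
        M k k - 1‖ ≤ ε := by
    intro k
    have h1 := hdy k
    rw [Psi_diag E δ θ hδ M hdiag k] at h1
    exact h1
  have him : ∀ k, 0 ≤ (M k k).im := by
    intro k
    have e1 : M k k = ∫ V, RR (D0 E δ) A η V k k ∂(PP (T d L) μ) := by
      rw [hM]
      rfl
    have e2 := integrable_RR hXh hAh hη μ k k
    have e3 : (M k k).im = ∫ V, (RR (D0 E δ) A η V k k).im ∂(PP (T d L) μ) := by
      rw [e1]
      have := Complex.imCLM.integral_comp_comm e2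
      simp only [Complex.imCLM_apply] at this
      exact this.symm
    rw [e3]
    apply integral_nonneg
    intro V
    have e4 := (ward hXh hAh hη V (Pi.single k 1)).1
    rw [form_single] at e4
    simp only [Pi.zero_apply]
    rw [e4]
    exact mul_nonneg hη.le (nsq_nonneg _)
  have hbd : ∀ k, ‖M k k‖ ≤ η⁻¹ := by
    intro k
    have e1 : M k k = ∫ V, RR (D0 E δ) A η V k k ∂(PP (T d L) μ) := by
      rw [hM]
      rfl
    rw [e1]
    refine (norm_integral_le_of_norm_le_const (C := η⁻¹)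
      (Filter.Eventually.of_forall fun V => entry_bd hXh hAh hη V k k)).trans ?_
    rw [probReal_univ, mul_one]
  have hhi : ∀ P : T d L, hi θ P ≤ 1 := fun P => hi_le_one θ P
  have hSc : ∀ k : T d L, ∑ p, (1 - hi θ (k - p)) = ∑ P : T d L, (1 - hi θ P) :=
    fun k => Equiv.sum_comp (Equiv.subLeft k) fun P : T d L => (1 - hi θ P)
  obtain ⟨m, hm1, hm2, hm3, hm4⟩ := core2 (NN d L) δ η s2 g ε e1 E adj (JJ E δ)
    (fun k p => hi θ (k - p)) (∑ P : T d L, (1 - hi θ P)) (fun k => M k k) NN_pos hδ hη hs2.le hε0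
    hε1 hg1.le he0 he1 (fun k => rfl) him hbd (fun k p => hhi _) hSc hlow hg heq
  have hk := core3 (NN d L) δ η s2 g ε e1 E adj (JJ E δ)
    (fun k p => hi θ (k - p)) (∑ P : T d L, (1 - hi θ P)) (fun k => M k k) NN_pos hδ hη hs2.le hε0
    he0 he1 (fun k => rfl) hbd (fun k p => hhi _) hSc hlow heq m hm1 hm2 hm3
  rw [← hx0] at hm4 hk
  -- the propagator
  obtain ⟨D, hD⟩ : ∃ D : T d L → ℂ, D = fun k => ((adj k - E : ℝ) : ℂ) - (s2 : ℂ) * m -
    ((η * δ : ℝ) : ℂ) * Complex.I := ⟨_, rfl⟩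
  have hDim : ∀ k, (D k).im = -(s2 * (m.im + Λ)) := by
    intro k
    rw [hD, mul_add, hs2Λ]
    simp
    ring
  have hgl : gL d L ((E : ℂ) + (s2 : ℂ) * m + ((η * δ : ℝ) : ℂ) * Complex.I) =
      ((NN d L : ℝ) : ℂ)⁻¹ * ∑ k : T d L, (D k)⁻¹ := by
    unfold gL
    refine congrArg (fun t => ((NN d L : ℝ) : ℂ)⁻¹ * t) (Finset.sum_congr rfl fun k _ => ?_)
    congr 1
    rw [hD]
    push_cast
    ring
  have hm4' : ‖m - gL d L ((E : ℂ) + (s2 : ℂ) * m + ((η * δ : ℝ) : ℂ) * Complex.I)‖ ≤ x0 * g := by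
    rw [hgl, hD]
    exact hm4
  have hγ1 := hγ ((E : ℂ) + (s2 : ℂ) * m + ((η * δ : ℝ) : ℂ) * Complex.I) (by
      simp only [Complex.add_im, Complex.ofReal_im, Complex.mul_im, Complex.ofReal_re,
        Complex.I_im, Complex.I_re, mul_one, mul_zero, zero_mul, add_zero, zero_add]
      have := mul_nonneg hs2.le hm2
      linarith) (by
      have e1 : (E : ℂ) + (s2 : ℂ) * m + ((η * δ : ℝ) : ℂ) * Complex.I - (E : ℂ) =
          (s2 : ℂ) * m + ((η * δ : ℝ) : ℂ) * Complex.I := by ring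
      rw [e1]
      refine (norm_add_le _ _).trans ?_
      rw [norm_mul, norm_mul, Complex.norm_I, mul_one, Complex.norm_real, Complex.norm_real,
        Real.norm_of_nonneg hs2.le, Real.norm_of_nonneg (by positivity)]
      gcongr)
  obtain ⟨gl, hgld⟩ : ∃ gl, gl = gL d L ((E : ℂ) + (s2 : ℂ) * m +
    ((η * δ : ℝ) : ℂ) * Complex.I) := ⟨_, rfl⟩
  rw [← hgld] at hm4' hγ1 hgl
  have hmγ : ‖m - γ‖ ≤ x0 * g + x1 := by
    have := norm_add_le (m - gl) (gl - γ)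
    rw [sub_add_sub_cancel] at this
    linarith
  have hmi : c' ≤ m.im := by
    have h3 := Complex.abs_im_le_norm (m - γ)
    rw [Complex.sub_im] at h3
    have h4 := neg_abs_le (m.im - γ.im)
    linarith
  have hmi0 : 0 < m.im := hc'.trans_le hmi
  have hγ0 : 0 < γ.im := by linarith
  have hmi2 : m.im ≤ 2 * g := (le_abs_self _).trans ((Complex.abs_im_le_norm m).trans hm3)
  have hgli : |m.im - gl.im| ≤ x0 * g := by
    rw [← Complex.sub_im]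
    exact (Complex.abs_im_le_norm _).trans hm4'
  have hDn : ∀ k, s2 * (m.im + Λ) ≤ ‖D k‖ := fun k => norm_ge_im _ _ (by rw [hDim]; linarith)
  have hD0 : ∀ k, D k ≠ 0 := by
    intro k h
    have := hDn k
    rw [h, norm_zero] at this
    have : 0 < s2 * (m.im + Λ) := by positivity
    linarith
  obtain ⟨B0, hB0⟩ : ∃ B0, B0 = (NN d L)⁻¹ * ∑ k : T d L, ‖(D k)⁻¹‖ ^ 2 := ⟨_, rfl⟩
  have hB0v : s2 * (m.im + Λ) * B0 = gl.im := by
    have e1 : ∀ k, ((D k)⁻¹).im = s2 * (m.im + Λ) * ‖(D k)⁻¹‖ ^ 2 := by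
      intro k
      rw [Complex.inv_im, hDim, norm_inv, inv_pow, ← Complex.normSq_eq_norm_sq, neg_neg,
        div_eq_mul_inv]
    rw [hgl, ← Complex.ofReal_inv, Complex.im_ofReal_mul, Complex.im_sum,
      Finset.sum_congr rfl fun k _ => e1 k, ← Finset.mul_sum, hB0]
    ring
  have hB00 : 0 ≤ B0 := by rw [hB0]; positivity
  have hx0g : x0 * g ≤ c' := by linarith
  have hsB : s2 * B0 ≤ 2 := by
    have h3 : (m.im + Λ) * (s2 * B0) = gl.im := by rw [← hB0v]; ring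
    have h4 := (abs_le.1 hgli).1
    have h5 : (m.im + Λ) * (s2 * B0) ≤ (m.im + Λ) * 2 := by
      rw [h3]
      linarith
    exact le_of_mul_le_mul_left h5 (by positivity)
  -- the functional
  have hF1 : ∫ V, F1 E δ θ η V ∂(PP (T d L) μ) ≤ 2 * g := by
    have hint := integral_form hXh hAh hη μ (w0 (d := d) (L := L) E δ) (w0 E δ)
    have f1 : ∫ V, F1 E δ θ η V ∂(PP (T d L) μ) =
        (star (w0 (d := d) (L := L) E δ) ⬝ᵥ (M *ᵥ w0 E δ)).im := by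
      have := Complex.imCLM.integral_comp_comm hint.1
      simp only [Complex.imCLM_apply] at this
      unfold F1
      rw [← hA, this, hint.2, hM]
    have f2 : star (w0 (d := d) (L := L) E δ) ⬝ᵥ (M *ᵥ w0 E δ) = m := by
      rw [hm1]
      unfold dotProduct
      rw [Finset.mul_sum]
      refine Finset.sum_congr rfl fun k _ => ?_
      have e3 : (M *ᵥ w0 E δ) k = M k k * w0 E δ k := by
        unfold Matrix.mulVec dotProduct
        rw [Finset.sum_eq_single k]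
        · intro l _ hl
          simp only
          rw [hdiag k l hl.symm, zero_mul]
        · intro h
          exact absurd (Finset.mem_univ k) h
      rw [e3, Pi.star_apply]
      unfold w0
      rw [RCLike.star_def, Complex.conj_ofReal]
      have h4 : (Real.sqrt (JJ E δ k))⁻¹ * (Real.sqrt (JJ E δ k))⁻¹ = (JJ E δ k)⁻¹ :=
        js_sq E δ hδ k
      have h5 : (Real.sqrt (NN d L))⁻¹ * (Real.sqrt (NN d L))⁻¹ = (NN d L)⁻¹ := by
        rw [← mul_inv, Real.mul_self_sqrt hN.le]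
      calc (((Real.sqrt (NN d L))⁻¹ * (Real.sqrt (JJ E δ k))⁻¹ : ℝ) : ℂ) *
            (M k k * (((Real.sqrt (NN d L))⁻¹ * (Real.sqrt (JJ E δ k))⁻¹ : ℝ) : ℂ)) =
          ((((Real.sqrt (NN d L))⁻¹ * (Real.sqrt (NN d L))⁻¹) *
            ((Real.sqrt (JJ E δ k))⁻¹ * (Real.sqrt (JJ E δ k))⁻¹) : ℝ) : ℂ) * M k k := by
            push_cast
            ring
        _ = _ := by
            rw [h4, h5]
            push_cast
            ring
    rw [f1, f2]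
    exact hmi2
  refine ⟨hF1, fun r => ?_⟩
  obtain ⟨Tk, t1, t2, t3⟩ := teq hTH hFL hIN E δ θ η a v2 Q β s2 ε ε2 α hδ hη hη1 hα hadm μ hβ hμ
    h0 h2 hs2.le hsβ hβa hβv hε0 hε hε2 r
  rw [← hε3] at t2
  rw [hMA] at t2
  obtain ⟨t3i, t3b⟩ := t3 (w0 E δ)
  refine ⟨t3i, ?_⟩
  obtain ⟨s, hs⟩ : ∃ s : T d L ≃ T d L, s = Equiv.addRight r := ⟨_, rfl⟩
  have hsk : ∀ k, s k = k + r := fun k => by rw [hs]; rfl
  obtain ⟨G, hG⟩ : ∃ G : T d L → ℂ, G = fun k => (((JJ E δ k)⁻¹ : ℝ) : ℂ) * M k k := ⟨_, rfl⟩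
  have hGn : ∀ k, ‖G k - (D k)⁻¹‖ ≤ x0 * ‖(D k)⁻¹‖ := by
    intro k
    rw [hG, hD, norm_inv]
    exact hk k
  obtain ⟨c1, c2⟩ := corr_near s (NN d L) x0 hN hx00 hx01 G (fun k => (D k)⁻¹) hGn
  rw [← hB0] at c1 c2
  obtain ⟨τ, hτ⟩ : ∃ τ : ℂ, τ = (((NN d L)⁻¹ : ℝ) : ℂ) *
    ∑ k, ((js E δ (s k) * js E δ k : ℝ) : ℂ) * Tk k := ⟨_, rfl⟩
  obtain ⟨B, hB⟩ : ∃ B : ℂ, B = (((NN d L)⁻¹ : ℝ) : ℂ) *
    ∑ k, (starRingEnd ℂ) (G (s k)) * G k := ⟨_, rfl⟩
  obtain ⟨BD, hBD⟩ : ∃ B : ℂ, B = (((NN d L)⁻¹ : ℝ) : ℂ) *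
    ∑ k, (starRingEnd ℂ) ((D (s k))⁻¹) * (D k)⁻¹ := ⟨_, rfl⟩
  rw [← hB, ← hBD] at c1
  have hcore := coreT s (NN d L) g δ η s2 e1 ε3 (2 * B0) (js E δ) G (fun k p => hi θ (k - p))
    (∑ P : T d L, (1 - hi θ P)) Tk hN hδ hη hs2.le he0 hε30 (fun k => js_pos E δ hδ k)
    (fun k => by
      rw [sq, js_sq E δ hδ k]
      exact inv_anti₀ hδ (Pool.Agent.W363.BK.JJ_ge E δ hδ k))
    (by
      refine le_trans (Finset.sum_le_sum fun k _ => ?_) (hg E)
      rw [sq, js_sq E δ hδ k]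
      apply inv_anti₀ (JJ_pos _ _ (by positivity) _)
      unfold JJ
      apply Real.sqrt_le_sqrt
      have : (η * δ) ^ 2 ≤ δ ^ 2 := by
        apply pow_le_pow_left₀ (by positivity)
        calc η * δ ≤ 1 * δ := mul_le_mul_of_nonneg_right hη1 hδ.le
          _ = δ := one_mul δ
      linarith)
    t1 (fun k p => hhi _) hSc hlow c2 (fun k => by
      have h1 := t2 k
      rw [hsk k]
      have hj : 0 < js E δ (k + r) * js E δ k := mul_pos (js_pos E δ hδ _) (js_pos E δ hδ _)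
      have h3 : ((js E δ (k + r) * js E δ k : ℝ) : ℂ) * Tk k - (starRingEnd ℂ) (G (k + r)) * G k *
          ((δ : ℂ) + (s2 : ℂ) * ∑ p, (((NN d L)⁻¹ * hi θ (k - p) *
            (js E δ (s p) * js E δ p) : ℝ) : ℂ) * Tk p) =
          ((js E δ (k + r) * js E δ k : ℝ) : ℂ) * (Tk k - (starRingEnd ℂ) (M (k + r) (k + r)) *
        M k k * (((δ * (js E δ (k + r) * js E δ k) : ℝ) : ℂ) + (s2 : ℂ) *
          ∑ p, (((NN d L)⁻¹ * hi θ (k - p) * (js E δ (k + r) * js E δ (p + r) *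
            (js E δ p * js E δ k)) : ℝ) : ℂ) * Tk p)) := by
        have e1 : ∑ p, (((NN d L)⁻¹ * hi θ (k - p) * (js E δ (k + r) * js E δ (p + r) *
            (js E δ p * js E δ k)) : ℝ) : ℂ) * Tk p =
            ((js E δ (k + r) * js E δ k : ℝ) : ℂ) * ∑ p, (((NN d L)⁻¹ * hi θ (k - p) *
            (js E δ (s p) * js E δ p) : ℝ) : ℂ) * Tk p := by
          rw [Finset.mul_sum]
          refine Finset.sum_congr rfl fun p _ => ?_
          rw [hsk p]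
          push_cast
          ring
        rw [e1]
        obtain ⟨Sg, hSg⟩ : ∃ S, S = ∑ p, (((NN d L)⁻¹ * hi θ (k - p) *
            (js E δ (s p) * js E δ p) : ℝ) : ℂ) * Tk p := ⟨_, rfl⟩
        rw [← hSg, hG]
        simp only
        rw [← js_sq E δ hδ k, ← js_sq E δ hδ (k + r), map_mul, Complex.conj_ofReal]
        push_cast
        ring
      rw [h3, norm_mul, Complex.norm_real, Real.norm_of_nonneg hj.le, mul_comm]
      exact mul_le_mul_of_nonneg_right h1 hj.le) τ B hτ hB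
  -- the free correlation
  have hDneg : ∀ k, D (-k) = D k := by
    intro k
    rw [hD]
    simp only
    rw [Pool.Agent.W788.MFP.Four.adj_neg]
  have hBDim : BD.im = 0 := by
    have h3 : ∑ k, (starRingEnd ℂ) ((D (s k))⁻¹) * (D k)⁻¹ =
        (starRingEnd ℂ) (∑ k, (starRingEnd ℂ) ((D (s k))⁻¹) * (D k)⁻¹) := by
      rw [map_sum, ← Equiv.sum_comp (Equiv.subLeft (-r))]
      refine Finset.sum_congr rfl fun k _ => ?_
      rw [Equiv.subLeft_apply, hsk, hsk, map_mul, Complex.conj_conj]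
      have e1 : -r - k + r = -k := by abel
      have e2 : -r - k = -(k + r) := by abel
      rw [e1, e2, hDneg, hDneg]
      ring
    have h4 : (∑ k, (starRingEnd ℂ) ((D (s k))⁻¹) * (D k)⁻¹).im = 0 := by
      have h5 := congrArg Complex.im h3
      rw [Complex.conj_im] at h5
      linarith
    rw [hBD, Complex.im_ofReal_mul, h4, mul_zero]
  obtain ⟨Θ, hΘ⟩ : ∃ Θ, Θ = s2 / 2 * ((NN d L)⁻¹ * ∑ k : T d L,
    ‖(D (s k))⁻¹ - (D k)⁻¹‖ ^ 2) := ⟨_, rfl⟩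
  have hΘ0 : 0 ≤ Θ := by rw [hΘ]; positivity
  have hBDre : s2 * BD.re = s2 * B0 - Θ := by
    rw [hBD, Complex.re_ofReal_mul, corr_eq s fun k => (D k)⁻¹, hB0, hΘ]
    ring
  obtain ⟨A1, hA1⟩ : ∃ A1, A1 = Λ / (m.im + Λ) + Θ := ⟨_, rfl⟩
  have hb : ‖(1 - (s2 : ℂ) * B) - (A1 : ℂ)‖ ≤ x0 * (6 + g / c') := by
    have e1 : (1 - (s2 : ℂ) * B) - (A1 : ℂ) = -((s2 : ℂ) * (B - BD)) +
        (((m.im - gl.im) / (m.im + Λ) : ℝ) : ℂ) := by
      have h3 : BD = ((BD.re : ℝ) : ℂ) := by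
        apply Complex.ext
        · rfl
        · rw [hBDim, Complex.ofReal_im]
      have h4 : (s2 : ℂ) * BD = ((s2 * B0 - Θ : ℝ) : ℂ) := by
        rw [h3, ← hBDre]
        push_cast
        rfl
      have h5 : (1 : ℝ) - s2 * B0 - Λ / (m.im + Λ) = (m.im - gl.im) / (m.im + Λ) := by
        rw [← hB0v]
        field_simp
        ring
      rw [← h5, hA1, mul_sub, h4]
      push_cast
      ring
    rw [e1]
    refine (norm_add_le _ _).trans ?_
    rw [norm_neg, norm_mul, Complex.norm_real, Complex.norm_real, Real.norm_of_nonneg hs2.le,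
      Real.norm_eq_abs, abs_div, abs_of_pos (by positivity : 0 < m.im + Λ)]
    have a1 : s2 * ‖B - BD‖ ≤ x0 * 6 := by
      calc s2 * ‖B - BD‖ ≤ s2 * (3 * x0 * B0) := mul_le_mul_of_nonneg_left c1 hs2.le
        _ = 3 * x0 * (s2 * B0) := by ring
        _ ≤ 3 * x0 * 2 := mul_le_mul_of_nonneg_left hsB (by positivity)
        _ = _ := by ring
    have a2 : |m.im - gl.im| / (m.im + Λ) ≤ x0 * (g / c') := by
      calc |m.im - gl.im| / (m.im + Λ) ≤ x0 * g / c' := by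
            apply div_le_div₀ (by positivity) hgli hc'
            linarith
        _ = _ := by ring
    rw [mul_add]
    linarith
  have hA1l : Λ / (3 * g) ≤ A1 := by
    rw [hA1]
    have : Λ / (3 * g) ≤ Λ / (m.im + Λ) := by
      apply div_le_div_of_nonneg_left hΛ0.le (by positivity)
      linarith
    linarith
  have hA10 : 0 < A1 := lt_of_lt_of_le (by positivity) hA1l
  have hsolve := solveT τ B s2 δ η Λ g A1 (x0 * (6 + g / c')) (2 * B0 * (e1 * δ) + ε3 * g)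
    (2 * e1) ε3 hs2 hδ hη hΛ hΛ0 hg1 hA1l (by positivity) hy hb hcore (by
      have h3 : η * (2 * B0 * (e1 * δ) + ε3 * g) =
          2 * e1 * Λ * (s2 * B0) + η * ε3 * g := by
        have : η * (2 * B0 * (e1 * δ) + ε3 * g) = 2 * e1 * B0 * (η * δ) + η * ε3 * g := by ring
        rw [this, ← hs2Λ]
        ring
      rw [h3]
      have : 2 * e1 * Λ * (s2 * B0) ≤ 2 * e1 * Λ * 2 :=
        mul_le_mul_of_nonneg_left hsB (by positivity)
      linarith) (by positivity) hε30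
  -- the self-energy
  obtain ⟨Dγ, hDγ⟩ : ∃ D' : T d L → ℂ, D' = Dg E s2 γ := ⟨_, rfl⟩
  have hDγim : ∀ k, (Dγ k).im = -(s2 * γ.im) := by
    intro k
    rw [hDγ]
    unfold Dg
    simp
  have hDγn : ∀ k, s2 * γ.im ≤ ‖Dγ k‖ := fun k => norm_ge_im _ _ (by rw [hDγim]; linarith)
  have hDγ0 : ∀ k, Dγ k ≠ 0 := by
    intro k h
    have := hDγn k
    rw [h, norm_zero] at this
    have : 0 < s2 * γ.im := by positivity
    linarith
  have hDD : ∀ k, ‖D k - Dγ k‖ ≤ s2 * (x0 * g + x1 + Λ) := by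
    intro k
    have e1 : D k - Dγ k = -((s2 : ℂ) * (m - γ)) - ((η * δ : ℝ) : ℂ) * Complex.I := by
      rw [hD, hDγ]
      unfold Dg
      ring
    rw [e1]
    refine (norm_sub_le _ _).trans ?_
    rw [norm_neg, norm_mul, norm_mul, Complex.norm_I, mul_one, Complex.norm_real,
      Complex.norm_real, Real.norm_of_nonneg hs2.le, Real.norm_of_nonneg (by positivity),
      ← hs2Λ, ← mul_add]
    gcongr
  have hu0 : 0 ≤ u := by rw [hu]; positivity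
  have huc : u * c' = x0 * g + x1 + Λ := by rw [hu]; field_simp
  have hr1 : ∀ k, ‖D k‖ ≤ (1 + u) * ‖Dγ k‖ := by
    intro k
    have h3 := norm_add_le (D k - Dγ k) (Dγ k)
    rw [sub_add_cancel] at h3
    have h4 := hDD k
    rw [← huc] at h4
    have h5 : s2 * (u * c') ≤ u * ‖Dγ k‖ := by
      have h6 : s2 * c' ≤ ‖Dγ k‖ := by
        refine le_trans ?_ (hDγn k)
        apply mul_le_mul_of_nonneg_left _ hs2.le
        linarith
      calc s2 * (u * c') = u * (s2 * c') := by ring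
        _ ≤ _ := mul_le_mul_of_nonneg_left h6 hu0
    linarith
  have hr2 : ∀ k, ‖Dγ k‖ ≤ (1 + u) * ‖D k‖ := by
    intro k
    have h3 := norm_add_le (Dγ k - D k) (D k)
    rw [sub_add_cancel, norm_sub_rev] at h3
    have h4 := hDD k
    rw [← huc] at h4
    have h5 : s2 * (u * c') ≤ u * ‖D k‖ := by
      have h6 : s2 * c' ≤ ‖D k‖ := by
        refine le_trans ?_ (hDn k)
        apply mul_le_mul_of_nonneg_left _ hs2.le
        linarith
      calc s2 * (u * c') = u * (s2 * c') := by ring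
        _ ≤ _ := mul_le_mul_of_nonneg_left h6 hu0
    linarith
  have hth := theta_near s (NN d L) u hN hu0 hu1 D Dγ hD0 hDγ0 (fun k => by
    rw [hD, hDγ]
    unfold Dg
    ring) hr1 hr2
  obtain ⟨Θγ, hΘγ⟩ : ∃ Θ, Θ = Th (d := d) (L := L) E s2 γ r := ⟨_, rfl⟩
  have hΘγ' : Θγ = s2 / 2 * ((NN d L)⁻¹ * ∑ k : T d L, ‖(Dγ (s k))⁻¹ - (Dγ k)⁻¹‖ ^ 2) := by
    rw [hΘγ, hDγ]
    unfold Th
    simp only [hsk]
  have hΘγ0 : 0 ≤ Θγ := by rw [hΘγ]; exact Th_nonneg E s2 hs2.le γ r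
  have hΘd : |Θ - Θγ| ≤ 15 * u * Θγ := by
    rw [hΘ, hΘγ', ← mul_sub, abs_mul, abs_of_pos (by positivity : 0 < s2 / 2)]
    calc _ ≤ s2 / 2 * (15 * u * ((NN d L)⁻¹ * ∑ k : T d L,
          ‖(Dγ (s k))⁻¹ - (Dγ k)⁻¹‖ ^ 2)) := mul_le_mul_of_nonneg_left hth (by positivity)
      _ = _ := by ring
  obtain ⟨Aγ, hAγ⟩ : ∃ Aγ, Aγ = Λ / γ.im + Θγ := ⟨_, rfl⟩
  have hAγ0 : 0 < Aγ := by rw [hAγ]; positivity
  have hAd : |A1 - Aγ| ≤ 15 * u * Aγ := by
    have e1 : |Λ / (m.im + Λ) - Λ / γ.im| ≤ u * (Λ / γ.im) := by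
      have e2 : Λ / (m.im + Λ) - Λ / γ.im = (Λ / γ.im) * ((γ.im - m.im - Λ) / (m.im + Λ)) := by
        field_simp
        ring
      rw [e2, abs_mul, abs_of_pos (by positivity : 0 < Λ / γ.im), mul_comm]
      apply mul_le_mul_of_nonneg_right _ (by positivity)
      rw [abs_div, abs_of_pos (by positivity : 0 < m.im + Λ), hu]
      apply div_le_div₀ (by positivity) _ hc' (by linarith)
      have h3 := Complex.abs_im_le_norm (m - γ)
      rw [Complex.sub_im] at h3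
      rw [abs_le]
      have h4 := abs_le.1 (h3.trans hmγ)
      constructor <;> linarith [h4.1, h4.2]
    have e3 : A1 - Aγ = (Λ / (m.im + Λ) - Λ / γ.im) + (Θ - Θγ) := by
      rw [hA1, hAγ]
      ring
    rw [e3, hAγ, mul_add]
    refine (abs_add_le _ _).trans (add_le_add (e1.trans ?_) hΘd)
    have : 0 ≤ u * (Λ / γ.im) := by positivity
    linarith
  have hlast : |Λ / A1 - Λ / Aγ| ≤ 45 * g * u := by
    have e1 : Λ / A1 - Λ / Aγ = Λ * (Aγ - A1) / (A1 * Aγ) := by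
      field_simp
    rw [e1, abs_div, abs_mul, abs_of_pos hΛ0, abs_of_pos (by positivity : 0 < A1 * Aγ),
      abs_sub_comm]
    calc Λ * |A1 - Aγ| / (A1 * Aγ) ≤ Λ * (15 * u * Aγ) / (A1 * Aγ) := by gcongr
      _ = 15 * u * Λ / A1 := by field_simp
      _ ≤ 15 * u * Λ / (Λ / (3 * g)) := by gcongr
      _ = _ := by
        field_simp
        ring
  -- the mean and the sum
  have hmean : ‖(η : ℂ) * ∫ V, FQ E δ θ η r V ∂(PP (T d L) μ) - (η : ℂ) * τ‖ ≤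
      α ^ 2 * g / η ^ 3 := by
    have e1 : ∑ k, (starRingEnd ℂ) (w0 (d := d) (L := L) E δ (k + r)) * Tk k * w0 E δ k = τ := by
      rw [hτ, Finset.mul_sum]
      refine Finset.sum_congr rfl fun k _ => ?_
      unfold w0
      rw [Complex.conj_ofReal, hsk]
      have h5 : (Real.sqrt (NN d L))⁻¹ * (Real.sqrt (NN d L))⁻¹ = (NN d L)⁻¹ := by
        rw [← mul_inv, Real.mul_self_sqrt hN.le]
      rw [← h5]
      unfold js
      push_cast
      ring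
    rw [e1] at t3b
    have e2 : nsq (w0 (d := d) (L := L) E δ) ≤ g := by
      have e3 : nsq (w0 (d := d) (L := L) E δ) = (NN d L)⁻¹ * ∑ k : T d L, (JJ E δ k)⁻¹ := by
        unfold nsq w0
        rw [Finset.mul_sum]
        refine Finset.sum_congr rfl fun k _ => ?_
        rw [Complex.norm_real, Real.norm_eq_abs, sq_abs, mul_pow, inv_pow, inv_pow,
          Real.sq_sqrt hN.le, Real.sq_sqrt (JJ_pos E δ hδ k).le]
      rw [e3]
      have e4 : ∑ k : T d L, (JJ E δ k)⁻¹ ≤ g * NN d L := by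
        refine le_trans (Finset.sum_le_sum fun k _ => ?_) (hg E)
        apply inv_anti₀ (JJ_pos _ _ (by positivity) _)
        unfold JJ
        apply Real.sqrt_le_sqrt
        have : (η * δ) ^ 2 ≤ δ ^ 2 := by
          apply pow_le_pow_left₀ (by positivity)
          calc η * δ ≤ 1 * δ := mul_le_mul_of_nonneg_right hη1 hδ.le
            _ = δ := one_mul δ
        linarith
      calc (NN d L)⁻¹ * ∑ k : T d L, (JJ E δ k)⁻¹ ≤ (NN d L)⁻¹ * (g * NN d L) := by gcongr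
        _ = g := by field_simp
    rw [← mul_sub, norm_mul, Complex.norm_real, Real.norm_of_nonneg hη.le, norm_sub_rev]
    have e5 : ‖τ - ∫ V, FQ E δ θ η r V ∂(PP (T d L) μ)‖ ≤ α ^ 2 / η ^ 4 * g :=
      le_trans t3b (mul_le_mul_of_nonneg_left e2 (by positivity))
    calc η * ‖τ - ∫ V, FQ E δ θ η r V ∂(PP (T d L) μ)‖ ≤ η * (α ^ 2 / η ^ 4 * g) :=
          mul_le_mul_of_nonneg_left e5 hη.le
      _ = _ := by field_simp
  rw [← hΘγ, ← hAγ]
  have n1 : ‖((Λ / A1 : ℝ) : ℂ) - ((Λ / Aγ : ℝ) : ℂ)‖ ≤ 45 * g * u := by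
    rw [← Complex.ofReal_sub, Complex.norm_real]
    exact hlast
  have n2 := norm_sub_le_norm_sub_add_norm_sub ((η : ℂ) * ∫ V, FQ E δ θ η r V ∂(PP (T d L) μ))
    ((η : ℂ) * τ) ((Λ / Aγ : ℝ) : ℂ)
  have n3 := norm_sub_le_norm_sub_add_norm_sub ((η : ℂ) * τ) ((Λ / A1 : ℝ) : ℂ)
    ((Λ / Aγ : ℝ) : ℂ)
  linarith

end Pool.Agent.TH791.QD
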