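import Pool.Agent.TH791.QD.TorR
import Pool.Agent.TH794.FG.Inf

/-! Weighted sums on the lattice and on the torus. -/

set_option autoImplicit false
set_option linter.unusedSectionVars false

open scoped BigOperators Topology
open MeasureTheory Filter

namespace Pool.Agent.TH791.QD

open Pool.Agent.W788.BK
open Pool.Agent.W788
open Pool.Agent.W788.MFP.Four Pool.Agent.W788.MFP.Cut Pool.Agent.W788.MFP.Site
open Pool.Agent.H4R2.LO (Zd)
open Pool.Agent.H695R3.AN (lf lf_inj lf_add lf_sub)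
open Pool.Agent.TH794.LL2 Pool.Agent.TH794.FG

variable {d L : ℕ} [NeZero L]

/-- the phase -/
noncomputable def ph (q : Fin d → ℝ) (x : Zd d) : ℂ :=
  Complex.exp (Complex.I * ((-∑ i, q i * x i : ℝ) : ℂ))

theorem norm_ph (q : Fin d → ℝ) (x : Zd d) : ‖ph q x‖ = 1 := by
  unfold ph
  rw [mul_comm]
  exact Complex.norm_exp_ofReal_mul_I _

theorem ph_re (q : Fin d → ℝ) (x : Zd d) : (ph q x).re = Real.cos (∑ i, q i * x i) := by
  unfold ph
  rw [mul_comm, Complex.exp_ofReal_mul_I_re, Real.cos_neg]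

/-- the nearest frequency of the torus -/
noncomputable def nf (L : ℕ) (q : Fin d → ℝ) : T d L :=
  fun i => ((round (q i * L / (2 * Real.pi)) : ℤ) : ZMod L)

theorem exp_diff (A B : ℝ) : ‖Complex.exp (Complex.I * (A : ℂ)) - Complex.exp (Complex.I * (B : ℂ))‖ ≤
    |A - B| := by
  have h1 : Complex.exp (Complex.I * (A : ℂ)) - Complex.exp (Complex.I * (B : ℂ)) =
      Complex.exp (Complex.I * (B : ℂ)) * (Complex.exp (Complex.I * ((A - B : ℝ) : ℂ)) - 1) := by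
    rw [mul_sub, ← Complex.exp_add, mul_one]
    congr 2
    push_cast
    ring
  rw [h1, norm_mul]
  have h2 : ‖Complex.exp (Complex.I * (B : ℂ))‖ = 1 := by
    rw [mul_comm]
    exact Complex.norm_exp_ofReal_mul_I _
  rw [h2, one_mul]
  exact Real.norm_exp_I_mul_ofReal_sub_one_le

/-- the character in terms of integers -/
theorem e_lift (q : Fin d → ℝ) (y : T d L) : (starRingEnd ℂ) (e (nf L q) y) =
    Complex.exp (Complex.I * ((-∑ i, (2 * Real.pi * (round (q i * L / (2 * Real.pi)) : ℤ) / L) *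
      (lf y : Zd d) i : ℝ) : ℂ)) := by
  have h1 : (∑ i, nf L q i * y i) =
      ((∑ i, round (q i * L / (2 * Real.pi)) * (lf y : Zd d) i : ℤ) : ZMod L) := by
    push_cast
    refine Finset.sum_congr rfl fun i _ => ?_
    unfold nf lf
    rw [ZMod.coe_valMinAbs]
  unfold e
  rw [h1, ZMod.stdAddChar_coe, ← Complex.exp_conj]
  congr 1
  simp only [map_div₀, map_mul, Complex.conj_ofReal, Complex.conj_I, map_ofNat, map_intCast,
    map_natCast]
  push_cast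
  rw [Finset.mul_sum, Finset.sum_div, ← Finset.sum_neg_distrib, Finset.mul_sum]
  refine Finset.sum_congr rfl fun i _ => ?_
  ring

/-- the phases agree near the origin -/
theorem ph_near (q : Fin d → ℝ) (ℓ : ℝ) (_hℓ : 0 ≤ ℓ) (y : T d L) (hy : ‖(lf y : Zd d)‖ ≤ 2 * ℓ) :
    ‖ph q (lf y) - (starRingEnd ℂ) (e (nf L q) y)‖ ≤ 2 * Real.pi * ℓ * d / L := by
  have hL : (0 : ℝ) < L := by exact_mod_cast Nat.pos_of_ne_zero (NeZero.ne L)
  rw [e_lift]
  unfold ph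
  refine (exp_diff _ _).trans ?_
  have h1 : (-∑ i, q i * (lf y : Zd d) i) - (-∑ i, (2 * Real.pi *
      (round (q i * L / (2 * Real.pi)) : ℤ) / L) * ((lf y : Zd d) i : ℝ)) =
      -∑ i, (2 * Real.pi / L * (q i * L / (2 * Real.pi) -
        (round (q i * L / (2 * Real.pi)) : ℤ))) * ((lf y : Zd d) i : ℝ) := by
    rw [neg_sub_neg, ← Finset.sum_sub_distrib, ← Finset.sum_neg_distrib]
    refine Finset.sum_congr rfl fun i _ => ?_
    field_simp
    ring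
  rw [h1, abs_neg]
  refine (Finset.abs_sum_le_sum_abs _ _).trans ?_
  have h2 : ∀ i : Fin d, |(2 * Real.pi / L * (q i * L / (2 * Real.pi) -
        (round (q i * L / (2 * Real.pi)) : ℤ))) * ((lf y : Zd d) i : ℝ)| ≤
      (2 * Real.pi / L * (1 / 2)) * (2 * ℓ) := by
    intro i
    rw [abs_mul, abs_mul, abs_of_pos (by positivity : (0 : ℝ) < 2 * Real.pi / L)]
    have e1 := abs_sub_round (q i * L / (2 * Real.pi))
    have e2 : |((lf y : Zd d) i : ℝ)| ≤ 2 * ℓ := by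
      have := norm_le_pi_norm (lf y : Zd d) i
      rw [Int.norm_eq_abs] at this
      exact this.trans hy
    gcongr
  refine (Finset.sum_le_sum fun i _ => h2 i).trans ?_
  rw [Finset.sum_const, Finset.card_univ, Fintype.card_fin, nsmul_eq_mul]
  apply le_of_eq
  field_simp

/-- cutting off a weighted sum -/
theorem cutsum (ℓ ϖ : ℝ) (hℓ0 : 0 < ℓ) (hL : 4 * ℓ + 4 < L) (S : Zd d → ℝ) (hS0 : ∀ x, 0 ≤ S x)
    (hS : Summable S) (W : Zd d → ℂ) (hW : ∀ x, ‖W x‖ ≤ 1) (W' : T d L → ℂ)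
    (hWW : ∀ y : T d L, ‖(lf y : Zd d)‖ ≤ 2 * ℓ → ‖W (lf y) - W' y‖ ≤ ϖ) :
    ‖∑' x, W x * (S x : ℂ) - ∑ y : T d L, W' y * ((φ ℓ (lf y) ^ 2 * S (lf y) : ℝ) : ℂ)‖ ≤
      (∑' x, S x - ∑ y : T d L, φ ℓ (lf y) ^ 2 * S (lf y)) +
        ϖ * ∑ y : T d L, φ ℓ (lf y) ^ 2 * S (lf y) := by
  have hφ1 : ∀ x : Zd d, φ ℓ x ^ 2 ≤ 1 := fun x => pow_le_one₀ (φ_nonneg _ _) (φ_le_one _ _)
  have hmem : ∀ x : Zd d, φ ℓ x ≠ 0 → x ∈ Set.range (lf (d := d) (L := L)) := by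
    intro x hx
    have h1 : ‖x‖ < 2 * ℓ := by
      by_contra hcon
      push Not at hcon
      exact hx (φ_zero ℓ hℓ0 x hcon)
    exact ⟨z L x, lf_z x (by linarith)⟩
  have hSφ : Summable fun x => φ ℓ x ^ 2 * S x :=
    Summable.of_nonneg_of_le (fun x => mul_nonneg (sq_nonneg _) (hS0 x))
      (fun x => mul_le_of_le_one_left (hS0 x) (hφ1 x)) hS
  have hB : ∑' x, φ ℓ x ^ 2 * S x = ∑ y : T d L, φ ℓ (lf y) ^ 2 * S (lf y) := by
    rw [← tsum_fintype (L := .unconditional _)]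
    refine (lf_inj.tsum_eq ?_).symm
    intro x hx
    apply hmem
    intro h0
    apply hx
    simp only [h0]
    ring
  have hA : ∑' x, W x * ((φ ℓ x ^ 2 * S x : ℝ) : ℂ) =
      ∑ y : T d L, W (lf y) * ((φ ℓ (lf y) ^ 2 * S (lf y) : ℝ) : ℂ) := by
    rw [← tsum_fintype (L := .unconditional _)]
    refine (lf_inj.tsum_eq (f := fun x => W x * ((φ ℓ x ^ 2 * S x : ℝ) : ℂ)) ?_).symm
    intro x hx
    apply hmem
    intro h0
    apply hx
    simp only [h0]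
    simp
  have hWS : ∀ f : Zd d → ℝ, (∀ x, 0 ≤ f x) → Summable f → Summable fun x => W x * (f x : ℂ) := by
    intro f hf0 hf
    refine Summable.of_norm_bounded (g := f) hf fun x => ?_
    rw [norm_mul, Complex.norm_real, Real.norm_of_nonneg (hf0 x)]
    exact mul_le_of_le_one_left (hf0 x) (hW x)
  have hC : ‖∑' x, W x * (S x : ℂ) - ∑' x, W x * ((φ ℓ x ^ 2 * S x : ℝ) : ℂ)‖ ≤
      ∑' x, S x - ∑' x, φ ℓ x ^ 2 * S x := by
    rw [← (hWS S hS0 hS).tsum_sub (hWS _ (fun x => mul_nonneg (sq_nonneg _) (hS0 x)) hSφ),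
      ← hS.tsum_sub hSφ]
    refine tsum_of_norm_bounded (hS.sub hSφ).hasSum fun x => ?_
    rw [← mul_sub, ← Complex.ofReal_sub, norm_mul, Complex.norm_real]
    have h1 : 0 ≤ S x - φ ℓ x ^ 2 * S x := by
      have := mul_le_of_le_one_left (hS0 x) (hφ1 x)
      linarith
    rw [Real.norm_of_nonneg h1]
    exact mul_le_of_le_one_left h1 (hW x)
  have hD : ‖∑ y : T d L, W (lf y) * ((φ ℓ (lf y) ^ 2 * S (lf y) : ℝ) : ℂ) -
      ∑ y : T d L, W' y * ((φ ℓ (lf y) ^ 2 * S (lf y) : ℝ) : ℂ)‖ ≤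
      ϖ * ∑ y : T d L, φ ℓ (lf y) ^ 2 * S (lf y) := by
    rw [← Finset.sum_sub_distrib, Finset.mul_sum]
    refine (norm_sum_le _ _).trans (Finset.sum_le_sum fun y _ => ?_)
    rw [← sub_mul, norm_mul, Complex.norm_real]
    have h1 : 0 ≤ φ ℓ (lf y) ^ 2 * S (lf y) := mul_nonneg (sq_nonneg _) (hS0 _)
    rw [Real.norm_of_nonneg h1]
    rcases eq_or_ne (φ ℓ (lf y)) 0 with h0 | h0
    · rw [h0]
      simp
    · have h2 : ‖(lf y : Zd d)‖ ≤ 2 * ℓ := by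
        by_contra hcon
        push Not at hcon
        exact h0 (φ_zero ℓ hℓ0 _ hcon.le)
      exact mul_le_mul_of_nonneg_right (hWW y h2) h1
  have hE : ∑' x, W x * (S x : ℂ) - ∑ y : T d L, W' y * ((φ ℓ (lf y) ^ 2 * S (lf y) : ℝ) : ℂ) =
      (∑' x, W x * (S x : ℂ) - ∑' x, W x * ((φ ℓ x ^ 2 * S x : ℝ) : ℂ)) +
      (∑ y : T d L, W (lf y) * ((φ ℓ (lf y) ^ 2 * S (lf y) : ℝ) : ℂ) -
        ∑ y : T d L, W' y * ((φ ℓ (lf y) ^ 2 * S (lf y) : ℝ) : ℂ)) := by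
    rw [hA]
    ring
  rw [hE]
  rw [hB] at hC
  exact (norm_add_le _ _).trans (add_le_add hC hD)

/-- the Green function of the lattice as an approximate Green function of the torus -/
theorem LG_tor3 {σ : ℝ} {ξ : Zd d → ℝ} {E t : ℝ} {ur ui : Zd d → ℝ} (ℓ : ℝ) (hℓ0 : 0 < ℓ)
    (hL : 4 * ℓ + 4 < L) (ht : 0 < t) (h : LG d σ ξ 0 E t ur ui) :
    ∃ rr ri : T d L → ℝ, Sol2 E t (fun y => σ * ξ (lf y)) (fun y => φ ℓ (lf y) * ur (lf y))
      (fun y => φ ℓ (lf y) * ui (lf y)) rr ri ∧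
      Real.sqrt (Bq rr ri) ≤ 2 * d / ℓ * t⁻¹ ∧
      Real.sqrt (Bq (fun y : T d L => φ ℓ (lf y) * ur (lf y))
        (fun y => φ ℓ (lf y) * ui (lf y))) ≤ t⁻¹ ∧
      t * (∑' x, (ur x ^ 2 + ui x ^ 2) - ∑ y : T d L, φ ℓ (lf y) ^ 2 *
        (ur (lf y) ^ 2 + ui (lf y) ^ 2)) ≤ 2 * d / ℓ * t⁻¹ * t⁻¹ := by
  obtain ⟨rr, hr1, hr2, hr3⟩ := cut2 (L := L) σ E ℓ hℓ0 hL ξ ur _ h.sr h.er
  obtain ⟨ri, hi1, hi2, hi3⟩ := cut2 (L := L) σ E ℓ hℓ0 hL ξ ui _ h.si h.ei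
  have hn := h.norm ht
  have hz : z L (0 : Zd d) = (0 : T d L) := by
    funext i
    simp [z]
  have h7 : lf (0 : T d L) = 0 := by
    rw [← hz]
    apply lf_z 0
    rw [norm_zero]
    linarith
  have h8 : φ ℓ (0 : Zd d) = 1 := φ_one ℓ hℓ0 0 (by rw [norm_zero]; exact hℓ0.le)
  have hsol : Sol2 E t (fun y => σ * ξ (lf y)) (fun y : T d L => φ ℓ (lf y) * ur (lf y))
      (fun y => φ ℓ (lf y) * ui (lf y)) rr ri := by
    refine ⟨fun x => ?_, fun x => ?_⟩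
    · rw [hr1 x]
      have h9 : (if lf x = 0 then (1 : ℝ) else 0) = if x = 0 then 1 else 0 := by
        by_cases hx : x = 0
        · rw [if_pos hx, if_pos (by rw [hx]; exact h7)]
        · rw [if_neg hx, if_neg]
          intro hl
          apply hx
          apply lf_inj
          rw [hl, h7]
      have h10 : φ ℓ (lf x) * (if x = 0 then (1 : ℝ) else 0) = if x = 0 then 1 else 0 := by
        by_cases hx : x = 0
        · rw [if_pos hx, hx, h7, h8, one_mul]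
        · rw [if_neg hx, mul_zero]
      rw [h9, mul_sub, h10]
      ring
    · rw [hi1 x]
      ring
  have hBr : Real.sqrt (Bq rr ri) ≤ 2 * d / ℓ * t⁻¹ := by
    rw [Real.sqrt_le_left (by positivity)]
    calc Bq rr ri ≤ (2 * d / ℓ) ^ 2 * ∑' x, ur x ^ 2 + (2 * d / ℓ) ^ 2 * ∑' x, ui x ^ 2 :=
          add_le_add hr3 hi3
      _ = (2 * d / ℓ) ^ 2 * (∑' x, ur x ^ 2 + ∑' x, ui x ^ 2) := by ring
      _ ≤ (2 * d / ℓ) ^ 2 * (t⁻¹) ^ 2 := by gcongr
      _ = _ := by ring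
  have hBv : Real.sqrt (Bq (fun y : T d L => φ ℓ (lf y) * ur (lf y))
      (fun y => φ ℓ (lf y) * ui (lf y))) ≤ t⁻¹ := by
    rw [Real.sqrt_le_left (by positivity)]
    exact (add_le_add hr2 hi2).trans hn
  refine ⟨rr, ri, hsol, hBr, hBv, ?_⟩
  have hw := ward2 hsol
  have hw2 := h.ward
  rw [h7, h8, one_mul] at hw
  have hBq : Bq (fun y : T d L => φ ℓ (lf y) * ur (lf y)) (fun y => φ ℓ (lf y) * ui (lf y)) =
      ∑ y : T d L, φ ℓ (lf y) ^ 2 * (ur (lf y) ^ 2 + ui (lf y) ^ 2) := by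
    unfold Bq
    rw [← Finset.sum_add_distrib]
    exact Finset.sum_congr rfl fun y _ => by ring
  rw [h.sr.tsum_add h.si, ← hBq, mul_sub, hw2]
  have h9 := (abs_le.1 hw).1
  have h11 : Real.sqrt (Bq (fun y : T d L => φ ℓ (lf y) * ur (lf y))
      (fun y => φ ℓ (lf y) * ui (lf y))) * Real.sqrt (Bq rr ri) ≤ t⁻¹ * (2 * d / ℓ * t⁻¹) :=
    mul_le_mul hBv hBr (Real.sqrt_nonneg _) (by positivity)
  have h12 : t⁻¹ * (2 * d / ℓ * t⁻¹) = 2 * d / ℓ * t⁻¹ * t⁻¹ := by ring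
  linarith

end Pool.Agent.TH791.QD
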